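import Mathlib

/-! Asymptotic expansions along a filter, Cauchy and Taylor estimates. -/

namespace Pool.Agent.P.MP_26ad15_nt

open Complex Set Filter Topology Asymptotics Metric

section Asy

variable {α : Type*} {l : Filter α} {σ : α → ℂ} {N : ℕ} {f g : α → ℂ} {a b : PowerSeries ℂ}

/-- `f` has the expansion `a` in powers of `σ` up to order `N`. -/
def AsyN (l : Filter α) (σ : α → ℂ) (N : ℕ) (f : α → ℂ) (a : PowerSeries ℂ) : Prop :=
  ∃ P : Polynomial ℂ, PowerSeries.X ^ N ∣ a - (P : PowerSeries ℂ) ∧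
    (fun t => f t - P.eval (σ t)) =O[l] fun t => σ t ^ N

lemma poly_isBigO_one (hσ : Tendsto σ l (𝓝 0)) (P : Polynomial ℂ) :
    (fun t => P.eval (σ t)) =O[l] fun _ => (1 : ℝ) :=
  ((P.continuous.tendsto 0).comp hσ).isBigO_one ℝ

lemma poly_isBigO_pow (hσ : Tendsto σ l (𝓝 0)) {P : Polynomial ℂ}
    (h : PowerSeries.X ^ N ∣ (P : PowerSeries ℂ)) :
    (fun t => P.eval (σ t)) =O[l] fun t => σ t ^ N := by
  obtain ⟨Q, rfl⟩ : Polynomial.X ^ N ∣ P := Polynomial.X_pow_dvd_iff.2 fun d hd => by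
    simpa using PowerSeries.X_pow_dvd_iff.1 h d hd
  simpa using (isBigO_refl (fun t => σ t ^ N) l).mul ((poly_isBigO_one hσ Q).trans
    (isBigO_const_const (1 : ℝ) (one_ne_zero (α := ℂ)) l))

lemma pow_isBigO_pow (hσ : Tendsto σ l (𝓝 0)) {M : ℕ} (h : M ≤ N) :
    (fun t => σ t ^ N) =O[l] fun t => σ t ^ M := by
  simpa using poly_isBigO_pow hσ (N := M) (P := Polynomial.X ^ N) (by simpa using pow_dvd_pow _ h)

lemma AsyN.any (hσ : Tendsto σ l (𝓝 0)) (h : AsyN l σ N f a) {Q : Polynomial ℂ}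
    (hQ : PowerSeries.X ^ N ∣ a - (Q : PowerSeries ℂ)) :
    (fun t => f t - Q.eval (σ t)) =O[l] fun t => σ t ^ N := by
  obtain ⟨P, h1, h2⟩ := h
  have := poly_isBigO_pow hσ (P := P - Q) (by simpa using hQ.sub h1)
  simpa using h2.add this

lemma AsyN.congr_left (h : AsyN l σ N f a) (hg : (fun t => g t - f t) =O[l] fun t => σ t ^ N) :
    AsyN l σ N g a :=
  let ⟨P, h1, h2⟩ := h
  ⟨P, h1, by simpa using hg.add h2⟩

lemma AsyN.congr' (h : AsyN l σ N f a) (hg : f =ᶠ[l] g) : AsyN l σ N g a :=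
  h.congr_left ((isBigO_zero _ _).congr' (hg.mono fun t ht => by simp [ht]) EventuallyEq.rfl)

lemma AsyN.congr_right (h : AsyN l σ N f a) (hb : PowerSeries.X ^ N ∣ b - a) : AsyN l σ N f b :=
  let ⟨P, h1, h2⟩ := h
  ⟨P, by simpa using hb.add h1, h2⟩

lemma AsyN.poly (l : Filter α) (σ : α → ℂ) (N : ℕ) (P : Polynomial ℂ) :
    AsyN l σ N (fun t => P.eval (σ t)) P :=
  ⟨P, by simp, by simpa using isBigO_zero _ _⟩

lemma AsyN.const (l : Filter α) (σ : α → ℂ) (N : ℕ) (c : ℂ) :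
    AsyN l σ N (fun _ => c) (PowerSeries.C c) := by
  simpa using AsyN.poly l σ N (Polynomial.C c)

lemma dvd_sub_trunc {R : Type*} [CommRing R] (N : ℕ) (a : PowerSeries R) :
    PowerSeries.X ^ N ∣ a - (PowerSeries.trunc N a : PowerSeries R) :=
  PowerSeries.X_pow_dvd_iff.2 fun d hd => by simp [PowerSeries.coeff_trunc, hd]

lemma AsyN.trunc (l : Filter α) (σ : α → ℂ) (N : ℕ) (a : PowerSeries ℂ) :
    AsyN l σ N (fun t => (PowerSeries.trunc N a).eval (σ t)) a :=
  (AsyN.poly l σ N _).congr_right (dvd_sub_trunc N a)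

lemma AsyN.add (h : AsyN l σ N f a) (h' : AsyN l σ N g b) :
    AsyN l σ N (fun t => f t + g t) (a + b) := by
  obtain ⟨P, h1, h2⟩ := h
  obtain ⟨Q, h3, h4⟩ := h'
  refine ⟨P + Q, by simpa [add_sub_add_comm] using h1.add h3, ?_⟩
  simpa [add_sub_add_comm] using h2.add h4

lemma AsyN.isBigO_one (hσ : Tendsto σ l (𝓝 0)) (h : AsyN l σ N f a) :
    f =O[l] fun _ => (1 : ℝ) := by
  obtain ⟨P, -, h2⟩ := h
  simpa using (h2.trans (by simpa using poly_isBigO_one hσ (Polynomial.X ^ N))).add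
    (poly_isBigO_one hσ P)

lemma AsyN.mul (hσ : Tendsto σ l (𝓝 0)) (h : AsyN l σ N f a) (h' : AsyN l σ N g b) :
    AsyN l σ N (fun t => f t * g t) (a * b) := by
  have h0 := h.isBigO_one hσ
  obtain ⟨P, h1, h2⟩ := h
  obtain ⟨Q, h3, h4⟩ := h'
  refine ⟨P * Q, ?_, ?_⟩
  · have : a * b - ((P * Q : Polynomial ℂ) : PowerSeries ℂ) = a * (b - Q) + (a - P) * Q := by
      push_cast; ring
    rw [this]
    exact (h3.mul_left _).add (h1.mul_right _)
  · have e : (fun t => f t * g t - (P * Q).eval (σ t)) =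
        fun t => f t * (g t - Q.eval (σ t)) + (f t - P.eval (σ t)) * Q.eval (σ t) := by
      funext t; simp; ring
    rw [e]
    refine IsBigO.add ?_ ?_
    · exact IsBigO.of_norm_right (by simpa only [one_mul] using h0.mul h4.norm_right)
    · exact IsBigO.of_norm_right
        (by simpa only [mul_one] using h2.norm_right.mul (poly_isBigO_one hσ Q))

lemma AsyN.const_mul (h : AsyN l σ N f a) (c : ℂ) :
    AsyN l σ N (fun t => c * f t) (PowerSeries.C c * a) := by
  obtain ⟨P, h1, h2⟩ := h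
  refine ⟨Polynomial.C c * P, by simpa [mul_sub] using h1.mul_left (PowerSeries.C c), ?_⟩
  simpa [mul_sub] using h2.const_mul_left c

lemma AsyN.sub (h : AsyN l σ N f a) (h' : AsyN l σ N g b) :
    AsyN l σ N (fun t => f t - g t) (a - b) := by
  simpa [sub_eq_add_neg] using h.add (h'.const_mul (-1))

lemma AsyN.pow (hσ : Tendsto σ l (𝓝 0)) (h : AsyN l σ N f a) (m : ℕ) :
    AsyN l σ N (fun t => f t ^ m) (a ^ m) := by
  induction m with
  | zero => simpa using AsyN.const l σ N 1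
  | succ m ih => simpa only [pow_succ] using ih.mul hσ h

lemma AsyN.sum {ι : Type*} (s : Finset ι) {f : ι → α → ℂ} {a : ι → PowerSeries ℂ}
    (h : ∀ i ∈ s, AsyN l σ N (f i) (a i)) :
    AsyN l σ N (fun t => ∑ i ∈ s, f i t) (∑ i ∈ s, a i) := by
  classical
  induction s using Finset.induction_on with
  | empty => simpa using AsyN.const l σ N 0
  | insert i s hi ih =>
    simp only [Finset.sum_insert hi]
    exact (h i (Finset.mem_insert_self _ _)).add (ih fun j hj => h j (Finset.mem_insert_of_mem hj))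

lemma AsyN.mono (hσ : Tendsto σ l (𝓝 0)) (h : AsyN l σ N f a) {M : ℕ} (hM : M ≤ N) :
    AsyN l σ M f a :=
  let ⟨P, h1, h2⟩ := h
  ⟨P, (pow_dvd_pow _ hM).trans h1, h2.trans (pow_isBigO_pow hσ hM)⟩

lemma AsyN.comp {β : Type*} {l' : Filter β} {k : β → α} (h : AsyN l σ N f a) (hk : Tendsto k l' l) :
    AsyN l' (fun t => σ (k t)) N (fun t => f (k t)) a :=
  let ⟨P, h1, h2⟩ := h
  ⟨P, h1, h2.comp_tendsto hk⟩

lemma AsyN.isBigO (hσ : Tendsto σ l (𝓝 0)) (h : AsyN l σ N f a) (ha : PowerSeries.X ^ N ∣ a) :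
    f =O[l] fun t => σ t ^ N := by
  simpa using h.any hσ (Q := 0) (by simpa using ha)

lemma AsyN.tendsto (hσ : Tendsto σ l (𝓝 0)) (h : AsyN l σ N f a) (hN : N ≠ 0) :
    Tendsto f l (𝓝 (PowerSeries.constantCoeff a)) := by
  have h1 := (h.mono hσ (Nat.one_le_iff_ne_zero.2 hN)).any hσ
    (Q := Polynomial.C (PowerSeries.constantCoeff a)) (by simp [PowerSeries.X_dvd_iff])
  simpa [tendsto_sub_nhds_zero_iff] using h1.trans_tendsto (by simpa using hσ)

lemma AsyN.lower (hσ : Tendsto σ l (𝓝 0)) (h : AsyN l σ N f a) {k : ℕ} (hk : k < N)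
    (h' : ¬ PowerSeries.X ^ (k + 1) ∣ a) : ∃ c > 0, ∀ᶠ t in l, c * ‖σ t‖ ^ k ≤ ‖f t‖ := by
  induction k with
  | zero =>
    have h1 : PowerSeries.constantCoeff a ≠ 0 := by simpa [PowerSeries.X_dvd_iff] using h'
    refine ⟨‖PowerSeries.constantCoeff a‖ / 2, half_pos (norm_pos_iff.2 h1), ?_⟩
    simpa using (h.tendsto hσ hk.ne').norm.eventually_const_le (half_lt_self (norm_pos_iff.2 h1))
  | succ k ih =>
    by_cases h1 : PowerSeries.X ^ (k + 1) ∣ a
    · set c := PowerSeries.coeff (k + 1) a with hc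
      have c0 : c ≠ 0 := fun h0 => h' (PowerSeries.X_pow_dvd_iff.2 fun d hd => by
        rcases Nat.lt_succ_iff_lt_or_eq.1 hd with h | rfl
        · exact PowerSeries.X_pow_dvd_iff.1 h1 d h
        · exact h0)
      have h2 := (h.mono hσ hk).any hσ (Q := Polynomial.C c * Polynomial.X ^ (k + 1))
        (PowerSeries.X_pow_dvd_iff.2 fun d hd => by
          rcases Nat.lt_succ_iff_lt_or_eq.1 hd with h | rfl
          · simp [PowerSeries.X_pow_dvd_iff.1 h1 d h, PowerSeries.coeff_X_pow, h.ne]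
          · simp [hc])
      have h3 : (fun t => σ t ^ (k + 1 + 1)) =o[l] fun t => σ t ^ (k + 1) := by
        simpa [pow_succ _ (k + 1)] using (isBigO_refl (fun t => σ t ^ (k + 1)) l).mul_isLittleO
          ((isLittleO_one_iff ℂ).2 hσ)
      refine ⟨‖c‖ / 2, half_pos (norm_pos_iff.2 c0), ?_⟩
      filter_upwards [(h2.trans_isLittleO h3).def (half_pos (norm_pos_iff.2 c0))] with t ht
      have := norm_sub_norm_le (c * σ t ^ (k + 1)) (f t)
      rw [norm_sub_rev, norm_mul, norm_pow] at this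
      simp only [Polynomial.eval_mul, Polynomial.eval_C, Polynomial.eval_pow, Polynomial.eval_X,
        norm_pow] at ht
      linarith
    · obtain ⟨c, c0, hc⟩ := ih (by omega) h1
      refine ⟨c, c0, ?_⟩
      filter_upwards [hc, hσ.norm.eventually_le_const (show ‖(0 : ℂ)‖ < 1 by simp)] with t h2 h3
      refine le_trans ?_ h2
      gcongr ?_ * ?_
      exact pow_le_pow_of_le_one (norm_nonneg _) h3 (Nat.le_succ k)

lemma AsyN.dvd [l.NeBot] (hσ : Tendsto σ l (𝓝 0)) (h0 : ∀ᶠ t in l, σ t ≠ 0) (h : AsyN l σ N f a)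
    (hf : f =O[l] fun t => σ t ^ N) : PowerSeries.X ^ N ∣ a := by
  cases N with
  | zero => simp
  | succ N =>
    by_contra hc
    obtain ⟨c, c0, h1⟩ := h.lower hσ (Nat.lt_succ_self N) hc
    have h3 : (fun t => σ t ^ (N + 1)) =o[l] fun t => σ t ^ N := by
      simpa [pow_succ] using (isBigO_refl (fun t => σ t ^ N) l).mul_isLittleO
        ((isLittleO_one_iff ℂ).2 hσ)
    obtain ⟨t, h4, h5, h6⟩ := (h1.and (((hf.trans_isLittleO h3).def (half_pos c0)).and h0)).exists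
    rw [norm_pow] at h5
    have : 0 < ‖σ t‖ ^ N := pow_pos (norm_pos_iff.2 h6) N
    nlinarith

lemma AsyN.unique [l.NeBot] (hσ : Tendsto σ l (𝓝 0)) (h0 : ∀ᶠ t in l, σ t ≠ 0)
    (h : AsyN l σ N f a) (h' : AsyN l σ N f b) : PowerSeries.X ^ N ∣ a - b :=
  (h.sub h').dvd hσ h0 (by simpa using isBigO_zero _ _)

lemma AsyN.inv (hσ : Tendsto σ l (𝓝 0)) (h : AsyN l σ N f a) (hab : a * b = 1) (hN : N ≠ 0) :
    AsyN l σ N (fun t => (f t)⁻¹) b := by
  have c0 : PowerSeries.constantCoeff a ≠ 0 := left_ne_zero_of_mul_eq_one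
    (by rw [← map_mul, hab, map_one])
  have t := h.tendsto hσ hN
  have h1 := (h.mul hσ (AsyN.trunc l σ N b)).any hσ (Q := 1) (by simp [hab])
  refine (AsyN.trunc l σ N b).congr_left ?_
  have h2 := ((t.inv₀ c0).isBigO_one ℝ).mul h1.norm_right
  simp only [one_mul] at h2
  refine h2.of_norm_right.neg_left.congr' ?_ EventuallyEq.rfl
  filter_upwards [t.eventually_ne c0] with x hx
  simp only [Polynomial.eval_one]
  field_simp
  ring

lemma eq_of_forall_dvd {R : Type*} [CommRing R] {a b : PowerSeries R}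
    (h : ∀ N, PowerSeries.X ^ N ∣ a - b) : a = b := by
  ext n
  have := PowerSeries.X_pow_dvd_iff.1 (h (n + 1)) n (Nat.lt_succ_self n)
  rwa [map_sub, sub_eq_zero] at this

lemma exists_limit {R : Type*} [CommRing R] {a : ℕ → PowerSeries R}
    (h : ∀ N, PowerSeries.X ^ N ∣ a (N + 1) - a N) :
    ∃ b, ∀ N, PowerSeries.X ^ N ∣ b - a N := by
  have h1 : ∀ N M, N ≤ M → PowerSeries.X ^ N ∣ a M - a N := fun N M hM => by
    induction M, hM using Nat.le_induction with
    | base => simp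
    | succ M hM ih => simpa using ((pow_dvd_pow _ hM).trans (h M)).add ih
  refine ⟨PowerSeries.mk fun n => PowerSeries.coeff n (a (n + 1)), fun N =>
    PowerSeries.X_pow_dvd_iff.2 fun d hd => ?_⟩
  have := PowerSeries.X_pow_dvd_iff.1 (h1 (d + 1) N hd) d (Nat.lt_succ_self d)
  simp only [map_sub, PowerSeries.coeff_mk] at this ⊢
  linear_combination -this

end Asy

section Taylor

/-- Bounded holomorphic functions on a disc. -/
def Bdd (r C : ℝ) (f : ℂ → ℂ) : Prop :=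
  DifferentiableOn ℂ f (ball 0 (4 * r)) ∧ ∀ z ∈ ball (0 : ℂ) (4 * r), ‖f z‖ ≤ C

variable {r C : ℝ} {f g : ℂ → ℂ}

lemma Bdd.analyticAt (h : Bdd r C f) (hr : 0 < r) {y : ℂ} (hy : ‖y‖ ≤ 2 * r) : AnalyticAt ℂ f y :=
  h.1.analyticAt (isOpen_ball.mem_nhds (by rw [mem_ball_zero_iff]; linarith))

lemma hasDerivAt_iteratedDeriv {y : ℂ} (h : AnalyticAt ℂ f y) (l : ℕ) :
    HasDerivAt (iteratedDeriv l f) (iteratedDeriv (l + 1) f y) y := by
  rw [iteratedDeriv_succ, iteratedDeriv_eq_iterate]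
  exact (h.iterated_deriv l).differentiableAt.hasDerivAt

lemma Bdd.norm_le (h : Bdd r C f) (hr : 0 < r) (l : ℕ) {y : ℂ} (hy : ‖y‖ ≤ 2 * r) :
    ‖iteratedDeriv l f y‖ ≤ l.factorial * C / r ^ l := by
  have hs : closedBall y r ⊆ ball 0 (4 * r) := fun z hz => by
    have := norm_le_norm_add_norm_sub' z y
    rw [mem_closedBall, dist_eq_norm] at hz
    rw [mem_ball_zero_iff]
    linarith
  refine norm_iteratedDeriv_le_of_forall_mem_sphere_norm_le l hr ?_ fun z hz =>
    h.2 z (hs (sphere_subset_closedBall hz))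
  exact DifferentiableOn.diffContOnCl (by rw [closure_ball y hr.ne']; exact h.1.mono hs)

lemma Bdd.norm_sub_le {C' ε : ℝ} (h : Bdd r C f) (h' : Bdd r C' g) (hr : 0 < r)
    (hε : ∀ z ∈ ball (0 : ℂ) (4 * r), ‖f z - g z‖ ≤ ε) (l : ℕ) {y : ℂ} (hy : ‖y‖ ≤ 2 * r) :
    ‖iteratedDeriv l f y - iteratedDeriv l g y‖ ≤ l.factorial * ε / r ^ l := by
  rw [← iteratedDeriv_sub (h.analyticAt hr hy).contDiffAt (h'.analyticAt hr hy).contDiffAt]
  exact Bdd.norm_le (f := f - g) ⟨h.1.sub h'.1, hε⟩ hr l hy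

lemma Bdd.taylor (h : Bdd r C f) (hr : 0 < r) {y : ℂ} (hy : ‖y‖ ≤ 2 * r) (N : ℕ) :
    ∀ (l : ℕ) (δ : ℂ), ‖y + δ‖ ≤ 2 * r → ‖iteratedDeriv l f (y + δ) - ∑ m ∈ Finset.range N,
      iteratedDeriv (l + m) f y * (δ ^ m / m.factorial)‖ ≤
      (l + N).factorial * C / r ^ (l + N) * ‖δ‖ ^ N := by
  induction N with
  | zero => intro l δ hδ; simpa using h.norm_le hr l hδ
  | succ N ih =>
    intro l δ hδ
    have C0 : 0 ≤ C := (norm_nonneg _).trans (h.2 0 (mem_ball_self (by linarith)))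
    set S := {d : ℂ | ‖y + d‖ ≤ 2 * r} ∩ closedBall 0 ‖δ‖ with hS
    have hc : Convex ℝ S := by
      refine Convex.inter ?_ (convex_closedBall _ _)
      have : {d : ℂ | ‖y + d‖ ≤ 2 * r} = closedBall (-y) (2 * r) := by
        ext d; simp [dist_eq_norm, add_comm]
      rw [this]
      exact convex_closedBall _ _
    have hd : ∀ d ∈ S, HasDerivWithinAt (fun d => iteratedDeriv l f (y + d) -
        ∑ m ∈ Finset.range (N + 1), iteratedDeriv (l + m) f y * (d ^ m / m.factorial))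
        (iteratedDeriv (l + 1) f (y + d) - ∑ m ∈ Finset.range N,
          iteratedDeriv (l + 1 + m) f y * (d ^ m / m.factorial)) S d := fun d hd => by
      refine (((hasDerivAt_iteratedDeriv (h.analyticAt hr hd.1) l).comp_const_add y d).sub
        ?_).hasDerivWithinAt
      simp only [Finset.sum_range_succ']
      simp only [pow_zero]
      refine HasDerivAt.add_const _ (HasDerivAt.fun_sum fun m _ => ?_)
      convert! ((hasDerivAt_pow (m + 1) d).div_const ((m + 1).factorial : ℂ)).const_mul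
        (iteratedDeriv (l + (m + 1)) f y) using 1
      have : ((m + 1 : ℕ) : ℂ) ≠ 0 := by exact_mod_cast Nat.succ_ne_zero m
      rw [Nat.factorial_succ, add_assoc, add_comm 1 m, Nat.add_sub_cancel, Nat.cast_mul,
        mul_div_mul_left _ _ this]
    have := Convex.norm_image_sub_le_of_norm_hasDerivWithin_le (𝕜 := ℂ) hd
      (C := (l + 1 + N).factorial * C / r ^ (l + 1 + N) * ‖δ‖ ^ N) (fun d hd => (ih _ d hd.1).trans
        (by gcongr; exact mem_closedBall_zero_iff.1 hd.2)) hc (x := 0) (y := δ)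
      ⟨by simpa using hy, by simp⟩ ⟨hδ, by simp⟩
    rw [Finset.sum_range_succ' (fun m => iteratedDeriv (l + m) f y * (0 ^ m / m.factorial)) N]
      at this
    simpa [add_assoc, add_comm 1 N, pow_succ, mul_assoc] using this

lemma exists_ext {R : ℝ} (hR : 0 < R) (hd : DifferentiableOn ℂ f (ball 0 R \ {0}))
    (hb : f =O[𝓝[≠] 0] fun _ => (1 : ℝ)) :
    ∃ g, DifferentiableOn ℂ g (ball 0 R) ∧ ∀ z, z ≠ 0 → g z = f z := by
  refine ⟨_, differentiableOn_update_limUnder_of_isLittleO (ball_mem_nhds 0 hR) hd ?_,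
    fun z hz => Function.update_of_ne hz _ _⟩
  refine (hb.sub (isBigO_const_const _ one_ne_zero _)).trans_isLittleO ?_
  rw [isLittleO_const_left]
  right
  simp only [Function.comp_def, sub_zero, norm_inv]
  exact tendsto_norm_nhdsNE_zero.inv_tendsto_nhdsGT_zero

lemma schwarz {R R' : ℝ} (hR : R' < R) (hd : DifferentiableOn ℂ f (ball 0 R \ {0}))
    (hC : ∀ z ∈ ball (0 : ℂ) R \ {0}, ‖f z‖ ≤ C) {N : ℕ} (hN : f =O[𝓝[≠] 0] fun s => s ^ N)
    {s : ℂ} (h0 : s ≠ 0) (hs : ‖s‖ ≤ R') : ‖f s‖ ≤ C * (‖s‖ / R') ^ N := by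
  have R0 : 0 < R' := (norm_pos_iff.2 h0).trans_le hs
  obtain ⟨g, h1, h2⟩ := exists_ext (f := fun z => f z / z ^ N) (R0.trans hR)
    (hd.div (by fun_prop) fun z hz => pow_ne_zero _ hz.2) (by
      obtain ⟨c, hc⟩ := hN.bound
      refine IsBigO.of_bound c ?_
      filter_upwards [hc, self_mem_nhdsWithin] with z h1 h2
      rw [norm_div, div_le_iff₀ (norm_pos_iff.2 (pow_ne_zero _ h2))]
      simpa using h1)
  have h3 := norm_le_of_forall_mem_frontier_norm_le (U := ball 0 R') (C := C / R' ^ N) isBounded_ball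
    (DifferentiableOn.diffContOnCl (by
      rw [closure_ball _ R0.ne']; exact h1.mono (closedBall_subset_ball hR))) (fun z hz => by
      rw [frontier_ball _ R0.ne', mem_sphere_zero_iff_norm] at hz
      have z0 : z ≠ 0 := norm_pos_iff.1 (hz ▸ R0)
      rw [h2 z z0, norm_div, norm_pow, hz]
      gcongr
      exact hC z ⟨by rwa [mem_ball_zero_iff, hz], z0⟩)
    (z := s) (by rwa [closure_ball _ R0.ne', mem_closedBall_zero_iff])
  rw [h2 s h0, norm_div, norm_pow, div_le_iff₀ (pow_pos (norm_pos_iff.2 h0) N)] at h3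
  refine h3.trans_eq ?_
  rw [div_pow]
  ring

/-- The Taylor series at the origin. -/
noncomputable def tay (f : ℂ → ℂ) (l : ℕ) : PowerSeries ℂ :=
  PowerSeries.mk fun m => iteratedDeriv (l + m) f 0 / m.factorial

lemma Bdd.asyN (h : Bdd r C f) (hr : 0 < r) (l N : ℕ) :
    AsyN (𝓝 0) id N (iteratedDeriv l f) (tay f l) := by
  refine ⟨_, dvd_sub_trunc N _, IsBigO.of_bound ((l + N).factorial * C / r ^ (l + N)) ?_⟩
  filter_upwards [closedBall_mem_nhds (0 : ℂ) (show 0 < 2 * r by linarith)] with z hz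
  have := h.taylor hr (y := 0) (by simp; linarith) N l z (by simpa using hz)
  rw [zero_add] at this
  rw [norm_pow]
  convert! this using 3
  rw [PowerSeries.trunc_apply, Polynomial.eval_finsetSum, Finset.range_eq_Ico]
  refine Finset.sum_congr rfl fun m _ => ?_
  simp only [tay, Polynomial.eval_monomial, PowerSeries.coeff_mk, id]
  ring

lemma exists_asy {R : ℝ} (hR : 0 < R) (hd : DifferentiableOn ℂ f (ball 0 R \ {0}))
    (hC : ∀ z ∈ ball (0 : ℂ) R \ {0}, ‖f z‖ ≤ C) : ∃ a, ∀ N, AsyN (𝓝[≠] 0) id N f a := by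
  obtain ⟨g, h1, h2⟩ := exists_ext hR hd (IsBigO.of_bound C (by
    filter_upwards [sdiff_mem_nhdsWithin_compl (ball_mem_nhds (0 : ℂ) hR) {0}] with z hz
    simpa using hC z hz))
  have h3 : Bdd (R / 4) (max C ‖g 0‖) g := by
    rw [Bdd, mul_div_cancel₀ _ four_ne_zero]
    refine ⟨h1, fun z hz => ?_⟩
    by_cases z0 : z = 0
    · rw [z0]; exact le_max_right _ _
    · rw [h2 z z0]; exact le_max_of_le_left (hC z ⟨hz, z0⟩)
  refine ⟨tay g 0, fun N => ((h3.asyN (by linarith) 0 N).comp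
    (tendsto_id'.2 nhdsWithin_le_nhds)).congr' ?_⟩
  filter_upwards [self_mem_nhdsWithin] with z hz
  exact h2 z hz

end Taylor

end Pool.Agent.P.MP_26ad15_nt
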