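import Mathlib

/-! Three auxiliary results: a windowed Watson lemma, independence of exponential polynomials along
arithmetic progressions, and countable closed subfields. -/

namespace Pool.Agent.P.MP_26ad15_nt

open Filter Asymptotics

/-- Maximum modulus on a rectangle for the weighted function. -/
theorem window_rect {E : ℂ → ℂ} {x a b a1 b1 μ θ L C : ℝ} (ha : 1 ≤ a) (hab : a ≤ b)
    (hb : 1 < b) (h1 : a1 < θ) (h2 : θ < b1) (hμ : μ * (b1 - a1) = Real.pi) (hμ0 : 0 < μ)
    (hL : 0 ≤ L)
    (hd : DifferentiableOn ℂ E (Set.Icc (x + 1) (x + b) ×ℂ Set.Icc a1 b1))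
    (hC : ∀ τ : ℂ, x + 1 ≤ τ.re → a1 ≤ τ.im → τ.im ≤ b1 → ‖E τ‖ ≤ C)
    (hR : ∀ τ : ℂ, τ.re = x + b → a1 ≤ τ.im → τ.im ≤ b1 →
      ‖E τ‖ * Real.exp (L * Real.exp (μ * (b - a))) ≤ C) :
    ‖E (x + a + θ * Complex.I)‖ * Real.exp (L * Real.cos (μ * (θ - (a1 + b1) / 2))) ≤
      C * Real.exp (L * Real.exp (μ * (1 - a))) := by
  set d : ℝ := (a1 + b1) / 2 with hdd
  set g : ℂ → ℂ := fun τ => Complex.exp (L * Complex.exp (μ * (τ - (x + a : ℝ) - d * Complex.I)))
    with hg
  have hgn : ∀ τ : ℂ, ‖g τ‖ =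
      Real.exp (L * (Real.exp (μ * (τ.re - (x + a))) * Real.cos (μ * (τ.im - d)))) := by
    intro τ
    simp only [hg, Complex.norm_exp, Complex.re_ofReal_mul, Complex.exp_re, Complex.im_ofReal_mul]
    simp
  have hgd : Differentiable ℂ g := by
    simp only [hg]; fun_prop
  have hab1 : a1 < b1 := h1.trans h2
  have hx : x + 1 < x + b := by linarith
  have hC0 : 0 ≤ C := (norm_nonneg _).trans
    (hC ((x + 1 : ℝ) + a1 * Complex.I) (by simp) (by simp) (by simp [hab1.le]))
  have hE1 : 1 ≤ Real.exp (L * Real.exp (μ * (1 - a))) :=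
    Real.one_le_exp (mul_nonneg hL (Real.exp_pos _).le)
  have hcl : closure (Set.Ioo (x + 1) (x + b) ×ℂ Set.Ioo a1 b1) =
      Set.Icc (x + 1) (x + b) ×ℂ Set.Icc a1 b1 := by
    rw [Complex.closure_reProdIm, closure_Ioo hx.ne, closure_Ioo hab1.ne]
  have hdc : DiffContOnCl ℂ (fun τ => E τ * g τ) (Set.Ioo (x + 1) (x + b) ×ℂ Set.Ioo a1 b1) := by
    apply DifferentiableOn.diffContOnCl
    rw [hcl]
    exact hd.mul hgd.differentiableOn
  have key := Complex.norm_le_of_forall_mem_frontier_norm_le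
    ((Metric.isBounded_Ioo _ _).reProdIm (Metric.isBounded_Ioo _ _)) hdc
    (C := C * Real.exp (L * Real.exp (μ * (1 - a)))) ?_ (z := x + a + θ * Complex.I) ?_
  · rw [norm_mul, hgn] at key
    simpa using key
  · intro w hw
    rw [Complex.frontier_reProdIm, closure_Ioo hx.ne, frontier_Ioo hab1, closure_Ioo hab1.ne,
      frontier_Ioo hx] at hw
    rw [norm_mul, hgn]
    rcases hw with hw | hw
    · have hre : x + 1 ≤ w.re := hw.1.1
      have him : w.im = a1 ∨ w.im = b1 := by simpa using hw.2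
      have hcos : Real.cos (μ * (w.im - d)) = 0 := by
        rcases him with h | h
        · have : μ * (w.im - d) = -(Real.pi / 2) := by rw [h, hdd, ← hμ]; ring
          rw [this, Real.cos_neg, Real.cos_pi_div_two]
        · have : μ * (w.im - d) = Real.pi / 2 := by rw [h, hdd, ← hμ]; ring
          rw [this, Real.cos_pi_div_two]
      have hb1 : ‖E w‖ ≤ C := hC w hre (by rcases him with h | h <;> linarith)
        (by rcases him with h | h <;> linarith)
      rw [hcos, mul_zero, mul_zero, Real.exp_zero, mul_one]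
      nlinarith
    · have hre : w.re = x + 1 ∨ w.re = x + b := by simpa using hw.1
      have hi1 : a1 ≤ w.im := hw.2.1
      have hi2 : w.im ≤ b1 := hw.2.2
      have hle : Real.exp (L * (Real.exp (μ * (w.re - (x + a))) * Real.cos (μ * (w.im - d)))) ≤
          Real.exp (L * Real.exp (μ * (w.re - (x + a)))) := by
        apply Real.exp_le_exp.2
        apply mul_le_mul_of_nonneg_left _ hL
        exact mul_le_of_le_one_right (Real.exp_pos _).le (Real.cos_le_one _)
      refine (mul_le_mul_of_nonneg_left hle (norm_nonneg _)).trans ?_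
      rcases hre with h | h
      · have : w.re - (x + a) = 1 - a := by rw [h]; ring
        rw [this]
        exact mul_le_mul_of_nonneg_right (hC w h.ge hi1 hi2) (Real.exp_pos _).le
      · have : w.re - (x + a) = b - a := by rw [h]; ring
        rw [this]
        have := hR w h hi1 hi2
        nlinarith
  · rw [hcl]
    refine ⟨⟨?_, ?_⟩, ?_, ?_⟩ <;> simp <;> linarith

theorem window {κ α β θ c : ℝ} (hκ : 0 < κ) (hαβ : Real.pi < κ * (β - α)) (h1 : α < θ)
    (h2 : θ < β) (hc : 0 < c) : ∃ a : ℝ, 0 < a ∧ ∀ (E : ℝ → ℂ → ℂ) (C : ℝ),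
    (∀ᶠ x in atTop, DifferentiableOn ℂ (E x) {τ | x < τ.re ∧ α < τ.im ∧ τ.im < β} ∧
      ∀ τ : ℂ, x < τ.re → α < τ.im → τ.im < β → ‖E x τ‖ ≤ C) →
    (∀ b : ℝ, 0 < b → ∃ C' : ℝ, ∀ᶠ x in atTop, ∀ τ : ℂ, τ.re = x + b → α < τ.im → τ.im < β →
      ‖E x τ‖ ≤ C' * Real.exp (-(c * Real.exp (κ * (x + b))))) →
    ∀ K : ℝ, (fun x : ℝ => E x (x + a + θ * Complex.I)) =O[atTop]
      fun x => Real.exp (-(K * Real.exp (κ * x))) := by
  have hpi := Real.pi_pos
  obtain ⟨ε, hε0, hε1, hε2, hε3⟩ : ∃ ε : ℝ, 0 < ε ∧ ε < θ - α ∧ ε < β - θ ∧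
      Real.pi < κ * (β - α - 2 * ε) := by
    have hev : ∀ᶠ ε in nhdsWithin (0 : ℝ) (Set.Ioi 0), ε < θ - α ∧ ε < β - θ ∧
        Real.pi < κ * (β - α - 2 * ε) := by
      apply Filter.Eventually.filter_mono nhdsWithin_le_nhds
      refine (eventually_lt_nhds (by linarith)).and ((eventually_lt_nhds (by linarith)).and ?_)
      have hc : ContinuousAt (fun ε : ℝ => κ * (β - α - 2 * ε)) 0 := by fun_prop
      exact hc.eventually (lt_mem_nhds (by simpa using hαβ))
    obtain ⟨ε, hε, hε'⟩ := (hev.and self_mem_nhdsWithin).exists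
    exact ⟨ε, hε', hε⟩
  set a1 := α + ε with ha1
  set b1 := β - ε with hb1
  have hθ1 : a1 < θ := by linarith
  have hθ2 : θ < b1 := by linarith
  have hpos : 0 < b1 - a1 := by linarith
  set μ := Real.pi / (b1 - a1) with hμd
  have hμ : μ * (b1 - a1) = Real.pi := by rw [hμd]; field_simp
  have hμ0 : 0 < μ := div_pos hpi hpos
  have hμκ : μ < κ := by
    rw [hμd, div_lt_iff₀ hpos]
    have : b1 - a1 = β - α - 2 * ε := by rw [ha1, hb1]; ring
    rw [this]; exact hε3
  set q := Real.cos (μ * (θ - (a1 + b1) / 2)) with hq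
  have hq0 : 0 < q := by
    apply Real.cos_pos_of_mem_Ioo
    constructor
    · rw [← hμ]; nlinarith
    · rw [← hμ]; nlinarith
  obtain ⟨a, ha, haq⟩ : ∃ a : ℝ, 1 ≤ a ∧ Real.exp (μ * (1 - a)) ≤ q / 2 := by
    have ht : Tendsto (fun a : ℝ => Real.exp (μ * (1 - a))) atTop (nhds 0) := by
      apply Real.tendsto_exp_atBot.comp
      apply Tendsto.const_mul_atBot hμ0
      exact tendsto_atBot_add_const_left _ 1 tendsto_neg_atTop_atBot
    exact ((eventually_ge_atTop 1).and (ht.eventually (ge_mem_nhds (half_pos hq0)))).exists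
  refine ⟨a, by linarith, fun E C hE hB K => ?_⟩
  set K' := 2 * |K| / q with hK'
  have hK0 : 0 ≤ K' := by positivity
  obtain ⟨b, hb, hb', hbK⟩ : ∃ b : ℝ, a ≤ b ∧ 1 < b ∧ K' ≤ c * Real.exp ((κ - μ) * b) := by
    have ht : Tendsto (fun b : ℝ => c * Real.exp ((κ - μ) * b)) atTop atTop :=
      Tendsto.const_mul_atTop hc (Real.tendsto_exp_atTop.comp
        (Tendsto.const_mul_atTop (by linarith) tendsto_id))
    exact ((eventually_ge_atTop a).and ((eventually_gt_atTop 1).and
      (ht.eventually (eventually_ge_atTop K')))).exists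
  obtain ⟨C', hC'⟩ := hB b (by linarith)
  refine IsBigO.of_bound (max C |C'|) ?_
  filter_upwards [hE, hC'] with x hx hx'
  set T := Real.exp (κ * x) with hT
  have hT0 : 0 < T := Real.exp_pos _
  have key := window_rect (E := E x) (x := x) (L := K' * T) (C := max C |C'|) ha hb hb' hθ1 hθ2
    hμ hμ0 (by positivity) ?_ ?_ ?_
  · rw [← hq] at key
    rw [Real.norm_eq_abs, abs_of_pos (Real.exp_pos _)]
    have hm : 0 ≤ max C |C'| := le_max_of_le_right (abs_nonneg _)
    have e1 : ‖E x (x + a + θ * Complex.I)‖ ≤ max C |C'| *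
        Real.exp (K' * T * Real.exp (μ * (1 - a)) - K' * T * q) := by
      rw [Real.exp_sub, ← mul_div_assoc, le_div_iff₀ (Real.exp_pos _)]
      exact key
    refine e1.trans (mul_le_mul_of_nonneg_left (Real.exp_le_exp.2 ?_) hm)
    have e2 : K' * T * Real.exp (μ * (1 - a)) ≤ K' * T * (q / 2) :=
      mul_le_mul_of_nonneg_left haq (by positivity)
    have e3 : K' * T * (q / 2) = |K| * T := by rw [hK']; field_simp
    have e4 : K * T ≤ |K| * T := mul_le_mul_of_nonneg_right (le_abs_self K) hT0.le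
    linarith
  · refine hx.1.mono fun τ hτ => ⟨?_, ?_, ?_⟩
    · have := hτ.1.1; linarith
    · have := hτ.2.1; linarith
    · have := hτ.2.2; linarith
  · intro τ t1 t2 t3
    exact (hx.2 τ (by linarith) (by linarith) (by linarith)).trans (le_max_left _ _)
  · intro τ t1 t2 t3
    have e1 := (hx' τ t1 (by linarith) (by linarith)).trans
      (mul_le_mul_of_nonneg_right (le_abs_self C') (Real.exp_pos _).le)
    refine (mul_le_mul_of_nonneg_right e1 (Real.exp_pos _).le).trans
      (le_trans ?_ (le_max_right _ _))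
    rw [mul_assoc, ← Real.exp_add]
    apply mul_le_of_le_one_right (abs_nonneg _)
    apply Real.exp_le_one_iff.2
    have e2 : Real.exp (μ * (b - a)) ≤ Real.exp (μ * b) :=
      Real.exp_le_exp.2 (by nlinarith)
    have e3 : Real.exp (κ * (x + b)) = T * (Real.exp ((κ - μ) * b) * Real.exp (μ * b)) := by
      rw [hT, ← Real.exp_add, ← Real.exp_add]; congr 1; ring
    have e4 : K' * T * Real.exp (μ * (b - a)) ≤
        c * Real.exp ((κ - μ) * b) * T * Real.exp (μ * b) := by gcongr
    rw [e3]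
    nlinarith

/-- The shift on sequences. -/
def shiftEnd (K : Type*) [Field K] : Module.End K (ℕ → K) :=
  LinearMap.funLeft K K fun t => t + 1

theorem shiftEnd_pow {K : Type*} [Field K] (n : ℕ) (f : ℕ → K) (t : ℕ) :
    (shiftEnd K ^ n) f t = f (t + n) := by
  induction n generalizing f t with
  | zero => simp
  | succ n ih =>
    rw [pow_succ, Module.End.mul_apply, ih]
    simp [shiftEnd, add_assoc]

/-- The sequence of an exponential polynomial along multiples of `n`. -/
noncomputable def epSeq {K : Type*} [Field K] (n : ℕ) (w : K) (P : Polynomial K) : ℕ → K :=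
  fun t => if n ∣ t + 1 then P.eval (((t + 1) / n : ℕ) : K) * w ^ ((t + 1) / n) else 0

theorem epSeq_step {K : Type*} [Field K] {n : ℕ} (hn : n ≠ 0) (w : K) (P : Polynomial K) :
    Polynomial.aeval (shiftEnd K) (Polynomial.X ^ n - Polynomial.C w) (epSeq n w P) =
      w • epSeq n w (Polynomial.taylor 1 P - P) := by
  funext t
  have e1 : t + n + 1 = t + 1 + n := by ring
  have e2 : (t + 1 + n) / n = (t + 1) / n + 1 := Nat.add_div_right _ (Nat.pos_of_ne_zero hn)
  simp only [map_sub, map_pow, Polynomial.aeval_X, Polynomial.aeval_C, LinearMap.sub_apply,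
    Pi.sub_apply, shiftEnd_pow, Module.algebraMap_end_apply, Pi.smul_apply, smul_eq_mul, epSeq,
    e1, e2, Nat.dvd_add_self_right]
  split_ifs
  · simp only [Polynomial.eval_sub, Polynomial.taylor_eval]
    push_cast
    ring
  · simp

theorem epSeq_kill {K : Type*} [Field K] {n : ℕ} (hn : n ≠ 0) (w : K) (m : ℕ) :
    ∀ P : Polynomial K, P.degree < m →
      Polynomial.aeval (shiftEnd K) ((Polynomial.X ^ n - Polynomial.C w) ^ m) (epSeq n w P) = 0 := by
  induction m with
  | zero =>
    intro P hP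
    have : P = 0 := by
      rw [← Polynomial.degree_eq_bot]
      simpa using hP
    subst this
    funext t
    simp [epSeq]
  | succ m ih =>
    intro P hP
    rw [pow_succ, map_mul, Module.End.mul_apply, epSeq_step hn, map_smul, ih, smul_zero]
    by_cases h0 : P = 0
    · subst h0
      simp only [map_zero, sub_self, Polynomial.degree_zero]
      exact WithBot.bot_lt_coe _
    · have hlt : (Polynomial.taylor 1 P - P).degree < (Polynomial.taylor 1 P).degree :=
        Polynomial.degree_sub_lt (Polynomial.degree_taylor P 1)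
          (by rwa [Ne, Polynomial.taylor_eq_zero]) (Polynomial.leadingCoeff_taylor _ _)
      rw [Polynomial.degree_taylor] at hlt
      rw [Polynomial.degree_eq_natDegree h0] at hlt hP
      refine hlt.trans_le ?_
      have : P.natDegree < m + 1 := by exact_mod_cast hP
      exact_mod_cast Nat.lt_succ_iff.1 this

theorem expPoly_indep {K A : Type*} [Field K] [CharZero K] (s : Finset A) (n : A → ℕ)
    (hn : ∀ a, n a ≠ 0) (w : A → K) (hw : ∀ a, w a ≠ 0)
    (hd : ∀ a ∈ s, ∀ a' ∈ s, a ≠ a' → (n a = n a' ∧ w a ≠ w a') ∨ w a ^ n a' ≠ w a' ^ n a)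
    (P : A → Polynomial K)
    (h : ∀ t : ℕ, t ≠ 0 → ∑ a ∈ s.filter fun a => n a ∣ t,
      (P a).eval ((t / n a : ℕ) : K) * w a ^ (t / n a) = 0) : ∀ a ∈ s, P a = 0 := by
  classical
  intro a0 ha0
  set f : A → ℕ → K := fun a => epSeq (n a) (w a) (P a) with hf
  set p : A → Polynomial K := fun a =>
    (Polynomial.X ^ n a - Polynomial.C (w a)) ^ ((P a).natDegree + 1) with hp
  have hsum : ∑ a ∈ s, f a = 0 := by
    funext t
    have := h (t + 1) (Nat.succ_ne_zero t)
    rw [Finset.sum_filter] at this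
    simpa [hf, epSeq, Finset.sum_apply] using this
  have hkill : ∀ a, Polynomial.aeval (shiftEnd K) (p a) (f a) = 0 := fun a =>
    epSeq_kill (hn a) (w a) _ (P a)
      (Polynomial.degree_le_natDegree.trans_lt (by exact_mod_cast Nat.lt_succ_self _))
  have hcop : IsCoprime (p a0) (∏ a ∈ s.erase a0, p a) := by
    apply IsCoprime.prod_right
    intro a ha
    have hne : a0 ≠ a := (Finset.ne_of_mem_erase ha).symm
    apply IsCoprime.pow
    rw [Polynomial.isCoprime_iff_aeval_ne_zero_of_isAlgClosed K (AlgebraicClosure K)]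
    intro x
    by_contra hx
    push Not at hx
    obtain ⟨x1, x2⟩ := hx
    simp only [map_sub, map_pow, Polynomial.aeval_X, Polynomial.aeval_C, sub_eq_zero] at x1 x2
    have inj := (algebraMap K (AlgebraicClosure K)).injective
    rcases hd a0 ha0 a (Finset.mem_of_mem_erase ha) hne with ⟨e, e'⟩ | e
    · exact e' (inj (by rw [← x1, ← x2, e]))
    · exact e (inj (by rw [map_pow, map_pow, ← x1, ← x2, ← pow_mul, ← pow_mul, mul_comm]))
  have hf0 : f a0 = 0 := by
    have hdis := Polynomial.disjoint_ker_aeval_of_isCoprime (shiftEnd K) hcop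
    refine Submodule.disjoint_def.1 hdis _ (hkill a0) ?_
    have e : f a0 = -∑ a ∈ s.erase a0, f a := by
      rw [← Finset.add_sum_erase s f ha0] at hsum
      exact eq_neg_of_add_eq_zero_left hsum
    rw [e]
    refine Submodule.neg_mem _ (Submodule.sum_mem _ fun a ha => ?_)
    rw [LinearMap.mem_ker, ← Finset.prod_erase_mul _ _ ha, map_mul, Module.End.mul_apply, hkill,
      map_zero]
  apply Polynomial.eq_zero_of_infinite_isRoot
  refine Set.infinite_of_injective_forall_mem (f := fun m : ℕ => ((m + 1 : ℕ) : K))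
    (fun m m' e => by simpa using e) fun m => ?_
  have hpos : 0 < n a0 * (m + 1) := Nat.mul_pos (Nat.pos_of_ne_zero (hn a0)) m.succ_pos
  have e := congrFun hf0 (n a0 * (m + 1) - 1)
  have e1 : n a0 * (m + 1) - 1 + 1 = n a0 * (m + 1) := Nat.sub_add_cancel hpos
  simp only [hf, epSeq, e1, dvd_mul_right, if_true,
    Nat.mul_div_cancel_left _ (Nat.pos_of_ne_zero (hn a0)), Pi.zero_apply] at e
  exact (mul_eq_zero.1 e).resolve_right (pow_ne_zero _ (hw a0))

theorem countable_subfield_closure {S : Set ℂ} (hS : S.Countable) :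
    ((Subfield.closure S : Subfield ℂ) : Set ℂ).Countable := by
  rw [← Cardinal.le_aleph0_iff_set_countable] at hS ⊢
  exact (Subfield.cardinalMk_closure_le_max S).trans (max_le hS le_rfl)

theorem exists_closed_subfield {T : Type*} (supp : T → Finset ℂ) (val : T → Set ℂ)
    (hv : ∀ t, (val t).Countable)
    (hs : ∀ S : Set ℂ, S.Countable → {t | (supp t : Set ℂ) ⊆ S}.Countable)
    (S : Set ℂ) (hS : S.Countable) :
    ∃ F : Subfield ℂ, (F : Set ℂ).Countable ∧ S ⊆ F ∧
      ∀ t, (supp t : Set ℂ) ⊆ F → val t ⊆ F := by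
  let step : Subfield ℂ → Subfield ℂ := fun F =>
    Subfield.closure ((F : Set ℂ) ∪ ⋃ t ∈ {t | (supp t : Set ℂ) ⊆ F}, val t)
  let G : ℕ → Subfield ℂ := fun m => step^[m] (Subfield.closure S)
  have hG : ∀ m, G (m + 1) = step (G m) := fun m => Function.iterate_succ_apply' _ _ _
  have hc : ∀ m, (G m : Set ℂ).Countable := by
    intro m
    induction m with
    | zero => exact countable_subfield_closure hS
    | succ m ih =>
      rw [hG]
      exact countable_subfield_closure (ih.union ((hs _ ih).biUnion fun t _ => hv t))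
  have hmono : Monotone G := monotone_nat_of_le_succ fun m => by
    rw [hG]
    exact fun x hx => Subfield.subset_closure (Or.inl hx)
  have hU : ((⨆ m, G m : Subfield ℂ) : Set ℂ) = ⋃ m, (G m : Set ℂ) :=
    Subfield.coe_iSup_of_directed hmono.directed_le
  refine ⟨⨆ m, G m, ?_, ?_, fun t ht => ?_⟩
  · rw [hU]; exact Set.countable_iUnion hc
  · exact fun x hx => (le_iSup G 0) (Subfield.subset_closure hx)
  · rw [hU] at ht
    obtain ⟨m, hm⟩ : ∃ m, (supp t : Set ℂ) ⊆ G m := by
      have hev : ∀ᶠ m in atTop, ∀ x ∈ supp t, x ∈ G m := by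
        rw [Finset.eventually_all]
        intro x hx
        obtain ⟨m, hm⟩ := Set.mem_iUnion.1 (ht hx)
        filter_upwards [eventually_ge_atTop m] with m' hm' using hmono hm' hm
      exact hev.exists
    intro x hx
    apply le_iSup G (m + 1)
    rw [hG]
    exact Subfield.subset_closure (Or.inr (Set.mem_biUnion (t := fun t => val t) hm hx))

/-- A finite dimensional space contains finitely many values: a subset has a smallest element. -/
theorem exists_val_min {k L : Type*} [Field k] [Field L] [Algebra k L] (O : ValuationSubring L)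
    (hk : ∀ c : k, algebraMap k L c ∈ O) (W : Submodule k L) [Module.Finite k W] (E : Set L)
    (hE : E ⊆ W) (h0 : (0 : L) ∉ E) (hne : E.Nonempty) : ∃ ρ ∈ E, ∀ η ∈ E, ρ / η ∈ O := by
  classical
  set v := O.valuation with hv
  have hone : ∀ c : k, c ≠ 0 → v (algebraMap k L c) = 1 := by
    intro c hc
    have h1 : v (algebraMap k L c) ≤ 1 := (O.valuation_le_one_iff _).2 (hk c)
    have h2 : v (algebraMap k L c⁻¹) ≤ 1 := (O.valuation_le_one_iff _).2 (hk c⁻¹)
    have h3 : v (algebraMap k L c) * v (algebraMap k L c⁻¹) = 1 := by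
      rw [← map_mul, ← map_mul, mul_inv_cancel₀ hc, map_one, map_one]
    refine le_antisymm h1 ?_
    calc (1 : O.ValueGroup) = v (algebraMap k L c) * v (algebraMap k L c⁻¹) := h3.symm
      _ ≤ v (algebraMap k L c) * 1 := by gcongr
      _ = _ := mul_one _
  have hch : ∀ γ : v '' E, ∃ η, η ∈ E ∧ v η = γ := fun γ => γ.2
  choose f hfE hfv using hch
  have hli : LinearIndependent k f := by
    rw [linearIndependent_iff']
    intro s g hs i hi
    by_contra hgi
    set s' := s.filter fun j => g j ≠ 0 with hs'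
    obtain ⟨j, hj, hjm⟩ := s'.exists_max_image (fun j => (j : O.ValueGroup))
      ⟨i, Finset.mem_filter.2 ⟨hi, hgi⟩⟩
    have hval : ∀ l ∈ s', v (g l • f l) = l := by
      intro l hl
      rw [Algebra.smul_def, map_mul, hone _ (Finset.mem_filter.1 hl).2, one_mul, hfv]
    have hsum : ∑ l ∈ s', g l • f l = 0 := by
      rw [← hs, hs', Finset.sum_filter_of_ne]
      intro l _ hl hg
      exact hl (by rw [hg, zero_smul])
    have := v.map_sum_eq_of_lt (f := fun l => g l • f l) hj fun l hl => by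
      have hl' := Finset.mem_sdiff.1 hl
      rw [hval l hl'.1, hval j hj]
      refine lt_of_le_of_ne (hjm l hl'.1) fun e => hl'.2 ?_
      exact Finset.mem_singleton.2 (Subtype.ext e)
    rw [hsum, map_zero, hval j hj, ← hfv j] at this
    exact h0 ((v.zero_iff.1 this.symm) ▸ hfE j)
  have hli' : LinearIndependent k fun γ => (⟨f γ, hE (hfE γ)⟩ : W) :=
    LinearIndependent.of_comp W.subtype hli
  have hfin : (v '' E).Finite := Set.finite_coe_iff.1 hli'.finite
  obtain ⟨_, ⟨ρ, hρ, rfl⟩, hm⟩ := Set.exists_min_image _ id hfin (hne.image v)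
  refine ⟨ρ, hρ, fun η hη => (O.valuation_le_one_iff _).1 ?_⟩
  have hη0 : v η ≠ 0 := fun e => h0 ((v.zero_iff.1 e) ▸ hη)
  rw [← hv, map_div₀]
  exact div_le_one_of_le₀ (hm _ ⟨η, hη, rfl⟩) zero_le

end Pool.Agent.P.MP_26ad15_nt
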