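import Pool.Agent.P.MP_26ad15_nt.ASRay

/-! Auxiliary results for the Stokes analysis: algebra. -/

namespace Pool.Agent.P.MP_26ad15_nt

open Complex Set Filter Topology Asymptotics

theorem sep_classes {K J B V : Type*} [Field K] [CharZero K] [AddCommGroup V] [Module ℚ V]
    [DecidableEq V] (s : Finset (J × B)) (π : J → V) (hπ : ∀ a ∈ s, π a.1 ≠ 0) (w : J × B → K)
    (hw : ∀ a, w a ≠ 0) (h1 : ∀ a ∈ s, ∀ a' ∈ s, a ≠ a' → a.1 = a'.1 → w a ≠ w a')
    (h2 : ∀ a ∈ s, ∀ a' ∈ s, a.1 ≠ a'.1 → ∀ u v : ℕ, u ≠ 0 → v ≠ 0 → u • π a.1 = v • π a'.1 →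
      w a ^ u ≠ w a' ^ v) (P : J × B → Polynomial K)
    (h : ∀ v : V, v ≠ 0 → ∀ᶠ N in atTop, ∑ a ∈ s, ∑ r ∈ (Finset.range N).filter
      fun r => r • π a.1 = v, (P a).eval (r : K) * w a ^ r = 0) : ∀ a ∈ s, P a = 0 := by
  classical
  intro a0 ha0
  set c := s.filter fun a => ∃ u v : ℕ, u ≠ 0 ∧ v ≠ 0 ∧ u • π a.1 = v • π a0.1 with hc
  have hu : ∀ a, ∃ u v : ℕ, u ≠ 0 ∧ v ≠ 0 ∧ (a ∈ c → u • π a.1 = v • π a0.1) := fun a => by
    by_cases ha : a ∈ c
    · obtain ⟨u, v, b1, b2, b3⟩ := (Finset.mem_filter.1 ha).2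
      exact ⟨u, v, b1, b2, fun _ => b3⟩
    · exact ⟨1, 1, one_ne_zero, one_ne_zero, fun h => (ha h).elim⟩
  choose u v u0 v0 huv using hu
  set L := ∏ a ∈ c, u a with hL
  have L0 : L ≠ 0 := Finset.prod_ne_zero_iff.2 fun a _ => u0 a
  have L0' : (L : ℚ) ≠ 0 := by exact_mod_cast L0
  set w0 : V := (L : ℚ)⁻¹ • π a0.1 with hw0
  have hLw : L • w0 = π a0.1 := by
    rw [hw0, ← Nat.cast_smul_eq_nsmul ℚ, smul_smul, mul_inv_cancel₀ L0', one_smul]
  have w00 : w0 ≠ 0 := fun e => hπ a0 ha0 (by rw [← hLw, e, smul_zero])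
  have inj : ∀ m m' : ℕ, m • w0 = m' • w0 → m = m' := fun m m' e => by
    rw [← Nat.cast_smul_eq_nsmul ℚ, ← Nat.cast_smul_eq_nsmul ℚ, ← sub_eq_zero, ← sub_smul,
      smul_eq_zero, sub_eq_zero] at e
    exact_mod_cast e.resolve_right w00
  have hn : ∀ a, ∃ n : ℕ, n ≠ 0 ∧ (a ∈ c → π a.1 = n • w0) := fun a => by
    by_cases ha : a ∈ c
    · obtain ⟨m, hm⟩ : u a ∣ L := Finset.dvd_prod_of_mem _ ha
      have m0 : m ≠ 0 := fun e => L0 (by rw [hm, e, mul_zero])
      refine ⟨v a * m, mul_ne_zero (v0 a) m0, fun _ => ?_⟩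
      have e1 : u a • π a.1 = u a • ((v a * m) • w0) := by
        rw [huv a ha, ← hLw, hm, smul_smul, smul_smul]
        congr 1
        ring
      have u1 : (u a : ℚ) ≠ 0 := by exact_mod_cast u0 a
      rw [← Nat.cast_smul_eq_nsmul ℚ, ← Nat.cast_smul_eq_nsmul ℚ (u a)] at e1
      exact smul_right_injective V u1 e1
    · exact ⟨1, one_ne_zero, fun h => (ha h).elim⟩
  choose n n0 hn using hn
  have hcs : c ⊆ s := Finset.filter_subset _ _
  refine expPoly_indep c n n0 w hw (fun a ha a' ha' hne => ?_) P (fun t ht => ?_) a0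
    (Finset.mem_filter.2 ⟨ha0, 1, 1, one_ne_zero, one_ne_zero, rfl⟩)
  · by_cases e : a.1 = a'.1
    · exact Or.inl ⟨inj _ _ (by rw [← hn a ha, ← hn a' ha', e]), h1 a (hcs ha) a' (hcs ha') hne e⟩
    · refine Or.inr (h2 a (hcs ha) a' (hcs ha') e _ _ (n0 a') (n0 a) ?_)
      rw [hn a ha, hn a' ha', smul_comm]
  · have t0 : t • w0 ≠ 0 := fun e => ht (inj _ _ (by rw [e, zero_smul]))
    obtain ⟨N, hN, hNt⟩ := ((h _ t0).and (eventually_gt_atTop t)).exists
    rw [← hN, Finset.sum_filter]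
    symm
    rw [← Finset.sum_subset hcs]
    · refine Finset.sum_congr rfl fun a ha => ?_
      have key : ∀ r : ℕ, r • π a.1 = t • w0 ↔ r * n a = t := fun r => by
        rw [hn a ha, smul_smul]
        exact ⟨inj _ _, fun e => by rw [e]⟩
      split_ifs with hd
      · have : (Finset.range N).filter (fun r => r • π a.1 = t • w0) = {t / n a} := by
          ext r
          simp only [Finset.mem_filter, Finset.mem_range, Finset.mem_singleton, key]
          constructor
          · rintro ⟨-, rfl⟩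
            rw [Nat.mul_div_cancel _ (Nat.pos_of_ne_zero (n0 a))]
          · rintro rfl
            exact ⟨(Nat.div_le_self _ _).trans_lt hNt, Nat.div_mul_cancel hd⟩
        rw [this, Finset.sum_singleton]
      · refine Finset.sum_eq_zero fun r hr => (hd ?_).elim
        exact ⟨r, by rw [← (key r).1 (Finset.mem_filter.1 hr).2, mul_comm]⟩
    · intro a ha hac
      refine Finset.sum_eq_zero fun r hr => (hac (Finset.mem_filter.2 ⟨ha, ?_⟩)).elim
      have e := (Finset.mem_filter.1 hr).2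
      have r0 : r ≠ 0 := fun e' => t0 (by rw [← e, e', zero_smul])
      refine ⟨L * r, t, mul_ne_zero L0 r0, ht, ?_⟩
      rw [← smul_smul, e, smul_comm, hLw]

lemma a2_EP (k : ℕ) : (EP k : PowerSeries ℂ) = (1 - PowerSeries.X) ^ (k + 1) *
    PowerSeries.mk fun r => if r = 0 then 0 else (r : ℂ) ^ k := by
  induction k with
  | zero =>
    have : (PowerSeries.mk fun r => if r = 0 then 0 else (r : ℂ) ^ 0) =
        PowerSeries.X * PowerSeries.mk 1 := by
      ext r
      cases r <;> simp [PowerSeries.coeff_succ_X_mul]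
    rw [this, zero_add, pow_one, mul_left_comm, mul_comm (1 - PowerSeries.X),
      PowerSeries.mk_one_mul_one_sub_eq_one]
    simp [EP]
  | succ k ih =>
    have e : (PowerSeries.mk fun r => if r = 0 then 0 else (r : ℂ) ^ (k + 1)) =
        PowerSeries.X * PowerSeries.derivative ℂ
          (PowerSeries.mk fun r => if r = 0 then 0 else (r : ℂ) ^ k) := by
      ext r
      cases r <;> simp [PowerSeries.coeff_succ_X_mul, PowerSeries.coeff_derivative, pow_succ]
    rw [e, EP]
    push_cast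
    rw [← PowerSeries.derivative_coe, ih, Derivation.leibniz, Derivation.leibniz_pow]
    simp only [map_sub, PowerSeries.derivative_one, PowerSeries.derivative_X, smul_eq_mul,
      nsmul_eq_mul, Nat.add_sub_cancel, map_add, map_natCast, map_one]
    push_cast
    ring

theorem asyN_VV (e : Bool) (k N : ℕ) : AsyN (𝓝 0) id N (VV e (k + 1))
    (PowerSeries.mk fun r => vc e (k + 1) * (r : ℂ) ^ (k + 1)) := by
  have hσ : Tendsto (id : ℂ → ℂ) (𝓝 0) (𝓝 0) := tendsto_id
  have h1 := (AsyN.poly (𝓝 (0 : ℂ)) id (N + 1) ((1 - Polynomial.X) ^ (k + 1 + 1))).inv hσ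
    (b := PowerSeries.mk 1 ^ (k + 1 + 1)) (by
      push_cast
      rw [← mul_pow, mul_comm, PowerSeries.mk_one_mul_one_sub_eq_one, one_pow])
    (Nat.succ_ne_zero N)
  have h2 := (((AsyN.poly (𝓝 (0 : ℂ)) id (N + 1) (EP (k + 1))).mul hσ h1).const_mul
    (vc e (k + 1))).mono hσ (Nat.le_succ N)
  convert! h2 using 1
  · funext x
    simp [VV, div_eq_mul_inv, mul_assoc]
  · rw [a2_EP, mul_right_comm, ← mul_pow, mul_comm (1 - PowerSeries.X),
      PowerSeries.mk_one_mul_one_sub_eq_one, one_pow, one_mul]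
    ext r
    cases r <;> simp

theorem texp_pow {S : Type*} [CommRing S] [Algebra ℂ S] {t a : S} (h : t ∣ a) (N r : ℕ) :
    t ^ N ∣ (∑ m ∈ Finset.range (N + 1), algebraMap ℂ S (m.factorial : ℂ)⁻¹ * a ^ m) ^ r -
      ∑ m ∈ Finset.range (N + 1), algebraMap ℂ S (m.factorial : ℂ)⁻¹ * (r * a) ^ m := by
  set T := PowerSeries.trunc (N + 1) (PowerSeries.exp ℂ) with hT
  set T' := PowerSeries.trunc (N + 1) (PowerSeries.rescale (r : ℂ) (PowerSeries.exp ℂ)) with hT'
  have h1 : (PowerSeries.X : PowerSeries ℂ) ^ (N + 1) ∣ ((T ^ r - T' : Polynomial ℂ) : PowerSeries ℂ) := by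
    have a1 := (dvd_sub_trunc (N + 1) (PowerSeries.exp ℂ)).trans
      (sub_dvd_pow_sub_pow (PowerSeries.exp ℂ) (T : PowerSeries ℂ) r)
    have a2 := dvd_sub_trunc (N + 1) (PowerSeries.rescale (r : ℂ) (PowerSeries.exp ℂ))
    rw [PowerSeries.exp_pow_eq_rescale_exp] at a1
    have := a2.sub a1
    push_cast
    convert! this using 1
    ring
  obtain ⟨Q, hQ⟩ : Polynomial.X ^ (N + 1) ∣ T ^ r - T' := Polynomial.X_pow_dvd_iff.2 fun d hd => by
    simpa only [Polynomial.coeff_coe] using PowerSeries.X_pow_dvd_iff.1 h1 d hd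
  have h2 := congrArg (Polynomial.aeval a) hQ
  have e1 : Polynomial.aeval a T =
      ∑ m ∈ Finset.range (N + 1), algebraMap ℂ S (m.factorial : ℂ)⁻¹ * a ^ m := by
    rw [hT, PowerSeries.trunc_apply, map_sum, Finset.range_eq_Ico]
    refine Finset.sum_congr rfl fun m _ => ?_
    simp [PowerSeries.coeff_exp, Polynomial.aeval_monomial]
  have e2 : Polynomial.aeval a T' =
      ∑ m ∈ Finset.range (N + 1), algebraMap ℂ S (m.factorial : ℂ)⁻¹ * (r * a) ^ m := by
    rw [hT', PowerSeries.trunc_apply, map_sum, Finset.range_eq_Ico]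
    refine Finset.sum_congr rfl fun m _ => ?_
    simp only [PowerSeries.coeff_rescale, PowerSeries.coeff_exp, Polynomial.aeval_monomial, map_mul,
      map_pow, map_natCast, one_div, map_inv₀]
    ring
  rw [map_sub, map_pow, e1, e2, map_mul, map_pow, Polynomial.aeval_X] at h2
  rw [h2]
  exact ((pow_dvd_pow_of_dvd h N).trans (pow_dvd_pow a (Nat.le_succ N))).mul_right _

theorem chain_finset {k S σ : Type*} [CommRing k] [CommRing S] [Algebra k S] (D : S →+ S)
    (hD : ∀ a b, D (a * b) = a * D b + b * D a) (hC : ∀ c, D (algebraMap k S c) = 0) (y : σ → S)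
    (g : MvPolynomial σ k) : ∀ᶠ s : Finset σ in atTop,
      D (MvPolynomial.aeval y g) = ∑ G ∈ s, MvPolynomial.aeval y (MvPolynomial.pderiv G g) * D (y G) := by
  classical
  induction g using MvPolynomial.induction_on with
  | C a => exact .of_forall fun s => by simp [hC]
  | add p q hp hq =>
    filter_upwards [hp, hq] with s h1 h2
    simp only [map_add, h1, h2, add_mul, Finset.sum_add_distrib]
  | mul_X p i hp =>
    filter_upwards [hp, eventually_ge_atTop {i}] with s h1 h2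
    have hi : i ∈ s := h2 (Finset.mem_singleton_self i)
    have e : ∀ G, MvPolynomial.aeval y (MvPolynomial.pderiv G (p * MvPolynomial.X i)) * D (y G) =
        (if i = G then MvPolynomial.aeval y p * D (y G) else 0) +
          y i * (MvPolynomial.aeval y (MvPolynomial.pderiv G p) * D (y G)) := fun G => by
      rw [Derivation.leibniz, MvPolynomial.pderiv_X, Pi.single_apply]
      split_ifs <;> simp <;> ring
    simp only [e, Finset.sum_add_distrib, Finset.sum_ite_eq, hi, if_true, ← Finset.mul_sum, ← h1,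
      map_mul, MvPolynomial.aeval_X, hD]

end Pool.Agent.P.MP_26ad15_nt
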