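import Pool.Agent.P.MP_26ad15_nt.ASRay

/-! Auxiliary results for the Stokes analysis: sectors and exponentials of polynomials. -/

namespace Pool.Agent.P.MP_26ad15_nt

open Complex Set Filter Topology Asymptotics

lemma a3_polar (a : ℂ) (ψ : ℝ) : ∃ (e : Bool) (t : ℝ), 0 ≤ t ∧ t < Real.pi ∧
    sg e * a = (‖a‖ : ℂ) * cexp (((-(ψ + t) : ℝ) : ℂ) * I) ∧ (ψ = -arg a → t = 0) := by
  have ha := (norm_mul_exp_arg_mul_I a).symm
  by_cases h : ψ = -arg a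
  · refine ⟨true, 0, le_rfl, Real.pi_pos, ?_, fun _ => rfl⟩
    rw [h, add_zero, neg_neg, ← ha]
    simp [sg]
  obtain ⟨k, hk⟩ : ∃ k : ℤ, toIcoMod Real.two_pi_pos 0 (-arg a - ψ) =
      -arg a - ψ - k * (2 * Real.pi) :=
    ⟨toIcoDiv Real.two_pi_pos 0 (-arg a - ψ), by rw [toIcoMod, zsmul_eq_mul]⟩
  have hm := toIcoMod_mem_Ico Real.two_pi_pos 0 (-arg a - ψ)
  rw [hk, zero_add] at hm
  have e1 : cexp (((-(ψ + (-arg a - ψ - k * (2 * Real.pi))) : ℝ) : ℂ) * I) = cexp (arg a * I) := by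
    rw [← mul_one (cexp (arg a * I)), ← exp_int_mul_two_pi_mul_I k, ← exp_add]
    congr 1
    push_cast
    ring
  by_cases h1 : -arg a - ψ - k * (2 * Real.pi) < Real.pi
  · refine ⟨true, _, hm.1, h1, ?_, fun h' => (h h').elim⟩
    rw [e1, ← ha]
    simp [sg]
  · refine ⟨false, -arg a - ψ - k * (2 * Real.pi) - Real.pi, by linarith, by linarith [hm.2], ?_,
      fun h' => (h h').elim⟩
    have e2 : cexp (((-(ψ + (-arg a - ψ - k * (2 * Real.pi) - Real.pi)) : ℝ) : ℂ) * I) =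
        -cexp (arg a * I) := by
      rw [← e1, ← mul_neg_one (cexp _), ← exp_pi_mul_I, ← exp_add]
      congr 1
      push_cast
      ring
    rw [e2, mul_neg, ← ha]
    simp [sg]

lemma a3_ang {γ η r v : ℝ} {e : Bool} {w : ℂ} (hγ : 32 * γ ^ 2 ≤ 1 - Real.cos η) (hη : 0 ≤ η)
    (hr : 0 ≤ r) (hw : sg e * w = (r : ℂ) * cexp ((v : ℂ) * I)) (h1 : η - Real.pi ≤ v)
    (h2 : v ≤ Real.pi - η) : Ang (2 * γ) e w := by
  have n1 : ‖w‖ = r := by
    have := congrArg norm hw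
    rwa [norm_mul, norm_sg, one_mul, norm_mul, norm_exp_ofReal_mul_I, mul_one, norm_real,
      Real.norm_of_nonneg hr] at this
  have c1 : -Real.cos η ≤ Real.cos v := by
    rw [← Real.cos_pi_sub, ← Real.cos_abs v]
    exact Real.cos_le_cos_of_nonneg_of_le_pi (abs_nonneg v) (by linarith)
      (abs_le.2 ⟨by linarith, h2⟩)
  unfold Ang
  rw [hw, n1, re_ofReal_mul, exp_ofReal_mul_I_re]
  nlinarith [mul_le_mul_of_nonneg_left c1 hr, mul_le_mul_of_nonneg_left hγ hr]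

lemma a3_ang_re {γ : ℝ} (hγ : 32 * γ ^ 2 ≤ 1) (w : ℂ) : Ang (2 * γ) (decide (0 ≤ w.re)) w := by
  unfold Ang
  have := mul_le_mul_of_nonneg_right hγ (norm_nonneg w)
  by_cases h : 0 ≤ w.re
  · simp only [h, decide_true, sg, if_true, one_mul]
    nlinarith
  · simp only [h, decide_false, sg, Bool.false_eq_true, if_false, neg_mul, one_mul, neg_re]
    push Not at h
    nlinarith

lemma a3_countable {c : ℂ} {n : ℕ} (hc : c ≠ 0) (hn : n ≠ 0) :
    {θ : ℝ | (c * cexp (θ * I) ^ n).re = 0}.Countable := by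
  refine (Set.countable_range fun k : ℤ => ((2 * k + 1) * Real.pi / 2 - arg c) / n).mono
    fun θ hθ => ?_
  have e : c * cexp (θ * I) ^ n = (‖c‖ : ℂ) * cexp (((arg c + n * θ : ℝ) : ℂ) * I) := by
    conv_lhs => rw [← norm_mul_exp_arg_mul_I c]
    rw [← exp_nat_mul, mul_assoc, ← exp_add]
    congr 2
    push_cast
    ring
  rw [mem_ofPred_eq, e, re_ofReal_mul, exp_ofReal_mul_I_re, mul_eq_zero] at hθ
  obtain ⟨k, hk⟩ := Real.cos_eq_zero_iff.1 (hθ.resolve_left (norm_ne_zero_iff.2 hc))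
  refine ⟨k, ?_⟩
  have : (n : ℝ) ≠ 0 := Nat.cast_ne_zero.2 hn
  simp only
  rw [← hk]
  field_simp
  ring

theorem exists_sectors {ι : Type} [Finite ι] (a : ι → ℂ) (d : ι → ℕ) {κ : ℕ} (h0 : κ ≠ 0)
    (ha : ∀ j, d j ≠ 0 → a j ≠ 0) {j₀ : ι} (hj : d j₀ = κ) {Λ : Set (ℂ × ℕ)} (hΛ : Λ.Countable)
    (hΛ' : ∀ q ∈ Λ, q.1 ≠ 0 ∧ q.2 ≠ 0) :
    ∃ (γ α β α' β' θ : ℝ) (b b' : ι → Bool), 0 < γ ∧ γ ≤ 1 / 2 ∧
      (Real.pi < κ * (β - α) ∧ α < θ ∧ θ < β) ∧ (Real.pi < κ * (β' - α') ∧ α' < θ ∧ θ < β') ∧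
      (∀ j, d j = κ → ∀ φ : ℝ, α < φ → φ < β → Ang (2 * γ) (b j) (a j * cexp (φ * I) ^ κ)) ∧
      (∀ j, d j = κ → ∀ φ : ℝ, α' < φ → φ < β' → Ang (2 * γ) (b' j) (a j * cexp (φ * I) ^ κ)) ∧
      (∀ j, d j ≠ 0 → Ang (2 * γ) (b j) (a j * cexp (θ * I) ^ d j)) ∧
      (∀ j, d j ≠ 0 → Ang (2 * γ) (b' j) (a j * cexp (θ * I) ^ d j)) ∧ b' j₀ ≠ b j₀ ∧
      (∀ j, b' j ≠ b j → d j = κ ∧ 0 < (sg (b j) * a j * cexp (θ * I) ^ κ).im) ∧
      ∀ q ∈ Λ, (q.1 * cexp (θ * I) ^ q.2).re ≠ 0 := by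
  classical
  have k0 : (0 : ℝ) < κ := by exact_mod_cast Nat.pos_of_ne_zero h0
  have pp := Real.pi_pos
  obtain ⟨ψ, hψ⟩ : ∃ ψ, ψ = -arg (a j₀) := ⟨_, rfl⟩
  choose e t t0 t1 he ht using fun j => a3_polar (a j) ψ
  have s1 : ∀ j, ∀ᶠ η in 𝓝[>] (0 : ℝ), t j ≠ 0 → 3 * η ≤ t j ∧ t j ≤ Real.pi - 3 * η := fun j => by
    by_cases h : t j = 0
    · exact .of_forall fun _ h' => (h' h).elim
    have := lt_of_le_of_ne (t0 j) (Ne.symm h)
    filter_upwards [Ioo_mem_nhdsGT (show (0 : ℝ) < t j / 3 by positivity),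
      Ioo_mem_nhdsGT (show (0 : ℝ) < (Real.pi - t j) / 3 by linarith [t1 j])] with η h1 h2 _
    exact ⟨by linarith [h1.2], by linarith [h2.2]⟩
  obtain ⟨η, s2, η0, η1⟩ := ((eventually_all.2 s1).and
    (Ioo_mem_nhdsGT (show (0 : ℝ) < Real.pi / 4 by positivity))).exists
  have c0 : 0 ≤ Real.cos η := Real.cos_nonneg_of_mem_Icc ⟨by linarith, by linarith⟩
  have c1 : Real.cos η < 1 := by
    rw [← Real.cos_zero]
    exact Real.cos_lt_cos_of_nonneg_of_le_pi le_rfl (by linarith) η0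
  obtain ⟨γ, g0, g1⟩ : ∃ γ : ℝ, 0 < γ ∧ 32 * γ ^ 2 = 1 - Real.cos η :=
    ⟨√((1 - Real.cos η) / 32), Real.sqrt_pos.2 (by linarith), by
      rw [Real.sq_sqrt (by linarith)]; ring⟩
  have hC : (⋃ q ∈ Λ, {θ : ℝ | (q.1 * cexp (θ * I) ^ q.2).re = 0}).Countable :=
    hΛ.biUnion fun q hq => a3_countable (hΛ' q hq).1 (hΛ' q hq).2
  obtain ⟨θ, θ0, θ1, θ2⟩ := (hC.dense_compl ℝ).exists_between
    (show (ψ + η) / κ < (ψ + Real.pi - η) / κ by gcongr ?_ / _; linarith)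
  have key : ∀ j (φ : ℝ), sg (e j) * (a j * cexp (φ * I) ^ κ) =
      (‖a j‖ : ℂ) * cexp (((κ * φ - ψ - t j : ℝ) : ℂ) * I) := fun j φ => by
    rw [← mul_assoc, he j, ← exp_nat_mul, mul_assoc, ← exp_add]
    congr 2
    push_cast
    ring
  have key' : ∀ j (φ : ℝ), sg (!e j) * (a j * cexp (φ * I) ^ κ) =
      (‖a j‖ : ℂ) * cexp (((κ * φ - ψ - t j - Real.pi : ℝ) : ℂ) * I) := fun j φ => by
    rw [sg_not, neg_mul, key, ← mul_neg, ← mul_neg_one (cexp _), ← exp_neg_pi_mul_I, ← exp_add]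
    congr 2
    push_cast
    ring
  obtain ⟨b, hb⟩ : ∃ b : ι → Bool, b = fun j =>
    if d j = κ then e j else decide (0 ≤ (a j * cexp (θ * I) ^ d j).re) := ⟨_, rfl⟩
  obtain ⟨b', hb'⟩ : ∃ b' : ι → Bool, b' = fun j =>
    if d j = κ ∧ t j = 0 then !e j else b j := ⟨_, rfl⟩
  have b1 : ∀ j, d j = κ → b j = e j := fun j h => by rw [hb]; exact if_pos h
  have A1 : ∀ j, d j = κ → ∀ φ : ℝ, (ψ - 2 * η) / κ < φ → φ < (ψ + Real.pi - η) / κ →
      Ang (2 * γ) (b j) (a j * cexp (φ * I) ^ κ) := fun j h φ h1 h2 => by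
    rw [div_lt_iff₀' k0] at h1
    rw [lt_div_iff₀' k0] at h2
    rw [b1 j h]
    refine a3_ang g1.le η0.le (norm_nonneg _) (key j φ) ?_ (by linarith [t0 j])
    by_cases h3 : t j = 0
    · linarith
    · linarith [(s2 j h3).2]
  have A2 : ∀ j, d j = κ → ∀ φ : ℝ, (ψ + η) / κ < φ → φ < (ψ + Real.pi + 2 * η) / κ →
      Ang (2 * γ) (b' j) (a j * cexp (φ * I) ^ κ) := fun j h φ h1 h2 => by
    rw [div_lt_iff₀' k0] at h1
    rw [lt_div_iff₀' k0] at h2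
    by_cases h3 : t j = 0
    · rw [show b' j = !e j by rw [hb']; exact if_pos ⟨h, h3⟩]
      exact a3_ang g1.le η0.le (norm_nonneg _) (key' j φ) (by linarith) (by linarith)
    · rw [show b' j = e j by rw [hb', ← b1 j h]; exact if_neg fun h' => h3 h'.2]
      exact a3_ang g1.le η0.le (norm_nonneg _) (key j φ) (by linarith [(s2 j h3).2])
        (by linarith [(s2 j h3).1])
  have A3 : ∀ j, d j ≠ κ → Ang (2 * γ) (b j) (a j * cexp (θ * I) ^ d j) := fun j h => by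
    rw [show b j = decide (0 ≤ (a j * cexp (θ * I) ^ d j).re) by rw [hb]; exact if_neg h]
    exact a3_ang_re (by linarith) _
  have θ3 : (ψ - 2 * η) / κ < θ := lt_trans (by gcongr ?_ / _; linarith) θ1
  have θ4 : θ < (ψ + Real.pi + 2 * η) / κ := θ2.trans (by gcongr ?_ / _; linarith)
  refine ⟨γ, (ψ - 2 * η) / κ, (ψ + Real.pi - η) / κ, (ψ + η) / κ, (ψ + Real.pi + 2 * η) / κ, θ,
    b, b', g0, by nlinarith, ⟨?_, θ3, θ2⟩, ⟨?_, θ1, θ4⟩, A1, A2, fun j _ => ?_, fun j _ => ?_, ?_,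
    fun j h => ?_, fun q hq h => θ0 (mem_biUnion hq h)⟩
  · rw [← sub_div, mul_div_cancel₀ _ k0.ne']
    linarith
  · rw [← sub_div, mul_div_cancel₀ _ k0.ne']
    linarith
  · by_cases h : d j = κ
    · rw [h]; exact A1 j h θ θ3 θ2
    · exact A3 j h
  · by_cases h : d j = κ
    · rw [h]; exact A2 j h θ θ1 θ4
    · rw [show b' j = b j by rw [hb']; exact if_neg fun h' => h h'.1]
      exact A3 j h
  · rw [show b' j₀ = !e j₀ by rw [hb']; exact if_pos ⟨hj, ht j₀ hψ⟩, b1 j₀ hj]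
    cases e j₀ <;> simp
  · have h1 : d j = κ ∧ t j = 0 := by
      by_contra h'
      exact h (by rw [hb']; exact if_neg h')
    refine ⟨h1.1, ?_⟩
    rw [div_lt_iff₀' k0] at θ1
    rw [lt_div_iff₀' k0] at θ2
    rw [b1 j h1.1, mul_assoc, key, im_ofReal_mul, exp_ofReal_mul_I_im]
    refine mul_pos (norm_pos_iff.2 (ha j (h1.1 ▸ h0))) (Real.sin_pos_of_pos_of_lt_pi ?_ ?_)
    · linarith [h1.2]
    · linarith [h1.2]

lemma a3_inv_pow (θ y : ℝ) (k : ℕ) :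
    (sR θ y)⁻¹ ^ k = (Real.exp (k * y) : ℂ) * cexp (θ * I) ^ k := by
  rw [sR, ← exp_neg, neg_neg, exp_add, mul_pow, ← exp_nat_mul]
  push_cast
  rfl

theorem re_poly_bounds {q : Polynomial ℂ} {κ : ℕ} (hq : q.natDegree ≤ κ) (h0 : κ ≠ 0) (θ : ℝ)
    {ε : ℝ} (hε : 0 < ε) : ∀ᶠ y in atTop, |(q.eval (sR θ y)⁻¹).re -
      (q.coeff κ * cexp (θ * I) ^ κ).re * Real.exp (κ * y)| ≤ ε * Real.exp (κ * y) := by
  have hd : (q - Polynomial.C (q.coeff κ) * Polynomial.X ^ κ).degree <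
      (Polynomial.X ^ κ : Polynomial ℂ).degree := by
    rw [Polynomial.degree_X_pow, Polynomial.degree_lt_iff_coeff_zero]
    intro m hm
    rw [Polynomial.coeff_sub, Polynomial.coeff_C_mul_X_pow]
    split_ifs with h
    · rw [h, sub_self]
    · rw [sub_zero]
      exact Polynomial.coeff_eq_zero_of_natDegree_lt (by omega)
  filter_upwards [(tendsto_inv_cobounded.comp (tendsto_sR θ)).eventually
    ((Polynomial.isLittleO_cobounded_of_degree_lt hd).bound hε)] with y hy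
  simp only [Function.comp, Polynomial.eval_sub, Polynomial.eval_mul, Polynomial.eval_C,
    Polynomial.eval_pow, Polynomial.eval_X, a3_inv_pow] at hy
  rw [norm_mul, norm_pow, norm_exp_ofReal_mul_I, one_pow, mul_one, norm_real,
    Real.norm_of_nonneg (Real.exp_pos _).le] at hy
  refine le_trans ?_ hy
  refine le_trans (le_of_eq ?_) (abs_re_le_norm _)
  rw [sub_re, mul_left_comm, re_ofReal_mul, mul_comm]

theorem exp_poly_small {q : Polynomial ℂ} {θ : ℝ} (hd : q.natDegree ≠ 0)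
    (h : (q.leadingCoeff * cexp (θ * I) ^ q.natDegree).re < 0) (n : ℕ) :
    (fun y => cexp (q.eval (sR θ y)⁻¹)) =O[atTop] fun y => sR θ y ^ n := by
  have k0 : (0 : ℝ) < q.natDegree := by exact_mod_cast Nat.pos_of_ne_zero hd
  obtain ⟨c, hc⟩ : ∃ c, c = -(q.leadingCoeff * cexp (θ * I) ^ q.natDegree).re / 2 := ⟨_, rfl⟩
  have c0 : 0 < c := by rw [hc]; linarith
  refine IsBigO.of_bound' ?_
  filter_upwards [re_poly_bounds le_rfl hd θ c0, lin_le_exp n c0 k0] with y h1 h2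
  rw [norm_exp, norm_pow, sR, norm_exp_neg, ← Real.exp_nat_mul, Real.exp_le_exp]
  have h3 := (abs_le.1 h1).2
  rw [Polynomial.coeff_natDegree,
    show (q.leadingCoeff * cexp (θ * I) ^ q.natDegree).re = -2 * c by rw [hc]; ring] at h3
  simp only [add_re, ofReal_re, mul_re, I_re, mul_zero, ofReal_im, I_im, mul_one, sub_self,
    add_zero]
  rw [sR] at h3
  linarith

theorem exists_dominant {M : Type*} (r : M → M → Prop) (htr : ∀ a b c, r a b → r b c → r a c)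
    (s : Finset M) (hs : s.Nonempty) (htot : ∀ a ∈ s, ∀ b ∈ s, a ≠ b → r a b ∨ r b a) :
    ∃ m ∈ s, ∀ a ∈ s, a ≠ m → r a m := by
  induction hs using Finset.Nonempty.cons_induction with
  | singleton x => exact ⟨x, Finset.mem_singleton_self x, fun a ha h =>
      (h (Finset.mem_singleton.1 ha)).elim⟩
  | cons x s hx _ ih =>
    obtain ⟨m, hm, h⟩ := ih fun a ha b hb => htot a (Finset.mem_cons_of_mem ha) b
      (Finset.mem_cons_of_mem hb)
    have hne : x ≠ m := fun e => hx (e ▸ hm)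
    rcases htot x (Finset.mem_cons_self _ _) m (Finset.mem_cons_of_mem hm) hne with h1 | h1
    · refine ⟨m, Finset.mem_cons_of_mem hm, fun a ha h2 => ?_⟩
      rcases Finset.mem_cons.1 ha with rfl | ha
      exacts [h1, h a ha h2]
    · refine ⟨x, Finset.mem_cons_self _ _, fun a ha h2 => ?_⟩
      have ha' := (Finset.mem_cons.1 ha).resolve_left h2
      by_cases h3 : a = m
      · exact h3 ▸ h1
      · exact htr _ _ _ (h a ha' h3) h1

end Pool.Agent.P.MP_26ad15_nt
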