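import Pool.Agent.P.MP_26ad15_nt.ASRay

/-! Auxiliary results for the Stokes analysis: formal exponentials. -/

namespace Pool.Agent.P.MP_26ad15_nt

open Complex Set Filter Topology Asymptotics

variable {ι : Type} {p : ι → Polynomial ℂ} {x : ι → PowerSeries ℂ} {cc : ι → ℂ}

/-- The expansion of `exp (cc j * x j)`. -/
noncomputable def om (p : ι → Polynomial ℂ) (cc : ι → ℂ) (x : ι → PowerSeries ℂ) (j : ι) :
    PowerSeries ℂ := FP (cx p cc) x (MvPolynomial.X (j, Sum.inr 2, 0))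

lemma a4_cf (j : ι) (m l : ℕ) : cf ℂ (cx p cc) (j, Sum.inr 2, m) l =
    PowerSeries.C ((l.factorial : ℂ)⁻¹ * cc j ^ (m + l)) := by
  have h : cx p cc (j, Sum.inr 2, m + l) = PowerSeries.C (cc j ^ (m + l)) := rfl
  simp only [cf, h, ← map_mul, PowerSeries.map_C]
  rfl

theorem FP_exp (hx : ∀ j, PowerSeries.X ∣ x j) (j : ι) (m : ℕ) :
    FP (cx p cc) x (MvPolynomial.X (j, Sum.inr 2, m)) = PowerSeries.C (cc j ^ m) * om p cc x j := by
  refine eq_of_forall_dvd fun N => ?_
  have h1 := FP_X_dvd (c := cx p cc) hx (j, Sum.inr 2, m) N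
  have h2 := (FP_X_dvd (c := cx p cc) hx (j, Sum.inr 2, 0) N).mul_left (PowerSeries.C (cc j ^ m))
  have h3 : ∑ l ∈ Finset.range N, cf ℂ (cx p cc) (j, Sum.inr 2, m) l * x j ^ l =
      PowerSeries.C (cc j ^ m) *
        ∑ l ∈ Finset.range N, cf ℂ (cx p cc) (j, Sum.inr 2, 0) l * x j ^ l := by
    rw [Finset.mul_sum]
    refine Finset.sum_congr rfl fun l _ => ?_
    rw [a4_cf, a4_cf, ← mul_assoc, ← map_mul]
    congr 2
    ring
  have h4 := h1.sub h2
  rw [h3, mul_sub, sub_sub_sub_cancel_right] at h4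
  exact h4

theorem constantCoeff_om (hx : ∀ j, PowerSeries.X ∣ x j) (j : ι) :
    PowerSeries.constantCoeff (om p cc x j) = 1 := by
  have h := FP_X_dvd (c := cx p cc) hx (j, Sum.inr 2, 0) 1
  rw [pow_one, PowerSeries.X_dvd_iff, Finset.sum_range_one, a4_cf, map_sub, sub_eq_zero] at h
  rw [om, h]
  simp

lemma a4_deriv (hx : ∀ j, PowerSeries.X ∣ x j) (j : ι) :
    PowerSeries.derivative ℂ (om p cc x j) =
      PowerSeries.C (cc j) * om p cc x j * PowerSeries.derivative ℂ (x j) := by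
  have h := FP_chain_X (c := cx p cc) hx
    (PowerSeries.derivative ℂ : PowerSeries ℂ →ₗ[ℂ] PowerSeries ℂ).toAddMonoidHom
    (fun a b => (PowerSeries.derivative ℂ).leibniz a b)
    (fun N f hf => PowerSeries.X_pow_dvd_iff.2 fun d hd => by
      change PowerSeries.coeff d (PowerSeries.derivative ℂ f) = 0
      rw [PowerSeries.coeff_derivative, PowerSeries.X_pow_dvd_iff.1 hf (d + 1) (by omega),
        zero_mul])
    (j, Sum.inr 2, 0) fun m => by
      rw [a4_cf]
      exact PowerSeries.derivative_C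
  have h1 := FP_exp (p := p) (cc := cc) hx j 1
  rw [pow_one] at h1
  rw [← h1]
  exact h

lemma a4_deriv_pow (hx : ∀ j, PowerSeries.X ∣ x j) (j : ι) (q : ℂ) (u : ℕ) :
    PowerSeries.derivative ℂ ((PowerSeries.C q * om p cc x j) ^ u) =
      (PowerSeries.C q * om p cc x j) ^ u *
        PowerSeries.derivative ℂ (PowerSeries.C (u * cc j) * x j) := by
  induction u with
  | zero => simp
  | succ u ih =>
    rw [pow_succ, Derivation.leibniz, ih]
    simp only [Derivation.leibniz, PowerSeries.derivative_C, a4_deriv hx, smul_eq_mul,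
      Nat.cast_succ, map_mul, map_add, map_one, map_natCast, Derivation.map_natCast,
      Derivation.map_one_eq_zero]
    ring

lemma a4_sg (e : Bool) : ∃ s : ℚ, s ≠ 0 ∧ sg e = s := by
  cases e
  · exact ⟨-1, by norm_num, by simp [sg]⟩
  · exact ⟨1, one_ne_zero, by simp [sg]⟩

theorem om_pow_ne (H : Curve p x) {b : ι → Bool} (hc : ∀ j, cc j = 2 * Real.pi * I * sg (b j))
    {i j : ι} (hij : i ≠ j) (β β' : ℚ) {u v : ℕ} (hu : u ≠ 0) (hv : v ≠ 0)
    (h : u • (Polynomial.C (cc i) * (p i - Polynomial.C ((p i).coeff 0))) =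
      v • (Polynomial.C (cc j) * (p j - Polynomial.C ((p j).coeff 0)))) :
    (PowerSeries.C (QQ (b i) ((p i).coeff 0 + β)) * om p cc x i) ^ u ≠
      (PowerSeries.C (QQ (b j) ((p j).coeff 0 + β')) * om p cc x j) ^ v := by
  intro he
  obtain ⟨s, hs0, hs⟩ := a4_sg (b i)
  obtain ⟨s', -, hs'⟩ := a4_sg (b j)
  have hs0' : (s : ℂ) ≠ 0 := by exact_mod_cast hs0
  have hu' : (u : ℂ) ≠ 0 := by exact_mod_cast hu
  have hpi := two_pi_I_ne
  have h0 := congrArg PowerSeries.constantCoeff he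
  simp only [map_pow, map_mul, PowerSeries.constantCoeff_C, constantCoeff_om H.dvd, mul_one] at h0
  have hne : (PowerSeries.C (QQ (b j) ((p j).coeff 0 + β')) * om p cc x j) ^ v ≠ 0 := fun h1 => by
    have h2 := congrArg PowerSeries.constantCoeff h1
    simp [constantCoeff_om H.dvd, QQ] at h2
  have h1 := congrArg (PowerSeries.derivative ℂ) he
  rw [a4_deriv_pow H.dvd, a4_deriv_pow H.dvd, he] at h1
  have h2 := PowerSeries.derivative.ext (mul_left_cancel₀ hne h1) (by
    simp [PowerSeries.X_dvd_iff.1 (H.dvd _)])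
  rw [QQ, QQ, ← Complex.exp_nat_mul, ← Complex.exp_nat_mul, Complex.exp_eq_exp_iff_exists_int]
    at h0
  obtain ⟨m, hm⟩ := h0
  have ha : (u * cc i)⁻¹ * (v * cc j) = ((v * s' / (u * s) : ℚ) : ℂ) := by
    rw [hc, hc, hs, hs']
    push_cast
    field_simp
  have hcu : u * cc i ≠ 0 := by
    rw [hc, hs]
    exact mul_ne_zero hu' (mul_ne_zero hpi hs0')
  refine H.hq i j hij (v * s' / (u * s)) (m / (u * s) - β + v * s' / (u * s) * β') ⟨?_, ?_⟩
  · have h3 : (p i).coeff 0 = ((v * s' / (u * s) : ℚ) : ℂ) * (p j).coeff 0 +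
        ((m / (u * s) - β + v * s' / (u * s) * β' : ℚ) : ℂ) := by
      rw [hs, hs'] at hm
      have h4 : u * s * ((p i).coeff 0 + β) = v * s' * ((p j).coeff 0 + β') + m := by
        apply mul_left_cancel₀ hpi
        linear_combination hm
      push_cast
      field_simp
      linear_combination h4
    have h4 : p i - Polynomial.C ((p i).coeff 0) = Polynomial.C ((u * cc i)⁻¹ * (v * cc j)) *
        (p j - Polynomial.C ((p j).coeff 0)) := by
      rw [nsmul_eq_mul, nsmul_eq_mul, ← Polynomial.C_eq_natCast, ← Polynomial.C_eq_natCast,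
        ← mul_assoc, ← mul_assoc, ← map_mul, ← map_mul] at h
      rw [map_mul, mul_assoc, ← h, ← mul_assoc, ← map_mul, inv_mul_cancel₀ hcu, map_one, one_mul]
    rw [ha, h3, map_add, map_mul] at h4
    linear_combination h4
  · rw [← ha, map_mul, mul_assoc, ← h2, ← mul_assoc, ← map_mul, inv_mul_cancel₀ hcu, map_one,
      one_mul]

theorem QQ_injective (e : Bool) (c : ℂ) {β β' : BB} (h : QQ e (c + (β : ℚ)) = QQ e (c + (β' : ℚ))) :
    β = β' := by
  have h1 : QQ e (((β : ℚ) - (β' : ℚ) : ℚ) : ℂ) = 1 := by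
    rw [QQ, QQ, ← div_eq_one_iff_eq (Complex.exp_ne_zero _), ← Complex.exp_sub] at h
    rw [QQ, ← h]
    congr 1
    push_cast
    ring
  obtain ⟨m, hm⟩ := (QQ_eq_one_iff _ _).1 h1
  have h2 : (β : ℚ) - (β' : ℚ) = m := by exact_mod_cast hm
  have h3 : (m : ℚ) < 1 := by linarith [β.2.2, β'.2.1]
  have h4 : (-1 : ℚ) < m := by linarith [β.2.1, β'.2.2]
  have h5 : m = 0 := by
    have h6 : m < 1 := by exact_mod_cast h3
    have h7 : -1 < m := by exact_mod_cast h4
    omega
  rw [h5, Int.cast_zero, sub_eq_zero] at h2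
  exact Subtype.ext h2

end Pool.Agent.P.MP_26ad15_nt
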