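import Mathlib

/-! The field of germs of complex valued functions along an ultrafilter. -/

namespace Pool.Agent.P.MP_26ad15_nt

open Filter Topology Set

/-- Germs along an ultrafilter. -/
def GF {α : Type*} (𝒰 : Ultrafilter α) : Type _ := Germ (𝒰 : Filter α) ℂ

variable {α : Type*} (𝒰 : Ultrafilter α)

noncomputable instance : Field (GF 𝒰) := inferInstanceAs (Field (Germ (𝒰 : Filter α) ℂ))

/-- The germ map as a ring homomorphism. -/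
noncomputable def gmR : (α → ℂ) →+* GF 𝒰 := Germ.coeRingHom (𝒰 : Filter α)

noncomputable instance : Algebra ℂ (GF 𝒰) :=
  ((gmR 𝒰).comp (algebraMap ℂ (α → ℂ))).toAlgebra

/-- The germ map. -/
noncomputable def gm : (α → ℂ) →ₐ[ℂ] GF 𝒰 := { gmR 𝒰 with commutes' := fun _ => rfl }

variable {𝒰}

lemma gm_eq_iff {f g : α → ℂ} : gm 𝒰 f = gm 𝒰 g ↔ ∀ᶠ x in (𝒰 : Filter α), f x = g x :=
  Germ.coe_eq

lemma gm_eq_zero_iff {f : α → ℂ} : gm 𝒰 f = 0 ↔ ∀ᶠ x in (𝒰 : Filter α), f x = 0 := by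
  rw [← map_zero (gm 𝒰), gm_eq_iff]; rfl

lemma gm_inv (f : α → ℂ) : gm 𝒰 f⁻¹ = (gm 𝒰 f)⁻¹ := rfl

lemma gm_fun_inv (f : α → ℂ) : gm 𝒰 (fun x => (f x)⁻¹) = (gm 𝒰 f)⁻¹ := rfl

lemma gm_div (f g : α → ℂ) : gm 𝒰 (f / g) = gm 𝒰 f / gm 𝒰 g := by
  rw [div_eq_mul_inv, div_eq_mul_inv, map_mul, gm_inv]

lemma gm_surjective : Function.Surjective (gm 𝒰) := fun y =>
  Germ.inductionOn y fun f => ⟨f, rfl⟩

lemma gm_const (c : ℂ) : gm 𝒰 (fun _ => c) = algebraMap ℂ (GF 𝒰) c := rfl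

lemma gm_ne_zero_iff {f : α → ℂ} : gm 𝒰 f ≠ 0 ↔ ∀ᶠ x in (𝒰 : Filter α), f x ≠ 0 := by
  rw [Ne, gm_eq_zero_iff, Ultrafilter.eventually_not]

instance : CharZero (GF 𝒰) := charZero_of_injective_algebraMap (algebraMap ℂ (GF 𝒰)).injective

lemma gm_aeval {σ : Type*} (x : σ → α → ℂ) (P : MvPolynomial σ ℂ) :
    MvPolynomial.aeval (fun s => gm 𝒰 (x s)) P =
      gm 𝒰 (fun a => MvPolynomial.eval (fun s => x s a) P) := by
  induction P using MvPolynomial.induction_on with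
  | C c => simp [gm_const]
  | add p q hp hq =>
    rw [map_add, hp, hq, ← map_add]; congr 1; funext a; simp
  | mul_X p s hp =>
    rw [map_mul, hp, MvPolynomial.aeval_X, ← map_mul]; congr 1; funext a; simp

section Mero

variable {D : Set ℂ} {τ₀ : ℂ} {𝒰 : Ultrafilter ℂ} {E : ℂ → ℂ}

lemma mero_transfer (hD : IsPreconnected D) (hE : MeromorphicOn E D) {x y : ℂ} (hx : x ∈ D)
    (hy : y ∈ D) (h : ∃ᶠ z in 𝓝[≠] x, E z = 0) : ∀ᶠ z in 𝓝[≠] y, E z = 0 := by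
  rw [(hE x hx).frequently_zero_iff_eventuallyEq_zero] at h
  by_contra hc
  exact hE.meromorphicOrderAt_ne_top_of_isPreconnected hD hy hx
    (fun e => hc (meromorphicOrderAt_eq_top_iff.1 e)) (meromorphicOrderAt_eq_top_iff.2 h)

lemma eventually_of_gm_eq_zero (hD : IsPreconnected D) (h0 : τ₀ ∈ D) (hU : (𝒰 : Filter ℂ) ≤ 𝓝[≠] τ₀)
    (hE : MeromorphicOn E D) (h : gm 𝒰 E = 0) {y : ℂ} (hy : y ∈ D) :
    ∀ᶠ z in 𝓝[≠] y, E z = 0 :=
  mero_transfer hD hE h0 hy ((gm_eq_zero_iff.1 h).frequently.filter_mono hU)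

lemma gm_eq_zero_of_frequently (hD : IsPreconnected D) (h0 : τ₀ ∈ D)
    (hU : (𝒰 : Filter ℂ) ≤ 𝓝[≠] τ₀) (hE : MeromorphicOn E D) {y : ℂ} (hy : y ∈ D)
    (h : ∃ᶠ z in 𝓝[≠] y, E z = 0) : gm 𝒰 E = 0 :=
  gm_eq_zero_iff.2 ((mero_transfer hD hE hy h0 h).filter_mono hU)

lemma eq_zero_of_gm_eq_zero (hD : IsPreconnected D) (h0 : τ₀ ∈ D) (hU : (𝒰 : Filter ℂ) ≤ 𝓝[≠] τ₀)
    (hE : MeromorphicOn E D) (h : gm 𝒰 E = 0) {y : ℂ} (hy : y ∈ D) (hc : ContinuousAt E y) :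
    E y = 0 := by
  have h1 := eventually_of_gm_eq_zero hD h0 hU hE h hy
  exact tendsto_nhds_unique (hc.tendsto.mono_left nhdsWithin_le_nhds)
    (tendsto_const_nhds.congr' (h1.mono fun z hz => hz.symm))

end Mero

end Pool.Agent.P.MP_26ad15_nt
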