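import Pool.Agent.P.MP_26ad15_nt.GammaFns
import Pool.Agent.P.MP_26ad15_nt.Germs

/-! Small facts on analytic functions. -/

namespace Pool.Agent.P.MP_26ad15_nt

open Complex Set Filter Topology

/-- The right half plane `re > r`. -/
def HP (r : ℝ) : Set ℂ := {τ | r < τ.re}

lemma isOpen_HP (r : ℝ) : IsOpen (HP r) := isOpen_lt continuous_const Complex.continuous_re

lemma isPreconnected_HP (r : ℝ) : IsPreconnected (HP r) := (convex_halfSpace_re_gt r).isPreconnected

lemma isOpen_nonpole : IsOpen {z : ℂ | ∀ m : ℕ, z ≠ -m} := by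
  have : {z : ℂ | ∀ m : ℕ, z ≠ -m} = {z | gg z ≠ 0} := by
    ext z; simp [gg, Complex.Gamma_eq_zero_iff]
  rw [this]
  exact isOpen_ne_fun differentiable_gg.continuous continuous_const

lemma gamma_rec (k : ℕ) {z : ℂ} (hz : ∀ m : ℕ, z ≠ -m) : iteratedDeriv (k + 1) Gamma z =
    ∑ i ∈ Finset.range (k + 1), k.choose i * PS true i z * iteratedDeriv (k - i) Gamma z := by
  have : deriv Gamma =ᶠ[𝓝 z] digamma * Gamma :=
    eventually_of_mem (isOpen_nonpole.mem_nhds hz) fun w hw => (hasDerivAt_Gamma' hw).deriv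
  rw [iteratedDeriv_succ', this.iteratedDeriv_eq, iteratedDeriv_mul
    (analyticAt_digamma hz).contDiffAt (analyticAt_Gamma hz).contDiffAt]
  rfl

lemma countable_zeros {D : Set ℂ} (hD : IsPreconnected D) {f : ℂ → ℂ} (hf : AnalyticOnNhd ℂ f D)
    (h : ¬ ∀ τ ∈ D, f τ = 0) : {τ ∈ D | f τ = 0}.Countable := by
  apply (HereditarilyLindelofSpace.isLindelof _).countable_of_isDiscrete
  rw [isDiscrete_iff_nhdsNE]
  intro x hx
  rw [inf_principal_eq_bot]
  by_contra hc
  refine h (hf.eqOn_zero_of_preconnected_of_frequently_eq_zero hD hx.1 ?_)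
  have hc' : ¬ ∀ᶠ z in 𝓝[≠] x, z ∈ {τ ∈ D | f τ = 0}ᶜ := hc
  exact (not_eventually.1 hc').mono fun z hz => (not_not.1 hz).2

variable {E : Type*} [NormedAddCommGroup E] [NormedSpace ℂ E]

lemma ne_residual {U : Set E} (ho : IsOpen U) (hc : IsPreconnected U) {h : E → ℂ}
    (ha : AnalyticOnNhd ℂ h U) (hn : ¬ ∀ x ∈ U, h x = 0) :
    ∀ᶠ x in residual E, x ∈ U → h x ≠ 0 := by
  have : IsNowhereDense {x ∈ U | h x = 0} := by
    rw [IsNowhereDense, eq_empty_iff_forall_notMem]
    intro w hw
    obtain ⟨x, h1, h2, -⟩ := mem_closure_iff.1 (interior_subset hw) _ isOpen_interior hw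
    refine hn (ha.eqOn_zero_of_preconnected_of_eventuallyEq_zero hc h2 ?_)
    filter_upwards [isOpen_interior.mem_nhds h1, ho.mem_nhds h2] with y a b
    have := (ha y b).continuousAt.continuousWithinAt.mem_closure (interior_subset a)
      (t := {0}) fun z hz => hz.2
    simpa using this
  exact mem_of_superset this.isMeagre fun x hx a b => hx ⟨a, b⟩

lemma analyticAt_mveval {σ : Type*} {x : σ → E → ℂ} {t : E} (h : ∀ s, AnalyticAt ℂ (x s) t)
    (P : MvPolynomial σ ℂ) : AnalyticAt ℂ (fun t => MvPolynomial.eval (fun s => x s t) P) t := by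
  induction P using MvPolynomial.induction_on with
  | C c => simpa using analyticAt_const
  | add p q hp hq => simp only [map_add]; exact hp.add hq
  | mul_X p s hp => simp only [map_mul, MvPolynomial.eval_X]; exact hp.mul (h s)

end Pool.Agent.P.MP_26ad15_nt
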