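import Mathlib

/-! Formal curve selection: every prime of a power series ring over a countable subfield of the
complex numbers is the kernel of a local homomorphism to power series in one variable. -/

namespace Pool.Agent.P.MP_26ad15_nt

open Cardinal IsLocalRing

/-- Small extensions of a countable subfield embed into the complex numbers. -/
theorem nonempty_algHom_complex (k : Subfield ℂ) (hk : (k : Set ℂ).Countable) (κ : Type)
    [Field κ] [Algebra k κ] (hκ : #κ ≤ 𝔠) : Nonempty (κ →ₐ[k] ℂ) := by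
  obtain ⟨t, ht⟩ := exists_isTranscendenceBasis k κ
  obtain ⟨s, hs⟩ := exists_isTranscendenceBasis k ℂ
  have hkc : #k ≤ ℵ₀ := Cardinal.mk_le_aleph0_iff.2 hk.to_subtype
  have h1 : #ℂ = #s := IsAlgClosed.cardinal_eq_cardinal_transcendence_basis_of_aleph0_lt' _ hs hkc
    (by rw [Cardinal.mk_complex]; exact aleph0_lt_continuum)
  have h2 : #t ≤ #s := by
    rw [← h1, Cardinal.mk_complex]
    exact (Cardinal.mk_set_le t).trans hκ
  obtain ⟨e⟩ := Cardinal.le_def _ _ |>.1 h2
  have hi : AlgebraicIndependent k fun i : t => (e i : ℂ) := hs.1.comp e e.injective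
  let R := Algebra.adjoin k (Set.range ((↑) : t → κ))
  let φ : R →ₐ[k] ℂ := (MvPolynomial.aeval fun i : t => (e i : ℂ)).comp
    ht.1.aevalEquiv.symm.toAlgHom
  have hφ : Function.Injective φ := fun x y h =>
    ht.1.aevalEquiv.symm.injective (hi h)
  let : Algebra R ℂ := φ.toRingHom.toAlgebra
  have : FaithfulSMul R ℂ := (faithfulSMul_iff_algebraMap_injective _ _).2 hφ
  have : Algebra.IsAlgebraic R κ := ht.isAlgebraic
  have : IsScalarTower k R ℂ := IsScalarTower.of_algebraMap_eq fun x => (φ.commutes x).symm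
  exact ⟨(IsAlgClosed.lift (R := R) (S := κ) (M := ℂ)).restrictScalars k⟩

/-- Expansion in powers of a regular element, given a coefficient field. -/
theorem exists_digits {κ W : Type*} [Field κ] [CommRing W] [Algebra κ W] (ε : W →ₐ[κ] κ) {π : W}
    (hker : ∀ w, ε w = 0 ↔ π ∣ w) (hreg : ∀ w, π * w = 0 → w = 0) :
    ∃ Ψ : W →ₐ[κ] PowerSeries κ, (∀ w, Ψ w = 0 → ∀ n, π ^ n ∣ w) ∧
      ∀ w, PowerSeries.constantCoeff (Ψ w) = ε w := by
  let θ : Polynomial κ →ₐ[κ] W := Polynomial.aeval π
  have hπ : ε π = 0 := (hker π).2 dvd_rfl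
  have hθ : ∀ (n : ℕ) (P : Polynomial κ), π ^ n ∣ θ P → Polynomial.X ^ n ∣ P := by
    intro n
    induction n with
    | zero => intro P _; simp
    | succ n ih =>
      intro P hP
      have h1 : ε (θ P) = 0 := (hker _).2 ((dvd_pow_self π n.succ_ne_zero).trans hP)
      have h2 : P.coeff 0 = 0 := by
        rw [← Polynomial.aeval_algHom_apply, hπ] at h1
        simpa [Polynomial.coeff_zero_eq_eval_zero] using h1
      obtain ⟨Q, rfl⟩ := Polynomial.X_dvd_iff.2 h2
      obtain ⟨z, hz⟩ := hP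
      have h3 : θ Q = π ^ n * z := by
        refine sub_eq_zero.1 (hreg _ ?_)
        rw [map_mul] at hz
        have : θ Polynomial.X = π := Polynomial.aeval_X π
        rw [mul_sub, ← this, hz, this]
        ring
      rw [pow_succ']
      exact mul_dvd_mul_left _ (ih Q ⟨z, h3⟩)
  let Rel : W → PowerSeries κ → Prop := fun w F => ∀ n : ℕ, ∃ P : Polynomial κ,
    π ^ n ∣ w - θ P ∧ PowerSeries.X ^ n ∣ F - (P : PowerSeries κ)
  have huniq : ∀ w F G, Rel w F → Rel w G → F = G := by
    intro w F G hF hG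
    ext n
    obtain ⟨P, h1, h2⟩ := hF (n + 1)
    obtain ⟨Q, h3, h4⟩ := hG (n + 1)
    have h5 : π ^ (n + 1) ∣ θ (Q - P) := by
      have := dvd_sub h1 h3
      rwa [sub_sub_sub_cancel_left, ← map_sub] at this
    obtain ⟨S, hS⟩ := hθ _ _ h5
    have h6 : PowerSeries.X ^ (n + 1) ∣ ((Q : PowerSeries κ) - (P : PowerSeries κ)) :=
      ⟨S, by rw [← Polynomial.coe_sub, hS]; simp⟩
    have h7 : PowerSeries.X ^ (n + 1) ∣ F - G := by
      have := dvd_sub (dvd_sub h2 h4) h6
      convert this using 1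
      ring
    have := PowerSeries.X_pow_dvd_iff.1 h7 n n.lt_succ_self
    rwa [map_sub, sub_eq_zero] at this
  have hstep : ∀ w, ∃ z, w - algebraMap κ W (ε w) = π * z := fun w =>
    (hker _).1 (by simp)
  choose s hs using hstep
  have hex : ∀ w, ∃ F, Rel w F := by
    intro w
    refine ⟨PowerSeries.mk fun n => ε (s^[n] w), fun n =>
      ⟨PowerSeries.trunc n (PowerSeries.mk fun n => ε (s^[n] w)), ⟨s^[n] w, ?_⟩, ?_⟩⟩
    · induction n with
      | zero => simp
      | succ n ih =>
        rw [PowerSeries.trunc_succ, map_add, ← sub_sub, ih, Function.iterate_succ_apply', pow_succ,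
          mul_assoc, ← hs]
        simp only [θ, PowerSeries.coeff_mk, Polynomial.aeval_monomial]
        ring
    · refine PowerSeries.X_pow_dvd_iff.2 fun m hm => ?_
      simp [PowerSeries.coeff_trunc, hm]
  choose Ψ hΨ using hex
  have hc : ∀ c : κ, Ψ (algebraMap κ W c) = algebraMap κ _ c := fun c =>
    huniq _ _ _ (hΨ _) fun n => ⟨Polynomial.C c, by simp [θ], by simp⟩
  let Φ : W →ₐ[κ] PowerSeries κ :=
    { toFun := Ψ
      map_one' := by simpa using hc 1
      map_zero' := by simpa using hc 0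
      commutes' := hc
      map_add' := fun w w' => huniq _ _ _ (hΨ _) fun n => by
        obtain ⟨P, h1, h2⟩ := hΨ w n
        obtain ⟨Q, h3, h4⟩ := hΨ w' n
        refine ⟨P + Q, ?_, ?_⟩
        · convert dvd_add h1 h3 using 1
          rw [map_add]; ring
        · convert dvd_add h2 h4 using 1
          rw [Polynomial.coe_add]; ring
      map_mul' := fun w w' => huniq _ _ _ (hΨ _) fun n => by
        obtain ⟨P, h1, h2⟩ := hΨ w n
        obtain ⟨Q, h3, h4⟩ := hΨ w' n
        refine ⟨P * Q, ?_, ?_⟩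
        · convert dvd_add (h1.mul_right w') (h3.mul_left (θ P)) using 1
          rw [map_mul]; ring
        · convert dvd_add (h2.mul_right (Ψ w')) (h4.mul_left (P : PowerSeries κ)) using 1
          rw [Polynomial.coe_mul]; ring }
  refine ⟨Φ, fun w hw n => ?_, fun w => ?_⟩
  · obtain ⟨P, h1, h2⟩ := hΨ w n
    have hw' : Ψ w = 0 := hw
    rw [hw', zero_sub, dvd_neg] at h2
    have h3 : Polynomial.X ^ n ∣ P := Polynomial.X_pow_dvd_iff.2 fun m hm => by
      simpa using PowerSeries.X_pow_dvd_iff.1 h2 m hm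
    have h4 : π ^ n ∣ θ P := by
      simpa [θ] using map_dvd θ h3
    simpa using dvd_add h1 h4
  · obtain ⟨P, h1, h2⟩ := hΨ w 1
    rw [pow_one] at h1 h2
    have h3 := (hker _).2 h1
    rw [PowerSeries.X_dvd_iff] at h2
    rw [map_sub, sub_eq_zero] at h2 h3
    change PowerSeries.constantCoeff (Ψ w) = _
    rw [h2, h3, ← Polynomial.aeval_algHom_apply, hπ]
    simp [Polynomial.coeff_zero_eq_eval_zero]

/-- A discrete valuation ring of small cardinality embeds locally into power series. -/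
theorem exists_hom_of_dvr (k : Subfield ℂ) (hk : (k : Set ℂ).Countable) (V : Type) [CommRing V]
    [IsDomain V] [IsNoetherianRing V] [Algebra k V] {π : V} (h0 : π ≠ 0)
    (hπ : (Ideal.span {π}).IsMaximal) [IsLocalRing V] (hV : #V ≤ 𝔠) :
    ∃ Ψ : V →ₐ[k] PowerSeries ℂ, Function.Injective Ψ ∧
      ∀ v, π ∣ v → PowerSeries.constantCoeff (Ψ v) = 0 := by
  set I : Ideal V := Ideal.span {π} with hI
  let : Field (V ⧸ I) := Ideal.Quotient.field I
  have : CharZero (V ⧸ I) := charZero_of_injective_algebraMap (algebraMap k _).injective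
  obtain ⟨t, ht⟩ := exists_isTranscendenceBasis k (V ⧸ I)
  have := ht.isAlgebraic_field
  have : Algebra.FormallySmooth k (V ⧸ I) :=
    Algebra.FormallySmooth.of_algebraicIndependent_of_isSeparable ht.1
  obtain ⟨σ, hσ⟩ := Algebra.FormallySmooth.exists_adicCompletionEvalOneₐ_comp_eq (R := k)
    (I := I) (AlgHom.id k (V ⧸ I))
  obtain ⟨ι⟩ := nonempty_algHom_complex k hk (V ⧸ I)
    ((Cardinal.mk_le_of_surjective Ideal.Quotient.mk_surjective).trans hV)
  let W := AdicCompletion I V
  have hfg : I.FG := ⟨{π}, by simp [hI]⟩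
  have hσ' : ∀ c, AdicCompletion.evalOneₐ I (σ c) = c := fun c => congrArg (fun f => f c) hσ
  have hker : ∀ w : W, AdicCompletion.evalOneₐ I w = 0 ↔ algebraMap V W π ∣ w := fun w => by
    have := AdicCompletion.ker_evalOneₐ_eq_map I hfg
    rw [← Ideal.mem_span_singleton, ← Set.image_singleton, ← Ideal.map_span, ← hI, ← this]
    rfl
  have hreg : ∀ w : W, algebraMap V W π * w = 0 → w = 0 := fun w hw =>
    Module.Flat.isSMulRegular_of_nonZeroDivisors (M := W) (mem_nonZeroDivisors_of_ne_zero h0)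
      (by simpa [Algebra.smul_def] using hw)
  obtain ⟨Ψ, h1, h2⟩ := @exists_digits (V ⧸ I) W _ _ σ.toRingHom.toAlgebra
    (@AlgHom.mk _ _ _ _ _ _ σ.toRingHom.toAlgebra _ (AdicCompletion.evalOneₐ I).toRingHom hσ')
    _ hker hreg
  let : Algebra (V ⧸ I) W := σ.toRingHom.toAlgebra
  let Φ : V →+* PowerSeries ℂ :=
    (PowerSeries.map ι.toRingHom).comp (Ψ.toRingHom.comp (algebraMap V W))
  have hΦ : ∀ v, Φ v = PowerSeries.map ι.toRingHom (Ψ (algebraMap V W v)) := fun v => rfl
  refine ⟨⟨Φ, fun c => ?_⟩, ?_, fun v hv => ?_⟩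
  · have h3 : algebraMap V W (algebraMap k V c) =
        algebraMap (V ⧸ I) W (algebraMap k (V ⧸ I) c) := by
      rw [← IsScalarTower.algebraMap_apply]
      exact (σ.commutes c).symm
    change Φ (algebraMap k V c) = _
    rw [hΦ, h3, Ψ.commutes]
    simp [PowerSeries.algebraMap_apply]
  · refine (injective_iff_map_eq_zero Φ).2 fun v hv => ?_
    have h3 : Ψ (algebraMap V W v) = 0 :=
      PowerSeries.map_injective ι.toRingHom ι.toRingHom.injective (by rw [← hΦ, hv, map_zero])
    have h4 : v ∈ ⨅ n : ℕ, I ^ n := by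
      refine Ideal.mem_iInf.2 fun n => ?_
      obtain ⟨z, hz⟩ := h1 _ h3 n
      have h5 := congrArg (AdicCompletion.evalₐ I n) hz
      rw [← map_pow, map_mul, AlgHom.commutes, AlgHom.commutes] at h5
      have h6 : algebraMap V (V ⧸ I ^ n) (π ^ n) = 0 :=
        Ideal.Quotient.eq_zero_iff_mem.2 (Ideal.pow_mem_pow (Ideal.mem_span_singleton_self π) n)
      rw [h6, zero_mul] at h5
      exact Ideal.Quotient.eq_zero_iff_mem.1 h5
    rwa [Ideal.iInf_pow_eq_bot_of_isDomain I hπ.ne_top] at h4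
  · change PowerSeries.constantCoeff (Φ v) = 0
    have h3 : PowerSeries.constantCoeff (Ψ (algebraMap V W v)) = 0 :=
      (h2 _).trans ((hker _).2 (map_dvd _ hv))
    rw [← PowerSeries.coeff_zero_eq_constantCoeff_apply] at h3 ⊢
    rw [hΦ, PowerSeries.coeff_map, h3, map_zero]

/-- The Krull-Akizuki theorem for overrings of a one-dimensional local domain. -/
theorem isNoetherianRing_of_dim_one {K : Type*} [Field K] (R V : Subring K) (hRV : R ≤ V)
    [IsNoetherianRing R] [IsLocalRing R] (hfrac : ∀ x : K, ∃ b c : R, c ≠ 0 ∧ x * c = b)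
    (hdim : ∀ P : Ideal R, P ≠ ⊥ → P.IsPrime → P.IsMaximal) : IsNoetherianRing V := by
  classical
  let i : R →+* V := Subring.inclusion hRV
  have hfrac' : ∀ x : V, ∃ b c : R, c ≠ 0 ∧ x * i c = i b := fun x => by
    obtain ⟨b, c, hc, h⟩ := hfrac x
    exact ⟨b, c, hc, Subtype.ext h⟩
  have hi : Function.Injective i := Subring.inclusion_injective hRV
  refine (isNoetherianRing_iff_ideal_fg V).2 fun J => ?_
  rcases eq_or_ne J ⊥ with rfl | hJ
  · exact Submodule.fg_bot
  obtain ⟨x0, hx0, hx0'⟩ := Submodule.exists_mem_ne_zero_of_ne_bot hJ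
  obtain ⟨a, c0, hc0, h0⟩ := hfrac' x0
  have haJ : i a ∈ J := h0 ▸ J.mul_mem_right _ hx0
  have ha' : i a ≠ 0 := h0 ▸ mul_ne_zero hx0' ((map_ne_zero_iff i hi).2 hc0)
  have ha : a ≠ 0 := (map_ne_zero_iff i hi).1 ha'
  by_cases hu : IsUnit a
  · rw [J.eq_top_of_isUnit_mem haJ (hu.map i)]
    exact Ideal.fg_top V
  have hpow : ∀ c : R, c ≠ 0 → ∃ m, c ∣ a ^ m := by
    intro c hc
    have : a ∈ (Ideal.span {c}).radical := by
      rw [Ideal.radical_eq_sInf, Submodule.mem_sInf]
      rintro P ⟨hP1, hP2⟩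
      have hP : P ≠ ⊥ := fun h => hc (by
        simpa [h] using hP1 (Ideal.mem_span_singleton_self c))
      rw [eq_maximalIdeal (hdim P hP hP2)]
      exact hu
    obtain ⟨m, hm⟩ := this
    exact ⟨m, Ideal.mem_span_singleton.1 hm⟩
  have : Ring.KrullDimLE 0 (R ⧸ Ideal.span {a}) := by
    refine Ring.krullDimLE_zero_iff.2 fun P hP => ?_
    have h1 : (P.comap (Ideal.Quotient.mk _)).IsMaximal := by
      refine hdim _ (fun h => ha ?_) inferInstance
      have : a ∈ P.comap (Ideal.Quotient.mk (Ideal.span {a})) := by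
        rw [Ideal.mem_comap, Ideal.Quotient.eq_zero_iff_mem.2 (Ideal.mem_span_singleton_self a)]
        exact P.zero_mem
      simpa [h] using this
    have h2 := Ideal.map_eq_top_or_isMaximal_of_surjective _
      (Ideal.Quotient.mk_surjective (I := Ideal.span {a})) h1
    rw [Ideal.map_comap_of_surjective _ Ideal.Quotient.mk_surjective] at h2
    exact h2.resolve_left hP.ne_top
  have : IsArtinianRing (R ⧸ Ideal.span {a}) :=
    IsNoetherianRing.isArtinianRing_of_krullDimLE_zero
  obtain ⟨t, ht⟩ := IsArtinian.monotone_stabilizes (R := R ⧸ Ideal.span {a})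
    (M := R ⧸ Ideal.span {a})
    ⟨fun n => OrderDual.toDual
      (((Ideal.span {i a ^ n}).comap i).map (Ideal.Quotient.mk (Ideal.span {a}))),
      fun m n hmn => Ideal.map_mono (Ideal.comap_mono
        (Ideal.span_singleton_le_span_singleton.2 (pow_dvd_pow _ hmn)))⟩
  have hst : ∀ m, t ≤ m → ∀ r : R, i a ^ m ∣ i r →
      ∃ (y : V) (r' : R), i r = i a ^ (m + 1) * y + i a * i r' := by
    intro m hm r hr
    have h1 : ((Ideal.span {i a ^ m}).comap i).map (Ideal.Quotient.mk (Ideal.span {a})) =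
        ((Ideal.span {i a ^ (m + 1)}).comap i).map (Ideal.Quotient.mk (Ideal.span {a})) :=
      (ht m hm).symm.trans (ht (m + 1) (by omega))
    have h2 : Ideal.Quotient.mk (Ideal.span {a}) r ∈
        ((Ideal.span {i a ^ (m + 1)}).comap i).map (Ideal.Quotient.mk (Ideal.span {a})) :=
      h1 ▸ Ideal.mem_map_of_mem _ (Ideal.mem_comap.2 (Ideal.mem_span_singleton.2 hr))
    obtain ⟨r1, h3, h4⟩ := (Ideal.mem_map_iff_of_surjective _ Ideal.Quotient.mk_surjective).1 h2
    obtain ⟨y, hy⟩ := Ideal.mem_span_singleton.1 (Ideal.mem_comap.1 h3)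
    obtain ⟨r', hr'⟩ := Ideal.mem_span_singleton.1 (Ideal.Quotient.eq.1 h4.symm)
    refine ⟨y, r', ?_⟩
    rw [← hy, ← map_mul, ← hr', map_sub]
    ring
  have hall : ∀ x : V, ∃ (r : R) (y : V), i a ^ t * x = i r + i a ^ (t + 1) * y := by
    intro x
    have hdown : ∀ j, (∃ (r : R) (y : V), i a ^ (t + j) * x = i r + i a ^ (t + j + 1) * y) →
        ∃ (r : R) (y : V), i a ^ t * x = i r + i a ^ (t + 1) * y := by
      intro j
      induction j with
      | zero => exact id
      | succ j ih =>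
        rintro ⟨r, y, h⟩
        obtain ⟨y', r', h'⟩ := hst (t + (j + 1)) (by omega) r
          ⟨x - i a * y, by rw [← sub_eq_iff_eq_add] at h; rw [← h]; ring⟩
        refine ih ⟨r', y + y', mul_left_cancel₀ ha' ?_⟩
        rw [h'] at h
        linear_combination h
    obtain ⟨b, c, hc, h⟩ := hfrac' x
    obtain ⟨m, d, hd⟩ := hpow c hc
    refine hdown m ⟨a ^ t * b * d, 0, ?_⟩
    rw [pow_add, ← map_pow i a m, hd, map_mul, map_mul, map_mul, ← h, map_pow]
    ring
  let N : Ideal V → Ideal R := fun J =>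
    { carrier := {r | ∃ x ∈ J, ∃ y : V, i a ^ t * x = i r + i a ^ (t + 1) * y}
      zero_mem' := ⟨0, J.zero_mem, 0, by simp⟩
      add_mem' := by
        rintro r r' ⟨x, hx, y, h⟩ ⟨x', hx', y', h'⟩
        exact ⟨x + x', J.add_mem hx hx', y + y', by rw [map_add]; linear_combination h + h'⟩
      smul_mem' := by
        rintro c r ⟨x, hx, y, h⟩
        exact ⟨i c * x, J.mul_mem_left _ hx, i c * y, by
          rw [smul_eq_mul, map_mul]; linear_combination (i c) * h⟩ }
  obtain ⟨s, hs⟩ := (isNoetherianRing_iff_ideal_fg R).1 inferInstance (N J)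
  have hs' : ∀ r : s, ∃ x ∈ J, ∃ y : V, i a ^ t * x = i r + i a ^ (t + 1) * y := fun r => by
    have : (r : R) ∈ N J := hs ▸ Ideal.subset_span r.2
    exact this
  choose ξ hξ hξ' using hs'
  refine ⟨insert (i a) (Finset.univ.image ξ), le_antisymm ?_ fun x hx => ?_⟩
  · rw [Ideal.span_le]
    intro z hz
    simp only [Finset.coe_insert, Finset.coe_image, Set.mem_insert_iff, Set.mem_image] at hz
    rcases hz with rfl | ⟨r, -, rfl⟩
    exacts [haJ, hξ r]
  · set J0 := Ideal.span (↑(insert (i a) (Finset.univ.image ξ) : Finset V) : Set V)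
    have hle : N J ≤ N J0 := by
      rw [← hs, Ideal.span_le]
      intro r hr
      exact ⟨ξ ⟨r, hr⟩, Ideal.subset_span (by simp), hξ' ⟨r, hr⟩⟩
    obtain ⟨r, y, h⟩ := hall x
    obtain ⟨x', hx', y', h'⟩ := hle (show r ∈ N J from ⟨x, hx, y, h⟩)
    have : x = x' + i a * (y - y') :=
      mul_left_cancel₀ (pow_ne_zero t ha') (by linear_combination h - h')
    rw [this]
    exact J0.add_mem hx' (J0.mul_mem_right _ (Ideal.subset_span (by simp)))

/-- A Noetherian local domain that is not a field is dominated by a discrete valuation ring. -/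
theorem exists_dvr (B : Type) [CommRing B] [IsDomain B] [IsNoetherianRing B] [IsLocalRing B]
    (hB : maximalIdeal B ≠ ⊥) :
    ∃ (V : ValuationSubring (FractionRing B)) (f : B →+* V) (π : V), IsNoetherianRing V ∧
      Function.Injective f ∧ π ≠ 0 ∧ (Ideal.span {π}).IsMaximal ∧
      ∀ b ∈ maximalIdeal B, π ∣ f b := by
  classical
  set K := FractionRing B
  have hinj : Function.Injective (algebraMap B K) := IsFractionRing.injective B K
  obtain ⟨V0, h0, hl0⟩ := exists_factor_valuationRing (algebraMap B K)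
  set g := (algebraMap B K).codRestrict V0.toSubring h0
  obtain ⟨s, hs⟩ := (maximalIdeal B).fg_of_isNoetherianRing
  have : IsBezout V0.toSubring := inferInstanceAs (IsBezout V0)
  obtain ⟨y, hy⟩ := IsBezout.isPrincipal_of_FG ((maximalIdeal B).map g)
    ((maximalIdeal B).fg_of_isNoetherianRing.map g)
  replace hy : (maximalIdeal B).map g = Ideal.span {y} := hy
  have : IsLocalRing V0.toSubring := inferInstanceAs (IsLocalRing V0)
  have hyd : ∀ b ∈ maximalIdeal B, ∃ z : V0.toSubring, g b = y * z := fun b hb =>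
    Ideal.mem_span_singleton.1 (hy ▸ Ideal.mem_map_of_mem g hb)
  have hyu : ¬ IsUnit y := by
    have : (maximalIdeal B).map g ≤ maximalIdeal V0.toSubring :=
      ((local_hom_TFAE g).out 0 2).mp hl0
    exact this (hy ▸ Ideal.mem_span_singleton_self y)
  choose z hz using fun b : s => hyd b (hs ▸ Ideal.subset_span b.2)
  let A' : Subalgebra B K :=
    Algebra.adjoin B ↑(insert (y : K) (Finset.univ.image fun b => (z b : K)) : Finset K)
  let A : Subring K := A'.toSubring
  have : IsNoetherianRing A := isNoetherianRing_of_fg (S := A') ⟨_, rfl⟩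
  have hAV : A ≤ V0.toSubring := by
    intro x hx
    induction hx using Algebra.adjoin_induction with
    | mem x hx =>
      simp only [Finset.coe_insert, Finset.coe_image, Set.mem_insert_iff, Set.mem_image] at hx
      rcases hx with rfl | ⟨b, -, rfl⟩
      exacts [y.2, (z b).2]
    | algebraMap b => exact h0 b
    | add x x' _ _ h h' => exact add_mem h h'
    | mul x x' _ _ h h' => exact mul_mem h h'
  let y' : A := ⟨y, Algebra.subset_adjoin (by simp)⟩
  have hy' : Ideal.span {y'} ≠ ⊤ := fun h =>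
    hyu ((Ideal.span_singleton_eq_top.1 h).map (Subring.inclusion hAV))
  obtain ⟨q, hq⟩ := Ideal.nonempty_minimalPrimes hy'
  have := hq.isPrime
  have hqh := Ideal.height_le_one_of_isPrincipal_of_mem_minimalPrimes _ q hq
  let R := (LocalSubring.ofPrime A q).toSubring
  have : IsNoetherianRing R := IsLocalization.isNoetherianRing q.primeCompl R inferInstance
  have hdim : Ring.KrullDimLE 1 R := by
    rw [Ring.krullDimLE_iff, IsLocalization.AtPrime.ringKrullDim_eq_height q R]
    exact_mod_cast hqh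
  have hBR : ∀ b, algebraMap B K b ∈ R := fun b =>
    LocalSubring.le_ofPrime A q (A'.algebraMap_mem b)
  obtain ⟨V, h1, hl1⟩ := exists_factor_valuationRing R.subtype
  have hRV : R ≤ V.toSubring := fun x hx => h1 ⟨x, hx⟩
  have hN : IsNoetherianRing V.toSubring := by
    refine isNoetherianRing_of_dim_one R V.toSubring hRV (fun x => ?_)
      (Ring.krullDimLE_one_iff_of_noZeroDivisors.1 hdim)
    obtain ⟨b, c, hc, rfl⟩ := IsFractionRing.div_surjective (A := B) x
    have hc' : algebraMap B K c ≠ 0 := (map_ne_zero_iff _ hinj).2 (nonZeroDivisors.ne_zero hc)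
    exact ⟨⟨_, hBR b⟩, ⟨_, hBR c⟩, fun h => hc' (congrArg Subtype.val h), div_mul_cancel₀ _ hc'⟩
  have : IsNoetherianRing V := hN
  obtain ⟨π, hπ⟩ := IsBezout.isPrincipal_of_FG (maximalIdeal V)
    (maximalIdeal V).fg_of_isNoetherianRing
  replace hπ : maximalIdeal V = Ideal.span {π} := hπ
  let : IsLocalRing V.toSubring := inferInstanceAs (IsLocalRing V)
  let f : B →+* V := (algebraMap B K).codRestrict V.toSubring fun b => hRV (hBR b)
  have hf : Function.Injective f := fun b c h => hinj (congrArg Subtype.val h)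
  have hAV' : A ≤ V.toSubring := (LocalSubring.le_ofPrime A q).trans hRV
  have hym : (Subring.inclusion hAV' y' : V) ∈ maximalIdeal V := by
    have h2 : algebraMap A R y' ∈ maximalIdeal R :=
      (IsLocalization.AtPrime.to_map_mem_maximal_iff R q y').2
        (hq.le (Ideal.mem_span_singleton_self y'))
    exact map_nonunit (R.subtype.codRestrict V.toSubring h1) _ h2
  have hm : ∀ b ∈ maximalIdeal B, π ∣ f b := by
    have : maximalIdeal B ≤ (maximalIdeal V).comap f := by
      rw [← hs, Ideal.span_le]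
      intro b hb
      have h3 : f b = Subring.inclusion hAV' y' * Subring.inclusion hAV'
          ⟨z ⟨b, hb⟩, Algebra.subset_adjoin (by simp)⟩ :=
        Subtype.ext (congrArg (fun w : V0.toSubring => (w : K)) (hz ⟨b, hb⟩))
      change f b ∈ maximalIdeal V
      rw [h3]
      exact Ideal.mul_mem_right _ _ hym
    intro b hb
    exact Ideal.mem_span_singleton.1 (hπ ▸ this hb)
  refine ⟨V, f, π, hN, hf, ?_, hπ ▸ maximalIdeal.isMaximal V, hm⟩
  rintro rfl
  obtain ⟨b, hb, hb0⟩ := Submodule.exists_mem_ne_zero_of_ne_bot hB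
  exact hb0 (hf (by simpa using hm b hb))

/-- Curve selection for Noetherian local domains of small cardinality. -/
theorem exists_curve_of_noetherian (k : Subfield ℂ) (hk : (k : Set ℂ).Countable) (B : Type)
    [CommRing B] [IsDomain B] [IsNoetherianRing B] [IsLocalRing B] [Algebra k B] (hB : #B ≤ 𝔠) :
    ∃ Ψ : B →ₐ[k] PowerSeries ℂ, Function.Injective Ψ ∧
      ∀ b ∈ maximalIdeal B, PowerSeries.constantCoeff (Ψ b) = 0 := by
  by_cases hm : maximalIdeal B = ⊥
  · let : Field B := ((isField_iff_maximalIdeal_eq).2 hm).toField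
    obtain ⟨ι⟩ := nonempty_algHom_complex k hk B hB
    refine ⟨(IsScalarTower.toAlgHom k ℂ (PowerSeries ℂ)).comp ι,
      RingHom.injective (R := B) _, fun b hb => ?_⟩
    rw [hm, Ideal.mem_bot] at hb
    simp [hb]
  · obtain ⟨V, f, π, hN, hf, h0, hπ, hd⟩ := exists_dvr B hm
    let : Algebra k V := (f.comp (algebraMap k B)).toAlgebra
    obtain ⟨Ψ, h1, h2⟩ := exists_hom_of_dvr k hk V h0 hπ
      ((Cardinal.mk_subtype_le _).trans ((IsLocalization.cardinalMk_le (nonZeroDivisors B)).trans hB))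
    exact ⟨Ψ.comp ⟨f, fun _ => rfl⟩, h1.comp hf, fun b hb => h2 _ (hd b hb)⟩

theorem exists_formal_curve {σ : Type} [Finite σ] (k : Subfield ℂ) (hk : (k : Set ℂ).Countable)
    (𝔭 : Ideal (MvPowerSeries σ k)) (h𝔭 : 𝔭.IsPrime) :
    ∃ Ψ : MvPowerSeries σ k →ₐ[k] PowerSeries ℂ, (∀ F, Ψ F = 0 ↔ F ∈ 𝔭) ∧
      ∀ F, MvPowerSeries.constantCoeff F = 0 → PowerSeries.constantCoeff (Ψ F) = 0 := by
  have : IsLocalRing (MvPowerSeries σ k ⧸ 𝔭) :=
    .of_surjective' (Ideal.Quotient.mk 𝔭) Ideal.Quotient.mk_surjective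
  have hc : #(MvPowerSeries σ k) ≤ 𝔠 := by
    have : Countable k := hk.to_subtype
    have : #(MvPowerSeries σ k) = #k ^ #(σ →₀ ℕ) := by
      rw [Cardinal.power_def]
      rfl
    rw [this, ← Cardinal.continuum_power_aleph0]
    exact (Cardinal.power_le_power_right (Cardinal.mk_le_aleph0.trans aleph0_le_continuum)).trans
      (Cardinal.power_le_power_left continuum_ne_zero Cardinal.mk_le_aleph0)
  obtain ⟨Ψ, h1, h2⟩ := exists_curve_of_noetherian k hk (MvPowerSeries σ k ⧸ 𝔭)
    ((Cardinal.mk_le_of_surjective Ideal.Quotient.mk_surjective).trans hc)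
  refine ⟨Ψ.comp (Ideal.Quotient.mkₐ k 𝔭), fun F => ?_, fun F hF => h2 _ ?_⟩
  · rw [AlgHom.comp_apply, map_eq_zero_iff _ h1]
    exact Ideal.Quotient.eq_zero_iff_mem
  · have := IsLocalHom.of_surjective (Ideal.Quotient.mk 𝔭) Ideal.Quotient.mk_surjective
    refine map_nonunit (Ideal.Quotient.mk 𝔭) F ?_
    intro hu
    have := MvPowerSeries.isUnit_iff_constantCoeff.1 hu
    simp [hF] at this

end Pool.Agent.P.MP_26ad15_nt
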