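import Mathlib

/-! From a point with coordinates in a valuation ring to a formal curve. -/

namespace Pool.Agent.P.MP_26ad15_nt

/-- The statement of `exists_formal_curve`. -/
def CurveSel : Prop := ∀ (σ : Type) [Finite σ] (k : Subfield ℂ), (k : Set ℂ).Countable →
  ∀ 𝔭 : Ideal (MvPowerSeries σ k), 𝔭.IsPrime →
    ∃ Ψ : MvPowerSeries σ k →ₐ[k] PowerSeries ℂ, (∀ F, Ψ F = 0 ↔ F ∈ 𝔭) ∧
      ∀ F, MvPowerSeries.constantCoeff F = 0 → PowerSeries.constantCoeff (Ψ F) = 0

namespace CurveVal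

theorem hasEval_nil {σ S : Type*} [Finite σ] [CommRing S] [TopologicalSpace S] {a : σ → S}
    (ha : ∀ j, IsNilpotent (a j)) : MvPowerSeries.HasEval a :=
  ⟨fun j => (ha j).isTopologicallyNilpotent, by simp [Filter.cofinite_eq_bot]⟩

/-- evaluation of a power series at nilpotent elements -/
noncomputable def evNil {σ : Type*} [Finite σ] (k : Type*) {S : Type*} [CommRing k] [CommRing S]
    [Algebra k S] {a : σ → S} (ha : ∀ j, IsNilpotent (a j)) : MvPowerSeries σ k →ₐ[k] S :=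
  letI : UniformSpace k := ⊥
  letI : UniformSpace S := ⊥
  haveI : ContinuousSMul k S := DiscreteTopology.instContinuousSMul k S
  MvPowerSeries.aeval (hasEval_nil ha)

theorem evNil_X {σ : Type*} [Finite σ] (k : Type*) {S : Type*} [CommRing k] [CommRing S]
    [Algebra k S] {a : σ → S} (ha : ∀ j, IsNilpotent (a j)) (j : σ) :
    evNil k ha (MvPowerSeries.X j) = a j := by
  let : UniformSpace k := ⊥
  let : UniformSpace S := ⊥
  have : ContinuousSMul k S := DiscreteTopology.instContinuousSMul k S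
  unfold evNil
  rw [← MvPolynomial.coe_X, MvPowerSeries.aeval_coe, MvPolynomial.aeval_X]

theorem comp_evNil {σ : Type*} [Finite σ] (k : Type*) {S T : Type*} [CommRing k] [CommRing S]
    [Algebra k S] [CommRing T] [Algebra k T] {a : σ → S} (ha : ∀ j, IsNilpotent (a j))
    (ε : S →ₐ[k] T) {b : σ → T} (hb : ∀ j, IsNilpotent (b j)) (h : ∀ j, ε (a j) = b j) :
    ε.comp (evNil k ha) = evNil k hb := by
  let : UniformSpace k := ⊥
  let : UniformSpace S := ⊥
  let : UniformSpace T := ⊥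
  have : ContinuousSMul k S := DiscreteTopology.instContinuousSMul k S
  have : ContinuousSMul k T := DiscreteTopology.instContinuousSMul k T
  obtain rfl : b = fun j => ε (a j) := funext fun j => (h j).symm
  unfold evNil
  exact MvPowerSeries.comp_aeval (hasEval_nil ha) continuous_of_discreteTopology

theorem exists_ev {σ : Type*} [Finite σ] (k : Type*) {R : Type*} [CommRing k] [CommRing R]
    [Algebra k R] (ρ : R) (U : σ → R) (hU : ∀ j, ∃ m, ρ ∣ U j ^ m) :
    ∃ ev : (N : ℕ) → (MvPowerSeries σ k →ₐ[k] R ⧸ Ideal.span {ρ ^ N}),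
      (∀ N j, ev N (MvPowerSeries.X j) = Ideal.Quotient.mk _ (U j)) ∧
      ∀ M N, M ≤ N → ∀ F r, ev N F = Ideal.Quotient.mk _ r → ev M F = Ideal.Quotient.mk _ r := by
  have hn : ∀ N j, IsNilpotent (Ideal.Quotient.mk (Ideal.span {ρ ^ N}) (U j)) := by
    intro N j
    obtain ⟨m, hm⟩ := hU j
    refine ⟨m * N, ?_⟩
    rw [← map_pow, Ideal.Quotient.eq_zero_iff_mem, Ideal.mem_span_singleton, pow_mul]
    exact pow_dvd_pow_of_dvd hm N
  refine ⟨fun N => evNil k (hn N), fun N j => evNil_X k _ j, fun M N h F r hF => ?_⟩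
  have hle : Ideal.span {ρ ^ N} ≤ Ideal.span {ρ ^ M} :=
    Ideal.span_singleton_le_span_singleton.2 (pow_dvd_pow ρ h)
  beta_reduce at hF ⊢
  rw [← comp_evNil k (hn N) (Ideal.Quotient.factorₐ k hle) (hn M) (fun j => rfl),
    AlgHom.comp_apply, hF]
  rfl

theorem subst_approx {σ k S : Type*} [CommRing k] [CommRing S] [Algebra k S]
    (φ : MvPowerSeries σ k →ₐ[k] S) (j : σ) (F : PowerSeries k) (M : ℕ) :
    φ (MvPowerSeries.X j) ^ M ∣
      φ (PowerSeries.substAlgHom (PowerSeries.HasSubst.X (S := k) j) F) -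
        Polynomial.aeval (φ (MvPowerSeries.X j)) (PowerSeries.trunc M F) := by
  have h : (PowerSeries.X : PowerSeries k) ^ M ∣ F - (PowerSeries.trunc M F : Polynomial k) := by
    rw [PowerSeries.X_pow_dvd_iff]
    intro m hm
    simp [PowerSeries.coeff_trunc, hm]
  have h2 := map_dvd (φ.comp (PowerSeries.substAlgHom (PowerSeries.HasSubst.X (S := k) j))) h
  simp only [map_pow, map_sub, AlgHom.comp_apply, PowerSeries.substAlgHom_X,
    PowerSeries.substAlgHom_coe] at h2
  rwa [← Polynomial.aeval_algHom_apply] at h2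

end CurveVal

open CurveVal in
theorem curve_of_valuation (H : CurveSel) {σ : Type} [Finite σ] (k : Subfield ℂ)
    (hk : (k : Set ℂ).Countable) {R : Type*} [CommRing R] [IsDomain R] [ValuationRing R]
    [Algebra k R] {ρ : R} (h0 : ρ ≠ 0) (h1 : ¬ IsUnit ρ) (U : σ → R) (hU : ∀ j, ∃ m, ρ ∣ U j ^ m) :
    ∃ u : σ → PowerSeries ℂ, (∀ j, PowerSeries.X ∣ u j) ∧
      ∀ (ι : Type) (j : ι → σ) (F : ι → PowerSeries k) (y : ι → R) (y' : ι → PowerSeries ℂ),
        (∀ i N, U (j i) ^ N ∣ y i - Polynomial.aeval (U (j i)) (PowerSeries.trunc N (F i))) →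
        (∀ i N, PowerSeries.X ^ N ∣
          y' i - Polynomial.aeval (u (j i)) (PowerSeries.trunc N (F i))) →
        ∀ P : MvPolynomial ι k,
          (∀ N, ρ ^ N ∣ MvPolynomial.aeval y P) ↔ MvPolynomial.aeval y' P = 0 := by
  obtain ⟨ev, hX, hc⟩ := exists_ev k ρ U hU
  have hz : ∀ N r, Ideal.Quotient.mk (Ideal.span {ρ ^ N}) r = 0 ↔ ρ ^ N ∣ r := fun N r => by
    rw [Ideal.Quotient.eq_zero_iff_mem, Ideal.mem_span_singleton]
  set 𝔭 : Ideal (MvPowerSeries σ k) := ⨅ N, RingHom.ker (ev N) with h𝔭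
  have hm : ∀ F, F ∈ 𝔭 ↔ ∀ N, ev N F = 0 := fun F => by
    simp only [h𝔭, Ideal.mem_iInf, RingHom.mem_ker]
  have hp : 𝔭.IsPrime := by
    constructor
    · rw [Ideal.ne_top_iff_one, hm]
      intro h
      have := h 1
      rw [map_one, ← map_one (Ideal.Quotient.mk _), hz, pow_one] at this
      exact h1 (isUnit_of_dvd_one this)
    · intro F G hFG
      by_contra hn
      rw [not_or, hm, hm, not_forall, not_forall] at hn
      obtain ⟨⟨a, ha⟩, b, hb⟩ := hn
      obtain ⟨r, hr⟩ := Ideal.Quotient.mk_surjective (ev (a + b + 1) F)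
      obtain ⟨s, hs⟩ := Ideal.Quotient.mk_surjective (ev (a + b + 1) G)
      rw [hc a _ (by omega) F r hr.symm, hz] at ha
      rw [hc b _ (by omega) G s hs.symm, hz] at hb
      have h2 := (hm _).1 hFG (a + b + 1)
      rw [map_mul, ← hr, ← hs, ← map_mul, hz] at h2
      have h3 := mul_dvd_mul ((ValuationRing.dvd_total r _).resolve_right ha)
        ((ValuationRing.dvd_total s _).resolve_right hb)
      have h4 := h2.trans h3
      rw [← pow_add, pow_succ] at h4
      nth_rewrite 2 [← mul_one (ρ ^ (a + b))] at h4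
      exact h1 (isUnit_of_dvd_one ((mul_dvd_mul_iff_left (pow_ne_zero _ h0)).1 h4))
  obtain ⟨Ψ, hΨ, hΨ0⟩ := H σ k hk 𝔭 hp
  have hu : ∀ j, PowerSeries.X ∣ Ψ (MvPowerSeries.X j) := fun j =>
    PowerSeries.X_dvd_iff.2 (hΨ0 _ (MvPowerSeries.constantCoeff_X j))
  refine ⟨fun j => Ψ (MvPowerSeries.X j), hu, fun ι j F y y' hy hy' P => ?_⟩
  set G : ι → MvPowerSeries σ k :=
    fun i => PowerSeries.substAlgHom (PowerSeries.HasSubst.X (S := k) (j i)) (F i) with hG
  have e1 : ∀ N i, ev N (G i) = Ideal.Quotient.mkₐ k _ (y i) := by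
    intro N i
    obtain ⟨m, hm⟩ := hU (j i)
    have a0 : ρ ^ N ∣ U (j i) ^ (m * N) := by rw [pow_mul]; exact pow_dvd_pow_of_dvd hm N
    have a1 := subst_approx (ev N) (j i) (F i) (m * N)
    rw [hX, ← map_pow, (hz N _).2 a0, zero_dvd_iff, sub_eq_zero] at a1
    have a2 := (hz N _).2 (a0.trans (hy i (m * N)))
    rw [map_sub, sub_eq_zero] at a2
    rw [Ideal.Quotient.mkₐ_eq_mk, a2]
    exact a1.trans (Polynomial.aeval_algHom_apply (Ideal.Quotient.mkₐ k _) _ _)
  have e2 : ∀ i, y' i = Ψ (G i) := by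
    intro i
    rw [← sub_eq_zero]
    ext n
    have a1 := (pow_dvd_pow_of_dvd (hu (j i)) (n + 1)).trans (subst_approx Ψ (j i) (F i) (n + 1))
    have a2 := dvd_sub (hy' i (n + 1)) a1
    rw [sub_sub_sub_cancel_right, PowerSeries.X_pow_dvd_iff] at a2
    simpa using a2 n (Nat.lt_succ_self n)
  obtain rfl : y' = fun i => Ψ (G i) := funext e2
  rw [← MvPolynomial.comp_aeval_apply, hΨ, hm]
  refine forall_congr' fun N => ?_
  rw [← hz, MvPolynomial.comp_aeval_apply]
  simp only [e1]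
  rw [← MvPolynomial.comp_aeval_apply, Ideal.Quotient.mkₐ_eq_mk]

end Pool.Agent.P.MP_26ad15_nt
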