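import Pool.Agent.P.MP_26ad15_nt.ASDefs
import Pool.Agent.P.MP_26ad15_nt.ASCurve
import Pool.Agent.P.MP_26ad15_nt.ASCurveVal

/-! Points all of whose coordinates degenerate give formal curves. -/

namespace Pool.Agent.P.MP_26ad15_nt

open Complex Set Filter Topology Asymptotics

variable {α ι : Type} {𝒰 : Ultrafilter α} {k : Subfield ℂ} {ρ : GF 𝒰} {z : ι → α → ℂ}

/-- The local parameter at infinity or at a point of `k`. -/
noncomputable def ca_tau (o : Option k) (w : ℂ) : ℂ := o.elim w⁻¹ fun c => w - c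

/-- The expansion of the shifted polygamma functions in the local parameter. -/
noncomputable def ca_ser (o : Option k) (β : BB) (l : ℕ) : PowerSeries ℂ :=
  o.elim (cP Polynomial.X (β : ℚ) l) fun c => tay (fun y => hh 0 ((c : ℂ) + (β : ℚ) + y)) l

lemma ca_coeff_some (c : k) (β : BB) (l m : ℕ) : PowerSeries.coeff m (ca_ser (some c) β l) =
    (m.factorial : ℂ)⁻¹ * hh (l + m) ((c : ℂ) + (β : ℚ)) := by
  simp only [ca_ser, Option.elim, tay, PowerSeries.coeff_mk, iteratedDeriv_comp_const_add, add_zero,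
    iteratedDeriv_hh]
  ring

lemma ca_coeff_mem (hk : Closed k) (o : Option k) (β : BB) (l m : ℕ) :
    PowerSeries.coeff m (ca_ser o β l) ∈ k := by
  cases o with
  | none => exact hk.coef β l m
  | some c =>
    rw [ca_coeff_some]
    exact mul_mem (inv_mem (natCast_mem k _)) (hk.val _ (add_mem c.2 (SubfieldClass.ratCast_mem k _)) _)

/-- The same expansion, with coefficients in `k`. -/
noncomputable def ca_serk (hk : Closed k) (o : Option k) (β : BB) (l : ℕ) : PowerSeries k :=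
  PowerSeries.mk fun m => ⟨_, ca_coeff_mem hk o β l m⟩

lemma ca_trunc_map (hk : Closed k) (o : Option k) (β : BB) (l N : ℕ) :
    (PowerSeries.trunc N (ca_serk hk o β l)).map (algebraMap k ℂ) =
      PowerSeries.trunc N (ca_ser o β l) := by
  rw [← PowerSeries.trunc_map]
  congr 1
  ext m
  simp only [ca_serk, PowerSeries.coeff_map, PowerSeries.coeff_mk]
  rfl

lemma ca_aeval_trunc (hk : Closed k) {A : Type*} [CommRing A] [Algebra ℂ A] [Algebra k A]
    (h : ∀ c : k, algebraMap k A c = algebraMap ℂ A c) (u : A) (o : Option k) (β : BB) (l N : ℕ) :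
    Polynomial.aeval u (PowerSeries.trunc N (ca_serk hk o β l)) =
      Polynomial.aeval u (PowerSeries.trunc N (ca_ser o β l)) := by
  rw [← ca_trunc_map hk, Polynomial.aeval_def, Polynomial.aeval_def, Polynomial.eval₂_map]
  congr 1
  exact RingHom.ext h

lemma ca_tendsto {w : α → ℂ} {c : k} (h : Tendsto (fun a => ca_tau (some c) (w a)) 𝒰 (𝓝 0)) :
    Tendsto w 𝒰 (𝓝 c) := tendsto_sub_nhds_zero_iff.1 h

lemma ca_re {w : α → ℂ} {c : ℂ} (hw : GOOD 𝒰 w) (h : Tendsto w 𝒰 (𝓝 c)) : 1 ≤ c.re :=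
  ge_of_tendsto ((continuous_re.tendsto c).comp h) (hw.mono fun _ h => h.1)

lemma ca_ne_zero {w : α → ℂ} (hw : GOOD 𝒰 w) : ∀ᶠ a in (𝒰 : Filter α), w a ≠ 0 :=
  hw.mono fun a h => by simpa using h.2 0

lemma ca_asy {w : α → ℂ} (hw : GOOD 𝒰 w) {o : Option k}
    (h : Tendsto (fun a => ca_tau o (w a)) 𝒰 (𝓝 0)) (β : BB) (l N : ℕ) :
    AsyN 𝒰 (fun a => ca_tau o (w a)) N (fun a => hh l (w a + (β : ℚ))) (ca_ser o β l) := by
  cases o with
  | none =>
    have h1 : Tendsto (fun a => (w a)⁻¹) 𝒰 (𝓝[≠] 0) :=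
      tendsto_nhdsWithin_iff.2 ⟨h, (ca_ne_zero hw).mono fun a ha => inv_ne_zero ha⟩
    have h2 : Tendsto (fun a => ‖w a‖) 𝒰 atTop := by
      simpa [Function.comp_def] using
        (poly_large (p := Polynomial.X) (by simp)).comp h1
    have := Ap.asyN (γ := 1 / 4) (N := N) (p := Polynomial.X) (by norm_num) (by norm_num) (by simp)
      β.norm_lt.le h1 (ϕ := fun _ => PS true 1) (by
        filter_upwards [hw, h2.eventually_ge_atTop 16, h2.eventually_ge_atTop (8 * N)] with a a1 a2 a3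
        simp only [Polynomial.eval_X, inv_inv]
        refine Ap_PS (by norm_num) (by norm_num) ?_ (by linarith) a3
        simp only [Ang, sg, if_true, one_mul]
        linarith [a1.1, norm_nonneg (w a)]) l
    simp only [Polynomial.eval_X, inv_inv, iteratedDeriv_PS] at this
    exact this
  | some c =>
    have hc := ca_re hw (ca_tendsto h)
    have hb : Bdd (1 / 8) 16 fun y => hh 0 ((c : ℂ) + (β : ℚ) + y) :=
      ⟨fun y hy => ((analyticAt_hh 0 (nonpole_of_re (by linarith [re_shift hc β hy]))).differentiableAt.comp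
        y (by fun_prop)).differentiableWithinAt, fun y hy =>
        (norm_hh_le 0 (re_shift hc β hy)).trans (by norm_num)⟩
    have := (hb.asyN (by norm_num) l N).comp h
    refine this.congr' (Eventually.of_forall fun a => ?_)
    simp only [iteratedDeriv_comp_const_add, iteratedDeriv_hh, ca_tau, Option.elim]
    congr 1
    ring

lemma ca_nonunit (h0 : ρ ≠ 0) (h1 : ρ ∈ (FinV 𝒰).nonunits) {x : GF 𝒰} {m : ℕ}
    (h : x ^ m / ρ ∈ FinV 𝒰) : x ∈ (FinV 𝒰).nonunits := by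
  rw [ValuationSubring.mem_nonunits_iff] at h1 ⊢
  rw [← ValuationSubring.valuation_le_one_iff, map_div₀, map_pow,
    div_le_one₀ (zero_lt_iff.2 ((map_ne_zero _).2 h0))] at h
  by_contra hc
  exact absurd ((one_le_pow₀ (not_lt.1 hc)).trans h) (not_le.2 h1)

lemma ca_gm_none (w : α → ℂ) : gm 𝒰 (fun a => ca_tau (none : Option k) (w a)) = (gm 𝒰 w)⁻¹ := rfl

lemma ca_gm_some (w : α → ℂ) (c : k) :
    gm 𝒰 (fun a => ca_tau (some c) (w a)) = gm 𝒰 w - algebraMap k (GF 𝒰) c :=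
  map_sub (gm 𝒰) w fun _ => (c : ℂ)

lemma ca_kind (h0 : ρ ≠ 0) (h1 : ρ ∈ (FinV 𝒰).nonunits) {w : α → ℂ} (hd : Deg 𝒰 k ρ w) :
    ∃ o : Option k, Tendsto (fun a => ca_tau o (w a)) 𝒰 (𝓝 0) ∧
      ∃ m : ℕ, gm 𝒰 (fun a => ca_tau o (w a)) ^ m / ρ ∈ FinV 𝒰 := by
  have : ∃ o : Option k, ∃ m : ℕ, gm 𝒰 (fun a => ca_tau o (w a)) ^ m / ρ ∈ FinV 𝒰 := by
    rcases hd with ⟨m, h⟩ | ⟨c, hc, m, h⟩
    · exact ⟨none, m, h⟩
    · exact ⟨some ⟨c, hc⟩, m, by rw [ca_gm_some]; exact h⟩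
  obtain ⟨o, m, h⟩ := this
  exact ⟨o, gm_mem_nonunits.1 (ca_nonunit h0 h1 h), m, h⟩

lemma ca_gm_aeval (f : α → ℂ) (P : Polynomial ℂ) :
    Polynomial.aeval (gm 𝒰 f) P = gm 𝒰 fun a => P.eval (f a) := by
  rw [Polynomial.aeval_algHom_apply]
  congr 1
  funext a
  simp

lemma ca_dvd_of_isBigO {f g : α → ℂ} (h : f =O[𝒰] g) : ∃ y ∈ FinV 𝒰, gm 𝒰 f = gm 𝒰 g * y := by
  refine ⟨_, gm_div_mem_FinV h, ?_⟩
  by_cases hg : gm 𝒰 g = 0
  · rw [hg, zero_mul, gm_eq_zero_iff]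
    filter_upwards [h.eq_zero_imp, gm_eq_zero_iff.1 hg] with a h1 h2 using h1 h2
  · field_simp

lemma ca_expand (hk : Closed k) (hz : ∀ j, GOOD 𝒰 (z j)) {o : ι → Option k}
    (h : ∀ j, Tendsto (fun a => ca_tau (o j) (z j a)) 𝒰 (𝓝 0)) (G : Gen ι BB) (N : ℕ) :
    ∃ y ∈ FinV 𝒰, gfam 𝒰 z G - Polynomial.aeval (gm 𝒰 fun a => ca_tau (o G.1) (z G.1 a))
      (PowerSeries.trunc N (ca_serk hk (o G.1) G.2.1 G.2.2)) =
        gm 𝒰 (fun a => ca_tau (o G.1) (z G.1 a)) ^ N * y := by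
  obtain ⟨y, hy, e⟩ := ca_dvd_of_isBigO ((ca_asy (hz G.1) (h G.1) G.2.1 G.2.2 N).any (h G.1)
    (dvd_sub_trunc N _))
  refine ⟨y, hy, ?_⟩
  rw [ca_aeval_trunc hk fun _ => rfl, ca_gm_aeval, ← map_pow, gfam, ← map_sub]
  exact e

theorem deg_expansion (hk : Closed k) (h0 : ρ ≠ 0) (h1 : ρ ∈ (FinV 𝒰).nonunits)
    (hz : ∀ j, GOOD 𝒰 (z j)) (hd : ∀ j, Deg 𝒰 k ρ (z j)) :
    ∃ U : ι → GF 𝒰, (∀ j, U j ∈ FinV 𝒰) ∧ ∀ G (N : ℕ), ∃ Q : MvPolynomial ι k,
      (gfam 𝒰 z G - MvPolynomial.aeval U Q) / ρ ^ N ∈ FinV 𝒰 := by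
  choose o ho m hm using fun j => ca_kind h0 h1 (hd j)
  refine ⟨fun j => gm 𝒰 fun a => ca_tau (o j) (z j a), fun j => gm_mem_FinV_iff.2 ⟨0, ho j⟩,
    fun G N => ?_⟩
  obtain ⟨y, hy, e⟩ := ca_expand hk hz ho G (m G.1 * N)
  refine ⟨Polynomial.aeval (MvPolynomial.X G.1)
    (PowerSeries.trunc (m G.1 * N) (ca_serk hk (o G.1) G.2.1 G.2.2)), ?_⟩
  rw [← Polynomial.aeval_algHom_apply, MvPolynomial.aeval_X, e, pow_mul, mul_div_right_comm, ← div_pow]
  exact mul_mem (pow_mem (hm G.1) N) hy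

lemma ca_asy_aeval {β : Type*} {l : Filter β} {σ τ : β → ℂ} {N : ℕ} {u : PowerSeries ℂ}
    (hσ : Tendsto σ l (𝓝 0)) (h : AsyN l σ N τ u) (Q : Polynomial ℂ) :
    AsyN l σ N (fun t => Q.eval (τ t)) (Polynomial.aeval u Q) := by
  induction Q using Polynomial.induction_on' with
  | add p q hp hq => simpa using hp.add hq
  | monomial n c =>
    simpa [Polynomial.aeval_monomial, PowerSeries.algebraMap_apply] using (h.pow hσ n).const_mul c

lemma ca_asy_comp {β : Type*} {l : Filter β} {σ τ f : β → ℂ} {N : ℕ} {u a : PowerSeries ℂ}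
    (hσ : Tendsto σ l (𝓝 0)) (hN : N ≠ 0) (hu : PowerSeries.X ∣ u) (h : AsyN l σ N τ u)
    (hf : AsyN l τ N f a) : AsyN l σ N f (Polynomial.aeval u (PowerSeries.trunc N a)) := by
  have h1 : Tendsto τ l (𝓝 0) := by simpa [PowerSeries.X_dvd_iff.1 hu] using h.tendsto hσ hN
  have h2 := ((h.mono hσ (Nat.one_le_iff_ne_zero.2 hN)).isBigO hσ (by simpa using hu)).pow N
  exact (ca_asy_aeval hσ h _).congr_left ((hf.any h1 (dvd_sub_trunc N a)).trans (by simpa using h2))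

/-- Polar part and regular part of the inverse of a power series. -/
structure ca_Pol (u : PowerSeries ℂ) (p : Polynomial ℂ) (x : PowerSeries ℂ) : Prop where
  deg : p.natDegree ≠ 0
  dvd : PowerSeries.X ∣ x
  inv : ∃ w, u = PowerSeries.X ^ p.natDegree * w ∧
    ((p.reflect p.natDegree : PowerSeries ℂ) + PowerSeries.X ^ p.natDegree * x) * w = 1

lemma ca_exists_pol {u : PowerSeries ℂ} (h0 : u ≠ 0) (h1 : PowerSeries.X ∣ u) :
    ∃ p x, ca_Pol u p x := by
  obtain ⟨d, w, hw, rfl⟩ := exists_X_pow_mul h0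
  obtain ⟨v, hv⟩ := hw.exists_left_inv
  have hv0 : PowerSeries.constantCoeff v ≠ 0 := left_ne_zero_of_mul_eq_one
    (by rw [← map_mul, hv, map_one])
  have hw0 : PowerSeries.constantCoeff w ≠ 0 := right_ne_zero_of_mul_eq_one
    (by rw [← map_mul, hv, map_one])
  have hd : d ≠ 0 := by
    rintro rfl
    exact hw0 (by simpa [PowerSeries.X_dvd_iff] using h1)
  obtain ⟨y, hy⟩ := dvd_sub_trunc (d + 1) v
  have h2 : ((PowerSeries.trunc (d + 1) v).reflect d).natDegree = d := by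
    refine Polynomial.natDegree_eq_of_le_of_coeff_ne_zero (Polynomial.natDegree_reflect_le.trans
      (max_le le_rfl (Nat.lt_succ_iff.1 (PowerSeries.natDegree_trunc_lt v d)))) ?_
    simpa [PowerSeries.coeff_trunc] using hv0
  refine ⟨(PowerSeries.trunc (d + 1) v).reflect d, PowerSeries.X * y, by rwa [h2], dvd_mul_right _ _,
    w, by rw [h2], ?_⟩
  rw [h2, Polynomial.reflect_reflect, ← hv]
  congr 1
  linear_combination -hy

lemma ca_aeval_inv {L : Type*} [Field L] [Algebra ℂ L] {s : L} (hs : s ≠ 0) (p : Polynomial ℂ) :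
    Polynomial.aeval s⁻¹ p * s ^ p.natDegree = Polynomial.aeval s (p.reflect p.natDegree) := by
  let _ := invertibleOfNonzero hs
  have := Polynomial.eval₂_reflect_mul_pow (algebraMap ℂ L) s p.natDegree (p.reflect p.natDegree)
    (Polynomial.natDegree_reflect_le.trans (by simp))
  rwa [Polynomial.reflect_reflect, invOf_eq_inv] at this

lemma ca_Pol.key {u x : PowerSeries ℂ} {p : Polynomial ℂ} (h : ca_Pol u p x) (β : BB) (l N : ℕ) :
    PowerSeries.X ^ N ∣ ffam (fun _ : Unit => p) (fun _ => x) ((), β, l) -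
      Polynomial.aeval u (PowerSeries.trunc N (cP Polynomial.X (β : ℚ) l)) := by
  rcases eq_or_ne N 0 with rfl | hN
  · simp
  obtain ⟨w, rfl, hw⟩ := h.inv
  have t0 : Tendsto id (𝓝[≠] (0 : ℂ)) (𝓝 0) := tendsto_id.mono_left nhdsWithin_le_nhds
  have hξ := AsyN.trunc (𝓝[≠] (0 : ℂ)) id N x
  set ξ : ℂ → ℂ := fun s => (PowerSeries.trunc N x).eval (id s) with hξ'
  have hX : AsyN (𝓝[≠] (0 : ℂ)) id N (fun s => s ^ p.natDegree) (PowerSeries.X ^ p.natDegree) := by
    simpa using AsyN.poly (𝓝[≠] (0 : ℂ)) id N (Polynomial.X ^ p.natDegree)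
  have h1 := ((AsyN.poly (𝓝[≠] (0 : ℂ)) id N (p.reflect p.natDegree)).add (hX.mul t0 hξ)).inv t0 hw hN
  have hw0 : PowerSeries.constantCoeff w ≠ 0 := right_ne_zero_of_mul_eq_one
    (by rw [← map_mul, hw, map_one])
  have e : ∀ᶠ s in 𝓝[≠] (0 : ℂ), s ^ p.natDegree * ((p.reflect p.natDegree).eval (id s) +
      s ^ p.natDegree * ξ s)⁻¹ = (p.eval s⁻¹ + ξ s)⁻¹ := by
    filter_upwards [self_mem_nhdsWithin] with s hs
    have := ca_aeval_inv (L := ℂ) hs p
    simp only [Polynomial.coe_aeval_eq_eval] at this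
    have h3 : s ^ p.natDegree ≠ 0 := pow_ne_zero _ hs
    rw [id, ← this, mul_comm (p.eval s⁻¹), ← mul_add, mul_inv, ← mul_assoc, mul_inv_cancel₀ h3, one_mul]
  have h2 := (hX.mul t0 h1).congr' e
  have hu : PowerSeries.X ∣ PowerSeries.X ^ p.natDegree * w := (dvd_pow_self _ h.deg).mul_right _
  have h3 : Tendsto (fun s => (p.eval s⁻¹ + ξ s)⁻¹) (𝓝[≠] 0) (𝓝[≠] 0) := by
    refine tendsto_nhdsWithin_iff.2 ⟨by simpa [PowerSeries.X_dvd_iff.1 hu] using h2.tendsto t0 hN, ?_⟩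
    filter_upwards [e, (h1.tendsto t0 hN).eventually_ne hw0, self_mem_nhdsWithin] with s a1 a2 a3
    rw [← a1]
    exact mul_ne_zero (pow_ne_zero _ a3) a2
  have h4 := ca_asy_comp t0 hN hu h2
    ((cP_spec (p := Polynomial.X) (by simp) β.norm_lt.le l N).comp h3)
  have hg : Good' (𝓝[≠] (0 : ℂ)) id (fun s (_ : Unit) (β : BB) y => HN N (p.eval s⁻¹ + (β : ℚ) + y))
      (cB fun _ => p) N := by
    refine ⟨⟨CA (1 / 2), (eventually_Ap_HN (by norm_num) le_rfl h.deg N).mono fun s hs _ β =>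
      hs.bdd β.norm_lt.le⟩, fun G => ?_⟩
    simp only [iteratedDeriv_comp_const_add, add_zero]
    exact cP_spec h.deg G.2.1.norm_lt.le G.2.2 N
  have h5 := hg.asyN t0 hN (x := fun _ => x) (ξ := fun s _ => ξ s) (fun _ => h.dvd) (fun _ => hξ)
    (MvPolynomial.X ((), β, l))
  refine AsyN.unique t0 self_mem_nhdsWithin h5 (h4.congr' (Eventually.of_forall fun s => ?_))
  simp only [EvF_apply, Ev_X, iteratedDeriv_comp_const_add, Polynomial.eval_X, inv_inv]
  congr 1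
  ring

lemma ca_key_fin (c : k) {u : PowerSeries ℂ} (hu : PowerSeries.X ∣ u) (β : BB) (l N : ℕ) :
    PowerSeries.X ^ N ∣ ffam (fun _ : Unit => Polynomial.C (c : ℂ)) (fun _ => u) ((), β, l) -
      Polynomial.aeval u (PowerSeries.trunc N (ca_ser (some c) β l)) := by
  have := FP_X_dvd (c := cB fun _ : Unit => Polynomial.C (c : ℂ)) (y := fun _ => u) (fun _ => hu)
    ((), β, l) N
  rw [Polynomial.aeval_def, PowerSeries.eval₂_trunc_eq_sum_range]
  convert! this using 4 with m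
  simp [ca_coeff_some, cf, cB, cP]

lemma ca_ffam (p : ι → Polynomial ℂ) (x : ι → PowerSeries ℂ) (G : Gen ι BB) :
    ffam p x G = ffam (fun _ : Unit => p G.1) (fun _ => x G.1) ((), G.2) := by
  simp only [ffam, FP, MvPolynomial.aeval_X]
  rfl

lemma ca_curve [Finite ι] (hk : Closed k) (h0 : ρ ≠ 0) (h1 : ρ ∈ (FinV 𝒰).nonunits) {U : ι → GF 𝒰}
    (hU : ∀ j, U j ∈ FinV 𝒰) (hm : ∀ j, ∃ m : ℕ, U j ^ m / ρ ∈ FinV 𝒰) :
    ∃ u : ι → PowerSeries ℂ, (∀ j, PowerSeries.X ∣ u j) ∧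
      ∀ (κ : Type) (j : κ → ι) (F : κ → PowerSeries k) (y : κ → GF 𝒰) (y' : κ → PowerSeries ℂ),
        (∀ i N, ∃ t ∈ FinV 𝒰,
          y i - Polynomial.aeval (U (j i)) (PowerSeries.trunc N (F i)) = U (j i) ^ N * t) →
        (∀ i N, PowerSeries.X ^ N ∣
          y' i - Polynomial.aeval (u (j i)) (PowerSeries.trunc N (F i))) →
        ∀ P : MvPolynomial κ k,
          (∀ N : ℕ, MvPolynomial.aeval y P / ρ ^ N ∈ FinV 𝒰) ↔ MvPolynomial.aeval y' P = 0 := by
  let _ : Algebra k (FinV 𝒰) := ((algebraMap k (GF 𝒰)).codRestrict (FinV 𝒰) fun c =>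
    const_mem_FinV (c : ℂ)).toAlgebra
  let val : FinV 𝒰 →ₐ[k] GF 𝒰 := { (FinV 𝒰).subtype with commutes' := fun _ => rfl }
  have hv : ∀ r, val r = r := fun _ => rfl
  let ρ' : FinV 𝒰 := ⟨ρ, ValuationSubring.nonunits_subset h1⟩
  have hd : ∀ (N : ℕ) (r : FinV 𝒰), ρ' ^ N ∣ r ↔ (r : GF 𝒰) / ρ ^ N ∈ FinV 𝒰 := fun N r => by
    have hN := pow_ne_zero N h0
    constructor
    · rintro ⟨t, rfl⟩
      have : ((ρ' ^ N * t : FinV 𝒰) : GF 𝒰) = ρ ^ N * t := rfl
      rw [this, mul_div_cancel_left₀ _ hN]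
      exact t.2
    · intro h
      refine ⟨⟨_, h⟩, Subtype.ext ?_⟩
      change (r : GF 𝒰) = ρ ^ N * (r / ρ ^ N)
      field_simp
  obtain ⟨u, hu, H⟩ := curve_of_valuation (fun σ _ k hk 𝔭 h => exists_formal_curve k hk 𝔭 h) k
    hk.count (ρ := ρ') (fun h => h0 (congrArg Subtype.val h))
    (ValuationSubring.coe_mem_nonunits_iff.1 h1) (fun j => (⟨U j, hU j⟩ : FinV 𝒰)) fun j => by
      obtain ⟨m, h⟩ := hm j
      exact ⟨m, by simpa using (hd 1 (⟨U j, hU j⟩ ^ m)).2 (by simpa using h)⟩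
  refine ⟨u, hu, fun κ j F y y' hy hy' P => ?_⟩
  have hy0 : ∀ i, y i ∈ FinV 𝒰 := fun i => by
    obtain ⟨t, ht, e⟩ := hy i 0
    simp only [PowerSeries.trunc_zero', map_zero, sub_zero, pow_zero, one_mul] at e
    rwa [e]
  rw [← H κ j F (fun i => ⟨y i, hy0 i⟩) y' (fun i N => ?_) hy' P]
  · refine forall_congr' fun N => ?_
    rw [hd, ← hv, ← AlgHom.comp_apply, MvPolynomial.comp_aeval]
    rfl
  · obtain ⟨t, ht, e⟩ := hy i N
    refine ⟨⟨t, ht⟩, Subtype.ext ?_⟩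
    rw [← hv, map_sub, ← Polynomial.aeval_algHom_apply]
    exact e

lemma ca_trunc_X {A : Type*} [CommRing A] [Algebra k A] (a : A) (N : ℕ) :
    ∃ n e : ℕ, a - Polynomial.aeval a (PowerSeries.trunc N (PowerSeries.X : PowerSeries k)) =
      a ^ N * (n * a ^ e) := by
  rcases N with - | - | N
  · exact ⟨1, 1, by simp⟩
  · exact ⟨1, 0, by simp [PowerSeries.trunc_succ]⟩
  · exact ⟨0, 0, by simp⟩

/-- Numerator of the coordinate as a function of the local parameter. -/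
noncomputable def ca_num (o : Option k) (j : ι) : MvPolynomial ι k :=
  o.elim 1 fun c => MvPolynomial.C c + MvPolynomial.X j

/-- Denominator of the coordinate as a function of the local parameter. -/
noncomputable def ca_den (o : Option k) (j : ι) : MvPolynomial ι k :=
  o.elim (MvPolynomial.X j) fun _ => 1

/-- The formal curve attached to a local parameter. -/
def ca_Crv (o : Option k) (u : PowerSeries ℂ) (p : Polynomial ℂ) (x : PowerSeries ℂ) : Prop :=
  o.elim (ca_Pol u p x) fun c => p = Polynomial.C (c : ℂ) ∧ x = u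

lemma ca_Crv.frac {o : Option k} {u : ι → PowerSeries ℂ} {j : ι} {p : Polynomial ℂ}
    {x : PowerSeries ℂ} (h : ca_Crv o (u j) p x) :
    (Polynomial.aeval (algebraMap (PowerSeries ℂ) LL PowerSeries.X)⁻¹ p + algebraMap _ LL x) *
      algebraMap _ LL (MvPolynomial.aeval u (ca_den o j)) =
      algebraMap _ LL (MvPolynomial.aeval u (ca_num o j)) := by
  cases o with
  | none =>
    obtain ⟨w, h1, h2⟩ := ca_Pol.inv h
    have hT : algebraMap (PowerSeries ℂ) LL PowerSeries.X ≠ 0 := by simp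
    have h3 := ca_aeval_inv hT p
    have h4 := congrArg (algebraMap (PowerSeries ℂ) LL) h2
    have h5 : ∀ q : Polynomial ℂ, Polynomial.aeval PowerSeries.X q = (q : PowerSeries ℂ) :=
      fun q => by
        induction q using Polynomial.induction_on' with
        | add p q hp hq => simp [hp, hq]
        | monomial n c =>
          rw [← Polynomial.C_mul_X_pow_eq_monomial]
          simp
    rw [Polynomial.aeval_algebraMap_apply, h5] at h3
    simp only [ca_den, ca_num, Option.elim, MvPolynomial.aeval_X, map_one, h1, map_mul, map_pow,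
      map_add] at h4 ⊢
    rw [← h4, ← h3]
    ring
  | some c =>
    obtain ⟨rfl, rfl⟩ := h
    simp only [ca_den, ca_num, Option.elim, map_one, mul_one, map_add, MvPolynomial.aeval_X,
      Polynomial.aeval_C, MvPolynomial.aeval_C]
    rw [IsScalarTower.algebraMap_apply k ℂ (PowerSeries ℂ), ← IsScalarTower.algebraMap_apply]
    rfl

lemma ca_ratLL (a : ℚ) : algebraMap (PowerSeries ℂ) LL (PowerSeries.C (a : ℂ)) = a :=
  map_ratCast ((algebraMap (PowerSeries ℂ) LL).comp PowerSeries.C) a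

lemma ca_ratLL' (a : ℚ) :
    algebraMap (PowerSeries ℂ) LL (algebraMap k (PowerSeries ℂ) (a : k)) = a :=
  map_ratCast ((algebraMap (PowerSeries ℂ) LL).comp (algebraMap k (PowerSeries ℂ))) a

lemma ca_frac_gm {o : ι → Option k} {j : ι} (hz : GOOD 𝒰 (z j)) {O : Plc 𝒰}
    (hm : gm 𝒰 (z j) ∈ O.1) : ∃ t ∈ O.1,
      MvPolynomial.aeval (fun j => gm 𝒰 fun a => ca_tau (o j) (z j a)) (ca_den (o j) j) * t = 1 ∧
      MvPolynomial.aeval (fun j => gm 𝒰 fun a => ca_tau (o j) (z j a)) (ca_num (o j) j) * t =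
        gm 𝒰 (z j) := by
  rcases h : o j with - | c
  · refine ⟨_, hm, ?_, by simp [ca_num]⟩
    simp only [ca_den, Option.elim, MvPolynomial.aeval_X, h, ca_gm_none]
    exact inv_mul_cancel₀ (gm_ne_zero_iff.2 (ca_ne_zero hz))
  · refine ⟨1, one_mem _, by simp [ca_den], ?_⟩
    simp [ca_num, h, ca_gm_some]

lemma ca_mul_mem {O : Plc 𝒰} {x y : GF 𝒰} (hx : x ∈ O.1.nonunits) (hy : y ∈ O.1) :
    x * y ∈ O.1.nonunits := by
  have hx' := ValuationSubring.nonunits_subset hx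
  rw [← pl_eq_zero_iff (mul_mem hx' hy), pl_mul hx' hy, (pl_eq_zero_iff hx').2 hx, zero_mul]

theorem caseA [Finite ι] (hk : Closed k) (h0 : ρ ≠ 0) (h1 : ρ ∈ (FinV 𝒰).nonunits) {O : Plc 𝒰}
    (hO : ∀ x, x ∈ O.1.nonunits ↔ ∀ N : ℕ, x / ρ ^ N ∈ FinV 𝒰) (hz : Gen' k O z)
    (hd : ∀ j, Deg 𝒰 k ρ (z j)) :
    ∃ (p : ι → Polynomial ℂ) (x : ι → PowerSeries ℂ), Curve p x ∧
      (∀ j, (∀ c ∈ k, ¬ Tendsto (z j) 𝒰 (𝓝 c)) → (p j).natDegree ≠ 0) ∧
      (FAI p x → AI k fun G => pl O (gfam 𝒰 z G)) := by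
  choose o ho hm using fun j => ca_kind h0 h1 (hd j)
  set U : ι → GF 𝒰 := fun j => gm 𝒰 fun a => ca_tau (o j) (z j a) with hU'
  have hU : ∀ j, U j ∈ FinV 𝒰 := fun j => gm_mem_FinV_iff.2 ⟨0, ho j⟩
  obtain ⟨u, hu, H⟩ := ca_curve hk h0 h1 hU hm
  have hrel : ∀ P : MvPolynomial ι k, MvPolynomial.aeval u P = 0 →
      MvPolynomial.aeval U P ∈ O.1.nonunits := fun P hP => by
    refine (hO _).2 ((H ι id (fun _ => PowerSeries.X) U u (fun i N => ?_) (fun i N => ?_) P).2 hP)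
    · obtain ⟨n, e, h⟩ := ca_trunc_X (k := k) (U i) N
      exact ⟨_, mul_mem (natCast_mem _ n) (pow_mem (hU i) e), h⟩
    · obtain ⟨n, e, h⟩ := ca_trunc_X (k := k) (u i) N
      rw [id, h]
      exact (pow_dvd_pow_of_dvd (hu i) N).mul_right _
  have hu0 : ∀ j, u j ≠ 0 := fun j hj => by
    have h2 := hrel (MvPolynomial.X j) (by simpa using hj)
    rw [MvPolynomial.aeval_X] at h2
    rcases h : o j with - | c
    · simp only [hU', h, ca_gm_none] at h2
      exact (O.1.inv_mem_nonunits_iff.1 h2).elim (gm_ne_zero_iff.2 (ca_ne_zero (hz.good j)))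
        fun h => h (hz.mem j)
    · simp only [hU', h, ca_gm_some] at h2
      exact hz.nc j c c.2 (((pl_eq_iff (hz.mem j) (O.const_mem c)).2 h2).trans (pl_const _))
  have hex : ∀ j, ∃ p x, ca_Crv (o j) (u j) p x := fun j => by
    rcases o j with - | c
    · exact ca_exists_pol (hu0 j) (hu j)
    · exact ⟨_, _, rfl, rfl⟩
  choose p x hpx using hex
  refine ⟨p, x, ⟨fun j hj => ?_, fun j => ?_, fun j => ?_, fun i j hij a b hab => ?_⟩,
    fun j hj => ?_, fun hF => ?_⟩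
  · have h2 := hpx j
    have h3 := ho j
    rcases h : o j with - | c <;> rw [h] at h2 h3
    · exact absurd hj (ca_Pol.deg h2)
    · rw [h2.1, Polynomial.coeff_C_zero]
      exact ca_re (hz.good j) (ca_tendsto h3)
  · have h2 := hpx j
    rcases h : o j with - | c <;> rw [h] at h2
    · exact ca_Pol.dvd h2
    · exact h2.2 ▸ hu j
  · have h2 := hpx j
    rcases h : o j with - | c <;> rw [h] at h2
    · exact Or.inl (ca_Pol.deg h2)
    · exact Or.inr (h2.2 ▸ hu0 j)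
  · have e1 := (hpx i).frac
    have e2 := (hpx j).frac
    rw [hab.1, hab.2] at e1
    have h2 := hrel (ca_num (o i) i * ca_den (o j) j - (MvPolynomial.C (a : k) * ca_num (o j) j +
      MvPolynomial.C (b : k) * ca_den (o j) j) * ca_den (o i) i) (by
        refine (map_eq_zero_iff _ (IsFractionRing.injective (PowerSeries ℂ) LL)).1 ?_
        simp only [map_sub, map_mul, map_add, map_ratCast, Polynomial.aeval_C, MvPolynomial.aeval_C,
          ca_ratLL, ca_ratLL'] at e1 ⊢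
        rw [← e1, ← e2]
        ring)
    obtain ⟨s, hs, s1, s2⟩ := ca_frac_gm (o := o) (hz.good i) (hz.mem i)
    obtain ⟨t, ht, t1, t2⟩ := ca_frac_gm (o := o) (hz.good j) (hz.mem j)
    have h3 := ca_mul_mem h2 (mul_mem hs ht)
    have ha : (a : GF 𝒰) ∈ O.1 := by simpa using O.const_mem a
    have hb : (b : GF 𝒰) ∈ O.1 := by simpa using O.const_mem b
    refine hz.hq i j hij a b ?_
    rw [← pl_ratCast, ← pl_ratCast, ← pl_mul ha (hz.mem j), ← pl_add (mul_mem ha (hz.mem j)) hb,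
      pl_eq_iff (hz.mem i) (add_mem (mul_mem ha (hz.mem j)) hb)]
    convert! h3 using 1
    simp only [map_sub, map_mul, map_add, MvPolynomial.aeval_C, map_ratCast]
    rw [← hU'] at s1 s2 t1 t2
    linear_combination (-(MvPolynomial.aeval U (ca_den (o j) j) * t)) * s2 - gm 𝒰 (z i) * t1 +
      (a * gm 𝒰 (z j) + b) * s1 + (MvPolynomial.aeval U (ca_den (o i) i) * s) * (a * t2 + b * t1)
  · have h2 := hpx j
    have h3 := ho j
    rcases h : o j with - | c <;> rw [h] at h2 h3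
    · exact ca_Pol.deg h2
    · exact absurd (ca_tendsto h3) (hj c c.2)
  · refine (AI.restrict (k := k) hF).of_rel fun P hP => ?_
    have hg : ∀ G, gfam 𝒰 z G ∈ O.1 := fun G => O.2 (hz.good G.1).gfam_mem
    rw [← (pl_aeval hg P).2, pl_eq_zero_iff (pl_aeval hg P).1, hO] at hP
    have := (H (Gen ι BB) Prod.fst (fun G => ca_serk hk (o G.1) G.2.1 G.2.2) (gfam 𝒰 z) (ffam p x)
      (ca_expand hk hz.good ho) (fun G N => ?_) P).1 hP
    · exact (MvPolynomial.aeval_algebraMap_apply LL (ffam p x) P).trans (by rw [this, map_zero])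
    · have h2 := hpx G.1
      rw [ca_aeval_trunc hk (IsScalarTower.algebraMap_apply k ℂ _), ca_ffam]
      rcases h : o G.1 with - | c <;> rw [h] at h2
      · exact ca_Pol.key h2 _ _ _
      · rw [h2.1, h2.2]
        exact ca_key_fin c (hu _) _ _ _

end Pool.Agent.P.MP_26ad15_nt
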