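import Pool.Agent.P.MP_26ad15_nt.ASDefs

/-! Clusters of coordinates. -/

namespace Pool.Agent.P.MP_26ad15_nt

open Complex Set Filter Topology Asymptotics

variable {α : Type} {𝒰 : Ultrafilter α} {k : Subfield ℂ}

lemma cl_mul_nonunits {O : Plc 𝒰} {x y : GF 𝒰} (hx : x ∈ O.1) (hy : y ∈ O.1.nonunits) :
    x * y ∈ O.1.nonunits := by
  have hy' : y ∈ O.1 := O.1.nonunits_subset hy
  rw [← pl_eq_zero_iff (mul_mem hx hy'), pl_mul hx hy', (pl_eq_zero_iff hy').2 hy, mul_zero]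

lemma cl_nonunits_of_le {ι : Type} {O : Plc 𝒰} (S : Finset ι) (hS : S.Nonempty) {g : ι → α → ℂ}
    (hg : ∀ i ∈ S, gm 𝒰 (g i) ∈ O.1.nonunits) {f : α → ℂ} {C : ℝ}
    (hf : ∀ᶠ a in (𝒰 : Filter α), ‖f a‖ ≤ C * ∑ i ∈ S, ‖g i a‖) : gm 𝒰 f ∈ O.1.nonunits := by
  have h1 : ∀ᶠ a in (𝒰 : Filter α), ∃ i ∈ (S : Set ι), ∀ j ∈ S, ‖g j a‖ ≤ ‖g i a‖ :=
    Eventually.of_forall fun a => S.exists_max_image (fun i => ‖g i a‖) hS
  obtain ⟨i, hi, h2⟩ := (Ultrafilter.eventually_exists_mem_iff S.finite_toSet).1 h1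
  have h3 : f =O[𝒰] g i := by
    refine IsBigO.of_bound (|C| * S.card) ((hf.and h2).mono fun a ha => ha.1.trans ?_)
    have := Finset.sum_le_card_nsmul S (fun j => ‖g j a‖) _ ha.2
    rw [nsmul_eq_mul] at this
    rw [mul_assoc]
    exact mul_le_mul (le_abs_self C) this (Finset.sum_nonneg fun _ _ => norm_nonneg _) (abs_nonneg C)
  by_cases h0 : gm 𝒰 (g i) = 0
  · have : gm 𝒰 f = 0 := by
      obtain ⟨c, hc⟩ := h3.bound
      exact gm_eq_zero_iff.2 ((hc.and (gm_eq_zero_iff.1 h0)).mono fun a ha => by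
        simpa [ha.2] using ha.1)
    rw [this, ← h0]
    exact hg i hi
  · rw [← div_mul_cancel₀ (gm 𝒰 f) h0]
    exact cl_mul_nonunits (O.2 (gm_div_mem_FinV h3)) (hg i hi)

/-- The normalising constant. -/
def clQ (n : ℕ) : ℚ := (-1) ^ n * n.factorial

lemma clQ_ne (n : ℕ) : clQ n ≠ 0 :=
  mul_ne_zero (by simp) (by exact_mod_cast n.factorial_ne_zero)

lemma cl_gm_Q (n : ℕ) (f : α → ℂ) :
    gm 𝒰 (fun a => (-1) ^ n * n.factorial * f a) = (clQ n : GF 𝒰) * gm 𝒰 f := by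
  rw [← map_ratCast (algebraMap ℂ (GF 𝒰)), ← gm_const, ← map_mul]
  congr 1
  funext a
  simp [clQ]

lemma cl_rat_mem (q : ℚ) : (q : GF 𝒰) ∈ FinV 𝒰 := by
  simpa using const_mem_FinV (𝒰 := 𝒰) (q : ℂ)

variable {ι ι' : Type} [Fintype ι]

variable (𝒰) in
/-- Germs of divided differences. -/
noncomputable def clW (y : ι → α → ℂ) (β : BB) (μ : ι → ℕ) : GF 𝒰 :=
  gm 𝒰 fun a => DD μ fun i => y i a + (β : ℚ)

lemma cl_re {c : ℂ} (hc : 1 ≤ c.re) (β : BB) : 1 / 2 < (c + (β : ℚ)).re := by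
  have : (0 : ℝ) ≤ (β : ℚ) := by exact_mod_cast β.2.1
  simp only [add_re, ratCast_re]
  linarith

lemma cl_re_all {y : ι → α → ℂ} (hy : ∀ i, GOOD 𝒰 (y i)) (β : BB) :
    ∀ᶠ a in (𝒰 : Filter α), ∀ i, 1 / 2 < (y i a + (β : ℚ)).re :=
  eventually_all.2 fun i => (hy i).mono fun _ ha => cl_re ha.1 β

variable {O₁ O₂ : Plc 𝒰} {y : ι → α → ℂ} {y₀ : ι' → α → ℂ} {r : ι → ι'}

lemma cl_close (hy : ∀ i, GOOD 𝒰 (y i)) (hy₀ : ∀ j, GOOD 𝒰 (y₀ j))
    (h1 : ∀ i, gm 𝒰 (y i) - gm 𝒰 (y₀ (r i)) ∈ O₁.1.nonunits) (β : BB) {μ : ι → ℕ} {n : ℕ}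
    (hn : ∑ i, μ i = n + 1) {j : ι'} (hj : ∀ i, μ i ≠ 0 → r i = j) :
    (clQ n : GF 𝒰) * clW 𝒰 y β μ - gfam 𝒰 y₀ (j, β, n) ∈ O₁.1.nonunits := by
  obtain ⟨C, hC⟩ := norm_DD_sub (μ := μ) (by omega)
  rw [clW, ← cl_gm_Q, gfam, ← map_sub]
  refine cl_nonunits_of_le (Finset.univ.filter fun i => μ i ≠ 0) ?_ (g := fun i => y i - y₀ (r i))
    (fun i _ => by rw [map_sub]; exact h1 i) (C := n.factorial * C) ?_
  · by_contra hc
    rw [Finset.not_nonempty_iff_eq_empty, Finset.filter_eq_empty_iff] at hc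
    rw [Finset.sum_eq_zero fun i hi => not_not.1 (hc hi)] at hn
    omega
  · filter_upwards [cl_re_all hy β, hy₀ j] with a ha hb
    have hz := cl_re hb.1 β
    have := hC _ (fun _ => y₀ j a + (β : ℚ)) ha fun _ => hz
    simp only [Pi.sub_apply, fam]
    rw [DD_const hn hz, ← mul_sub, norm_mul, norm_mul, norm_pow, norm_neg, norm_one, one_pow, one_mul,
      Complex.norm_natCast, mul_assoc]
    refine mul_le_mul_of_nonneg_left (this.trans_eq ?_) (Nat.cast_nonneg _)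
    congr 1
    refine Finset.sum_congr rfl fun i hi => ?_
    rw [hj i (Finset.mem_filter.1 hi).2, add_sub_add_right_eq_sub]

lemma cl_mem (hy : ∀ i, GOOD 𝒰 (y i)) (hy₀ : ∀ j, GOOD 𝒰 (y₀ j))
    (h1 : ∀ i, gm 𝒰 (y i) - gm 𝒰 (y₀ (r i)) ∈ O₁.1.nonunits) (β : BB) {μ : ι → ℕ} {n : ℕ}
    (hn : ∑ i, μ i = n + 1) {j : ι'} (hj : ∀ i, μ i ≠ 0 → r i = j) : clW 𝒰 y β μ ∈ FinV 𝒰 := by
  have h2 := (FinV 𝒰).nonunits_subset
    (ValuationSubring.nonunits_le_nonunits.2 O₁.2 (cl_close hy hy₀ h1 β hn hj))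
  have h3 := mul_mem (cl_rat_mem (clQ n)⁻¹)
    (add_mem h2 (GOOD.gfam_mem (z := y₀) (G := (j, β, n)) (hy₀ j)))
  rwa [sub_add_cancel, ← mul_assoc, ← Rat.cast_mul, inv_mul_cancel₀ (clQ_ne n), Rat.cast_one,
    one_mul] at h3

lemma cl_in_field [DecidableEq ι] (hy : ∀ i, GOOD 𝒰 (y i)) (hy₀ : ∀ j, GOOD 𝒰 (y₀ j))
    (hm : ∀ i, gm 𝒰 (y i) ∈ O₂.1) (h1 : ∀ i, gm 𝒰 (y i) - gm 𝒰 (y₀ (r i)) ∈ O₁.1.nonunits)
    (h2 : ∀ i i', i ≠ i' → r i = r i' → pl O₂ (gm 𝒰 (y i)) ≠ pl O₂ (gm 𝒰 (y i'))) (β : BB) (M : ℕ)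
    (K : IntermediateField k (RF O₂)) (hK1 : ∀ i, pl O₂ (gm 𝒰 (y i)) ∈ K)
    (hK2 : ∀ i, ∀ l ≤ M, pl O₂ (gfam 𝒰 y (i, β, l)) ∈ K) (j : ι') (n : ℕ) :
    ∀ μ : ι → ℕ, ∑ i, μ i = n + 1 → (∀ i, μ i ≠ 0 → r i = j) → (∀ i, μ i ≤ M + 1) →
      pl O₂ (clW 𝒰 y β μ) ∈ K := by
  have single : ∀ (i : ι) (l : ℕ), l ≤ M → pl O₂ (clW 𝒰 y β (Pi.single i (l + 1))) ∈ K := by
    intro i l hl
    have e : gfam 𝒰 y (i, β, l) = (clQ l : GF 𝒰) * clW 𝒰 y β (Pi.single i (l + 1)) := by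
      rw [clW, ← cl_gm_Q, gfam]
      exact gm_eq_iff.2 ((cl_re_all hy β).mono fun a ha => DD_single i l ha)
    have hW : clW 𝒰 y β (Pi.single i (l + 1)) ∈ FinV 𝒰 :=
      cl_mem hy hy₀ h1 β (n := l) (by simp) (j := r i) fun i' hi' => by
        by_contra hc
        exact hi' (Pi.single_eq_of_ne (fun e => hc (by rw [e])) _)
    have h3 := mul_mem (SubfieldClass.ratCast_mem K (clQ l)⁻¹) (hK2 i l hl)
    rwa [e, pl_mul (O₂.2 (cl_rat_mem _)) (O₂.2 hW), pl_ratCast, ← mul_assoc, ← Rat.cast_mul,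
      inv_mul_cancel₀ (clQ_ne l), Rat.cast_one, one_mul] at h3
  induction n using Nat.strong_induction_on with
  | _ n ih =>
  intro μ hn hj hM
  obtain ⟨i, hi⟩ : ∃ i, μ i ≠ 0 := by
    by_contra hc
    push Not at hc
    simp [hc] at hn
  by_cases hs : ∀ i', i' ≠ i → μ i' = 0
  · have e1 : μ i = n + 1 := by
      rw [← hn, Finset.sum_eq_single i (fun b _ hb => hs b hb) (by simp)]
    have e2 : μ = Pi.single i (n + 1) := by
      funext b
      by_cases hb : b = i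
      · rw [hb, e1, Pi.single_eq_same]
      · rw [hs b hb, Pi.single_eq_of_ne hb]
    rw [e2]
    exact single i n (by have := hM i; omega)
  · push Not at hs
    obtain ⟨i', hne, hi'⟩ := hs
    obtain ⟨ν, rfl⟩ : ∃ ν : ι → ℕ, μ = ν + Pi.single i 1 + Pi.single i' 1 := by
      refine ⟨fun b => μ b - (Pi.single i 1 : ι → ℕ) b - (Pi.single i' 1 : ι → ℕ) b, ?_⟩
      funext b
      simp only [Pi.add_apply, Pi.single_apply]
      by_cases h : b = i
      · subst h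
        simp only [if_true, if_neg hne.symm]
        omega
      · by_cases h' : b = i'
        · subst h'
          simp only [if_true, if_neg h]
          omega
        · simp [h, h']
    have hν : ∑ b, ν b + 1 = n := by
      simp only [Pi.add_apply, Finset.sum_add_distrib, Finset.sum_pi_single', Finset.mem_univ,
        if_true] at hn
      omega
    have s1 : ∀ c : ι, ∑ b, (ν + Pi.single c 1 : ι → ℕ) b = ∑ b, ν b + 1 := fun c => by
      simp [Finset.sum_add_distrib]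
    have j1 : ∀ b, (ν + Pi.single i 1 : ι → ℕ) b ≠ 0 → r b = j := fun b hb =>
      hj b (by simp only [Pi.add_apply] at hb ⊢; omega)
    have j2 : ∀ b, (ν + Pi.single i' 1 : ι → ℕ) b ≠ 0 → r b = j := fun b hb =>
      hj b (by simp only [Pi.add_apply] at hb ⊢; omega)
    have k1 := ih _ (by omega) _ (s1 i) j1 fun b => by
      have := hM b
      simp only [Pi.add_apply] at this ⊢
      omega
    have k2 := ih _ (by omega) _ (s1 i') j2 fun b => by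
      have := hM b
      simp only [Pi.add_apply] at this ⊢
      omega
    have e : (gm 𝒰 (y i') - gm 𝒰 (y i)) * clW 𝒰 y β (ν + Pi.single i 1 + Pi.single i' 1) =
        clW 𝒰 y β (ν + Pi.single i 1) - clW 𝒰 y β (ν + Pi.single i' 1) := by
      rw [clW, clW, clW, ← map_sub, ← map_sub, ← map_mul]
      refine gm_eq_iff.2 ((cl_re_all hy β).mono fun a ha => ?_)
      have := DD_rec ν i i' ha
      rw [add_sub_add_right_eq_sub] at this
      exact this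
    have e' := congrArg (pl O₂) e
    rw [pl_mul (sub_mem (hm i') (hm i)) (O₂.2 (cl_mem hy hy₀ h1 β hn hj)), pl_sub (hm i') (hm i),
      pl_sub (O₂.2 (cl_mem hy hy₀ h1 β (s1 i) j1)) (O₂.2 (cl_mem hy hy₀ h1 β (s1 i') j2))] at e'
    have h0 := sub_ne_zero.2 (h2 i' i hne ((hj i' hi').trans (hj i hi).symm))
    rw [← (eq_div_iff h0).2 ((mul_comm _ _).trans e') |>.symm]
    exact div_mem (sub_mem k1 k2) (sub_mem (hK1 i') (hK1 i))

open Classical in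
/-- The multiplicities of the nodes. -/
noncomputable def clMu (r : ι → ι') (o : ι → ℕ) (i : ι) (l : ℕ) (b : ι) : ℕ :=
  if r b = r i then l + (if o b ≤ o i then 1 else 0) else 0

lemma clMu_lt {o : ι → ℕ} {i i' : ι} {l l' : ℕ} (h : r i = r i')
    (hl : l < l' ∨ (l = l' ∧ o i < o i')) : ∑ b, clMu r o i l b < ∑ b, clMu r o i' l' b := by
  refine Finset.sum_lt_sum (fun b _ => ?_) ⟨i', Finset.mem_univ _, ?_⟩
  · by_cases hb : r b = r i
    · rw [clMu, clMu, if_pos hb, if_pos (hb.trans h)]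
      split_ifs <;> omega
    · rw [clMu, if_neg hb]
      exact Nat.zero_le _
  · rw [clMu, clMu, if_pos h.symm, if_pos rfl, if_pos le_rfl]
    split_ifs <;> omega

lemma clMu_pos (o : ι → ℕ) (i : ι) (l : ℕ) : ∑ b, clMu r o i l b = ∑ b, clMu r o i l b - 1 + 1 := by
  have := Finset.single_le_sum (f := clMu r o i l) (fun _ _ => Nat.zero_le _) (Finset.mem_univ i)
  have e : clMu r o i l i = l + 1 := by simp [clMu]
  omega

omit [Fintype ι] in
theorem cluster {ι ι' : Type} [Finite ι] {O₁ O₂ : Plc 𝒰} {y : ι → α → ℂ} {y₀ : ι' → α → ℂ}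
    (r : ι → ι') (hy : ∀ i, GOOD 𝒰 (y i)) (hy₀ : ∀ j, GOOD 𝒰 (y₀ j))
    (hm : ∀ i, gm 𝒰 (y i) ∈ O₂.1) (h1 : ∀ i, gm 𝒰 (y i) - gm 𝒰 (y₀ (r i)) ∈ O₁.1.nonunits)
    (h2 : ∀ i i', i ≠ i' → r i = r i' → pl O₂ (gm 𝒰 (y i)) ≠ pl O₂ (gm 𝒰 (y i'))) :
    ∃ (D : Gen ι BB → GF 𝒰) (e : Gen ι BB → Gen ι' BB), (∀ G, D G ∈ FinV 𝒰) ∧
      Function.Injective e ∧ (∀ G, pl O₁ (D G) = pl O₁ (gfam 𝒰 y₀ (e G))) ∧
      Dom k (fun G => pl O₂ (gfam 𝒰 y G)) fun G => pl O₂ (D G) := by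
  classical
  have := Fintype.ofFinite ι
  obtain ⟨o, ho⟩ := Countable.exists_injective_nat ι
  have hs : ∀ i l b, clMu r o i l b ≠ 0 → r b = r i := fun i l b hb => by
    by_contra hc
    exact hb (if_neg hc)
  have hW : ∀ G : Gen ι BB, clW 𝒰 y G.2.1 (clMu r o G.1 G.2.2) ∈ FinV 𝒰 := fun G =>
    cl_mem hy hy₀ h1 _ (clMu_pos o _ _) (hs _ _)
  have hD : ∀ G : Gen ι BB, (clQ (∑ b, clMu r o G.1 G.2.2 b - 1) : GF 𝒰) *
      clW 𝒰 y G.2.1 (clMu r o G.1 G.2.2) ∈ FinV 𝒰 := fun G => mul_mem (cl_rat_mem _) (hW G)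
  refine ⟨_, fun G => (r G.1, G.2.1, ∑ b, clMu r o G.1 G.2.2 b - 1), hD, ?_, fun G => ?_, ?_⟩
  · rintro ⟨i, β, l⟩ ⟨i', β', l'⟩ h
    simp only [Prod.mk.injEq] at h
    obtain ⟨e1, rfl, e3⟩ := h
    have e4 : ∑ b, clMu r o i l b = ∑ b, clMu r o i' l' b := by
      rw [clMu_pos o i l, clMu_pos o i' l', e3]
    have a1 := fun h => (clMu_lt (o := o) (l := l) (l' := l') e1 h).ne e4
    have a2 := fun h => (clMu_lt (o := o) (l := l') (l' := l) e1.symm h).ne e4.symm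
    have e5 : l = l' := le_antisymm (not_lt.1 fun h => a2 (.inl h)) (not_lt.1 fun h => a1 (.inl h))
    have e6 : o i = o i' := le_antisymm (not_lt.1 fun h => a2 (.inr ⟨e5.symm, h⟩))
      (not_lt.1 fun h => a1 (.inr ⟨e5, h⟩))
    rw [e5, ho e6]
  · exact (pl_eq_iff (O₁.2 (hD G)) (O₁.2 (GOOD.gfam_mem (hy₀ _)))).2
      (cl_close hy hy₀ h1 _ (clMu_pos o _ _) (hs _ _))
  · refine ⟨Fintype.card ι, fun s => ?_⟩
    set M := s.sup fun G => G.2.2 with hM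
    set t : Finset (Gen ι BB) := Finset.univ ×ˢ (s.image fun G => G.2.1) ×ˢ Finset.range (M + 1)
      with ht
    have hst : s ⊆ t := fun G hG => by
      simp only [ht, Finset.mem_product, Finset.mem_univ, true_and, Finset.mem_range]
      exact ⟨Finset.mem_image_of_mem _ hG, Nat.lt_succ_of_le (Finset.le_sup (f := fun G => G.2.2) hG)⟩
    refine ⟨t, ((t \ s).image fun G => pl O₂ (gfam 𝒰 y G)) ∪
      Finset.univ.image fun i => pl O₂ (gm 𝒰 (y i)), ?_, fun G hG => ?_⟩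
    · have a1 := Finset.card_union_le ((t \ s).image fun G => pl O₂ (gfam 𝒰 y G))
        (Finset.univ.image fun i => pl O₂ (gm 𝒰 (y i)))
      have a2 := Finset.card_image_le (s := t \ s) (f := fun G => pl O₂ (gfam 𝒰 y G))
      have a3 := Finset.card_image_le (s := Finset.univ) (f := fun i => pl O₂ (gm 𝒰 (y i)))
      have a4 := Finset.card_sdiff_add_card_eq_card hst
      rw [Finset.card_univ] at a3
      omega
    · simp only [ht, Finset.mem_product, Finset.mem_univ, true_and, Finset.mem_range] at hG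
      beta_reduce
      rw [pl_mul (O₂.2 (cl_rat_mem _)) (O₂.2 (hW G)), pl_ratCast]
      refine mul_mem (SubfieldClass.ratCast_mem _ _) (cl_in_field hy hy₀ hm h1 h2 G.2.1 M _
        (fun i => mem_cl_of_mem (Or.inr (by simp))) (fun i l hl => mem_cl_of_mem ?_) (r G.1) _ _
        (clMu_pos o _ _) (hs _ _) fun b => ?_)
      · by_cases h : (i, G.2.1, l) ∈ s
        · exact Or.inl ⟨_, h, rfl⟩
        · refine Or.inr (Finset.mem_coe.2 (Finset.mem_union_left _ (Finset.mem_image_of_mem _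
            (Finset.mem_sdiff.2 ⟨?_, h⟩))))
          simp only [ht, Finset.mem_product, Finset.mem_univ, true_and, Finset.mem_range]
          exact ⟨hG.1, by omega⟩
      · have := hG.2
        simp only [clMu]
        split_ifs <;> omega

end Pool.Agent.P.MP_26ad15_nt
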