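import Pool.Agent.P.MP_26ad15_nt.ASRank

/-! From almost independence to the exact rank inequality. -/

namespace Pool.Agent.P.MP_26ad15_nt

open MvPolynomial

variable {k L ι : Type*} [Field k] [Field L] [Algebra k L] [DecidableEq ι]

/-- Formal derivative with respect to a coordinate. -/
noncomputable def dG (j : ι) :
    Derivation k (MvPolynomial (ι ⊕ ι × ℕ) k) (MvPolynomial (ι ⊕ ι × ℕ) k) :=
  mkDerivation k (Sum.elim (fun i => if i = j then 1 else 0)
    fun G => if G.1 = j then X (Sum.inr (G.1, G.2 + 1)) else 0)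

omit [DecidableEq ι] in
lemma core_mem_cl {σ : Type*} {x : σ → L} {g : MvPolynomial σ k} {G : σ} (h0 : aeval x g = 0)
    (h1 : aeval x (pderiv G g) ≠ 0) : x G ∈ cl k (x '' {G}ᶜ) := by
  classical
  have key : ∀ g : MvPolynomial σ k, ∃ Q : Polynomial (Algebra.adjoin k (x '' {G}ᶜ)),
      Polynomial.aeval (x G) Q = aeval x g ∧
        Polynomial.aeval (x G) Q.derivative = aeval x (pderiv G g) := by
    intro g
    induction g using MvPolynomial.induction_on with
    | C a =>
      refine ⟨Polynomial.C (algebraMap k _ a), ?_, by simp⟩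
      rw [Polynomial.aeval_C, aeval_C, ← IsScalarTower.algebraMap_apply]
    | add p q hp hq =>
      obtain ⟨P, a1, a2⟩ := hp
      obtain ⟨Q, b1, b2⟩ := hq
      exact ⟨P + Q, by simp [a1, b1], by simp [a2, b2]⟩
    | mul_X p i hp =>
      obtain ⟨P, a1, a2⟩ := hp
      by_cases hi : i = G
      · subst hi
        refine ⟨P * Polynomial.X, by simp [a1], ?_⟩
        simp [a1, a2]
        ring
      · refine ⟨P * Polynomial.C ⟨x i, Algebra.subset_adjoin ⟨i, hi, rfl⟩⟩, by simp [a1], ?_⟩
        simp [a2, pderiv_X_of_ne hi]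
        ring
  obtain ⟨Q, a1, a2⟩ := key g
  rw [mem_cl_iff]
  refine ⟨Q, fun h => h1 ?_, a1.trans h0⟩
  rw [← a2, h]; simp

omit [DecidableEq ι] in
lemma core_finite {σ : Type*} {x : σ → L} (hx : AI k x) :
    {G | x G ∈ cl k (x '' {G}ᶜ)}.Finite := by
  classical
  obtain ⟨C, hC⟩ := hx
  by_contra hinf
  have key : ∀ m : ℕ, ∃ s : Finset σ, rk k (x '' s) + m ≤ s.card := by
    intro m
    induction m with
    | zero => exact ⟨∅, by simp [rk]⟩
    | succ m ih =>
      obtain ⟨s, hs⟩ := ih
      obtain ⟨G, hG, hGs⟩ := Set.Infinite.exists_notMem_finset hinf s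
      have hG' : x G ∈ (AlgebraicIndependent.matroid k L).closure (x '' {G}ᶜ) := by
        rw [← coe_cl]; exact hG
      obtain ⟨I, hI, hIf, -, hGI⟩ := Matroid.exists_mem_finite_closure_of_mem_closure hG'
      obtain ⟨J, hJ, hJf, rfl⟩ := (Set.exists_subset_image_finite_and (p := fun T => T = I)).1
        ⟨I, hI, hIf, rfl⟩
      set t := s ∪ hJf.toFinset with ht
      have hGt : G ∉ t := by
        intro h
        rcases Finset.mem_union.1 h with h | h
        · exact hGs h
        · exact hJ (hJf.mem_toFinset.1 h) rfl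
      have h1 : rk k (x '' (insert G t : Finset σ)) ≤ rk k (x '' t) := by
        refine rk_le_of_subset_cl ?_
        rintro _ ⟨i, hi, rfl⟩
        rcases Finset.mem_insert.1 hi with rfl | hi
        · refine cl_mono (s := x '' J) (Set.image_mono fun j hj => ?_) ?_
          · exact Finset.mem_union_right _ (hJf.mem_toFinset.2 hj)
          · change x i ∈ (cl k (x '' J) : Set L)
            rwa [coe_cl]
        · exact mem_cl_of_mem ⟨i, hi, rfl⟩
      have h2 : rk k (x '' t) ≤ rk k (x '' s) + (t \ s).card := by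
        refine le_trans (rk_mono ?_) ((rk_union_le (x '' s) ((t \ s).image x)).trans ?_)
        · rintro _ ⟨i, hi, rfl⟩
          by_cases his : i ∈ s
          · exact Or.inl ⟨i, his, rfl⟩
          · exact Or.inr (Finset.mem_coe.2
              (Finset.mem_image_of_mem _ (Finset.mem_sdiff.2 ⟨hi, his⟩)))
        · gcongr
          exact Finset.card_image_le
      have h3 : (t \ s).card + s.card = t.card :=
        Finset.card_sdiff_add_card_eq_card Finset.subset_union_left
      refine ⟨insert G t, ?_⟩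
      rw [Finset.card_insert_of_notMem hGt, ← h3]
      refine (add_le_add_left (h1.trans h2) _).trans ?_
      push_cast
      calc rk k (x '' s) + (t \ s).card + ((m : ℕ∞) + 1)
        _ = (t \ s).card + (rk k (x '' s) + m) + 1 := by ring
        _ ≤ _ := by gcongr
  obtain ⟨s, hs⟩ := key (C + 1)
  obtain ⟨b, -, -, -, -, h3⟩ := exists_basis (k := k) x (Finset.empty_subset s) (indepOn_empty x)
  have h4 := hs.trans (hC s)
  rw [h3] at h4
  have h5 : b.card + (C + 1) ≤ b.card + C := by exact_mod_cast h4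
  omega

omit [DecidableEq ι] in
lemma core_descent {σ τ : Type*} [Fintype τ] (x : σ → L) (c : τ → L) {t₀ : τ} (h : c t₀ ≠ 0) :
    ∃ W : τ → MvPolynomial σ k, aeval x (W t₀) ≠ 0 ∧ ∀ P : τ → MvPolynomial σ k,
      ∑ t, aeval x (P t) * c t = 0 → ∑ t, aeval x (P t) * aeval x (W t) = 0 := by
  classical
  set K := IntermediateField.adjoin k (Set.range x) with hK
  obtain ⟨ψ, hψ⟩ := Module.Projective.exists_dual_eq_one K h
  have hm : ∀ P : MvPolynomial σ k, aeval x P ∈ K := fun P =>
    (IntermediateField.mem_adjoin_range_iff k x _).2 ⟨P, 1, by simp⟩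
  have : ∀ t, ∃ r q : MvPolynomial σ k, aeval x q ≠ 0 ∧ (ψ (c t) : L) * aeval x q = aeval x r := by
    intro t
    obtain ⟨r, q, e⟩ := (IntermediateField.mem_adjoin_range_iff k x _).1 (ψ (c t)).2
    by_cases hq : aeval x q = 0
    · exact ⟨0, 1, by simp, by simp [e, hq]⟩
    · exact ⟨r, q, hq, by rw [e]; field_simp⟩
  choose r q hq hr using this
  have hW : ∀ t, aeval x (r t * ∏ u ∈ Finset.univ.erase t, q u) =
      (ψ (c t) : L) * ∏ u, aeval x (q u) := fun t => by
    rw [map_mul, ← hr, map_prod, ← Finset.mul_prod_erase _ _ (Finset.mem_univ t), mul_assoc]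
  refine ⟨fun t => r t * ∏ u ∈ Finset.univ.erase t, q u, ?_, fun P hP => ?_⟩
  · rw [hW, hψ]
    simpa using Finset.prod_ne_zero_iff.2 fun u _ => hq u
  · have h1 : ψ (∑ t, (⟨aeval x (P t), hm _⟩ : K) • c t) = 0 := by
      have : ∑ t, (⟨aeval x (P t), hm _⟩ : K) • c t = 0 := hP
      rw [this, map_zero]
    have h2 : ∑ t, aeval x (P t) * (ψ (c t) : L) = 0 := by
      have := congrArg (fun a : K => (a : L)) h1
      simpa [map_sum, map_smul] using this
    simp only [hW, ← mul_assoc]
    rw [← Finset.sum_mul, h2, zero_mul]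

lemma core_dG_inl (j i : ι) :
    dG (k := k) j (X (Sum.inl i)) = if i = j then 1 else 0 := by
  simp [dG]

lemma core_dG_inr (j i : ι) (l : ℕ) :
    dG (k := k) j (X (Sum.inr (i, l))) = if i = j then X (Sum.inr (i, l + 1)) else 0 := by
  simp [dG]

lemma core_dG_comm (i j : ι) (g : MvPolynomial (ι ⊕ ι × ℕ) k) :
    dG i (dG j g) = dG j (dG i g) := by
  have : ⁅dG (k := k) i, dG (k := k) j⁆ = 0 := by
    refine derivation_ext fun G => ?_
    rw [Derivation.commutator_apply]
    rcases G with a | ⟨a, l⟩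
    · rw [core_dG_inl, core_dG_inl]
      split_ifs <;> simp
    · rw [core_dG_inr, core_dG_inr]
      split_ifs with h1 h2 h2
      · subst h1; subst h2; simp
      · simp [core_dG_inr, h2]
      · simp [core_dG_inr, h1]
      · simp
  have h := congrArg (fun D : Derivation k _ _ => D g) this
  simp only [Derivation.commutator_apply, Derivation.zero_apply] at h
  exact sub_eq_zero.1 h

lemma core_pderiv_dG (i j : ι) (l : ℕ) (g : MvPolynomial (ι ⊕ ι × ℕ) k) :
    pderiv (Sum.inr (j, l + 1)) (dG i g) = dG i (pderiv (Sum.inr (j, l + 1)) g) +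
      if i = j then pderiv (Sum.inr (j, l)) g else 0 := by
  classical
  have : ⁅pderiv (R := k) (Sum.inr (j, l + 1) : ι ⊕ ι × ℕ), dG (k := k) i⁆ =
      if i = j then pderiv (Sum.inr (j, l)) else 0 := by
    refine derivation_ext fun G => ?_
    rw [Derivation.commutator_apply]
    have h0 : dG (k := k) i (pderiv (Sum.inr (j, l + 1)) (X G)) = 0 := by
      rw [pderiv_X, Pi.single_apply]
      split_ifs <;> simp
    rw [h0, sub_zero]
    rcases G with a | ⟨a, m⟩
    · rw [core_dG_inl]
      split_ifs <;> simp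
    · rw [core_dG_inr]
      split_ifs with h1 h2 h2
      · subst h1; subst h2; simp [pderiv_X, Pi.single_apply]
      · subst h1; simp [pderiv_X, h2]
      · subst h2; simp [pderiv_X, h1]
      · simp
  have h := congrArg (fun D : Derivation k _ _ => D g) this
  simp only [Derivation.commutator_apply] at h
  rw [sub_eq_iff_eq_add'] at h
  rw [h]
  split_ifs <;> simp

omit [DecidableEq ι] in
lemma core_sum_apply {σ τ : Type*} (s : Finset τ)
    (D : τ → Derivation k (MvPolynomial σ k) (MvPolynomial σ k)) (g : MvPolynomial σ k) :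
    (∑ t ∈ s, D t) g = ∑ t ∈ s, D t g := by
  classical
  induction s using Finset.induction_on with
  | empty => simp
  | insert a s ha ih => simp [Finset.sum_insert ha, ih]

lemma core_special [Fintype ι] {x : ι ⊕ ι × ℕ → L} (hx : AI k x) {κ : Type*} (v : κ → ι → L)
    (hv : ∀ g : MvPolynomial (ι ⊕ ι × ℕ) k, aeval x g = 0 →
      ∀ a, ∑ j, aeval x (dG j g) * v a j = 0)
    (h1 : ∀ j, ∃ a, v a j ≠ 0) {g : MvPolynomial (ι ⊕ ι × ℕ) k} (hg : aeval x g = 0)
    (hg' : ∀ j, aeval x (dG j g) = 0) (G : ι ⊕ ι × ℕ) : aeval x (pderiv G g) = 0 := by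
  classical
  have hr : ∀ (j : ι) (l : ℕ) (g : MvPolynomial (ι ⊕ ι × ℕ) k), aeval x g = 0 →
      (∀ j, aeval x (dG j g) = 0) → aeval x (pderiv (Sum.inr (j, l)) g) = 0 := by
    intro j
    set A : Set ℕ := {l | ∃ g : MvPolynomial (ι ⊕ ι × ℕ) k, aeval x g = 0 ∧
      (∀ j, aeval x (dG j g) = 0) ∧ aeval x (pderiv (Sum.inr (j, l)) g) ≠ 0} with hA
    have hfin : A.Finite := by
      refine Set.Finite.subset (((core_finite hx).preimage
        (f := fun l : ℕ => (Sum.inr (j, l) : ι ⊕ ι × ℕ)) fun a _ b _ h => by simpa using h)) ?_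
      rintro l ⟨g, a1, -, a3⟩
      exact core_mem_cl a1 a3
    by_contra hc
    push Not at hc
    obtain ⟨l₀, g₀, b1, b2, b3⟩ := hc
    obtain ⟨l, ⟨g, a1, a2, a3⟩, hl⟩ := Set.exists_max_image A id hfin ⟨l₀, g₀, b1, b2, b3⟩
    have hnot : l + 1 ∉ A := fun h => by have := hl _ h; simp at this
    obtain ⟨a, ha⟩ := h1 j
    obtain ⟨W, hW, hW'⟩ := core_descent (k := k) x (v a) ha
    have hD : ∀ g : MvPolynomial (ι ⊕ ι × ℕ) k, aeval x g = 0 →
        ∑ i, aeval x (dG i g) * aeval x (W i) = 0 := fun g hg => hW' _ (hv g hg a)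
    have h2 : aeval x (pderiv (Sum.inr (j, l + 1)) g) = 0 := by
      by_contra h
      exact hnot ⟨g, a1, a2, h⟩
    refine hnot ⟨∑ i, dG i g * W i, by simp [a2], fun j' => ?_, ?_⟩
    · have := hD _ (a2 j')
      simp only [map_sum, Derivation.leibniz, smul_eq_mul, map_add, map_mul, a2, zero_mul,
        zero_add]
      simpa only [core_dG_comm j', mul_comm] using this
    · have := hD _ h2
      have e : aeval x (pderiv (Sum.inr (j, l + 1)) (∑ i, dG i g * W i)) =
          ∑ i, aeval x (dG i (pderiv (Sum.inr (j, l + 1)) g)) * aeval x (W i) +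
          ∑ i, aeval x (W i) * aeval x (if i = j then pderiv (Sum.inr (j, l)) g else 0) := by
        rw [← Finset.sum_add_distrib, map_sum, map_sum]
        refine Finset.sum_congr rfl fun i _ => ?_
        simp only [Derivation.leibniz, smul_eq_mul, map_add, map_mul, a2, core_pderiv_dG]
        ring
      rw [e, this, zero_add, Finset.sum_eq_single j (fun i _ hi => by simp [hi]) (by simp)]
      simpa using ⟨hW, a3⟩
  rcases G with i | ⟨j, l⟩
  · have h2 : dG i g = (∑ G ∈ insert (Sum.inl i) g.vars,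
        dG (k := k) i (X G) • pderiv (R := k) G) g := by
      refine derivation_eq_of_forall_mem_vars fun G hG => ?_
      rw [core_sum_apply, Finset.sum_eq_single G]
      · simp
      · intro b _ hb
        simp [pderiv_X_of_ne hb.symm]
      · intro h
        exact (h (Finset.mem_insert_of_mem hG)).elim
    have h3 := hg' i
    rw [h2, core_sum_apply, map_sum, Finset.sum_eq_single (Sum.inl i)] at h3
    · simpa [core_dG_inl] using h3
    · rintro (a | ⟨a, l⟩) _ hb
      · have : a ≠ i := fun e => hb (by rw [e])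
        simp [core_dG_inl, this]
      · simp [hr a l g hg hg']
    · intro h
      exact (h (Finset.mem_insert_self _ _)).elim
  · exact hr j l g hg hg'

theorem rk_ge_of_tangent [CharZero k] [Fintype ι] {x : ι ⊕ ι × ℕ → L} (hx : AI k x) {κ : Type*}
    [Fintype κ] (v : κ → ι → L)
    (hv : ∀ g : MvPolynomial (ι ⊕ ι × ℕ) k, aeval x g = 0 →
      ∀ a, ∑ j, aeval x (dG j g) * v a j = 0)
    (h1 : ∀ j, ∃ a, v a j ≠ 0) (s : Finset (ι ⊕ ι × ℕ)) :
    (s.card + (Matrix.of v).rank : ℕ∞) ≤ rk k (x '' s) + Fintype.card ι := by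
  classical
  obtain ⟨b, -, h5, -, h7, h8⟩ := exists_basis (k := k) x (Finset.empty_subset s) (indepOn_empty x)
  set E := s \ b with hE
  have : ∀ G : E, ∃ g : MvPolynomial (ι ⊕ ι × ℕ) k, aeval x g = 0 ∧ aeval x (pderiv G.1 g) ≠ 0 ∧
      ∀ j, j ≠ G.1 → j ∉ (b : Set (ι ⊕ ι × ℕ)) → pderiv j g = 0 := fun G =>
    exists_min_rel (Finset.mem_sdiff.1 G.2).2 (h7 _ (Finset.mem_sdiff.1 G.2).1)
  choose g g1 g2 g3 using this
  have hk : ∀ G : E, (fun j => aeval x (dG j (g G))) ∈ LinearMap.ker (Matrix.of v).mulVecLin := by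
    intro G
    rw [LinearMap.mem_ker]
    funext a
    simpa [Matrix.mulVec, dotProduct, mul_comm] using hv _ (g1 G) a
  have hli : LinearIndependent L fun G : E =>
      (⟨_, hk G⟩ : LinearMap.ker (Matrix.of v).mulVecLin) := by
    by_contra hc
    obtain ⟨c, hc, G₀, hG₀⟩ := Fintype.not_linearIndependent_iff.1 hc
    obtain ⟨W, hW, hW'⟩ := core_descent (k := k) x c hG₀
    have h2 : ∀ j, ∑ G, aeval x (dG j (g G)) * aeval x (W G) = 0 := fun j => hW' _ (by
      have := congrFun (congrArg Subtype.val hc) j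
      simpa [mul_comm] using this)
    have := core_special hx v hv h1 (g := ∑ G, W G * g G) (by simp [g1]) (fun j => ?_) G₀.1
    · simp only [map_sum, Derivation.leibniz, smul_eq_mul, map_add, map_mul, g1, zero_mul,
        add_zero] at this
      rw [Finset.sum_eq_single G₀] at this
      · exact mul_ne_zero hW (g2 G₀) this
      · intro G _ hG
        rw [g3 G G₀.1 (fun e => hG (Subtype.ext e).symm) (Finset.mem_sdiff.1 G₀.2).2]
        simp
      · simp
    · simp only [map_sum, Derivation.leibniz, smul_eq_mul, map_add, map_mul, g1, zero_mul,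
        add_zero]
      simpa only [mul_comm] using h2 j
  have h2 := hli.fintype_card_le_finrank
  have h3 := LinearMap.finrank_range_add_finrank_ker (Matrix.of v).mulVecLin
  rw [Module.finrank_fintype_fun_eq_card] at h3
  rw [Fintype.card_coe] at h2
  have h4 : E.card + b.card = s.card := Finset.card_sdiff_add_card_eq_card h5
  rw [h8]
  have h6 : s.card + (Matrix.of v).rank ≤ b.card + Fintype.card ι := by
    unfold Matrix.rank
    omega
  exact_mod_cast h6

end Pool.Agent.P.MP_26ad15_nt
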