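import Pool.Agent.P.MP_26ad15_nt.ASTri

/-! Factorial series approximants of the trigamma function, and divided differences. -/

namespace Pool.Agent.P.MP_26ad15_nt

open Complex Set Filter Topology Finset

/-- Rising factorial. -/
noncomputable def asc (n : ℕ) (z : ℂ) : ℂ := ∏ i ∈ range n, (z + i)

/-- Partial sums of the factorial series of the trigamma function. -/
noncomputable def HN (N : ℕ) (z : ℂ) : ℂ :=
  ∑ n ∈ range N, n.factorial / (n + 1 : ℂ) * (asc (n + 1) z)⁻¹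

/-- The defect in the difference equation. -/
noncomputable def rhoN (N : ℕ) (z : ℂ) : ℂ := N.factorial * (z * asc (N + 1) z)⁻¹

lemma asc_ne_zero {n : ℕ} {z : ℂ} (h : ∀ i < n, z + i ≠ 0) : asc n z ≠ 0 :=
  prod_ne_zero_iff.2 fun i hi => h i (mem_range.1 hi)

lemma HN_shift (N : ℕ) {z : ℂ} (h : ∀ i ≤ N, z + i ≠ 0) :
    HN N z - HN N (z + 1) = tm 0 z - rhoN N z := by
  have h0 : z ≠ 0 := by simpa using h 0 (Nat.zero_le _)
  induction N with
  | zero => simp [HN, tm, rhoN, asc, sq]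
  | succ N ih =>
    have e1 : asc (N + 2) z = asc (N + 1) z * (z + (N + 1)) := by
      rw [asc, prod_range_succ]; push_cast; rfl
    have e2 : asc (N + 2) z = asc (N + 1) (z + 1) * z := by
      rw [asc, prod_range_succ', asc]
      simp only [Nat.cast_add, Nat.cast_one, Nat.cast_zero, add_zero, add_assoc, add_comm (1 : ℂ)]
    have a1 : asc (N + 1) z ≠ 0 := asc_ne_zero fun i hi => h i (by omega)
    have a2 : z + (N + 1) ≠ 0 := by exact_mod_cast h (N + 1) le_rfl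
    have e3 : asc (N + 1) (z + 1) = asc (N + 1) z * (z + (N + 1)) / z := by
      rw [eq_div_iff h0, ← e2, e1]
    have a3 : (N + 1 : ℂ) ≠ 0 := by exact_mod_cast Nat.succ_ne_zero N
    have := ih fun i hi => h i (by omega)
    simp only [HN, sum_range_succ, rhoN] at this ⊢
    rw [e1, e3, Nat.factorial_succ]
    push_cast
    have e4 : (N.factorial / (N + 1 : ℂ) * (asc (N + 1) z)⁻¹ -
        N.factorial / (N + 1 : ℂ) * (asc (N + 1) z * (z + (N + 1)) / z)⁻¹) =
        N.factorial * (z * asc (N + 1) z)⁻¹ -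
          (N + 1) * N.factorial * (z * (asc (N + 1) z * (z + (N + 1))))⁻¹ := by
      field_simp
      ring
    linear_combination this + e4

lemma le_norm_asc {n : ℕ} {z : ℂ} {a : ℝ} (ha : 0 ≤ a) (h : ∀ i < n, a ≤ ‖z + i‖) :
    a ^ n ≤ ‖asc n z‖ := by
  rw [asc, norm_prod, ← card_range n, ← prod_const, card_range]
  exact prod_le_prod (fun _ _ => ha) fun i hi => h i (mem_range.1 hi)

lemma norm_rhoN_le {N : ℕ} {z : ℂ} {c R : ℝ} {k : ℕ} (hc : 0 < c) (hR : 0 < R)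
    (h : ∀ i ≤ N, c * (R + k) ≤ ‖z + i‖) :
    ‖rhoN N z‖ ≤ N.factorial / (c * R) ^ N / c ^ 2 * ((R + k) ^ 2)⁻¹ := by
  have h1 := le_norm_asc (n := N + 1) (by positivity) fun i hi => h i (by omega)
  have h2 : c * (R + k) ≤ ‖z‖ := by simpa using h 0 (Nat.zero_le _)
  rw [rhoN, norm_mul, norm_inv, norm_mul, Complex.norm_natCast, div_div, div_eq_mul_inv, mul_assoc,
    ← mul_inv]
  refine mul_le_mul_of_nonneg_left (inv_anti₀ (by positivity) ?_) (by positivity)
  calc (c * R) ^ N * c ^ 2 * (R + k) ^ 2 ≤ (c * (R + k)) ^ N * c ^ 2 * (R + k) ^ 2 := by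
        gcongr; simp
    _ = c * (R + k) * (c * (R + k)) ^ (N + 1) := by ring
    _ ≤ _ := by gcongr

lemma norm_le_of_telescope {E : ℕ → ℂ} {B R : ℝ} (hR : 1 ≤ R) (hB : 0 ≤ B)
    (h : ∀ k, ‖E k - E (k + 1)‖ ≤ B * ((R + k) ^ 2)⁻¹) (h0 : Tendsto E atTop (𝓝 0)) :
    ‖E 0‖ ≤ 2 * B := by
  have h1 : ∀ n, ‖E 0 - E n‖ ≤ 2 * B := fun n => by
    rw [← sum_range_sub']
    refine (norm_sum_le_of_le _ fun k _ => h k).trans ?_
    rw [← mul_sum, mul_comm 2]
    gcongr
    refine ((sum_inv_sq hR).1.sum_le_tsum _ fun _ _ => by positivity).trans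
      ((sum_inv_sq hR).2.trans (div_le_self zero_le_two hR))
  simpa using le_of_tendsto' (tendsto_const_nhds.sub h0).norm h1

lemma three_quarter_le {N : ℕ} {w : ℂ} (h : 4 * N ≤ ‖w‖) {i : ℕ} (hi : i ≤ N) :
    3 / 4 * ‖w‖ ≤ ‖w + i‖ := by
  have h1 := norm_sub_le (w + i) i
  rw [add_sub_cancel_right, Complex.norm_natCast] at h1
  have : (i : ℝ) ≤ N := by exact_mod_cast hi
  linarith

lemma norm_HN_sub_le {N N' : ℕ} (hN : N ≤ N') {w : ℂ} (hw : w ≠ 0) (h : 4 * N' ≤ ‖w‖) :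
    ‖HN N' w - HN N w‖ ≤ 2 * (N.factorial / (3 / 4 * ‖w‖) ^ (N + 1)) := by
  set a := 3 / 4 * ‖w‖ with ha
  have a0 : 0 < a := by have := norm_pos_iff.2 hw; positivity
  have key : ∀ M, N ≤ M → M ≤ N' → ‖HN M w - HN N w‖ ≤
      2 * (N.factorial / a ^ (N + 1)) - 2 * (M.factorial / a ^ (M + 1)) := by
    intro M hM
    induction M, hM using Nat.le_induction with
    | base => simp
    | succ M hM ih =>
      intro hM'
      have h1 := ih (by omega)
      have h2 : ‖M.factorial / (M + 1 : ℂ) * (asc (M + 1) w)⁻¹‖ ≤ M.factorial / a ^ (M + 1) := by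
        rw [norm_mul, norm_inv, norm_div, Complex.norm_natCast, div_eq_mul_inv _ (a ^ _)]
        gcongr
        · refine div_le_self (by positivity) ?_
          have : (M + 1 : ℂ) = (M + 1 : ℕ) := by push_cast; rfl
          rw [this, Complex.norm_natCast]
          exact_mod_cast Nat.succ_pos M
        · exact le_norm_asc a0.le fun i hi => three_quarter_le h (by omega)
      have h3 : 2 * (((M + 1).factorial : ℝ) / a ^ (M + 1 + 1)) ≤ M.factorial / a ^ (M + 1) := by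
        rw [Nat.factorial_succ, ← mul_div_assoc, div_le_div_iff₀ (by positivity) (by positivity),
          pow_succ a (M + 1)]
        have : ((M + 1 : ℕ) : ℝ) ≤ N' := by exact_mod_cast hM'
        have b : 2 * ((M + 1 : ℕ) : ℝ) ≤ a := by linarith [norm_nonneg w]
        push_cast at b ⊢
        have : 0 ≤ (M.factorial : ℝ) * a ^ (M + 1) := by positivity
        nlinarith
      rw [HN, sum_range_succ, ← HN, add_sub_right_comm]
      linarith [norm_add_le (HN M w - HN N w) (M.factorial / (M + 1 : ℂ) * (asc (M + 1) w)⁻¹)]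
  exact (key N' hN le_rfl).trans (sub_le_self _ (by positivity))

lemma norm_HN_le {N : ℕ} {w : ℂ} (hw : w ≠ 0) (h : 4 * N ≤ ‖w‖) : ‖HN N w‖ ≤ 3 * ‖w‖⁻¹ := by
  have := norm_HN_sub_le (Nat.zero_le N) hw h
  simp only [HN, range_zero, sum_empty, sub_zero, Nat.factorial_zero, Nat.cast_one, zero_add,
    pow_one] at this
  refine this.trans ?_
  have := norm_pos_iff.2 hw
  rw [one_div, mul_inv, ← mul_assoc]
  gcongr
  norm_num

lemma tendsto_HN (N : ℕ) {α : Type*} {l : Filter α} {w : α → ℂ}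
    (h : Tendsto (fun a => ‖w a‖) l atTop) : Tendsto (fun a => HN N (w a)) l (𝓝 0) := by
  refine squeeze_zero_norm' ?_ (by simpa using h.inv_tendsto_atTop.const_mul 3)
  filter_upwards [h.eventually_ge_atTop (4 * N), h.eventually_gt_atTop 0] with a h1 h2
  exact norm_HN_le (norm_pos_iff.1 h2) h1

lemma analyticAt_HN (N : ℕ) {w : ℂ} (hw : w ≠ 0) (h : 4 * N ≤ ‖w‖) : AnalyticAt ℂ (HN N) w := by
  refine Finset.analyticAt_fun_sum _ fun n hn => analyticAt_const.mul (AnalyticAt.inv ?_ ?_)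
  · exact Finset.analyticAt_fun_prod _ fun i _ => by fun_prop
  · refine asc_ne_zero fun i hi h0 => ?_
    have := three_quarter_le h (i := i) (by have := mem_range.1 hn; omega)
    rw [h0, norm_zero] at this
    linarith [norm_pos_iff.2 hw]

/-- Points at a definite angle from the negative real axis. -/
def Cone (c : ℝ) (w : ℂ) : Prop := ∀ x : ℝ, 0 ≤ x → c * (‖w‖ + x) ≤ ‖w + x‖

lemma tendsto_norm_add_nat (w : ℂ) : Tendsto (fun k : ℕ => ‖w + k‖) atTop atTop := by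
  refine tendsto_atTop_mono (fun k => ?_)
    (tendsto_atTop_add_const_right _ (-‖w‖) tendsto_natCast_atTop_atTop)
  have := norm_sub_le (w + k) w
  rw [add_sub_cancel_left, Complex.norm_natCast] at this
  linarith

lemma Cone.nonpole {c : ℝ} (hc : 0 < c) {w : ℂ} (hw : Cone c w) (h0 : w ≠ 0) (m : ℕ) : w ≠ -m := by
  intro h
  have := hw m (Nat.cast_nonneg m)
  rw [ofReal_natCast, add_eq_zero_iff_eq_neg.2 h, norm_zero] at this
  nlinarith [mul_pos hc (norm_pos_iff.2 h0), (Nat.cast_nonneg m : (0 : ℝ) ≤ m)]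

lemma hh_appr {c : ℝ} (hc : 0 < c) {w : ℂ} (hw : Cone c w) (h1 : 1 ≤ ‖w‖) (N : ℕ) :
    ‖hh 0 w - HN N w‖ ≤ 2 * (N.factorial / (c * ‖w‖) ^ N / c ^ 2) := by
  have h0 : w ≠ 0 := norm_pos_iff.1 (by linarith)
  have hb : ∀ k i : ℕ, c * (‖w‖ + k) ≤ ‖w + k + i‖ := fun k i => by
    have := hw (k + i) (by positivity)
    push_cast at this
    rw [add_assoc]
    nlinarith [(Nat.cast_nonneg i : (0 : ℝ) ≤ i)]
  have := norm_le_of_telescope (E := fun k => hh 0 (w + k) - HN N (w + k))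
    (B := N.factorial / (c * ‖w‖) ^ N / c ^ 2) h1 (by positivity) (fun k => ?_) ?_
  · simpa using this
  · have e1 := hh_shift 0 (nonpole_add_nat (hw.nonpole hc h0) k)
    have e2 := HN_shift N (z := w + k) fun i _ h => by
      have := hb k i
      rw [h, norm_zero] at this
      nlinarith [(Nat.cast_nonneg k : (0 : ℝ) ≤ k)]
    have : hh 0 (w + k) - HN N (w + k) - (hh 0 (w + (k + 1 : ℕ)) - HN N (w + (k + 1 : ℕ))) =
        rhoN N (w + k) := by
      push_cast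
      rw [← add_assoc]
      linear_combination e1 - e2
    rw [this]
    exact norm_rhoN_le hc (by linarith) fun i _ => hb k i
  · have t1 : Tendsto (fun k : ℕ => w.re + k) atTop atTop :=
      tendsto_atTop_add_const_left _ _ tendsto_natCast_atTop_atTop
    have t2 : Tendsto (fun k : ℕ => hh 0 (w + k)) atTop (𝓝 0) := by
      refine squeeze_zero_norm' ?_ (by simpa using t1.const_div_atTop 2)
      filter_upwards [t1.eventually_ge_atTop 1] with k hk
      exact norm_hh_zero_le hk (by simp)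
    simpa using t2.sub (tendsto_HN N (tendsto_norm_add_nat w))

lemma HN_refl_aux {w : ℂ} (hr : 0 ≤ w.re) (h1 : 1 ≤ ‖w‖) {N : ℕ} (hN : 4 * N ≤ ‖w‖) :
    ‖HN N w + HN N (1 - w)‖ ≤ 16 * (N.factorial / (1 / 2 * ‖w‖) ^ N) := by
  have hb : ∀ k : ℕ, 2 / 3 * (‖w‖ + k) ≤ ‖w + k‖ ∧ ‖w‖ ≤ ‖w + k‖ := fun k => by
    have e : ‖w + k‖ ^ 2 = ‖w‖ ^ 2 + 2 * k * w.re + k ^ 2 := by
      simp only [Complex.sq_norm, normSq_apply, add_re, add_im, natCast_re, natCast_im]; ring
    have k0 : (0 : ℝ) ≤ k := Nat.cast_nonneg k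
    constructor
    · refine abs_le_of_sq_le_sq' ?_ (norm_nonneg _) |>.2
      nlinarith [mul_nonneg k0 hr, sq_nonneg (‖w‖ - k)]
    · refine abs_le_of_sq_le_sq' ?_ (norm_nonneg _) |>.2
      nlinarith [mul_nonneg k0 hr]
  have hb' : ∀ k i : ℕ, i ≤ N → 1 / 2 * (‖w‖ + k) ≤ ‖w + k + i‖ ∧
      1 / 2 * (‖w‖ + k) ≤ ‖-(w + k) + i‖ := fun k i hi => by
    have a := three_quarter_le (hN.trans (hb k).2) hi
    have b := three_quarter_le (w := -(w + k)) (by rw [norm_neg]; exact hN.trans (hb k).2) hi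
    rw [norm_neg] at b
    constructor <;> linarith [(hb k).1]
  have := norm_le_of_telescope (E := fun k => HN N (w + k) + HN N (1 - (w + k)))
    (B := 2 * (N.factorial / (1 / 2 * ‖w‖) ^ N / (1 / 2) ^ 2)) h1 (by positivity) (fun k => ?_) ?_
  · simp only [Nat.cast_zero, add_zero] at this
    exact this.trans_eq (by ring)
  · have k0 : (0 : ℝ) ≤ k := Nat.cast_nonneg k
    have e1 := HN_shift N (z := w + k) fun i hi h => by
      have := (hb' k i hi).1
      rw [h, norm_zero] at this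
      linarith
    have e2 := HN_shift N (z := -(w + k)) fun i hi h => by
      have := (hb' k i hi).2
      rw [h, norm_zero] at this
      linarith
    have : HN N (w + k) + HN N (1 - (w + k)) - (HN N (w + (k + 1 : ℕ)) + HN N (1 - (w + (k + 1 : ℕ)))) =
        rhoN N (-(w + k)) - rhoN N (w + k) := by
      have a : 1 - (w + k) = -(w + k) + 1 := by ring
      have b : 1 - (w + (k + 1 : ℕ)) = -(w + k) := by push_cast; ring
      have c : tm 0 (-(w + k)) = tm 0 (w + k) := by simp only [tm]; rw [zero_add, zero_add, neg_sq]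
      rw [a, b]
      push_cast
      rw [← add_assoc]
      linear_combination e1 - e2 - c
    rw [this]
    have a := norm_rhoN_le (by norm_num) (by linarith) fun i hi => (hb' k i hi).1
    have b := norm_rhoN_le (by norm_num) (by linarith) fun i hi => (hb' k i hi).2
    linarith [norm_sub_le (rhoN N (-(w + k))) (rhoN N (w + k))]
  · have t := tendsto_norm_add_nat (w - 1)
    have t' : Tendsto (fun k : ℕ => ‖1 - (w + k)‖) atTop atTop :=
      t.congr fun k => by rw [← norm_neg]; congr 1; ring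
    simpa using (tendsto_HN N (tendsto_norm_add_nat w)).add (tendsto_HN N t')

lemma HN_refl {w : ℂ} (h1 : 1 ≤ ‖w‖) {N : ℕ} (hN : 4 * N ≤ ‖w‖) :
    ‖HN N w + HN N (1 - w)‖ ≤ 16 * (N.factorial / (1 / 2 * ‖w‖) ^ N) := by
  rcases le_total 0 w.re with h | h
  · exact HN_refl_aux h h1 hN
  · have a : ‖w‖ ≤ ‖1 - w‖ := by
      refine abs_le_of_sq_le_sq' ?_ (norm_nonneg _) |>.2
      simp only [Complex.sq_norm, normSq_apply, sub_re, sub_im, one_re, one_im]
      nlinarith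
    have := HN_refl_aux (w := 1 - w) (by simp; linarith) (h1.trans a) (hN.trans a)
    rw [sub_sub_cancel, add_comm] at this
    refine this.trans ?_
    gcongr

lemma PS_false_one {w : ℂ} (hw : ∀ m : ℕ, 1 - w ≠ -m) : PS false 1 w = -hh 0 (1 - w) := by
  have h1 := hasDerivAt_PS false 0 (z := w) hw
  have h2 := (hasDerivAt_PS true 0 (z := 1 - w) hw).comp_const_sub 1 w
  exact h1.unique h2

lemma Cone.one_sub {c : ℝ} (hc : 0 < c) {w : ℂ} (hw : Cone c (-w)) :
    Cone c (1 - w) ∧ c * (‖w‖ + 1) ≤ ‖1 - w‖ := by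
  refine ⟨fun x hx => ?_, ?_⟩
  · have := hw (x + 1) (by linarith)
    have e : -w + ((x + 1 : ℝ) : ℂ) = 1 - w + x := by push_cast; ring
    rw [e, norm_neg] at this
    have a := norm_sub_le 1 w
    rw [norm_one] at a
    nlinarith
  · have := hw 1 zero_le_one
    rwa [norm_neg, ofReal_one, neg_add_eq_sub] at this

lemma Cone.ar_nonpole {c : ℝ} (hc : 0 < c) {e : Bool} {w : ℂ} (hw : Cone c (sg e * w))
    (h0 : w ≠ 0) (m : ℕ) : ar e w ≠ -m := by
  cases e
  · have := Cone.one_sub hc (w := w) (by simpa [sg] using hw)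
    exact this.1.nonpole hc (norm_pos_iff.1 (lt_of_lt_of_le (by positivity) this.2)) m
  · exact Cone.nonpole hc (by simpa [sg] using hw) h0 m

lemma PS_appr {c : ℝ} (hc : 0 < c) (hc' : c ≤ 1 / 2) {e : Bool} {w : ℂ} (hw : Cone c (sg e * w))
    (h1 : 1 ≤ c * ‖w‖) {N : ℕ} (hN : 4 * N ≤ ‖w‖) :
    ‖PS e 1 w - HN N w‖ ≤ (2 / c ^ 2 + 16) * (N.factorial / (c ^ 2 * ‖w‖) ^ N) := by
  have h2 : 1 ≤ ‖w‖ := by nlinarith [norm_nonneg w]
  have h3 : 0 ≤ 16 * (N.factorial / (c ^ 2 * ‖w‖) ^ N) := by positivity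
  cases e
  · obtain ⟨a, b⟩ := Cone.one_sub hc (w := w) (by simpa [sg] using hw)
    have d : 1 ≤ ‖1 - w‖ := by nlinarith
    have t1 := hh_appr hc a d N
    have t2 := HN_refl h2 hN
    rw [PS_false_one (a.nonpole hc (norm_pos_iff.1 (by linarith)))]
    have e : -hh 0 (1 - w) - HN N w = -(hh 0 (1 - w) - HN N (1 - w)) - (HN N w + HN N (1 - w)) := by
      ring
    rw [e, add_mul]
    refine (norm_sub_le _ _).trans (add_le_add ?_ (t2.trans ?_))
    · rw [norm_neg]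
      refine t1.trans ?_
      rw [show ∀ x : ℝ, 2 * (x / c ^ 2) = 2 / c ^ 2 * x from fun x => by ring]
      have : c ^ 2 * ‖w‖ ≤ c * ‖1 - w‖ := by nlinarith
      gcongr
    · gcongr
      nlinarith
  · refine (hh_appr hc (by simpa [sg] using hw) h2 N).trans ?_
    rw [add_mul]
    refine le_trans ?_ (le_add_of_nonneg_right h3)
    rw [show ∀ x : ℝ, 2 * (x / c ^ 2) = 2 / c ^ 2 * x from fun x => by ring]
    gcongr
    nlinarith

lemma cone_of_re {γ : ℝ} (hγ : 0 < γ) {w : ℂ} (h : 2 * γ ^ 2 * ‖w‖ ≤ ‖w‖ + w.re) (h1 : γ ≤ 1) :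
    Cone γ w := fun x hx => by
  refine abs_le_of_sq_le_sq' ?_ (norm_nonneg _) |>.2
  have e : ‖w + x‖ ^ 2 = ‖w‖ ^ 2 + 2 * x * w.re + x ^ 2 := by
    simp only [Complex.sq_norm, normSq_apply, add_re, add_im, ofReal_re, ofReal_im]; ring
  have a : 0 ≤ 1 - γ ^ 2 := by nlinarith
  nlinarith [mul_nonneg a (sq_nonneg (‖w‖ - x)), mul_le_mul_of_nonneg_left h hx]

lemma fact_div_le {N : ℕ} {a : ℝ} (ha : 0 < a) (h : Real.exp 1 * N ≤ a) :
    N.factorial / a ^ N ≤ Real.exp (-N) := by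
  rw [div_le_iff₀ (by positivity)]
  calc (N.factorial : ℝ) ≤ N ^ N := by exact_mod_cast Nat.factorial_le_pow N
    _ = Real.exp (-N) * (Real.exp 1 * N) ^ N := by
        rw [mul_pow, ← Real.exp_nat_mul, ← mul_assoc, ← Real.exp_add]; simp
    _ ≤ _ := by gcongr

section DD

variable {κ : Type*} [Fintype κ]

/-- The terms of a divided difference of the trigamma function. -/
noncomputable def FF (μ : κ → ℕ) (a : κ → ℂ) : ℂ := (∑ i, μ i * a i) * ∏ i, a i ^ μ i

/-- Divided differences of the trigamma function. -/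
noncomputable def DD (μ : κ → ℕ) (x : κ → ℂ) : ℂ := ∑' k : ℕ, FF μ fun i => (x i + k)⁻¹

/-- Bounded Lipschitz functions of the coordinates in `S`. -/
def Lip (S : Finset κ) (F : (κ → ℂ) → ℂ) : Prop := ∃ C : ℝ, 0 ≤ C ∧ ∀ a b : κ → ℂ,
  (∀ i, ‖a i‖ ≤ 2) → (∀ i, ‖b i‖ ≤ 2) → ‖F a‖ ≤ C ∧ ‖F a - F b‖ ≤ C * ∑ i ∈ S, ‖a i - b i‖

omit [Fintype κ] in
lemma Lip.const (S : Finset κ) (c : ℂ) : Lip S fun _ => c :=
  ⟨‖c‖, norm_nonneg _, fun _ _ _ _ => ⟨le_rfl, by rw [sub_self, norm_zero]; positivity⟩⟩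

omit [Fintype κ] in
lemma Lip.coord {S : Finset κ} {i : κ} (hi : i ∈ S) : Lip S fun a => a i :=
  ⟨2, zero_le_two, fun a b ha _ => ⟨ha i, by
    have := single_le_sum (f := fun i => ‖a i - b i‖) (fun _ _ => norm_nonneg _) hi
    linarith [norm_nonneg (a i - b i)]⟩⟩

omit [Fintype κ] in
lemma Lip.add {S : Finset κ} {F G : (κ → ℂ) → ℂ} (hF : Lip S F) (hG : Lip S G) :
    Lip S fun a => F a + G a := by
  obtain ⟨C, C0, hC⟩ := hF
  obtain ⟨D, D0, hD⟩ := hG
  refine ⟨C + D, by positivity, fun a b ha hb => ⟨norm_add_le_of_le (hC a b ha hb).1 (hD a b ha hb).1, ?_⟩⟩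
  rw [add_sub_add_comm, add_mul]
  exact norm_add_le_of_le (hC a b ha hb).2 (hD a b ha hb).2

omit [Fintype κ] in
lemma Lip.mul {S : Finset κ} {F G : (κ → ℂ) → ℂ} (hF : Lip S F) (hG : Lip S G) :
    Lip S fun a => F a * G a := by
  obtain ⟨C, C0, hC⟩ := hF
  obtain ⟨D, D0, hD⟩ := hG
  refine ⟨2 * (C * D), by positivity, fun a b ha hb => ⟨?_, ?_⟩⟩
  · rw [norm_mul]
    nlinarith [mul_le_mul (hC a b ha hb).1 (hD a b ha hb).1 (norm_nonneg _) C0, mul_nonneg C0 D0]
  · have e : F a * G a - F b * G b = F a * (G a - G b) + (F a - F b) * G b := by ring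
    rw [e]
    refine (norm_add_le_of_le (norm_mul_le_of_le (hC a b ha hb).1 (hD a b ha hb).2)
      (norm_mul_le_of_le (hC a b ha hb).2 (hD b a hb ha).1)).trans_eq (by ring)

omit [Fintype κ] in
lemma Lip.pow {S : Finset κ} {F : (κ → ℂ) → ℂ} (hF : Lip S F) (n : ℕ) : Lip S fun a => F a ^ n := by
  induction n with
  | zero => simpa using Lip.const S 1
  | succ n ih => simpa only [pow_succ] using ih.mul hF

lemma lip_FF (μ : κ → ℕ) : Lip (Finset.univ.filter fun i => μ i ≠ 0) (FF μ) := by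
  classical
  set S := Finset.univ.filter fun i => μ i ≠ 0
  have h1 : ∀ s : Finset κ, Lip S (fun a => ∑ i ∈ s, μ i * a i) ∧ Lip S fun a => ∏ i ∈ s, a i ^ μ i := by
    intro s
    induction s using Finset.induction_on with
    | empty => exact ⟨Lip.const S 0, Lip.const S 1⟩
    | insert i s hi ih =>
      simp only [sum_insert hi, prod_insert hi]
      by_cases h : μ i = 0
      · simpa [h] using ih
      · have := Lip.coord (S := S) (i := i) (by simpa [S] using h)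
        exact ⟨((Lip.const S _).mul this).add ih.1, (this.pow _).mul ih.2⟩
  exact (h1 _).1.mul (h1 _).2

lemma FF_const {μ : κ → ℕ} {l : ℕ} (h : ∑ i, μ i = l + 1) (z : ℂ) :
    (-1) ^ l * l.factorial * FF μ (fun _ => z⁻¹) = tm l z := by
  rw [FF, ← sum_mul, ← Nat.cast_sum, prod_pow_eq_pow_sum, h, tm, Nat.factorial_succ, ← inv_pow]
  push_cast
  ring

lemma norm_FF_sub (μ : κ → ℕ) : ∃ C : ℝ, 0 ≤ C ∧ ∀ x y : κ → ℂ, (∀ i, 1 / 2 < (x i).re) →
    (∀ i, 1 / 2 < (y i).re) → ∀ k : ℕ, ‖(FF μ fun i => (x i + k)⁻¹) - FF μ fun i => (y i + k)⁻¹‖ ≤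
      (C * ∑ i ∈ Finset.univ.filter fun i => μ i ≠ 0, ‖x i - y i‖) * ((1 + k : ℝ) ^ 2)⁻¹ := by
  obtain ⟨C, C0, hC⟩ := lip_FF μ
  refine ⟨C * 4, by positivity, fun x y hx hy k => ?_⟩
  have k0 : (0 : ℝ) ≤ k := Nat.cast_nonneg k
  have h1 : ∀ {z : ℂ}, 1 / 2 < z.re → ‖(z + k)⁻¹‖ ≤ 2 := fun hz => by
    rw [norm_inv]
    exact inv_le_of_inv_le₀ two_pos (by linarith [half_le_norm hz k])
  refine (hC _ _ (fun i => h1 (hx i)) fun i => h1 (hy i)).2.trans ?_
  rw [mul_assoc C, mul_assoc C, mul_sum _ _ (4 : ℝ), sum_mul]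
  gcongr with i
  have a := half_le_norm (hx i) k
  have b := half_le_norm (hy i) k
  have a0 : x i + k ≠ 0 := norm_pos_iff.1 (by linarith)
  have b0 : y i + k ≠ 0 := norm_pos_iff.1 (by linarith)
  rw [inv_sub_inv a0 b0, norm_div, norm_mul, add_sub_add_right_eq_sub, norm_sub_rev,
    div_le_iff₀ (mul_pos (by linarith) (by linarith))]
  have : (1 / 2 * (1 + k : ℝ)) * (1 / 2 * (1 + k : ℝ)) ≤ ‖x i + k‖ * ‖y i + k‖ := by gcongr
  calc ‖x i - y i‖ = 4 * ‖x i - y i‖ * ((1 + k : ℝ) ^ 2)⁻¹ *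
        ((1 / 2 * (1 + k : ℝ)) * (1 / 2 * (1 + k : ℝ))) := by field_simp; ring
    _ ≤ _ := by gcongr

lemma summable_FF_const {μ : κ → ℕ} {l : ℕ} (h : ∑ i, μ i = l + 1) {z : ℂ} (hz : 1 / 2 < z.re) :
    Summable fun k : ℕ => FF μ fun _ => (z + k)⁻¹ := by
  have := summable_tm l hz
  simp only [← FF_const h] at this
  exact (summable_mul_left_iff (mul_ne_zero (by simp) (by exact_mod_cast l.factorial_ne_zero))).1 this

lemma summable_FF {μ : κ → ℕ} (h : ∑ i, μ i ≠ 0) {x : κ → ℂ} (hx : ∀ i, 1 / 2 < (x i).re) :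
    Summable fun k : ℕ => FF μ fun i => (x i + k)⁻¹ := by
  obtain ⟨l, hl⟩ := Nat.exists_eq_succ_of_ne_zero h
  obtain ⟨C, -, hC⟩ := norm_FF_sub μ
  have h1 := Summable.of_norm_bounded ((sum_inv_sq le_rfl).1.mul_left _)
    (hC x (fun _ => 1) hx fun _ => by norm_num)
  simpa using h1.add (summable_FF_const hl (z := 1) (by norm_num))

lemma DD_const {μ : κ → ℕ} {l : ℕ} (h : ∑ i, μ i = l + 1) {z : ℂ} (hz : 1 / 2 < z.re) :
    hh l z = (-1) ^ l * l.factorial * DD μ fun _ => z := by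
  rw [hh_eq l hz, DD, ← tsum_mul_left]
  simp only [FF_const h]

lemma norm_DD_sub {μ : κ → ℕ} (h : ∑ i, μ i ≠ 0) : ∃ C : ℝ, ∀ x y : κ → ℂ,
    (∀ i, 1 / 2 < (x i).re) → (∀ i, 1 / 2 < (y i).re) →
      ‖DD μ x - DD μ y‖ ≤ C * ∑ i ∈ Finset.univ.filter fun i => μ i ≠ 0, ‖x i - y i‖ := by
  obtain ⟨C, C0, hC⟩ := norm_FF_sub μ
  refine ⟨2 * C, fun x y hx hy => ?_⟩
  rw [DD, DD, ← (summable_FF h hx).tsum_sub (summable_FF h hy)]
  refine (tsum_of_norm_bounded ((sum_inv_sq le_rfl).1.hasSum.mul_left _) (hC x y hx hy)).trans ?_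
  rw [mul_comm, mul_assoc]
  gcongr
  simpa using (sum_inv_sq le_rfl).2

lemma DD_single [DecidableEq κ] (i : κ) (l : ℕ) {x : κ → ℂ} (hx : ∀ i, 1 / 2 < (x i).re) :
    hh l (x i) = (-1) ^ l * l.factorial * DD (Pi.single i (l + 1)) x := by
  have h : ∑ j, (Pi.single i (l + 1) : κ → ℕ) j = l + 1 := by simp
  obtain ⟨C, hC⟩ := norm_DD_sub (μ := Pi.single i (l + 1)) (by omega)
  have := hC x (fun _ => x i) hx fun _ => hx i
  rw [sum_eq_zero, mul_zero, norm_le_zero_iff, sub_eq_zero] at this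
  · rw [this, DD_const h (hx i)]
  · intro j hj
    by_cases e : j = i
    · simp [e]
    · simp [e] at hj

lemma DD_rec [DecidableEq κ] (ν : κ → ℕ) (i j : κ) {x : κ → ℂ} (hx : ∀ i, 1 / 2 < (x i).re) :
    (x j - x i) * DD (ν + Pi.single i 1 + Pi.single j 1) x =
      DD (ν + Pi.single i 1) x - DD (ν + Pi.single j 1) x := by
  rw [DD, DD, DD, ← tsum_mul_left, ← (summable_FF (by simp [sum_add_distrib]) hx).tsum_sub
    (summable_FF (by simp [sum_add_distrib]) hx)]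
  congr 1
  funext k
  have h0 : ∀ i, x i + k ≠ 0 := fun i => norm_pos_iff.1 (by
    linarith [half_le_norm (hx i) k, (Nat.cast_nonneg k : (0 : ℝ) ≤ k)])
  have e : ∀ (μ : κ → ℕ) (i : κ) (a : κ → ℂ),
      (∑ j, ((μ + Pi.single i 1 : κ → ℕ) j : ℂ) * a j = ∑ j, μ j * a j + a i) ∧
      ∏ j, a j ^ (μ + Pi.single i 1 : κ → ℕ) j = (∏ j, a j ^ μ j) * a i := fun μ i a => by
    constructor
    · simp [add_mul, sum_add_distrib, Pi.single_apply]
    · simp only [Pi.add_apply, pow_add, prod_mul_distrib]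
      simp [Pi.single_apply]
  simp only [FF, (e _ _ _).1, (e _ _ _).2]
  have := h0 i
  have := h0 j
  field_simp
  ring

end DD

end Pool.Agent.P.MP_26ad15_nt
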