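import Pool.Agent.P.MP_26ad15_nt.ASNewton
import Pool.Agent.P.MP_26ad15_nt.ASFact

/-! The data attached to a formal curve: approximants of the trigamma function at the polar
coordinates and formal expansions. -/

namespace Pool.Agent.P.MP_26ad15_nt

open Complex Set Filter Topology Asymptotics Metric

/-- Rational shifts. -/
abbrev BB := {β : ℚ // 0 ≤ β ∧ β < 1}

/-- Kinds of functions: shifted trigamma, the coordinate, the shifted parameter, an exponential. -/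
abbrev KK := BB ⊕ Fin 3

lemma BB.norm_lt (β : BB) : ‖((β : ℚ) : ℂ)‖ < 1 := by
  rw [Complex.norm_ratCast, abs_of_nonneg (by exact_mod_cast β.2.1)]
  exact_mod_cast β.2.2

/-- The constant in the approximation. -/
noncomputable def CA (γ : ℝ) : ℝ := 2 / γ ^ 2 + 16

lemma CA_pos (γ : ℝ) : 0 < CA γ := by unfold CA; positivity

/-- Functions close to the factorial series approximants near a point. -/
def Ap (γ : ℝ) (N₁ : ℕ) (ϕ : ℂ → ℂ) (w₀ : ℂ) : Prop :=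
  AnalyticOnNhd ℂ ϕ (ball w₀ (3 / 2)) ∧ ∀ N ≤ N₁, ∀ w ∈ ball w₀ (3 / 2),
    ‖ϕ w - HN N w‖ ≤ CA γ * (N.factorial / (γ ^ 2 / 2 * ‖w₀‖) ^ N)

variable {γ : ℝ} {N N₁ : ℕ} {ϕ ϕ' : ℂ → ℂ} {w₀ : ℂ}

lemma Ap.mono (h : Ap γ N₁ ϕ w₀) (hN : N ≤ N₁) : Ap γ N ϕ w₀ :=
  ⟨h.1, fun M hM => h.2 M (hM.trans hN)⟩

lemma half_le_of_mem {w : ℂ} (h : 3 ≤ ‖w₀‖) (hw : w ∈ ball w₀ (3 / 2)) : ‖w₀‖ / 2 ≤ ‖w‖ := by
  have := norm_sub_norm_le w₀ w
  rw [mem_ball, dist_comm, dist_eq_norm] at hw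
  linarith

lemma Ap_HN (hγ : 0 < γ) (hγ' : γ ≤ 1 / 2) (h1 : 3 ≤ ‖w₀‖) (h2 : 8 * N₁ ≤ ‖w₀‖) :
    Ap γ N₁ (HN N₁) w₀ := by
  have a : ∀ w ∈ ball w₀ (3 / 2), w ≠ 0 ∧ 4 * N₁ ≤ ‖w‖ := fun w hw =>
    ⟨norm_pos_iff.1 (by linarith [half_le_of_mem h1 hw]), by linarith [half_le_of_mem h1 hw]⟩
  refine ⟨fun w hw => analyticAt_HN _ (a w hw).1 (a w hw).2, fun N hN w hw => ?_⟩
  refine (norm_HN_sub_le hN (a w hw).1 (a w hw).2).trans ?_
  have b := half_le_of_mem h1 hw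
  have g2 : γ ^ 2 ≤ 1 / 4 := by nlinarith
  have c1 : (γ ^ 2 / 2 * ‖w₀‖) ^ N ≤ (3 / 4 * ‖w‖) ^ (N + 1) := by
    rw [pow_succ _ N]
    refine le_trans ?_ (le_mul_of_one_le_right (by positivity) (by linarith))
    gcongr ?_ ^ N
    nlinarith
  have : (2 : ℝ) ≤ CA γ := by
    have : 0 ≤ 2 / γ ^ 2 := by positivity
    unfold CA; linarith
  gcongr

/-- An angular condition. -/
def Ang (γ : ℝ) (e : Bool) (w₀ : ℂ) : Prop := 8 * γ ^ 2 * ‖w₀‖ ≤ ‖w₀‖ + (sg e * w₀).re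

lemma Ang.cone (hγ : 0 < γ) (hγ' : γ ≤ 1 / 2) {e : Bool} (h : Ang γ e w₀) (h1 : 1 ≤ γ ^ 2 * ‖w₀‖)
    {w : ℂ} (hw : w ∈ ball w₀ (3 / 2)) : Cone γ (sg e * w) := by
  refine cone_of_re hγ ?_ (by linarith)
  rw [mem_ball, dist_eq_norm] at hw
  have a1 := norm_sub_norm_le w w₀
  have a2 := norm_sub_norm_le w₀ w
  rw [norm_sub_rev] at a2
  have a3 : (sg e * w₀).re - (sg e * w).re ≤ ‖w - w₀‖ := by
    rw [← sub_re, ← mul_sub, norm_sub_rev]
    exact (re_le_norm _).trans (by rw [norm_mul, norm_sg, one_mul])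
  have g2 : γ ^ 2 ≤ 1 / 4 := by nlinarith
  rw [norm_mul, norm_sg, one_mul]
  unfold Ang at h
  nlinarith [sq_nonneg γ]

lemma Ap_PS (hγ : 0 < γ) (hγ' : γ ≤ 1 / 2) {e : Bool} (h : Ang γ e w₀) (h1 : 1 ≤ γ ^ 2 * ‖w₀‖)
    (h2 : 8 * N₁ ≤ ‖w₀‖) : Ap γ N₁ (PS e 1) w₀ := by
  have g2 : γ ^ 2 ≤ 1 / 4 := by nlinarith
  have h3 : 4 ≤ ‖w₀‖ := by nlinarith [norm_nonneg w₀]
  have a : ∀ w ∈ ball w₀ (3 / 2), ‖w₀‖ / 2 ≤ ‖w‖ := fun w => half_le_of_mem (by linarith)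
  refine ⟨fun w hw => analyticAt_PS _ _ ((h.cone hγ hγ' h1 hw).ar_nonpole hγ
    (norm_pos_iff.1 (by linarith [a w hw]))), fun N hN w hw => ?_⟩
  have hN' : (N : ℝ) ≤ N₁ := by exact_mod_cast hN
  have b := a w hw
  refine (PS_appr hγ hγ' (h.cone hγ hγ' h1 hw) ?_ (by linarith)).trans ?_
  · nlinarith [mul_le_mul_of_nonneg_left b hγ.le, mul_le_mul_of_nonneg_right hγ' hγ.le,
      mul_le_mul_of_nonneg_right (mul_le_mul_of_nonneg_right hγ' hγ.le) (norm_nonneg w₀)]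
  · unfold CA
    gcongr _ * (_ / ?_ ^ N)
    nlinarith [sq_nonneg γ]

lemma mem_ball_shift {β y : ℂ} (hβ : ‖β‖ ≤ 1) (hy : y ∈ ball (0 : ℂ) (4 * (1 / 8))) :
    w₀ + β + y ∈ ball w₀ (3 / 2) := by
  rw [mem_ball_zero_iff] at hy
  rw [mem_ball, dist_eq_norm, add_assoc, add_sub_cancel_left]
  linarith [norm_add_le β y]

lemma Ap.bdd (h : Ap γ N ϕ w₀) {β : ℂ} (hβ : ‖β‖ ≤ 1) :
    Bdd (1 / 8) (CA γ) fun y => ϕ (w₀ + β + y) :=
  ⟨fun y hy => ((h.1 _ (mem_ball_shift hβ hy)).differentiableAt.comp y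
    (by fun_prop)).differentiableWithinAt, fun y hy => by
    simpa [HN] using h.2 0 (Nat.zero_le _) _ (mem_ball_shift hβ hy)⟩

lemma Ap.sub_le (h : Ap γ N ϕ w₀) (h' : Ap γ N ϕ' w₀) {w : ℂ} (hw : w ∈ ball w₀ (3 / 2)) :
    ‖ϕ w - ϕ' w‖ ≤ 2 * CA γ * (N.factorial / (γ ^ 2 / 2 * ‖w₀‖) ^ N) := by
  linarith [norm_sub_le_norm_sub_add_norm_sub (ϕ w) (HN N w) (ϕ' w), h.2 N le_rfl w hw,
    norm_sub_rev (HN N w) (ϕ' w), h'.2 N le_rfl w hw]

lemma Ap.sub_le_exp (hγ : 0 < γ) (h : Ap γ N ϕ w₀) (h' : Ap γ N ϕ' w₀) (h0 : w₀ ≠ 0)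
    (hN : 6 * N ≤ γ ^ 2 * ‖w₀‖) {w : ℂ} (hw : w ∈ ball w₀ (3 / 2)) :
    ‖ϕ w - ϕ' w‖ ≤ 2 * CA γ * Real.exp (-N) := by
  refine (h.sub_le h' hw).trans ?_
  have := CA_pos γ
  have := norm_pos_iff.2 h0
  gcongr
  refine fact_div_le (by positivity) ?_
  nlinarith [Real.exp_one_lt_d9, Nat.cast_nonneg (α := ℝ) N]

section Size

variable {p : Polynomial ℂ}

lemma tendsto_inv_cobounded : Tendsto (fun s : ℂ => s⁻¹) (𝓝[≠] 0) (Bornology.cobounded ℂ) :=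
  tendsto_inv₀_nhdsNE_zero

lemma poly_lead (p : Polynomial ℂ) {δ : ℝ} (hδ : 0 < δ) : ∀ᶠ s in 𝓝[≠] (0 : ℂ),
    ‖p.eval s⁻¹ - p.leadingCoeff * s⁻¹ ^ p.natDegree‖ ≤
      δ * ‖p.leadingCoeff * s⁻¹ ^ p.natDegree‖ :=
  tendsto_inv_cobounded.eventually
    ((Polynomial.isEquivalent_cobounded_leading_monomial (P := p)).isLittleO.bound hδ)

lemma poly_size (hp : p ≠ 0) : ∃ m : ℝ, 0 < m ∧ ∀ᶠ s in 𝓝[≠] (0 : ℂ),
    ∀ k ≤ p.natDegree, m * ‖s‖⁻¹ ^ k ≤ ‖p.eval s⁻¹‖ := by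
  have a0 : 0 < ‖p.leadingCoeff‖ := norm_pos_iff.2 (Polynomial.leadingCoeff_ne_zero.2 hp)
  refine ⟨‖p.leadingCoeff‖ / 2, by positivity, ?_⟩
  filter_upwards [poly_lead p (δ := 1 / 2) (by norm_num), self_mem_nhdsWithin,
    mem_nhdsWithin_of_mem_nhds (closedBall_mem_nhds (0 : ℂ) one_pos)] with s h1 h2 h3 k hk
  have h4 : 1 ≤ ‖s‖⁻¹ := (one_le_inv₀ (norm_pos_iff.2 h2)).2 (mem_closedBall_zero_iff.1 h3)
  have h5 := norm_sub_norm_le (p.leadingCoeff * s⁻¹ ^ p.natDegree) (p.eval s⁻¹)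
  rw [norm_sub_rev] at h5
  rw [norm_mul, norm_pow, norm_inv] at h1 h5
  have h6 := mul_le_mul_of_nonneg_left (pow_le_pow_right₀ h4 hk) a0.le
  linarith

lemma poly_large (hp : p.natDegree ≠ 0) : Tendsto (fun s : ℂ => ‖p.eval s⁻¹‖) (𝓝[≠] 0) atTop :=
  p.tendsto_norm_atTop (Polynomial.natDegree_pos_iff_degree_pos.1 (Nat.pos_of_ne_zero hp))
    (tendsto_norm_atTop_iff_cobounded.2 tendsto_inv_cobounded)

lemma poly_inv_isBigO (hp : p.natDegree ≠ 0) :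
    (fun s : ℂ => (p.eval s⁻¹)⁻¹) =O[𝓝[≠] 0] fun s => s := by
  obtain ⟨m, m0, hm⟩ := poly_size (p := p) (by rintro rfl; simp at hp)
  refine IsBigO.of_bound m⁻¹ ?_
  filter_upwards [hm, self_mem_nhdsWithin] with s h1 h2
  have := norm_pos_iff.2 h2
  have h3 := h1 1 (Nat.pos_of_ne_zero hp)
  rw [norm_inv]
  refine (inv_anti₀ (by positivity) h3).trans_eq ?_
  field_simp

end Size

section Coef

variable {α : Type*} {l : Filter α} {p : Polynomial ℂ} {β : ℂ}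

lemma Ap.isBigO_sub {ϕ ϕ' : α → ℂ → ℂ} {P : α → ℂ} (h : ∀ᶠ a in l, Ap γ N (ϕ a) (P a))
    (h' : ∀ᶠ a in l, Ap γ N (ϕ' a) (P a)) (hβ : ‖β‖ ≤ 1) (k : ℕ) :
    (fun a => iteratedDeriv k (ϕ a) (P a + β) - iteratedDeriv k (ϕ' a) (P a + β)) =O[l]
      fun a => (P a)⁻¹ ^ N := by
  refine IsBigO.of_bound (k.factorial * (2 * CA γ * (N.factorial / (γ ^ 2 / 2) ^ N)) / (1 / 8) ^ k) ?_
  filter_upwards [h, h'] with a h1 h2
  have := (h1.bdd hβ).norm_sub_le (h2.bdd hβ) (by norm_num)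
    (fun z hz => h1.sub_le h2 (mem_ball_shift hβ hz)) k (y := 0) (by simp)
  rw [iteratedDeriv_comp_const_add, iteratedDeriv_comp_const_add] at this
  simp only [add_zero] at this
  refine this.trans_eq ?_
  rw [mul_pow, norm_pow, norm_inv, inv_pow]
  ring

lemma eventually_Ap_HN (hγ : 0 < γ) (hγ' : γ ≤ 1 / 2) (hp : p.natDegree ≠ 0) (N : ℕ) :
    ∀ᶠ s in 𝓝[≠] (0 : ℂ), Ap γ N (HN N) (p.eval s⁻¹) := by
  filter_upwards [(poly_large hp).eventually_ge_atTop 3, (poly_large hp).eventually_ge_atTop (8 * N)]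
    with s h1 h2 using Ap_HN hγ hγ' h1 h2

lemma analyticAt_iteratedDeriv {f : ℂ → ℂ} {z : ℂ} (h : AnalyticAt ℂ f z) (k : ℕ) :
    AnalyticAt ℂ (iteratedDeriv k f) z := by
  rw [iteratedDeriv_eq_iterate]
  exact h.iterated_deriv k

lemma exists_cP (hp : p.natDegree ≠ 0) (hβ : ‖β‖ ≤ 1) (k : ℕ) : ∃ a : PowerSeries ℂ, ∀ N,
    AsyN (𝓝[≠] 0) id N (fun s => iteratedDeriv k (HN N) (p.eval s⁻¹ + β)) a := by
  have t0 : Tendsto id (𝓝[≠] (0 : ℂ)) (𝓝 0) := tendsto_id.mono_left nhdsWithin_le_nhds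
  have hA := eventually_Ap_HN (γ := 1 / 2) (by norm_num) le_rfl hp
  have ex : ∀ N, ∃ a : PowerSeries ℂ, ∀ M,
      AsyN (𝓝[≠] 0) id M (fun s => iteratedDeriv k (HN N) (p.eval s⁻¹ + β)) a := fun N => by
    obtain ⟨R, R0, hR⟩ := Metric.mem_nhdsWithin_iff.1 (hA N)
    have hR' : ∀ s ∈ ball (0 : ℂ) R \ {0}, Ap (1 / 2) N (HN N) (p.eval s⁻¹) := fun s hs => hR hs
    refine exists_asy R0 (C := k.factorial * CA (1 / 2) / (1 / 8) ^ k) (fun s hs => ?_) fun s hs => ?_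
    · refine ((analyticAt_iteratedDeriv ((hR' s hs).1 _ ?_) k).differentiableAt.comp s
        ((p.differentiableAt.comp s (differentiableAt_inv hs.2)).add_const β)).differentiableWithinAt
      simpa using mem_ball_shift (w₀ := p.eval s⁻¹) hβ (mem_ball_self (by norm_num))
    · have := ((hR' s hs).bdd hβ).norm_le (by norm_num) k (y := 0) (by simp)
      rw [iteratedDeriv_comp_const_add] at this
      simpa using this
  choose a ha using ex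
  obtain ⟨b, hb⟩ := exists_limit (a := a) fun N => AsyN.unique t0 self_mem_nhdsWithin (ha (N + 1) N)
    ((ha N N).congr_left ((Ap.isBigO_sub (γ := 1 / 2)
      ((hA (N + 1)).mono fun s h => h.mono N.le_succ) (hA N) hβ k).trans
        ((poly_inv_isBigO hp).pow N)))
  exact ⟨b, fun N => (ha N N).congr_right (hb N)⟩

/-- Formal expansions of the shifted polygamma functions along the polar part of a curve. -/
noncomputable def cP (p : Polynomial ℂ) (β : ℂ) (k : ℕ) : PowerSeries ℂ :=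
  if p.natDegree = 0 then PowerSeries.C (hh k (p.coeff 0 + β)) else Classical.epsilon fun a => ∀ N,
    AsyN (𝓝[≠] 0) id N (fun s => iteratedDeriv k (HN N) (p.eval s⁻¹ + β)) a

lemma cP_spec (hp : p.natDegree ≠ 0) (hβ : ‖β‖ ≤ 1) (k N : ℕ) :
    AsyN (𝓝[≠] 0) id N (fun s => iteratedDeriv k (HN N) (p.eval s⁻¹ + β)) (cP p β k) := by
  rw [cP, if_neg hp]
  exact Classical.epsilon_spec (exists_cP hp hβ k) N

lemma Ap.asyN (hγ : 0 < γ) (hγ' : γ ≤ 1 / 2) (hp : p.natDegree ≠ 0) (hβ : ‖β‖ ≤ 1) {σ : α → ℂ}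
    (hσ : Tendsto σ l (𝓝[≠] 0)) {ϕ : α → ℂ → ℂ} (h : ∀ᶠ a in l, Ap γ N (ϕ a) (p.eval (σ a)⁻¹))
    (k : ℕ) : AsyN l σ N (fun a => iteratedDeriv k (ϕ a) (p.eval (σ a)⁻¹ + β)) (cP p β k) :=
  ((cP_spec hp hβ k N).comp hσ).congr_left ((Ap.isBigO_sub h
    (hσ.eventually (eventually_Ap_HN hγ hγ' hp N)) hβ k).trans
      (((poly_inv_isBigO hp).comp_tendsto hσ).pow N))

end Coef

section Data

variable {ι : Type*}

/-- The data at the parameter `s`. -/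
noncomputable def dat (p : ι → Polynomial ℂ) (cc : ι → ℂ) (ϕ : ι → ℂ → ℂ) (s : ℂ) (j : ι) :
    KK → ℂ → ℂ :=
  Sum.elim (fun β y => ϕ j ((p j).eval s⁻¹ + (β : ℚ) + y))
    ![fun y => y, fun y => s + y, fun y => cexp (cc j * y)]

/-- The formal data. -/
noncomputable def cx (p : ι → Polynomial ℂ) (cc : ι → ℂ) (G : Gen ι KK) : PowerSeries ℂ :=
  Sum.elim (fun β : BB => cP (p G.1) (β : ℚ) G.2.2)
    ![PowerSeries.C (iteratedDeriv G.2.2 (fun y => y) 0),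
      (if G.2.2 = 0 then PowerSeries.X else 0) + PowerSeries.C (iteratedDeriv G.2.2 (fun y => y) 0),
      PowerSeries.C (cc G.1 ^ G.2.2)] G.2.1

/-- Admissible approximants. -/
def Adm (γ : ℝ) (p : ι → Polynomial ℂ) (N : ℕ) (ϕ : ι → ℂ → ℂ) (s : ℂ) : Prop :=
  ∀ j, ((p j).natDegree = 0 → ϕ j = hh 0) ∧
    ((p j).natDegree ≠ 0 → Ap γ N (ϕ j) ((p j).eval s⁻¹))

/-- The finite coordinates lie in the half plane `re ≥ 1`. -/
def FinOK (p : ι → Polynomial ℂ) : Prop := ∀ j, (p j).natDegree = 0 → 1 ≤ ((p j).coeff 0).re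

variable {p : ι → Polynomial ℂ} {cc : ι → ℂ} {ϕ ϕ' : ι → ℂ → ℂ} {s : ℂ}

lemma Adm.mono (h : Adm γ p N₁ ϕ s) (hN : N ≤ N₁) : Adm γ p N ϕ s :=
  fun j => ⟨(h j).1, fun hj => ((h j).2 hj).mono hN⟩

lemma eval_of_natDegree_zero {q : Polynomial ℂ} (h : q.natDegree = 0) (t : ℂ) :
    q.eval t = q.coeff 0 := by
  rw [Polynomial.eq_C_of_natDegree_eq_zero h]; simp

lemma re_shift {c y : ℂ} (hc : 1 ≤ c.re) (β : BB) (hy : y ∈ ball (0 : ℂ) (4 * (1 / 8))) :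
    1 / 2 < (c + (β : ℚ) + y).re := by
  have h1 : (0 : ℝ) ≤ (β : ℚ) := by exact_mod_cast β.2.1
  have h2 := (abs_lt.1 ((abs_re_le_norm y).trans_lt (mem_ball_zero_iff.1 hy))).1
  simp only [add_re, ratCast_re]
  linarith

lemma Adm.analyticAt (hp : FinOK p) (h : Adm γ p N ϕ s) (j : ι) (β : BB) {y : ℂ}
    (hy : y ∈ ball (0 : ℂ) (4 * (1 / 8))) : AnalyticAt ℂ (ϕ j) ((p j).eval s⁻¹ + (β : ℚ) + y) := by
  by_cases hj : (p j).natDegree = 0
  · rw [(h j).1 hj, eval_of_natDegree_zero hj]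
    exact analyticAt_hh 0 (nonpole_of_re (by linarith [re_shift (hp j hj) β hy]))
  · exact ((h j).2 hj).1 _ (mem_ball_shift β.norm_lt.le hy)

lemma Adm.bdd (hp : FinOK p) {c : ℝ} (hc : ∀ j, ‖cc j‖ ≤ c) (hs : ‖s‖ ≤ 1) (h : Adm γ p N ϕ s)
    (j : ι) (κ : KK) : Bdd (1 / 8) (CA γ + Real.exp c) (dat p cc ϕ s j κ) := by
  have h16 : 16 ≤ CA γ := by
    have : 0 ≤ 2 / γ ^ 2 := by positivity
    unfold CA; linarith
  have he := Real.exp_pos c
  rcases κ with β | i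
  · refine ⟨fun y hy => ((h.analyticAt hp j β hy).differentiableAt.comp y
      (by fun_prop)).differentiableWithinAt, fun y hy => ?_⟩
    by_cases hj : (p j).natDegree = 0
    · simp only [dat, Sum.elim_inl, (h j).1 hj, eval_of_natDegree_zero hj]
      refine (norm_hh_le 0 (re_shift (hp j hj) β hy)).trans ?_
      norm_num
      linarith
    · exact ((((h j).2 hj).bdd β.norm_lt.le).2 y hy).trans (by linarith)
  · fin_cases i
    · exact ⟨differentiableOn_id, fun y hy => by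
        simp only [dat, mem_ball_zero_iff] at hy ⊢; simp; linarith⟩
    · refine ⟨by simp only [dat]; simp; fun_prop, fun y hy => ?_⟩
      simp only [dat, mem_ball_zero_iff] at hy ⊢
      simp
      linarith [norm_add_le s y]
    · refine ⟨by simp only [dat]; simp; fun_prop, fun y hy => ?_⟩
      simp only [dat, mem_ball_zero_iff] at hy ⊢
      simp
      refine (norm_exp_le_exp_norm _).trans (le_add_of_nonneg_of_le (by linarith) ?_)
      rw [Real.exp_le_exp, norm_mul]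
      nlinarith [hc j, norm_nonneg (cc j), norm_nonneg y]

lemma iteratedDeriv_hh (k : ℕ) : iteratedDeriv k (hh 0) = hh k := iteratedDeriv_PS true k

lemma Adm.bdD [Finite ι] {α : Type*} {l : Filter α} (hp : FinOK p) {σ : α → ℂ}
    (hσ : Tendsto σ l (𝓝 0)) {ϕ : α → ι → ℂ → ℂ} (h : ∀ᶠ a in l, Adm γ p N (ϕ a) (σ a)) :
    BdD l fun a => dat p cc (ϕ a) (σ a) := by
  obtain ⟨c, hc⟩ := (Set.finite_range fun j => ‖cc j‖).bddAbove
  refine ⟨CA γ + Real.exp c, ?_⟩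
  filter_upwards [h, hσ.norm.eventually_le_const (show ‖(0 : ℂ)‖ < 1 by simp)] with a h1 h2
  exact h1.bdd hp (fun j => hc ⟨j, rfl⟩) h2

theorem Adm.good [Finite ι] {α : Type*} {l : Filter α} (hγ : 0 < γ) (hγ' : γ ≤ 1 / 2)
    (hp : FinOK p) {σ : α → ℂ} (hσ : Tendsto σ l (𝓝[≠] 0)) {ϕ : α → ι → ℂ → ℂ}
    (h : ∀ᶠ a in l, Adm γ p N (ϕ a) (σ a)) :
    Good' l σ (fun a => dat p cc (ϕ a) (σ a)) (cx p cc) N := by
  refine ⟨Adm.bdD hp (hσ.mono_right nhdsWithin_le_nhds) h, ?_⟩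
  rintro ⟨j, β | i, k⟩
  · simp only [dat, cx, Sum.elim_inl, iteratedDeriv_comp_const_add, add_zero]
    by_cases hj : (p j).natDegree = 0
    · rw [cP, if_pos hj]
      refine (AsyN.const l σ N _).congr' (h.mono fun a ha => ?_)
      simp only [(ha j).1 hj, eval_of_natDegree_zero hj, iteratedDeriv_hh]
    · exact Ap.asyN hγ hγ' hj β.norm_lt.le hσ (h.mono fun a ha => (ha j).2 hj) k
  · fin_cases i
    · exact AsyN.const l σ N _
    · simp only [dat, cx]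
      simp
      rcases k with - | k
      · simpa using AsyN.poly l σ N Polynomial.X
      · simpa [iteratedDeriv_succ', deriv_const_add'] using AsyN.const l σ N _
    · simp only [dat, cx]
      simpa [iteratedDeriv_cexp_const_mul] using AsyN.const l σ N (cc j ^ k)

lemma Adm.hol [Fintype ι] (hp : FinOK p) {W : Set ℂ} {σ : ℂ → ℂ} (hσ : DifferentiableOn ℂ σ W)
    (h0 : ∀ τ ∈ W, σ τ ≠ 0) (h : ∀ τ ∈ W, Adm γ p N ϕ (σ τ)) {ξ : ℂ → ι → ℂ}
    (hξ : DifferentiableOn ℂ ξ W) (hb : ∀ τ ∈ W, ‖ξ τ‖ ≤ 1 / 4) (G : Gen ι KK) :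
    DifferentiableOn ℂ (fun τ => iteratedDeriv G.2.2 (dat p cc ϕ (σ τ) G.1 G.2.1) (ξ τ G.1)) W := by
  obtain ⟨j, β | i, k⟩ := G
  · simp only [dat, Sum.elim_inl, iteratedDeriv_comp_const_add]
    intro τ hτ
    refine DifferentiableAt.comp_differentiableWithinAt (g := iteratedDeriv k (ϕ j))
      (f := fun τ => (p j).eval (σ τ)⁻¹ + (β : ℚ) + ξ τ j) τ
      (analyticAt_iteratedDeriv ((h τ hτ).analyticAt hp j β ?_) k).differentiableAt
      ((((p j).differentiableAt.comp_differentiableWithinAt τ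
        ((hσ τ hτ).inv (h0 τ hτ))).add_const _).add (differentiableOn_pi.1 hξ j τ hτ))
    rw [mem_ball_zero_iff]
    linarith [coord_le (hb τ hτ) j]
  · have hj := differentiableOn_pi.1 hξ j
    fin_cases i
    · exact fun τ hτ => (analyticAt_iteratedDeriv analyticAt_id k).differentiableAt.comp_differentiableWithinAt
        τ (hj τ hτ)
    · simp only [dat]
      simp
      rcases k with - | k
      · exact hσ.add hj
      · have : ∀ a : ℂ, deriv (fun y => a + y) = deriv id := fun a => deriv_const_add' a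
        simp only [iteratedDeriv_succ', this]
        exact fun τ hτ => (analyticAt_iteratedDeriv (analyticAt_id.deriv) k).differentiableAt.comp_differentiableWithinAt
          τ (hj τ hτ)
    · simp only [dat]
      simp [iteratedDeriv_cexp_const_mul]
      fun_prop

lemma dat_sub_le {ε : ℝ} (hε : 0 ≤ ε)
    (h : ∀ j, ∀ w ∈ ball ((p j).eval s⁻¹) (3 / 2), ‖ϕ' j w - ϕ j w‖ ≤ ε) (j : ι) (κ : KK) :
    ∀ z ∈ ball (0 : ℂ) (4 * (1 / 8)), ‖dat p cc ϕ' s j κ z - dat p cc ϕ s j κ z‖ ≤ ε := by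
  intro z hz
  rcases κ with β | i
  · exact h j _ (mem_ball_shift β.norm_lt.le hz)
  · simpa [dat] using hε

end Data

end Pool.Agent.P.MP_26ad15_nt
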