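import Pool.Agent.P.MP_26ad15_nt.ASGen
import Pool.Agent.P.MP_26ad15_nt.Germs

/-! Curves through a point along which all its relations persist. -/

namespace Pool.Agent.P.MP_26ad15_nt

open Filter Topology Metric Set

variable {ι K : Type*}

/-- Values of a coordinate at points near which it is constant on the set `V`. -/
def LC (V : Set (ι → ℂ)) (j : ι) : Set ℂ := {w | ∃ z ∈ V, z j = w ∧ ∀ᶠ z' in 𝓝[V] z, z' j = w}

theorem countable_LC [Finite ι] (V : Set (ι → ℂ)) (j : ι) : (LC V j).Countable := by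
  refine Set.PairwiseDisjoint.countable_of_nonempty_interior
    (s := fun w => {z : V | z.1 j = w}) (fun w _ w' _ h => ?_) fun w ⟨z, hz, _, h⟩ => ?_
  · exact Set.disjoint_left.2 fun z h1 h2 => h (h1.symm.trans h2)
  · refine ⟨⟨z, hz⟩, mem_interior_iff_mem_nhds.2 ?_⟩
    rw [nhds_subtype_eq_comap_nhdsWithin]
    exact h.comap _

lemma exists_forall_ne_zero {E : Type*} [NormedAddCommGroup E] [NormedSpace ℂ E] {B : Set E}
    (hB : IsPreconnected B) {h : ι → E → ℂ} (ha : ∀ j, AnalyticOnNhd ℂ (h j) B)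
    (h0 : ∀ j, ¬ EqOn (h j) 0 B) (T : Finset ι) :
    ∀ U : Set E, IsOpen U → U.Nonempty → U ⊆ B → ∃ w ∈ U, ∀ j ∈ T, h j w ≠ 0 := by
  classical
  induction T using Finset.induction_on with
  | empty => exact fun U _ ⟨w, hw⟩ _ => ⟨w, hw, by simp⟩
  | insert a T _ ih =>
    intro U hU ⟨w, hw⟩ hUB
    obtain ⟨w', hw', h'⟩ := ih (U ∩ h a ⁻¹' {0}ᶜ)
      (((ha a).continuousOn.mono hUB).isOpen_inter_preimage hU isOpen_compl_singleton) (by
        by_contra hc
        refine h0 a ((ha a).eqOn_zero_of_preconnected_of_eventuallyEq_zero hB (hUB hw) ?_)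
        filter_upwards [hU.mem_nhds hw] with y hy
        by_contra hy'
        exact hc ⟨y, hy, hy'⟩) (inter_subset_left.trans hUB)
    exact ⟨w', hw'.1, fun j hj => (Finset.mem_insert.1 hj).elim (fun e => e ▸ hw'.2) (h' j)⟩

section

variable {k : Type*} [CommRing k] [Algebra k ℂ] {d : K → ℂ → ℂ}

lemma analyticAt_Ev' {E : Type*} [NormedAddCommGroup E] [NormedSpace ℂ E] {γ : E → ι → ℂ} {t : E}
    (hγ : ∀ j, AnalyticAt ℂ (fun t => γ t j) t) (hd : ∀ j κ, AnalyticAt ℂ (d κ) (γ t j))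
    (g : MvPolynomial (Gen ι K) k) : AnalyticAt ℂ (fun t => Ev k (fun _ => d) (γ t) g) t := by
  refine analyticAt_Ev (d := fun _ _ => d) (fun G => ?_) g
  have : AnalyticAt ℂ (iteratedDeriv G.2.2 (d G.2.1)) (γ t G.1) := by
    rw [iteratedDeriv_eq_iterate]
    exact (hd _ _).iterated_deriv _
  exact AnalyticAt.fun_comp (f := fun t => γ t G.1) this (hγ G.1)

variable [DecidableEq ι] [Fintype ι]

lemma eventually_hasDerivAt_Ev {γ : ℂ → ι → ℂ} {t₀ : ℂ}
    (hγ : ∀ j, AnalyticAt ℂ (fun t => γ t j) t₀) (hd : ∀ j κ, AnalyticAt ℂ (d κ) (γ t₀ j))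
    (g : MvPolynomial (Gen ι K) k) : ∀ᶠ t in 𝓝 t₀, HasDerivAt (fun t => Ev k (fun _ => d) (γ t) g)
      (∑ j, Ev k (fun _ => d) (γ t) (dd j g) * deriv (fun t => γ t j) t) t := by
  induction g using MvPolynomial.induction_on with
  | C c => exact Eventually.of_forall fun t => by simpa [dd_C] using hasDerivAt_const t _
  | add p q hp hq =>
    filter_upwards [hp, hq] with t hp hq
    simpa [add_mul, Finset.sum_add_distrib] using hp.fun_add hq
  | mul_X p G hp =>
    filter_upwards [hp, (hγ G.1).eventually_analyticAt,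
      (hγ G.1).continuousAt.eventually (hd G.1 G.2.1).eventually_analyticAt] with t hp h1 h2
    have := hp.fun_mul ((hasDerivAt_iteratedDeriv h2 G.2.2).comp t h1.differentiableAt.hasDerivAt)
    rw [sum_dd_mul_X]
    simp only [map_mul, Ev_X]
    convert! this using 1
    simp only [nx, Function.comp_apply]
    ring

/-- Relations persist along a curve on which the system `f` moves linearly. -/
lemma eventually_Ev_eq_zero {γ : ℂ → ι → ℂ} (hγ : ∀ j, AnalyticAt ℂ (fun t => γ t j) 0)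
    (hd : ∀ j κ, AnalyticAt ℂ (d κ) (γ 0 j)) {f : ι → MvPolynomial (Gen ι K) k}
    (hdet : Ev k (fun _ => d) (γ 0) (Jm f).det ≠ 0) {c v : ι → ℂ}
    (hlin : ∀ᶠ t in 𝓝 (0 : ℂ), ∀ j, Ev k (fun _ => d) (γ t) (f j) = c j + t * v j)
    (hv : ∀ j, v j ≠ 0 → ∀ g, Ev k (fun _ => d) (γ 0) g = 0 →
      Ev k (fun _ => d) (γ 0) (DJ f j g) = 0)
    (g : MvPolynomial (Gen ι K) k) (hg : Ev k (fun _ => d) (γ 0) g = 0) :
    ∀ᶠ t in 𝓝 (0 : ℂ), Ev k (fun _ => d) (γ t) g = 0 := by
  have ha := analyticAt_Ev' (k := k) hγ hd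
  have hf : ∀ᶠ t in 𝓝 (0 : ℂ), ∀ j, ∑ i, Ev k (fun _ => d) (γ t) (dd i (f j)) *
      deriv (fun t => γ t i) t = v j := by
    rw [eventually_all]
    intro j
    filter_upwards [eventually_hasDerivAt_Ev hγ hd (f j), hlin.eventually_nhds] with t h1 h2
    refine h1.unique (HasDerivAt.congr_of_eventuallyEq ?_ (h2.mono fun t ht => ht j))
    simpa using ((hasDerivAt_id t).mul_const (v j)).const_add (c j)
  have key : ∀ N : ℕ, ∀ g, Ev k (fun _ => d) (γ 0) g = 0 →
      (N : ℕ∞) ≤ analyticOrderAt (fun t => Ev k (fun _ => d) (γ t) g) 0 := by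
    intro N
    induction N with
    | zero => simp
    | succ N ih =>
      intro g hg
      have h1 : ∀ j, ∃ u : ℂ → ℂ, AnalyticAt ℂ u 0 ∧ ∀ᶠ t in 𝓝 (0 : ℂ),
          Ev k (fun _ => d) (γ t) (DJ f j g) * v j = t ^ N * u t := fun j => by
        by_cases hj : v j = 0
        · exact ⟨0, analyticAt_const, by simp [hj]⟩
        · obtain ⟨u, hu, hu'⟩ := (natCast_le_analyticOrderAt (ha _)).1 (ih _ (hv j hj g hg))
          refine ⟨fun t => u t * v j, hu.mul analyticAt_const, hu'.mono fun t ht => ?_⟩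
          rw [ht, sub_zero, smul_eq_mul, mul_assoc]
      choose u hu hu' using h1
      have h2 : (N : ℕ∞) ≤ analyticOrderAt (deriv fun t => Ev k (fun _ => d) (γ t) g) 0 := by
        refine (natCast_le_analyticOrderAt (ha g).deriv).2
          ⟨fun t => (∑ j, u j t) / Ev k (fun _ => d) (γ t) (Jm f).det,
            (Finset.analyticAt_fun_sum _ fun j _ => hu j).div (ha _) hdet, ?_⟩
        filter_upwards [eventually_hasDerivAt_Ev hγ hd g, hf, eventually_all.2 hu',
          (ha (Jm f).det).continuousAt.eventually_ne hdet] with t h3 h4 h5 h6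
        have h7 := cramer_DJ (Ev k (fun _ => d) (γ t)).toRingHom f g
          fun i => deriv (fun t => γ t i) t
        simp only [AlgHom.toRingHom_eq_coe, RingHom.coe_coe, h4, h5] at h7
        rw [h3.deriv, sub_zero, smul_eq_mul, ← mul_div_assoc, eq_div_iff h6, mul_comm, h7,
          Finset.mul_sum]
      have h3 := (ha g).analyticOrderAt_deriv_add_one
      simp only [hg, sub_zero] at h3
      rw [← h3, Nat.cast_succ]
      gcongr
  exact analyticOrderAt_eq_top.1 (ENat.eq_top_iff_forall_ge.2 fun N => key N g hg)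

lemma exists_inverse {z : ι → ℂ} (hz : ∀ j κ, AnalyticAt ℂ (d κ) (z j))
    {f : ι → MvPolynomial (Gen ι K) k} (hdet : Ev k (fun _ => d) z (Jm f).det ≠ 0) :
    ∃ R : (ι → ℂ) → ι → ℂ, AnalyticAt ℂ R (fun i => Ev k (fun _ => d) z (f i)) ∧
      (∀ᶠ y in 𝓝 z, R (fun i => Ev k (fun _ => d) y (f i)) = y) ∧
      ∀ᶠ w in 𝓝 fun i => Ev k (fun _ => d) z (f i), ∀ i, Ev k (fun _ => d) (R w) (f i) = w i := by
  let Φ : (ι → ℂ) → ι → ℂ := fun y i => Ev k (fun _ => d) y (f i)
  have hΦ : AnalyticAt ℂ Φ z := analyticAt_pi_iff.2 fun i => analyticAt_Ev' (γ := fun y => y)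
    (fun j => (ContinuousLinearMap.proj (R := ℂ) (φ := fun _ : ι => ℂ) j).analyticAt z) hz _
  let M : Matrix ι ι ℂ := (Ev k (fun _ => d) z).toRingHom.mapMatrix (Jm f)
  have hM : IsUnit M.det := by
    rw [← RingHom.map_det]
    exact Ne.isUnit hdet
  have : Invertible M := Matrix.invertibleOfIsUnitDet M hM
  let e : (ι → ℂ) ≃L[ℂ] (ι → ℂ) := (M.toLinearEquiv' this).toContinuousLinearEquiv
  have he : fderiv ℂ Φ z = e := by
    ext1 v
    have h1 : HasDerivAt (fun t : ℂ => z + t • v) v 0 := by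
      simpa using ((hasDerivAt_id (0 : ℂ)).smul_const v).const_add z
    have h2 := hΦ.differentiableAt.hasFDerivAt.comp_hasDerivAt_of_eq 0 h1 (by simp)
    funext i
    have h3 := hasDerivAt_Ev (k := k) (d := fun _ => d) (γ := fun t : ℂ => z + t • v) (v := v)
      (hasDerivAt_pi.1 h1) (by simpa using hz) (f i)
    rw [(hasDerivAt_pi.1 h2 i).unique h3]
    change _ = M.mulVec v i
    simp [M, Jm, Matrix.mulVec, dotProduct]
  have hs : HasStrictFDerivAt Φ (e : (ι → ℂ) →L[ℂ] ι → ℂ) z := he ▸ hΦ.hasStrictFDerivAt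
  refine ⟨hs.localInverse Φ e z, (hs.toOpenPartialHomeomorph Φ).analyticAt_symm'
    hs.mem_toOpenPartialHomeomorph_source hΦ he, hs.eventually_left_inverse, ?_⟩
  exact hs.eventually_right_inverse.mono fun w hw i => congrFun hw i

end

theorem exists_curve [Fintype ι] [DecidableEq ι] (k : Subfield ℂ) {d : K → ℂ → ℂ}
    (hd : ∀ κ, Meromorphic (d κ)) {κ₀ : K} (h0 : d κ₀ = id) {z : ι → ℂ}
    (hz : ∀ j κ, AnalyticAt ℂ (d κ) (z j))
    (hk : ∀ (s : Finset (MvPolynomial (Gen ι K) k)) (j : ι),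
      z j ∉ LC {y | ∀ f ∈ s, Ev k (fun _ => d) y f = 0} j) :
    ∃ γ : ℂ → ι → ℂ, γ 0 = z ∧ AnalyticOnNhd ℂ γ (ball 0 1) ∧
      (∀ j, ¬ ∀ t ∈ ball (0 : ℂ) 1, γ t j = z j) ∧
      ∀ g, Ev k (fun _ => d) z g = 0 → ∀ t ∈ ball (0 : ℂ) 1,
        (∀ j κ, AnalyticAt ℂ (d κ) (γ t j)) → Ev k (fun _ => d) (γ t) g = 0 := by
  classical
  obtain ⟨f, -, hdet, hf⟩ := exists_maxRank (Ev k (fun _ => d) z).toRingHom
    (fun i => MvPolynomial.X (i, κ₀, 0)) fun i j => by
      rw [dd_X]
      split_ifs <;> simp [Ev_X, nx, h0]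
  simp only [AlgHom.toRingHom_eq_coe, RingHom.coe_coe] at hdet hf
  obtain ⟨R, hR, hl, hr⟩ := exists_inverse hz hdet
  set c : ι → ℂ := fun i => Ev k (fun _ => d) z (f i) with hc
  let π : (ι → ℂ) → ι → ℂ := fun w i => c i + if c i = 0 then 0 else w i
  have π0 : π 0 = c := by funext i; simp [π]
  have hπ : ∀ w, AnalyticAt ℂ π w := fun w => analyticAt_pi_iff.2 fun i => by
    by_cases h : c i = 0
    · simp only [if_pos h]
      exact analyticAt_const
    · simp only [if_neg h]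
      exact analyticAt_const.add
        ((ContinuousLinearMap.proj (R := ℂ) (φ := fun _ : ι => ℂ) i).analyticAt w)
  have R0 : R (π 0) = z := π0 ▸ hl.self_of_nhds
  obtain ⟨r, r0, hσ⟩ := ((π0 ▸ hR : AnalyticAt ℂ R (π 0)).fun_comp (hπ 0)).exists_ball_analyticOnNhd
  have hσ' : ∀ j, AnalyticOnNhd ℂ (fun w => R (π w) j - z j) (ball 0 r) := fun j w hw =>
    (analyticAt_pi_iff.1 (hσ w hw) j).sub analyticAt_const
  obtain ⟨w, hw, hw'⟩ := exists_forall_ne_zero (convex_ball (0 : ι → ℂ) r).isPreconnected hσ'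
    (fun j h => by
      refine hk ((Finset.univ.filter fun i => c i = 0).image f) j ⟨z, fun g hg => ?_, rfl, ?_⟩
      · obtain ⟨i, hi, rfl⟩ := Finset.mem_image.1 hg
        exact (Finset.mem_filter.1 hi).2
      have h1 : ContinuousAt (fun y i => Ev k (fun _ => d) y (f i) - c i) z :=
        continuousAt_pi.2 fun i => (analyticAt_Ev' (γ := fun y => y) (fun j =>
          (ContinuousLinearMap.proj (R := ℂ) (φ := fun _ : ι => ℂ) j).analyticAt z) hz
          _).continuousAt.sub continuousAt_const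
      have h2 : ball (0 : ι → ℂ) r ∈ 𝓝 fun i => Ev k (fun _ => d) z (f i) - c i := by
        simp only [hc, sub_self]
        exact ball_mem_nhds (0 : ι → ℂ) r0
      filter_upwards [nhdsWithin_le_nhds hl, nhdsWithin_le_nhds (h1 h2), self_mem_nhdsWithin]
        with y h3 h4 h5
      have h6 : π (fun i => Ev k (fun _ => d) y (f i) - c i) =
          fun i => Ev k (fun _ => d) y (f i) := by
        funext i
        by_cases hi : c i = 0
        · simp only [π, hi, if_true, add_zero]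
          exact (h5 _ (Finset.mem_image_of_mem _ (by simpa using hi))).symm
        · simp [π, hi]
      have h7 := h h4
      simp only [h6, Pi.zero_apply, sub_eq_zero] at h7
      rw [← h7, h3])
    Finset.univ (ball 0 (r / 2)) isOpen_ball (nonempty_ball.2 (half_pos r0))
    (ball_subset_ball (half_le_self r0.le))
  have hγ : AnalyticOnNhd ℂ (fun t : ℂ => R (π (t • (2 : ℂ) • w))) (ball 0 1) := fun t ht => by
    refine (hσ _ ?_).fun_comp (analyticAt_id.smul analyticAt_const)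
    rw [mem_ball_zero_iff] at ht hw ⊢
    rw [norm_smul, norm_smul, Complex.norm_two]
    nlinarith [norm_nonneg w]
  have γ0 : R (π ((0 : ℂ) • (2 : ℂ) • w)) = z := by rw [zero_smul, R0]
  have hγ' : ∀ j, AnalyticOnNhd ℂ (fun t : ℂ => R (π (t • (2 : ℂ) • w)) j) (ball 0 1) :=
    fun j t ht => analyticAt_pi_iff.1 (hγ t ht) j
  have b0 : (0 : ℂ) ∈ ball (0 : ℂ) 1 := mem_ball_self one_pos
  refine ⟨_, γ0, hγ, fun j h => hw' j (Finset.mem_univ j) ?_, fun g hg t ht ha => ?_⟩
  · have := h 2⁻¹ (by norm_num)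
    rwa [inv_smul_smul₀ two_ne_zero, ← sub_eq_zero] at this
  have h1 : Tendsto (fun t : ℂ => π (t • (2 : ℂ) • w)) (𝓝 0) (𝓝 c) := by
    have : ContinuousAt (fun t : ℂ => π (t • (2 : ℂ) • w)) 0 :=
      (hπ _).continuousAt.comp' (by fun_prop)
    simpa only [ContinuousAt, zero_smul, π0] using this
  have h2 := eventually_Ev_eq_zero (γ := fun t : ℂ => R (π (t • (2 : ℂ) • w))) (f := f) (c := c)
    (v := fun i => if c i = 0 then 0 else 2 * w i) (fun j => hγ' j 0 b0) (by simpa only [γ0])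
    (by simpa only [γ0]) ((h1.eventually hr).mono fun t ht j => by rw [ht j]; simp [π])
    (fun j hj => by simpa only [γ0] using hf j fun h => hj (if_pos h)) g (by simpa only [γ0])
  have h3 := mero_transfer (convex_ball (0 : ℂ) 1).isPreconnected
    (meromorphicOn_Ev (d := fun _ => d) (fun _ => hd) hγ' g) b0 ht
    (h2.filter_mono nhdsWithin_le_nhds).frequently
  exact tendsto_nhds_unique
    ((analyticAt_Ev' (fun j => hγ' j t ht) ha g).continuousAt.tendsto.mono_left nhdsWithin_le_nhds)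
    (tendsto_const_nhds.congr' (h3.mono fun z hz => hz.symm))

end Pool.Agent.P.MP_26ad15_nt
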