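import Mathlib

/-! Almost independent families: algebraic independence up to a bounded deficiency. -/

namespace Pool.Agent.P.MP_26ad15_nt

open Set MvPolynomial

section Rank

variable (k : Type*) {L L' : Type*} [Field k] [Field L] [Algebra k L] [Field L'] [Algebra k L']

/-- The relative algebraic closure of the field generated by a set. -/
def cl (s : Set L) : IntermediateField k L :=
  (Subalgebra.restrictScalars k (Subalgebra.algebraicClosure (Algebra.adjoin k s) L)).toIntermediateField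
    fun _ hx => IsAlgebraic.inv hx

/-- The rank of a set. -/
noncomputable def rk (s : Set L) : ℕ∞ := (AlgebraicIndependent.matroid k L).eRk s

variable {k}

lemma mem_cl_iff {s : Set L} {y : L} : y ∈ cl k s ↔ IsAlgebraic (Algebra.adjoin k s) y := Iff.rfl

lemma mem_closure_iff_alg {s : Set L} {y : L} :
    y ∈ (AlgebraicIndependent.matroid k L).closure s ↔ IsAlgebraic (Algebra.adjoin k s) y := by
  rw [AlgebraicIndependent.matroid_closure_eq]; rfl

lemma coe_cl (s : Set L) : (cl k s : Set L) = (AlgebraicIndependent.matroid k L).closure s := by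
  ext y; rw [mem_closure_iff_alg]; rfl

lemma subset_cl (s : Set L) : s ⊆ cl k s := by
  rw [coe_cl]; exact Matroid.subset_closure _ _ (by simp)

lemma mem_cl_of_mem {s : Set L} {y : L} (h : y ∈ s) : y ∈ cl k s := subset_cl s h

lemma cl_le_of_subset {s t : Set L} (h : s ⊆ cl k t) : cl k s ≤ cl k t := by
  intro y hy
  have : y ∈ (cl k s : Set L) := hy
  change y ∈ (cl k t : Set L)
  rw [coe_cl] at *
  exact Matroid.closure_subset_closure_of_subset_closure h this

lemma cl_mono {s t : Set L} (h : s ⊆ t) : cl k s ≤ cl k t := cl_le_of_subset (h.trans (subset_cl t))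

lemma rk_le_of_subset_cl {s t : Set L} (h : s ⊆ cl k t) : rk k s ≤ rk k t := by
  rw [coe_cl] at h
  exact ((AlgebraicIndependent.matroid k L).eRk_mono h).trans_eq (Matroid.eRk_closure_eq _ _)

lemma rk_mono {s t : Set L} (h : s ⊆ t) : rk k s ≤ rk k t := Matroid.eRk_mono _ h

lemma rk_union_le (s : Set L) (t : Finset L) : rk k (s ∪ t) ≤ rk k s + t.card := by
  have := (AlgebraicIndependent.matroid k L).eRk_union_le_eRk_add_encard s t
  rwa [encard_coe_eq_coe_finsetCard] at this

lemma rk_le_card (t : Finset L) : rk k (t : Set L) ≤ t.card := by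
  have := (AlgebraicIndependent.matroid k L).eRk_le_encard t
  rwa [encard_coe_eq_coe_finsetCard] at this

variable {ι κ ι' : Type*}

lemma rk_of_indepOn {x : ι → L} {b : Finset ι} (h : AlgebraicIndepOn k x b) :
    rk k (x '' b) = b.card := by
  have h1 : (AlgebraicIndependent.matroid k L).Indep (x '' b) := by
    rw [AlgebraicIndependent.matroid_indep_iff, image_eq_range]
    exact h.to_subtype_range
  have h2 : InjOn x b := fun i hi j hj e =>
    congrArg Subtype.val (h.injective (a₁ := ⟨i, hi⟩) (a₂ := ⟨j, hj⟩) e)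
  rw [rk, h1.eRk_eq_encard, h2.encard_image, encard_coe_eq_coe_finsetCard]

lemma exists_basis (x : ι → L) {s s₀ : Finset ι} (h0 : s₀ ⊆ s) (hi : AlgebraicIndepOn k x s₀) :
    ∃ b : Finset ι, s₀ ⊆ b ∧ b ⊆ s ∧ AlgebraicIndepOn k x b ∧ (∀ i ∈ s, x i ∈ cl k (x '' b)) ∧
      rk k (x '' s) = b.card := by
  classical
  obtain ⟨b, hb, hm⟩ := (s.powerset.filter fun b => s₀ ⊆ b ∧ AlgebraicIndepOn k x b).exists_max_image
    Finset.card ⟨s₀, by simp [h0, hi]⟩
  simp only [Finset.mem_filter, Finset.mem_powerset] at hb hm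
  have h1 : ∀ i ∈ s, x i ∈ cl k (x '' b) := by
    intro i hi'
    by_cases hib : i ∈ b
    · exact mem_cl_of_mem ⟨i, hib, rfl⟩
    · by_contra hc
      have := hm (insert i b) ⟨Finset.insert_subset hi' hb.1, hb.2.1.trans (Finset.subset_insert _ _),
        by rw [Finset.coe_insert]; exact hb.2.2.insert hc⟩
      rw [Finset.card_insert_of_notMem hib] at this
      omega
  refine ⟨b, hb.2.1, hb.1, hb.2.2, h1, ?_⟩
  rw [← rk_of_indepOn hb.2.2]
  exact le_antisymm (rk_le_of_subset_cl (by rintro _ ⟨i, hi, rfl⟩; exact h1 i hi))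
    (rk_mono (image_mono hb.1))

lemma indepOn_empty (x : ι → L) : AlgebraicIndepOn k x (∅ : Finset ι) := by
  have : IsEmpty ((∅ : Finset ι) : Set ι) := by simp
  exact (algebraicIndependent_empty_type_iff).2 (algebraMap k L).injective

variable (k) in
/-- Almost independent families. -/
def AI (x : ι → L) : Prop := ∃ C : ℕ, ∀ s : Finset ι, (s.card : ℕ∞) ≤ rk k (x '' s) + C

lemma AI_iff {x : ι → L} : AI k x ↔
    ∃ C : ℕ, ∀ s : Finset ι, ∃ b ⊆ s, AlgebraicIndepOn k x b ∧ s.card ≤ b.card + C := by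
  refine exists_congr fun C => forall_congr' fun s => ⟨fun h => ?_, ?_⟩
  · obtain ⟨b, -, h1, h2, -, h3⟩ := exists_basis (k := k) x (Finset.empty_subset s) (indepOn_empty x)
    rw [h3] at h
    exact ⟨b, h1, h2, by exact_mod_cast h⟩
  · rintro ⟨b, h1, h2, h3⟩
    refine le_trans ?_ (add_le_add_left (rk_mono (image_mono h1)) _)
    rw [rk_of_indepOn h2]
    exact_mod_cast h3

omit [Algebra k L'] in
lemma AI.of_indepOn {k' : Type*} [Field k'] [Algebra k' L'] {x : ι → L} {y : ι → L'} (hy : AI k' y)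
    (h : ∀ s : Finset ι, AlgebraicIndepOn k' y s → AlgebraicIndepOn k x s) : AI k x := by
  obtain ⟨C, hC⟩ := AI_iff.1 hy
  refine AI_iff.2 ⟨C, fun s => ?_⟩
  obtain ⟨b, h1, h2, h3⟩ := hC s
  exact ⟨b, h1, h b h2, h3⟩

lemma indepOn_of_rel {x : ι → L} {y : ι → L'}
    (h : ∀ P : MvPolynomial ι k, aeval x P = 0 → aeval y P = 0) {s : Set ι}
    (hs : AlgebraicIndepOn k y s) : AlgebraicIndepOn k x s := by
  refine algebraicIndependent_iff.2 fun P hP => algebraicIndependent_iff.1 hs P ?_
  have := h (rename Subtype.val P) (by rwa [aeval_rename])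
  rwa [aeval_rename] at this

lemma AI.of_rel {x : ι → L} {y : ι → L'} (hy : AI k y)
    (h : ∀ P : MvPolynomial ι k, aeval x P = 0 → aeval y P = 0) : AI k x :=
  hy.of_indepOn fun _ => indepOn_of_rel h

lemma AI.restrict {K : Type*} [Field K] [Algebra k K] [Algebra K L] [IsScalarTower k K L]
    {x : ι → L} (h : AI K x) : AI k x :=
  h.of_indepOn fun _ hs => hs.restrictScalars (algebraMap k K).injective

lemma AI.of_isEmpty [IsEmpty ι] (x : ι → L) : AI k x :=
  ⟨0, fun s => by simp [Finset.eq_empty_of_isEmpty s]⟩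

variable (k) in
/-- Domination of a family by another one. -/
def Dom (x : ι → L) (y : κ → L) : Prop := ∃ C : ℕ, ∀ s : Finset ι, ∃ (t : Finset κ) (T : Finset L),
  s.card + T.card ≤ t.card + C ∧ ∀ j ∈ t, y j ∈ cl k (x '' s ∪ T)

lemma Dom.ai {x : ι → L} {y : κ → L} (h : Dom k x y) (hy : AI k y) : AI k x := by
  obtain ⟨C, hC⟩ := h
  obtain ⟨C', hC'⟩ := hy
  refine ⟨C' + C, fun s => ?_⟩
  obtain ⟨t, T, h1, h2⟩ := hC s
  have h3 := (hC' t).trans (add_le_add_left ((rk_le_of_subset_cl (s := y '' t)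
    (by rintro _ ⟨j, hj, rfl⟩; exact h2 j hj)).trans (rk_union_le _ T)) _)
  have h4 : (s.card : ℕ∞) + T.card ≤ t.card + C := by exact_mod_cast h1
  have h5 := h4.trans (add_le_add_left h3 _)
  rw [← ENat.add_le_add_iff_right (k := (T.card : ℕ∞)) (by simp)]
  refine h5.trans_eq ?_
  push_cast
  ring

lemma Dom.trans {x : ι → L} {y : κ → L} {w : ι' → L} (h : Dom k x y) (h' : Dom k y w) :
    Dom k x w := by
  classical
  obtain ⟨C, hC⟩ := h
  obtain ⟨C', hC'⟩ := h'
  refine ⟨C' + C, fun s => ?_⟩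
  obtain ⟨t, T, h1, h2⟩ := hC s
  obtain ⟨u, T', h3, h4⟩ := hC' t
  refine ⟨u, T ∪ T', by have := Finset.card_union_le T T'; omega, fun j hj => ?_⟩
  refine cl_le_of_subset ?_ (h4 j hj)
  rintro _ (⟨i, hi, rfl⟩ | h)
  · exact cl_mono (by rw [Finset.coe_union]; exact union_subset_union_right _ subset_union_left)
      (h2 i hi)
  · exact mem_cl_of_mem (Or.inr (by simp [Finset.mem_coe.1 h]))

lemma Dom.sum {x : ι → L} {y : κ → L} (h : Dom k x y) (w : ι' → L) :
    Dom k (Sum.elim x w) (Sum.elim y w) := by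
  classical
  obtain ⟨C, hC⟩ := h
  refine ⟨C, fun s => ?_⟩
  obtain ⟨t, T, h1, h2⟩ := hC s.toLeft
  refine ⟨t.disjSum s.toRight, T, ?_, ?_⟩
  · rw [Finset.card_disjSum, ← s.card_toLeft_add_card_toRight]; omega
  · rintro (j | j) hj
    · refine cl_mono (union_subset_union_left _ ?_) (h2 j (by simpa using hj))
      rintro _ ⟨i, hi, rfl⟩
      exact ⟨Sum.inl i, by simpa using hi, rfl⟩
    · exact mem_cl_of_mem (Or.inl ⟨Sum.inr j, by simpa using hj, rfl⟩)

lemma Dom.of_inj {x : ι → L} {y : κ → L} {e : ι → κ} (he : Function.Injective e) (T : Finset L)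
    (h : ∀ i, y (e i) ∈ cl k (insert (x i) T)) : Dom k x y := by
  classical
  refine ⟨T.card, fun s => ⟨s.image e, T, by rw [Finset.card_image_of_injective _ he], ?_⟩⟩
  intro j hj
  obtain ⟨i, hi, rfl⟩ := Finset.mem_image.1 hj
  refine cl_mono ?_ (h i)
  rintro _ (rfl | h)
  · exact Or.inl ⟨i, hi, rfl⟩
  · exact Or.inr h

lemma AI.of_inj {x : ι → L} {y : κ → L} (hy : AI k y) {e : ι → κ} (he : Function.Injective e)
    (h : ∀ i, y (e i) = x i) : AI k x :=
  (Dom.of_inj he ∅ fun i => mem_cl_of_mem (by simp [h])).ai hy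

lemma indepOn_cl {y : κ → L} {T : Set L} {n : ℕ} (hT : rk k T ≤ n) (hy : AI k y) :
    AI (cl k T) y := by
  classical
  obtain ⟨C, hC⟩ := hy
  obtain ⟨B, hB⟩ := (AlgebraicIndependent.matroid k L).exists_isBasis T (by simp)
  have hBn : B.encard ≤ n := hB.encard_eq_eRk.trans_le hT
  have hBf : B.Finite := finite_of_encard_le_coe hBn
  have hBT : cl k T = cl k B := le_antisymm (cl_le_of_subset (by rw [coe_cl]; exact hB.subset_closure))
    (cl_mono hB.subset)
  refine AI_iff.2 ⟨C + n, fun s => ?_⟩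
  have hi : AlgebraicIndepOn k (Sum.elim y id) (Finset.disjSum (∅ : Finset κ) hBf.toFinset) := by
    have h1 := AlgebraicIndependent.matroid_indep_iff.1 hB.indep
    have e : ∀ i : (Finset.disjSum (∅ : Finset κ) hBf.toFinset : Set (κ ⊕ L)),
        ∃ c : B, i.1 = Sum.inr c.1 := by
      rintro ⟨j | j, hj⟩
      · simp at hj
      · exact ⟨⟨j, by simpa using hj⟩, rfl⟩
    choose f hf using e
    have := h1.comp f fun i j h => Subtype.ext (by rw [hf, hf, h])
    convert! this using 2 with i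
    rw [hf]; rfl
  obtain ⟨b, h1, h2, h3, -, h4⟩ := exists_basis (Sum.elim y id) (s := s.disjSum hBf.toFinset)
    (Finset.disjSum_mono (Finset.empty_subset s) le_rfl) hi
  have hr : b.toRight = hBf.toFinset := by
    ext c
    exact ⟨fun h => by simpa using h2 (Finset.mem_toRight.1 h),
      fun h => Finset.mem_toRight.2 (h1 (by simpa using h))⟩
  refine ⟨b.toLeft, fun j hj => by simpa using h2 (Finset.mem_toLeft.1 hj), ?_, ?_⟩
  · have h5 : AlgebraicIndependent k (Sum.elim (fun j : b.toLeft => y j) fun c : B => c.1) := by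
      have := h3.comp (Sum.elim (fun j : b.toLeft => ⟨Sum.inl j.1, Finset.mem_toLeft.1 j.2⟩)
        fun c : B => ⟨Sum.inr c.1, Finset.mem_toRight.1 (by rw [hr]; simp)⟩) (by
          rintro (i | i) (j | j) h <;> simp at h
          · exact congrArg _ h
          · exact congrArg _ (Subtype.ext h))
      convert! this using 1
      funext i
      cases i <;> rfl
    have h6 := (AlgebraicIndependent.sumElim_iff.1 h5).2
    rw [Subtype.range_coe] at h6
    rw [hBT]
    exact h6.subalgebraAlgebraicClosure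
  · have h5 := (hC s).trans (add_le_add_left ((rk_mono (t := Sum.elim y id '' (s.disjSum hBf.toFinset))
      (by rintro _ ⟨j, hj, rfl⟩; exact ⟨Sum.inl j, by simpa using hj, rfl⟩)).trans_eq h4) _)
    have h6 : s.card ≤ b.card + C := by exact_mod_cast h5
    have h7 : hBf.toFinset.card ≤ n := by
      rw [← hBf.cast_ncard_eq, Set.ncard_eq_toFinset_card _ hBf] at hBn
      exact_mod_cast hBn
    rw [← b.card_toLeft_add_card_toRight, hr] at h6
    omega

omit [Algebra k L'] in
lemma AI.tower {K : Type*} [Field K] [Algebra K L'] {x : ι → L} {y : κ → L} {y' : κ → L'}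
    (hx : AI k x) (hy : AI K y')
    (h : ∀ b : Finset κ, AlgebraicIndepOn K y' b →
      AlgebraicIndepOn (Algebra.adjoin k (range x)) y b) : AI k (Sum.elim y x) := by
  classical
  obtain ⟨C, hC⟩ := AI_iff.1 hx
  obtain ⟨C', hC'⟩ := AI_iff.1 hy
  refine AI_iff.2 ⟨C + C', fun s => ?_⟩
  obtain ⟨b, h1, h2, h3⟩ := hC s.toRight
  obtain ⟨b', h4, h5, h6⟩ := hC' s.toLeft
  refine ⟨b'.disjSum b, ?_, ?_, ?_⟩
  · rintro (j | j) hj
    · simpa using h4 (by simpa using hj)
    · simpa using h1 (by simpa using hj)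
  · have h7 : AlgebraicIndependent k (Sum.elim (fun j : b' => y j) fun i : b => x i) :=
      h2.sumElim_of_tower (S := Algebra.adjoin k (range x))
        (by rintro _ ⟨i, rfl⟩; exact ⟨⟨_, Algebra.subset_adjoin ⟨i, rfl⟩⟩, rfl⟩) (h b' h5)
    have e : ∀ i : (b'.disjSum b : Set (κ ⊕ ι)), ∃ c : b' ⊕ b,
        i.1 = Sum.map Subtype.val Subtype.val c := by
      rintro ⟨j | j, hj⟩
      · exact ⟨Sum.inl ⟨j, by simpa using hj⟩, rfl⟩
      · exact ⟨Sum.inr ⟨j, by simpa using hj⟩, rfl⟩
    choose f hf using e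
    have := h7.comp f fun i j h => Subtype.ext (by rw [hf, hf, h])
    convert! this using 2 with i
    rw [hf, Function.comp_apply]
    cases f i <;> rfl
  · rw [Finset.card_disjSum, ← s.card_toLeft_add_card_toRight]; omega

lemma exists_countable_coeff [Countable ι] [Algebra ℂ L] (x : ι → L) :
    ∃ S : Set ℂ, S.Countable ∧ ∀ F : Subfield ℂ, S ⊆ F → ∀ s : Finset ι,
      AlgebraicIndepOn F x s → AlgebraicIndepOn ℂ x s := by
  classical
  have : ∀ s : Finset ι, ∃ P : MvPolynomial s ℂ, ¬ AlgebraicIndepOn ℂ x s →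
      P ≠ 0 ∧ aeval (fun i : s => x i) P = 0 := fun s => by
    by_cases h : AlgebraicIndepOn ℂ x s
    · exact ⟨0, fun h' => (h' h).elim⟩
    · rw [AlgebraicIndepOn, algebraicIndependent_iff] at h
      push Not at h
      obtain ⟨P, h1, h2⟩ := h
      exact ⟨P, fun _ => ⟨h2, h1⟩⟩
  choose P hP using this
  refine ⟨⋃ s, ((P s).coeffs : Set ℂ), countable_iUnion fun s => Finset.countable_toSet _,
    fun F hF s hs => ?_⟩
  by_contra hc
  obtain ⟨h1, h2⟩ := hP s hc
  obtain ⟨Q, hQ⟩ := (mem_range_map_iff_coeffs_subset (f := algebraMap F ℂ) (x := P s)).2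
    fun c hc => ⟨⟨c, hF (mem_iUnion.2 ⟨s, hc⟩)⟩, rfl⟩
  rw [← hQ, aeval_map_algebraMap] at h2
  rw [← hQ, algebraicIndependent_iff.1 hs Q h2, map_zero] at h1
  exact h1 rfl

lemma AI.of_countable [Countable ι] [Algebra ℂ L] {x : ι → L}
    (h : ∀ S : Set ℂ, S.Countable → ∃ F : Subfield ℂ, S ⊆ F ∧ AI F x) : AI ℂ x := by
  obtain ⟨S, h1, h2⟩ := exists_countable_coeff x
  obtain ⟨F, h3, h4⟩ := h S h1
  exact h4.of_indepOn (h2 F h3)

lemma deriv_eval₂ {R A : Type*} [CommRing R] [CommRing A] [Algebra k A] (D : Derivation k A A)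
    (f : R →+* A) (hf : ∀ r, D (f r) = 0) (a : A) (Q : Polynomial R) :
    D (Q.eval₂ f a) = Q.derivative.eval₂ f a * D a := by
  induction Q using Polynomial.induction_on' with
  | add p q hp hq => simp [hp, hq, add_mul]
  | monomial n r =>
    rw [Polynomial.eval₂_monomial, Polynomial.derivative_monomial, Polynomial.eval₂_monomial,
      Derivation.leibniz, hf, Derivation.leibniz_pow]
    simp only [smul_eq_mul, nsmul_eq_mul, map_mul, map_natCast]
    ring

lemma exists_min_rel [CharZero k] {x : ι → L} {t : Set ι} {i : ι} (hi : i ∉ t)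
    (h : x i ∈ cl k (x '' t)) : ∃ g : MvPolynomial ι k, aeval x g = 0 ∧ aeval x (pderiv i g) ≠ 0 ∧
      ∀ j, j ≠ i → j ∉ t → pderiv j g = 0 := by
  classical
  have : CharZero L := charZero_of_injective_algebraMap (algebraMap k L).injective
  set φ : MvPolynomial t k →ₐ[k] L := aeval fun j : t => x j with hφ
  have hr : Algebra.adjoin k (x '' t) = φ.range := by
    rw [image_eq_range, Algebra.adjoin_range_eq_range_aeval]
  rw [mem_cl_iff, hr] at h
  have hex : ∃ n, ∃ q : Polynomial φ.range, q ≠ 0 ∧ Polynomial.aeval (x i) q = 0 ∧ q.natDegree = n :=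
    let ⟨q, h1, h2⟩ := h; ⟨_, q, h1, h2, rfl⟩
  obtain ⟨q, h1, h2, h3⟩ := Nat.find_spec hex
  have h4 : q.natDegree ≠ 0 := fun h0 => by
    rw [Polynomial.eq_C_of_natDegree_eq_zero h0] at h1 h2
    rw [Polynomial.aeval_C] at h2
    have h6 : q.coeff 0 = 0 := Subtype.ext h2
    exact h1 (by rw [h6, map_zero])
  have h5 : Polynomial.aeval (x i) q.derivative ≠ 0 := fun h0 => by
    have : CharZero φ.range := charZero_of_injective_algebraMap (algebraMap k φ.range).injective
    have := Nat.find_min' hex ⟨_, fun e => h4 (Polynomial.derivative_eq_zero.1 e),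
      h0, rfl⟩
    have := Polynomial.natDegree_derivative_lt h4
    omega
  obtain ⟨Q, rfl⟩ := Polynomial.map_surjective (φ.rangeRestrict : MvPolynomial t k →+* φ.range)
    φ.rangeRestrict_surjective q
  have key : ∀ Q : Polynomial (MvPolynomial t k),
      aeval x (Q.eval₂ (rename (R := k) (Subtype.val : t → ι) : _ →+* _) (X i)) =
      Polynomial.aeval (x i) (Q.map (φ.rangeRestrict : MvPolynomial t k →+* φ.range)) := fun Q => by
    rw [Polynomial.aeval_def, Polynomial.eval₂_map]
    have := Polynomial.hom_eval₂ Q (rename (R := k) (Subtype.val : t → ι) : _ →+* _)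
      (aeval x : MvPolynomial ι k →ₐ[k] L).toRingHom (X i)
    refine this.trans ?_
    congr 1
    · ext <;> simp [φ]
    · simp
  have hd : ∀ j, j ∉ t → ∀ r : MvPolynomial t k, pderiv j (rename (Subtype.val : t → ι) r) = 0 :=
    fun j hj r => pderiv_eq_zero_of_notMem_vars fun hv => by
      obtain ⟨a, -, ha⟩ := Finset.mem_image.1 (vars_rename _ _ hv)
      exact hj (ha ▸ a.2)
  set ρ : MvPolynomial t k →+* MvPolynomial ι k := ↑(rename (R := k) (Subtype.val : t → ι)) with hρ
  have hd' : ∀ j, j ∉ t → pderiv j (Q.eval₂ ρ (X i)) = Q.derivative.eval₂ ρ (X i) * pderiv j (X i) :=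
    fun j hj => deriv_eval₂ (pderiv j) ρ (hd j hj) _ _
  refine ⟨Q.eval₂ ρ (X i), by rw [key, h2], ?_, fun j hj hjt => ?_⟩
  · rw [hd' i hi, pderiv_X_self, mul_one, key, ← Polynomial.derivative_map]
    exact h5
  · rw [hd' j hjt, pderiv_X_of_ne hj.symm, mul_zero]

lemma AI.of_derivations [CharZero k] {J : Type*} [Fintype J] {x : ι → L} {S : Set ι}
    (δ : J → Derivation k (MvPolynomial ι k) (MvPolynomial ι k))
    (hS : ∀ g : MvPolynomial ι k, aeval x g = 0 → (∀ j, aeval x (δ j g) = 0) →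
      ∀ G ∈ S, aeval x (pderiv G g) = 0)
    (h : AI k fun i : {i // i ∉ S} => x i) : AI k x := by
  classical
  obtain ⟨C, hC⟩ := AI_iff.1 h
  refine AI_iff.2 ⟨C + Fintype.card J, fun s => ?_⟩
  obtain ⟨b₀, h1, h2, h3⟩ := hC (s.subtype fun i => i ∉ S)
  set b₁ := b₀.map (Function.Embedding.subtype _) with hb₁
  have hi : AlgebraicIndepOn k x b₁ := by
    have e : ∀ i : (b₁ : Set ι), ∃ c : b₀, i.1 = c.1.1 := by
      rintro ⟨j, hj⟩
      obtain ⟨c, hc, rfl⟩ := Finset.mem_map.1 hj
      exact ⟨⟨c, hc⟩, rfl⟩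
    choose f hf using e
    have := h2.comp f fun i j h => Subtype.ext (by rw [hf, hf, h])
    convert! this using 2 with i
    rw [hf]; rfl
  obtain ⟨b, h4, h5, h6, h7, -⟩ := exists_basis x (s := b₁ ∪ s.filter (· ∈ S))
    Finset.subset_union_left hi
  set E := s.filter (· ∈ S) \ b with hE
  have hcard : E.card ≤ Fintype.card J := by
    by_contra hc
    have : ∀ G : E, ∃ g : MvPolynomial ι k, aeval x g = 0 ∧ aeval x (pderiv G.1 g) ≠ 0 ∧
        ∀ j, j ≠ G.1 → j ∉ (b : Set ι) → pderiv j g = 0 := fun G =>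
      exists_min_rel (Finset.mem_sdiff.1 G.2).2
        (h7 _ (Finset.mem_union_right _ (Finset.mem_sdiff.1 G.2).1))
    choose g g1 g2 g3 using this
    set φ : MvPolynomial ι k →ₐ[k] L := aeval x with hφ
    have hli : ¬ LinearIndependent φ.range fun G : E => fun j => φ.rangeRestrict (δ j (g G)) := by
      intro hl
      have := hl.fintype_card_le_finrank
      rw [Module.finrank_fintype_fun_eq_card, Fintype.card_coe] at this
      exact hc this
    obtain ⟨a, ha, G₀, hG₀⟩ := Fintype.not_linearIndependent_iff.1 hli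
    choose a' ha' using fun G => φ.rangeRestrict_surjective (a G)
    have hv : ∀ G, φ (a' G) = (a G).1 := fun G => congrArg Subtype.val (ha' G)
    have := hS (∑ G, a' G * g G) (by simp [g1]) (fun j => ?_) G₀.1
      (Finset.mem_filter.1 (Finset.mem_sdiff.1 G₀.2).1).2
    · simp only [map_sum, Derivation.leibniz, smul_eq_mul, map_add, map_mul, g1, zero_mul,
        add_zero] at this
      rw [Finset.sum_eq_single G₀] at this
      · exact hG₀ (Subtype.ext ((hv G₀).symm.trans ((mul_eq_zero.1 this).resolve_right (g2 G₀))))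
      · intro G _ hG
        rw [g3 G G₀.1 (fun e => hG (Subtype.ext e).symm) (Finset.mem_sdiff.1 G₀.2).2]
        simp
      · simp
    · have := congrArg Subtype.val (congrFun ha j)
      simp only [map_sum, Derivation.leibniz, smul_eq_mul, map_add, map_mul, g1, zero_mul,
        add_zero, hv]
      simpa using this
  refine ⟨b, h5.trans (Finset.union_subset ?_ (Finset.filter_subset _ _)), h6, ?_⟩
  · intro i hi
    obtain ⟨c, hc, rfl⟩ := Finset.mem_map.1 hi
    simpa using h1 hc
  · have e1 : (s.filter (· ∈ S)).card + (s.filter (· ∉ S)).card = s.card :=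
      Finset.card_filter_add_card_filter_not _
    have e2 : (s.subtype fun i => i ∉ S).card = (s.filter (· ∉ S)).card := Finset.card_subtype _ _
    have e3 : (s.filter (· ∈ S) ∩ b).card + E.card = (s.filter (· ∈ S)).card :=
      Finset.card_inter_add_card_sdiff _ _
    have e4 : b₁.card + (s.filter (· ∈ S) ∩ b).card ≤ b.card := by
      rw [← Finset.card_union_of_disjoint]
      · exact Finset.card_le_card (Finset.union_subset h4 Finset.inter_subset_right)
      · refine Finset.disjoint_left.2 fun i hi hi' => ?_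
        obtain ⟨c, -, rfl⟩ := Finset.mem_map.1 hi
        exact c.2 (Finset.mem_filter.1 (Finset.mem_inter.1 hi').1).2
    have e5 : b₁.card = b₀.card := Finset.card_map _
    omega

end Rank

end Pool.Agent.P.MP_26ad15_nt
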