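import Pool.Agent.P.MP_26ad15_nt.ASData
import Pool.Agent.P.MP_26ad15_nt.ASRank
import Pool.Agent.P.MP_26ad15_nt.ASKhov

/-! The statements proved by the main induction, and places of the field of germs. -/

namespace Pool.Agent.P.MP_26ad15_nt

open Complex Set Filter Topology Asymptotics

section Statements

variable {ι : Type}

/-- No coordinate is a rational affine function of another one. -/
def HQ {L : Type*} [Field L] (z : ι → L) : Prop :=
  ∀ i j, i ≠ j → ∀ a b : ℚ, z i ≠ a * z j + b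

/-- The values of the shifted polygamma functions. -/
noncomputable def fam (z : ι → ℂ) (G : Gen ι BB) : ℂ := hh G.2.2 (z G.1 + (G.2.1 : ℚ))

/-- The functions whose isolated values are put in a closed field. -/
noncomputable def dK : BB ⊕ Bool → ℂ → ℂ :=
  Sum.elim (fun β y => hh 0 (y + (β : ℚ))) fun e => if e then Gamma else id

/-- Closed countable subfields. -/
structure Closed (k : Subfield ℂ) : Prop where
  count : (k : Set ℂ).Countable
  pi : (2 * Real.pi * I : ℂ) ∈ k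
  root : ∀ q : ℚ, cexp (2 * Real.pi * I * q) ∈ k
  coef : ∀ (β : BB) (l m : ℕ), PowerSeries.coeff m (cP Polynomial.X (β : ℚ) l) ∈ k
  val : ∀ c ∈ k, ∀ l, hh l c ∈ k
  gam : ∀ c ∈ k, ∀ l, iteratedDeriv l Gamma c ∈ k
  lc : ∀ (n : ℕ) (s : Finset (MvPolynomial (Gen (Fin n) (BB ⊕ Bool)) k)) (j : Fin n),
    LC {y | ∀ f ∈ s, Ev k (fun _ => dK) y f = 0} j ⊆ k

/-- The statement for complex points. -/
def SAS (n : ℕ) : Prop := ∀ (ι : Type) [Fintype ι], Fintype.card ι = n → ∀ k : Subfield ℂ,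
  Closed k → ∀ z : ι → ℂ, (∀ j, z j ∉ k) → HQ z → AI k (fam z)

/-- Formal curves `p j (1 / s) + x j (s)`. -/
structure Curve (p : ι → Polynomial ℂ) (x : ι → PowerSeries ℂ) : Prop where
  fin : FinOK p
  dvd : ∀ j, PowerSeries.X ∣ x j
  nc : ∀ j, (p j).natDegree ≠ 0 ∨ x j ≠ 0
  hq : ∀ i j, i ≠ j → ∀ a b : ℚ,
    ¬ (p i = Polynomial.C (a : ℂ) * p j + Polynomial.C (b : ℂ) ∧
      x i = PowerSeries.C (a : ℂ) * x j)

/-- Expansions of the shifted polygamma functions along the polar part. -/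
noncomputable def cB (p : ι → Polynomial ℂ) (G : Gen ι BB) : PowerSeries ℂ :=
  cP (p G.1) (G.2.1 : ℚ) G.2.2

/-- Expansions of the shifted polygamma functions along a formal curve. -/
noncomputable def ffam (p : ι → Polynomial ℂ) (x : ι → PowerSeries ℂ) (G : Gen ι BB) :
    PowerSeries ℂ := FP (cB p) x (MvPolynomial.X G)

/-- The inclusion of the polygamma generators. -/
def inB : Gen ι BB → Gen ι KK := Prod.map id (Prod.map Sum.inl id)

lemma FP_rename (p : ι → Polynomial ℂ) (cc : ι → ℂ) (x : ι → PowerSeries ℂ)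
    (g : MvPolynomial (Gen ι BB) ℂ) :
    FP (cx p cc) x (MvPolynomial.rename inB g) = MvPolynomial.aeval (ffam p x) g := by
  rw [FP, MvPolynomial.aeval_rename]
  congr 2
  funext G
  exact (MvPolynomial.aeval_X (R := ℂ) (fun G => ev (cf ℂ (cB p) G) (x G.1)) G).symm

/-- Formal curves which are isolated solutions of a square system. -/
structure Iso [Fintype ι] [DecidableEq ι] (p : ι → Polynomial ℂ) (cc : ι → ℂ)
    (x : ι → PowerSeries ℂ) (f : ι → MvPolynomial (Gen ι KK) ℂ) (ν : ℕ) (u : PowerSeries ℂ) :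
    Prop where
  fin : FinOK p
  dvd : ∀ j, PowerSeries.X ∣ x j
  zero : ∀ i, FP (cx p cc) x (f i) = 0
  det : FP (cx p cc) x (Jm f).det = PowerSeries.X ^ ν * u
  unit : IsUnit u

/-- Formal Laurent series. -/
abbrev LL := FractionRing (PowerSeries ℂ)

/-- The conclusion for formal curves. -/
def FAI (p : ι → Polynomial ℂ) (x : ι → PowerSeries ℂ) : Prop :=
  AI ℂ fun G => algebraMap (PowerSeries ℂ) LL (ffam p x G)

/-- The statement for formal curves. -/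
def FAS (n : ℕ) : Prop := ∀ (ι : Type) [Fintype ι], Fintype.card ι = n →
  ∀ (p : ι → Polynomial ℂ) (x : ι → PowerSeries ℂ), Curve p x → FAI p x

/-- The statement for formal curves with a pole. -/
def FPol (n : ℕ) : Prop := ∀ (ι : Type) [Fintype ι], Fintype.card ι = n →
  ∀ (p : ι → Polynomial ℂ) (x : ι → PowerSeries ℂ), Curve p x → (∃ j, (p j).natDegree ≠ 0) →
    FAI p x

end Statements

section Places

variable {α : Type} (𝒰 : Ultrafilter α)

/-- Bounded germs. -/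
def FinV : ValuationSubring (GF 𝒰) where
  carrier := {x | ∃ f : α → ℂ, gm 𝒰 f = x ∧ f =O[𝒰] fun _ => (1 : ℝ)}
  mul_mem' := by
    rintro _ _ ⟨f, rfl, hf⟩ ⟨g, rfl, hg⟩
    exact ⟨f * g, map_mul _ _ _, by simpa using hf.mul hg⟩
  one_mem' := ⟨1, map_one _, isBigO_const_const (1 : ℂ) one_ne_zero _⟩
  add_mem' := by
    rintro _ _ ⟨f, rfl, hf⟩ ⟨g, rfl, hg⟩
    exact ⟨f + g, map_add _ _ _, hf.add hg⟩
  zero_mem' := ⟨0, map_zero _, isBigO_zero _ _⟩
  neg_mem' := by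
    rintro _ ⟨f, rfl, hf⟩
    exact ⟨-f, map_neg _ _, hf.neg_left⟩
  mem_or_inv_mem' x := by
    obtain ⟨f, rfl⟩ := gm_surjective x
    rcases 𝒰.em fun a => ‖f a‖ ≤ 1 with h | h
    · exact Or.inl ⟨f, rfl, IsBigO.of_bound' (by simpa using h)⟩
    · refine Or.inr ⟨f⁻¹, rfl, IsBigO.of_bound' (h.mono fun a ha => ?_)⟩
      simpa using inv_le_one_of_one_le₀ (not_le.1 ha).le

/-- Valuation rings containing the bounded germs. -/
def Plc := {O : ValuationSubring (GF 𝒰) // FinV 𝒰 ≤ O}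

variable {𝒰}

lemma gm_mem_FinV {f : α → ℂ} : gm 𝒰 f ∈ FinV 𝒰 ↔ f =O[𝒰] fun _ => (1 : ℝ) :=
  ⟨fun ⟨_, hg, h⟩ => h.congr' (gm_eq_iff.1 hg) EventuallyEq.rfl, fun h => ⟨f, rfl, h⟩⟩

lemma gm_div_mem_FinV {f g : α → ℂ} (h : f =O[𝒰] g) : gm 𝒰 f / gm 𝒰 g ∈ FinV 𝒰 := by
  rw [← gm_div, gm_mem_FinV]
  obtain ⟨C, C0, hC⟩ := h.exists_nonneg
  refine IsBigO.of_bound C (hC.bound.mono fun a ha => ?_)
  rw [Pi.div_apply, norm_div, norm_one, mul_one]
  exact div_le_of_le_mul₀ (norm_nonneg _) C0 ha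

lemma const_mem_FinV (c : ℂ) : algebraMap ℂ (GF 𝒰) c ∈ FinV 𝒰 :=
  gm_mem_FinV.2 (isBigO_const_const c (one_ne_zero (α := ℝ)) _)

lemma gm_mem_nonunits {f : α → ℂ} : gm 𝒰 f ∈ (FinV 𝒰).nonunits ↔ Tendsto f 𝒰 (𝓝 0) := by
  rw [ValuationSubring.mem_nonunits_iff_or, gm_eq_zero_iff, ← gm_inv, gm_mem_FinV]
  constructor
  · rintro (h | h)
    · exact tendsto_const_nhds.congr' (h.mono fun _ h => h.symm)
    · refine Metric.tendsto_nhds.2 fun ε hε => ?_
      by_contra hc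
      refine h (IsBigO.of_bound ε⁻¹ ((Ultrafilter.eventually_not.2 hc).mono fun a ha => ?_))
      simpa using inv_anti₀ hε (by simpa using ha)
  · intro h
    rcases 𝒰.em fun a => f a = 0 with h0 | h0
    · exact Or.inl h0
    · refine Or.inr fun hb => ?_
      have := (hb.mul_isLittleO ((isLittleO_one_iff ℝ).2 h)).congr' (f₂ := fun _ => (1 : ℂ))
        (h0.mono fun a ha => inv_mul_cancel₀ ha) EventuallyEq.rfl
      simp only [mul_one, isLittleO_one_iff] at this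
      exact one_ne_zero (tendsto_nhds_unique tendsto_const_nhds this)

lemma gm_mem_FinV_iff {f : α → ℂ} : gm 𝒰 f ∈ FinV 𝒰 ↔ ∃ c, Tendsto f 𝒰 (𝓝 c) := by
  refine gm_mem_FinV.trans ⟨fun h => ?_, fun ⟨c, h⟩ => h.isBigO_one ℝ⟩
  obtain ⟨C, hC⟩ := h.bound
  obtain ⟨c, -, hc⟩ := (isCompact_closedBall (0 : ℂ) C).ultrafilter_le_nhds (𝒰.map f)
    (le_principal_iff.2 (hC.mono fun a ha => by simpa using ha))
  exact ⟨c, hc⟩

/-- The residue field of a place. -/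
def RF (O : Plc 𝒰) : Type := IsLocalRing.ResidueField O.1

noncomputable instance (O : Plc 𝒰) : Field (RF O) :=
  inferInstanceAs (Field (IsLocalRing.ResidueField O.1))

/-- The residue map. -/
noncomputable def res (O : Plc 𝒰) : O.1 →+* RF O := IsLocalRing.residue O.1

noncomputable instance (O : Plc 𝒰) : Algebra ℂ (RF O) :=
  ((res O).comp ((algebraMap ℂ (GF 𝒰)).codRestrict O.1 fun c => O.2 (const_mem_FinV c))).toAlgebra

instance (O : Plc 𝒰) : CharZero (RF O) :=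
  charZero_of_injective_algebraMap (algebraMap ℂ (RF O)).injective

open Classical in
/-- The place, with value zero outside the valuation ring. -/
noncomputable def pl (O : Plc 𝒰) (x : GF 𝒰) : RF O := if h : x ∈ O.1 then res O ⟨x, h⟩ else 0

variable {O : Plc 𝒰} {x y : GF 𝒰}

lemma pl_of_mem (h : x ∈ O.1) : pl O x = res O ⟨x, h⟩ := dif_pos h

lemma pl_of_notMem (h : x ∉ O.1) : pl O x = 0 := dif_neg h

lemma Plc.const_mem (O : Plc 𝒰) (c : ℂ) : algebraMap ℂ (GF 𝒰) c ∈ O.1 := O.2 (const_mem_FinV c)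

lemma pl_const (c : ℂ) : pl O (algebraMap ℂ (GF 𝒰) c) = algebraMap ℂ (RF O) c :=
  pl_of_mem (O.const_mem c)

lemma pl_add (hx : x ∈ O.1) (hy : y ∈ O.1) : pl O (x + y) = pl O x + pl O y := by
  rw [pl_of_mem hx, pl_of_mem hy, pl_of_mem (add_mem hx hy), ← map_add]; rfl

lemma pl_sub (hx : x ∈ O.1) (hy : y ∈ O.1) : pl O (x - y) = pl O x - pl O y := by
  rw [pl_of_mem hx, pl_of_mem hy, pl_of_mem (sub_mem hx hy), ← map_sub]; rfl

lemma pl_mul (hx : x ∈ O.1) (hy : y ∈ O.1) : pl O (x * y) = pl O x * pl O y := by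
  rw [pl_of_mem hx, pl_of_mem hy, pl_of_mem (mul_mem hx hy), ← map_mul]; rfl

lemma pl_pow (hx : x ∈ O.1) (n : ℕ) : pl O (x ^ n) = pl O x ^ n := by
  rw [pl_of_mem hx, pl_of_mem (pow_mem hx n), ← map_pow]; rfl

lemma pl_ratCast (q : ℚ) : pl O (q : GF 𝒰) = q := by
  simpa using pl_const (O := O) (q : ℂ)

lemma pl_sum {σ : Type*} (s : Finset σ) {x : σ → GF 𝒰} (h : ∀ i ∈ s, x i ∈ O.1) :
    pl O (∑ i ∈ s, x i) = ∑ i ∈ s, pl O (x i) := by
  classical
  induction s using Finset.induction_on with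
  | empty => simpa using pl_const (O := O) 0
  | insert i s hi ih =>
    rw [Finset.sum_insert hi, Finset.sum_insert hi, pl_add (h i (by simp))
      (sum_mem fun j hj => h j (by simp [hj])), ih fun j hj => h j (by simp [hj])]

lemma pl_eq_zero_iff (hx : x ∈ O.1) : pl O x = 0 ↔ x ∈ O.1.nonunits := by
  rw [pl_of_mem hx]
  exact (IsLocalRing.residue_eq_zero_iff _).trans
    (ValuationSubring.coe_mem_nonunits_iff (a := ⟨x, hx⟩)).symm

lemma pl_eq_iff (hx : x ∈ O.1) (hy : y ∈ O.1) : pl O x = pl O y ↔ x - y ∈ O.1.nonunits := by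
  rw [← pl_eq_zero_iff (sub_mem hx hy), pl_sub hx hy, sub_eq_zero]

lemma inv_mem_of_pl_ne (h : pl O x ≠ 0) : x ∈ O.1 ∧ x⁻¹ ∈ O.1 ∧ pl O x⁻¹ = (pl O x)⁻¹ := by
  have hx : x ∈ O.1 := by_contra fun hx => h (pl_of_notMem hx)
  have h1 := mt (pl_eq_zero_iff hx).2 h
  rw [ValuationSubring.mem_nonunits_iff_or, not_or, not_not] at h1
  refine ⟨hx, h1.2, eq_inv_of_mul_eq_one_left ?_⟩
  rw [← pl_mul h1.2 hx, inv_mul_cancel₀ h1.1]
  simpa using pl_const (O := O) 1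

lemma pl_aeval {σ : Type*} {k : Subfield ℂ} {x : σ → GF 𝒰} (h : ∀ i, x i ∈ O.1)
    (P : MvPolynomial σ k) : MvPolynomial.aeval x P ∈ O.1 ∧
      pl O (MvPolynomial.aeval x P) = MvPolynomial.aeval (fun i => pl O (x i)) P := by
  induction P using MvPolynomial.induction_on with
  | C c => simpa using ⟨O.const_mem c, pl_const (c : ℂ)⟩
  | add p q hp hq => simpa [pl_add hp.1 hq.1, hp.2, hq.2] using add_mem hp.1 hq.1
  | mul_X p i hp => simpa [pl_mul hp.1 (h i), hp.2] using mul_mem hp.1 (h i)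

lemma AI.of_le {σ : Type*} {k : Subfield ℂ} {O' : Plc 𝒰} (hO : O.1 ≤ O'.1) {x : σ → GF 𝒰}
    (h : ∀ i, x i ∈ O.1) (H : AI k fun i => pl O (x i)) : AI k fun i => pl O' (x i) :=
  H.of_rel fun P hP => by
    rw [← (pl_aeval (fun i => hO (h i)) P).2, pl_eq_zero_iff (pl_aeval (fun i => hO (h i)) P).1] at hP
    rw [← (pl_aeval h P).2, pl_eq_zero_iff (pl_aeval h P).1]
    exact ValuationSubring.nonunits_le_nonunits.2 hO hP

variable {ι : Type}

variable (𝒰) in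
/-- Irrational points of the half plane `re ≥ 1`. -/
def GOOD (z : α → ℂ) : Prop := ∀ᶠ a in (𝒰 : Filter α), 1 ≤ (z a).re ∧ ∀ q : ℚ, z a ≠ q

variable (𝒰) in
/-- Germs of the values of the shifted polygamma functions. -/
noncomputable def gfam (z : ι → α → ℂ) (G : Gen ι BB) : GF 𝒰 :=
  gm 𝒰 fun a => fam (fun j => z j a) G

lemma GOOD.gfam_mem {z : ι → α → ℂ} {G : Gen ι BB} (h : GOOD 𝒰 (z G.1)) : gfam 𝒰 z G ∈ FinV 𝒰 :=
  gm_mem_FinV.2 (IsBigO.of_bound ((G.2.2 + 1).factorial / (1 / 2) ^ (G.2.2 + 2) * 2)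
    (h.mono fun a ha => by
      simpa [fam] using norm_hh_le G.2.2 (re_shift ha.1 G.2.1 (Metric.mem_ball_self (by norm_num)))))

/-- The hypotheses on a point with coordinates in the field of germs. -/
structure Gen' (k : Subfield ℂ) (O : Plc 𝒰) (z : ι → α → ℂ) : Prop where
  good : ∀ j, GOOD 𝒰 (z j)
  mem : ∀ j, gm 𝒰 (z j) ∈ O.1
  nc : ∀ j, ∀ c ∈ k, pl O (gm 𝒰 (z j)) ≠ algebraMap ℂ (RF O) c
  hq : HQ fun j => pl O (gm 𝒰 (z j))

variable (𝒰) in
/-- Coordinates which degenerate at the scale `ρ`. -/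
def Deg (k : Subfield ℂ) (ρ : GF 𝒰) (z : α → ℂ) : Prop :=
  (∃ m : ℕ, (gm 𝒰 z)⁻¹ ^ m / ρ ∈ FinV 𝒰) ∨
    ∃ c ∈ k, ∃ m : ℕ, (gm 𝒰 z - algebraMap ℂ (GF 𝒰) c) ^ m / ρ ∈ FinV 𝒰

/-- The statement for places. -/
def NAS (n : ℕ) : Prop := ∀ (ι : Type) [Fintype ι], Fintype.card ι = n → ∀ k : Subfield ℂ,
  Closed k → ∀ (α : Type) (𝒰 : Ultrafilter α) (O : Plc 𝒰) (z : ι → α → ℂ), Gen' k O z →
    AI k fun G => pl O (gfam 𝒰 z G)

variable (𝒰) in
/-- The limit exists and satisfies the hypotheses. -/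
def Std (k : Subfield ℂ) (z : ι → α → ℂ) : Prop :=
  ∃ w : ι → ℂ, (∀ j, Tendsto (z j) 𝒰 (𝓝 (w j))) ∧ (∀ j, w j ∉ k) ∧ HQ w

/-- The statement for places, when the limit degenerates but some coordinate stays away from `k`. -/
def NAS' (n : ℕ) : Prop := ∀ (ι : Type) [Fintype ι], Fintype.card ι = n → ∀ k : Subfield ℂ,
  Closed k → ∀ (α : Type) (𝒰 : Ultrafilter α) (O : Plc 𝒰) (z : ι → α → ℂ), Gen' k O z →
    (∃ j, ∀ c ∈ k, ¬ Tendsto (z j) 𝒰 (𝓝 c)) → ¬ Std 𝒰 k z → AI k fun G => pl O (gfam 𝒰 z G)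

end Places

end Pool.Agent.P.MP_26ad15_nt
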