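import Pool.Agent.P.MP_26ad15_nt.ASForm

/-! Evaluation of formal expressions along a filter. -/

namespace Pool.Agent.P.MP_26ad15_nt

open Complex Set Filter Topology Asymptotics Metric MvPolynomial Matrix

variable {ι K α : Type*}

/-- Evaluation along a family of data. -/
noncomputable def EvF (d : α → ι → K → ℂ → ℂ) (ξ : α → ι → ℂ) :
    MvPolynomial (Gen ι K) ℂ →ₐ[ℂ] (α → ℂ) :=
  AlgHom.pi fun a => Ev ℂ (d a) (ξ a)

lemma EvF_apply (d : α → ι → K → ℂ → ℂ) (ξ : α → ι → ℂ) (g : MvPolynomial (Gen ι K) ℂ) (a : α) :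
    EvF d ξ g a = Ev ℂ (d a) (ξ a) g := rfl

/-- Uniformly bounded data. -/
def BdD (l : Filter α) (d : α → ι → K → ℂ → ℂ) : Prop :=
  ∃ C, ∀ᶠ a in l, ∀ j κ, Bdd (1 / 8) C (d a j κ)

/-- Functions dominated by a monomial in two weights. -/
def OV (l : Filter α) (w₁ w₂ : α → ℝ) (p : ℕ × ℕ) : AddSubgroup (α → ℂ) where
  carrier := {F | F =O[l] fun a => w₁ a ^ p.1 * w₂ a ^ p.2}
  add_mem' := fun h h' => IsBigO.add h h'
  zero_mem' := isBigO_zero _ _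
  neg_mem' := fun h => IsBigO.neg_left h

lemma mem_OV {l : Filter α} {w₁ w₂ : α → ℝ} {p : ℕ × ℕ} {F : α → ℂ} :
    F ∈ OV l w₁ w₂ p ↔ F =O[l] fun a => w₁ a ^ p.1 * w₂ a ^ p.2 := Iff.rfl

lemma OV_mul {l : Filter α} {w₁ w₂ : α → ℝ} {p q : ℕ × ℕ} {F G : α → ℂ} (hF : F ∈ OV l w₁ w₂ p)
    (hG : G ∈ OV l w₁ w₂ q) : F * G ∈ OV l w₁ w₂ (p + q) :=
  (IsBigO.mul hF hG).congr_right fun a => by simp only [Prod.fst_add, Prod.snd_add]; ring

variable [Fintype ι] {l : Filter α} {d d' : α → ι → K → ℂ → ℂ} {ξ ξ' ξ₀ : α → ι → ℂ}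
  {w w₁ w₂ : α → ℝ}

omit [Fintype ι] in
lemma BdD.comp {β : Type*} {l' : Filter β} {k : β → α} (h : BdD l d) (hk : Tendsto k l' l) :
    BdD l' fun b => d (k b) :=
  let ⟨C, hC⟩ := h
  ⟨C, hk.eventually hC⟩

lemma coord_le {v : ι → ℂ} (h : ‖v‖ ≤ 1 / 4) (j : ι) : ‖v j‖ ≤ 2 * (1 / 8) :=
  (norm_le_pi_norm v j).trans (by linarith)

lemma Ev_isBigO_one (hd : BdD l d) (hξ : ∀ᶠ a in l, ‖ξ a‖ ≤ 1 / 4) (g : MvPolynomial (Gen ι K) ℂ) :
    EvF d ξ g =O[l] fun _ => (1 : ℝ) := by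
  obtain ⟨C, hC⟩ := hd
  have := filt_zero (V := OV l (fun _ => 1) fun _ => 1) OV_mul (Ψ := EvF d ξ)
    (fun c => by simpa [mem_OV] using isBigO_const_const c (one_ne_zero (α := ℝ)) l) (fun G => ?_) g
  · simpa [mem_OV] using this
  · refine IsBigO.of_bound (G.2.2.factorial * C / (1 / 8) ^ G.2.2) ?_
    filter_upwards [hC, hξ] with a h1 h2
    simpa [EvF_apply, Ev_X] using (h1 G.1 G.2.1).norm_le (by norm_num) G.2.2 (coord_le h2 G.1)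

lemma Ev_mem_zero (hd : BdD l d) (hξ : ∀ᶠ a in l, ‖ξ a‖ ≤ 1 / 4) (g : MvPolynomial (Gen ι K) ℂ) :
    EvF d ξ g ∈ OV l w₁ w₂ 0 := by
  simpa [mem_OV] using Ev_isBigO_one hd hξ g

lemma taylor_isBigO (hd : BdD l d) (hξ : ∀ᶠ a in l, ‖ξ a‖ ≤ 1 / 4) (hξ' : ∀ᶠ a in l, ‖ξ' a‖ ≤ 1 / 4)
    (G : Gen ι K) (N : ℕ) : (fun a => EvF d ξ' (X G) a - ∑ m ∈ Finset.range N,
      EvF d ξ (X (G.1, G.2.1, G.2.2 + m)) a * ((ξ' a G.1 - ξ a G.1) ^ m / m.factorial)) =O[l]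
      fun a => (ξ' a G.1 - ξ a G.1) ^ N := by
  obtain ⟨C, hC⟩ := hd
  refine IsBigO.of_bound ((G.2.2 + N).factorial * C / (1 / 8) ^ (G.2.2 + N)) ?_
  filter_upwards [hC, hξ, hξ'] with a h1 h2 h3
  have := (h1 G.1 G.2.1).taylor (by norm_num) (coord_le h2 G.1) N G.2.2 (ξ' a G.1 - ξ a G.1)
    (by simpa using coord_le h3 G.1)
  simpa only [EvF_apply, Ev_X, add_sub_cancel, norm_pow] using this

lemma coord_isBigO {v : α → ι → ℂ} (h : v =O[l] w) (j : ι) : (fun a => v a j) =O[l] w :=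
  isBigO_pi.1 h j

lemma Ev_sub_isBigO (hd : BdD l d) (hd' : BdD l d') (hξ : ∀ᶠ a in l, ‖ξ a‖ ≤ 1 / 4)
    (hξ' : ∀ᶠ a in l, ‖ξ' a‖ ≤ 1 / 4) (h1 : (fun a => ξ' a - ξ a) =O[l] w) {ε : α → ℝ}
    (h2 : ∀ᶠ a in l, ∀ j κ, ∀ z ∈ ball (0 : ℂ) (4 * (1 / 8)), ‖d' a j κ z - d a j κ z‖ ≤ ε a)
    (h3 : ε =O[l] w) (g : MvPolynomial (Gen ι K) ℂ) : (EvF d' ξ' g - EvF d ξ g) =O[l] w := by
  have := filt_sub (V := OV l w fun _ => 1) OV_mul (Ev_mem_zero hd' hξ') (Ev_mem_zero hd hξ)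
    (a := (1, 0)) (fun G => ?_) g
  · simpa [mem_OV] using this
  · have e1 := taylor_isBigO hd hξ hξ' G 1
    simp only [Finset.range_one, Finset.sum_singleton, pow_zero, Nat.factorial_zero, Nat.cast_one,
      div_one, mul_one, add_zero, pow_one] at e1
    have e2 : (fun a => EvF d' ξ' (X G) a - EvF d ξ' (X G) a) =O[l] ε := by
      obtain ⟨C, hC⟩ := hd
      obtain ⟨C', hC'⟩ := hd'
      refine IsBigO.of_bound (G.2.2.factorial / (1 / 8) ^ G.2.2) ?_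
      filter_upwards [hC, hC', hξ', h2] with a a1 a2 a3 a4
      refine ((a2 G.1 G.2.1).norm_sub_le (a1 G.1 G.2.1) (by norm_num) (a4 _ _) G.2.2
        (coord_le a3 G.1)).trans' (by simp [EvF_apply, Ev_X]) |>.trans ?_
      rw [mul_div_right_comm]
      gcongr
      exact le_abs_self _
    simpa [mem_OV, Pi.sub_def] using (e2.trans h3).add (e1.trans (coord_isBigO h1 G.1))

lemma Ev_lip (hd : BdD l d) (hξ : ∀ᶠ a in l, ‖ξ a‖ ≤ 1 / 4) (hξ' : ∀ᶠ a in l, ‖ξ' a‖ ≤ 1 / 4)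
    (h1 : (fun a => ξ' a - ξ a) =O[l] w) (g : MvPolynomial (Gen ι K) ℂ) :
    (EvF d ξ' g - EvF d ξ g) =O[l] w :=
  Ev_sub_isBigO hd hd hξ hξ' h1 (ε := 0) (by simp) (isBigO_zero _ _) g

variable [DecidableEq ι]

lemma Ev_second (hd : BdD l d) (hξ : ∀ᶠ a in l, ‖ξ a‖ ≤ 1 / 4) (hξ' : ∀ᶠ a in l, ‖ξ' a‖ ≤ 1 / 4)
    (hξ₀ : ∀ᶠ a in l, ‖ξ₀ a‖ ≤ 1 / 4) (h1 : (fun a => ξ a - ξ₀ a) =O[l] w₁)
    (h2 : (fun a => ξ' a - ξ₀ a) =O[l] w₁) (h3 : (fun a => ξ a - ξ' a) =O[l] w₂)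
    (g : MvPolynomial (Gen ι K) ℂ) : (EvF d ξ g - EvF d ξ' g -
      ∑ j, EvF d ξ₀ (dd j g) * fun a => ξ a j - ξ' a j) =O[l] fun a => w₁ a * w₂ a := by
  have := first_order (V := OV l w₁ w₂) OV_mul (Ev_mem_zero hd hξ) (Ev_mem_zero hd hξ')
    (Ev_mem_zero hd hξ₀) (a := (1, 0)) (b := (0, 1))
    (fun g => by simpa [mem_OV] using Ev_lip hd hξ₀ hξ h1 g)
    (fun g => by simpa [mem_OV] using Ev_lip hd hξ₀ hξ' h2 g) (ε := fun j a => ξ a j - ξ' a j)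
    (fun j => by simpa [mem_OV] using coord_isBigO h3 j) (fun G => ?_) g
  · simpa [mem_OV] using this
  · have e1 := taylor_isBigO hd hξ' hξ G 2
    have e2 := (Ev_lip hd hξ₀ hξ' h2 (X (nx G))).mul (coord_isBigO h3 G.1)
    have e3 : (fun a => (ξ a G.1 - ξ' a G.1) ^ 2) =O[l] fun a => w₁ a * w₂ a := by
      simpa [sq] using (coord_isBigO (h1.sub h2) G.1).mul (coord_isBigO h3 G.1)
    simp only [mem_OV, Prod.mk_add_mk, add_zero, zero_add, pow_one]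
    refine ((e1.trans e3).add e2).congr_left fun a => ?_
    simp [Finset.sum_range_succ, nx]
    ring

/-- Data with prescribed expansions at the origin. -/
def Good' (l : Filter α) (σ : α → ℂ) (d : α → ι → K → ℂ → ℂ) (c : Gen ι K → PowerSeries ℂ)
    (N : ℕ) : Prop :=
  BdD l d ∧ ∀ G : Gen ι K, AsyN l σ N (fun a => iteratedDeriv G.2.2 (d a G.1 G.2.1) 0) (c G)

variable {σ : α → ℂ} {c : Gen ι K → PowerSeries ℂ} {N : ℕ} {x : ι → PowerSeries ℂ}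

omit [Fintype ι] [DecidableEq ι] in
lemma Good'.mono (h : Good' l σ d c N) (hσ : Tendsto σ l (𝓝 0)) {M : ℕ} (hM : M ≤ N) :
    Good' l σ d c M := ⟨h.1, fun G => (h.2 G).mono hσ hM⟩

omit [Fintype ι] [DecidableEq ι] in
lemma tendsto_of_asy (hσ : Tendsto σ l (𝓝 0)) (hN : N ≠ 0) (hx : ∀ j, PowerSeries.X ∣ x j)
    (h : ∀ j, AsyN l σ N (fun a => ξ a j) (x j)) : Tendsto ξ l (𝓝 0) :=
  tendsto_pi_nhds.2 fun j => by
    simpa [PowerSeries.X_dvd_iff.1 (hx j)] using (h j).tendsto hσ hN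

omit [DecidableEq ι] in
theorem Good'.asyN (hd : Good' l σ d c N) (hσ : Tendsto σ l (𝓝 0)) (hN : N ≠ 0)
    (hx : ∀ j, PowerSeries.X ∣ x j) (h : ∀ j, AsyN l σ N (fun a => ξ a j) (x j))
    (g : MvPolynomial (Gen ι K) ℂ) : AsyN l σ N (EvF d ξ g) (FP c x g) := by
  induction g using MvPolynomial.induction_on with
  | C a =>
    rw [algHom_C, algHom_C]
    exact AsyN.const l σ N a
  | add p q hp hq =>
    rw [map_add, map_add]
    exact hp.add hq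
  | mul_X p G hp =>
    rw [map_mul, map_mul]
    refine hp.mul hσ ?_
    have h1 := taylor_isBigO (ξ := fun _ => 0) hd.1 (by simp)
      ((tendsto_of_asy hσ hN hx h).norm.eventually_le_const (by simp)) G N
    have h2 := (((h G.1).mono hσ (Nat.one_le_iff_ne_zero.2 hN)).isBigO hσ (by simpa using hx _)).pow N
    have h3 := AsyN.sum (Finset.range N) fun m _ =>
      (((hd.2 (G.1, G.2.1, G.2.2 + m)).const_mul (m.factorial : ℂ)⁻¹).mul hσ ((h G.1).pow hσ m))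
    refine (h3.congr_right ?_).congr_left ((h1.trans (by simpa using h2)).congr_left fun a => ?_)
    · simpa [cf] using FP_X_dvd (c := c) hx G N
    · simp only [EvF_apply, Ev_X, Pi.zero_apply, sub_zero]
      congr 1
      refine Finset.sum_congr rfl fun m _ => ?_
      ring

end Pool.Agent.P.MP_26ad15_nt
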