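import Pool.Agent.P.MP_26ad15_nt.ASSas

/-! Reduction to isolated formal curves, and formal curves without poles. -/

namespace Pool.Agent.P.MP_26ad15_nt

open Complex Set Filter Topology Asymptotics Metric

variable {ι : Type} [Fintype ι] [DecidableEq ι] {p : ι → Polynomial ℂ} {x : ι → PowerSeries ℂ}

lemma fin_exists_not_dvd {a : PowerSeries ℂ} (h : a ≠ 0) : ∃ M, ¬ PowerSeries.X ^ M ∣ a := by
  by_contra hc
  push Not at hc
  exact h (eq_of_forall_dvd fun N => by simpa using hc N)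

lemma fin_coeff_eq {a b : PowerSeries ℂ} {d : ℕ} (h : PowerSeries.X ^ (d + 1) ∣ a - b) :
    PowerSeries.coeff d a = PowerSeries.coeff d b := by
  have := PowerSeries.X_pow_dvd_iff.1 h d (Nat.lt_succ_self d)
  rwa [map_sub, sub_eq_zero] at this

omit [Fintype ι] [DecidableEq ι] in
lemma fin_pair (H : Curve p x) {i j : ι} (hij : i ≠ j) : ∃ M, ∀ y y' : PowerSeries ℂ,
    PowerSeries.X ^ M ∣ y - x i → PowerSeries.X ^ M ∣ y' - x j → ∀ a b : ℚ,
      ¬ (p i = Polynomial.C (a : ℂ) * p j + Polynomial.C (b : ℂ) ∧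
        y = PowerSeries.C (a : ℂ) * y') := by
  obtain ⟨a₀, M₁, h1⟩ : ∃ (a₀ : ℂ) (M₁ : ℕ), ∀ y y' : PowerSeries ℂ,
      PowerSeries.X ^ M₁ ∣ y - x i → PowerSeries.X ^ M₁ ∣ y' - x j → ∀ a b : ℚ,
        p i = Polynomial.C (a : ℂ) * p j + Polynomial.C (b : ℂ) →
          y = PowerSeries.C (a : ℂ) * y' → (a : ℂ) = a₀ := by
    rcases H.nc j with hj | hj
    · refine ⟨(p i).coeff (p j).natDegree / (p j).leadingCoeff, 0, fun y y' _ _ a b h _ => ?_⟩
      have h0 : (p j).leadingCoeff ≠ 0 :=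
        Polynomial.leadingCoeff_ne_zero.2 (by rintro h0; simp [h0] at hj)
      rw [eq_div_iff h0, h, Polynomial.coeff_add, Polynomial.coeff_C_mul,
        Polynomial.coeff_C, if_neg hj, add_zero, Polynomial.coeff_natDegree]
    · obtain ⟨d, hd⟩ : ∃ d, PowerSeries.coeff d (x j) ≠ 0 := by
        by_contra hc
        push Not at hc
        exact hj (PowerSeries.ext fun n => by simp [hc n])
      refine ⟨PowerSeries.coeff d (x i) / PowerSeries.coeff d (x j), d + 1,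
        fun y y' h h' a b _ e => ?_⟩
      rw [eq_div_iff hd, ← fin_coeff_eq h, ← fin_coeff_eq h', e, PowerSeries.coeff_C_mul]
  by_cases h : x i = PowerSeries.C a₀ * x j
  · exact ⟨M₁, fun y y' h2 h3 a b hh => H.hq i j hij a b
      ⟨hh.1, by rw [h1 y y' h2 h3 a b hh.1 hh.2]; exact h⟩⟩
  · obtain ⟨M₂, h4⟩ := fin_exists_not_dvd (sub_ne_zero.2 h)
    refine ⟨M₁ + M₂, fun y y' h2 h3 a b hh => h4 ?_⟩
    have e := h1 y y' ((pow_dvd_pow _ (Nat.le_add_right _ _)).trans h2)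
      ((pow_dvd_pow _ (Nat.le_add_right _ _)).trans h3) a b hh.1 hh.2
    have h5 := (((pow_dvd_pow _ (Nat.le_add_left M₂ M₁)).trans h3).mul_left
      (PowerSeries.C a₀)).sub ((pow_dvd_pow _ (Nat.le_add_left M₂ M₁)).trans h2)
    convert h5 using 1
    rw [hh.2, e]
    ring

omit [DecidableEq ι] in
lemma fin_stable (H : Curve p x) : ∃ M, ∀ x' : ι → PowerSeries ℂ,
    (∀ j, PowerSeries.X ^ M ∣ x' j - x j) → (∀ j, PowerSeries.X ∣ x' j) → Curve p x' := by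
  have h1 : ∀ j, ∃ M, ∀ y : PowerSeries ℂ, PowerSeries.X ^ M ∣ y - x j →
      (p j).natDegree ≠ 0 ∨ y ≠ 0 := fun j => by
    rcases H.nc j with hj | hj
    · exact ⟨0, fun _ _ => Or.inl hj⟩
    · obtain ⟨M, hM⟩ := fin_exists_not_dvd hj
      exact ⟨M, fun y hy => Or.inr fun h0 => hM (by simpa [h0] using hy)⟩
  have h2 : ∀ q : ι × ι, ∃ M, q.1 ≠ q.2 → ∀ y y' : PowerSeries ℂ,
      PowerSeries.X ^ M ∣ y - x q.1 → PowerSeries.X ^ M ∣ y' - x q.2 → ∀ a b : ℚ,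
        ¬ (p q.1 = Polynomial.C (a : ℂ) * p q.2 + Polynomial.C (b : ℂ) ∧
          y = PowerSeries.C (a : ℂ) * y') := fun q => by
    by_cases hq : q.1 = q.2
    · exact ⟨0, fun h => (h hq).elim⟩
    · obtain ⟨M, hM⟩ := fin_pair H hq
      exact ⟨M, fun _ => hM⟩
  choose M₁ hM₁ using h1
  choose M₂ hM₂ using h2
  obtain ⟨A, hA⟩ := Finite.exists_le M₁
  obtain ⟨B, hB⟩ := Finite.exists_le M₂
  refine ⟨A + B, fun x' h h' => ⟨H.fin, h', fun j => hM₁ j _
    ((pow_dvd_pow _ ((hA j).trans (Nat.le_add_right _ _))).trans (h j)), fun i j hij => ?_⟩⟩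
  exact hM₂ (i, j) hij _ _ ((pow_dvd_pow _ ((hB _).trans (Nat.le_add_left _ _))).trans (h i))
    ((pow_dvd_pow _ ((hB _).trans (Nat.le_add_left _ _))).trans (h j))

omit [Fintype ι] [DecidableEq ι] in
lemma fin_aeval_LL (cc : ι → ℂ) (P : MvPolynomial (Gen ι BB) ℂ) :
    MvPolynomial.aeval (fun G => algebraMap (PowerSeries ℂ) LL (ffam p x G)) P = 0 ↔
      FP (cx p cc) x (MvPolynomial.rename inB P) = 0 := by
  change MvPolynomial.aeval (algebraMap (PowerSeries ℂ) LL ∘ ffam p x) P = 0 ↔ _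
  rw [FP_rename, MvPolynomial.aeval_algebraMap_apply,
    map_eq_zero_iff _ (IsFractionRing.injective (PowerSeries ℂ) LL)]

lemma fin_transfer {L σ : Type*} [Field L] [Algebra ℂ L] {w : σ → L} {y : σ → ℂ} {k : Subfield ℂ}
    (hy : AI k y)
    (h : ∀ P : MvPolynomial σ ℂ, MvPolynomial.aeval w P = 0 → MvPolynomial.aeval y P = 0) :
    AI k w :=
  hy.of_rel fun P hP => by
    rw [← MvPolynomial.aeval_map_algebraMap ℂ] at hP ⊢
    exact h _ hP

lemma fin_id_deriv (l : ℕ) : iteratedDeriv (l + 2) (fun y : ℂ => y) 0 = 0 := by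
  simp [iteratedDeriv_succ']

theorem isolate (H : Curve p x) (cc : ι → ℂ) :
    ∃ x' f ν u, Curve p x' ∧ Iso p cc x' f ν u ∧ (FAI p x' → FAI p x) := by
  obtain ⟨M, hM⟩ := fin_stable H
  obtain ⟨x', f, h1, h2, h3, h4, h5⟩ := deform (c := cx p cc) H.dvd (κ₀ := Sum.inr 0)
    (κ₁ := Sum.inr 1) (fun j => by simp [cx]) (fun j => by simp [cx])
    (fun j l => by simp [cx, fin_id_deriv]) (fun j => by simp [cx]) (fun j => by simp [cx])
    (fun j l => by simp [cx, fin_id_deriv]) M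
  obtain ⟨ν, u, hu, hJ⟩ := exists_X_pow_mul h5
  exact ⟨x', f, ν, u, hM x' h1 h2, ⟨H.fin, h2, h4, hJ, hu⟩, fun h => AI.of_rel h fun P hP =>
    (fin_aeval_LL cc P).2 (h3 _ ((fin_aeval_LL cc P).1 hP))⟩

/-- Convergence of isolated formal curves without poles. -/
def FinCurve : Prop := ∀ (ι : Type) [Fintype ι] [DecidableEq ι] (p : ι → Polynomial ℂ) (cc : ι → ℂ)
  (x : ι → PowerSeries ℂ) (f : ι → MvPolynomial (Gen ι KK) ℂ) (ν : ℕ) (u : PowerSeries ℂ),
  Iso p cc x f ν u → (∀ j, (p j).natDegree = 0) → ∃ R > 0, ∃ ξ : ℂ → ι → ℂ,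
    DifferentiableOn ℂ ξ (ball 0 R \ {0}) ∧
    (∀ j N, AsyN (𝓝[≠] 0) id N (fun s => ξ s j) (x j)) ∧
    (∀ s ∈ ball (0 : ℂ) R \ {0}, ‖ξ s‖ ≤ 1 / 4) ∧
    ∀ g, FP (cx p cc) x g = 0 → ∀ s ∈ ball (0 : ℂ) R \ {0},
      Ev ℂ (dat p cc (fun _ => hh 0) s) (ξ s) g = 0

lemma fin_sub {R : ℝ} : ball (0 : ℂ) R ∩ HP 0 ⊆ ball 0 R \ {0} := by
  rintro s ⟨h1, h2⟩
  refine ⟨h1, ?_⟩
  rintro rfl
  simp [HP] at h2

lemma fin_neBot {R : ℝ} (hR : 0 < R) : (𝓝[ball (0 : ℂ) R ∩ HP 0] 0).NeBot := by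
  rw [← mem_closure_iff_nhdsWithin_neBot, Metric.mem_closure_iff]
  intro ε hε
  have h0 : 0 < min R ε / 2 := half_pos (lt_min hR hε)
  have h1 : min R ε / 2 < R := by linarith [min_le_left R ε]
  have h2 : min R ε / 2 < ε := by linarith [min_le_right R ε]
  refine ⟨((min R ε / 2 : ℝ) : ℂ), ⟨?_, ?_⟩, ?_⟩
  · rwa [mem_ball_zero_iff, Complex.norm_real, Real.norm_eq_abs, abs_of_pos h0]
  · show (0 : ℝ) < ((min R ε / 2 : ℝ) : ℂ).re
    rwa [Complex.ofReal_re]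
  · rwa [dist_zero_left, Complex.norm_real, Real.norm_eq_abs, abs_of_pos h0]

lemma fin_count {R : ℝ} (hR : 0 < R) {f : ℂ → ℂ} (hf : DifferentiableOn ℂ f (ball 0 R \ {0}))
    {a : PowerSeries ℂ} (ha : ∀ N, AsyN (𝓝[≠] 0) id N f a) (h0 : a ≠ 0) :
    {s ∈ ball (0 : ℂ) R ∩ HP 0 | f s = 0}.Countable := by
  refine countable_zeros ((convex_ball _ _).inter (convex_halfSpace_re_gt 0)).isPreconnected
    ((hf.mono fin_sub).analyticOnNhd (isOpen_ball.inter (isOpen_HP 0))) fun h => ?_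
  obtain ⟨N, hN⟩ := fin_exists_not_dvd h0
  have := fin_neBot hR
  have t : Tendsto id (𝓝[ball (0 : ℂ) R ∩ HP 0] 0) (𝓝[≠] 0) :=
    nhdsWithin_mono _ fun s hs => (fin_sub hs).2
  refine hN (((ha N).comp t).dvd (t.mono_right nhdsWithin_le_nhds) (t self_mem_nhdsWithin) ?_)
  exact (isBigO_zero _ _).congr' (eventually_nhdsWithin_of_forall fun s hs => (h s hs).symm)
    EventuallyEq.rfl

lemma fin_C_add {c : ℂ} {y : PowerSeries ℂ} (hy : PowerSeries.X ∣ y)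
    (h : PowerSeries.C c + y = 0) : c = 0 ∧ y = 0 := by
  have h1 := congrArg PowerSeries.constantCoeff h
  rw [map_add, PowerSeries.X_dvd_iff.1 hy, add_zero, PowerSeries.constantCoeff_C, map_zero] at h1
  exact ⟨h1, by simpa [h1] using h⟩

omit [Fintype ι] [DecidableEq ι] in
lemma fin_Ev (h0 : ∀ j, (p j).natDegree = 0) (cc : ι → ℂ) (s : ℂ) (ξ : ι → ℂ)
    (P : MvPolynomial (Gen ι BB) ℂ) :
    Ev ℂ (dat p cc (fun _ => hh 0) s) ξ (MvPolynomial.rename inB P) =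
      MvPolynomial.aeval (fam fun j => (p j).coeff 0 + ξ j) P := by
  rw [Ev, MvPolynomial.aeval_rename]
  congr 2
  funext G
  simp only [Function.comp_apply, inB, Prod.map, id, dat, Sum.elim_inl, fam,
    iteratedDeriv_comp_const_add, iteratedDeriv_hh, eval_of_natDegree_zero (h0 _)]
  congr 1
  ring

theorem fas_of (hC : FinCurve) {n : ℕ} (hP : FPol n) (hS : SAS n) : FAS n := by
  classical
  intro ι _ hn p x H
  by_cases hp : ∃ j, (p j).natDegree ≠ 0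
  · exact hP ι hn p x H hp
  push Not at hp
  obtain ⟨x', f, ν, u, H', hI, h⟩ := isolate H 0
  refine h ?_
  obtain ⟨R, hR, ξ, h1, h2, -, h4⟩ := hC ι p 0 x' f ν u hI hp
  have h5 := differentiableOn_pi.1 h1
  refine AI.of_countable fun S hS' => ?_
  obtain ⟨k, hk, hSk⟩ := exists_closed hS'
  refine ⟨k, hSk, ?_⟩
  have c1 : (⋃ j, ⋃ c ∈ (k : Set ℂ), {s ∈ ball (0 : ℂ) R ∩ HP 0 |
      ((p j).coeff 0 - c) + ξ s j = 0}).Countable := by
    refine countable_iUnion fun j => hk.count.biUnion fun c _ => ?_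
    refine fin_count hR ((h5 j).const_add _)
      (fun N => (AsyN.const _ _ N ((p j).coeff 0 - c)).add (h2 j N)) fun e => ?_
    exact (H'.nc j).elim (fun h => h (hp j)) fun h => h (fin_C_add (H'.dvd j) e).2
  have c2 : (⋃ q : {q : ι × ι // q.1 ≠ q.2}, ⋃ a : ℚ, ⋃ b : ℚ, {s ∈ ball (0 : ℂ) R ∩ HP 0 |
      ((p q.1.1).coeff 0 - a * (p q.1.2).coeff 0 - b) + (ξ s q.1.1 - a * ξ s q.1.2) = 0}).Countable := by
    refine countable_iUnion fun q => countable_iUnion fun a => countable_iUnion fun b => ?_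
    refine fin_count hR (((h5 _).sub ((h5 _).const_mul _)).const_add _)
      (fun N => (AsyN.const _ _ N ((p q.1.1).coeff 0 - a * (p q.1.2).coeff 0 - b)).add
        ((h2 _ N).sub ((h2 _ N).const_mul a))) fun e => ?_
    obtain ⟨e1, e2⟩ := fin_C_add ((H'.dvd _).sub ((H'.dvd _).mul_left _)) e
    refine H'.hq _ _ q.2 a b ⟨?_, sub_eq_zero.1 e2⟩
    rw [Polynomial.eq_C_of_natDegree_eq_zero (hp q.1.1),
      Polynomial.eq_C_of_natDegree_eq_zero (hp q.1.2), ← map_mul, ← map_add]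
    congr 1
    linear_combination e1
  obtain ⟨s, hs, hs'⟩ := ((c1.union c2).dense_compl ℝ).exists_mem_open
    (isOpen_ball.inter (isOpen_HP 0)) ((fin_neBot hR).nonempty_of_mem self_mem_nhdsWithin)
  simp only [mem_compl_iff, mem_union, mem_iUnion, not_or, not_exists, mem_sep_iff, not_and] at hs
  refine fin_transfer (hS ι hn k hk (fun j => (p j).coeff 0 + ξ s j)
    (fun j hj => hs.1 j _ hj hs' (by ring)) fun i j hij a b e =>
      hs.2 ⟨(i, j), hij⟩ a b hs' (by linear_combination e)) fun P hP => ?_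
  rw [← fin_Ev hp 0 s]
  exact h4 _ ((fin_aeval_LL 0 _).1 hP) s (fin_sub hs')

end Pool.Agent.P.MP_26ad15_nt
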