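import Pool.Agent.P.MP_26ad15_nt.ASGen

/-! Formal points, Hensel lifting and deformation of a formal curve to an isolated one. -/

namespace Pool.Agent.P.MP_26ad15_nt

open PowerSeries Finset

section Ev

variable {B : Type*} [CommRing B]

/-- Sum of the series `∑ c m * x ^ m`. -/
noncomputable def ev (c : ℕ → B⟦X⟧) (x : B⟦X⟧) : B⟦X⟧ :=
  PowerSeries.mk fun n => coeff n (∑ m ∈ range (n + 1), c m * x ^ m)

lemma ev_dvd (c : ℕ → B⟦X⟧) {x : B⟦X⟧} (hx : X ∣ x) (N : ℕ) :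
    X ^ N ∣ ev c x - ∑ m ∈ range N, c m * x ^ m := by
  refine X_pow_dvd_iff.2 fun d hd => ?_
  have : X ^ (d + 1) ∣ ∑ m ∈ Ico (d + 1) N, c m * x ^ m := dvd_sum fun m hm =>
    ((pow_dvd_pow_of_dvd hx _).trans (pow_dvd_pow _ (mem_Ico.1 hm).1)).mul_left _
  rw [map_sub, ev, coeff_mk, ← sum_range_add_sum_Ico _ (Nat.succ_le_of_lt hd), map_add,
    X_pow_dvd_iff.1 this d (Nat.lt_succ_self d), add_zero, sub_self]

/-- The multiples of a power of the variable. -/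
def PX (N : ℕ) : AddSubgroup B⟦X⟧ where
  carrier := {f | X ^ N ∣ f}
  add_mem' := dvd_add
  zero_mem' := dvd_zero _
  neg_mem' := fun h => (dvd_neg.2 h :)

lemma mem_PX {N : ℕ} {f : B⟦X⟧} : f ∈ PX N ↔ X ^ N ∣ f := Iff.rfl

lemma PX_mul {a b : ℕ} {x y : B⟦X⟧} (hx : x ∈ PX a) (hy : y ∈ PX b) : x * y ∈ PX (a + b) := by
  rw [mem_PX, pow_add]; exact mul_dvd_mul hx hy

lemma mem_PX_zero (f : B⟦X⟧) : f ∈ PX 0 := by simp [mem_PX]

lemma pow_first {R : Type*} [CommRing R] {A A' x y y' : R} (hy : A ∣ y - x) (hy' : A ∣ y' - x)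
    (h : A' ∣ y - y') (m : ℕ) : A * A' ∣ y ^ (m + 1) - y' ^ (m + 1) - (m + 1) * x ^ m * (y - y') := by
  induction m with
  | zero => simp
  | succ m ih =>
    have e : y ^ (m + 1 + 1) - y' ^ (m + 1 + 1) - ((m + 1 : ℕ) + 1) * x ^ (m + 1) * (y - y') =
        y * (y ^ (m + 1) - y' ^ (m + 1) - (m + 1) * x ^ m * (y - y')) +
        (m + 1) * x ^ m * ((y - x) * (y - y')) + (y' ^ (m + 1) - x ^ (m + 1)) * (y - y') := by
      push_cast; ring
    rw [e]
    exact ((ih.mul_left _).add ((mul_dvd_mul hy h).mul_left _)).add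
      (mul_dvd_mul (hy'.trans (sub_dvd_pow_sub_pow _ _ _)) h)

lemma map_dvd_X {B' : Type*} [CommRing B'] (φ : B →+* B') {N : ℕ} {f : B⟦X⟧} (h : X ^ N ∣ f) :
    X ^ N ∣ map φ f := by
  simpa using map_dvd (map φ) h

lemma X_dvd_of_dvd_sub {x y : B⟦X⟧} {a : ℕ} (hx : X ∣ x) (ha : a ≠ 0) (h : X ^ a ∣ y - x) :
    X ∣ y := by
  simpa using ((dvd_pow_self _ ha).trans h).add hx

lemma X_pow_cancel {ν N : ℕ} {u f : B⟦X⟧} (hu : IsUnit u) (h : X ^ (ν + N) ∣ X ^ ν * u * f) :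
    X ^ N ∣ f := by
  obtain ⟨w, hw⟩ := h
  rw [pow_add, mul_assoc, mul_assoc] at hw
  exact hu.dvd_mul_left.1 ⟨w, X_pow_mul_cancel hw⟩

variable {ι K : Type*} [Algebra ℂ B]

/-- Taylor coefficients. -/
noncomputable def cf (B : Type*) [CommRing B] [Algebra ℂ B] (c : Gen ι K → ℂ⟦X⟧) (G : Gen ι K)
    (m : ℕ) : B⟦X⟧ :=
  map (algebraMap ℂ B) (C (m.factorial : ℂ)⁻¹ * c (G.1, G.2.1, G.2.2 + m))

lemma cf_nx (c : Gen ι K → ℂ⟦X⟧) (G : Gen ι K) (m : ℕ) :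
    cf B c (nx G) m = (m + 1) * cf B c G (m + 1) := by
  have : (m.factorial : ℂ)⁻¹ = (m + 1) * ((m + 1).factorial : ℂ)⁻¹ := by
    have : (m + 1 : ℂ) ≠ 0 := by exact_mod_cast Nat.succ_ne_zero m
    rw [Nat.factorial_succ]; push_cast; field_simp
  simp only [cf, nx, this, map_mul, map_add, map_natCast, map_one, add_assoc, add_comm 1 m, mul_assoc]

/-- The formal point attached to a formal curve. -/
noncomputable def FP (c : Gen ι K → ℂ⟦X⟧) (y : ι → B⟦X⟧) : MvPolynomial (Gen ι K) ℂ →ₐ[ℂ] B⟦X⟧ :=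
  MvPolynomial.aeval fun G => ev (cf B c G) (y G.1)

variable {c : Gen ι K → ℂ⟦X⟧} {x y y' : ι → B⟦X⟧}

lemma FP_X_dvd (hy : ∀ j, X ∣ y j) (G : Gen ι K) (N : ℕ) :
    X ^ N ∣ FP c y (MvPolynomial.X G) - ∑ m ∈ range N, cf B c G m * y G.1 ^ m := by
  rw [FP, MvPolynomial.aeval_X]
  exact ev_dvd _ (hy _) N

lemma FP_congr (hy : ∀ j, X ∣ y j) (hy' : ∀ j, X ∣ y' j) {a : ℕ} (h : ∀ j, X ^ a ∣ y j - y' j)
    (g : MvPolynomial (Gen ι K) ℂ) : X ^ a ∣ FP c y g - FP c y' g := by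
  refine mem_PX.1 (filt_sub (V := PX) (Ψ := FP c y) (Ψ' := FP c y') PX_mul (fun _ => mem_PX_zero _)
    (fun _ => mem_PX_zero _) (fun G => ?_) g)
  have h1 : X ^ a ∣ ∑ m ∈ range a, cf B c G m * (y G.1 ^ m - y' G.1 ^ m) :=
    dvd_sum fun m _ => ((h _).trans (sub_dvd_pow_sub_pow _ _ _)).mul_left _
  have := ((FP_X_dvd (c := c) hy G a).sub (FP_X_dvd (c := c) hy' G a)).add h1
  rw [mem_PX]
  convert! this using 1
  simp only [mul_sub, sum_sub_distrib]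
  ring

lemma FP_map {B' : Type*} [CommRing B'] [Algebra ℂ B'] (φ : B →ₐ[ℂ] B') (hy : ∀ j, X ∣ y j)
    (g : MvPolynomial (Gen ι K) ℂ) :
    map (φ : B →+* B') (FP c y g) = FP c (fun j => map (φ : B →+* B') (y j)) g := by
  induction g using MvPolynomial.induction_on with
  | C a => simp [PowerSeries.algebraMap_apply]
  | add p q hp hq => simp only [map_add, hp, hq]
  | mul_X p G hp =>
    simp only [map_mul, hp]
    congr 1
    refine eq_of_forall_dvd fun N => ?_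
    have h1 := map_dvd_X (φ : B →+* B') (FP_X_dvd (c := c) hy G N)
    have h2 := FP_X_dvd (c := c) (y := fun j => map (φ : B →+* B') (y j))
      (fun j => by simpa using map_dvd_X (N := 1) (φ : B →+* B') (by simpa using hy j)) G N
    have e : ∀ m, map (φ : B →+* B') (cf B c G m) = cf B' c G m := fun m => by
      rw [cf, cf, ← RingHom.comp_apply, ← map_comp, φ.comp_algebraMap]
    simp only [map_sub, map_sum, map_mul, map_pow, e] at h1
    simpa using h1.sub h2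

lemma FP_lin (hy : ∀ j, X ∣ y j) {j : ι} {κ : K} (h1 : c (j, κ, 1) = 1)
    (h2 : ∀ l, c (j, κ, l + 2) = 0) :
    FP c y (MvPolynomial.X (j, κ, 0)) = map (algebraMap ℂ B) (c (j, κ, 0)) + y j ∧
      FP c y (MvPolynomial.X (j, κ, 1)) = 1 := by
  constructor
  · refine eq_of_forall_dvd fun N => (pow_dvd_pow _ (Nat.le_add_right N 2)).trans ?_
    have := FP_X_dvd (c := c) hy (j, κ, 0) (N + 2)
    simpa [sum_range_succ', cf, h1, h2, add_assoc, add_comm (y j)] using this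
  · refine eq_of_forall_dvd fun N => (pow_dvd_pow _ (Nat.le_add_right N 1)).trans ?_
    have := FP_X_dvd (c := c) hy (j, κ, 1) (N + 1)
    have e : ∀ m, 1 + (m + 1) = m + 2 := fun m => by omega
    simpa [sum_range_succ', cf, h1, h2, e] using this

lemma FP_chain_X (hy : ∀ j, X ∣ y j) (D : B⟦X⟧ →+ B⟦X⟧)
    (hD : ∀ a b, D (a * b) = a * D b + b * D a) (hdv : ∀ N f, X ^ (N + 1) ∣ f → X ^ N ∣ D f)
    (G : Gen ι K) (hc : ∀ m, D (cf B c G m) = 0) :
    D (FP c y (MvPolynomial.X G)) = FP c y (MvPolynomial.X (nx G)) * D (y G.1) := by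
  have h1 : D 1 = 0 := by simpa using hD 1 1
  have hp : ∀ m : ℕ, D (y G.1 ^ (m + 1)) = (m + 1) * y G.1 ^ m * D (y G.1) := fun m => by
    induction m with
    | zero => simp
    | succ m ih => rw [pow_succ, hD, ih]; push_cast; ring
  refine eq_of_forall_dvd fun N => ?_
  have h2 := hdv _ _ (FP_X_dvd (c := c) hy G (N + 1))
  have h3 := (FP_X_dvd (c := c) hy (nx G) N).mul_right (D (y G.1))
  simp only [map_sub, sum_range_succ', map_add, map_sum, hD, hc, hp, pow_zero, h1] at h2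
  convert! h2.sub h3 using 1
  simp only [cf_nx, sub_mul, sum_mul, mul_zero, add_zero, show (nx G).1 = G.1 from rfl]
  rw [sum_congr rfl fun m _ => show (m + 1) * cf B c G (m + 1) * y G.1 ^ m * D (y G.1) =
    cf B c G (m + 1) * ((m + 1) * y G.1 ^ m * D (y G.1)) by ring]
  ring

lemma FP_first_X (hx : ∀ j, X ∣ x j) (hy : ∀ j, X ∣ y j) (hy' : ∀ j, X ∣ y' j) {a b : ℕ}
    (h1 : ∀ j, X ^ a ∣ y j - x j) (h2 : ∀ j, X ^ a ∣ y' j - x j) (h3 : ∀ j, X ^ b ∣ y j - y' j)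
    (G : Gen ι K) : X ^ (a + b) ∣ FP c y (MvPolynomial.X G) - FP c y' (MvPolynomial.X G) -
      FP c x (MvPolynomial.X (nx G)) * (y G.1 - y' G.1) := by
  have e1 := (pow_dvd_pow _ (Nat.le_succ _)).trans (FP_X_dvd (c := c) hy G (a + b + 1))
  have e2 := (pow_dvd_pow _ (Nat.le_succ _)).trans (FP_X_dvd (c := c) hy' G (a + b + 1))
  have e3 := (FP_X_dvd (c := c) hx (nx G) (a + b)).mul_right (y G.1 - y' G.1)
  have e4 : X ^ (a + b) ∣ ∑ m ∈ range (a + b), cf B c G (m + 1) * (y G.1 ^ (m + 1) - y' G.1 ^ (m + 1) -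
      ((m : B⟦X⟧) + 1) * x G.1 ^ m * (y G.1 - y' G.1)) := by
    refine dvd_sum fun m _ => Dvd.dvd.mul_left ?_ _
    rw [pow_add]
    exact pow_first (h1 _) (h2 _) (h3 _) m
  have e5 : ∑ m ∈ range (a + b), cf B c G (m + 1) * (y G.1 ^ (m + 1) - y' G.1 ^ (m + 1) -
      ((m : B⟦X⟧) + 1) * x G.1 ^ m * (y G.1 - y' G.1)) =
      ∑ m ∈ range (a + b), cf B c G (m + 1) * y G.1 ^ (m + 1) -
      ∑ m ∈ range (a + b), cf B c G (m + 1) * y' G.1 ^ (m + 1) -
      (∑ m ∈ range (a + b), cf B c (nx G) m * x (nx G).1 ^ m) * (y G.1 - y' G.1) := by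
    rw [sum_mul, ← sum_sub_distrib, ← sum_sub_distrib]
    refine sum_congr rfl fun m _ => ?_
    rw [cf_nx, show (nx G).1 = G.1 from rfl]
    ring
  rw [e5] at e4
  rw [sum_range_succ'] at e1 e2
  convert! ((e1.sub e2).sub e3).add e4 using 1
  ring

variable [DecidableEq ι] [Fintype ι]

lemma FP_first (hx : ∀ j, X ∣ x j) (hy : ∀ j, X ∣ y j) (hy' : ∀ j, X ∣ y' j) {a b : ℕ}
    (h1 : ∀ j, X ^ a ∣ y j - x j) (h2 : ∀ j, X ^ a ∣ y' j - x j) (h3 : ∀ j, X ^ b ∣ y j - y' j)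
    (g : MvPolynomial (Gen ι K) ℂ) :
    X ^ (a + b) ∣ FP c y g - FP c y' g - ∑ j, FP c x (dd j g) * (y j - y' j) :=
  mem_PX.1 (first_order (V := PX) (Ψ := FP c y) (Ψ' := FP c y') (Ψ₀ := FP c x)
    (ε := fun j => y j - y' j) PX_mul (fun _ => mem_PX_zero _) (fun _ => mem_PX_zero _)
    (fun _ => mem_PX_zero _) (fun g => mem_PX.2 (FP_congr hy hx h1 g))
    (fun g => mem_PX.2 (FP_congr hy' hx h2 g)) (fun j => mem_PX.2 (h3 j))
    (fun G => mem_PX.2 (FP_first_X hx hy hy' h1 h2 h3 G)) g)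

variable {f : ι → MvPolynomial (Gen ι K) ℂ} {ν a : ℕ} {u : B⟦X⟧}

lemma FP_det (x : ι → B⟦X⟧) (f : ι → MvPolynomial (Gen ι K) ℂ) :
    (Matrix.of fun i j => FP c x (dd j (f i))).det = FP c x (Jm f).det := by
  rw [AlgHom.map_det]; rfl

lemma hensel_unique (hx : ∀ j, X ∣ x j) (hJ : FP c x (Jm f).det = X ^ ν * u) (hu : IsUnit u)
    (ha : ν < a) (h1 : ∀ j, X ^ a ∣ y j - x j) (h2 : ∀ j, X ^ a ∣ y' j - x j)
    (h : ∀ i, FP c y (f i) = FP c y' (f i)) : y = y' := by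
  have hy := fun j => X_dvd_of_dvd_sub (hx j) (by omega) (h1 j)
  have hy' := fun j => X_dvd_of_dvd_sub (hx j) (by omega) (h2 j)
  have : ∀ b j, X ^ b ∣ y j - y' j := fun b => by
    induction b with
    | zero => simp
    | succ b ih =>
      intro j
      set M := Matrix.of fun i j => FP c x (dd j (f i)) with hM
      have h3 : ∀ i, X ^ (a + b) ∣ M.mulVec (y - y') i := fun i => by
        simpa [h i, Matrix.mulVec, dotProduct, hM] using FP_first (c := c) hx hy hy' h1 h2 ih (f i)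
      have h4 : X ^ (a + b) ∣ M.adjugate.mulVec (M.mulVec (y - y')) j :=
        dvd_sum fun i _ => (h3 i).mul_left _
      rw [Matrix.mulVec_mulVec, Matrix.adjugate_mul, Matrix.smul_mulVec, Matrix.one_mulVec, hM,
        FP_det, hJ] at h4
      exact X_pow_cancel hu ((pow_dvd_pow _ (by omega)).trans h4)
  exact funext fun j => eq_of_forall_dvd fun N => this N j

lemma hensel (hx : ∀ j, X ∣ x j) (hJ : FP c x (Jm f).det = X ^ ν * u) (hu : IsUnit u)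
    (ha : ν < a) {τ : ι → B⟦X⟧} (hτ : ∀ i, X ^ (a + ν) ∣ FP c x (f i) - τ i) :
    ∃ y : ι → B⟦X⟧, (∀ j, X ^ a ∣ y j - x j) ∧ ∀ i, FP c y (f i) = τ i := by
  have step : ∀ (k : ℕ) (y : {y : ι → B⟦X⟧ // (∀ j, X ^ a ∣ y j - x j) ∧
      ∀ i, X ^ (a + ν + k) ∣ FP c y (f i) - τ i}), ∃ y' : {y : ι → B⟦X⟧ // (∀ j, X ^ a ∣ y j - x j) ∧
      ∀ i, X ^ (a + ν + (k + 1)) ∣ FP c y (f i) - τ i}, ∀ j, X ^ (a + k) ∣ y'.1 j - y.1 j := by
    rintro k ⟨y, h1, h2⟩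
    choose ρ hρ using id h2
    obtain ⟨u', hu'⟩ := hu.exists_left_inv
    set M := Matrix.of fun i j => FP c x (dd j (f i)) with hM
    set ε : ι → B⟦X⟧ := (X ^ (a + k) * u') • M.adjugate.mulVec ρ with hε
    have e1 : ∀ j, X ^ (a + k) ∣ y j - ε j - y j := fun j => by
      simp [hε, mul_assoc]
    have e2 : ∀ j, X ^ a ∣ y j - ε j - x j := fun j => by
      simpa only [sub_add_sub_cancel] using
        ((pow_dvd_pow _ (Nat.le_add_right a k)).trans (e1 j)).add (h1 j)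
    refine ⟨⟨y - ε, e2, fun i => ?_⟩, e1⟩
    have e3 := FP_first (c := c) hx (fun j => X_dvd_of_dvd_sub (hx j) (by omega) (e2 j))
      (fun j => X_dvd_of_dvd_sub (hx j) (by omega) (h1 j)) e2 h1 e1 (f i)
    have e4 : M.mulVec ε i = FP c y (f i) - τ i := by
      rw [hε, Matrix.mulVec_smul, Matrix.mulVec_mulVec, Matrix.mul_adjugate, Matrix.smul_mulVec,
        Matrix.one_mulVec, hM, FP_det, hJ, hρ]
      simp only [Pi.smul_apply, smul_eq_mul]
      linear_combination (X ^ (a + ν + k) * ρ i) * hu'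
    refine (pow_dvd_pow _ (by omega)).trans (e3.trans (dvd_of_eq ?_))
    simp only [Matrix.mulVec, dotProduct, hM, Matrix.of_apply] at e4
    simp only [sub_sub_cancel_left, mul_neg, sum_neg_distrib, e4]
    rw [show (fun j => y j - ε j) = y - ε from rfl]
    ring
  choose next hnext using step
  let s : ∀ k : ℕ, {y : ι → B⟦X⟧ // (∀ j, X ^ a ∣ y j - x j) ∧
      ∀ i, X ^ (a + ν + k) ∣ FP c y (f i) - τ i} := fun k =>
    Nat.rec ⟨x, by simp, hτ⟩ next k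
  have h1 := fun j => exists_limit (a := fun k => (s k).1 j) fun k =>
    (pow_dvd_pow _ (Nat.le_add_left k a)).trans (hnext k (s k) j)
  choose y hy using h1
  have h2 : ∀ j, X ^ a ∣ y j - x j := fun j => by simpa using (hy j a).add ((s a).2.1 j)
  refine ⟨y, h2, fun i => eq_of_forall_dvd fun N => ?_⟩
  simpa using (FP_congr (c := c) (fun j => X_dvd_of_dvd_sub (hx j) (by omega) (h2 j))
    (fun j => X_dvd_of_dvd_sub (hx j) (by omega) ((s N).2.1 j)) (fun j => hy j N) (f i)).add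
    ((pow_dvd_pow _ (Nat.le_add_left N _)).trans ((s N).2.2 i))

end Ev

/-- Derivative of the coefficients. -/
noncomputable def dt : (Polynomial ℂ)⟦X⟧ →+ (Polynomial ℂ)⟦X⟧ where
  toFun f := PowerSeries.mk fun n => Polynomial.derivative (coeff n f)
  map_zero' := by ext1; simp
  map_add' := fun f g => by ext1; simp

lemma coeff_dt (f : (Polynomial ℂ)⟦X⟧) (n : ℕ) :
    coeff n (dt f) = Polynomial.derivative (coeff n f) := by simp [dt]

lemma dt_mul (f g : (Polynomial ℂ)⟦X⟧) : dt (f * g) = f * dt g + g * dt f := by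
  ext1 n
  simp only [coeff_dt, coeff_mul, map_add, mul_comm g, Polynomial.derivative_sum,
    Polynomial.derivative_mul, sum_add_distrib, add_comm]

lemma dt_map (f : ℂ⟦X⟧) : dt (map (algebraMap ℂ (Polynomial ℂ)) f) = 0 := by
  ext1 n; simp [coeff_dt]

lemma map_eval_map (t : ℂ) (f : ℂ⟦X⟧) :
    map (Polynomial.aeval t : Polynomial ℂ →ₐ[ℂ] ℂ) (map (algebraMap ℂ (Polynomial ℂ)) f) = f := by
  ext1 n; simp

lemma aeval_X_eq (P : Polynomial ℂ) : Polynomial.aeval (X : ℂ⟦X⟧) P = (P : ℂ⟦X⟧) := by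
  induction P using Polynomial.induction_on' with
  | add p q hp hq => simp [hp, hq]
  | monomial n r => simp [← Polynomial.C_mul_X_pow_eq_monomial]

lemma exists_X_pow_mul {f : ℂ⟦X⟧} (hf : f ≠ 0) : ∃ ν u, IsUnit u ∧ f = X ^ ν * u :=
  ⟨_, _, isUnit_divided_by_X_pow_order hf, X_pow_order_mul_divXPowOrder.symm⟩

lemma not_dvd_unit {ν : ℕ} {u : ℂ⟦X⟧} (hu : IsUnit u) : ¬ X ^ (ν + 1) ∣ X ^ ν * u := fun h => by
  have := X_pow_cancel hu (N := 1) (f := 1) (by simpa using h)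
  simp [X_dvd_iff] at this

lemma deform_key {ι K : Type*} [DecidableEq ι] [Fintype ι] {c : Gen ι K → ℂ⟦X⟧} {x δ : ι → ℂ⟦X⟧}
    {f : ι → MvPolynomial (Gen ι K) ℂ} {y : ι → (Polynomial ℂ)⟦X⟧} (hy : ∀ j, X ∣ y j)
    {ν : ℕ} {u : (Polynomial ℂ)⟦X⟧} (hu : IsUnit u) (hJ : FP c y (Jm f).det = X ^ ν * u)
    (e0 : (fun j => map (Polynomial.aeval (0 : ℂ) : Polynomial ℂ →ₐ[ℂ] ℂ) (y j)) = x)
    (h1 : ∀ j, dt (FP c y (f j)) = map (algebraMap ℂ (Polynomial ℂ)) (δ j))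
    (h2 : ∀ j, X ^ (ν + 1) ∣ δ j) (h3 : ∀ j g, FP c x g = 0 → δ j = 0 ∨ FP c x (DJ f j g) = 0)
    (N : ℕ) : ∀ g, FP c x g = 0 → X ^ N ∣ FP c y g := by
  have hch := chain_alg (FP c y) dt dt_mul (fun r => by
    ext1 n; simp [coeff_dt, PowerSeries.algebraMap_apply, coeff_C, apply_ite Polynomial.natDegree])
    (fun j => dt (y j)) fun G => FP_chain_X hy dt dt_mul (fun N f hf => X_pow_dvd_iff.2 fun d hd => by
        rw [coeff_dt, X_pow_dvd_iff.1 hf d (by omega), map_zero]) G fun m => dt_map _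
  induction N with
  | zero => simp
  | succ N ih =>
    intro g hg
    have e1 := cramer_DJ (FP c y : MvPolynomial (Gen ι K) ℂ →+* _) f g fun j => dt (y j)
    simp only [RingHom.coe_coe, ← hch, h1, hJ] at e1
    have e2 : X ^ (N + 1) ∣ dt (FP c y g) := by
      refine X_pow_cancel hu (ν := ν) ?_
      rw [e1]
      refine dvd_sum fun j _ => ?_
      rcases h3 j g hg with hj | hj
      · simp [hj]
      · rw [show ν + (N + 1) = N + (ν + 1) by omega, pow_add]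
        exact mul_dvd_mul (ih _ hj) (map_dvd_X _ (h2 j))
    refine X_pow_dvd_iff.2 fun d hd => ?_
    have e4 := X_pow_dvd_iff.1 e2 d hd
    rw [coeff_dt] at e4
    have e5 := FP_map (c := c) (Polynomial.aeval (0 : ℂ) : Polynomial ℂ →ₐ[ℂ] ℂ) hy g
    rw [e0, hg] at e5
    have e6 := congrArg (coeff d) e5
    rw [coeff_map, map_zero, Polynomial.eq_C_of_derivative_eq_zero e4] at e6
    rw [Polynomial.eq_C_of_derivative_eq_zero e4]
    simpa using e6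

lemma deform_aux {ι K : Type*} [DecidableEq ι] [Fintype ι] {c : Gen ι K → ℂ⟦X⟧} {x δ : ι → ℂ⟦X⟧}
    (hx : ∀ j, X ∣ x j) {f : ι → MvPolynomial (Gen ι K) ℂ} {ν a : ℕ} {u : ℂ⟦X⟧} (hu : IsUnit u)
    (hJ : FP c x (Jm f).det = X ^ ν * u) (ha : ν < a) (dδ : ∀ j, X ^ (a + ν) ∣ δ j)
    (h3 : ∀ j g, FP c x g = 0 → δ j = 0 ∨ FP c x (DJ f j g) = 0) :
    ∃ x' : ι → ℂ⟦X⟧, (∀ j, X ^ a ∣ x' j - x j) ∧ (∀ g, FP c x g = 0 → FP c x' g = 0) ∧
      ∀ i, FP c x' (f i) = FP c x (f i) + δ i := by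
  obtain ⟨ι₀, hι⟩ : ∃ ι₀ : ℂ⟦X⟧ →+* (Polynomial ℂ)⟦X⟧, ι₀ = map (algebraMap ℂ (Polynomial ℂ)) :=
    ⟨_, rfl⟩
  have hι₀ : ∀ g, FP c (fun j => ι₀ (x j)) g = ι₀ (FP c x g) := fun g => by
    rw [hι]; exact (FP_map (Algebra.ofId ℂ (Polynomial ℂ)) hx g).symm
  have hX : ι₀ X = X := by rw [hι, map_X]
  have hx' : ∀ j, X ∣ ι₀ (x j) := fun j => hX ▸ map_dvd ι₀ (hx j)
  have hJ' : FP c (fun j => ι₀ (x j)) (Jm f).det = X ^ ν * ι₀ u := by
    rw [hι₀, hJ, map_mul, map_pow, hX]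
  obtain ⟨y, y1, y2⟩ := hensel (a := a) hx' hJ' (hu.map ι₀) ha
    (τ := fun i => ι₀ (FP c x (f i)) + C Polynomial.X * ι₀ (δ i)) fun i => by
      rw [hι₀, sub_add_cancel_left, dvd_neg, hι]
      exact (map_dvd_X _ (dδ i)).mul_left _
  have hy := fun j => X_dvd_of_dvd_sub (hx' j) (by omega) (y1 j)
  have sp : ∀ t : ℂ, (∀ j, X ^ a ∣ map (Polynomial.aeval t : Polynomial ℂ →ₐ[ℂ] ℂ) (y j) - x j) ∧
      ∀ i, FP c (fun j => map (Polynomial.aeval t : Polynomial ℂ →ₐ[ℂ] ℂ) (y j)) (f i) =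
        FP c x (f i) + C t * δ i := fun t => by
    refine ⟨fun j => ?_, fun i => ?_⟩
    · have := map_dvd_X ((Polynomial.aeval t : Polynomial ℂ →ₐ[ℂ] ℂ) : Polynomial ℂ →+* ℂ) (y1 j)
      rwa [map_sub, hι, map_eval_map] at this
    · rw [← FP_map _ hy, y2, map_add, map_mul, hι, map_eval_map, map_eval_map]
      simp
  have e0 := hensel_unique (a := a) hx hJ hu ha (sp 0).1 (y' := x) (by simp)
    (by simpa using (sp 0).2)
  obtain ⟨u', hu', hJy⟩ : ∃ u', IsUnit u' ∧ FP c y (Jm f).det = X ^ ν * u' := by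
    obtain ⟨w, hw⟩ := (pow_dvd_pow _ (show ν + 1 ≤ a by omega)).trans
      (FP_congr (c := c) hy hx' y1 (Jm f).det)
    refine ⟨ι₀ u + X * w, ?_, by rw [hJ'] at hw; linear_combination hw⟩
    simpa [isUnit_iff_constantCoeff] using isUnit_iff_constantCoeff.1 (hu.map ι₀)
  have key := deform_key hy hu' hJy e0 (fun j => by rw [y2, hι]; ext1 n; simp [coeff_dt])
    (fun j => (pow_dvd_pow _ (by omega)).trans (dδ j)) h3
  refine ⟨_, (sp 1).1, fun g hg => ?_, by simpa using (sp 1).2⟩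
  rw [← FP_map _ hy, eq_of_forall_dvd (a := FP c y g) (b := 0) fun N => by simpa using key N g hg,
    map_zero]

theorem deform {ι K : Type*} [DecidableEq ι] [Fintype ι] {c : Gen ι K → ℂ⟦X⟧} {x : ι → ℂ⟦X⟧}
    (hx : ∀ j, X ∣ x j) {κ₀ κ₁ : K} (h0 : ∀ j, c (j, κ₀, 0) = 0) (h1 : ∀ j, c (j, κ₀, 1) = 1)
    (h2 : ∀ j l, c (j, κ₀, l + 2) = 0) (h3 : ∀ j, c (j, κ₁, 0) = X) (h4 : ∀ j, c (j, κ₁, 1) = 1)
    (h5 : ∀ j l, c (j, κ₁, l + 2) = 0) (M₀ : ℕ) :
    ∃ (x' : ι → ℂ⟦X⟧) (f : ι → MvPolynomial (Gen ι K) ℂ), (∀ j, X ^ M₀ ∣ x' j - x j) ∧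
      (∀ j, X ∣ x' j) ∧ (∀ g, FP c x g = 0 → FP c x' g = 0) ∧ (∀ i, FP c x' (f i) = 0) ∧
      FP c x' (Jm f).det ≠ 0 := by
  classical
  obtain ⟨f, f1, f2, f3⟩ := exists_maxRank (FP c x : MvPolynomial (Gen ι K) ℂ →+* ℂ⟦X⟧)
    (fun j => MvPolynomial.X (j, κ₀, 0)) fun i j => by
      simp only [dd_X, RingHom.coe_coe]
      split_ifs
      · exact (FP_lin hx (h1 i) (h2 i)).2
      · exact map_zero _
  simp only [RingHom.coe_coe] at f1 f2 f3
  obtain ⟨ν, u, hu, hJ⟩ := exists_X_pow_mul f2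
  obtain ⟨a, ha⟩ : ∃ a, a = ν + 1 + M₀ := ⟨_, rfl⟩
  obtain ⟨x', y1, g2, y2⟩ := deform_aux (a := a) hx hu hJ (by omega)
    (δ := fun j => if FP c x (f j) = 0 then 0 else (trunc (a + ν) (x j) : ℂ⟦X⟧) - x j) (fun j => by
      split_ifs
      · exact dvd_zero _
      · exact dvd_sub_comm.1 (dvd_sub_trunc _ _)) fun j g hg => by
      by_cases hj : FP c x (f j) = 0
      · simp [hj]
      · exact Or.inr (f3 j hj g hg)
  have g1 := fun j => X_dvd_of_dvd_sub (hx j) (by omega) (y1 j)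
  set S : ι → MvPolynomial (Gen ι K) ℂ := fun j =>
    MvPolynomial.X (j, κ₁, 0) - MvPolynomial.X (j, κ₀, 0) with hS
  have s1 : ∀ j, FP c x' (S j) = X := fun j => by
    simp [hS, (FP_lin g1 (h1 j) (h2 j)).1, (FP_lin g1 (h4 j) (h5 j)).1, h0, h3]
  have s2 : ∀ i j, FP c x' (dd i (S j)) = 0 := fun i j => by
    simp only [hS, map_sub, dd_X]
    split_ifs
    · simp [nx, (FP_lin g1 (h1 j) (h2 j)).2, (FP_lin g1 (h4 j) (h5 j)).2]
    · simp
  refine ⟨x', fun j => if FP c x (f j) = 0 then f j else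
    f j - Polynomial.aeval (S j) (trunc (a + ν) (x j)), fun j =>
      (pow_dvd_pow _ (by omega)).trans (y1 j), g1, g2, fun i => ?_, ?_⟩
  · dsimp only
    split_ifs with hi
    · exact g2 _ hi
    · rw [map_sub, y2, ← Polynomial.aeval_algHom_apply, s1, aeval_X_eq, if_neg hi,
        (f1 i).resolve_left hi, (FP_lin hx (h1 i) (h2 i)).1, h0]
      simp
  · have e1 : FP c x' (Jm fun j => if FP c x (f j) = 0 then f j else
        f j - Polynomial.aeval (S j) (trunc (a + ν) (x j))).det = FP c x' (Jm f).det := by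
      rw [← FP_det, ← FP_det]
      congr 1
      ext i j : 2
      simp only [Matrix.of_apply]
      split_ifs
      · rfl
      · simp [Derivation.map_aeval, s2]
    rw [e1]
    intro h
    have := (pow_dvd_pow _ (show ν + 1 ≤ a by omega)).trans (FP_congr (c := c) g1 hx y1 (Jm f).det)
    rw [h, hJ, zero_sub, dvd_neg] at this
    exact not_dvd_unit hu this

end Pool.Agent.P.MP_26ad15_nt
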