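import Pool.Agent.P.MP_26ad15_nt.ASSas
import Pool.Agent.P.MP_26ad15_nt.ASCore

/-! The functional statement and the statement over a countable field. -/

namespace Pool.Agent.P.MP_26ad15_nt

open Complex Set Filter Topology

/-- The values `z j` and `Γ^(l) (z j)`. -/
noncomputable def valG {ι : Type} (z : ι → ℂ) : ι ⊕ ι × ℕ → ℂ :=
  Sum.elim z fun G => iteratedDeriv G.2 Gamma (z G.1)

section Aux

lemma fun_exists_PQ {κ ι : Type} [Fintype ι] [Fintype κ] (A : Matrix κ ι ℂ) :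
    ∃ (P : Matrix (Fin A.rank) κ ℂ) (Q : Matrix ι (Fin A.rank) ℂ), P * A * Q = 1 := by
  classical
  let b := Module.finBasisOfFinrankEq ℂ (LinearMap.range A.mulVecLin) (n := A.rank) rfl
  obtain ⟨π, hπ⟩ := (LinearMap.range A.mulVecLin).subtype.exists_leftInverse_of_injective
    (Submodule.ker_subtype _)
  obtain ⟨σ, hσ⟩ := A.mulVecLin.rangeRestrict.exists_rightInverse_of_surjective
    (LinearMap.range_rangeRestrict _)
  refine ⟨LinearMap.toMatrix' (b.equivFun.toLinearMap ∘ₗ π),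
    LinearMap.toMatrix' (σ ∘ₗ b.equivFun.symm.toLinearMap), Matrix.toLin'.injective ?_⟩
  rw [Matrix.toLin'_mul, Matrix.toLin'_mul, Matrix.toLin'_toMatrix', Matrix.toLin'_toMatrix',
    Matrix.toLin'_one]
  refine LinearMap.ext fun v => ?_
  have h1 := congrArg Subtype.val (LinearMap.congr_fun hσ (b.equivFun.symm v))
  have h2 := LinearMap.congr_fun hπ (b.equivFun.symm v)
  simp only [LinearMap.comp_apply, LinearMap.id_apply, Submodule.subtype_apply,
    LinearEquiv.coe_coe] at h1 h2 ⊢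
  rw [Matrix.toLin'_apply', show A.mulVecLin _ = _ from h1, h2, LinearEquiv.apply_symm_apply]

lemma fun_rank_le {α : Type*} {𝒰 : Ultrafilter α} {κ ι : Type} [Fintype ι] [Fintype κ]
    {A : κ → ι → α → ℂ} {A₀ : Matrix κ ι ℂ} (h : ∀ a i, Tendsto (A a i) 𝒰 (𝓝 (A₀ a i))) :
    A₀.rank ≤ (Matrix.of fun a i => gm 𝒰 (A a i)).rank := by
  classical
  obtain ⟨P, Q, hPQ⟩ := fun_exists_PQ A₀
  set N := P.map (algebraMap ℂ (α → ℂ)) * Matrix.of A * Q.map (algebraMap ℂ (α → ℂ)) with hN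
  have h1 : ∀ t, N.det t = (P * (Matrix.of fun a i => A a i t) * Q).det := fun t => by
    refine ((Pi.evalRingHom (fun _ => ℂ) t).map_det N).trans ?_
    rw [RingHom.mapMatrix_apply, hN, Matrix.map_mul, Matrix.map_mul]
    rfl
  have h2 : Tendsto (fun t => (P * (Matrix.of fun a i => A a i t) * Q).det) 𝒰 (𝓝 1) := by
    have hc : Continuous fun M : Matrix κ ι ℂ => (P * M * Q).det := by fun_prop
    have := (hc.tendsto A₀).comp (f := fun t => Matrix.of fun a i => A a i t)
      (tendsto_pi_nhds.2 fun a => tendsto_pi_nhds.2 fun i => h a i)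
    rwa [hPQ, Matrix.det_one] at this
  have h3 : (N.map (gm 𝒰).toRingHom).det ≠ 0 := by
    rw [← RingHom.mapMatrix_apply, ← RingHom.map_det]
    refine gm_ne_zero_iff.2 ((h2.eventually_ne one_ne_zero).mono fun t ht => ?_)
    rwa [h1]
  have h4 := Matrix.rank_of_det_ne_zero h3
  rw [Fintype.card_fin, hN, Matrix.map_mul, Matrix.map_mul] at h4
  rw [← h4]
  exact (Matrix.rank_mul_le_left _ _).trans (Matrix.rank_mul_le_right _ _)

lemma fun_rec_mem {k L : Type*} [Field k] [Field L] [Algebra k L] (K : IntermediateField k L)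
    {g ps : ℕ → L} (h0 : g 0 ≠ 0)
    (h : ∀ l, g (l + 1) = ∑ i ∈ Finset.range (l + 1), l.choose i * ps i * g (l - i)) {M : ℕ}
    (hg : ∀ l < M + 1, g l ∈ K) : ∀ l < M, ps l ∈ K := by
  intro l
  induction l using Nat.strong_induction_on with
  | _ l ih =>
    intro hl
    have e : ps l = (g (l + 1) - ∑ i ∈ Finset.range l, l.choose i * ps i * g (l - i)) / g 0 := by
      rw [h, Finset.sum_range_succ, eq_div_iff h0]
      simp
    rw [e]
    refine div_mem (sub_mem (hg _ (by omega)) (sum_mem fun i hi => ?_)) (hg _ (by omega))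
    have := Finset.mem_range.1 hi
    exact mul_mem (mul_mem (natCast_mem _ _) (ih i this (by omega))) (hg _ (by omega))

variable {ι : Type} {E : Type} [NormedAddCommGroup E] [NormedSpace ℂ E] {f : ι → E → ℂ}

lemma fun_analyticAt_valG {t : E} (hf : ∀ i, AnalyticAt ℂ (f i) t) (hp : ∀ i (m : ℕ), f i t ≠ -m)
    (G : ι ⊕ ι × ℕ) : AnalyticAt ℂ (fun t => valG (fun j => f j t) G) t := by
  rcases G with i | G
  · exact hf i
  · exact AnalyticAt.fun_comp (f := f G.1) (analyticAt_iteratedDeriv (analyticAt_Gamma (hp _)) _)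
      (hf _)

lemma fun_chain [Fintype ι] [DecidableEq ι] {t : E} (hf : ∀ i, AnalyticAt ℂ (f i) t)
    (hp : ∀ i (m : ℕ), f i t ≠ -m) (g : MvPolynomial (ι ⊕ ι × ℕ) ℂ) :
    ∃ φ : E →L[ℂ] ℂ, HasFDerivAt (fun t => MvPolynomial.eval (valG fun j => f j t) g) φ t ∧
      ∀ e, φ e = ∑ j, MvPolynomial.eval (valG fun j => f j t) (dG j g) * fderiv ℂ (f j) t e := by
  induction g using MvPolynomial.induction_on with
  | C c => exact ⟨0, by simpa using hasFDerivAt_const (𝕜 := ℂ) c t, by simp⟩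
  | add p q hp hq =>
    obtain ⟨φ, h1, h2⟩ := hp
    obtain ⟨ψ, h3, h4⟩ := hq
    exact ⟨φ + ψ, by simpa using h1.fun_add h3, by simp [h2, h4, add_mul, Finset.sum_add_distrib]⟩
  | mul_X p G ih =>
    obtain ⟨φ, h1, h2⟩ := ih
    obtain ⟨ψ, h3, h4⟩ : ∃ ψ : E →L[ℂ] ℂ, HasFDerivAt (fun t => valG (fun j => f j t) G) ψ t ∧
        ∀ e, ψ e = ∑ j, MvPolynomial.eval (valG fun j => f j t) (dG j (MvPolynomial.X G)) *
          fderiv ℂ (f j) t e := by
      rcases G with i | G
      · exact ⟨_, (hf i).differentiableAt.hasFDerivAt, by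
          simp [dG, valG, apply_ite (MvPolynomial.eval _)]⟩
      · exact ⟨_, (hasDerivAt_iteratedDeriv (analyticAt_Gamma (hp G.1)) G.2).comp_hasFDerivAt t
          (hf G.1).differentiableAt.hasFDerivAt, by
          simp [dG, valG, apply_ite (MvPolynomial.eval _)]⟩
    refine ⟨_, by simpa only [map_mul, MvPolynomial.eval_X] using h1.fun_mul h3, fun e => ?_⟩
    simp only [Derivation.leibniz, smul_eq_mul, map_add, map_mul, MvPolynomial.eval_X, add_mul,
      Finset.sum_add_distrib, add_apply, smul_apply, h2, h4,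
      Finset.mul_sum, mul_assoc]

lemma fun_dom [Fintype ι] {α : Type*} {𝒰 : Ultrafilter α} {z : ι → α → ℂ}
    (hp : ∀ i, ∀ᶠ t in (𝒰 : Filter α), ∀ m : ℕ, z i t ≠ -m) :
    Dom ℂ (fun G => gm 𝒰 fun t => valG (fun j => z j t) G)
      fun G : ι × ℕ => gm 𝒰 fun t => hh G.2 (z G.1 t) := by
  classical
  refine ⟨3 * Fintype.card ι, fun s => ?_⟩
  set x : ι ⊕ ι × ℕ → GF 𝒰 := fun G => gm 𝒰 fun t => valG (fun j => z j t) G with hx
  set M := s.toRight.sup fun G => G.2 with hM
  set B : Finset (ι ⊕ ι × ℕ) := Finset.univ.disjSum (Finset.univ ×ˢ Finset.range (M + 2)) with hB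
  have hs : s ⊆ B := by
    rintro (i | G) h
    · simp [hB]
    · have : G.2 ≤ M := Finset.le_sup (f := fun G : ι × ℕ => G.2) (Finset.mem_toRight.2 h)
      simp [hB]
      omega
  refine ⟨Finset.univ ×ˢ Finset.range M, (B \ s).image x, ?_, fun G hG => ?_⟩
  · have h1 := Finset.card_image_le (s := B \ s) (f := x)
    have h2 := Finset.card_sdiff_add_card_eq_card hs
    simp only [hB, Finset.card_disjSum, Finset.card_product, Finset.card_univ, Finset.card_range]
      at h2 ⊢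
    rw [← hB] at h2 ⊢
    nlinarith
  · refine fun_rec_mem _ (g := fun l => x (Sum.inr (G.1, l)))
      (ps := fun l => gm 𝒰 fun t => PS true l (z G.1 t)) (M := M + 1) ?_ (fun l => ?_)
      (fun l hl => mem_cl_of_mem ?_) (G.2 + 1) (by simpa using hG)
    · exact gm_ne_zero_iff.2 ((hp G.1).mono fun t ht => by
        simpa [valG] using Complex.Gamma_ne_zero ht)
    · simp only [hx, ← map_natCast (gm 𝒰), ← map_mul, ← map_sum]
      refine gm_eq_iff.2 ((hp G.1).mono fun t ht => ?_)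
      simpa [valG] using gamma_rec l ht
    · by_cases h : Sum.inr (G.1, l) ∈ s
      · exact Or.inl ⟨_, h, rfl⟩
      · exact Or.inr (Finset.mem_coe.2 (Finset.mem_image_of_mem _
          (Finset.mem_sdiff.2 ⟨by simp [hB]; omega, h⟩)))

end Aux

theorem as_functional (H : ∀ n, SAS n) {ι κ : Type} [Fintype ι] [Fintype κ] {E : Type}
    [NormedAddCommGroup E] [NormedSpace ℂ E] [FiniteDimensional ℂ E] {U : Set E} (ho : IsOpen U)
    (hc : IsPreconnected U) {f : ι → E → ℂ} (hf : ∀ i, AnalyticOnNhd ℂ (f i) U)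
    (hp : ∀ i, ∀ x ∈ U, ∀ m : ℕ, f i x ≠ -m) (hnc : ∀ i (c : ℂ), ¬ ∀ x ∈ U, f i x = c)
    (hH : ∀ i j, i ≠ j → ∀ a b : ℚ, ¬ ∀ x ∈ U, f i x = a * f j x + b) {x₀ : E} (h0 : x₀ ∈ U)
    (w : κ → E) (s : Finset (ι ⊕ ι × ℕ)) : ∃ b ⊆ s,
      s.card + (Matrix.of fun a i => fderiv ℂ (f i) x₀ (w a)).rank ≤ b.card + Fintype.card ι ∧
      AlgebraicIndepOn ℂ (fun G (x : U) => valG (fun j => f j x) G) b := by
  classical
  have : CompleteSpace E := FiniteDimensional.complete ℂ E
  have : (𝓝 x₀ ⊓ residual E).NeBot := inf_neBot_iff.2 fun _ h1 _ h2 =>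
    inter_comm _ _ ▸ (dense_of_mem_residual h2).inter_nhds_nonempty h1
  set 𝒰 := Ultrafilter.of (𝓝 x₀ ⊓ residual E) with h𝒰
  have hn : (𝒰 : Filter E) ≤ 𝓝 x₀ := (Ultrafilter.of_le _).trans inf_le_left
  have hr : (𝒰 : Filter E) ≤ residual E := (Ultrafilter.of_le _).trans inf_le_right
  have hU : ∀ᶠ t in (𝒰 : Filter E), t ∈ U := hn (ho.mem_nhds h0)
  have hinj : ∀ {h : E → ℂ}, AnalyticOnNhd ℂ h U → gm 𝒰 h = 0 → ∀ t ∈ U, h t = 0 :=
    fun {h} ha h1 => by
      by_contra h2
      obtain ⟨t, h3, h4, h5⟩ := (hU.and ((gm_eq_zero_iff.1 h1).and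
        ((ne_residual ho hc ha h2).filter_mono hr))).exists
      exact h5 h3 h4
  have hy : AI ℂ fun G : ι × ℕ => gm 𝒰 fun t => hh G.2 (f G.1 t) := by
    refine AI.of_countable fun S hS => ?_
    obtain ⟨k, hk, hSk⟩ := exists_closed hS
    refine ⟨k, hSk, ?_⟩
    have := hk.count.to_subtype
    have h1 : ∀ᶠ t in residual E, ∀ j (c : (k : Set ℂ)), t ∈ U → f j t - c ≠ 0 :=
      eventually_countable_forall.2 fun j => eventually_countable_forall.2 fun c =>
        ne_residual ho hc ((hf j).sub analyticOnNhd_const) (by simpa [sub_eq_zero] using hnc j c)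
    have h2 : ∀ᶠ t in residual E, ∀ i j (a b : ℚ), i ≠ j → t ∈ U → f i t - (a * f j t + b) ≠ 0 := by
      simp only [eventually_countable_forall]
      intro i j a b hij
      exact ne_residual ho hc ((hf i).sub ((analyticOnNhd_const.mul (hf j)).add
        analyticOnNhd_const)) (by simpa [sub_eq_zero] using hH i j hij a b)
    obtain ⟨t, h3, h4, h5⟩ := (hU.and ((h1.and h2).filter_mono hr)).exists
    have h6 := H _ ι rfl k hk (fun j => f j t) (fun j hj => h4 j ⟨_, hj⟩ h3 (sub_self _))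
      fun i j hij a b e => h5 i j a b hij h3 (sub_eq_zero.2 e)
    have h7 : AI k fun G : ι × ℕ => hh G.2 (f G.1 t) :=
      h6.of_inj (e := fun G => (G.1, ⟨0, le_rfl, one_pos⟩, G.2))
        (fun G G' e => Prod.ext (congrArg (·.1) e) (congrArg (·.2.2) e)) fun G => by simp [fam]
    refine h7.of_rel fun P hP => ?_
    rw [← MvPolynomial.aeval_map_algebraMap ℂ] at hP ⊢
    rw [gm_aeval (fun (G : ι × ℕ) t => hh G.2 (f G.1 t))] at hP
    exact hinj (fun u hu => analyticAt_mveval (x := fun (G : ι × ℕ) t => hh G.2 (f G.1 t))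
      (fun G => (analyticAt_hh _ (hp _ u hu)).fun_comp (f := f G.1) (hf _ u hu)) _) hP t h3
  have hx := (fun_dom fun i => hU.mono fun t ht => hp i t ht).ai hy
  have hD : ∀ j (e : E), AnalyticOnNhd ℂ (fun t => fderiv ℂ (f j) t e) U := fun j e u hu =>
    ((ContinuousLinearMap.apply ℂ ℂ e).analyticAt _).fun_comp (f := fderiv ℂ (f j)) (hf j u hu).fderiv
  have he : ∀ j, ∃ e : E, gm 𝒰 (fun t => fderiv ℂ (f j) t e) ≠ 0 := fun j => by
    by_contra h
    simp only [not_exists, not_not] at h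
    obtain ⟨c, hc'⟩ := ho.exists_is_const_of_fderiv_eq_zero hc (hf j).differentiableOn
      fun t ht => ContinuousLinearMap.ext fun e => hinj (hD j e) (h e) t ht
    exact hnc j c hc'
  choose e he using he
  have h1 := rk_ge_of_tangent hx (fun (a : κ ⊕ ι) j => gm 𝒰 fun t => fderiv ℂ (f j) t (Sum.elim w e a))
    (fun g hg a => by
      rw [gm_aeval (fun G t => valG (fun j => f j t) G)] at hg
      have h2 := hinj (fun u hu => analyticAt_mveval (x := fun G t => valG (fun j => f j t) G)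
        (fun_analyticAt_valG (fun i => hf i u hu) fun i => hp i u hu) _) hg
      simp only [gm_aeval (fun G t => valG (fun j => f j t) G), ← map_mul, ← map_sum]
      refine gm_eq_zero_iff.2 (hU.mono fun t ht => ?_)
      obtain ⟨φ, h3, h4⟩ := fun_chain (fun i => hf i t ht) (fun i => hp i t ht) g
      have h5 := h4 (Sum.elim w e a)
      rw [h3.unique ((hasFDerivAt_const (0 : ℂ) t).congr_of_eventuallyEq
        (eventually_of_mem (ho.mem_nhds ht) h2))] at h5
      simpa using h5.symm)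
    (fun j => ⟨Sum.inr j, he j⟩) s
  obtain ⟨b, -, h2, h3, -, h4⟩ := exists_basis (k := ℂ)
    (fun G => gm 𝒰 fun t => valG (fun j => f j t) G) (Finset.empty_subset s) (indepOn_empty _)
  refine ⟨b, h2, ?_, algebraicIndependent_iff.2 fun P hP => algebraicIndependent_iff.1 h3 P ?_⟩
  · rw [h4] at h1
    refine le_trans (Nat.add_le_add_left ?_ _) (by exact_mod_cast h1)
    refine (fun_rank_le (𝒰 := 𝒰) (A := fun a i t => fderiv ℂ (f i) t (w a)) fun a i =>
      (hD i (w a) x₀ h0).continuousAt.tendsto.mono_left hn).trans ?_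
    exact Matrix.rank_submatrix_le
      (Matrix.of fun (a : κ ⊕ ι) j => gm 𝒰 fun t => fderiv ℂ (f j) t (Sum.elim w e a)) Sum.inl id
  · rw [gm_aeval (fun (G : (b : Set (ι ⊕ ι × ℕ))) t => valG (fun j => f j t) G)]
    refine gm_eq_zero_iff.2 (hU.mono fun t ht => ?_)
    have := congrArg (Pi.evalAlgHom ℂ (fun _ : U => ℂ) ⟨t, ht⟩) hP
    rw [MvPolynomial.comp_aeval_apply, map_zero] at this
    exact this

theorem as_numeric (H : ∀ n, SAS n) {k : Subfield ℂ} (hk : Closed k) {n : ℕ} (hn : n ≠ 0)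
    {z : Fin n → ℂ} (h1 : ∀ j, z j ∉ k) (h2 : HQ z) (s : Finset (Fin n ⊕ Fin n × ℕ)) :
    ∃ b ⊆ s, s.card + 1 ≤ b.card + n ∧ AlgebraicIndepOn k (valG z) b := by
  classical
  have hd : ∀ {y : ℂ}, (∀ q : ℚ, y ≠ q) → ∀ κ, AnalyticAt ℂ (dK κ) y := fun {y} hy κ => by
    rcases κ with β | _ | _
    · refine AnalyticAt.fun_comp (f := fun y => y + ((β : ℚ) : ℂ)) (analyticAt_hh 0 fun m e =>
        hy (-m - β) ?_) (analyticAt_id.add analyticAt_const)
      push_cast
      linear_combination e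
    · exact analyticAt_id
    · exact analyticAt_Gamma fun m e => hy (-m) (by push_cast; exact e)
  have hq : ∀ j (q : ℚ), z j ≠ q := fun j q e => h1 j (e ▸ SubfieldClass.ratCast_mem k q)
  obtain ⟨γ, γ0, hγ, hnc, hrel⟩ := exists_curve k (d := dK) (κ₀ := Sum.inr false) (z := z)
    (by
      rintro (β | _ | _) y
      · exact (meromorphic_PS true 1 _).comp_analyticAt (g := fun y => y + ((β : ℚ) : ℂ))
          (analyticAt_id.add analyticAt_const)
      · exact analyticAt_id.meromorphicAt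
      · exact Meromorphic.Gamma y) rfl (fun j => hd (hq j)) fun s j h => h1 j (hk.lc n s j h)
  have hγ' : ∀ j, AnalyticOnNhd ℂ (fun t => γ t j) (Metric.ball 0 1) := fun j t ht =>
    analyticAt_pi_iff.1 (hγ t ht) j
  have b0 : (0 : ℂ) ∈ Metric.ball (0 : ℂ) 1 := Metric.mem_ball_self one_pos
  obtain ⟨r, r0, hr⟩ := Metric.eventually_nhds_iff_ball.1
    ((eventually_mem_set.2 (Metric.ball_mem_nhds (0 : ℂ) one_pos)).and (eventually_all.2 fun j =>
      (hγ' j 0 b0).continuousAt.eventually_mem (isOpen_nonpole.mem_nhds fun m e =>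
        hq j (-m) (by rw [← γ0]; push_cast; exact e))))
  have r1 : (0 : ℂ) ∈ Metric.ball (0 : ℂ) r := Metric.mem_ball_self r0
  have hc := (convex_ball (0 : ℂ) r).isPreconnected
  have hf : ∀ j, AnalyticOnNhd ℂ (fun t => γ t j) (Metric.ball 0 r) := fun j t ht =>
    hγ' j t (hr t ht).1
  have hnc' : ∀ j (c : ℂ), ¬ ∀ t ∈ Metric.ball (0 : ℂ) r, γ t j = c := fun j c h => by
    refine hnc j ((hγ' j).eqOn_of_preconnected_of_eventuallyEq analyticOnNhd_const
      (convex_ball (0 : ℂ) 1).isPreconnected b0 ?_)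
    filter_upwards [Metric.ball_mem_nhds (0 : ℂ) r0] with t ht
    rw [h t ht, ← h 0 r1, γ0]
  let j₀ : Fin n := ⟨0, Nat.pos_of_ne_zero hn⟩
  obtain ⟨t₀, ht₀, hD⟩ : ∃ t ∈ Metric.ball (0 : ℂ) r, fderiv ℂ (fun t => γ t j₀) t 1 ≠ 0 := by
    by_contra h
    simp only [not_exists, not_and, not_not] at h
    obtain ⟨c, hc'⟩ := Metric.isOpen_ball.exists_is_const_of_fderiv_eq_zero hc
      (hf j₀).differentiableOn fun t ht => ContinuousLinearMap.ext_ring (h t ht)
    exact hnc' j₀ c hc'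
  obtain ⟨b, h3, h4, h5⟩ := as_functional H Metric.isOpen_ball hc hf (fun j t ht => (hr t ht).2 j)
    hnc' (fun i j hij a b h => h2 i j hij a b (by simpa [γ0] using h 0 r1)) ht₀
    (fun _ : Unit => (1 : ℂ)) s
  refine ⟨b, h3, ?_, algebraicIndependent_iff.2 fun P hP => ?_⟩
  · rw [Fintype.card_fin] at h4
    refine le_trans (Nat.add_le_add_left ?_ _) h4
    refine le_trans ?_ (Matrix.rank_submatrix_le _ id fun _ : Unit => j₀)
    rw [Matrix.rank_of_det_ne_zero (by simpa using hD)]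
    simp
  let e : ↥(b : Set (Fin n ⊕ Fin n × ℕ)) → Gen (Fin n) (BB ⊕ Bool) := fun G =>
    Sum.elim (fun j => (j, Sum.inr false, 0)) (fun G : Fin n × ℕ => (G.1, Sum.inr true, G.2)) G.1
  have he : ∀ y, Ev k (fun _ => dK) y (MvPolynomial.rename e P) =
      MvPolynomial.aeval (fun G : (b : Set (Fin n ⊕ Fin n × ℕ)) => valG y G) P := fun y => by
    rw [Ev, MvPolynomial.aeval_rename]
    congr 2
    funext ⟨G, _⟩
    cases G <;> rfl
  refine MvPolynomial.map_injective (algebraMap k ℂ) (algebraMap k ℂ).injective ?_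
  rw [map_zero]
  refine algebraicIndependent_iff.1 h5 _ (funext fun t => ?_)
  have h6 : ∀ u ∈ Metric.ball (0 : ℂ) r, MvPolynomial.eval
      (fun G : (b : Set (Fin n ⊕ Fin n × ℕ)) => valG (γ u) G)
        (MvPolynomial.map (algebraMap k ℂ) P) = 0 := by
    by_contra h
    have h7 := ne_residual Metric.isOpen_ball hc (fun u hu => analyticAt_mveval
      (x := fun (G : (b : Set (Fin n ⊕ Fin n × ℕ))) t => valG (γ t) G)
      (fun G => fun_analyticAt_valG (f := fun j t => γ t j) (fun i => hf i u hu)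
        (fun i => (hr u hu).2 i) G.1) _) h
    have h8 : ∀ᶠ u in residual ℂ, ∀ j (q : ℚ), u ∈ Metric.ball (0 : ℂ) r → γ u j - q ≠ 0 :=
      eventually_countable_forall.2 fun j => eventually_countable_forall.2 fun q =>
        ne_residual Metric.isOpen_ball hc ((hf j).sub analyticOnNhd_const)
          (by simpa [sub_eq_zero] using hnc' j q)
    obtain ⟨u, ⟨h9, h10⟩, hu⟩ := (dense_of_mem_residual (h7.and h8)).exists_mem_open
      Metric.isOpen_ball ⟨0, r1⟩
    refine h9 hu ?_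
    rw [← MvPolynomial.aeval_eq_eval, MvPolynomial.aeval_map_algebraMap, ← he]
    exact hrel _ (by rw [he]; exact hP) u (hr u hu).1 fun j =>
      hd fun q e => h10 j q hu (sub_eq_zero.2 e)
  have := MvPolynomial.comp_aeval_apply
    (fun (G : (b : Set (Fin n ⊕ Fin n × ℕ))) (x : Metric.ball (0 : ℂ) r) => valG (γ x) G)
    (Pi.evalAlgHom ℂ (fun _ : Metric.ball (0 : ℂ) r => ℂ) t) (MvPolynomial.map (algebraMap k ℂ) P)
  exact this.trans (h6 t t.2)

end Pool.Agent.P.MP_26ad15_nt
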