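import Pool.Agent.P.MP_26ad15_nt.ASAsy

/-! The ring of formal expressions in functions of the coordinates and their derivatives. -/

namespace Pool.Agent.P.MP_26ad15_nt

open MvPolynomial Finset

/-- Generators: coordinate, kind of function, order of the derivative. -/
abbrev Gen (ι K : Type*) := ι × K × ℕ

variable {ι K : Type*}

/-- The next derivative. -/
def nx (G : Gen ι K) : Gen ι K := (G.1, G.2.1, G.2.2 + 1)

section Alg

variable [DecidableEq ι] {k : Type*} [CommRing k]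

/-- The derivative with respect to a coordinate. -/
noncomputable def dd (j : ι) : Derivation k (MvPolynomial (Gen ι K) k) (MvPolynomial (Gen ι K) k) :=
  mkDerivation k fun G => if G.1 = j then X (nx G) else 0

lemma dd_X (j : ι) (G : Gen ι K) :
    dd j (X G : MvPolynomial (Gen ι K) k) = if G.1 = j then X (nx G) else 0 := mkDerivation_X _ _ _

lemma dd_C (j : ι) (c : k) : dd j (C c : MvPolynomial (Gen ι K) k) = 0 := derivation_C _ _

lemma dd_mul (j : ι) (f g : MvPolynomial (Gen ι K) k) : dd j (f * g) = f * dd j g + g * dd j f :=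
  Derivation.leibniz _ _ _

lemma dd_rename {K' : Type*} (e : K → K') (j : ι) (g : MvPolynomial (Gen ι K) k) :
    dd j (rename (Prod.map id (Prod.map e id)) g) = rename (Prod.map id (Prod.map e id)) (dd j g) := by
  induction g using MvPolynomial.induction_on with
  | C c => simp
  | add p q hp hq => simp [hp, hq]
  | mul_X p G hp =>
    simp only [map_mul, dd_mul, hp, rename_X, dd_X, map_add, Prod.map_fst, id]
    split_ifs <;> simp [nx]

lemma dd_map {k' : Type*} [CommRing k'] (φ : k →+* k') (j : ι) (g : MvPolynomial (Gen ι K) k) :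
    dd j (map φ g) = map φ (dd j g) := by
  induction g using MvPolynomial.induction_on with
  | C c => simp
  | add p q hp hq => simp [hp, hq]
  | mul_X p G hp =>
    simp only [map_mul, dd_mul, hp, map_X, dd_X, map_add]
    split_ifs <;> simp

variable [Fintype ι] {A : Type*} [CommRing A] [Algebra k A]

lemma sum_dd_mul_X (Ψ : MvPolynomial (Gen ι K) k →ₐ[k] A) (v : ι → A) (g : MvPolynomial (Gen ι K) k)
    (G : Gen ι K) : ∑ j, Ψ (dd j (g * X G)) * v j =
      Ψ g * (Ψ (X (nx G)) * v G.1) + Ψ (X G) * ∑ j, Ψ (dd j g) * v j := by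
  simp only [dd_mul, dd_X, map_add, map_mul, add_mul, sum_add_distrib, mul_sum, mul_assoc,
    apply_ite Ψ, map_zero, ite_mul, zero_mul, mul_ite, mul_zero, sum_ite_eq, mem_univ, if_true]

lemma chain_alg (Ψ : MvPolynomial (Gen ι K) k →ₐ[k] A) (D : A →+ A)
    (hD : ∀ a b, D (a * b) = a * D b + b * D a) (hC : ∀ c, D (algebraMap k A c) = 0) (v : ι → A)
    (h : ∀ G, D (Ψ (X G)) = Ψ (X (nx G)) * v G.1) (g : MvPolynomial (Gen ι K) k) :
    D (Ψ g) = ∑ j, Ψ (dd j g) * v j := by
  induction g using MvPolynomial.induction_on with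
  | C c => simp [hC]
  | add p q hp hq => simp [hp, hq, add_mul, sum_add_distrib]
  | mul_X p G hp => rw [sum_dd_mul_X, map_mul, hD, h, hp]

section Filt

variable {Γ σ : Type*} [AddCommMonoid Γ] {V : Γ → AddSubgroup A}
  (hV : ∀ {a b x y}, x ∈ V a → y ∈ V b → x * y ∈ V (a + b))
include hV

omit [DecidableEq ι] [Fintype ι] in
lemma filt_zero (hC : ∀ c, algebraMap k A c ∈ V 0) {Ψ : MvPolynomial σ k →ₐ[k] A}
    (h : ∀ G, Ψ (X G) ∈ V 0) (g : MvPolynomial σ k) : Ψ g ∈ V 0 := by
  induction g using MvPolynomial.induction_on with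
  | C c => simpa using hC c
  | add p q hp hq => simpa using add_mem hp hq
  | mul_X p G hp => simpa using hV hp (h G)

omit [DecidableEq ι] [Fintype ι] in
lemma filt_sub {Ψ Ψ' : MvPolynomial σ k →ₐ[k] A} (h0 : ∀ g, Ψ g ∈ V 0) (h0' : ∀ g, Ψ' g ∈ V 0)
    {a : Γ} (h : ∀ G, Ψ (X G) - Ψ' (X G) ∈ V a) (g : MvPolynomial σ k) : Ψ g - Ψ' g ∈ V a := by
  induction g using MvPolynomial.induction_on with
  | C c => simp
  | add p q hp hq => simpa [add_sub_add_comm] using add_mem hp hq
  | mul_X p G hp =>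
    have := add_mem (by simpa using hV (h0 p) (h G)) (by simpa using hV hp (h0' (X G)))
    convert! this using 1
    simp only [map_mul]
    ring

lemma first_order {Ψ Ψ' Ψ₀ : MvPolynomial (Gen ι K) k →ₐ[k] A} (h0 : ∀ g, Ψ g ∈ V 0)
    (h0' : ∀ g, Ψ' g ∈ V 0) (h0'' : ∀ g, Ψ₀ g ∈ V 0) {a b : Γ} (ha : ∀ g, Ψ g - Ψ₀ g ∈ V a)
    (ha' : ∀ g, Ψ' g - Ψ₀ g ∈ V a) {ε : ι → A} (hε : ∀ j, ε j ∈ V b)
    (h : ∀ G, Ψ (X G) - Ψ' (X G) - Ψ₀ (X (nx G)) * ε G.1 ∈ V (a + b))
    (g : MvPolynomial (Gen ι K) k) : Ψ g - Ψ' g - ∑ j, Ψ₀ (dd j g) * ε j ∈ V (a + b) := by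
  induction g using MvPolynomial.induction_on with
  | C c => simp
  | add p q hp hq =>
    convert! add_mem hp hq using 1
    simp only [map_add, add_mul, sum_add_distrib]
    ring
  | mul_X p G hp =>
    have h1 : ∑ j, Ψ₀ (dd j p) * ε j ∈ V b := sum_mem fun j _ => by simpa using hV (h0'' _) (hε j)
    have h2 : Ψ₀ (X (nx G)) * ε G.1 ∈ V b := by simpa using hV (h0'' _) (hε _)
    have := add_mem (add_mem (hV (ha p) h2) (by simpa only [zero_add] using hV (h0 p) (h G)))
      (add_mem (hV (ha' (X G)) h1) (by simpa only [zero_add] using hV (h0' (X G)) hp))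
    convert! this using 1
    rw [sum_dd_mul_X, map_mul, map_mul]
    ring

end Filt

/-- The Jacobian matrix of a square system. -/
noncomputable def Jm (f : ι → MvPolynomial (Gen ι K) k) : Matrix ι ι (MvPolynomial (Gen ι K) k) :=
  Matrix.of fun i j => dd j (f i)

/-- The Jacobian determinant with one row replaced. -/
noncomputable def DJ (f : ι → MvPolynomial (Gen ι K) k) (j : ι) (g : MvPolynomial (Gen ι K) k) :
    MvPolynomial (Gen ι K) k := (Jm (Function.update f j g)).det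

lemma cramer_DJ {B : Type*} [CommRing B] (Φ : MvPolynomial (Gen ι K) k →+* B)
    (f : ι → MvPolynomial (Gen ι K) k) (g : MvPolynomial (Gen ι K) k) (v : ι → B) :
    Φ (Jm f).det * ∑ i, Φ (dd i g) * v i = ∑ j, Φ (DJ f j g) * ∑ i, Φ (dd i (f j)) * v i := by
  have h : ∀ i, (Jm f).det * dd i g = ∑ j, DJ f j g * dd i (f j) := fun i => by
    have := congrFun (Matrix.mulVec_cramer (Jm f).transpose fun i => dd i g) i
    rw [Matrix.det_transpose, Pi.smul_apply, smul_eq_mul] at this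
    rw [← this, Matrix.mulVec, dotProduct]
    refine sum_congr rfl fun j _ => ?_
    rw [Matrix.cramer_transpose_apply, mul_comm, DJ]
    congr 2
    ext a b : 2
    by_cases e : a = j
    · subst e; simp [Jm]
    · simp [Jm, Matrix.updateRow_ne e, Function.update_of_ne e]
  simp only [mul_sum, ← mul_assoc, ← map_mul, h, map_sum, sum_mul]
  rw [sum_comm]

lemma exists_maxRank {B : Type*} [CommRing B] [Nontrivial B] (Ψ : MvPolynomial (Gen ι K) k →+* B)
    (e : ι → MvPolynomial (Gen ι K) k) (he : ∀ i j, Ψ (dd j (e i)) = if i = j then 1 else 0) :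
    ∃ f : ι → MvPolynomial (Gen ι K) k, (∀ j, Ψ (f j) = 0 ∨ f j = e j) ∧ Ψ (Jm f).det ≠ 0 ∧
      ∀ j, Ψ (f j) ≠ 0 → ∀ g, Ψ g = 0 → Ψ (DJ f j g) = 0 := by
  classical
  have hex : ∃ n, ∃ f : ι → MvPolynomial (Gen ι K) k, (∀ j, Ψ (f j) = 0 ∨ f j = e j) ∧
      Ψ (Jm f).det ≠ 0 ∧ (univ.filter fun j => Ψ (f j) ≠ 0).card = n := by
    refine ⟨_, e, fun j => Or.inr rfl, ?_, rfl⟩
    have : Ψ.mapMatrix (Jm e) = 1 := by
      ext i j; simp [Jm, he, Matrix.one_apply]
    rw [RingHom.map_det, this, Matrix.det_one]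
    exact one_ne_zero
  obtain ⟨f, h1, h2, h3⟩ := Nat.find_spec hex
  refine ⟨f, h1, h2, fun j hj g hg => ?_⟩
  by_contra hc
  refine (Nat.find_min' hex ⟨Function.update f j g, fun i => ?_, hc, rfl⟩).not_gt ?_
  · by_cases e : i = j
    · subst e; left; simpa using hg
    · simpa [Function.update_of_ne e] using h1 i
  · rw [← h3]
    refine card_lt_card ⟨fun i hi => ?_, fun hs => ?_⟩
    · by_cases e : i = j
      · subst e; simpa using hj
      · simpa [Function.update_of_ne e] using hi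
    · simpa [hg] using hs (show j ∈ _ by simpa using hj)

end Alg

section Ev

variable (k : Type*) [CommRing k] [Algebra k ℂ]

/-- Evaluation of formal expressions. -/
noncomputable def Ev (d : ι → K → ℂ → ℂ) (ξ : ι → ℂ) : MvPolynomial (Gen ι K) k →ₐ[k] ℂ :=
  aeval fun G => iteratedDeriv G.2.2 (d G.1 G.2.1) (ξ G.1)

variable {k}

lemma Ev_X (d : ι → K → ℂ → ℂ) (ξ : ι → ℂ) (G : Gen ι K) :
    Ev k d ξ (X G) = iteratedDeriv G.2.2 (d G.1 G.2.1) (ξ G.1) := aeval_X _ _

lemma Ev_map (d : ι → K → ℂ → ℂ) (ξ : ι → ℂ) (g : MvPolynomial (Gen ι K) k) :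
    Ev ℂ d ξ (map (algebraMap k ℂ) g) = Ev k d ξ g := aeval_map_algebraMap _ _ _

lemma hasDerivAt_Ev [DecidableEq ι] [Fintype ι] {d : ι → K → ℂ → ℂ} {γ : ℂ → ι → ℂ} {v : ι → ℂ}
    {t : ℂ} (hγ : ∀ j, HasDerivAt (fun t => γ t j) (v j) t)
    (hd : ∀ j κ, AnalyticAt ℂ (d j κ) (γ t j)) (g : MvPolynomial (Gen ι K) k) :
    HasDerivAt (fun t => Ev k d (γ t) g) (∑ j, Ev k d (γ t) (dd j g) * v j) t := by
  induction g using MvPolynomial.induction_on with
  | C c => simpa [dd_C] using hasDerivAt_const t _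
  | add p q hp hq => simpa [add_mul, sum_add_distrib] using hp.fun_add hq
  | mul_X p G hp =>
    have := hp.fun_mul ((hasDerivAt_iteratedDeriv (hd G.1 G.2.1) G.2.2).comp t (hγ G.1))
    rw [sum_dd_mul_X]
    simp only [map_mul, Ev_X]
    convert! this using 1
    simp only [nx, Function.comp_apply]
    ring

lemma analyticAt_Ev {E : Type*} [NormedAddCommGroup E] [NormedSpace ℂ E] {d : E → ι → K → ℂ → ℂ}
    {γ : E → ι → ℂ} {t : E}
    (h : ∀ G : Gen ι K, AnalyticAt ℂ (fun t => iteratedDeriv G.2.2 (d t G.1 G.2.1) (γ t G.1)) t)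
    (g : MvPolynomial (Gen ι K) k) : AnalyticAt ℂ (fun t => Ev k (d t) (γ t) g) t := by
  induction g using MvPolynomial.induction_on with
  | C c => simpa using analyticAt_const
  | add p q hp hq => simpa using hp.fun_add hq
  | mul_X p G hp => simpa only [map_mul, Ev_X] using hp.fun_mul (h G)

lemma differentiableOn_Ev {d : ℂ → ι → K → ℂ → ℂ} {γ : ℂ → ι → ℂ} {W : Set ℂ}
    (h : ∀ G : Gen ι K,
      DifferentiableOn ℂ (fun t => iteratedDeriv G.2.2 (d t G.1 G.2.1) (γ t G.1)) W)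
    (g : MvPolynomial (Gen ι K) k) : DifferentiableOn ℂ (fun t => Ev k (d t) (γ t) g) W := by
  induction g using MvPolynomial.induction_on with
  | C c => simp
  | add p q hp hq => simpa using hp.fun_add hq
  | mul_X p G hp => simpa only [map_mul, Ev_X] using hp.fun_mul (h G)

lemma meromorphicOn_Ev {d : ι → K → ℂ → ℂ} {γ : ℂ → ι → ℂ} {W : Set ℂ}
    (hd : ∀ j κ, Meromorphic (d j κ)) (hγ : ∀ j, AnalyticOnNhd ℂ (fun t => γ t j) W)
    (g : MvPolynomial (Gen ι K) k) : MeromorphicOn (fun t => Ev k d (γ t) g) W := by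
  intro t ht
  induction g using MvPolynomial.induction_on with
  | C c => simp
  | add p q hp hq => simpa using hp.fun_add hq
  | mul_X p G hp =>
    have : MeromorphicAt (iteratedDeriv G.2.2 (d G.1 G.2.1)) (γ t G.1) := by
      rw [iteratedDeriv_eq_iterate]
      exact (hd _ _ _).iterated_deriv
    simpa only [map_mul, Ev_X, Function.comp_def] using
      hp.fun_mul (this.comp_analyticAt (g := fun t => γ t G.1) (hγ G.1 t ht))

end Ev

end Pool.Agent.P.MP_26ad15_nt
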