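import Pool.Agent.P.MP_26ad15_nt.ASPolD
import Pool.Agent.P.MP_26ad15_nt.ASAux4
import Pool.Agent.P.MP_26ad15_nt.ASFin

/-! The algebraic conclusion of the Stokes analysis. -/

namespace Pool.Agent.P.MP_26ad15_nt

open Complex Set Filter Topology Asymptotics MvPolynomial

lemma pa_aeval {ι : Type} [Fintype ι] [DecidableEq ι] (p : ι → Polynomial ℂ) (cc : ι → ℂ)
    (x : ι → PowerSeries ℂ) (g : MvPolynomial (Gen ι BB) ℂ) :
    aeval (fun G => algebraMap (PowerSeries ℂ) LL (ffam p x G)) g =
      FL (cx p cc) x (rename inB g) := by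
  change aeval (algebraMap (PowerSeries ℂ) LL ∘ ffam p x) g =
    algebraMap (PowerSeries ℂ) LL (FP (cx p cc) x (rename inB g))
  rw [FP_rename, aeval_algebraMap_apply]

lemma pa_const (c : ℂ) :
    algebraMap (PowerSeries ℂ) LL (PowerSeries.C c) = algebraMap ℂ LL c :=
  (IsScalarTower.algebraMap_apply ℂ (PowerSeries ℂ) LL c).symm

theorem fai_of_StI {ι : Type} [Fintype ι] [DecidableEq ι] {p : ι → Polynomial ℂ}
    {x : ι → PowerSeries ℂ} (H : Curve p x) {b : ι → Bool} {M : AddSubmonoid (Polynomial ℂ)}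
    {J : JD ι M} (hJ : J.Of p b) (hS : StI J (FL (cx p J.cc) x))
    (IH : ∀ m < Fintype.card ι, FAS m) : FAI p x := by
  classical
  have hinj := IsFractionRing.injective (PowerSeries ℂ) LL
  have hom : ∀ j, FL (cx p J.cc) x (X (j, Sum.inr 2, 0)) =
      algebraMap (PowerSeries ℂ) LL (om p J.cc x j) := fun j => rfl
  have hexp : ∀ j m, FL (cx p J.cc) x (X (j, Sum.inr 2, m)) =
      algebraMap ℂ LL (J.cc j ^ m) * FL (cx p J.cc) x (X (j, Sum.inr 2, 0)) := fun j m => by
    rw [hom, ← pa_const, ← map_mul, ← FP_exp H.dvd]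
    rfl
  refine AI.of_derivations (S := {G | G.1 ∈ J.D}) (fun j : ι => dd j) ?_ ?_
  · intro g hg hg' G hG
    simp only [pa_aeval p J.cc x] at hg hg' ⊢
    by_cases hv : G ∈ g.vars
    · refine J.coef_zero (V := Polynomial ℂ) M.subtype Subtype.val_injective
        (fun j k => by rw [hJ.w]; exact vc_ne_zero _ _)
        (fun j β => by rw [hJ.ζ]; exact Complex.exp_ne_zero _)
        (fun j β β' h => by rw [hJ.ζ, hJ.ζ] at h; exact QQ_injective _ _ h)
        (ω := fun j => FL (cx p J.cc) x (X (j, Sum.inr 2, 0))) (fun j h => ?_)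
        (fun i hi j hj hij β β' u v hu hv' h h' => ?_)
        (fun G => FL (cx p J.cc) x (rename inB (pderiv G g)))
        (g.vars.filter fun G => G.1 ∈ J.D) (fun G hG => (Finset.mem_filter.1 hG).2)
        (fun N v hN => ?_) G (Finset.mem_filter.2 ⟨hv, hG⟩)
      · rw [hom, map_eq_zero_iff _ hinj] at h
        have := constantCoeff_om (p := p) (cc := J.cc) H.dvd j
        rw [h, map_zero] at this
        exact zero_ne_one this
      · have h1 := congrArg (fun z : M => (z : Polynomial ℂ)) h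
        simp only [AddSubmonoidClass.coe_nsmul, hJ.π i hi, hJ.π j hj] at h1
        refine om_pow_ne H hJ.cc hij β β' hu hv' h1 (hinj ?_)
        simpa only [map_pow, map_mul, pa_const, hom, hJ.ζ] using h'
      · obtain ⟨δ, hδ, hI⟩ := hS N
        exact J.stokes_alg hexp hδ hI hg hg' v hN
    · rw [pderiv_eq_zero_of_notMem_vars hv, map_zero, map_zero]
  · have hlt : Fintype.card {j // j ∉ J.D} < Fintype.card ι := by
      obtain ⟨j, hj⟩ := hJ.ne
      exact Fintype.card_subtype_lt (x := j) (not_not.2 hj)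
    have h := IH _ hlt {j // j ∉ J.D} rfl (fun j => p j) (fun j => x j)
      ⟨fun j => H.fin j, fun j => H.dvd j, fun j => H.nc j,
        fun i j hij => H.hq i j fun h => hij (Subtype.ext h)⟩
    refine AI.of_inj h (e := fun G => (⟨G.1.1, G.2⟩, G.1.2)) (fun G G' e => ?_) fun G => ?_
    · rw [Prod.mk.injEq, Subtype.mk.injEq] at e
      exact Subtype.ext (Prod.ext e.1 e.2)
    · simp only [ffam, FP, aeval_X]
      rfl

end Pool.Agent.P.MP_26ad15_nt
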