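import Pool.Agent.P.MP_26ad15_nt.ASPolD
import Pool.Agent.P.MP_26ad15_nt.ASAux3

/-! Construction of the data along a ray. -/

namespace Pool.Agent.P.MP_26ad15_nt

open Complex Set Filter Topology Asymptotics MvPolynomial

/-- The weight of an exponent along a ray. -/
noncomputable def pr_lam (κ : ℕ) (θ : ℝ) : Polynomial ℂ →+ ℝ where
  toFun q := -(q.coeff κ * cexp (θ * I) ^ κ).re
  map_zero' := by simp
  map_add' q r := by rw [Polynomial.coeff_add, add_mul, add_re]; ring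

lemma pr_lam_apply (κ : ℕ) (θ : ℝ) (q : Polynomial ℂ) :
    pr_lam κ θ q = -(q.coeff κ * cexp (θ * I) ^ κ).re := rfl

/-- The lattice of exponents. -/
noncomputable def pr_G {ι : Type} (p : ι → Polynomial ℂ) : Submodule ℤ (Polynomial ℂ) :=
  Submodule.span ℤ (range fun j =>
    Polynomial.C (2 * Real.pi * I) * (p j - Polynomial.C ((p j).coeff 0)))

lemma pr_G_coeff {ι : Type} {p : ι → Polynomial ℂ} {q : Polynomial ℂ} (hq : q ∈ pr_G p) :
    q.coeff 0 = 0 := by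
  induction hq using Submodule.span_induction with
  | mem x hx => obtain ⟨j, rfl⟩ := hx; simp
  | zero => simp
  | add x y _ _ h1 h2 => simp [h1, h2]
  | smul a x _ h => rw [Polynomial.coeff_smul, h, smul_zero]

lemma pr_G_deg {ι : Type} {p : ι → Polynomial ℂ} {q : Polynomial ℂ} (hq : q ∈ pr_G p)
    (h0 : q ≠ 0) : q.natDegree ≠ 0 := fun h =>
  h0 (by rw [Polynomial.eq_C_of_natDegree_eq_zero h, pr_G_coeff hq, map_zero])

lemma pr_G_mem {ι : Type} (p : ι → Polynomial ℂ) (e : Bool) (j : ι) :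
    Polynomial.C (2 * Real.pi * I * sg e) * (p j - Polynomial.C ((p j).coeff 0)) ∈ pr_G p := by
  have h : Polynomial.C (2 * Real.pi * I) * (p j - Polynomial.C ((p j).coeff 0)) ∈ pr_G p :=
    Submodule.subset_span ⟨j, rfl⟩
  cases e
  · have := neg_mem h
    rwa [← neg_mul, ← map_neg, ← mul_neg_one] at this
  · rwa [← mul_one (2 * Real.pi * I : ℂ)] at h

/-- The monoid of exponents. -/
noncomputable def pr_M {ι : Type} (p : ι → Polynomial ℂ) (κ : ℕ) (θ : ℝ) :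
    AddSubmonoid (Polynomial ℂ) where
  carrier := {q | q ∈ pr_G p ∧ q.natDegree ≤ κ ∧ 0 ≤ pr_lam κ θ q}
  add_mem' h h' := ⟨add_mem h.1 h'.1, (Polynomial.natDegree_add_le _ _).trans
    (max_le h.2.1 h'.2.1), by rw [map_add]; exact add_nonneg h.2.2 h'.2.2⟩
  zero_mem' := ⟨zero_mem _, by simp, by simp⟩

/-- Exponentials of polynomials. -/
noncomputable def pr_ex (M : AddSubmonoid (Polynomial ℂ)) (t : ℂ) : Multiplicative M →* ℂ where
  toFun q := cexp ((q.toAdd : Polynomial ℂ).eval t)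
  map_one' := by simp
  map_mul' q r := by simp [exp_add]

lemma pr_ex_apply (M : AddSubmonoid (Polynomial ℂ)) (t : ℂ) (q : M) :
    pr_ex M t (Multiplicative.ofAdd q) = cexp ((q : Polynomial ℂ).eval t) := rfl

lemma pr_e1 {q : Polynomial ℂ} {κ : ℕ} (hq : q.natDegree ≤ κ) (h0 : κ ≠ 0) (θ : ℝ) :
    (fun y => cexp (q.eval (sR θ y)⁻¹)) ∈
      Vm atTop (fun y => Real.exp (κ * y)) (pr_lam κ θ q) := fun μ hμ => by
  refine IsBigO.of_bound' ?_
  filter_upwards [re_poly_bounds hq h0 θ (sub_pos.2 hμ)] with y hy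
  rw [norm_exp, Real.norm_of_nonneg (Real.exp_pos _).le, Real.exp_le_exp]
  have := (abs_le.1 hy).2
  rw [pr_lam_apply] at this
  linarith

lemma pr_e2 {q : Polynomial ℂ} {κ : ℕ} (hq : q.natDegree ≤ κ) (h0 : κ ≠ 0) (θ : ℝ) {μ : ℝ}
    (hμ : pr_lam κ θ q < μ) : (fun y => Real.exp (-(μ * Real.exp (κ * y)))) =O[atTop]
      fun y => cexp (q.eval (sR θ y)⁻¹) := by
  refine IsBigO.of_bound' ?_
  filter_upwards [re_poly_bounds hq h0 θ (sub_pos.2 hμ)] with y hy
  rw [norm_exp, Real.norm_of_nonneg (Real.exp_pos _).le, Real.exp_le_exp]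
  have := (abs_le.1 hy).1
  rw [pr_lam_apply] at this
  linarith

lemma pr_e3 {u v : Polynomial ℂ} {θ : ℝ} (hd : (u - v).natDegree ≠ 0)
    (h : ((u - v).leadingCoeff * cexp (θ * I) ^ (u - v).natDegree).re < 0) (n : ℕ) :
    (fun y => cexp (u.eval (sR θ y)⁻¹)) =O[atTop]
      fun y => sR θ y ^ n * cexp (v.eval (sR θ y)⁻¹) :=
  ((exp_poly_small hd h n).mul (isBigO_refl (fun y => cexp (v.eval (sR θ y)⁻¹)) _)).congr_left
    fun y => by rw [← exp_add, Polynomial.eval_sub, sub_add_cancel]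

lemma pr_σT {κ : ℕ} (h0 : κ ≠ 0) (θ : ℝ) :
    (fun y => (sR θ y)⁻¹) ∈ Vm atTop (fun y => Real.exp (κ * y)) 0 := fun μ hμ => by
  have k0 : (0 : ℝ) < κ := by exact_mod_cast Nat.pos_of_ne_zero h0
  refine IsBigO.of_bound' ?_
  filter_upwards [lin_le_exp 1 (neg_pos.2 hμ) k0] with y hy
  rw [norm_inv, sR, norm_exp_neg, ← Real.exp_neg, Real.norm_of_nonneg (Real.exp_pos _).le,
    Real.exp_le_exp]
  simpa using hy

lemma pr_adm {ι : Type} [Finite ι] {p : ι → Polynomial ℂ} {γ θ : ℝ} {b : ι → Bool} (hγ : 0 < γ)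
    (hγ' : γ ≤ 1 / 2) (hB : ∀ j, (p j).natDegree ≠ 0 →
      Ang (2 * γ) (b j) ((p j).leadingCoeff * cexp (θ * I) ^ (p j).natDegree)) (N : ℕ) :
    ∀ᶠ y in atTop, Adm γ p N (tb p b) (sR θ y) := by
  obtain ⟨m, hm, hn⟩ := exists_near hγ hγ' p
  filter_upwards [(tendsto_sR θ).eventually hn, ((Real.tendsto_exp_atTop.const_mul_atTop
    hm).const_mul_atTop (show 0 < γ ^ 2 by positivity)).eventually_ge_atTop (6 * N)] with y h1 h2
  refine h1.adm_tb ?_ fun j hj => Ang.of_exp (by simpa using hB j hj)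
  rw [sR, norm_exp_neg_pow]
  simpa using h2

lemma pr_sol {ι : Type} [Fintype ι] [DecidableEq ι] {x : ι → PowerSeries ℂ}
    {f : ι → MvPolynomial (Gen ι KK) ℂ} {ν : ℕ} {A : ℝ} {d : ℝ → ι → KK → ℂ → ℂ} {σ : ℝ → ℂ}
    (h : ∀ᶠ y in atTop, NokP x f ν A (d y) (σ y)) :
    ∃ ξ : ℝ → ι → ℂ, ∀ᶠ y in atTop, SolP x f ν (d y) (σ y) (ξ y) :=
  (Filter.skolem (P := fun y (ξ : ι → ℂ) => SolP x f ν (d y) (σ y) ξ)).1
    (h.mono fun _ h => exists_sol_pt h)

lemma pr_jump {α : Type*} {l : Filter α} (e : Bool) {z : α → ℂ}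
    (hz : Tendsto (fun a => QQ e (z a)) l (𝓝 0)) (k N : ℕ) :
    (fun a => PS (!e) (k + 1) (z a) - PS e (k + 1) (z a) - ∑ r ∈ Finset.range N,
      vc e (k + 1) * (r : ℂ) ^ (k + 1) * QQ e (z a) ^ r) =O[l] fun a => QQ e (z a) ^ N := by
  refine (((asyN_VV e k N).comp hz).any hz (dvd_sub_trunc N _)).congr' ?_ EventuallyEq.rfl
  filter_upwards [hz.eventually_ne zero_ne_one] with a ha
  have h1 := reflection_PS e (k + 1) (z := z a) fun m hm => ha ((QQ_eq_one_iff e _).2 ⟨m, hm⟩)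
  rw [if_neg (Nat.succ_ne_zero k), zero_add] at h1
  rw [← h1, add_sub_cancel_left, Polynomial.eval, PowerSeries.eval₂_trunc_eq_sum_range]
  simp

theorem exists_RD {ι : Type} [Fintype ι] [DecidableEq ι] (p : ι → Polynomial ℂ)
    (hpol : ∃ j, (p j).natDegree ≠ 0) :
    ∃ (b : ι → Bool) (M : AddSubmonoid (Polynomial ℂ)) (J : JD ι M), J.Of p b ∧
      ∀ x f ν u, Iso p J.cc x f ν u → ∃ (σ : ℝ → ℂ) (T : ℝ → ℝ) (ex : ℝ → Multiplicative M →* ℂ)
        (d d' : ℝ → ι → KK → ℂ → ℂ) (ξ ξ' : ℝ → ι → ℂ),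
        RD J (cx p J.cc) x f ν atTop σ T ex d d' ξ ξ' := by
  classical
  obtain ⟨j₀, hj₀, hmin⟩ := Finset.exists_min_image
    (Finset.univ.filter fun j => (p j).natDegree ≠ 0) (fun j => (p j).natDegree)
    (hpol.imp fun j hj => by simpa using hj)
  obtain ⟨κ, hκ⟩ : ∃ κ, (p j₀).natDegree = κ := ⟨_, rfl⟩
  have h0 : κ ≠ 0 := hκ ▸ (Finset.mem_filter.1 hj₀).2
  have hκ' : ∀ j, (p j).natDegree ≠ 0 → κ ≤ (p j).natDegree := fun j hj =>
    hκ ▸ hmin j (by simpa using hj)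
  have k0 : (0 : ℝ) < κ := by exact_mod_cast Nat.pos_of_ne_zero h0
  have hc : (pr_G p : Set (Polynomial ℂ)).Countable := Set.countable_coe_iff.1
    (inferInstanceAs (Countable (Submodule.span ℤ (range _))))
  obtain ⟨γ, α, β, α', β', θ, b, b', hγ, hγ', hs, hs', hA, hA', hB, hB', hb0, hb, hΛ⟩ :=
    exists_sectors (fun j => (p j).leadingCoeff) (fun j => (p j).natDegree) h0
      (fun j hj h => hj (by rw [Polynomial.leadingCoeff_eq_zero.1 h]; simp)) hκ
      (Λ := (fun q => (q.leadingCoeff, q.natDegree)) '' ((pr_G p : Set (Polynomial ℂ)) \ {0}))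
      ((hc.mono sdiff_subset).image _) (by
        rintro _ ⟨q, hq, rfl⟩
        exact ⟨Polynomial.leadingCoeff_ne_zero.2 hq.2, pr_G_deg hq.1 hq.2⟩)
  obtain ⟨P, hP⟩ : ∃ P : ι → Polynomial ℂ, P = fun j => Polynomial.C (2 * Real.pi * I * sg (b j)) *
    (p j - Polynomial.C ((p j).coeff 0)) := ⟨_, rfl⟩
  have P1 : ∀ j, b' j ≠ b j → 0 < pr_lam κ θ (P j) := fun j hj => by
    obtain ⟨h1, h2⟩ := hb j hj
    have e1 : (P j).coeff κ * cexp (θ * I) ^ κ = ((2 * Real.pi : ℝ) : ℂ) *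
        (I * (sg (b j) * (p j).leadingCoeff * cexp (θ * I) ^ κ)) := by
      simp only [hP, Polynomial.coeff_C_mul, Polynomial.coeff_sub, Polynomial.coeff_C, if_neg h0,
        sub_zero]
      rw [← h1, Polynomial.coeff_natDegree]
      push_cast
      ring
    rw [pr_lam_apply, e1, re_ofReal_mul, I_mul_re, mul_neg, neg_neg]
    exact mul_pos Real.two_pi_pos h2
  have P2 : ∀ j, b' j ≠ b j → (P j).natDegree ≤ κ := fun j hj => by
    rw [hP]
    refine (Polynomial.natDegree_C_mul_le _ _).trans ?_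
    rw [Polynomial.natDegree_sub_C]
    exact (hb j hj).1.le
  have P3 : ∀ j, P j ∈ pr_G p := fun j => hP ▸ pr_G_mem p (b j) j
  obtain ⟨j₁, hj₁, hm⟩ := Finset.exists_min_image (Finset.univ.filter fun j => b' j ≠ b j)
    (fun j => pr_lam κ θ (P j)) ⟨j₀, by simpa using hb0⟩
  have b1 := (Finset.mem_filter.1 hj₁).2
  obtain ⟨π, hπ⟩ : ∃ π : ι → pr_M p κ θ, ∀ j, b' j ≠ b j → (π j : Polynomial ℂ) = P j :=
    ⟨fun j => if h : b' j ≠ b j then ⟨P j, P3 j, P2 j h, (P1 j h).le⟩ else 0,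
      fun j h => congrArg Subtype.val (dif_pos h)⟩
  let J : JD ι (pr_M p κ θ) :=
    { D := Finset.univ.filter fun j => b' j ≠ b j
      π := π
      π₀ := π j₁
      lam := (pr_lam κ θ).comp (pr_M p κ θ).subtype
      cc := fun j => 2 * Real.pi * I * sg (b j)
      w := fun j => vc (b j)
      ζ := fun j β => QQ (b j) ((p j).coeff 0 + (β : ℚ))
      lam_nonneg := fun v => v.2.2.2
      lam_pos := by
        change 0 < pr_lam κ θ (π j₁)
        rw [hπ j₁ b1]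
        exact P1 j₁ b1
      div := fun j hj => by
        have h := (Finset.mem_filter.1 hj).2
        refine ⟨⟨P j - P j₁, sub_mem (P3 j) (P3 j₁), (Polynomial.natDegree_sub_le _ _).trans
          (max_le (P2 j h) (P2 j₁ b1)), by rw [map_sub]; exact sub_nonneg.2 (hm j hj)⟩, ?_⟩
        ext1
        rw [AddSubmonoid.coe_add, hπ j h, hπ j₁ b1, add_sub_cancel]
      w_succ := fun j k => by simp only [vc]; ring }
  refine ⟨b, pr_M p κ θ, J, ⟨⟨j₁, hj₁⟩, fun _ => rfl,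
    fun j hj => (hπ j (Finset.mem_filter.1 hj).2).trans (congrFun hP j), fun _ _ => rfl,
    fun _ _ => rfl⟩, fun x f ν u H => ?_⟩
  have tσ := tendsto_sR θ
  have tT : Tendsto (fun y => Real.exp (κ * y)) atTop atTop :=
    Real.tendsto_exp_atTop.comp (tendsto_id.const_mul_atTop k0)
  obtain ⟨A, -, hN⟩ := H.nok hγ hγ' tσ (ϕ := fun _ => tb p b) (pr_adm hγ hγ' hB _)
  obtain ⟨A', -, hN'⟩ := H.nok hγ hγ' tσ (ϕ := fun _ => tb p b') (pr_adm hγ hγ' hB' _)
  obtain ⟨ξ, hξ⟩ := pr_sol hN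
  obtain ⟨ξ', hξ'⟩ := pr_sol hN'
  refine ⟨sR θ, fun y => Real.exp (κ * y), fun y => pr_ex _ (sR θ y)⁻¹,
    fun y => dat p J.cc (tb p b) (sR θ y), fun y => dat p J.cc (tb p b') (sR θ y), ξ, ξ',
    { hσ := tσ
      hT := tT
      σT := pr_σT h0 θ
      e1 := fun v => pr_e1 v.2.2.1 h0 θ
      e2 := fun v μ hμ => pr_e2 v.2.2.1 h0 θ hμ
      e3 := fun u v huv => ?_
      good := fun N => Adm.good hγ hγ' H.fin tσ (ϕ := fun _ => tb p b) (pr_adm hγ hγ' hB N)
      bdd' := Adm.bdD H.fin (tσ.mono_right nhdsWithin_le_nhds) (ϕ := fun _ => tb p b')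
        (pr_adm hγ hγ' hB' 0)
      nok := ⟨A, hN⟩
      nok' := ⟨A', hN'⟩
      sol := hξ
      sol' := hξ'
      small := fun g hg μ μ' _ => ray H hγ hγ' h0 hκ' hs.1 hs.2.1 hs.2.2 hA hB hξ hg μ'
      small' := fun g hg μ μ' _ => ray H hγ hγ' h0 hκ' hs'.1 hs'.2.1 hs'.2.2 hA' hB' hξ' hg μ'
      j1 := fun _ _ _ => rfl
      j2 := fun y j β hj => ?_
      j3 := fun j hj β k N => ?_ }⟩
  · have g1 : (u : Polynomial ℂ) - v ∈ pr_G p := sub_mem u.2.1 v.2.1
    have g2 : (u : Polynomial ℂ) - v ≠ 0 := sub_ne_zero.2 fun h => huv (Subtype.ext h)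
    rcases (hΛ _ ⟨_, ⟨g1, g2⟩, rfl⟩).lt_or_gt with h | h
    · exact Or.inl (pr_e3 (pr_G_deg g1 g2) h)
    · refine Or.inr (pr_e3 ?_ ?_) <;> rw [← neg_sub, Polynomial.natDegree_neg]
      · exact pr_G_deg g1 g2
      · rw [Polynomial.leadingCoeff_neg, neg_mul, neg_re]
        exact neg_neg_of_pos h
  · have h : b' j = b j := by simpa [J] using hj
    simp only [dat, tb, Sum.elim_inl, h]
  · have h := (Finset.mem_filter.1 hj).2
    have h1 : (p j).natDegree ≠ 0 := by rw [(hb j h).1]; exact h0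
    have h2 : b' j = !b j := Bool.eq_not.2 h
    have e1 : ∀ y, J.qq (pr_ex _ (sR θ y)⁻¹) (dat p J.cc (tb p b) (sR θ y)) (ξ y) j β =
        QQ (b j) ((p j).eval (sR θ y)⁻¹ + (β : ℚ) + ξ y j) := fun y => by
      rw [JD.qq, Ev_X, pr_ex_apply]
      change QQ (b j) ((p j).coeff 0 + (β : ℚ)) * cexp (2 * Real.pi * I * sg (b j) * ξ y j) *
        cexp ((π j : Polynomial ℂ).eval _) = _
      rw [hπ j h, hP, QQ, QQ, ← exp_add, ← exp_add]
      simp only [Polynomial.eval_mul, Polynomial.eval_C, Polynomial.eval_sub]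
      congr 1
      ring
    have e2 : Tendsto (fun y => QQ (b j) ((p j).eval (sR θ y)⁻¹ + (β : ℚ) + ξ y j)) atTop
        (𝓝 0) := by
      have t1 : Tendsto (fun y => cexp ((P j).eval (sR θ y)⁻¹)) atTop (𝓝 0) :=
        (pr_e1 (P2 j h) h0 θ _ (half_lt_self (P1 j h))).trans_tendsto
          (Real.tendsto_exp_neg_atTop_nhds_zero.comp (tT.const_mul_atTop (half_pos (P1 j h))))
      have t2 : (fun y => Ev ℂ (dat p J.cc (tb p b) (sR θ y)) (ξ y) (X (j, Sum.inr 2, 0))) =O[atTop]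
          fun _ => (1 : ℝ) :=
        (Ev_isBigO_one (Adm.bdD H.fin (tσ.mono_right nhdsWithin_le_nhds) (ϕ := fun _ => tb p b)
          (pr_adm hγ hγ' hB 0)) ((hN.and hξ).mono fun y h => h.1.norm_le h.2.1) _).congr_left
          fun y => EvF_apply _ _ _ y
      refine (((t2.const_mul_left (J.ζ j β)).mul (isBigO_refl _ _).norm_right).trans_tendsto
        (by simpa only [one_mul, norm_zero] using t1.norm)).congr fun y => ?_
      rw [← e1, JD.qq, pr_ex_apply, ← hπ j h]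
    simp only [e1, Ev_X, dat, Sum.elim_inl, tb, if_neg h1, iteratedDeriv_comp_const_add,
      iteratedDeriv_PS, h2]
    exact pr_jump (b j) e2 k N

end Pool.Agent.P.MP_26ad15_nt
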