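import Pool.Agent.P.MP_26ad15_nt.ASDefs

/-! The tower of two places. -/

namespace Pool.Agent.P.MP_26ad15_nt

open Complex Set Filter Topology Asymptotics

variable {α : Type} {𝒰 : Ultrafilter α} {k : Subfield ℂ}

lemma pt_aeval_mem {σ : Type} {U : σ → GF 𝒰} (hU : ∀ j, U j ∈ FinV 𝒰) (Q : MvPolynomial σ k) :
    MvPolynomial.aeval U Q ∈ FinV 𝒰 :=
  (pl_aeval (O := ⟨FinV 𝒰, le_rfl⟩) hU Q).1

lemma pt_one (O : Plc 𝒰) : pl O (1 : GF 𝒰) = 1 := by simpa using pl_const (O := O) 1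

lemma pt_approx {A σ : Type} {ρ : GF 𝒰} {U : σ → GF 𝒰} (hU : ∀ j, U j ∈ FinV 𝒰) {x : A → GF 𝒰}
    (hx : ∀ i (N : ℕ), ∃ Q : MvPolynomial σ k, (x i - MvPolynomial.aeval U Q) / ρ ^ N ∈ FinV 𝒰)
    (hx' : ∀ i, x i ∈ FinV 𝒰) (p : MvPolynomial A k) (N : ℕ) :
    ∃ Q : MvPolynomial σ k, (MvPolynomial.aeval x p - MvPolynomial.aeval U Q) / ρ ^ N ∈ FinV 𝒰 := by
  induction p using MvPolynomial.induction_on with
  | C c => exact ⟨MvPolynomial.C c, by simp⟩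
  | add p q hp hq =>
    obtain ⟨Q, hQ⟩ := hp
    obtain ⟨Q', hQ'⟩ := hq
    refine ⟨Q + Q', ?_⟩
    convert add_mem hQ hQ' using 1
    simp only [map_add]
    ring
  | mul_X p i hp =>
    obtain ⟨Q, hQ⟩ := hp
    obtain ⟨Q', hQ'⟩ := hx i N
    refine ⟨Q * Q', ?_⟩
    convert add_mem (mul_mem hQ (hx' i)) (mul_mem (pt_aeval_mem hU Q) hQ') using 1
    simp only [map_mul, MvPolynomial.aeval_X]
    ring

lemma pt_unit {σ : Type} {O₁ O₂ : Plc 𝒰} {ρ : GF 𝒰} (h0 : ρ ≠ 0) (h1 : ρ ∈ O₁.1.nonunits)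
    (h2 : ∀ x, (∀ N : ℕ, x / ρ ^ N ∈ FinV 𝒰) → x ∈ O₂.1.nonunits) {U : σ → GF 𝒰} {c : GF 𝒰}
    (hc : ∀ N : ℕ, ∃ Q : MvPolynomial σ k, (c - MvPolynomial.aeval U Q) / ρ ^ N ∈ FinV 𝒰)
    (hn : c ∉ O₂.1.nonunits) :
    ∃ Q : MvPolynomial σ k, pl O₁ (MvPolynomial.aeval U Q / c) = 1 := by
  have hc0 : c ≠ 0 := by
    rintro rfl
    exact hn (zero_mem _)
  obtain ⟨N, hN⟩ := not_forall.1 (mt (h2 c) hn)
  have hN' := ((FinV 𝒰).mem_or_inv_mem _).resolve_left hN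
  obtain ⟨Q, hQ⟩ := hc (N + 1)
  refine ⟨Q, ?_⟩
  have hρ : ρ ∈ O₁.1 := ValuationSubring.nonunits_subset h1
  have ha : (c - MvPolynomial.aeval U Q) / ρ ^ (N + 1) * (c / ρ ^ N)⁻¹ ∈ O₁.1 :=
    O₁.2 (mul_mem hQ hN')
  have e : MvPolynomial.aeval U Q / c =
      1 - (c - MvPolynomial.aeval U Q) / ρ ^ (N + 1) * (c / ρ ^ N)⁻¹ * ρ := by
    field_simp
    ring
  rw [e, pl_sub (one_mem _) (mul_mem ha hρ), pl_mul ha hρ, (pl_eq_zero_iff hρ).2 h1, mul_zero,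
    sub_zero, pt_one]

/-- Residues of the field generated by a family. -/
def ptT (k : Subfield ℂ) (O : Plc 𝒰) {σ : Type} (U : σ → GF 𝒰) : Set (RF O) :=
  {t | ∃ r, r ∈ O.1 ∧ r ∈ cl k (range U) ∧ pl O r = t}

lemma pt_rk {σ : Type} [Fintype σ] (O : Plc 𝒰) (U : σ → GF 𝒰) :
    rk k (ptT k O U) ≤ (Fintype.card σ : ℕ) := by
  classical
  refine Matroid.eRk_le_iff.2 fun I hI hi => ?_
  choose r hr1 hr2 hr3 using fun t : I => hI t.2
  have h1 : AlgebraicIndependent k fun t : I => (t : RF O) :=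
    AlgebraicIndependent.matroid_indep_iff.1 hi
  have h2 : AlgebraicIndependent k r := by
    refine algebraicIndependent_iff.2 fun P hP => algebraicIndependent_iff.1 h1 P ?_
    have := (pl_aeval hr1 P).2
    rw [hP, show pl O (0 : GF 𝒰) = 0 by simpa using pl_const (O := O) 0] at this
    simpa only [hr3] using this.symm
  have h3 : (AlgebraicIndependent.matroid k (GF 𝒰)).Indep (range r) :=
    AlgebraicIndependent.matroid_indep_iff.2 h2.to_subtype_range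
  have h4 : I.encard ≤ rk k (range r) := by
    rw [rk, h3.eRk_eq_encard]
    exact h2.injective.encard_range
  refine h4.trans ?_
  refine (rk_le_of_subset_cl (t := range U) (by rintro _ ⟨t, rfl⟩; exact hr2 t)).trans ?_
  have h5 := rk_le_card (k := k) (Finset.univ.image U)
  rw [Finset.coe_image, Finset.coe_univ, image_univ] at h5
  exact h5.trans (by exact_mod_cast Finset.card_image_le)

lemma pt_aeval_cl {σ : Type} (U : σ → GF 𝒰) (Q : MvPolynomial σ k) :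
    MvPolynomial.aeval U Q ∈ cl k (range U) := by
  induction Q using MvPolynomial.induction_on with
  | C c => simp
  | add p q hp hq => simpa using add_mem hp hq
  | mul_X p i hp => simpa using mul_mem hp (mem_cl_of_mem ⟨i, rfl⟩)

lemma pt_prod {ι : Type} {O : Plc 𝒰} {y : ι → GF 𝒰} (hy : ∀ i, y i ∈ O.1) (m : ι →₀ ℕ) :
    ∏ i ∈ m.support, y i ^ m i ∈ O.1 ∧
      pl O (∏ i ∈ m.support, y i ^ m i) = ∏ i ∈ m.support, pl O (y i) ^ m i := by
  have := pl_aeval (k := ⊥) hy (MvPolynomial.monomial m 1)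
  simpa [MvPolynomial.aeval_monomial, Finsupp.prod] using this

theorem place_tower {A B σ : Type} [Finite σ] {O₁ O₂ : Plc 𝒰} (hO : O₁.1 ≤ O₂.1) {ρ : GF 𝒰}
    (h0 : ρ ≠ 0) (h1 : ρ ∈ O₁.1.nonunits)
    (h2 : ∀ x, (∀ N : ℕ, x / ρ ^ N ∈ FinV 𝒰) → x ∈ O₂.1.nonunits) {U : σ → GF 𝒰}
    (hU : ∀ j, U j ∈ FinV 𝒰) {x : A → GF 𝒰}
    (hx : ∀ i (N : ℕ), ∃ Q : MvPolynomial σ k, (x i - MvPolynomial.aeval U Q) / ρ ^ N ∈ FinV 𝒰)
    {y : B → GF 𝒰} (hy : ∀ i, y i ∈ O₁.1) (H1 : AI k fun i => pl O₂ (x i))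
    (H2 : AI k fun i => pl O₁ (y i)) :
    AI k (Sum.elim (fun i => pl O₂ (y i)) fun i => pl O₂ (x i)) := by
  classical
  have := Fintype.ofFinite σ
  have hx' : ∀ i, x i ∈ FinV 𝒰 := fun i => by
    obtain ⟨Q, hQ⟩ := hx i 0
    simpa using add_mem hQ (pt_aeval_mem hU Q)
  refine AI.tower H1 (indepOn_cl (pt_rk O₁ U) H2) fun b hb => ?_
  refine algebraicIndependent_iff.2 fun P hP => ?_
  by_contra hP0
  have hp : ∀ m, ∃ p : MvPolynomial A k,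
      MvPolynomial.aeval (fun i => pl O₂ (x i)) p = (P.coeff m).1 := fun m => by
    exact (Algebra.adjoin_range_eq_range_aeval k fun i => pl O₂ (x i)).le (P.coeff m).2
  choose p hp using hp
  set c : ((b : Set B) →₀ ℕ) → GF 𝒰 := fun m => MvPolynomial.aeval x (p m) with hc
  have hc1 : ∀ m, c m ∈ O₂.1 := fun m => O₂.2 (pt_aeval_mem hx' _)
  have hc2 : ∀ m, pl O₂ (c m) = (P.coeff m).1 := fun m =>
    (pl_aeval (fun i => O₂.2 (hx' i)) (p m)).2.trans (hp m)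
  have hc3 : ∀ m ∈ P.support, pl O₂ (c m) ≠ 0 := fun m hm h =>
    MvPolynomial.mem_support_iff.1 hm (Subtype.ext ((hc2 m).symm.trans h))
  have hc4 : ∀ m ∈ P.support, c m ≠ 0 := fun m hm h =>
    hc3 m hm (by rw [h]; simpa using pl_const (O := O₂) 0)
  obtain ⟨m₀, hm₀, hmax⟩ := P.support.exists_max_image (fun m => O₁.1.valuation (c m))
    (MvPolynomial.support_nonempty.2 hP0)
  have hd : ∀ m ∈ P.support, c m / c m₀ ∈ O₁.1 := fun m hm => by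
    rw [← O₁.1.valuation_le_one_iff, map_div₀]
    exact div_le_one_of_le₀ (hmax m hm) zero_le
  have hQ : ∀ m ∈ P.support, ∃ Q : MvPolynomial σ k, pl O₁ (MvPolynomial.aeval U Q / c m) = 1 :=
    fun m hm => pt_unit h0 h1 h2 (pt_approx hU hx hx' (p m))
      (mt (pl_eq_zero_iff (hc1 m)).2 (hc3 m hm))
  have hT : ∀ m ∈ P.support, pl O₁ (c m / c m₀) ∈ cl k (ptT k O₁ U) := fun m hm => by
    obtain ⟨Q, hQ1⟩ := hQ m hm
    obtain ⟨Q₀, hQ₀⟩ := hQ m₀ hm₀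
    obtain ⟨a1, -, -⟩ := inv_mem_of_pl_ne (hQ1.trans_ne one_ne_zero)
    obtain ⟨-, a2, a3⟩ := inv_mem_of_pl_ne (hQ₀.trans_ne one_ne_zero)
    have e : MvPolynomial.aeval U Q / MvPolynomial.aeval U Q₀ =
        c m / c m₀ * (MvPolynomial.aeval U Q / c m) * (MvPolynomial.aeval U Q₀ / c m₀)⁻¹ := by
      have := hc4 m hm
      have := hc4 m₀ hm₀
      field_simp
    refine mem_cl_of_mem ⟨MvPolynomial.aeval U Q / MvPolynomial.aeval U Q₀, ?_,
      div_mem (pt_aeval_cl U Q) (pt_aeval_cl U Q₀), ?_⟩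
    · rw [e]
      exact mul_mem (mul_mem (hd m hm) a1) a2
    · rw [e, pl_mul (mul_mem (hd m hm) a1) a2, pl_mul (hd m hm) a1, a3, hQ1, hQ₀, inv_one, mul_one,
        mul_one]
  have hy1 : ∀ i : (b : Set B), y i ∈ O₁.1 := fun i => hy i
  have hy2 : ∀ i : (b : Set B), y i ∈ O₂.1 := fun i => hO (hy i)
  obtain ⟨w, hw⟩ : ∃ w : ((b : Set B) →₀ ℕ) → GF 𝒰, ∀ m, w m = ∏ i ∈ m.support, y i ^ m i :=
    ⟨_, fun _ => rfl⟩
  have hw1 : ∀ m, w m ∈ O₁.1 ∧ pl O₁ (w m) = ∏ i ∈ m.support, pl O₁ (y i) ^ m i := fun m => by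
    rw [hw]; exact pt_prod hy1 m
  have hw2 : ∀ m, w m ∈ O₂.1 ∧ pl O₂ (w m) = ∏ i ∈ m.support, pl O₂ (y i) ^ m i := fun m => by
    rw [hw]; exact pt_prod hy2 m
  have hs : ∑ m ∈ P.support, c m * w m ∈ O₂.1 := sum_mem fun m _ => mul_mem (hc1 m) (hw2 m).1
  have hs2 : pl O₂ (∑ m ∈ P.support, c m * w m) = 0 := by
    rw [pl_sum (x := fun m => c m * w m) _ fun m _ => mul_mem (hc1 m) (hw2 m).1, ← hP,
      MvPolynomial.aeval_def, MvPolynomial.eval₂_eq]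
    refine Finset.sum_congr rfl fun m _ => ?_
    rw [pl_mul (hc1 m) (hw2 m).1, hc2, (hw2 m).2]
    rfl
  obtain ⟨-, a2, -⟩ := inv_mem_of_pl_ne (hc3 m₀ hm₀)
  have hs3 : ∑ m ∈ P.support, c m / c m₀ * w m ∈ O₁.1.nonunits := by
    refine ValuationSubring.nonunits_le_nonunits.2 hO ?_
    have e : ∑ m ∈ P.support, c m / c m₀ * w m = (∑ m ∈ P.support, c m * w m) * (c m₀)⁻¹ := by
      rw [Finset.sum_mul]
      exact Finset.sum_congr rfl fun m _ => by ring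
    rw [e, ← pl_eq_zero_iff (mul_mem hs a2), pl_mul hs a2, hs2, zero_mul]
  have hs4 : ∀ m ∈ P.support, c m / c m₀ * w m ∈ O₁.1 := fun m hm =>
    mul_mem (hd m hm) (hw1 m).1
  rw [← pl_eq_zero_iff (sum_mem hs4), pl_sum (x := fun m => c m / c m₀ * w m) _ hs4] at hs3
  have hz := algebraicIndependent_iff.1 hb
    (∑ m ∈ P.support.attach, MvPolynomial.monomial m.1 ⟨pl O₁ (c m / c m₀), hT m.1 m.2⟩) (by
      rw [map_sum, ← hs3, ← Finset.sum_attach P.support]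
      refine Finset.sum_congr rfl fun m _ => ?_
      rw [MvPolynomial.aeval_monomial, pl_mul (hd m.1 m.2) (hw1 m.1).1, (hw1 m.1).2]
      rfl)
  have hz' := congrArg (MvPolynomial.coeff m₀) hz
  rw [MvPolynomial.coeff_sum, Finset.sum_eq_single ⟨m₀, hm₀⟩, MvPolynomial.coeff_monomial,
    if_pos rfl] at hz'
  · have := congrArg Subtype.val hz'
    simp only [div_self (hc4 m₀ hm₀), pt_one] at this
    exact one_ne_zero this
  · intro m _ hm
    rw [MvPolynomial.coeff_monomial, if_neg fun e => hm (Subtype.ext e)]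
  · simp

end Pool.Agent.P.MP_26ad15_nt
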