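import Pool.Agent.P.MP_26ad15_nt.ASMove
import Pool.Agent.P.MP_26ad15_nt.ASClus
import Pool.Agent.P.MP_26ad15_nt.ASPlace
import Pool.Agent.P.MP_26ad15_nt.ASCaseA
import Pool.Agent.P.MP_26ad15_nt.ASAux

/-! The inductive step for places. -/

namespace Pool.Agent.P.MP_26ad15_nt

open Complex Set Filter Topology Asymptotics

section Val

variable {L : Type*} [Field L] (V : ValuationSubring L) {ρ : L}

/-- The localisation of a valuation ring at the powers of an element. -/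
def trO2 (h : ρ ∈ V) : ValuationSubring L :=
  V.ofLE
    { carrier := {x | ∃ N : ℕ, x * ρ ^ N ∈ V}
      mul_mem' := by
        rintro x y ⟨N, hN⟩ ⟨M, hM⟩
        exact ⟨N + M, by convert! mul_mem hN hM using 1; ring⟩
      one_mem' := ⟨0, by simp⟩
      add_mem' := by
        rintro x y ⟨N, hN⟩ ⟨M, hM⟩
        exact ⟨N + M, by
          convert! add_mem (mul_mem hN (pow_mem h M)) (mul_mem hM (pow_mem h N)) using 1; ring⟩
      zero_mem' := ⟨0, by simp⟩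
      neg_mem' := by
        rintro x ⟨N, hN⟩
        exact ⟨N, by simpa using neg_mem hN⟩ }
    fun x hx => ⟨0, by simpa using hx⟩

lemma tr_mem_of_sq {x : L} (h : x ^ 2 ∈ V) : x ∈ V := by
  rw [← V.valuation_le_one_iff] at h ⊢
  rw [map_pow] at h
  exact (pow_le_one_iff two_ne_zero).1 h

/-- The smallest coarsening of a valuation ring in which an element is not a unit. -/
def trO1 (h : ρ ∈ V) : ValuationSubring L :=
  V.ofLE
    { carrier := {x | ∀ m : ℕ, x ^ m * ρ ∈ V}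
      mul_mem' := by
        intro x y hx hy m
        refine tr_mem_of_sq V ?_
        convert! mul_mem (hx (2 * m)) (hy (2 * m)) using 1
        ring
      one_mem' := fun m => by simpa using h
      add_mem' := by
        have key : ∀ x y : L, (∀ m : ℕ, y ^ m * ρ ∈ V) → x / y ∈ V → y ≠ 0 →
            ∀ m : ℕ, (x + y) ^ m * ρ ∈ V := fun x y hy hxy h0 m => by
          convert! mul_mem (pow_mem (add_mem hxy V.one_mem) m) (hy m) using 1
          rw [← mul_assoc, ← mul_pow]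
          congr 2
          field_simp
        intro x y hx hy
        rcases eq_or_ne x 0 with rfl | hx0
        · simpa using hy
        rcases eq_or_ne y 0 with rfl | hy0
        · simpa using hx
        rcases V.mem_or_inv_mem (x / y) with h1 | h1
        · exact key x y hy h1 hy0
        · rw [add_comm]
          exact key y x hx (by simpa using h1) hx0
      zero_mem' := fun m => mul_mem (pow_mem V.zero_mem m) h
      neg_mem' := by
        intro x hx m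
        rw [neg_pow, mul_assoc]
        exact mul_mem (pow_mem (neg_mem V.one_mem) m) (hx m) }
    fun x hx m => mul_mem (pow_mem hx m) h

variable {V}

lemma tr_mem_O2 (h : ρ ∈ V) {x : L} : x ∈ trO2 V h ↔ ∃ N : ℕ, x * ρ ^ N ∈ V := Iff.rfl

lemma tr_mem_O1 (h : ρ ∈ V) {x : L} : x ∈ trO1 V h ↔ ∀ m : ℕ, x ^ m * ρ ∈ V := Iff.rfl

lemma tr_le_O2 (h : ρ ∈ V) : V ≤ trO2 V h := fun _ hx => ⟨0, by simpa using hx⟩

lemma tr_le_O1 (h : ρ ∈ V) : V ≤ trO1 V h := fun _ hx m => mul_mem (pow_mem hx m) h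

lemma tr_O1_le_O2 (h : ρ ∈ V) : trO1 V h ≤ trO2 V h := fun _ hx => ⟨1, by simpa using hx 1⟩

lemma tr_O2_le (h : ρ ∈ V) {O : ValuationSubring L} (hO : V ≤ O) (h1 : ρ ∉ O.nonunits) :
    trO2 V h ≤ O := by
  rintro x ⟨N, hN⟩
  rw [ValuationSubring.mem_nonunits_iff_or, not_or, not_not] at h1
  convert! mul_mem (hO hN) (pow_mem h1.2 N) using 1
  rw [mul_assoc, ← mul_pow, mul_inv_cancel₀ h1.1, one_pow, mul_one]

lemma tr_nonunits_O2 (h : ρ ∈ V) (h0 : ρ ≠ 0) (h1 : ρ ∈ V.nonunits) (x : L) :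
    x ∈ (trO2 V h).nonunits ↔ ∀ N : ℕ, x / ρ ^ N ∈ V := by
  have h2 : ρ⁻¹ ∉ V := (V.mem_nonunits_iff_or.1 h1).resolve_left h0
  rw [ValuationSubring.mem_nonunits_iff_or, tr_mem_O2]
  constructor
  · rintro (rfl | hx) N
    · simp
    · have := (V.mem_or_inv_mem _).resolve_left fun e => hx ⟨N, e⟩
      rwa [mul_inv, inv_inv, ← div_eq_mul_inv] at this
  · intro hx
    rcases eq_or_ne x 0 with rfl | hx0
    · exact Or.inl rfl
    · refine Or.inr fun ⟨N, hN⟩ => h2 ?_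
      convert! mul_mem (hx (N + 1)) hN using 1
      field_simp
      ring

lemma tr_nonunits_O1 (h : ρ ∈ V) (h0 : ρ ≠ 0) (h1 : ρ ∈ V.nonunits) (x : L) :
    x ∈ (trO1 V h).nonunits ↔ ∃ m : ℕ, x ^ m / ρ ∈ V := by
  have h2 : ρ⁻¹ ∉ V := (V.mem_nonunits_iff_or.1 h1).resolve_left h0
  rw [ValuationSubring.mem_nonunits_iff_or, tr_mem_O1, not_forall]
  constructor
  · rintro (rfl | ⟨m, hx⟩)
    · exact ⟨1, by simp⟩
    · have := (V.mem_or_inv_mem _).resolve_left hx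
      rw [mul_inv, inv_pow, inv_inv, ← div_eq_mul_inv] at this
      exact ⟨m, this⟩
  · rintro ⟨m, hx⟩
    rcases eq_or_ne x 0 with rfl | hx0
    · exact Or.inl rfl
    · refine Or.inr ⟨2 * m, fun hN => h2 ?_⟩
      convert! mul_mem (pow_mem hx 2) hN using 1
      rw [inv_pow]
      field_simp
      ring

end Val

section Core

variable {α ι : Type} {𝒰 : Ultrafilter α} {k : Subfield ℂ}

/-- The three kinds of degenerating quantities. -/
def trK (k : Subfield ℂ) (Z : ι → GF 𝒰) (η : GF 𝒰) : Prop :=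
  (∃ j, η = (Z j)⁻¹) ∨ (∃ j, ∃ c ∈ k, η = Z j - algebraMap ℂ (GF 𝒰) c) ∨
    ∃ i j, i ≠ j ∧ ∃ a b : ℚ, η = Z i - (a * Z j + b)

lemma tr_rat_mem (O : Plc 𝒰) (q : ℚ) : (q : GF 𝒰) ∈ O.1 := by simpa using O.const_mem (q : ℂ)

lemma tr_aff_mem {O : Plc 𝒰} {x : GF 𝒰} (hx : x ∈ O.1) (a b : ℚ) : a * x + b ∈ O.1 :=
  add_mem (mul_mem (tr_rat_mem O a) hx) (tr_rat_mem O b)

lemma tr_pl_aff {O : Plc 𝒰} {x : GF 𝒰} (hx : x ∈ O.1) (a b : ℚ) :
    pl O (a * x + b) = a * pl O x + b := by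
  rw [pl_add (mul_mem (tr_rat_mem O a) hx) (tr_rat_mem O b), pl_mul (tr_rat_mem O a) hx,
    pl_ratCast, pl_ratCast]

lemma tr_gm_aff (a b : ℚ) (f : α → ℂ) : gm 𝒰 (fun t => a * f t + b) = a * gm 𝒰 f + b := by
  have : (fun t => (a : ℂ) * f t + b) = (fun _ => (a : ℂ)) * f + fun _ => (b : ℂ) := rfl
  rw [this, map_add, map_mul, gm_const, gm_const, map_ratCast, map_ratCast]

lemma tr_not_nonunits {O : Plc 𝒰} {z : ι → α → ℂ} (hz : Gen' k O z) {η : GF 𝒰}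
    (h : trK k (fun j => gm 𝒰 (z j)) η) : η ∉ O.1.nonunits := by
  rcases h with ⟨j, rfl⟩ | ⟨j, c, hc, rfl⟩ | ⟨i, j, hij, a, b, rfl⟩
  · rw [ValuationSubring.inv_mem_nonunits_iff, not_or, not_not]
    refine ⟨fun e => hz.nc j 0 k.zero_mem ?_, hz.mem j⟩
    rw [show gm 𝒰 (z j) = 0 from e, ← pl_const, map_zero]
  · rw [← pl_eq_iff (hz.mem j) (O.const_mem c), pl_const]
    exact hz.nc j c hc
  · rw [← pl_eq_iff (hz.mem i) (tr_aff_mem (hz.mem j) a b), tr_pl_aff (hz.mem j)]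
    exact hz.hq i j hij a b

lemma tr_gen {O : Plc 𝒰} {z : ι → α → ℂ} (hg : ∀ j, GOOD 𝒰 (z j))
    (h : ∀ η, trK k (fun j => gm 𝒰 (z j)) η → η ∉ O.1.nonunits) : Gen' k O z := by
  have hm : ∀ j, gm 𝒰 (z j) ∈ O.1 := fun j => by
    have := h _ (Or.inl ⟨j, rfl⟩)
    rw [ValuationSubring.inv_mem_nonunits_iff, not_or, not_not] at this
    exact this.2
  refine ⟨hg, hm, fun j c hc e => ?_, fun i j hij a b e => ?_⟩
  · refine h _ (Or.inr (Or.inl ⟨j, c, hc, rfl⟩)) ?_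
    rw [← pl_eq_iff (hm j) (O.const_mem c), pl_const]
    exact e
  · refine h _ (Or.inr (Or.inr ⟨i, j, hij, a, b, rfl⟩)) ?_
    rw [← pl_eq_iff (hm i) (tr_aff_mem (hm j) a b), tr_pl_aff (hm j)]
    exact e

lemma tr_tendsto_iff {f : α → ℂ} {c : ℂ} :
    gm 𝒰 f - algebraMap ℂ (GF 𝒰) c ∈ (FinV 𝒰).nonunits ↔ Tendsto f 𝒰 (𝓝 c) := by
  rw [← gm_const, ← map_sub, gm_mem_nonunits]
  exact tendsto_sub_nhds_zero_iff

lemma tr_std {z : ι → α → ℂ}
    (h : ∀ η, trK k (fun j => gm 𝒰 (z j)) η → η ∉ (FinV 𝒰).nonunits) : Std 𝒰 k z := by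
  have h1 : ∀ j, ∃ c, Tendsto (z j) 𝒰 (𝓝 c) := fun j => by
    have := h _ (Or.inl ⟨j, rfl⟩)
    rw [ValuationSubring.inv_mem_nonunits_iff, not_or, not_not] at this
    exact gm_mem_FinV_iff.1 this.2
  choose w hw using h1
  refine ⟨w, hw, fun j hj => h _ (Or.inr (Or.inl ⟨j, _, hj, rfl⟩)) (tr_tendsto_iff.2 (hw j)),
    fun i j hij a b e => h _ (Or.inr (Or.inr ⟨i, j, hij, a, b, rfl⟩)) ?_⟩
  rw [← tr_gm_aff, ← map_sub, gm_mem_nonunits]
  have := (hw i).sub (((hw j).const_mul (a : ℂ)).add_const (b : ℂ))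
  rwa [e, sub_self] at this

lemma tr_exists_min [Finite ι] {O : Plc 𝒰} {z : ι → α → ℂ} (hz : Gen' k O z) (hs : ¬ Std 𝒰 k z) :
    ∃ ρ ∈ (FinV 𝒰).nonunits, trK k (fun j => gm 𝒰 (z j)) ρ ∧
      ∀ η ∈ (FinV 𝒰).nonunits, trK k (fun j => gm 𝒰 (z j)) η → ρ / η ∈ FinV 𝒰 := by
  set S : Set (GF 𝒰) := {1} ∪ (range (fun j => gm 𝒰 (z j)) ∪ range fun j => (gm 𝒰 (z j))⁻¹) with hS
  have hfin : S.Finite := (finite_singleton _).union ((finite_range _).union (finite_range _))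
  have : Module.Finite ℂ (Submodule.span ℂ S) := Module.Finite.span_of_finite ℂ hfin
  have h1 : ∀ c : ℂ, algebraMap ℂ (GF 𝒰) c ∈ Submodule.span ℂ S := fun c => by
    rw [Algebra.algebraMap_eq_smul_one]
    exact Submodule.smul_mem _ _ (Submodule.subset_span (Or.inl rfl))
  have h2 : ∀ j, gm 𝒰 (z j) ∈ Submodule.span ℂ S := fun j =>
    Submodule.subset_span (Or.inr (Or.inl ⟨j, rfl⟩))
  obtain ⟨ρ, h3, h4⟩ := exists_val_min (FinV 𝒰) const_mem_FinV (Submodule.span ℂ S)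
    {η | η ∈ (FinV 𝒰).nonunits ∧ trK k (fun j => gm 𝒰 (z j)) η} (by
      rintro η ⟨-, ⟨j, rfl⟩ | ⟨j, c, -, rfl⟩ | ⟨i, j, -, a, b, rfl⟩⟩
      · exact Submodule.subset_span (Or.inr (Or.inr ⟨j, rfl⟩))
      · exact sub_mem (h2 j) (h1 c)
      · refine sub_mem (h2 i) (add_mem ?_ (by simpa using h1 b))
        have := Submodule.smul_mem _ (a : ℂ) (h2 j)
        rwa [Algebra.smul_def, map_ratCast] at this)
    (fun h => tr_not_nonunits hz h.2 (zero_mem _)) (by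
      by_contra hc
      exact hs (tr_std fun η a b => hc ⟨η, b, a⟩))
  exact ⟨ρ, h3.1, h3.2, fun η a b => h4 η ⟨a, b⟩⟩

lemma Gen'.comp {ι' : Type} {O : Plc 𝒰} {z : ι → α → ℂ} (hz : Gen' k O z) {e : ι' → ι}
    (he : Function.Injective e) : Gen' k O fun j => z (e j) :=
  ⟨fun _ => hz.good _, fun _ => hz.mem _, fun _ => hz.nc _, fun _ _ hij => hz.hq _ _ (he.ne hij)⟩

lemma tr_good_aff {f : α → ℂ} (hf : GOOD 𝒰 f) {a : ℚ} (ha : a ≠ 0) (b : ℚ)
    (h : ∀ᶠ t in (𝒰 : Filter α), 1 ≤ ((a : ℂ) * f t + b).re) : GOOD 𝒰 fun t => a * f t + b := by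
  filter_upwards [hf, h] with t h1 h2
  refine ⟨h2, fun q e => h1.2 ((q - b) / a) ?_⟩
  have : (a : ℂ) ≠ 0 := by exact_mod_cast ha
  push_cast
  rw [← e]
  field_simp
  ring

/-- The coordinates which do not degenerate at the first place. -/
lemma tr_nondeg {n : ℕ} (IH : ∀ m < n, NAS m) [Fintype ι] (hk : Closed k) {O₁ O₂ : Plc 𝒰}
    {z : ι → α → ℂ} (hz : Gen' k O₂ z) (hm : ∀ j, gm 𝒰 (z j) ∈ O₁.1)
    (hc : ∀ j, ∀ c ∈ k, pl O₁ (gm 𝒰 (z j)) ≠ algebraMap ℂ (RF O₁) c)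
    (hn : Fintype.card ι < n ∨ (Fintype.card ι = n ∧ ¬ HQ fun j => pl O₁ (gm 𝒰 (z j)))) :
    ∃ D : Gen ι BB → GF 𝒰, (∀ G, D G ∈ FinV 𝒰) ∧ AI k (fun G => pl O₁ (D G)) ∧
      Dom k (fun G => pl O₂ (gfam 𝒰 z G)) fun G => pl O₂ (D G) := by
  classical
  set Z : ι → RF O₁ := fun j => pl O₁ (gm 𝒰 (z j)) with hZ
  have ha0 : ∀ {i j} {a b : ℚ}, Z i = a * Z j + b → a ≠ 0 := fun {i j a b} e h0 =>
    hc i b (by simp) (by rw [map_ratCast]; simpa [h0] using e)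
  let s : Setoid ι := ⟨fun i j => ∃ a b : ℚ, Z i = a * Z j + b,
    ⟨fun i => ⟨1, 0, by simp⟩, fun {i j} ⟨a, b, e⟩ => ⟨a⁻¹, -b / a, by
      have : (a : RF O₁) ≠ 0 := by exact_mod_cast ha0 e
      rw [e]; push_cast; field_simp; ring⟩,
     fun {i j l} ⟨a, b, e⟩ ⟨a', b', e'⟩ => ⟨a * a', a * b' + b, by
      rw [e, e']; push_cast; ring⟩⟩⟩
  have hcard : Fintype.card (Quotient s) < n := by
    rcases hn with hn | ⟨hn, hq⟩
    · exact (Fintype.card_quotient_le s).trans_lt hn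
    · simp only [HQ, not_forall, not_not] at hq
      obtain ⟨i, j, hij, a, b, e⟩ := hq
      rw [← hn]
      exact Fintype.card_lt_of_surjective_not_injective (Quotient.mk s) Quotient.mk_surjective
        fun h => hij (h (Quotient.sound ⟨a, b, e⟩))
  have hr : ∀ i, ∃ a b : ℚ, Z i = a * Z (Quotient.mk s i).out + b := fun i =>
    s.symm (Quotient.mk_out (s := s) i)
  choose a b hab using hr
  set A : ℕ := ∏ i, (a i).den with hA
  have hA0 : 0 < A := Finset.prod_pos fun i _ => (a i).den_pos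
  have hAq : (0 : ℚ) < A := by exact_mod_cast hA0
  have hint : ∀ i, ∃ m : ℤ, (m : ℚ) = a i * A := fun i => by
    obtain ⟨c, hc⟩ : (a i).den ∣ A := Finset.dvd_prod_of_mem _ (Finset.mem_univ i)
    refine ⟨(a i).num * c, ?_⟩
    rw [hc]; push_cast
    rw [← mul_assoc, Rat.mul_den_eq_num]
  choose m hmq using hint
  have hm0 : ∀ i, (m i : ℚ) ≠ 0 := fun i => by
    rw [hmq]; exact mul_ne_zero (ha0 (hab i)) hAq.ne'
  set y : ι → α → ℂ := fun i t => (((m i : ℚ)⁻¹ : ℚ) : ℂ) * z i t + ((1 - b i / m i : ℚ) : ℂ) with hy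
  set y₀ : Quotient s → α → ℂ := fun c t => (((A : ℚ)⁻¹ : ℚ) : ℂ) * z c.out t + ((1 : ℚ) : ℂ)
    with hy₀
  have h1 : ∀ i, gm 𝒰 (y i) - gm 𝒰 (y₀ (Quotient.mk s i)) ∈ O₁.1.nonunits := fun i => by
    rw [hy, hy₀, tr_gm_aff, tr_gm_aff, ← pl_eq_iff (tr_aff_mem (hm _) _ _) (tr_aff_mem (hm _) _ _),
      tr_pl_aff (hm _), tr_pl_aff (hm _)]
    change _ * Z i + _ = _ * Z _ + _
    have e1 : ((a i : ℚ) : RF O₁) ≠ 0 := by exact_mod_cast ha0 (hab i)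
    have e2 : ((A : ℚ) : RF O₁) ≠ 0 := by exact_mod_cast hAq.ne'
    rw [hab i, hmq]
    push_cast at e2 ⊢
    field_simp
    ring
  have hre : ∀ c, ∀ᶠ t in (𝒰 : Filter α), 1 + (A : ℝ)⁻¹ ≤ (y₀ c t).re := fun c => by
    filter_upwards [hz.good c.out] with t ht
    have e : (y₀ c t).re = (A : ℝ)⁻¹ * (z c.out t).re + 1 := by
      have : (((A : ℚ)⁻¹ : ℚ) : ℂ) = (((A : ℝ)⁻¹ : ℝ) : ℂ) := by push_cast; rfl
      simp only [hy₀, this, add_re, re_ofReal_mul, Rat.cast_one, one_re]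
    have : (0 : ℝ) ≤ (A : ℝ)⁻¹ := by positivity
    rw [e]
    nlinarith [ht.1]
  have hg₀ : ∀ c, GOOD 𝒰 (y₀ c) := fun c => tr_good_aff (hz.good _) (inv_ne_zero hAq.ne') _
    ((hre c).mono fun t ht => le_trans (le_add_of_nonneg_right (by positivity)) ht)
  have hg : ∀ i, GOOD 𝒰 (y i) := fun i => by
    refine tr_good_aff (hz.good _) (inv_ne_zero (hm0 i)) _ ?_
    have h2 := ValuationSubring.nonunits_le_nonunits.2 O₁.2 (h1 i)
    rw [← map_sub, gm_mem_nonunits] at h2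
    have h3 : (0 : ℝ) < (A : ℝ)⁻¹ := by positivity
    filter_upwards [hre (Quotient.mk s i), Metric.tendsto_nhds.1 h2 _ h3] with t h4 h5
    rw [dist_zero_right] at h5
    have h6 := (abs_re_le_norm _).trans_lt h5
    rw [Pi.sub_apply, sub_re, abs_lt] at h6
    change 1 ≤ (y i t).re
    linarith [h6.1]
  have hmy : ∀ i, gm 𝒰 (y i) ∈ O₂.1 := fun i => by
    rw [hy, tr_gm_aff]; exact tr_aff_mem (hz.mem i) _ _
  have hply : ∀ i, pl O₂ (gm 𝒰 (z i)) = ((m i : ℚ) : RF O₂) * pl O₂ (gm 𝒰 (y i)) + (b i - m i : ℚ) :=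
    fun i => by
      rw [hy, tr_gm_aff, tr_pl_aff (hz.mem i)]
      have e1 : ((m i : ℚ) : RF O₂) ≠ 0 := by exact_mod_cast hm0 i
      push_cast at e1 ⊢
      field_simp
      ring
  have hd := dom_move hk (O := O₂) (z := z) (y := y) m (fun i => by exact_mod_cast hm0 i)
    (fun i => b i - m i) (fun i => Eventually.of_forall fun t => by
      have e1 : ((m i : ℚ) : ℂ) ≠ 0 := by exact_mod_cast hm0 i
      simp only [hy]
      push_cast at e1 ⊢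
      field_simp
      ring) hg hmy (fun i q e => hz.nc i ((m i * q + (b i - m i) : ℚ) : ℂ) (SubfieldClass.ratCast_mem k _) (by
        rw [map_ratCast, hply, e]; push_cast; ring)) fun G => O₂.2 (hz.good _).gfam_mem
  obtain ⟨D, e, hD, he, hD1, hD2⟩ := cluster (k := k) (O₁ := O₁) (O₂ := O₂) (Quotient.mk s) hg hg₀
    hmy h1 fun i i' hi _ h => hz.hq i i' hi (m i / m i') (b i - m i - m i / m i' * (b i' - m i')) (by
      have e1 : ((m i' : ℚ) : RF O₂) ≠ 0 := by exact_mod_cast hm0 i'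
      simp only [hply, h]
      push_cast at e1 ⊢
      field_simp
      ring)
  have hpl₀ : ∀ c, pl O₁ (gm 𝒰 (y₀ c)) = (((A : ℚ)⁻¹ : ℚ) : RF O₁) * Z c.out + (1 : ℚ) := fun c => by
    rw [hy₀, tr_gm_aff, tr_pl_aff (hm _)]
  have e2 : (A : RF O₁) ≠ 0 := by exact_mod_cast hA0.ne'
  have hG : Gen' k O₁ y₀ := ⟨hg₀, fun c => by rw [hy₀, tr_gm_aff]; exact tr_aff_mem (hm _) _ _,
    fun c u hu h => hc c.out (A * (u - 1)) (mul_mem (natCast_mem _ _) (sub_mem hu k.one_mem)) (by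
      rw [map_mul, map_sub, ← h, hpl₀, map_natCast, map_one]
      push_cast
      field_simp
      simp [hZ]),
    fun c c' hcc u v h => hcc (by
      rw [← c.out_eq, ← c'.out_eq]
      refine Quotient.sound ⟨u, A * (u + v - 1), ?_⟩
      simp only [hpl₀] at h
      push_cast at h ⊢
      field_simp at h
      linear_combination h)⟩
  exact ⟨D, hD, (IH _ hcard _ rfl k hk α 𝒰 O₁ y₀ hG).of_inj he fun G => (hD1 G).symm, hd.trans hD2⟩

end Core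

theorem nas_core {n : ℕ} (IH : ∀ m < n, NAS m) {ι : Type} [Fintype ι] (hn : Fintype.card ι = n)
    {k : Subfield ℂ} (hk : Closed k) {α : Type} {𝒰 : Ultrafilter α} {O : Plc 𝒰} {z : ι → α → ℂ}
    (hz : Gen' k O z) (hs : ¬ Std 𝒰 k z)
    (hA : ∀ (p : ι → Polynomial ℂ) (x : ι → PowerSeries ℂ), Curve p x →
      (∀ j, (∀ c ∈ k, ¬ Tendsto (z j) 𝒰 (𝓝 c)) → (p j).natDegree ≠ 0) → FAI p x) :
    AI k fun G => pl O (gfam 𝒰 z G) := by
  classical
  obtain ⟨ρ, h1, hK, hmin⟩ := tr_exists_min hz hs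
  have hO := tr_not_nonunits hz hK
  have h0 : ρ ≠ 0 := fun e => hO (e ▸ zero_mem _)
  have hV : ρ ∈ FinV 𝒰 := ValuationSubring.nonunits_subset h1
  let O₂ : Plc 𝒰 := ⟨trO2 _ hV, tr_le_O2 hV⟩
  let O₁ : Plc 𝒰 := ⟨trO1 _ hV, tr_le_O1 hV⟩
  have hO₂ : ∀ x, x ∈ O₂.1.nonunits ↔ ∀ N : ℕ, x / ρ ^ N ∈ FinV 𝒰 := tr_nonunits_O2 hV h0 h1
  have hO₁ : ∀ x, x ∈ O₁.1.nonunits ↔ ∃ m : ℕ, x ^ m / ρ ∈ FinV 𝒰 := tr_nonunits_O1 hV h0 h1
  have hz₂ : Gen' k O₂ z := tr_gen hz.good fun η hη h => by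
    have h2 := hmin η (ValuationSubring.nonunits_le_nonunits.2 O₂.2 h) hη
    have h3 : η ≠ 0 := fun e => tr_not_nonunits hz hη (e ▸ zero_mem _)
    refine ((FinV 𝒰).mem_nonunits_iff_or.1 h1).resolve_left h0 ?_
    convert! mul_mem h2 ((hO₂ η).1 h 2) using 1
    field_simp
  refine AI.of_le (O := O₂) (tr_O2_le hV O.2 hO) (fun G => O₂.2 (hz.good _).gfam_mem) ?_
  by_cases hd : ∀ j, Deg 𝒰 k ρ (z j)
  · obtain ⟨p, x, h2, h3, h4⟩ := caseA hk h0 h1 hO₂ hz₂ hd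
    exact h4 (hA p x h2 h3)
  obtain ⟨j₀, hj₀⟩ := not_forall.1 hd
  have hρ₁ : ρ ∈ O₁.1.nonunits := (hO₁ ρ).2 ⟨1, by simp [h0]⟩
  have hm : ∀ j : {j // ¬ Deg 𝒰 k ρ (z j)}, gm 𝒰 (z j) ∈ O₁.1 := fun j => by
    have : (gm 𝒰 (z j))⁻¹ ∉ O₁.1.nonunits := fun h => j.2 (Or.inl ((hO₁ _).1 h))
    rw [ValuationSubring.inv_mem_nonunits_iff, not_or, not_not] at this
    exact this.2
  obtain ⟨D, hD, hD1, hD2⟩ := tr_nondeg IH hk (O₁ := O₁)
    (hz₂.comp (e := fun j : {j // ¬ Deg 𝒰 k ρ (z j)} => j.1) Subtype.val_injective) hm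
    (fun j c hc e => j.2 (Or.inr ⟨c, hc, (hO₁ _).1
      ((pl_eq_iff (hm j) (O₁.const_mem c)).1 (e.trans (pl_const c).symm))⟩)) (by
      by_cases h2 : ∃ j, Deg 𝒰 k ρ (z j)
      · obtain ⟨j, hj⟩ := h2
        exact Or.inl (hn ▸ Fintype.card_subtype_lt (x := j) (not_not.2 hj))
      · have h3 := not_exists.1 h2
        refine Or.inr ⟨by rw [← hn]; exact Fintype.card_congr (Equiv.subtypeUnivEquiv h3), fun h => ?_⟩
        rcases hK with ⟨j, e⟩ | ⟨j, c, hc, e⟩ | ⟨i, j, hij, a, b, e⟩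
        · exact h3 j (Or.inl ((hO₁ _).1 (e ▸ hρ₁)))
        · exact h3 j (Or.inr ⟨c, hc, (hO₁ _).1 (e ▸ hρ₁)⟩)
        · refine h ⟨i, h3 i⟩ ⟨j, h3 j⟩ (fun e => hij (congrArg Subtype.val e)) a b ?_
          rw [e, ← pl_eq_iff (hm ⟨i, h3 i⟩) (tr_aff_mem (hm ⟨j, h3 j⟩) a b),
            tr_pl_aff (hm ⟨j, h3 j⟩)] at hρ₁
          exact hρ₁)
  have hz₃ := hz₂.comp (e := fun j : {j // Deg 𝒰 k ρ (z j)} => j.1) Subtype.val_injective
  have H1 := IH _ (hn ▸ Fintype.card_subtype_lt (x := j₀) hj₀) _ rfl k hk α 𝒰 O₂ _ hz₃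
  obtain ⟨U, hU, hx⟩ := deg_expansion hk h0 h1 hz₃.good fun j => j.2
  have H2 := (hD2.sum _).ai (place_tower (O₁ := O₁) (O₂ := O₂) (tr_O1_le_O2 hV) h0 hρ₁
    (fun x h => (hO₂ x).2 h) hU hx (fun G => O₁.2 (hD G)) H1 hD1)
  refine H2.of_inj (e := fun G => if h : Deg 𝒰 k ρ (z G.1) then Sum.inr (⟨G.1, h⟩, G.2)
    else Sum.inl (⟨G.1, h⟩, G.2)) (Function.LeftInverse.injective
      (g := Sum.elim (fun G => (G.1.1, G.2)) fun G => (G.1.1, G.2)) fun G => ?_) fun G => ?_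
  · by_cases h : Deg 𝒰 k ρ (z G.1) <;> simp [h]
  · by_cases h : Deg 𝒰 k ρ (z G.1) <;> simp only [h, dif_pos, dif_neg, not_false_eq_true,
      Sum.elim_inl, Sum.elim_inr] <;> rfl

theorem nas'_of {n : ℕ} (IH : ∀ m < n, NAS m) (hP : FPol n) : NAS' n :=
  fun ι _ hn _ hk _ _ _ _ hz ⟨j, hj⟩ hs =>
    nas_core IH hn hk hz hs fun p x hc hp => hP ι hn p x hc ⟨j, hp j hj⟩

theorem nas_of {n : ℕ} (IH : ∀ m < n, NAS m) (hS : SAS n) (hF : FAS n) : NAS n := by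
  intro ι _ hn k hk α 𝒰 O z hz
  by_cases hs : Std 𝒰 k z
  swap
  · exact nas_core IH hn hk hz hs fun p x hc _ => hF ι hn p x hc
  obtain ⟨w, h1, h2, h3⟩ := hs
  let O₀ : Plc 𝒰 := ⟨FinV 𝒰, le_rfl⟩
  refine AI.of_le (O := O₀) O.2 (fun G => (hz.good _).gfam_mem) ?_
  have h4 : ∀ G, pl O₀ (gfam 𝒰 z G) = IsScalarTower.toAlgHom k ℂ (RF O₀) (fam w G) := fun G => by
    rw [IsScalarTower.toAlgHom_apply, ← pl_const,
      pl_eq_iff (hz.good _).gfam_mem (O₀.const_mem _)]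
    refine tr_tendsto_iff.2 ?_
    have h5 : 1 ≤ (w G.1).re := ge_of_tendsto ((continuous_re.tendsto _).comp (h1 G.1))
      ((hz.good G.1).mono fun a ha => ha.1)
    have h6 : 0 < (w G.1 + (G.2.1 : ℚ)).re := by
      have : (0 : ℝ) ≤ ((G.2.1 : ℚ) : ℝ) := by exact_mod_cast G.2.1.2.1
      rw [add_re, ratCast_re]
      linarith
    exact (analyticAt_hh G.2.2 (nonpole_of_re h6)).continuousAt.tendsto.comp ((h1 G.1).add_const _)
  refine (hS ι hn k hk w h2 h3).of_rel fun P hP => ?_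
  simp only [h4] at hP
  rw [← MvPolynomial.comp_aeval_apply] at hP
  exact (map_eq_zero _).1 hP

end Pool.Agent.P.MP_26ad15_nt
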