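import Pool.Agent.P.MP_26ad15_nt.ASPolH
import Pool.Agent.P.MP_26ad15_nt.ASPolR
import Pool.Agent.P.MP_26ad15_nt.ASPolA
import Pool.Agent.P.MP_26ad15_nt.ASTricho
import Pool.Agent.P.MP_26ad15_nt.ASFun

/-! The main induction. -/

namespace Pool.Agent.P.MP_26ad15_nt

theorem fpol_of {n : ℕ} (IH : ∀ m < n, FAS m) : FPol n := by
  classical
  rintro ι _ rfl p x H hpol
  obtain ⟨b, M, J, hJ, h⟩ := exists_RD p hpol
  obtain ⟨x', f, ν, u, H', hI, hF⟩ := isolate H J.cc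
  obtain ⟨σ, T, ex, d, d', ξ, ξ', hR⟩ := h x' f ν u hI
  refine hF (fai_of_StI H' hJ (hR.stI hI.dvd hI.zero ?_) IH)
  rw [hI.det]
  exact mul_ne_zero (pow_ne_zero _ PowerSeries.X_ne_zero) hI.unit.ne_zero

theorem finCurve : FinCurve := fun _ _ _ _ _ _ _ _ _ H h => fin_curve H h

theorem main_ind (n : ℕ) : NAS n ∧ FAS n ∧ SAS n := by
  induction n using Nat.strong_induction_on with
  | _ n ih =>
    have hP := fpol_of fun m hm => (ih m hm).2.1
    have hS := sas_of (nas'_of (fun m hm => (ih m hm).1) hP)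
    have hF := fas_of finCurve hP hS
    exact ⟨nas_of (fun m hm => (ih m hm).1) hS hF, hF, hS⟩

theorem sas (n : ℕ) : SAS n := (main_ind n).2.2

end Pool.Agent.P.MP_26ad15_nt
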