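import Pool.Agent.P.MP_26ad15_nt.ASDefs

/-! Shift, reflection and multiplication moves at a place. -/

namespace Pool.Agent.P.MP_26ad15_nt

open Complex Set Filter Topology Asymptotics

variable {α ι : Type} {𝒰 : Ultrafilter α} {k : Subfield ℂ}

lemma mv_dom {L I J : Type*} [Field L] [Algebra k L] {x : I → L} {y : J → L} {e : I → J}
    (he : Function.Injective e) (R : I → Finset J) (hR : ∀ i i', e i' ∉ R i)
    (h : ∀ i, y (e i) ∈ cl k (insert (x i) (y '' R i))) : Dom k x y := by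
  classical
  refine ⟨0, fun s => ⟨s.image e ∪ s.biUnion R, (s.biUnion R).image y, ?_, ?_⟩⟩
  · rw [Finset.card_union_of_disjoint, Finset.card_image_of_injective _ he]
    · have := Finset.card_image_le (s := s.biUnion R) (f := y)
      omega
    · refine Finset.disjoint_left.2 fun j hj hj' => ?_
      obtain ⟨i', -, rfl⟩ := Finset.mem_image.1 hj
      obtain ⟨i, -, hi⟩ := Finset.mem_biUnion.1 hj'
      exact hR i i' hi
  · intro j hj
    rcases Finset.mem_union.1 hj with hj | hj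
    · obtain ⟨i, hi, rfl⟩ := Finset.mem_image.1 hj
      refine cl_mono ?_ (h i)
      rintro _ (rfl | ⟨j, hj, rfl⟩)
      · exact Or.inl ⟨i, hi, rfl⟩
      · exact Or.inr (Finset.mem_coe.2 (Finset.mem_image_of_mem _
          (Finset.mem_biUnion.2 ⟨i, hi, hj⟩)))
    · exact mem_cl_of_mem (Or.inr (Finset.mem_coe.2 (Finset.mem_image_of_mem _ hj)))

lemma mv_const_mem {O : Plc 𝒰} (K : IntermediateField k (RF O)) {c : ℂ} (hc : c ∈ k) :
    algebraMap ℂ (RF O) c ∈ K := K.algebraMap_mem ⟨c, hc⟩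

lemma mv_gm_const_mul (c : ℂ) (f : α → ℂ) :
    gm 𝒰 (fun t => c * f t) = algebraMap ℂ (GF 𝒰) c * gm 𝒰 f := by
  rw [← gm_const, ← map_mul]; rfl

lemma mv_pl_const_mul {O : Plc 𝒰} (c : ℂ) {x : GF 𝒰} (hx : x ∈ O.1) :
    algebraMap ℂ (GF 𝒰) c * x ∈ O.1 ∧
      pl O (algebraMap ℂ (GF 𝒰) c * x) = algebraMap ℂ (RF O) c * pl O x :=
  ⟨mul_mem (O.const_mem c) hx, by rw [pl_mul (O.const_mem c) hx, pl_const]⟩

/-- The germ of a polygamma function at a rational shift. -/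
noncomputable def mvH (𝒰 : Ultrafilter α) (w : α → ℂ) (l : ℕ) (q : ℚ) : GF 𝒰 :=
  gm 𝒰 fun t => hh l (w t + q)

lemma mv_tm {O : Plc 𝒰} {w : α → ℂ} (hm : gm 𝒰 w ∈ O.1) (hq : ∀ q : ℚ, pl O (gm 𝒰 w) ≠ q)
    {K : IntermediateField k (RF O)} (hK : pl O (gm 𝒰 w) ∈ K) (l : ℕ) (q : ℚ) :
    gm 𝒰 (fun t => tm l (w t + q)) ∈ O.1 ∧ pl O (gm 𝒰 fun t => tm l (w t + q)) ∈ K := by
  have h1 : gm 𝒰 (fun t => tm l (w t + q)) =
      algebraMap ℂ (GF 𝒰) ((-1) ^ l * (l + 1).factorial) *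
        ((gm 𝒰 w + algebraMap ℂ (GF 𝒰) q) ^ (l + 2))⁻¹ := by
    rw [← gm_const (q : ℂ), ← map_add, ← map_pow, ← gm_inv, ← mv_gm_const_mul]
    rfl
  have h2 : gm 𝒰 w + algebraMap ℂ (GF 𝒰) q ∈ O.1 := add_mem hm (O.const_mem _)
  have h3 : pl O ((gm 𝒰 w + algebraMap ℂ (GF 𝒰) q) ^ (l + 2)) =
      (pl O (gm 𝒰 w) + q) ^ (l + 2) := by
    rw [pl_pow h2, pl_add hm (O.const_mem _), pl_const, map_ratCast]
  have h4 : pl O ((gm 𝒰 w + algebraMap ℂ (GF 𝒰) q) ^ (l + 2)) ≠ 0 := by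
    rw [h3]
    refine pow_ne_zero _ fun h => hq (-q) ?_
    push_cast
    exact eq_neg_of_add_eq_zero_left h
  obtain ⟨-, h5, h6⟩ := inv_mem_of_pl_ne h4
  obtain ⟨h7, h8⟩ := mv_pl_const_mul ((-1) ^ l * (l + 1).factorial) h5
  rw [h1, h8, h6, h3]
  refine ⟨h7, mul_mem (mv_const_mem K ?_) (inv_mem (pow_mem (add_mem hK ?_) _))⟩
  · exact mul_mem (pow_mem (neg_mem (one_mem k)) _) (natCast_mem k _)
  · exact SubfieldClass.ratCast_mem K q

lemma mv_step {w : α → ℂ} (hw : GOOD 𝒰 w) (l : ℕ) (q : ℚ) :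
    mvH 𝒰 w l q = mvH 𝒰 w l (q + 1) + gm 𝒰 fun t => tm l (w t + q) := by
  rw [mvH, mvH, ← map_add, gm_eq_iff]
  refine hw.mono fun t ht => ?_
  rw [hh_shift l (z := w t + q) fun m h => ht.2 (-m - q) (by push_cast; linear_combination h)]
  simp only [Pi.add_apply]
  push_cast
  rw [add_assoc]

lemma mv_shift {O : Plc 𝒰} {w : α → ℂ} (hw : GOOD 𝒰 w) (hm : gm 𝒰 w ∈ O.1)
    (hq : ∀ q : ℚ, pl O (gm 𝒰 w) ≠ q) {K : IntermediateField k (RF O)}
    (hK : pl O (gm 𝒰 w) ∈ K) (l : ℕ) (q : ℚ) :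
    mvH 𝒰 w l q ∈ O.1 ∧ pl O (mvH 𝒰 w l q) - pl O (mvH 𝒰 w l (Int.fract q)) ∈ K := by
  have key : ∀ m : ℤ, mvH 𝒰 w l (Int.fract q + m) ∈ O.1 ∧
      pl O (mvH 𝒰 w l (Int.fract q + m)) - pl O (mvH 𝒰 w l (Int.fract q)) ∈ K := by
    intro m
    induction m using Int.induction_on with
    | zero =>
      rw [Int.cast_zero, add_zero, sub_self]
      exact ⟨O.2 (GOOD.gfam_mem (z := fun _ : Unit => w)
        (G := ((), ⟨Int.fract q, Int.fract_nonneg q, Int.fract_lt_one q⟩, l)) hw), zero_mem K⟩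
    | succ m ih =>
      obtain ⟨h1, h2⟩ := mv_tm hm hq hK l (Int.fract q + (m : ℤ))
      have h3 := eq_sub_of_add_eq (mv_step hw l (Int.fract q + (m : ℤ))).symm
      rw [Int.cast_add, Int.cast_one, ← add_assoc, h3, pl_sub ih.1 h1, sub_right_comm]
      exact ⟨sub_mem ih.1 h1, sub_mem ih.2 h2⟩
    | pred m ih =>
      obtain ⟨h1, h2⟩ := mv_tm hm hq hK l (Int.fract q + ((-m - 1 : ℤ) : ℚ))
      have h3 := mv_step hw l (Int.fract q + ((-m - 1 : ℤ) : ℚ))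
      have h4 : Int.fract q + ((-m - 1 : ℤ) : ℚ) + 1 = Int.fract q + ((-m : ℤ) : ℚ) := by
        push_cast; ring
      rw [h4] at h3
      rw [h3, pl_add ih.1 h1, add_sub_right_comm]
      exact ⟨add_mem ih.1 h1, add_mem ih.2 h2⟩
  have := key ⌊q⌋
  rwa [Int.fract_add_floor] at this

lemma mv_PS_false (l : ℕ) (u : ℂ) : PS false (l + 1) u = (-1) ^ (l + 1) * hh l (1 - u) := by
  have := congrFun (iteratedDeriv_comp_const_sub (l + 1) digamma (1 : ℂ)) u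
  rw [smul_eq_mul] at this
  exact this

lemma mv_EP (n : ℕ) : ∃ P : Polynomial k, P.map (algebraMap k ℂ) = EP n := by
  induction n with
  | zero => exact ⟨Polynomial.X, by simp [EP]⟩
  | succ n ih =>
    obtain ⟨P, hP⟩ := ih
    refine ⟨Polynomial.X * (P.derivative * (1 - Polynomial.X) + Polynomial.C ((n : k) + 1) * P),
      ?_⟩
    simp [EP, ← hP, Polynomial.derivative_map]

lemma mv_aeval {O : Plc 𝒰} {f : α → ℂ} (hf : gm 𝒰 f ∈ O.1) (P : Polynomial ℂ) :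
    gm 𝒰 (fun t => P.eval (f t)) ∈ O.1 ∧
      pl O (gm 𝒰 fun t => P.eval (f t)) = Polynomial.aeval (pl O (gm 𝒰 f)) P := by
  induction P using Polynomial.induction_on' with
  | add p q hp hq =>
    have : gm 𝒰 (fun t => (p + q).eval (f t)) =
        gm 𝒰 (fun t => p.eval (f t)) + gm 𝒰 (fun t => q.eval (f t)) := by
      rw [← map_add]; congr 1; funext t; simp
    rw [this, pl_add hp.1 hq.1, hp.2, hq.2, map_add]
    exact ⟨add_mem hp.1 hq.1, rfl⟩
  | monomial n c =>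
    have : gm 𝒰 (fun t => (Polynomial.monomial n c).eval (f t)) =
        algebraMap ℂ (GF 𝒰) c * gm 𝒰 f ^ n := by
      rw [← map_pow, ← mv_gm_const_mul]; congr 1; funext t; simp
    obtain ⟨h1, h2⟩ := mv_pl_const_mul c (pow_mem hf n)
    rw [this, h2, pl_pow hf, Polynomial.aeval_monomial]
    exact ⟨h1, rfl⟩

lemma mv_aeval_mem {O : Plc 𝒰} {K : IntermediateField k (RF O)} {x : RF O} (hx : x ∈ K) (n : ℕ) :
    Polynomial.aeval x (EP n) ∈ K := by
  obtain ⟨P, hP⟩ := mv_EP (k := k) n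
  rw [← hP]
  clear hP
  induction P using Polynomial.induction_on' with
  | add p q hp hq => rw [Polynomial.map_add, map_add]; exact add_mem hp hq
  | monomial n c =>
    rw [Polynomial.map_monomial, Polynomial.aeval_monomial]
    exact mul_mem (mv_const_mem K c.2) (pow_mem hx n)

lemma mv_sg_mem (e : Bool) : sg e ∈ k := by
  cases e
  · exact neg_mem (one_mem k)
  · exact one_mem k

lemma mv_VV (hk : Closed k) {O : Plc 𝒰} {f : α → ℂ} (hf : gm 𝒰 f ∈ O.1)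
    (h1 : ∀ᶠ t in (𝒰 : Filter α), 1 - f t ≠ 0) (e : Bool) (n : ℕ)
    (hV : gm 𝒰 (fun t => VV e n (f t)) ∈ O.1) {K : IntermediateField k (RF O)}
    (hK : pl O (gm 𝒰 f) ∈ K) : pl O (gm 𝒰 fun t => VV e n (f t)) ∈ K := by
  obtain ⟨h2, h3⟩ := mv_aeval hf (EP n)
  have h4 : gm 𝒰 (fun t => VV e n (f t)) * (1 - gm 𝒰 f) ^ (n + 1) =
      algebraMap ℂ (GF 𝒰) (vc e n) * gm 𝒰 fun t => (EP n).eval (f t) := by
    rw [← mv_gm_const_mul, ← map_one (gm 𝒰), ← map_sub, ← map_pow, ← map_mul, gm_eq_iff]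
    refine h1.mono fun t ht => ?_
    simp only [Pi.mul_apply, Pi.pow_apply, Pi.sub_apply, Pi.one_apply, VV]
    exact div_mul_cancel₀ _ (pow_ne_zero _ ht)
  have h5 := congrArg (pl O) h4
  have h6 : pl O (1 : GF 𝒰) = 1 := by simpa using pl_const (O := O) 1
  rw [pl_mul hV (pow_mem (sub_mem (one_mem _) hf) _), pl_pow (sub_mem (one_mem _) hf),
    pl_sub (one_mem _) hf, h6, (mv_pl_const_mul _ h2).2, h3] at h5
  have h7 : 1 - pl O (gm 𝒰 f) ≠ 0 := by
    intro h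
    rw [h, zero_pow (Nat.succ_ne_zero n), mul_zero, ← sub_eq_zero.1 h,
      ← map_one (algebraMap ℂ (RF O)), Polynomial.aeval_algebraMap_apply_eq_algebraMap_eval,
      EP_eval_one, ← map_mul, eq_comm, map_eq_zero] at h5
    exact mul_ne_zero (vc_ne_zero e n) (Nat.cast_ne_zero.2 n.factorial_ne_zero) h5
  rw [eq_div_of_mul_eq (pow_ne_zero _ h7) h5]
  refine div_mem (mul_mem (mv_const_mem K ?_) (mv_aeval_mem hK n))
    (pow_mem (sub_mem (one_mem K) hK) _)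
  exact mul_mem (neg_mem hk.pi) (pow_mem (mul_mem hk.pi (mv_sg_mem e)) _)

lemma mv_small (f : α → ℂ) : ∃ e : Bool, gm 𝒰 (fun t => QQ e (f t)) ∈ FinV 𝒰 := by
  rcases 𝒰.em fun t => ‖QQ true (f t)‖ ≤ 1 with h | h
  · exact ⟨true, gm_mem_FinV.2 (IsBigO.of_bound' (by simpa using h))⟩
  · refine ⟨false, gm_mem_FinV.2 (IsBigO.of_bound' (h.mono fun t ht => ?_))⟩
    have h1 : QQ false (f t) = (QQ true (f t))⁻¹ := by
      rw [QQ, QQ, ← Complex.exp_neg]
      congr 1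
      simp [sg]
    rw [h1]
    simpa using inv_le_one_of_one_le₀ (not_le.1 ht).le

lemma mv_refl (hk : Closed k) {O : Plc 𝒰} {z w : α → ℂ} {b : ℚ}
    (h : ∀ᶠ t in (𝒰 : Filter α), z t = -w t + b) (hw : GOOD 𝒰 w) {e : Bool}
    (he : gm 𝒰 (fun t => QQ e (z t)) ∈ O.1) (l : ℕ) (β : ℚ) (h1 : mvH 𝒰 z l β ∈ O.1)
    (h2 : mvH 𝒰 w l (1 - b - β) ∈ O.1) {K : IntermediateField k (RF O)}
    (hK : pl O (gm 𝒰 fun t => QQ e (z t)) ∈ K) (hz : pl O (mvH 𝒰 z l β) ∈ K) :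
    pl O (mvH 𝒰 w l (1 - b - β)) ∈ K := by
  have hint : ∀ᶠ t in (𝒰 : Filter α), ∀ m : ℤ, z t + β ≠ m := by
    filter_upwards [h, hw] with t h3 h4 m h5
    exact h4.2 (b + β - m) (by push_cast; linear_combination h3 - h5)
  obtain ⟨ζ, hζ, hQ⟩ : ∃ ζ ∈ k, ∀ u : ℂ, QQ e (u + β) = ζ * QQ e u := by
    refine ⟨cexp (2 * Real.pi * I * ((if e then β else -β : ℚ) : ℂ)), hk.root _, fun u => ?_⟩
    rw [QQ, QQ, ← Complex.exp_add]
    congr 1
    cases e <;> simp [sg] <;> ring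
  have h3 : gm 𝒰 (fun t => QQ e (z t + β)) = algebraMap ℂ (GF 𝒰) ζ * gm 𝒰 fun t => QQ e (z t) := by
    simp only [hQ]
    exact mv_gm_const_mul _ _
  obtain ⟨h4, h5⟩ := mv_pl_const_mul ζ he
  rw [← h3] at h4 h5
  have h6 : gm 𝒰 (fun t => VV e (l + 1) (QQ e (z t + β))) = algebraMap ℂ (GF 𝒰) (sg e) *
      (algebraMap ℂ (GF 𝒰) ((-1) ^ (l + 1)) * mvH 𝒰 w l (1 - b - β) - mvH 𝒰 z l β) := by
    rw [mvH, mvH, ← mv_gm_const_mul, ← map_sub, ← mv_gm_const_mul, gm_eq_iff]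
    filter_upwards [h, hint] with t h7 h8
    have h9 := reflection_PS e (l + 1) h8
    have h10 : 1 - (z t + β) = w t + ((1 - b - β : ℚ) : ℂ) := by
      push_cast; linear_combination -h7
    rw [if_neg (Nat.succ_ne_zero l), zero_add] at h9
    simp only [Pi.sub_apply]
    cases e
    · rw [mv_PS_false, h10] at h9
      simp only [sg, hh, Bool.not_false] at h9 ⊢
      simp only [Bool.false_eq_true, if_false]
      linear_combination h9
    · rw [Bool.not_true, mv_PS_false, h10] at h9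
      simp only [sg, hh] at h9 ⊢
      simp only [if_true]
      linear_combination h9
  obtain ⟨h7, h8⟩ := mv_pl_const_mul ((-1) ^ (l + 1)) h2
  obtain ⟨h9, h10⟩ := mv_pl_const_mul (sg e) (sub_mem h7 h1)
  rw [← h6] at h9 h10
  have h11 := mv_VV hk h4 (hint.mono fun t ht => one_sub_QQ_ne e ht) e (l + 1) h9 (K := K)
    (by rw [h5]; exact mul_mem (mv_const_mem K hζ) hK)
  rw [h10, pl_sub h7 h1, h8] at h11
  have h12 := mul_mem (mv_const_mem K (mv_sg_mem e)) h11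
  rw [← mul_assoc, ← map_mul, sg_mul_self, map_one, one_mul] at h12
  have h13 := mul_mem (mv_const_mem K (c := (-1) ^ (l + 1)) (pow_mem (neg_mem (one_mem k)) _))
    (add_mem h12 hz)
  rwa [sub_add_cancel, ← mul_assoc, ← map_mul, ← mul_pow, neg_mul_neg, one_mul, one_pow, map_one,
    one_mul] at h13

lemma mv_fract_inj {c : ℚ} {β γ : BB} {s : ℤ} (hs : s = 1 ∨ s = -1)
    (h : Int.fract (c + s * (β : ℚ)) = Int.fract (c + s * (γ : ℚ))) : β = γ := by
  obtain ⟨m, hm⟩ := Int.fract_eq_fract.1 h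
  have h1 := β.2
  have h2 := γ.2
  have h3 : (-1 : ℚ) < m ∧ (m : ℚ) < 1 := by
    rcases hs with rfl | rfl <;> push_cast at hm <;> constructor <;> linarith [h1.1, h1.2, h2.1, h2.2]
  have h4 : m = 0 := by
    have h5 : (-1 : ℤ) < m := by exact_mod_cast h3.1
    have h6 : m < 1 := by exact_mod_cast h3.2
    omega
  rw [h4] at hm
  apply Subtype.ext
  rcases hs with rfl | rfl <;> push_cast at hm <;> linarith

lemma mv_dom_mul {O : Plc 𝒰} {y : ι → α → ℂ} (n : ι → ℕ) (hn : ∀ j, n j ≠ 0)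
    (hy : ∀ j, GOOD 𝒰 (y j)) (hw : ∀ j, GOOD 𝒰 fun t => n j * y j t) :
    Dom k (fun G => pl O (gfam 𝒰 (fun j t => n j * y j t) G)) fun G => pl O (gfam 𝒰 y G) := by
  classical
  have hn' : ∀ j, (0 : ℚ) < n j := fun j => by exact_mod_cast Nat.pos_of_ne_zero (hn j)
  let e : (G : Gen ι BB) → Fin (n G.1) → Gen ι BB := fun G r =>
    (G.1, ⟨(G.2.1 + r) / n G.1, div_nonneg (add_nonneg G.2.1.2.1 (Nat.cast_nonneg _)) (hn' _).le, by
      rw [div_lt_one (hn' _)]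
      have h1 : ((r : ℕ) : ℚ) + 1 ≤ n G.1 := by exact_mod_cast r.2
      linarith [G.2.1.2.2]⟩, G.2.2)
  let o : (j : ι) → Fin (n j) := fun j => ⟨0, Nat.pos_of_ne_zero (hn j)⟩
  refine mv_dom (e := fun G => e G (o G.1)) ?_
    (fun G => (Finset.univ.erase (o G.1)).image (e G)) ?_ ?_
  · rintro ⟨j, β, l⟩ ⟨j', β', l'⟩ h
    simp only [e, o, Prod.mk.injEq, Subtype.mk.injEq] at h
    obtain ⟨rfl, h2, rfl⟩ := h
    rw [div_left_inj' (hn' j).ne', add_left_inj] at h2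
    rw [Subtype.ext h2]
  · rintro ⟨j, β, l⟩ ⟨j', β', l'⟩ h
    obtain ⟨r, hr, h1⟩ := Finset.mem_image.1 h
    simp only [e, o, Prod.mk.injEq, Subtype.mk.injEq] at h1
    obtain ⟨rfl, h2, rfl⟩ := h1
    rw [div_left_inj' (hn' j).ne', Nat.cast_zero, add_zero] at h2
    have h3 : (r : ℕ) ≠ 0 := fun h0 => (Finset.mem_erase.1 hr).1 (Fin.ext h0)
    have h4 : (1 : ℚ) ≤ (r : ℕ) := by exact_mod_cast Nat.one_le_iff_ne_zero.2 h3
    linarith [β.2.1, β'.2.2]
  · intro G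
    have hmem : ∀ r, gfam 𝒰 y (e G r) ∈ O.1 := fun r => O.2 (GOOD.gfam_mem (hy _))
    have hwm : gfam 𝒰 (fun j t => n j * y j t) G ∈ O.1 := O.2 (GOOD.gfam_mem (hw _))
    have h1 : algebraMap ℂ (GF 𝒰) ((n G.1 : ℂ) ^ (G.2.2 + 2)) *
        gfam 𝒰 (fun j t => n j * y j t) G = ∑ r, gfam 𝒰 y (e G r) := by
      simp only [gfam]
      rw [← mv_gm_const_mul, ← map_sum, gm_eq_iff]
      refine (hy G.1).mono fun t ht => ?_
      have h2 := hh_mul G.2.2 (hn G.1) (y := y G.1 t) (by linarith [ht.1])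
        (b := ((G.2.1 : ℚ) : ℝ)) (by exact_mod_cast G.2.1.2.1)
      simp only [fam, e, Finset.sum_apply]
      push_cast at h2 ⊢
      exact h2
    have h2 := congrArg (pl O) h1
    rw [(mv_pl_const_mul _ hwm).2, pl_sum _ fun r _ => hmem r,
      ← Finset.add_sum_erase _ _ (Finset.mem_univ (o G.1))] at h2
    rw [eq_sub_of_add_eq h2.symm]
    refine sub_mem (mul_mem (mv_const_mem _ (pow_mem (natCast_mem k _) _))
      (mem_cl_of_mem (Or.inl rfl))) (sum_mem fun r hr => mem_cl_of_mem (Or.inr ?_))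
    exact ⟨e G r, Finset.mem_coe.2 (Finset.mem_image_of_mem _ hr), rfl⟩

theorem dom_move [Finite ι] (hk : Closed k) {O : Plc 𝒰} {z y : ι → α → ℂ} (a : ι → ℤ)
    (ha : ∀ j, a j ≠ 0) (b : ι → ℚ) (h : ∀ j, ∀ᶠ t in (𝒰 : Filter α), z j t = a j * y j t + b j)
    (hy : ∀ j, GOOD 𝒰 (y j)) (hm : ∀ j, gm 𝒰 (y j) ∈ O.1)
    (hq : ∀ j (q : ℚ), pl O (gm 𝒰 (y j)) ≠ q) (hz : ∀ G, gfam 𝒰 z G ∈ O.1) :
    Dom k (fun G => pl O (gfam 𝒰 z G)) fun G => pl O (gfam 𝒰 y G) := by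
  classical
  have := Fintype.ofFinite ι
  let n : ι → ℕ := fun j => (a j).natAbs
  have hn : ∀ j, n j ≠ 0 := fun j => Int.natAbs_ne_zero.2 (ha j)
  have hn' : ∀ j, (n j : ℂ) ≠ 0 := fun j => Nat.cast_ne_zero.2 (hn j)
  let w : ι → α → ℂ := fun j t => n j * y j t
  have hw : ∀ j, GOOD 𝒰 (w j) := fun j => (hy j).mono fun t ht => by
    refine ⟨?_, fun q h1 => ht.2 (q / n j) ?_⟩
    · have h1 : (1 : ℝ) ≤ n j := by exact_mod_cast Nat.one_le_iff_ne_zero.2 (hn j)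
      simp only [w, mul_re, natCast_re, natCast_im, zero_mul, sub_zero]
      nlinarith [ht.1]
    · push_cast
      rw [eq_div_iff (hn' j), mul_comm]
      exact h1
  have hwm : ∀ j, gm 𝒰 (w j) ∈ O.1 ∧ pl O (gm 𝒰 (w j)) = n j * pl O (gm 𝒰 (y j)) := fun j => by
    have := mv_pl_const_mul (n j : ℂ) (hm j)
    rwa [← mv_gm_const_mul, map_natCast] at this
  have hwq : ∀ j (q : ℚ), pl O (gm 𝒰 (w j)) ≠ q := fun j q h1 => hq j (q / n j) (by
    push_cast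
    rw [eq_div_iff (Nat.cast_ne_zero.2 (hn j)), mul_comm, ← (hwm j).2, h1])
  refine Dom.trans ?_ (mv_dom_mul n hn hy hw)
  choose e he using fun j => mv_small (𝒰 := 𝒰) (z j)
  let c : ι → ℚ := fun j => if 0 < a j then b j else 1 - b j
  let s : ι → ℤ := fun j => if 0 < a j then 1 else -1
  have hs : ∀ j, s j = 1 ∨ s j = -1 := fun j => by
    simp only [s]; split_ifs <;> simp
  refine Dom.of_inj (e := fun G => (G.1, ⟨Int.fract (c G.1 + s G.1 * (G.2.1 : ℚ)),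
    Int.fract_nonneg _, Int.fract_lt_one _⟩, G.2.2)) ?_
    (Finset.univ.image (fun j => pl O (gm 𝒰 (w j))) ∪
      Finset.univ.image fun j => pl O (gm 𝒰 fun t => QQ (e j) (z j t))) ?_
  · rintro ⟨j, β, l⟩ ⟨j', β', l'⟩ h1
    simp only [Prod.mk.injEq, Subtype.mk.injEq] at h1
    obtain ⟨rfl, h2, rfl⟩ := h1
    rw [mv_fract_inj (hs j) h2]
  · rintro ⟨j, β, l⟩
    set K := cl k (insert (pl O (gfam 𝒰 z (j, β, l)))
      ((Finset.univ.image (fun j => pl O (gm 𝒰 (w j))) ∪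
      Finset.univ.image fun j => pl O (gm 𝒰 fun t => QQ (e j) (z j t)) : Finset (RF O)) :
        Set (RF O))) with hK
    have k1 : pl O (mvH 𝒰 (z j) l β) ∈ K := mem_cl_of_mem (Or.inl rfl)
    have k2 : pl O (gm 𝒰 (w j)) ∈ K := mem_cl_of_mem (Or.inr (by simp))
    have k3 : pl O (gm 𝒰 fun t => QQ (e j) (z j t)) ∈ K := mem_cl_of_mem (Or.inr (by simp))
    obtain ⟨h1, h2⟩ := mv_shift (hw j) (hwm j).1 (hwq j) k2 l (c j + s j * (β : ℚ))
    have h3 : pl O (mvH 𝒰 (w j) l (c j + s j * (β : ℚ))) ∈ K := by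
      by_cases hp : 0 < a j
      · have h4 : mvH 𝒰 (w j) l (c j + s j * (β : ℚ)) = mvH 𝒰 (z j) l β := by
          rw [mvH, mvH, gm_eq_iff]
          refine (h j).mono fun t ht => ?_
          have h5 : ((n j : ℤ) : ℂ) = a j := by rw [Int.natAbs_of_nonneg hp.le]
          simp only [w, c, s, if_pos hp, ht, ← h5]
          push_cast
          ring_nf
        rwa [h4]
      · have h4 : c j + s j * (β : ℚ) = 1 - b j - β := by
          simp only [c, s, if_neg hp]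
          push_cast
          ring
        rw [h4] at h1 ⊢
        refine mv_refl hk (b := b j) ((h j).mono fun t ht => ?_) (hw j) (O.2 (he j)) l β
          (hz (j, β, l)) h1 k3 k1
        have h5 : ((n j : ℤ) : ℂ) = -a j := by
          rw [Int.ofNat_natAbs_of_nonpos (not_lt.1 hp)]
          push_cast
          rfl
        push_cast at h5
        simp only [w, ht, h5]
        ring
    have h4 := sub_mem h3 h2
    rwa [sub_sub_cancel] at h4

end Pool.Agent.P.MP_26ad15_nt
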