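import Pool.Agent.P.MP_26ad15_nt.ASEvF

/-! Newton iteration for square systems, uniformly along a filter. -/

namespace Pool.Agent.P.MP_26ad15_nt

open Complex Set Filter Topology Asymptotics Metric MvPolynomial Matrix

variable {ι K α : Type*} [Fintype ι] [DecidableEq ι] {l : Filter α} {d d' : α → ι → K → ℂ → ℂ}
  {ξ ξ' ξ₀ : α → ι → ℂ} {w : α → ℝ} {σ : α → ℂ} {c : Gen ι K → PowerSeries ℂ} {N : ℕ}
  {x : ι → PowerSeries ℂ}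

section Newton

variable (f : ι → MvPolynomial (Gen ι K) ℂ)

/-- The Jacobian matrix at a point. -/
noncomputable def Mx (e : ι → K → ℂ → ℂ) (y : ι → ℂ) : Matrix ι ι ℂ :=
  (Ev ℂ e y).mapMatrix (Jm f)

/-- The Newton map. -/
noncomputable def Phi (e : ι → K → ℂ → ℂ) (y₀ y : ι → ℂ) : ι → ℂ :=
  y - (Mx f e y₀)⁻¹ *ᵥ fun i => Ev ℂ e y (f i)

/-- Conditions for the convergence of the Newton iteration. -/
structure NOK (A ϱ : ℝ) (e : ι → K → ℂ → ℂ) (y₀ : ι → ℂ) : Prop where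
  det : (Mx f e y₀).det ≠ 0
  inv : ∀ v, ‖(Mx f e y₀)⁻¹ *ᵥ v‖ ≤ A * ‖v‖
  lip : ∀ y y', ‖y - y₀‖ ≤ ϱ → ‖y' - y₀‖ ≤ ϱ → ‖Phi f e y₀ y - Phi f e y₀ y'‖ ≤ 1 / 2 * ‖y - y'‖
  st : ‖Phi f e y₀ y₀ - y₀‖ ≤ ϱ / 2
  small : ‖y₀‖ + ϱ ≤ 1 / 4

/-- Solutions near the initial point. -/
def Sol (ϱ : ℝ) (e : ι → K → ℂ → ℂ) (y₀ y : ι → ℂ) : Prop :=
  ‖y - y₀‖ ≤ ϱ ∧ ∀ i, Ev ℂ e y (f i) = 0

variable {f} {A ϱ : ℝ} {e : ι → K → ℂ → ℂ} {y₀ y y' : ι → ℂ}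

lemma Mx_det (e : ι → K → ℂ → ℂ) (y : ι → ℂ) : (Mx f e y).det = Ev ℂ e y (Jm f).det :=
  (AlgHom.map_det _ _).symm

lemma Mx_inv_mulVec (e : ι → K → ℂ → ℂ) (y v : ι → ℂ) (i : ι) : ((Mx f e y)⁻¹ *ᵥ v) i =
    (Ev ℂ e y (Jm f).det)⁻¹ * ∑ j, Ev ℂ e y ((Jm f).adjugate i j) * v j := by
  rw [Matrix.inv_def, Ring.inverse_eq_inv', Mx_det, Matrix.smul_mulVec, Mx, ← AlgHom.map_adjugate]
  rfl

lemma NOK.norm_le (h : NOK f A ϱ e y₀) (hy : ‖y - y₀‖ ≤ ϱ) : ‖y‖ ≤ 1 / 4 := by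
  linarith [norm_le_norm_add_norm_sub' y y₀, h.small]

lemma NOK.post (h : NOK f A ϱ e y₀) (hy : Sol f ϱ e y₀ y) (hy' : ‖y' - y₀‖ ≤ ϱ) :
    ‖y' - y‖ ≤ 2 * A * ‖fun i => Ev ℂ e y' (f i)‖ := by
  have h1 := h.lip y' y hy' hy.1
  have h2 := h.inv fun i => Ev ℂ e y' (f i)
  have e1 : Phi f e y₀ y = y := by
    simp only [Phi, hy.2]
    rw [show (fun _ : ι => (0 : ℂ)) = 0 from rfl, Matrix.mulVec_zero, sub_zero]
  have e2 : y' - y = (Phi f e y₀ y' - Phi f e y₀ y) + (Mx f e y₀)⁻¹ *ᵥ fun i => Ev ℂ e y' (f i) := by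
    rw [e1, Phi]; abel
  have := norm_add_le (Phi f e y₀ y' - Phi f e y₀ y) ((Mx f e y₀)⁻¹ *ᵥ fun i => Ev ℂ e y' (f i))
  rw [← e2] at this
  linarith

theorem exists_sol {W : Set ℂ} (hW : IsOpen W) {A ϱ : ℂ → ℝ} {d : ℂ → ι → K → ℂ → ℂ}
    {ξ₀ : ℂ → ι → ℂ} (h : ∀ τ ∈ W, NOK f (A τ) (ϱ τ) (d τ) (ξ₀ τ)) (h0 : DifferentiableOn ℂ ξ₀ W)
    (hol : ∀ ξ : ℂ → ι → ℂ, DifferentiableOn ℂ ξ W → (∀ τ ∈ W, ‖ξ τ‖ ≤ 1 / 4) → ∀ G : Gen ι K,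
      DifferentiableOn ℂ (fun τ => iteratedDeriv G.2.2 (d τ G.1 G.2.1) (ξ τ G.1)) W) :
    ∃ ξ : ℂ → ι → ℂ, DifferentiableOn ℂ ξ W ∧ ∀ τ ∈ W, Sol f (ϱ τ) (d τ) (ξ₀ τ) (ξ τ) := by
  set u : ℕ → ℂ → ι → ℂ := fun n τ => (Phi f (d τ) (ξ₀ τ))^[n] (ξ₀ τ) with hu
  have us : ∀ n τ, u (n + 1) τ = Phi f (d τ) (ξ₀ τ) (u n τ) := fun n τ =>
    Function.iterate_succ_apply' _ _ _
  have r0 : ∀ τ ∈ W, 0 ≤ ϱ τ := fun τ hτ => by linarith [(h τ hτ).st, norm_nonneg (Phi f (d τ) (ξ₀ τ) (ξ₀ τ) - ξ₀ τ)]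
  have b1 : ∀ τ ∈ W, ∀ n, ‖u n τ - ξ₀ τ‖ ≤ ϱ τ := fun τ hτ n => by
    induction n with
    | zero => simpa [hu] using r0 τ hτ
    | succ n ih =>
      have a := (h τ hτ).lip (u n τ) (ξ₀ τ) ih (by simpa using r0 τ hτ)
      have := norm_sub_le_norm_sub_add_norm_sub (u (n + 1) τ) (Phi f (d τ) (ξ₀ τ) (ξ₀ τ)) (ξ₀ τ)
      rw [← us] at a
      linarith [(h τ hτ).st]
  have b2 : ∀ τ ∈ W, ∀ n, dist (u n τ) (u (n + 1) τ) ≤ ϱ τ / 2 / 2 ^ n := fun τ hτ n => by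
    induction n with
    | zero => simpa [hu, dist_eq_norm, norm_sub_rev (ξ₀ τ)] using (h τ hτ).st
    | succ n ih =>
      have a := (h τ hτ).lip (u n τ) (u (n + 1) τ) (b1 τ hτ _) (b1 τ hτ _)
      rw [← us, ← us, ← dist_eq_norm, ← dist_eq_norm] at a
      rw [pow_succ, ← div_div]
      linarith
  have lim : ∀ τ, ∃ y, τ ∈ W → Tendsto (fun n => u n τ) atTop (𝓝 y) := fun τ => by
    by_cases hτ : τ ∈ W
    · obtain ⟨y, hy⟩ := cauchySeq_tendsto_of_complete (cauchySeq_of_le_geometric_two (b2 τ hτ))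
      exact ⟨y, fun _ => hy⟩
    · exact ⟨0, fun h => (hτ h).elim⟩
  choose ξ hξ using lim
  have n0 : ∀ τ ∈ W, ‖ξ₀ τ‖ ≤ 1 / 4 := fun τ hτ => (h τ hτ).norm_le (by simpa using r0 τ hτ)
  have du : ∀ n, DifferentiableOn ℂ (u n) W := fun n => by
    induction n with
    | zero => exact h0
    | succ n ih =>
      have e : u (n + 1) = fun τ => Phi f (d τ) (ξ₀ τ) (u n τ) := funext (us n)
      rw [e]
      refine ih.sub (differentiableOn_pi.2 fun i => ?_)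
      simp only [Mx_inv_mulVec]
      refine ((differentiableOn_Ev (hol _ h0 n0) _).inv fun τ hτ => Mx_det (d τ) (ξ₀ τ) ▸
        (h τ hτ).det).mul (DifferentiableOn.fun_sum fun j _ =>
          (differentiableOn_Ev (hol _ h0 n0) _).mul (differentiableOn_Ev (hol _ ih fun τ hτ =>
            (h τ hτ).norm_le (b1 τ hτ n)) _))
  have t0 : Tendsto (fun n : ℕ => (1 / 4 : ℝ) / 2 ^ n) atTop (𝓝 0) :=
    (tendsto_pow_atTop_atTop_of_one_lt one_lt_two).const_div_atTop _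
  refine ⟨ξ, TendstoLocallyUniformlyOn.differentiableOn (F := u) (φ := atTop)
    (TendstoUniformlyOn.tendstoLocallyUniformlyOn (Metric.tendstoUniformlyOn_iff.2 fun ε hε => ?_))
    (Eventually.of_forall du) hW, fun τ hτ => ?_⟩
  · filter_upwards [t0.eventually_lt_const hε] with n hn τ hτ
    rw [dist_comm]
    refine (dist_le_of_le_geometric_two_of_tendsto (b2 τ hτ) (hξ τ hτ) n).trans_lt
      (lt_of_le_of_lt ?_ hn)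
    gcongr
    linarith [(h τ hτ).small, norm_nonneg (ξ₀ τ)]
  · have s1 : ‖ξ τ - ξ₀ τ‖ ≤ ϱ τ := le_of_tendsto' ((hξ τ hτ).sub_const _).norm (b1 τ hτ)
    refine ⟨s1, ?_⟩
    have t1 : Tendsto (fun n => u (n + 1) τ) atTop (𝓝 (Phi f (d τ) (ξ₀ τ) (ξ τ))) := by
      rw [tendsto_iff_norm_sub_tendsto_zero]
      refine squeeze_zero (fun _ => norm_nonneg _) (fun n => us n τ ▸ (h τ hτ).lip _ _ (b1 τ hτ n) s1) ?_
      simpa only [mul_zero] using (tendsto_iff_norm_sub_tendsto_zero.1 (hξ τ hτ)).const_mul (1 / 2)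
    have e := tendsto_nhds_unique t1 ((tendsto_add_atTop_iff_nat 1).2 (hξ τ hτ))
    rw [Phi, sub_eq_self] at e
    have := congrArg (Mx f (d τ) (ξ₀ τ) *ᵥ ·) e
    simp only [Matrix.mulVec_mulVec, Matrix.mul_nonsing_inv _ (Ne.isUnit (h τ hτ).det),
      Matrix.one_mulVec, Matrix.mulVec_zero] at this
    exact congrFun this

lemma exists_sol_pt (h : NOK f A ϱ e y₀) : ∃ y, Sol f ϱ e y₀ y := by
  have r0 : 0 ≤ ϱ := by linarith [h.st, norm_nonneg (Phi f e y₀ y₀ - y₀)]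
  have hm : MapsTo (Phi f e y₀) (closedBall y₀ ϱ) (closedBall y₀ ϱ) := fun y hy => by
    rw [mem_closedBall, dist_eq_norm] at hy ⊢
    linarith [h.lip y y₀ hy (by simpa using r0), h.st,
      norm_sub_le_norm_sub_add_norm_sub (Phi f e y₀ y) (Phi f e y₀ y₀) y₀]
  obtain ⟨y, h1, h2, -⟩ := ContractingWith.exists_fixedPoint' (K := 1 / 2) isClosed_closedBall.isComplete hm
    ⟨by norm_num, LipschitzWith.of_dist_le_mul fun y y' => by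
      simpa [Subtype.dist_eq, dist_eq_norm] using h.lip y y' (mem_closedBall_iff_norm.1 y.2)
        (mem_closedBall_iff_norm.1 y'.2)⟩ (mem_closedBall_self r0) (edist_ne_top _ _)
  refine ⟨y, mem_closedBall_iff_norm.1 h1, ?_⟩
  rw [Function.IsFixedPt, Phi, sub_eq_self] at h2
  have := congrArg (Mx f e y₀ *ᵥ ·) h2
  simp only [Matrix.mulVec_mulVec, Matrix.mul_nonsing_inv _ (Ne.isUnit h.det),
    Matrix.one_mulVec, Matrix.mulVec_zero] at this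
  exact congrFun this

/-- The truncated curve. -/
noncomputable def tr (M : ℕ) (x : ι → PowerSeries ℂ) (s : ℂ) : ι → ℂ :=
  fun j => (PowerSeries.trunc M (x j)).eval s

lemma nok_of_bounds {y₀ : ι → ℂ} {s c₀ C₁ C₂ C₃ : ℝ} {ν M : ℕ} (p0 : 0 < s) (s3 : s ≤ 1)
    (c0 : 0 < c₀) (C10 : 0 ≤ C₁) (C20 : 0 ≤ C₂) (C30 : 0 ≤ C₃) (hM : 2 * ν + 2 ≤ M)
    (hA : A = Fintype.card ι * C₁ / c₀) (s1 : ‖y₀‖ + s ^ (ν + 1) ≤ 1 / 4)
    (s2 : A * (C₂ + C₃) * s ≤ 1 / 2) (s4 : c₀ * s ^ ν ≤ ‖Ev ℂ e y₀ (Jm f).det‖)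
    (s5 : ∀ i j, ‖Ev ℂ e y₀ ((Jm f).adjugate i j)‖ ≤ C₁)
    (s6 : ∀ y y', ‖y - y₀‖ ≤ s ^ (ν + 1) → ‖y' - y₀‖ ≤ s ^ (ν + 1) →
      ‖(fun i => Ev ℂ e y (f i)) - (fun i => Ev ℂ e y' (f i)) - Mx f e y₀ *ᵥ (y - y')‖ ≤
        C₂ * (s ^ (ν + 1) * ‖y - y'‖))
    (s7 : ‖fun i => Ev ℂ e y₀ (f i)‖ ≤ C₃ * s ^ M) : NOK f (A / s ^ ν) (s ^ (ν + 1)) e y₀ := by
  have A0 : 0 ≤ A := by rw [hA]; positivity
  have dt : (Mx f e y₀).det ≠ 0 := by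
    rw [Mx_det]
    exact norm_pos_iff.1 (lt_of_lt_of_le (by positivity) s4)
  have iv : ∀ v, ‖(Mx f e y₀)⁻¹ *ᵥ v‖ ≤ A / s ^ ν * ‖v‖ := fun v => by
    refine (pi_norm_le_iff_of_nonneg (by positivity)).2 fun i => ?_
    rw [Mx_inv_mulVec, norm_mul, norm_inv]
    have b1 : ‖∑ j, Ev ℂ e y₀ ((Jm f).adjugate i j) * v j‖ ≤ Fintype.card ι * (C₁ * ‖v‖) :=
      (norm_sum_le_of_le _ fun j _ => norm_mul_le_of_le (s5 i j) (norm_le_pi_norm v j)).trans_eq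
        (by simp)
    calc _ ≤ (c₀ * s ^ ν)⁻¹ * (Fintype.card ι * (C₁ * ‖v‖)) := by gcongr
      _ = _ := by rw [hA]; field_simp
  refine ⟨dt, iv, fun y y' hy hy' => ?_, ?_, s1⟩
  · have e1 : Phi f e y₀ y - Phi f e y₀ y' = -((Mx f e y₀)⁻¹ *ᵥ
        ((fun i => Ev ℂ e y (f i)) - (fun i => Ev ℂ e y' (f i)) - Mx f e y₀ *ᵥ (y - y'))) := by
      rw [Matrix.mulVec_sub, Matrix.mulVec_sub, Matrix.mulVec_mulVec,
        Matrix.nonsing_inv_mul _ (Ne.isUnit dt), Matrix.one_mulVec, Phi, Phi]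
      abel
    rw [e1, norm_neg]
    refine (iv _).trans ((mul_le_mul_of_nonneg_left (s6 y y' hy hy') (by positivity)).trans ?_)
    calc _ = A * C₂ * s * ‖y - y'‖ := by field_simp; ring
      _ ≤ _ := by gcongr; nlinarith [mul_nonneg (mul_nonneg A0 C30) p0.le]
  · rw [Phi, sub_sub_cancel_left, norm_neg]
    refine (iv _).trans ((mul_le_mul_of_nonneg_left s7 (by positivity)).trans ?_)
    calc _ ≤ A / s ^ ν * (C₃ * s ^ (2 * ν + 2)) := by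
          gcongr ?_ * (_ * ?_)
          exact pow_le_pow_of_le_one p0.le s3 hM
      _ = A * C₃ * s * s ^ (ν + 1) := by field_simp; ring
      _ ≤ 1 / 2 * s ^ (ν + 1) := by gcongr; nlinarith [mul_nonneg (mul_nonneg A0 C20) p0.le]
      _ = _ := by ring

lemma second_unif {ϱ : α → ℝ} (hd : BdD l d) (t1 : ∀ᶠ a in l, ‖ξ₀ a‖ + ϱ a ≤ 1 / 4) :
    ∃ C₂, 0 ≤ C₂ ∧ ∀ᶠ a in l, ∀ y y', ‖y - ξ₀ a‖ ≤ ϱ a → ‖y' - ξ₀ a‖ ≤ ϱ a →
      ‖(fun i => Ev ℂ (d a) y (f i)) - (fun i => Ev ℂ (d a) y' (f i)) -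
        Mx f (d a) (ξ₀ a) *ᵥ (y - y')‖ ≤ C₂ * (ϱ a * ‖y - y'‖) := by
  obtain ⟨l', hl'⟩ : ∃ l' : Filter (α × (ι → ℂ) × (ι → ℂ)), l' = l.comap Prod.fst ⊓
    𝓟 {p | ‖p.2.1 - ξ₀ p.1‖ ≤ ϱ p.1 ∧ ‖p.2.2 - ξ₀ p.1‖ ≤ ϱ p.1} := ⟨_, rfl⟩
  have tf : Tendsto Prod.fst l' l := hl' ▸ tendsto_comap.mono_left inf_le_left
  have hp : ∀ᶠ p in l', ‖p.2.1 - ξ₀ p.1‖ ≤ ϱ p.1 ∧ ‖p.2.2 - ξ₀ p.1‖ ≤ ϱ p.1 :=
    hl' ▸ (eventually_principal.2 fun _ h => h).filter_mono inf_le_right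
  have hq := hp.and (tf.eventually t1)
  have q1 : ∀ᶠ p in l', ‖p.2.1‖ ≤ 1 / 4 :=
    hq.mono fun p h => by linarith [norm_le_norm_add_norm_sub' p.2.1 (ξ₀ p.1), h.1.1, h.2]
  have q2 : ∀ᶠ p in l', ‖p.2.2‖ ≤ 1 / 4 :=
    hq.mono fun p h => by linarith [norm_le_norm_add_norm_sub' p.2.2 (ξ₀ p.1), h.1.2, h.2]
  have q3 : ∀ᶠ p in l', ‖ξ₀ p.1‖ ≤ 1 / 4 :=
    hq.mono fun p h => by linarith [norm_nonneg (p.2.1 - ξ₀ p.1), h.1.1, h.2]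
  have q4 : (fun p => p.2.1 - ξ₀ p.1) =O[l'] fun p => ϱ p.1 :=
    IsBigO.of_bound' (hp.mono fun p h => h.1.trans (le_abs_self _))
  have q5 : (fun p => p.2.2 - ξ₀ p.1) =O[l'] fun p => ϱ p.1 :=
    IsBigO.of_bound' (hp.mono fun p h => h.2.trans (le_abs_self _))
  have q6 : (fun p => p.2.1 - p.2.2) =O[l'] fun p => ‖p.2.1 - p.2.2‖ :=
    isBigO_norm_right.2 (isBigO_refl _ _)
  have h1 := fun i => Ev_second (hd.comp tf) q1 q2 q3 q4 q5 q6 (f i)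
  have h3 : (fun p : α × (ι → ℂ) × (ι → ℂ) => (fun i => Ev ℂ (d p.1) p.2.1 (f i)) -
      (fun i => Ev ℂ (d p.1) p.2.2 (f i)) - Mx f (d p.1) (ξ₀ p.1) *ᵥ (p.2.1 - p.2.2)) =O[l']
      fun p => ϱ p.1 * ‖p.2.1 - p.2.2‖ := isBigO_pi.2 fun i => (h1 i).congr_left fun p => by
    simp [EvF_apply, Mx, Jm, Matrix.mulVec, dotProduct]
  obtain ⟨C₂, C20, h2⟩ := h3.exists_nonneg
  have h2' := h2.bound
  rw [hl', eventually_inf_principal, eventually_comap] at h2'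
  refine ⟨C₂, C20, h2'.mono fun a s6 y y' hy hy' => ?_⟩
  have b := s6 (a, y, y') rfl ⟨hy, hy'⟩
  have r0 : 0 ≤ ϱ a := (norm_nonneg _).trans hy
  rwa [Real.norm_of_nonneg (mul_nonneg r0 (norm_nonneg _))] at b

theorem Good'.nok {M ν : ℕ} {u : PowerSeries ℂ} (hd : Good' l σ d c M) (hσ : Tendsto σ l (𝓝 0))
    (h0 : ∀ᶠ a in l, σ a ≠ 0) (hx : ∀ j, PowerSeries.X ∣ x j) (hf : ∀ i, FP c x (f i) = 0)
    (hJ : FP c x (Jm f).det = PowerSeries.X ^ ν * u) (hu : IsUnit u) (hM : 2 * ν + 2 ≤ M) :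
    ∃ A : ℝ, 0 ≤ A ∧ ∀ᶠ a in l, NOK f (A / ‖σ a‖ ^ ν) (‖σ a‖ ^ (ν + 1)) (d a) (tr M x (σ a)) := by
  set ξ₀ : α → ι → ℂ := fun a => tr M x (σ a) with hξ₀
  have a0 : ∀ j, AsyN l σ M (fun a => ξ₀ a j) (x j) := fun j => AsyN.trunc l σ M _
  have a1 := hd.asyN hσ (by omega) hx a0
  have t0 := tendsto_of_asy hσ (by omega) hx a0
  have t1 : ∀ᶠ a in l, ‖ξ₀ a‖ + ‖σ a‖ ^ (ν + 1) ≤ 1 / 4 :=
    (t0.norm.add (hσ.norm.pow (ν + 1))).eventually_le_const (by simp)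
  obtain ⟨c₀, c0, hc⟩ := (a1 (Jm f).det).lower hσ (k := ν) (by omega) (hJ ▸ not_dvd_unit hu)
  obtain ⟨C₁, C10, h1⟩ := (isBigO_pi.2 fun i => isBigO_pi.2 fun j =>
    (a1 ((Jm f).adjugate i j)).isBigO_one hσ).exists_nonneg
  obtain ⟨C₃, C30, h3⟩ := (isBigO_pi.2 fun i => (a1 (f i)).isBigO hσ (by simp [hf])).exists_nonneg
  obtain ⟨C₂, C20, h2⟩ := second_unif (f := f) hd.1 t1
  set A := Fintype.card ι * C₁ / c₀ with hA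
  have t2 : ∀ᶠ a in l, A * (C₂ + C₃) * ‖σ a‖ ≤ 1 / 2 :=
    (hσ.norm.const_mul _).eventually_le_const (by simp)
  have t3 : ∀ᶠ a in l, ‖σ a‖ ≤ 1 := hσ.norm.eventually_le_const (by simp)
  refine ⟨A, by positivity, ?_⟩
  filter_upwards [h0, t1, t2, t3, hc, h1.bound, h2, h3.bound] with a s0 s1 s2 s3 s4 s5 s6 s7
  refine nok_of_bounds (norm_pos_iff.2 s0) s3 c0 C10 C20 C30 hM hA s1 s2 s4 (fun i j => ?_) s6
    (by rw [← norm_pow]; exact s7)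
  exact ((norm_le_pi_norm (fun j => EvF d ξ₀ ((Jm f).adjugate i j) a) j).trans
    (norm_le_pi_norm (fun i j => EvF d ξ₀ ((Jm f).adjugate i j) a) i)).trans (by simpa using s5)

theorem sol_cmp {A ϱ ε : α → ℝ} (hd : BdD l d) (hd' : BdD l d')
    (h : ∀ᶠ a in l, NOK f (A a) (ϱ a) (d a) (ξ₀ a)) (hs : ∀ᶠ a in l, Sol f (ϱ a) (d a) (ξ₀ a) (ξ a))
    (hs' : ∀ᶠ a in l, Sol f (ϱ a) (d' a) (ξ₀ a) (ξ' a))
    (h2 : ∀ᶠ a in l, ∀ j κ, ∀ z ∈ ball (0 : ℂ) (4 * (1 / 8)), ‖d' a j κ z - d a j κ z‖ ≤ ε a)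
    (h3 : ε =O[l] w) (h4 : (fun a => A a * ε a) =O[l] w) :
    (fun a => ξ' a - ξ a) =O[l] w ∧ ∀ g, (EvF d' ξ' g - EvF d ξ g) =O[l] w := by
  have n1 := (h.and hs).mono fun a h => h.1.norm_le h.2.1
  have n2 := (h.and hs').mono fun a h => h.1.norm_le h.2.1
  have h5 := isBigO_pi.2 fun i => Ev_sub_isBigO hd hd' n2 n2 (w := ε) (by simp only [sub_self]; exact isBigO_zero ε l)
    h2 (isBigO_refl _ _) (f i)
  have h6 : (fun a => ξ' a - ξ a) =O[l] w := by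
    refine IsBigO.trans ?_ (((isBigO_refl A l).mul h5.norm_left).trans h4)
    refine IsBigO.of_bound 2 ?_
    filter_upwards [h, hs, hs'] with a a1 a2 a3
    refine (a1.post a2 a3.1).trans ?_
    rw [mul_assoc]
    gcongr
    refine le_trans (le_of_eq ?_) (le_abs_self _)
    congr 1
    rw [← norm_neg]
    congr 1
    funext i
    simp [EvF_apply, a3.2]
  exact ⟨h6, Ev_sub_isBigO hd hd' n1 n2 h6 h2 h3⟩

theorem sol_asy {M ν : ℕ} {A : ℝ} (hd : Good' l σ d c (N + ν)) (hσ : Tendsto σ l (𝓝 0))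
    (h0 : ∀ᶠ a in l, σ a ≠ 0) (hx : ∀ j, PowerSeries.X ∣ x j) (hf : ∀ i, FP c x (f i) = 0)
    (hM : ν + 2 ≤ M) (hN : M ≤ N + ν)
    (h : ∀ᶠ a in l, NOK f (A / ‖σ a‖ ^ ν) (‖σ a‖ ^ (ν + 1)) (d a) (tr M x (σ a)))
    (hs : ∀ᶠ a in l, Sol f (‖σ a‖ ^ (ν + 1)) (d a) (tr M x (σ a)) (ξ a)) (j : ι) :
    AsyN l σ N (fun a => ξ a j) (x j) := by
  have a0 : ∀ j, AsyN l σ (N + ν) (fun a => tr (N + ν) x (σ a) j) (x j) := fun j => AsyN.trunc l σ _ _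
  have a1 := isBigO_pi.2 fun i => (hd.asyN hσ (by omega) hx a0 (f i)).isBigO hσ (by simp [hf])
  have a2 := isBigO_pi.2 fun j => ((a0 j).mono hσ (hM.trans hN)).any hσ
    ((pow_dvd_pow _ hM).trans (dvd_sub_trunc M (x j)))
  have a3 : (fun t => σ t ^ (ν + 2)) =o[l] fun t => σ t ^ (ν + 1) := by
    simpa [pow_succ _ (ν + 1)] using (isBigO_refl (fun t => σ t ^ (ν + 1)) l).mul_isLittleO
      ((isLittleO_one_iff ℂ).2 hσ)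
  refine ((a0 j).mono hσ (Nat.le_add_right _ _)).congr_left (IsBigO.of_norm_right
    (coord_isBigO (v := fun a => ξ a - tr (N + ν) x (σ a)) ?_ j))
  obtain ⟨C, C0, hC⟩ := a1.exists_nonneg
  refine IsBigO.of_bound (2 * |A| * C) ?_
  filter_upwards [h, hs, h0, hC.bound, (a2.trans_isLittleO a3).eventuallyLE] with a b1 b2 b3 b4 b5
  have p0 : 0 < ‖σ a‖ := norm_pos_iff.2 b3
  rw [norm_sub_rev]
  refine (b1.post b2 (by rw [← norm_pow]; exact b5)).trans ?_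
  calc _ ≤ 2 * (|A| / ‖σ a‖ ^ ν) * (C * ‖σ a ^ (N + ν)‖) := by
        gcongr
        · exact le_abs_self A
        · exact b4
    _ = _ := by rw [norm_norm, norm_pow, norm_pow]; field_simp; ring

end Newton

end Pool.Agent.P.MP_26ad15_nt
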