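import Pool.Agent.P.MP_26ad15_nt.ASMain

/-! The final statements in terms of transcendence degrees. -/

namespace Pool.Agent.P.MP_26ad15_nt

open Complex Set

lemma mk_le_trdeg {R A B ι : Type} [CommRing R] [Nontrivial R] [CommRing A] [CommRing B]
    [Algebra R A] [Algebra R B] {x : ι → A} (hx : AlgebraicIndependent R x) (φ : B →ₐ[R] A)
    (h : ∀ i, ∃ y, φ y = x i) : Cardinal.mk ι ≤ Algebra.trdeg R B := by
  choose y hy using h
  exact (AlgebraicIndependent.of_comp (x := y) φ (by rwa [show φ ∘ y = x from funext hy])).cardinalMk_le_trdeg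

theorem ax_schanuel {d n : ℕ} {U : Set (Fin d → ℂ)} (hUo : IsOpen U) (hUc : IsConnected U)
    {f : Fin n → (Fin d → ℂ) → ℂ} (hf : ∀ i, AnalyticOnNhd ℂ (f i) U)
    (hp : ∀ i, ∀ x ∈ U, ∀ m : ℕ, f i x ≠ -(m : ℂ)) (hnc : ∀ i (c : ℂ), ¬ ∀ x ∈ U, f i x = c)
    (hH : ∀ i j, i ≠ j → ∀ a b : ℚ, ¬ ∀ x ∈ U, f i x = (a : ℂ) * f j x + (b : ℂ))
    (S : Finset (Fin n × ℕ)) {x₀ : Fin d → ℂ} (h0 : x₀ ∈ U) :
    ((S.card + (Matrix.of fun (k : Fin d) (i : Fin n) =>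
      fderiv ℂ (f i) x₀ (Pi.single k 1)).rank : ℕ) : Cardinal) ≤
    Algebra.trdeg ℂ (Algebra.adjoin ℂ ((Set.range fun (i : Fin n) (x : U) => f i x) ∪
      (fun (q : Fin n × ℕ) (x : U) => iteratedDeriv q.2 Complex.Gamma (f q.1 x)) '' S)) := by
  obtain ⟨b, h1, h2, h3⟩ := as_functional sas hUo hUc.2 hf hp hnc hH h0
    (fun k => Pi.single k 1) (Finset.univ.disjSum S)
  have hm : ∀ G : b, (fun x : U => valG (fun j => f j x) G) ∈ Algebra.adjoin ℂ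
      ((Set.range fun (i : Fin n) (x : U) => f i x) ∪
      (fun (q : Fin n × ℕ) (x : U) => iteratedDeriv q.2 Complex.Gamma (f q.1 x)) '' S) := by
    rintro ⟨i | q, hG⟩
    · exact Algebra.subset_adjoin (Or.inl ⟨i, rfl⟩)
    · exact Algebra.subset_adjoin (Or.inr ⟨q, by simpa using h1 hG, rfl⟩)
  refine le_trans ?_ (mk_le_trdeg h3 (Subalgebra.val _) fun G => ⟨⟨_, hm G⟩, rfl⟩)
  rw [Finset.card_disjSum, Finset.card_univ] at h2
  rw [Finset.coe_sort_coe, Cardinal.mk_coe_finset, Nat.cast_le]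
  omega

theorem countable_exc : ∃ K : Set ℂ, K.Countable ∧ ∀ (n m : ℕ) (z : Fin n → ℂ),
    (∀ i j, i ≠ j → ∀ a b : ℚ, z i ≠ (a : ℂ) * z j + (b : ℂ)) → (∃ i, z i ∉ K) →
    Algebra.trdeg ℚ (IntermediateField.adjoin ℚ {w : ℂ | ∃ i, z i ∈ K ∧
        (w = z i ∨ ∃ l ≤ m, w = iteratedDeriv l Complex.Gamma (z i))}) +
      (((m + 1) * {i | z i ∉ K}.ncard + 1 : ℕ) : Cardinal) ≤
    Algebra.trdeg ℚ (IntermediateField.adjoin ℚ {w : ℂ | ∃ i,
        w = z i ∨ ∃ l ≤ m, w = iteratedDeriv l Complex.Gamma (z i)}) := by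
  classical
  obtain ⟨k, hk, -⟩ := exists_closed countable_empty
  refine ⟨k, hk.count, fun n m z hH ⟨i₀, hi₀⟩ => ?_⟩
  obtain ⟨n', hn', ⟨e⟩⟩ : ∃ n', {i | z i ∉ (k : Set ℂ)}.ncard = n' ∧
      Nonempty (Fin n' ≃ {i | z i ∉ (k : Set ℂ)}) :=
    ⟨_, rfl, ⟨(Finite.equivFinOfCardEq (Nat.card_coe_set_eq _)).symm⟩⟩
  obtain ⟨b, h1, h2, h3⟩ := as_numeric sas hk (n := n') (by
      rintro rfl; exact (e.symm ⟨i₀, hi₀⟩).elim0) (z := fun j => z (e j)) (fun j => (e j).2)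
    (fun i j hij => hH _ _ fun h => hij (e.injective (Subtype.ext h)))
    (Finset.univ.disjSum (Finset.univ ×ˢ Finset.range (m + 1)))
  set F₁ := IntermediateField.adjoin ℚ {w : ℂ | ∃ i, z i ∈ (k : Set ℂ) ∧
    (w = z i ∨ ∃ l ≤ m, w = iteratedDeriv l Complex.Gamma (z i))} with hF₁
  set F₂ := IntermediateField.adjoin ℚ {w : ℂ | ∃ i,
    w = z i ∨ ∃ l ≤ m, w = iteratedDeriv l Complex.Gamma (z i)} with hF₂
  have a1 : F₁ ≤ k.toIntermediateField fun q => SubfieldClass.ratCast_mem k q := by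
    rw [hF₁, IntermediateField.adjoin_le_iff]
    rintro _ ⟨i, hi, rfl | ⟨l, -, rfl⟩⟩
    · exact hi
    · exact hk.gam _ hi l
  have a2 : F₁ ≤ F₂ := IntermediateField.adjoin.mono _ _ _ fun w ⟨i, _, h⟩ => ⟨i, h⟩
  obtain ⟨s, hs⟩ := exists_isTranscendenceBasis ℚ F₁
  have a3 := (hs.1.map' (f := F₁.val) Subtype.val_injective).sumElim_of_tower (S := k)
    (by rintro _ ⟨y, rfl⟩; exact ⟨⟨_, a1 y.1.2⟩, rfl⟩) h3
  have hm : ∀ G : b ⊕ s, Sum.elim (fun G : b => valG (fun j => z (e j)) G)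
      (F₁.val ∘ Subtype.val) G ∈ F₂ := by
    rintro (⟨i | q, hG⟩ | y)
    · exact IntermediateField.subset_adjoin _ _ ⟨_, Or.inl rfl⟩
    · exact IntermediateField.subset_adjoin _ _ ⟨_, Or.inr ⟨q.2, by
        simpa [Nat.lt_succ_iff] using h1 hG, rfl⟩⟩
    · exact a2 y.1.2
  refine le_trans ?_ (mk_le_trdeg a3 F₂.val fun G => ⟨⟨_, hm G⟩, rfl⟩)
  rw [Cardinal.mk_sum, Cardinal.lift_id, Cardinal.lift_id, hs.cardinalMk_eq_trdeg, add_comm, hn',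
    Finset.coe_sort_coe, Cardinal.mk_coe_finset]
  simp only [Finset.card_disjSum, Finset.card_univ, Fintype.card_fin, Finset.card_product,
    Finset.card_range] at h2
  gcongr
  rw [mul_comm]
  omega

end Pool.Agent.P.MP_26ad15_nt
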