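import Pool.Agent.P.MP_26ad15_nt.ASStokes

/-! Data of two solutions along a ray, on both sides of a Stokes phenomenon. -/

namespace Pool.Agent.P.MP_26ad15_nt

open Complex Set Filter Topology Asymptotics MvPolynomial

section Vm

variable {α : Type*} {l : Filter α} {T : α → ℝ} {μ μ' : ℝ} {F F' : α → ℂ}

/-- Functions of exponential type at most `-μ` with respect to the scale `T`. -/
def Vm (l : Filter α) (T : α → ℝ) (μ : ℝ) : AddSubgroup (α → ℂ) where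
  carrier := {F | ∀ μ' < μ, F =O[l] fun a => Real.exp (-(μ' * T a))}
  add_mem' := fun h h' μ' hμ => (h μ' hμ).add (h' μ' hμ)
  zero_mem' := fun _ _ => isBigO_zero _ _
  neg_mem' := fun h μ' hμ => (h μ' hμ).neg_left

lemma mem_Vm : F ∈ Vm l T μ ↔ ∀ μ' < μ, F =O[l] fun a => Real.exp (-(μ' * T a)) := Iff.rfl

lemma Vm_mul (h : F ∈ Vm l T μ) (h' : F' ∈ Vm l T μ') : F * F' ∈ Vm l T (μ + μ') := fun t ht =>
  ((h (μ - (μ + μ' - t) / 2) (by linarith)).mul (h' (μ' - (μ + μ' - t) / 2) (by linarith))).congr_right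
    fun a => by rw [← Real.exp_add]; congr 1; ring

lemma Vm_mono (h : F ∈ Vm l T μ) (hμ : μ' ≤ μ) : F ∈ Vm l T μ' := fun t ht => h t (ht.trans_le hμ)

lemma Vm_of_isBigO (h : F ∈ Vm l T μ) (h' : F' =O[l] F) : F' ∈ Vm l T μ := fun t ht => h'.trans (h t ht)

lemma Vm_comp {β : Type*} {l' : Filter β} {k : β → α} (h : F ∈ Vm l T μ) (hk : Tendsto k l' l) :
    (fun b => F (k b)) ∈ Vm l' (fun b => T (k b)) μ := fun t ht => (h t ht).comp_tendsto hk

lemma Vm_zero (hT : Tendsto T l atTop) (h : F =O[l] fun _ => (1 : ℝ)) : F ∈ Vm l T 0 := fun t ht =>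
  h.trans (IsBigO.of_bound' ((hT.eventually_ge_atTop 0).mono fun a ha => by
    rw [norm_one, Real.norm_of_nonneg (Real.exp_pos _).le, Real.one_le_exp_iff]
    nlinarith))

lemma Vm_pow (hT : Tendsto T l atTop) (h : F ∈ Vm l T μ) (n : ℕ) : F ^ n ∈ Vm l T (n * μ) := by
  induction n with
  | zero => simpa using Vm_zero (F := 1) hT (isBigO_const_const (1 : ℂ) one_ne_zero l)
  | succ n ih => simpa [pow_succ, add_mul] using Vm_mul ih h

end Vm

variable {ι : Type} [Fintype ι] [DecidableEq ι] {M : Type} [AddCommMonoid M]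

/-- The small exponential in the jump. -/
noncomputable def JD.qq (J : JD ι M) (ex : Multiplicative M →* ℂ) (e : ι → KK → ℂ → ℂ) (y : ι → ℂ)
    (j : ι) (β : BB) : ℂ :=
  J.ζ j β * Ev ℂ e y (X (j, Sum.inr 2, 0)) * ex (Multiplicative.ofAdd (J.π j))

/-- Two solutions along a ray. -/
structure RD (J : JD ι M) (c : Gen ι KK → PowerSeries ℂ) (x : ι → PowerSeries ℂ)
    (f : ι → MvPolynomial (Gen ι KK) ℂ) (ν : ℕ) {α : Type} (l : Filter α) (σ : α → ℂ) (T : α → ℝ)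
    (ex : α → Multiplicative M →* ℂ) (d d' : α → ι → KK → ℂ → ℂ) (ξ ξ' : α → ι → ℂ) : Prop where
  hσ : Tendsto σ l (𝓝[≠] 0)
  hT : Tendsto T l atTop
  σT : (fun a => (σ a)⁻¹) ∈ Vm l T 0
  e1 : ∀ v, (fun a => ex a (Multiplicative.ofAdd v)) ∈ Vm l T (J.lam v)
  e2 : ∀ v μ, J.lam v < μ →
    (fun a => Real.exp (-(μ * T a))) =O[l] fun a => ex a (Multiplicative.ofAdd v)
  e3 : ∀ u v, u ≠ v → (∀ n : ℕ, (fun a => ex a (Multiplicative.ofAdd u)) =O[l]
      fun a => σ a ^ n * ex a (Multiplicative.ofAdd v)) ∨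
    ∀ n : ℕ, (fun a => ex a (Multiplicative.ofAdd v)) =O[l]
      fun a => σ a ^ n * ex a (Multiplicative.ofAdd u)
  good : ∀ N, Good' l σ d c N
  bdd' : BdD l d'
  nok : ∃ A, ∀ᶠ a in l, NokP x f ν A (d a) (σ a)
  nok' : ∃ A, ∀ᶠ a in l, NokP x f ν A (d' a) (σ a)
  sol : ∀ᶠ a in l, SolP x f ν (d a) (σ a) (ξ a)
  sol' : ∀ᶠ a in l, SolP x f ν (d' a) (σ a) (ξ' a)
  small : ∀ g, FP c x g = 0 → ∀ μ, (fun a => Ev ℂ (d a) (ξ a) g) ∈ Vm l T μ
  small' : ∀ g, FP c x g = 0 → ∀ μ, (fun a => Ev ℂ (d' a) (ξ' a) g) ∈ Vm l T μ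
  j1 : ∀ a j i, d' a j (Sum.inr i) = d a j (Sum.inr i)
  j2 : ∀ a j β, j ∉ J.D → d' a j (Sum.inl β) = d a j (Sum.inl β)
  j3 : ∀ j ∈ J.D, ∀ β k N, (fun a => Ev ℂ (d' a) (ξ a) (X (j, Sum.inl β, k)) -
    Ev ℂ (d a) (ξ a) (X (j, Sum.inl β, k)) - ∑ r ∈ Finset.range N,
      J.w j (k + 1) * (r : ℂ) ^ (k + 1) * J.qq (ex a) (d a) (ξ a) j β ^ r) =O[l]
    fun a => J.qq (ex a) (d a) (ξ a) j β ^ N

lemma RD.comp {J : JD ι M} {c : Gen ι KK → PowerSeries ℂ} {x : ι → PowerSeries ℂ}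
    {f : ι → MvPolynomial (Gen ι KK) ℂ} {ν : ℕ} {α : Type} {l : Filter α} {σ : α → ℂ} {T : α → ℝ}
    {ex : α → Multiplicative M →* ℂ} {d d' : α → ι → KK → ℂ → ℂ} {ξ ξ' : α → ι → ℂ}
    (h : RD J c x f ν l σ T ex d d' ξ ξ') {α' : Type} {l' : Filter α'} {k : α' → α}
    (hk : Tendsto k l' l) : RD J c x f ν l' (fun a => σ (k a)) (fun a => T (k a))
      (fun a => ex (k a)) (fun a => d (k a)) (fun a => d' (k a)) (fun a => ξ (k a))
      fun a => ξ' (k a) where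
  hσ := h.hσ.comp hk
  hT := h.hT.comp hk
  σT := Vm_comp h.σT hk
  e1 v := Vm_comp (h.e1 v) hk
  e2 v μ hμ := (h.e2 v μ hμ).comp_tendsto hk
  e3 u v huv := (h.e3 u v huv).imp (fun h n => (h n).comp_tendsto hk)
    fun h n => (h n).comp_tendsto hk
  good N := ⟨(h.good N).1.comp hk, fun G => ((h.good N).2 G).comp hk⟩
  bdd' := h.bdd'.comp hk
  nok := h.nok.imp fun _ h => hk.eventually h
  nok' := h.nok'.imp fun _ h => hk.eventually h
  sol := hk.eventually h.sol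
  sol' := hk.eventually h.sol'
  small g hg μ := Vm_comp (h.small g hg μ) hk
  small' g hg μ := Vm_comp (h.small' g hg μ) hk
  j1 a := h.j1 (k a)
  j2 a := h.j2 (k a)
  j3 j hj β m N := (h.j3 j hj β m N).comp_tendsto hk

/-- The formal point with values in Laurent series. -/
noncomputable def FL (c : Gen ι KK → PowerSeries ℂ) (x : ι → PowerSeries ℂ) :
    MvPolynomial (Gen ι KK) ℂ →ₐ[ℂ] LL :=
  (IsScalarTower.toAlgHom ℂ (PowerSeries ℂ) LL).comp (FP c x)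

/-- The Stokes deformation preserves the relations of the formal point. -/
def StI (J : JD ι M) (ψ : MvPolynomial (Gen ι KK) ℂ →ₐ[ℂ] LL) : Prop :=
  ∀ N : ℕ, ∃ δ : ι → AddMonoidAlgebra LL M, (∀ j, AddMonoidAlgebra.single J.π₀ (1 : LL) ∣ δ j) ∧
    ∀ g, ψ g = 0 → FPn N (J.cJ ψ N) δ g ∈ J.FI LL (N * J.lam J.π₀)

/-- The jump data attached to a curve and a choice of branches. -/
structure JD.Of (p : ι → Polynomial ℂ) (b : ι → Bool) {M : AddSubmonoid (Polynomial ℂ)}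
    (J : JD ι M) : Prop where
  ne : J.D.Nonempty
  cc : ∀ j, J.cc j = 2 * Real.pi * I * sg (b j)
  π : ∀ j ∈ J.D, (J.π j : Polynomial ℂ) =
    Polynomial.C (J.cc j) * (p j - Polynomial.C ((p j).coeff 0))
  w : ∀ j k, J.w j k = vc (b j) k
  ζ : ∀ j β, J.ζ j β = QQ (b j) ((p j).coeff 0 + (β : ℚ))

end Pool.Agent.P.MP_26ad15_nt
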