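import Pool.Agent.P.MP_26ad15_nt.ASPolD
import Pool.Agent.P.MP_26ad15_nt.ASAux3

/-! Comparison of the formal Stokes deformation with the actual solutions. -/

namespace Pool.Agent.P.MP_26ad15_nt

open Complex Set Filter Topology Asymptotics MvPolynomial
open AddMonoidAlgebra (single)

variable {ι : Type} [Fintype ι] [DecidableEq ι] {M : Type} [AddCommMonoid M] {J : JD ι M}
  {c : Gen ι KK → PowerSeries ℂ} {x : ι → PowerSeries ℂ} {f : ι → MvPolynomial (Gen ι KK) ℂ}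
  {ν : ℕ} {α : Type} {l : Filter α} {σ : α → ℂ} {T : α → ℝ} {ex : α → Multiplicative M →* ℂ}
  {d d' : α → ι → KK → ℂ → ℂ} {ξ ξ' : α → ι → ℂ} {A : Type*} [CommRing A] [Algebra ℂ A]

/-- Realization of exponential sums as functions. -/
noncomputable def rl (sA : A →ₐ[ℂ] (α → ℂ)) (ex : α → Multiplicative M →* ℂ) :
    AddMonoidAlgebra A M →ₐ[ℂ] (α → ℂ) :=
  AddMonoidAlgebra.liftNCAlgHom sA (MonoidHom.pi ex) fun _ _ => Commute.all _ _

lemma rl_single (sA : A →ₐ[ℂ] (α → ℂ)) (v : M) (a : A) :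
    rl sA ex (single v a) = sA a * fun t => ex t (Multiplicative.ofAdd v) :=
  AddMonoidAlgebra.liftNC_single _ _ _ _

lemma rl_apply (sA : A →ₐ[ℂ] (α → ℂ)) (b : AddMonoidAlgebra A M) : rl sA ex b =
    ∑ v ∈ b.coeff.support, sA (b.coeff v) * fun t => ex t (Multiplicative.ofAdd v) := by
  conv_lhs => rw [← b.sum_coeff_single, Finsupp.sum, map_sum]
  simp only [rl_single]

namespace RD

variable (h : RD J c x f ν l σ T ex d d' ξ ξ')
include h

lemma t0 : Tendsto σ l (𝓝 0) := h.hσ.mono_right nhdsWithin_le_nhds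

lemma ne0 : ∀ᶠ a in l, σ a ≠ 0 := h.hσ.eventually self_mem_nhdsWithin

lemma mem_of_pow {F : α → ℂ} {μ : ℝ} {n : ℕ} (hF : (fun a => σ a ^ n * F a) ∈ Vm l T μ) :
    F ∈ Vm l T μ := by
  have := Vm_mul (Vm_pow h.hT h.σT n) hF
  rw [mul_zero, zero_add] at this
  exact Vm_of_isBigO this (EventuallyEq.isBigO (h.ne0.mono fun a ha => by simp [ha]))

lemma isBigO_pow {F : α → ℂ} {μ : ℝ} (hF : F ∈ Vm l T μ) (hμ : 0 < μ) (n : ℕ) :
    F =O[l] fun a => σ a ^ n := by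
  have := Vm_mul (Vm_pow h.hT h.σT n) hF 0 (by simpa using hμ)
  simp only [zero_mul, neg_zero, Real.exp_zero] at this
  refine ((isBigO_refl (fun a => σ a ^ n) l).mul (this.trans
    (isBigO_const_const (1 : ℝ) (one_ne_zero (α := ℂ)) l))).congr' (h.ne0.mono fun a ha => ?_)
    (by simp)
  simp [ha]

variable {sA : A →ₐ[ℂ] (α → ℂ)}
  (h1 : ∀ a, ∃ n : ℕ, (fun t => σ t ^ n * sA a t) =O[l] fun _ => (1 : ℝ))
include h1

lemma sA_mem (a : A) : sA a ∈ Vm l T 0 :=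
  let ⟨_, hn⟩ := h1 a
  h.mem_of_pow (Vm_zero h.hT hn)

lemma rl_mem (b : AddMonoidAlgebra A M) : rl sA ex b ∈ Vm l T 0 := by
  rw [rl_apply]
  exact sum_mem fun v _ => Vm_mono (Vm_mul (h.sA_mem h1 _) (h.e1 v)) (by simp [J.lam_nonneg])

lemma rl_dvd {N : ℕ} {b : AddMonoidAlgebra A M} (hb : single J.π₀ (1 : A) ^ N ∣ b) :
    rl sA ex b ∈ Vm l T (N * J.lam J.π₀) := by
  obtain ⟨b, rfl⟩ := hb
  rw [map_mul, map_pow, rl_single, map_one, one_mul]
  simpa using Vm_mul (Vm_pow h.hT (h.e1 J.π₀) N) (h.rl_mem h1 b)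

lemma dom [l.NeBot] {K : Type*} [Zero K] {fA : A → K} (h2 : ∀ a, fA a = 0 → ∀ μ, sA a ∈ Vm l T μ)
    (h3 : ∀ a, fA a ≠ 0 → ∃ n : ℕ, (fun t => σ t ^ n) =O[l] sA a) {b : AddMonoidAlgebra A M}
    {μ : ℝ} (hb : rl sA ex b ∈ Vm l T μ) {v : M} (hv : J.lam v < μ) (h0 : fA 0 = 0) :
    fA (b.coeff v) = 0 := by
  classical
  by_contra hc
  set s := b.coeff.support.filter fun v => fA (b.coeff v) ≠ 0 with hs
  have hvs : v ∈ s := Finset.mem_filter.2 ⟨Finsupp.mem_support_iff.2 fun e => hc (e ▸ h0), hc⟩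
  obtain ⟨m, hm, hd⟩ := exists_dominant (fun u v => ∀ n : ℕ,
    (fun a => ex a (Multiplicative.ofAdd u)) =O[l] fun a => σ a ^ n * ex a (Multiplicative.ofAdd v))
    (fun u v w a b n => (a 0).trans (by simpa using b n)) s ⟨v, hvs⟩ fun u _ v _ => h.e3 u v
  have e1 : (∑ u ∈ s, sA (b.coeff u) * fun t => ex t (Multiplicative.ofAdd u)) ∈ Vm l T μ := by
    rw [rl_apply, ← Finset.sum_filter_add_sum_filter_not _ fun v => fA (b.coeff v) ≠ 0] at hb
    refine (add_mem_cancel_right (sum_mem fun u hu => ?_)).1 hb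
    exact Vm_mono (Vm_mul (h2 _ (not_not.1 (Finset.mem_filter.1 hu).2) μ) (h.e1 u))
      (by simp [J.lam_nonneg])
  obtain ⟨n, hn⟩ := h3 _ (Finset.mem_filter.1 hm).2
  have e2 : (fun t => σ t ^ n * ex t (Multiplicative.ofAdd m)) =O[l]
      (sA (b.coeff m) * fun t => ex t (Multiplicative.ofAdd m)) := hn.mul (isBigO_refl _ _)
  have e3 : (∑ u ∈ s.erase m, sA (b.coeff u) * fun t => ex t (Multiplicative.ofAdd u)) =o[l]
      (sA (b.coeff m) * fun t => ex t (Multiplicative.ofAdd m)) := by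
    refine IsLittleO.trans_isBigO (IsLittleO.sum fun u hu => ?_) e2
    obtain ⟨k, hk⟩ := h1 (b.coeff u)
    have a1 := (isBigO_refl (sA (b.coeff u)) l).mul
      (hd u (Finset.mem_of_mem_erase hu) (Finset.ne_of_mem_erase hu) (k + 1 + n))
    have a2 := (hk.mul_isLittleO ((isLittleO_one_iff ℝ).2 h.t0)).mul_isBigO
      (isBigO_norm_right.2 (isBigO_refl (fun t => σ t ^ n * ex t (Multiplicative.ofAdd m)) l))
    simp only [one_mul, isLittleO_norm_right] at a2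
    exact a1.trans_isLittleO (a2.congr_left fun t => by ring)
  have e4 : (fun t => ex t (Multiplicative.ofAdd m)) ∈ Vm l T μ := by
    refine h.mem_of_pow (Vm_of_isBigO e1 (e2.trans (e3.right_isBigO_add.congr_right fun t => ?_)))
    rw [← Finset.sum_erase_add _ _ hm]
    rfl
  have e5 : (fun t => ex t (Multiplicative.ofAdd v)) ∈ Vm l T μ := by
    by_cases e : v = m
    · exact e ▸ e4
    · exact Vm_of_isBigO e4 (by simpa using hd v hvs e 0)
  obtain ⟨μ₁, a1, a2⟩ := exists_between hv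
  obtain ⟨μ₂, a3, a4⟩ := exists_between a2
  have e6 := Real.isBigO_exp_comp_exp_comp.1 ((h.e2 v μ₁ a1).trans (e5 μ₂ a4))
  refine not_isBoundedUnder_of_tendsto_atTop ?_ e6
  exact (h.hT.const_mul_atTop (sub_pos.2 a3)).congr fun t => by simp; ring

omit h1

lemma n1 : ∀ᶠ a in l, ‖ξ a‖ ≤ 1 / 4 :=
  let ⟨_, hA⟩ := h.nok
  (hA.and h.sol).mono fun _ h => h.1.norm_le h.2.1

lemma n1' : ∀ᶠ a in l, ‖ξ' a‖ ≤ 1 / 4 :=
  let ⟨_, hA⟩ := h.nok'
  (hA.and h.sol').mono fun _ h => h.1.norm_le h.2.1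

variable (hx : ∀ j, PowerSeries.X ∣ x j) (hf : ∀ i, FP c x (f i) = 0)
include hx hf

lemma asyx (N : ℕ) (j : ι) : AsyN l σ N (fun a => ξ a j) (x j) :=
  let ⟨_, hA⟩ := h.nok
  (sol_asy (N := N + (ν + 2)) (h.good _) h.t0 h.ne0 hx hf (M := 2 * ν + 2) (by omega) (by omega)
    hA h.sol j).mono h.t0 (by omega)

lemma lower {g : MvPolynomial (Gen ι KK) ℂ} (hg : FP c x g ≠ 0) :
    ∃ n : ℕ, (fun t => σ t ^ n) =O[l] EvF d ξ g := by
  obtain ⟨n, u, hu, e⟩ := exists_X_pow_mul hg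
  obtain ⟨c, c0, hc⟩ := ((h.good (n + 1)).asyN h.t0 (by omega) hx (h.asyx hx hf _) g).lower h.t0
    (k := n) (by omega) (e ▸ not_dvd_unit hu)
  exact ⟨n, IsBigO.of_bound c⁻¹ (hc.mono fun a ha => by rwa [norm_pow, le_inv_mul_iff₀ c0])⟩

lemma near {δ : α → ι → ℂ} {μ : ℝ} (hμ : 0 < μ) (hδ : ∀ j, (fun a => δ a j) ∈ Vm l T μ) :
    ∀ᶠ a in l, ‖ξ a + δ a - tr (2 * ν + 2) x (σ a)‖ ≤ ‖σ a‖ ^ (ν + 1) := by
  have a1 : (fun a => ξ a + δ a - tr (2 * ν + 2) x (σ a)) =O[l] fun a => σ a ^ (ν + 2) :=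
    isBigO_pi.2 fun j => (((h.asyx hx hf (ν + 2) j).any h.t0 ((pow_dvd_pow _ (by omega)).trans
      (dvd_sub_trunc (2 * ν + 2) (x j)))).add (h.isBigO_pow (hδ j) hμ _)).congr_left fun a => by
        simp only [tr, Pi.sub_apply, Pi.add_apply]; ring
  have a3 : (fun t => σ t ^ (ν + 2)) =o[l] fun t => σ t ^ (ν + 1) := by
    simpa [pow_succ _ (ν + 1)] using (isBigO_refl (fun t => σ t ^ (ν + 1)) l).mul_isLittleO
      ((isLittleO_one_iff ℂ).2 h.t0)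
  simpa only [norm_pow] using (a1.trans_isLittleO a3).eventuallyLE

omit hx hf
variable {ψ : MvPolynomial (Gen ι KK) ℂ →ₐ[ℂ] A} (hψ : ∀ g, sA (ψ g) = EvF d ξ g)
include hψ

lemma jump (N : ℕ) (G : Gen ι KK) :
    rl sA ex (J.cJ ψ N G) - EvF d' ξ (X G) ∈ Vm l T (N * J.lam J.π₀) := by
  obtain ⟨j, β | i, k⟩ := G
  · by_cases hj : j ∈ J.D
    · have a1 : (fun a => J.qq (ex a) (d a) (ξ a) j β) ∈ Vm l T (J.lam J.π₀) := by
        obtain ⟨v, hv⟩ := J.div j hj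
        refine Vm_mono (Vm_mul (Vm_zero h.hT ((Ev_isBigO_one (h.good 0).1 h.n1
          (X (j, Sum.inr 2, 0))).const_mul_left (J.ζ j β))) (h.e1 (J.π j))) ?_
        rw [hv, map_add]
        linarith [J.lam_nonneg v]
      convert! neg_mem (Vm_of_isBigO (Vm_pow h.hT a1 N) (h.j3 j hj β k N)) using 1
      funext a
      simp only [JD.cJ, JD.jump, Sum.elim_inl, hj, if_true, map_add, map_sum, rl_single, map_mul,
        map_pow, hψ, AlgHom.commutes, ofAdd_zero, map_one, ofAdd_nsmul, JD.qq, mul_pow]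
      simp [EvF_apply, mul_assoc]
      ring
    · convert! zero_mem (Vm l T (N * J.lam J.π₀)) using 1
      funext a
      simp [JD.cJ, JD.jump, hj, rl_single, hψ, EvF_apply, Ev_X, h.j2 a j β hj]
  · convert! zero_mem (Vm l T (N * J.lam J.π₀)) using 1
    funext a
    simp [JD.cJ, rl_single, hψ, EvF_apply, Ev_X, h.j1 a j i]

include h1 hx hf

lemma relation {N : ℕ} {δ : ι → AddMonoidAlgebra A M} (hδ : ∀ j, single J.π₀ (1 : A) ∣ δ j)
    (hs : ∀ i, single J.π₀ (1 : A) ^ N ∣ FPn N (J.cJ ψ N) δ (f i) - single 0 (ψ (f i)))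
    {g : MvPolynomial (Gen ι KK) ℂ} (hg : FP c x g = 0) :
    rl sA ex (FPn N (J.cJ ψ N) δ g) ∈ Vm l T (N * J.lam J.π₀) := by
  obtain ⟨η, hη⟩ : ∃ η : α → ι → ℂ, η = fun a j => rl sA ex (δ j) a := ⟨_, rfl⟩
  have a1 : ∀ j, (fun a => η a j) ∈ Vm l T (J.lam J.π₀) := fun j => by
    simpa [hη] using h.rl_dvd h1 (N := 1) (by simpa using hδ j)
  obtain ⟨A', hA⟩ := h.nok'
  have a2 := h.near hx hf J.lam_pos a1
  have a3 : ∀ᶠ a in l, ‖ξ a + η a‖ ≤ 1 / 4 := (hA.and a2).mono fun _ h => h.1.norm_le h.2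
  have a4 : ∀ g, rl sA ex (FPn N (J.cJ ψ N) δ g) - EvF d' (fun a => ξ a + η a) g ∈
      Vm l T (N * J.lam J.π₀) := filt_sub (V := Vm l T) Vm_mul
    (Ψ := (rl sA ex).comp (FPn N (J.cJ ψ N) δ)) (fun _ => h.rl_mem h1 _)
    (fun g => Vm_zero h.hT (Ev_isBigO_one h.bdd' a3 g)) fun G => by
      have b1 := taylor_isBigO h.bdd' h.n1 a3 G (N + 1)
      simp only [Pi.add_apply, add_sub_cancel_left] at b1
      have b2 := Vm_mono (Vm_of_isBigO (Vm_pow h.hT (a1 G.1) (N + 1)) b1)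
        (show N * J.lam J.π₀ ≤ _ by push_cast; linarith [J.lam_pos])
      have b3 := sum_mem (t := Finset.range (N + 1)) fun m _ => Vm_mono (Vm_mul (Vm_mul
        (Vm_zero h.hT (isBigO_const_const (m.factorial : ℂ)⁻¹ one_ne_zero l))
        (h.jump hψ N (G.1, G.2.1, G.2.2 + m))) (Vm_pow h.hT (a1 G.1) m))
        (show N * J.lam J.π₀ ≤ _ by linarith [mul_nonneg (Nat.cast_nonneg (α := ℝ) m) J.lam_pos.le])
      convert! sub_mem b3 b2 using 1
      funext a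
      simp only [AlgHom.comp_apply, FPn_X, map_sum, map_mul, map_pow, cfn, AlgHom.commutes, hη,
        Pi.sub_apply, Finset.sum_apply, Pi.mul_apply, Pi.pow_apply, Pi.algebraMap_apply,
        Algebra.algebraMap_self_apply, mul_sub, sub_mul, Finset.sum_sub_distrib, div_eq_mul_inv]
      simp only [mul_assoc, mul_left_comm, mul_comm]
      ring
  have a5 : ∀ i, EvF d' (fun a => ξ a + η a) (f i) ∈ Vm l T (N * J.lam J.π₀) := fun i => by
    have := sub_mem (h.rl_dvd h1 (hs i)) (a4 (f i))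
    refine Vm_of_isBigO this (EventuallyEq.isBigO (h.sol.mono fun a ha => ?_))
    simp [rl_single, hψ, EvF_apply, ha.2 i]
  have a6 : ∀ j, (fun a => ξ a j + η a j - ξ' a j) ∈ Vm l T (N * J.lam J.π₀) := fun j => by
    refine h.mem_of_pow (n := ν) fun μ hμ => IsBigO.trans ?_ (isBigO_pi.2 fun i => a5 i μ hμ)
    refine IsBigO.of_bound (2 * A') ?_
    filter_upwards [hA, h.sol', a2, h.ne0] with a b1 b2 b3 b4
    have p0 : 0 < ‖σ a‖ ^ ν := pow_pos (norm_pos_iff.2 b4) _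
    rw [norm_mul, norm_pow, ← le_div_iff₀' p0]
    refine ((norm_le_pi_norm (ξ a + η a - ξ' a) j).trans (b1.post b2 b3)).trans_eq ?_
    simp only [EvF_apply]
    ring
  have a7 : EvF d' (fun a => ξ a + η a) g - EvF d' ξ' g ∈ Vm l T (N * J.lam J.π₀) := fun μ hμ =>
    Ev_lip h.bdd' h.n1' a3 (isBigO_pi.2 fun j => a6 j μ hμ) g
  have a8 : EvF d' ξ' g ∈ Vm l T (N * J.lam J.π₀) := h.small' g hg _
  simpa using add_mem (add_mem (a4 g) a7) a8

end RD

theorem RD.stI_aux [l.NeBot] (h : RD J c x f ν l σ T ex d d' ξ ξ') (hx : ∀ j, PowerSeries.X ∣ x j)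
    (hf : ∀ i, FP c x (f i) = 0) (hJ : FP c x (Jm f).det ≠ 0)
    (hne : ∀ a, EvF d ξ (Jm f).det a ≠ 0) : StI J (FL c x) := by
  intro N
  have i0 : ∀ g, FL c x g = 0 ↔ FP c x g = 0 := fun g =>
    map_eq_zero_iff _ (IsFractionRing.injective (PowerSeries ℂ) LL)
  have u1 : IsUnit (EvF d ξ (Jm f).det) := Pi.isUnit_iff.2 fun a => (hne a).isUnit
  have u2 : IsUnit (FL c x (Jm f).det) := Ne.isUnit (mt (i0 _).1 hJ)
  obtain ⟨sA, hs⟩ : ∃ sA : Localization.Away (Jm f).det →ₐ[ℂ] (α → ℂ),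
      ∀ g, sA (algebraMap _ _ g) = EvF d ξ g :=
    ⟨IsLocalization.Away.liftAlgHom _ u1, fun g => IsLocalization.Away.lift_eq _ u1 g⟩
  obtain ⟨fA, hfA⟩ : ∃ fA : Localization.Away (Jm f).det →ₐ[ℂ] LL,
      ∀ g, fA (algebraMap _ _ g) = FL c x g :=
    ⟨IsLocalization.Away.liftAlgHom _ u2, fun g => IsLocalization.Away.lift_eq _ u2 g⟩
  have sj : ∀ a, ∃ (n : ℕ) (g : MvPolynomial (Gen ι KK) ℂ),
      sA a * EvF d ξ (Jm f).det ^ n = EvF d ξ g ∧ (fA a = 0 ↔ FP c x g = 0) := fun a => by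
    obtain ⟨n, g, e⟩ := IsLocalization.Away.surj (Jm f).det a
    refine ⟨n, g, by simpa [hs] using congrArg sA e, ?_⟩
    rw [← i0, ← hfA g, ← e, map_mul, map_pow, hfA, (u2.pow n).mul_left_eq_zero]
  obtain ⟨k, hk⟩ := h.lower hx hf hJ
  have b0 := Ev_isBigO_one (h.good 0).1 h.n1
  have b1 : ∀ a n, (fun t => σ t ^ (k * n) * sA a t) =O[l] (sA a * EvF d ξ (Jm f).det ^ n) :=
    fun a n => ((hk.pow n).mul (isBigO_refl (sA a) l)).congr (fun t => by rw [pow_mul])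
      fun t => mul_comm _ _
  have h1 : ∀ a, ∃ n : ℕ, (fun t => σ t ^ n * sA a t) =O[l] fun _ => (1 : ℝ) := fun a =>
    let ⟨n, g, e, _⟩ := sj a
    ⟨_, (e ▸ b1 a n).trans (b0 g)⟩
  have h2 : ∀ a, fA a = 0 → ∀ μ, sA a ∈ Vm l T μ := fun a ha μ =>
    let ⟨n, g, e, e'⟩ := sj a
    h.mem_of_pow (Vm_of_isBigO (h.small g (e'.1 ha) μ) (e ▸ b1 a n :))
  have h3 : ∀ a, fA a ≠ 0 → ∃ n : ℕ, (fun t => σ t ^ n) =O[l] sA a := fun a ha => by
    obtain ⟨n, g, e, e'⟩ := sj a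
    obtain ⟨m, hm⟩ := h.lower hx hf (mt e'.2 ha)
    refine ⟨m, isBigO_norm_right.1 ((e ▸ hm).trans ?_)⟩
    exact ((isBigO_norm_right.2 (isBigO_refl (sA a) l)).mul ((b0 (Jm f).det).pow n)).congr_right
      fun t => by simp
  set ψ := IsScalarTower.toAlgHom ℂ (MvPolynomial (Gen ι KK) ℂ) (Localization.Away (Jm f).det)
  obtain ⟨δ, d1, d2⟩ := hensel_n (N := N) (c := J.cJ ψ N) (f := f) (t := single J.π₀ 1)
    (u := single 0 (IsLocalization.Away.invSelf (Jm f).det)) (by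
      have := (J.dvd_aeval_cJ ψ N (Jm f).det).mul_left
        (single 0 (IsLocalization.Away.invSelf (Jm f).det))
      rwa [mul_sub, AddMonoidAlgebra.single_mul_single, add_zero, mul_comm _ (ψ _),
        IsScalarTower.toAlgHom_apply, IsLocalization.Away.mul_invSelf] at this)
    fun i => J.dvd_aeval_cJ ψ N (f i)
  refine ⟨fun j => AddMonoidAlgebra.mapAlgHom M fA (δ j), fun j => by
    simpa using map_dvd (AddMonoidAlgebra.mapAlgHom M fA) (d1 j), fun g hg v hv => ?_⟩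
  have e : fA.comp ψ = FL c x := AlgHom.ext hfA
  have := h.dom h1 h2 h3 (h.relation h1 hx hf hs d1 d2 ((i0 g).1 hg)) hv (map_zero _)
  rwa [← AddMonoidAlgebra.coeff_mapAlgHom, FPn_map, funext (J.map_cJ fA ψ N), e] at this

theorem RD.stI [l.NeBot] (h : RD J c x f ν l σ T ex d d' ξ ξ') (hx : ∀ j, PowerSeries.X ∣ x j)
    (hf : ∀ i, FP c x (f i) = 0) (hJ : FP c x (Jm f).det ≠ 0) : StI J (FL c x) := by
  obtain ⟨k, hk⟩ := h.lower hx hf hJ
  have e : ∀ᶠ a in l, EvF d ξ (Jm f).det a ≠ 0 :=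
    (hk.eq_zero_imp.and h.ne0).mono fun a ha e => pow_ne_zero k ha.2 (ha.1 e)
  have : (l.comap (Subtype.val : {a // EvF d ξ (Jm f).det a ≠ 0} → α)).NeBot :=
    comap_neBot_iff_frequently.2 (e.mono fun a ha => ⟨⟨a, ha⟩, rfl⟩).frequently
  exact (h.comp (k := (Subtype.val : {a // EvF d ξ (Jm f).det a ≠ 0} → α)) tendsto_comap).stI_aux
    hx hf hJ fun a => a.2

end Pool.Agent.P.MP_26ad15_nt
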