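import Pool.Agent.P.MP_26ad15_nt.ASWindow

/-! Relations of an isolated formal curve are super-exponentially small along a ray. -/

namespace Pool.Agent.P.MP_26ad15_nt

open Complex Set Filter Topology Asymptotics Metric

variable {ι : Type} {p : ι → Polynomial ℂ} {cc : ι → ℂ} {γ m : ℝ} {s : ℂ} {κ N N' : ℕ}
  {b : ι → Bool}

lemma Ang.scale {e : Bool} {a : ℂ} (h : Ang γ e a) {t : ℝ} (ht : 0 ≤ t) : Ang γ e (t * a) := by
  unfold Ang at h ⊢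
  rw [mul_left_comm, re_ofReal_mul, norm_mul, norm_real, Real.norm_of_nonneg ht]
  nlinarith [mul_le_mul_of_nonneg_left h ht]

lemma Ang.of_close (hγ' : γ ≤ 1 / 2) (hγ : 0 < γ) {e : Bool} {a w : ℂ} (h : Ang (2 * γ) e a)
    (hw : ‖w - a‖ ≤ γ ^ 2 * ‖a‖) : Ang γ e w := by
  unfold Ang at h ⊢
  have a1 := norm_sub_norm_le w a
  have a2 := norm_sub_norm_le a w
  rw [norm_sub_rev] at a2
  have a3 : (sg e * a).re - (sg e * w).re ≤ ‖w - a‖ := by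
    rw [← sub_re, ← mul_sub, norm_sub_rev]
    exact (re_le_norm _).trans (by rw [norm_mul, norm_sg, one_mul])
  have g2 : γ ^ 2 ≤ 1 / 4 := by nlinarith
  have g3 := mul_nonneg (sq_nonneg γ) (norm_nonneg a)
  have g4 := mul_le_mul_of_nonneg_left (show ‖w‖ ≤ 2 * ‖a‖ by nlinarith [norm_nonneg a]) (sq_nonneg γ)
  nlinarith

/-- Properties of parameters close to the origin. -/
def Near (γ m : ℝ) (p : ι → Polynomial ℂ) (s : ℂ) : Prop :=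
  ∀ j, (p j).natDegree ≠ 0 → ∀ k ≤ (p j).natDegree, ∀ N : ℕ, 6 * N ≤ γ ^ 2 * (m * ‖s‖⁻¹ ^ k) →
    (p j).eval s⁻¹ ≠ 0 ∧ 6 * N ≤ γ ^ 2 * ‖(p j).eval s⁻¹‖ ∧ Ap γ N (HN N) ((p j).eval s⁻¹) ∧
    ∀ e, Ang (2 * γ) e ((p j).leadingCoeff * s⁻¹ ^ (p j).natDegree) →
      Ap γ N (PS e 1) ((p j).eval s⁻¹)

lemma exists_near [Finite ι] (hγ : 0 < γ) (hγ' : γ ≤ 1 / 2) (p : ι → Polynomial ℂ) :
    ∃ m > 0, ∀ᶠ s in 𝓝[≠] (0 : ℂ), Near γ m p s := by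
  have h1 : ∀ j, ∀ᶠ m in 𝓝[>] (0 : ℝ), (p j).natDegree ≠ 0 → ∀ᶠ s in 𝓝[≠] (0 : ℂ),
      ∀ k ≤ (p j).natDegree, m * ‖s‖⁻¹ ^ k ≤ ‖(p j).eval s⁻¹‖ := fun j => by
    by_cases hj : (p j).natDegree = 0
    · exact .of_forall fun _ h => (h hj).elim
    obtain ⟨m, m0, hm⟩ := poly_size (p := p j) (by intro h; simp [h] at hj)
    filter_upwards [Ioo_mem_nhdsGT m0] with m' h1 _
    refine hm.mono fun s hs k hk => le_trans ?_ (hs k hk)
    gcongr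
    exact h1.2.le
  obtain ⟨m, h2, m0⟩ := ((eventually_all.2 h1).and eventually_mem_nhdsWithin).exists
  refine ⟨m, m0, eventually_all.2 fun j => ?_⟩
  by_cases hj : (p j).natDegree = 0
  · exact .of_forall fun _ h => (h hj).elim
  have g0 : 0 < γ ^ 2 := by positivity
  have g2 : γ ^ 2 ≤ 1 / 4 := by nlinarith
  filter_upwards [h2 j hj, poly_lead (p j) g0,
    ((poly_large hj).const_mul_atTop g0).eventually_ge_atTop 1] with s s1 s2 s3 _ k hk N hN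
  have n0 := norm_nonneg ((p j).eval s⁻¹)
  have a1 := hN.trans (mul_le_mul_of_nonneg_left (s1 k hk) g0.le)
  have a2 : 8 * N ≤ ‖(p j).eval s⁻¹‖ := by nlinarith [Nat.cast_nonneg (α := ℝ) N]
  exact ⟨fun h => by rw [h] at s3; norm_num at s3, a1, Ap_HN hγ hγ' (by nlinarith) a2,
    fun e he => Ap_PS hγ hγ' (he.of_close hγ' hγ s2) s3 a2⟩

/-- True branches up to degree `κ`, truncated factorial series above. -/
noncomputable def mix (p : ι → Polynomial ℂ) (κ : ℕ) (b : ι → Bool) (N : ℕ) (j : ι) : ℂ → ℂ :=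
  if (p j).natDegree = 0 then hh 0 else if (p j).natDegree ≤ κ then PS (b j) 1 else HN N

/-- True branches. -/
noncomputable def tb (p : ι → Polynomial ℂ) (b : ι → Bool) (j : ι) : ℂ → ℂ :=
  if (p j).natDegree = 0 then hh 0 else PS (b j) 1

lemma Near.adm_tr (h : Near γ m p s) (hκ : ∀ j, (p j).natDegree ≠ 0 → κ ≤ (p j).natDegree)
    (hN : 6 * N ≤ γ ^ 2 * (m * ‖s‖⁻¹ ^ κ)) : Adm γ p N (mix p 0 b N) s := fun j =>
  ⟨fun hj => if_pos hj, fun hj => by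
    rw [mix, if_neg hj, if_neg (by omega)]
    exact (h j hj κ (hκ j hj) N hN).2.2.1⟩

lemma Near.adm_hy (h : Near γ m p s) (hκ : ∀ j, (p j).natDegree ≠ 0 → κ ≤ (p j).natDegree)
    (hN : 6 * N ≤ γ ^ 2 * (m * ‖s‖⁻¹ ^ κ)) (hN' : 6 * N' ≤ γ ^ 2 * (m * ‖s‖⁻¹ ^ (κ + 1)))
    (hNN : N ≤ N') (hA : ∀ j, (p j).natDegree = κ →
      Ang (2 * γ) (b j) ((p j).leadingCoeff * s⁻¹ ^ κ)) : Adm γ p N (mix p κ b N') s := fun j =>
  ⟨fun hj => if_pos hj, fun hj => by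
    rw [mix, if_neg hj]
    split_ifs with h1
    · have e := le_antisymm h1 (hκ j hj)
      exact (h j hj κ (hκ j hj) N hN).2.2.2 _ (e.symm ▸ hA j e)
    · exact (h j hj (κ + 1) (by omega) N' hN').2.2.1.mono hNN⟩

lemma Near.adm_tb (h : Near γ m p s) (hN : 6 * N ≤ γ ^ 2 * (m * ‖s‖⁻¹ ^ 1))
    (hA : ∀ j, (p j).natDegree ≠ 0 →
      Ang (2 * γ) (b j) ((p j).leadingCoeff * s⁻¹ ^ (p j).natDegree)) : Adm γ p N (tb p b) s :=
  fun j => ⟨fun hj => if_pos hj, fun hj => by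
    rw [tb, if_neg hj]
    exact (h j hj 1 (by omega) N hN).2.2.2 _ (hA j hj)⟩

lemma Near.cmp (hγ : 0 < γ) (h : Near γ m p s)
    (hκ : ∀ j, (p j).natDegree ≠ 0 → κ ≤ (p j).natDegree) (hN : 6 * N ≤ γ ^ 2 * (m * ‖s‖⁻¹ ^ κ))
    {ϕ ϕ' : ι → ℂ → ℂ} (h1 : Adm γ p N ϕ s) (h2 : Adm γ p N ϕ' s) (j : ι) (k : KK) :
    ∀ z ∈ ball (0 : ℂ) (4 * (1 / 8)),
      ‖dat p cc ϕ' s j k z - dat p cc ϕ s j k z‖ ≤ 2 * CA γ * Real.exp (-N) := by
  have := CA_pos γ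
  refine dat_sub_le (by positivity) (fun j w hw => ?_) j k
  by_cases hj : (p j).natDegree = 0
  · rw [(h1 j).1 hj, (h2 j).1 hj, sub_self, norm_zero]; positivity
  · have := h j hj κ (hκ j hj) N hN
    exact ((h2 j).2 hj).sub_le_exp hγ ((h1 j).2 hj) this.1 this.2.1 hw

lemma Near.cmp_tb (hγ : 0 < γ) (h : Near γ m p s) (hN : 6 * N ≤ γ ^ 2 * (m * ‖s‖⁻¹ ^ (κ + 1)))
    (hA : ∀ j, (p j).natDegree ≠ 0 →
      Ang (2 * γ) (b j) ((p j).leadingCoeff * s⁻¹ ^ (p j).natDegree)) (j : ι) (k : KK) :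
    ∀ z ∈ ball (0 : ℂ) (4 * (1 / 8)),
      ‖dat p cc (tb p b) s j k z - dat p cc (mix p κ b N) s j k z‖ ≤ 2 * CA γ * Real.exp (-N) := by
  have := CA_pos γ
  refine dat_sub_le (by positivity) (fun j w hw => ?_) j k
  rw [tb, mix]
  split_ifs with h1 h2
  · rw [sub_self, norm_zero]; positivity
  · rw [sub_self, norm_zero]; positivity
  · have := h j h1 (κ + 1) (by omega) N hN
    exact (this.2.2.2 _ (hA j h1)).sub_le_exp hγ this.2.2.1 this.1 this.2.1 hw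

lemma norm_exp_neg (τ : ℂ) : ‖cexp (-τ)‖ = Real.exp (-τ.re) := by rw [norm_exp, neg_re]

lemma norm_exp_neg_pow (τ : ℂ) (k : ℕ) : ‖cexp (-τ)‖⁻¹ ^ k = Real.exp (k * τ.re) := by
  rw [norm_exp_neg, ← Real.exp_neg, neg_neg, Real.exp_nat_mul]

lemma Ang.of_exp {e : Bool} {a τ : ℂ} {k : ℕ} (h : Ang γ e (a * cexp (τ.im * I) ^ k)) :
    Ang γ e (a * (cexp (-τ))⁻¹ ^ k) := by
  convert! h.scale (Real.exp_pos (k * τ.re)).le using 1
  rw [← exp_neg, neg_neg, ← re_add_im τ, exp_add, mul_pow, ← exp_nat_mul]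
  simp only [re_add_im]
  push_cast
  ring

lemma lin_le_exp (a : ℝ) {c k : ℝ} (hc : 0 < c) (hk : 0 < k) :
    ∀ᶠ y in atTop, a * y ≤ c * Real.exp (k * y) :=
  (((isLittleO_pow_exp_pos_mul_atTop 1 hk).const_mul_left a).bound hc).mono fun y hy => by
    rw [pow_one, Real.norm_of_nonneg (Real.exp_pos _).le] at hy
    exact (le_abs_self _).trans hy

lemma exp_isBigO {α : Type*} {l : Filter α} {u v : α → ℝ} (C : ℝ) (h : ∀ᶠ a in l, u a ≤ v a + C) :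
    (fun a => Real.exp (u a)) =O[l] fun a => Real.exp (v a) :=
  IsBigO.of_bound (Real.exp C) (h.mono fun a ha => by
    rw [Real.norm_of_nonneg (Real.exp_pos _).le, Real.norm_of_nonneg (Real.exp_pos _).le,
      ← Real.exp_add, Real.exp_le_exp]
    linarith)

lemma exp_le_exp_succ (K a : ℝ) {c : ℝ} (hc : 0 < c) (k : ℝ) :
    ∀ᶠ y in atTop, K * Real.exp (k * (y + a)) ≤ c * Real.exp ((k + 1) * y) := by
  filter_upwards [(Real.tendsto_exp_atTop.const_mul_atTop hc).eventually_ge_atTop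
    (K * Real.exp (k * a))] with y hy
  rw [mul_add, add_mul, Real.exp_add, Real.exp_add, one_mul]
  nlinarith [Real.exp_pos (k * y)]

lemma tendsto_floor_exp {c k : ℝ} (hc : 0 < c) (hk : 0 < k) :
    Tendsto (fun y => ⌊c * Real.exp (k * y)⌋₊) atTop atTop :=
  tendsto_nat_floor_atTop.comp
    ((Real.tendsto_exp_atTop.comp (tendsto_id.const_mul_atTop hk)).const_mul_atTop hc)

/-- The parameter on a ray. -/
noncomputable def sR (θ x : ℝ) : ℂ := cexp (-(x + θ * I))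

lemma tendsto_sR (θ : ℝ) : Tendsto (sR θ) atTop (𝓝[≠] 0) :=
  tendsto_nhdsWithin_iff.2 ⟨squeeze_zero_norm (fun x => by rw [sR, norm_exp_neg]; simp)
    Real.tendsto_exp_neg_atTop_nhds_zero, .of_forall fun _ => exp_ne_zero _⟩

variable [Fintype ι] [DecidableEq ι] {x : ι → PowerSeries ℂ} {f : ι → MvPolynomial (Gen ι KK) ℂ}
  {ν : ℕ} {u : PowerSeries ℂ}

lemma cmp_exp {α : Type*} {l : Filter α} {d d' : α → ι → KK → ℂ → ℂ} {τ : α → ℂ} {A C : ℝ}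
    {ξ ξ' : α → ι → ℂ} (hd : BdD l d) (hd' : BdD l d')
    (h : ∀ᶠ a in l, NokP x f ν A (d a) (cexp (-τ a)) ∧ SolP x f ν (d a) (cexp (-τ a)) (ξ a))
    (h' : ∀ᶠ a in l, SolP x f ν (d' a) (cexp (-τ a)) (ξ' a)) {N w : α → ℝ}
    (h2 : ∀ᶠ a in l, ∀ j k, ∀ z ∈ ball (0 : ℂ) (4 * (1 / 8)),
      ‖d' a j k z - d a j k z‖ ≤ C * Real.exp (-N a))
    (h3 : ∀ᶠ a in l, 0 ≤ (τ a).re ∧ ν * (τ a).re - N a ≤ w a + 1)
    (g : MvPolynomial (Gen ι KK) ℂ) : (EvF d' ξ' g - EvF d ξ g) =O[l] fun a => Real.exp (w a) := by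
  refine (sol_cmp hd hd' (h.mono fun _ h => h.1) (h.mono fun _ h => h.2) h' h2
    ((exp_isBigO 1 (h3.mono fun a h => ?_)).const_mul_left C) ?_).2 g
  · linarith [mul_nonneg (Nat.cast_nonneg (α := ℝ) ν) h.1, h.2]
  · refine ((exp_isBigO 1 (h3.mono fun a h => h.2)).const_mul_left (A * C)).congr_left fun a => ?_
    rw [div_eq_mul_inv, ← inv_pow, norm_exp_neg_pow, sub_eq_add_neg, Real.exp_add]
    ring

lemma floor_size (hγ : 0 < γ) (hm : 0 < m) {y : ℝ} (h0 : s ≠ 0) (hs : ‖s‖ < 2 * Real.exp (-y)) :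
    6 * (⌊γ ^ 2 * m / 6 / 2 ^ κ * Real.exp (κ * y)⌋₊ : ℝ) ≤ γ ^ 2 * (m * ‖s‖⁻¹ ^ κ) := by
  have h1 : (Real.exp y / 2) ^ κ ≤ ‖s‖⁻¹ ^ κ := by
    gcongr
    rw [le_inv_comm₀ (by positivity) (norm_pos_iff.2 h0), inv_div, div_eq_mul_inv, ← Real.exp_neg]
    exact hs.le
  calc _ ≤ 6 * (γ ^ 2 * m / 6 / 2 ^ κ * Real.exp (κ * y)) := by
        gcongr; exact Nat.floor_le (by positivity)
    _ = γ ^ 2 * (m * (Real.exp y / 2) ^ κ) := by rw [Real.exp_nat_mul, div_pow]; field_simp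
    _ ≤ _ := by gcongr

lemma floor_size' (hγ : 0 < γ) (hm : 0 < m) {y : ℝ} {τ : ℂ} (hs : y ≤ τ.re) :
    6 * (⌊γ ^ 2 * m / 6 * Real.exp ((κ + 1) * y)⌋₊ : ℝ) ≤
      γ ^ 2 * (m * ‖cexp (-τ)‖⁻¹ ^ (κ + 1)) := by
  calc _ ≤ 6 * (γ ^ 2 * m / 6 * Real.exp ((κ + 1) * y)) := by
        gcongr; exact Nat.floor_le (by positivity)
    _ = γ ^ 2 * (m * Real.exp ((κ + 1) * y)) := by ring
    _ ≤ _ := by rw [norm_exp_neg_pow]; push_cast; gcongr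

lemma two_thirds_le {c t : ℝ} {N : ℕ} (hN : t - 1 ≤ N) (ht : 0 ≤ t) (ν : ℕ) (hc : c = t / 4) :
    (2 / 3 : ℝ) ^ (N - ν) ≤ Real.exp (ν + 1) * Real.exp (-c) := by
  have h1 : (2 / 3 : ℝ) ≤ Real.exp (-(1 / 3)) := by linarith [Real.add_one_le_exp (-(1 / 3))]
  refine (pow_le_pow_left₀ (by norm_num) h1 _).trans ?_
  rw [← Real.exp_nat_mul, ← Real.exp_add, Real.exp_le_exp]
  have : (N : ℝ) - ν ≤ (N - ν : ℕ) := by
    rw [sub_le_iff_le_add]; exact_mod_cast le_tsub_add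
  linarith [Nat.cast_nonneg (α := ℝ) ν, ht]

/-- A half strip. -/
def strip (α β x : ℝ) : Set ℂ := {τ | x < τ.re ∧ α < τ.im ∧ τ.im < β}

lemma isOpen_strip (α β x : ℝ) : IsOpen (strip α β x) :=
  (isOpen_lt continuous_const continuous_re).inter ((isOpen_lt continuous_const continuous_im).inter
    (isOpen_lt continuous_im continuous_const))

lemma tendsto_strip (α β : ℝ) :
    Tendsto (fun q => cexp (-q.2)) (lW atTop (strip α β)) (𝓝[≠] 0) :=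
  tendsto_lW (σ := fun τ => cexp (-τ)) Real.tendsto_exp_neg_atTop_nhds_zero fun _ τ hτ =>
    ⟨exp_ne_zero _, by rw [norm_exp_neg]; gcongr; exact hτ.1.le⟩

theorem hy_small (H : Iso p cc x f ν u) (hγ : 0 < γ) (hγ' : γ ≤ 1 / 2) (h0 : κ ≠ 0) (hm : 0 < m)
    (hκ : ∀ j, (p j).natDegree ≠ 0 → κ ≤ (p j).natDegree) {α β : ℝ}
    (hn : ∀ᶠ s in 𝓝[≠] (0 : ℂ), Near γ m p s) {ϕ : ℝ → ι → ℂ → ℂ} {A : ℝ} {ξ : ℝ → ℂ → ι → ℂ}
    (hϕ : ∀ b : ℝ, 0 < b → ∀ᶠ y in atTop, ∀ τ ∈ strip α β y, τ.re = y + b →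
      Adm γ p ⌊γ ^ 2 * m / 6 / 2 ^ κ * Real.exp (κ * (y + b))⌋₊ (ϕ y) (cexp (-τ)))
    (hξ : ∀ᶠ y in atTop, ∀ τ ∈ strip α β y, NokP x f ν A (dat p cc (ϕ y) (cexp (-τ))) (cexp (-τ)) ∧
      SolP x f ν (dat p cc (ϕ y) (cexp (-τ))) (cexp (-τ)) (ξ y τ))
    {g : MvPolynomial (Gen ι KK) ℂ} (hg : FP (cx p cc) x g = 0) (b : ℝ) (hb : 0 < b) :
    ∃ C', ∀ᶠ y in atTop, ∀ τ : ℂ, τ.re = y + b → α < τ.im → τ.im < β →
      ‖Ev ℂ (dat p cc (ϕ y) (cexp (-τ))) (ξ y τ) g‖ ≤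
        C' * Real.exp (-(γ ^ 2 * m / 6 / 2 ^ κ / 4 * Real.exp (κ * (y + b)))) := by
  have k0 : (0 : ℝ) < κ := by exact_mod_cast Nat.pos_of_ne_zero h0
  obtain ⟨ε, hε⟩ : ∃ ε, ε = γ ^ 2 * m / 6 / 2 ^ κ := ⟨_, rfl⟩
  have e0 : 0 < ε := by rw [hε]; positivity
  have tr : Tendsto (fun y : ℝ => 2 * Real.exp (-y)) atTop (𝓝 0) := by
    simpa using Real.tendsto_exp_neg_atTop_nhds_zero.const_mul 2
  have a0 : ∀ᶠ y in atTop, ∀ s ∈ ball (0 : ℂ) (2 * Real.exp (-y)) \ {0}, Near γ m p s ∧ Adm γ p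
      ⌊ε * Real.exp (κ * y)⌋₊ (mix p 0 (fun _ => true) ⌊ε * Real.exp (κ * y)⌋₊) s :=
    (eventually_lW.1 ((tendsto_disc tr).eventually hn)).mono fun y h s hs => ⟨h s hs,
      hε ▸ (h s hs).adm_tr hκ (floor_size hγ hm hs.2 (mem_ball_zero_iff.1 hs.1))⟩
  obtain ⟨ξ', s1, s2⟩ := tr_sol H hγ hγ' (tendsto_floor_exp e0 k0)
    (a0.mono fun y h s hs => (h s hs).2)
  obtain ⟨C, hC⟩ := s2 g hg
  obtain ⟨V, hV⟩ : ∃ V : ℝ → Set ℂ, V = fun y => {τ | τ.re = y + b ∧ α < τ.im ∧ τ.im < β} := ⟨_, rfl⟩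
  have v1 : ∀ y, ∀ τ ∈ V y, τ ∈ strip α β y ∧ τ.re = y + b := fun y τ h => by
    rw [hV] at h; exact ⟨⟨by linarith [h.1], h.2⟩, h.1⟩
  have v2 : ∀ y, ∀ τ ∈ V y, ‖cexp (-τ)‖ = Real.exp (-(y + b)) := fun y τ h => by
    rw [norm_exp_neg, (v1 y τ h).2]
  have v3 : ∀ y, ∀ τ ∈ V y, cexp (-τ) ∈ ball (0 : ℂ) (2 * Real.exp (-(y + b))) \ {0} := fun y τ h =>
    ⟨by rw [mem_ball_zero_iff, v2 y τ h]; linarith [Real.exp_pos (-(y + b))], exp_ne_zero _⟩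
  have tb := tendsto_atTop_add_const_right atTop b tendsto_id
  have c0 : ∀ᶠ q in lW atTop V, ‖cexp (-q.2)‖ ≤ 1 := eventually_lW.2
    ((eventually_ge_atTop 0).mono fun y h τ hτ => by rw [v2 y τ hτ, Real.exp_le_one_iff]; linarith)
  have c1 : ∀ᶠ q in lW atTop V, Adm γ p ⌊ε * Real.exp (κ * (q.1 + b))⌋₊ (ϕ q.1) (cexp (-q.2)) :=
    eventually_lW.2 ((hϕ b hb).mono fun y h τ hτ => hε ▸ h τ (v1 y τ hτ).1 (v1 y τ hτ).2)
  have c2 : ∀ᶠ q in lW atTop V, Near γ m p (cexp (-q.2)) ∧ Adm γ p ⌊ε * Real.exp (κ * (q.1 + b))⌋₊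
      (mix p 0 (fun _ => true) ⌊ε * Real.exp (κ * (q.1 + b))⌋₊) (cexp (-q.2)) :=
    eventually_lW.2 ((tb.eventually a0).mono fun y h τ hτ => h _ (v3 y τ hτ))
  have d1 : ∀ᶠ q in lW atTop V, NokP x f ν A (dat p cc (ϕ q.1) (cexp (-q.2))) (cexp (-q.2)) ∧
      SolP x f ν (dat p cc (ϕ q.1) (cexp (-q.2))) (cexp (-q.2)) (ξ q.1 q.2) :=
    eventually_lW.2 (hξ.mono fun y h τ hτ => h τ (v1 y τ hτ).1)
  have d2 : ∀ᶠ q in lW atTop V, SolP x f ν (dat p cc (mix p 0 (fun _ => true)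
      ⌊ε * Real.exp (κ * (q.1 + b))⌋₊) (cexp (-q.2))) (cexp (-q.2)) (ξ' (q.1 + b) (cexp (-q.2))) :=
    eventually_lW.2 ((tb.eventually s1).mono fun y h τ hτ => h _ (v2 y τ hτ))
  have d3 : ∀ᶠ q in lW atTop V, 6 * (⌊ε * Real.exp (κ * (q.1 + b))⌋₊ : ℝ) ≤
      γ ^ 2 * (m * ‖cexp (-q.2)‖⁻¹ ^ κ) := eventually_lW.2 (.of_forall fun y τ hτ => by
    rw [hε]; exact floor_size hγ hm (v3 y τ hτ).2 (mem_ball_zero_iff.1 (v3 y τ hτ).1))
  have d4 : ∀ᶠ q in lW atTop V, 0 ≤ q.2.re ∧ ν * q.2.re - ⌊ε * Real.exp (κ * (q.1 + b))⌋₊ ≤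
      -(ε / 4 * Real.exp (κ * (q.1 + b))) + 1 := eventually_lW.2 (((eventually_ge_atTop 0).and
      (tb.eventually (lin_le_exp ν (half_pos e0) k0))).mono fun y h τ hτ => by
      have := Nat.lt_floor_add_one (ε * Real.exp (κ * (y + b)))
      have := mul_pos e0 (Real.exp_pos (κ * (y + b)))
      simp only [(v1 y τ hτ).2, id] at h ⊢
      exact ⟨by linarith, by linarith⟩)
  have c3 := cmp_exp (Adm.bdD' H.fin c0 c1) (Adm.bdD' H.fin c0 (c2.mono fun _ h => h.2)) d1 d2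
    (((c1.and c2).and d3).mono fun q h => h.1.2.1.cmp hγ hκ h.2 h.1.1 h.1.2.2) d4 g
  obtain ⟨C₂, hC₂⟩ := c3.bound
  refine ⟨|C| * Real.exp (ν + 1) + C₂, ?_⟩
  filter_upwards [eventually_lW.1 hC₂, tb.eventually hC] with y h1 h2 τ t1 t2 t3
  have hτ : τ ∈ V y := hV ▸ ⟨t1, t2, t3⟩
  have b1 := h1 τ hτ
  have b2 := ((h2 _ (v2 y τ hτ)).trans (mul_le_mul_of_nonneg_right (le_abs_self C) (by positivity))).trans
    (mul_le_mul_of_nonneg_left (two_thirds_le (Nat.sub_one_lt_floor _).le (by positivity) ν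
      (c := ε / 4 * Real.exp (κ * (y + b))) (by simp only [id]; ring)) (abs_nonneg C))
  simp only [Pi.sub_apply, EvF_apply, Real.norm_of_nonneg (Real.exp_pos _).le, id] at b1 b2
  rw [← hε, add_mul, mul_assoc]
  exact (norm_le_norm_add_norm_sub _ _).trans (add_le_add b2 b1)

theorem ray (H : Iso p cc x f ν u) (hγ : 0 < γ) (hγ' : γ ≤ 1 / 2) (h0 : κ ≠ 0)
    (hκ : ∀ j, (p j).natDegree ≠ 0 → κ ≤ (p j).natDegree) {α β θ : ℝ}
    (hαβ : Real.pi < κ * (β - α)) (h1 : α < θ) (h2 : θ < β)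
    (hA : ∀ j, (p j).natDegree = κ → ∀ φ : ℝ, α < φ → φ < β →
      Ang (2 * γ) (b j) ((p j).leadingCoeff * cexp (φ * I) ^ κ))
    (hB : ∀ j, (p j).natDegree ≠ 0 →
      Ang (2 * γ) (b j) ((p j).leadingCoeff * cexp (θ * I) ^ (p j).natDegree))
    {ξ : ℝ → ι → ℂ} (hξ : ∀ᶠ y in atTop, SolP x f ν (dat p cc (tb p b) (sR θ y)) (sR θ y) (ξ y))
    {g : MvPolynomial (Gen ι KK) ℂ} (hg : FP (cx p cc) x g = 0) (K : ℝ) :
    (fun y => Ev ℂ (dat p cc (tb p b) (sR θ y)) (ξ y) g) =O[atTop]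
      fun y => Real.exp (-(K * Real.exp (κ * y))) := by
  have k0 : (0 : ℝ) < κ := by exact_mod_cast Nat.pos_of_ne_zero h0
  obtain ⟨m, hm, hn⟩ := exists_near hγ hγ' p
  obtain ⟨N₂, hN₂⟩ : ∃ N₂ : ℝ → ℕ, N₂ = fun y => ⌊γ ^ 2 * m / 6 * Real.exp ((κ + 1) * y)⌋₊ :=
    ⟨_, rfl⟩
  have n1 := eventually_lW.1 ((tendsto_strip α β).eventually hn)
  have a1 : ∀ c : ℝ, ∀ᶠ y in atTop, ∀ τ ∈ strip α β y, y + c ≤ τ.re →
      Adm γ p ⌊γ ^ 2 * m / 6 / 2 ^ κ * Real.exp (κ * (y + c))⌋₊ (mix p κ b (N₂ y)) (cexp (-τ)) :=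
    fun c => by
    filter_upwards [n1, exp_le_exp_succ (γ ^ 2 * m / 6 / 2 ^ κ) c
      (show 0 < γ ^ 2 * m / 6 by positivity) κ] with y s1 s2 τ hτ hc
    refine (s1 τ hτ).adm_hy hκ (floor_size hγ hm (exp_ne_zero _) ?_)
      (hN₂ ▸ floor_size' hγ hm hτ.1.le) (hN₂ ▸ Nat.floor_le_floor s2)
      fun j hj => (hA j hj _ hτ.2.1 hτ.2.2).of_exp
    rw [norm_exp_neg]
    linarith [Real.exp_pos (-(y + c)), Real.exp_le_exp.2 (neg_le_neg hc)]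
  have a2 : ∀ᶠ y in atTop, ∀ τ ∈ strip α β y, Adm γ p (2 * ν + 2) (mix p κ b (N₂ y)) (cexp (-τ)) := by
    filter_upwards [a1 0, (tendsto_floor_exp (show 0 < γ ^ 2 * m / 6 / 2 ^ κ by positivity)
      k0).eventually_ge_atTop (2 * ν + 2)] with y s1 s2 τ hτ
    exact (s1 τ hτ (by linarith [hτ.1])).mono (by rwa [add_zero])
  have hd : ∀ y, DifferentiableOn ℂ (fun τ => cexp (-τ)) (strip α β y) := fun _ => by fun_prop
  obtain ⟨A, -, ξ', hξ'⟩ := fam_sol H hγ hγ' (isOpen_strip α β) hd (tendsto_strip α β) a2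
  have c0 : ∀ᶠ y in atTop, ∀ τ ∈ strip α β y, cexp (-τ) ≠ 0 ∧ ‖cexp (-τ)‖ ≤ 1 :=
    (eventually_ge_atTop 0).mono fun y h τ hτ => ⟨exp_ne_zero _, by
      rw [norm_exp_neg, Real.exp_le_one_iff]; linarith [hτ.1]⟩
  obtain ⟨C, hC⟩ := fam_bdd (cc := cc) H.fin hd c0 a2
    (hξ'.mono fun y h => ⟨h.1, fun s hs => (h.2 s hs).1.norm_le (h.2 s hs).2.1⟩) g
  obtain ⟨a, a0, ha⟩ := window k0 hαβ h1 h2 (show 0 < γ ^ 2 * m / 6 / 2 ^ κ / 4 by positivity)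
  have w1 := ha _ C (hC.mono fun y h => ⟨h.1, fun τ t1 t2 t3 => h.2 τ ⟨t1, t2, t3⟩⟩)
    (hy_small H hγ hγ' h0 hm hκ hn (fun c _ => (a1 c).mono fun y h τ hτ e => h τ hτ e.ge)
      (hξ'.mono fun y h => h.2) hg) (K * Real.exp (κ * a))
  have m1 : ∀ y : ℝ, (y + a + θ * I : ℂ) ∈ strip α β y := fun y => by simp [strip, a0, h1, h2]
  have e1 : ∀ y : ℝ, sR θ (y + a) = cexp (-(y + a + θ * I)) := fun y => by simp [sR]
  have ta := tendsto_atTop_add_const_right atTop a tendsto_id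
  have hB' : ∀ (y : ℝ) j, (p j).natDegree ≠ 0 → Ang (2 * γ) (b j)
      ((p j).leadingCoeff * (cexp (-(y + a + θ * I)))⁻¹ ^ (p j).natDegree) := fun y j hj =>
    Ang.of_exp (by simpa using hB j hj)
  have w2 := cmp_exp (x := x) (f := f) (ν := ν) (A := A) (τ := fun y : ℝ => y + a + θ * I)
    (ξ := fun y => ξ' y (y + a + θ * I)) (ξ' := fun y => ξ (y + a))
    (Adm.bdD' (cc := cc) H.fin (c0.mono fun y h => (h _ (m1 y)).2) (a2.mono fun y h => h _ (m1 y)))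
    (Adm.bdD' (N := fun _ => 0) H.fin (c0.mono fun y h => (h _ (m1 y)).2)
      (n1.mono fun y h => (h _ (m1 y)).adm_tb (by simp; positivity) (hB' y)))
    (hξ'.mono fun y h => h.2 _ (m1 y)) ((ta.eventually hξ).mono fun y h => by simpa only [id, e1] using h)
    (N := fun y => N₂ y) (C := 2 * CA γ) (w := fun y => -(K * Real.exp (κ * a) * Real.exp (κ * y)))
    (n1.mono fun y h => (h _ (m1 y)).cmp_tb hγ (hN₂ ▸ floor_size' hγ hm (m1 y).1.le) (hB' y))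
    (by
      filter_upwards [eventually_ge_atTop 0, ta.eventually (lin_le_exp ν one_pos k0),
        exp_le_exp_succ (K + 1) a (show 0 < γ ^ 2 * m / 6 by positivity) κ] with y s1 s2 s3
      have := Nat.lt_floor_add_one (γ ^ 2 * m / 6 * Real.exp ((κ + 1) * y))
      simp only [id, mul_add (κ : ℝ), Real.exp_add] at s2 s3
      simp only [hN₂, add_re, ofReal_re, mul_re, I_re, mul_zero, ofReal_im, I_im, mul_one, sub_self,
        add_zero]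
      exact ⟨by linarith, by linarith⟩) g
  refine (((w2.add w1).comp_tendsto (tendsto_atTop_add_const_right atTop (-a) tendsto_id)).congr
    (fun y => ?_) fun y => ?_)
  · simp [EvF_apply, sR]
  · simp only [Function.comp, id, mul_assoc, ← Real.exp_add]
    ring_nf

end Pool.Agent.P.MP_26ad15_nt
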