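import Pool.Agent.P.MP_26ad15_nt.ASMove
import Pool.Agent.P.MP_26ad15_nt.ASAux

/-! Existence of closed fields, and the statement for complex points. -/

namespace Pool.Agent.P.MP_26ad15_nt

open Complex Set Filter Topology Asymptotics

lemma sas_countable_mv (σ R : Type) [CommRing R] [Countable σ] [Countable R] :
    Countable (MvPolynomial σ R) := by
  rw [← Cardinal.mk_le_aleph0_iff]
  refine MvPolynomial.cardinalMk_le_max.trans (max_le (max_le ?_ ?_) le_rfl) <;>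
    exact Cardinal.mk_le_aleph0

theorem exists_closed {S : Set ℂ} (hS : S.Countable) : ∃ k : Subfield ℂ, Closed k ∧ S ⊆ k := by
  classical
  let T (F : Type) [CommRing F] : Type :=
    F ⊕ Σ n : ℕ, Finset (MvPolynomial (Gen (Fin n) (BB ⊕ Bool)) F) × Fin n
  let supp : T ℂ → Finset ℂ := Sum.elim (fun c => {c}) fun t => t.2.1.biUnion MvPolynomial.coeffs
  let val : T ℂ → Set ℂ := Sum.elim
    (fun c => range (fun l => hh l c) ∪ range fun l => iteratedDeriv l Gamma c)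
    fun t => LC {y | ∀ f ∈ t.2.1, Ev ℂ (fun _ => dK) y f = 0} t.2.2
  let S' : Set ℂ := S ∪ {2 * Real.pi * I} ∪ range (fun q : ℚ => cexp (2 * Real.pi * I * q)) ∪
    range fun x : BB × ℕ × ℕ => PowerSeries.coeff x.2.2 (cP Polynomial.X (x.1 : ℚ) x.2.1)
  obtain ⟨F, h1, h2, h3⟩ := exists_closed_subfield supp val (by
      rintro (c | t)
      · exact (countable_range _).union (countable_range _)
      · exact countable_LC _ _) (fun S hS => by
      let F := Subfield.closure S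
      have : Countable F := (countable_subfield_closure hS).to_subtype
      have : ∀ n, Countable (MvPolynomial (Gen (Fin n) (BB ⊕ Bool)) F) := fun n =>
        sas_countable_mv _ _
      let φ : T F → T ℂ := Sum.map Subtype.val fun t =>
        ⟨t.1, t.2.1.image (MvPolynomial.map (algebraMap F ℂ)), t.2.2⟩
      refine (countable_range φ).mono ?_
      rintro (c | ⟨n, s, j⟩) ht
      · exact ⟨Sum.inl ⟨c, Subfield.subset_closure (ht (by simp [supp]))⟩, rfl⟩
      · obtain ⟨s', -, rfl⟩ := (Finset.subset_set_image_iff (s := univ) (t := s)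
          (f := MvPolynomial.map (algebraMap F ℂ))).1 fun f hf => by
            rw [image_univ, MvPolynomial.mem_range_map_iff_coeffs_subset]
            exact fun c hc => ⟨⟨c, Subfield.subset_closure
              (ht (Finset.mem_biUnion.2 ⟨f, hf, hc⟩))⟩, rfl⟩
        exact ⟨Sum.inr ⟨n, s', j⟩, rfl⟩) S'
    (((hS.union (countable_singleton _)).union (countable_range _)).union (countable_range _))
  refine ⟨F, ⟨h1, h2 (Or.inl (Or.inl (Or.inr rfl))), fun q => h2 (Or.inl (Or.inr ⟨q, rfl⟩)),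
    fun β l m => h2 (Or.inr ⟨(β, l, m), rfl⟩),
    fun c hc l => h3 (Sum.inl c) (by simpa [supp] using hc) (Or.inl ⟨l, rfl⟩),
    fun c hc l => h3 (Sum.inl c) (by simpa [supp] using hc) (Or.inr ⟨l, rfl⟩),
    fun n s j => ?_⟩, fun x hx => h2 (Or.inl (Or.inl (Or.inl hx)))⟩
  have := h3 (Sum.inr ⟨n, s.image (MvPolynomial.map (algebraMap F ℂ)), j⟩) fun c hc => by
    obtain ⟨f, hf, hc⟩ := Finset.mem_biUnion.1 hc
    obtain ⟨g, -, rfl⟩ := Finset.mem_image.1 hf
    obtain ⟨d, -, rfl⟩ := Finset.mem_image.1 (MvPolynomial.coeffs_map _ _ hc)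
    exact d.2
  simpa only [val, Sum.elim_inr, Finset.forall_mem_image, Ev_map] using this

section

variable {ι : Type} {k : Subfield ℂ}

/-- Generic points which satisfy all the relations of `z₀`. -/
def SasP (k : Subfield ℂ) (z₀ : ι → ℂ) : Set (ι → ℂ) := {z | (∀ j, z j ∉ k) ∧ HQ z ∧
  ∀ g : MvPolynomial (Gen ι BB) k, MvPolynomial.aeval (fam z₀) g = 0 →
    MvPolynomial.aeval (fam z) g = 0}

lemma sas_nonpole {c : ℂ} (hc : c ∉ k) (q : ℚ) (m : ℕ) : c + q ≠ -m := fun h =>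
  hc (by rw [eq_sub_of_add_eq h]; exact sub_mem (neg_mem (natCast_mem k m)) (SubfieldClass.ratCast_mem k q))

lemma sas_analyticAt {c : ℂ} (hc : c ∉ k) (κ : BB ⊕ Bool) : AnalyticAt ℂ (dK κ) c := by
  rcases κ with β | _ | _
  · exact (analyticAt_hh 0 (sas_nonpole hc β)).fun_comp (f := fun y : ℂ => y + (β : ℚ))
      (analyticAt_id.add analyticAt_const)
  · exact analyticAt_id
  · exact analyticAt_Gamma (by simpa using sas_nonpole hc 0)

lemma sas_meromorphic (κ : BB ⊕ Bool) : Meromorphic (dK κ) := by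
  rcases κ with β | _ | _
  · exact fun c => (meromorphic_PS true 1 _).comp_analyticAt (g := fun y : ℂ => y + (β : ℚ))
      (analyticAt_id.add analyticAt_const)
  · exact fun c => analyticAt_id.meromorphicAt
  · exact meromorphic_GG true

lemma sas_Ev (y : ι → ℂ) (g : MvPolynomial (Gen ι BB) k) :
    Ev k (fun _ => dK) y (MvPolynomial.rename (Prod.map id (Prod.map Sum.inl id)) g) =
      MvPolynomial.aeval (fam y) g := by
  rw [Ev, MvPolynomial.aeval_rename]
  congr 2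
  funext G
  change iteratedDeriv G.2.2 (fun y => PS true 1 (y + (G.2.1 : ℚ))) (y G.1) = _
  rw [iteratedDeriv_comp_add_const, iteratedDeriv_PS]
  rfl

lemma sas_curve {n : ℕ} (hk : Closed k) {z₀ z : Fin n → ℂ} (hz : z ∈ SasP k z₀) (j₀ : Fin n) :
    z j₀ ∈ interior (closure ((fun z => z j₀) '' SasP k z₀)) := by
  obtain ⟨γ, h0, ha, hnc, hrel⟩ := exists_curve k sas_meromorphic (κ₀ := Sum.inr false) rfl
    (fun j κ => sas_analyticAt (hz.1 j) κ) fun s j h => hz.1 j (hk.lc n s j h)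
  have ha' : ∀ j, AnalyticOnNhd ℂ (fun t => γ t j) (Metric.ball 0 1) := fun j t ht =>
    analyticAt_pi_iff.1 (ha t ht) j
  have hb := (convex_ball (0 : ℂ) 1).isPreconnected
  have b0 : (0 : ℂ) ∈ Metric.ball (0 : ℂ) 1 := Metric.mem_ball_self one_pos
  let Z : Set ℂ := (⋃ j, ⋃ c ∈ (k : Set ℂ), {t ∈ Metric.ball (0 : ℂ) 1 | γ t j - c = 0}) ∪
    ⋃ i, ⋃ j, ⋃ _ : i ≠ j, ⋃ a : ℚ, ⋃ b : ℚ,
      {t ∈ Metric.ball (0 : ℂ) 1 | γ t i - (a * γ t j + b) = 0}
  have hZ : Z.Countable := by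
    refine (countable_iUnion fun j => hk.count.biUnion fun c hc => ?_).union
      (countable_iUnion fun i => countable_iUnion fun j => countable_iUnion fun hij =>
        countable_iUnion fun a => countable_iUnion fun b => ?_)
    · refine countable_zeros hb ((ha' j).sub analyticOnNhd_const) fun h => hz.1 j ?_
      have := h 0 b0
      rw [h0, sub_eq_zero] at this
      exact this ▸ hc
    · refine countable_zeros hb ((ha' i).sub
        ((analyticOnNhd_const.mul (ha' j)).add analyticOnNhd_const)) fun h => ?_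
      exact hz.2.1 i j hij a b (sub_eq_zero.1 (h0 ▸ h 0 b0))
  have hP : ∀ t ∈ Metric.ball (0 : ℂ) 1 ∩ Zᶜ, γ t ∈ SasP k z₀ := fun t ht => by
    have h1 : ∀ j, γ t j ∉ k := fun j h => ht.2 (Or.inl (mem_iUnion.2 ⟨j,
      mem_iUnion₂.2 ⟨_, h, ht.1, sub_self _⟩⟩))
    refine ⟨h1, fun i j hij a b h => ht.2 (Or.inr ?_), fun g hg => ?_⟩
    · simp only [mem_iUnion]
      exact ⟨i, j, hij, a, b, ht.1, sub_eq_zero.2 h⟩
    · rw [← sas_Ev]
      exact hrel _ (by rw [sas_Ev]; exact hz.2.2 g hg) t ht.1 fun j κ => sas_analyticAt (h1 j) κ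
  rcases (ha' j₀).is_constant_or_isOpen hb with ⟨w, hw⟩ | ho
  · exact (hnc j₀ fun t ht => by rw [hw t ht, ← h0, hw 0 b0]).elim
  refine interior_maximal ?_ (ho _ le_rfl Metric.isOpen_ball) ⟨0, b0, congrFun h0 j₀⟩
  rintro _ ⟨t, ht, rfl⟩
  exact (ha' j₀ t ht).continuousAt.continuousWithinAt.mem_closure
    ((hZ.dense_compl ℂ).open_subset_closure_inter Metric.isOpen_ball ht)
    fun s hs => ⟨_, hP s hs, rfl⟩

variable {α : Type} {𝒰 : Ultrafilter α}

lemma sas_pl_top {x y : GF 𝒰} : pl (⟨⊤, le_top⟩ : Plc 𝒰) x = pl ⟨⊤, le_top⟩ y ↔ x = y := by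
  rw [pl_eq_iff (O := ⟨⊤, le_top⟩) trivial trivial, ValuationSubring.mem_nonunits_iff_or, sub_eq_zero]
  simp

lemma sas_gm_aeval {σ : Type*} (x : σ → α → ℂ) (P : MvPolynomial σ k) :
    MvPolynomial.aeval (fun s => gm 𝒰 (x s)) P =
      gm 𝒰 fun a => MvPolynomial.aeval (fun s => x s a) P := by
  induction P using MvPolynomial.induction_on with
  | C c => simp only [MvPolynomial.aeval_C]; rfl
  | add p q hp hq =>
    rw [map_add, hp, hq, ← map_add]; congr 1; funext a; simp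
  | mul_X p s hp =>
    rw [map_mul, hp, MvPolynomial.aeval_X, ← map_mul]; congr 1; funext a; simp

lemma sas_tendsto_aeval {σ : Type*} {l : Filter α} {x : σ → α → ℂ} {w : σ → ℂ}
    (h : ∀ s, Tendsto (x s) l (𝓝 (w s))) (P : MvPolynomial σ k) :
    Tendsto (fun a => MvPolynomial.aeval (fun s => x s a) P) l (𝓝 (MvPolynomial.aeval w P)) := by
  induction P using MvPolynomial.induction_on with
  | C c => simpa only [MvPolynomial.aeval_C] using tendsto_const_nhds
  | add p q hp hq => simpa using hp.add hq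
  | mul_X p s hp => simpa using hp.mul (h s)

lemma sas_hq {z y : ι → ℂ} {a : ι → ℤ} (ha : ∀ j, a j ≠ 0) {b : ι → ℚ}
    (h : ∀ j, z j = a j * y j + b j) : HQ z ↔ HQ y := by
  have ha' : ∀ j, (a j : ℂ) ≠ 0 := fun j => Int.cast_ne_zero.2 (ha j)
  refine ⟨fun H i j hij c d e => H i j hij (a i * c / a j) (a i * d + b i - a i * c / a j * b j) ?_,
    fun H i j hij c d e => H i j hij (c * a j / a i) ((c * b j + d - b i) / a i) ?_⟩
  · rw [h, h, e]; push_cast; field_simp [ha' j]; ring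
  · rw [h, h] at e
    push_cast
    field_simp [ha' i]
    linear_combination e

lemma sas_mem {z y : ℂ} {a : ℤ} (ha : a ≠ 0) {b : ℚ} (h : z = a * y + b) : z ∈ k ↔ y ∈ k := by
  refine ⟨fun H => ?_, fun H => h ▸ add_mem (mul_mem (intCast_mem k a) H)
    (SubfieldClass.ratCast_mem k b)⟩
  have : y = (z - b) / a := by rw [h]; field_simp [Int.cast_ne_zero.2 ha]; ring
  exact this ▸ div_mem (sub_mem H (SubfieldClass.ratCast_mem k b)) (intCast_mem k a)

lemma sas_move (z : α → ℂ) : ∃ (a : ℤ) (b : ℚ) (y : α → ℂ), a ≠ 0 ∧ (∀ t, z t = a * y t + b) ∧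
    ∀ᶠ t in (𝒰 : Filter α), 1 ≤ (y t).re := by
  rcases 𝒰.em fun t => -1 ≤ (z t).re with h | h
  · refine ⟨1, -2, fun t => z t + 2, one_ne_zero, fun t => by push_cast; ring, h.mono fun t ht => ?_⟩
    simp only [add_re, re_ofNat]
    linarith
  · refine ⟨-1, 0, fun t => -z t, by simp, fun t => by push_cast; ring, h.mono fun t ht => ?_⟩
    simp only [neg_re]
    linarith

lemma sas_limit [Fintype ι] (hN : NAS' (Fintype.card ι)) (hk : Closed k) {z₀ : ι → ℂ}
    (h0 : ¬ AI k (fam z₀)) {z : ι → α → ℂ} (hz : ∀ᶠ t in (𝒰 : Filter α), (fun j => z j t) ∈ SasP k z₀)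
    {j₀ : ι} (hj : ∀ c ∈ k, ¬ Tendsto (z j₀) 𝒰 (𝓝 c)) :
    ∃ w ∈ SasP k z₀, ∀ j, Tendsto (z j) 𝒰 (𝓝 (w j)) := by
  choose a b y ha hy hre using fun j => sas_move (𝒰 := 𝒰) (z j)
  have h1 : ∀ᶠ t in (𝒰 : Filter α), ∀ j, y j t ∉ k := hz.mono fun t ht j h =>
    ht.1 j ((sas_mem (ha j) (hy j t)).2 h)
  have h2 : ∀ᶠ t in (𝒰 : Filter α), HQ fun j => y j t := hz.mono fun t ht =>
    (sas_hq ha fun j => hy j t).1 ht.2.1
  have hlim : ∀ j c, Tendsto (y j) 𝒰 (𝓝 c) → Tendsto (z j) 𝒰 (𝓝 (a j * c + b j)) := fun j c h =>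
    ((h.const_mul _).add_const _).congr fun t => (hy j t).symm
  by_cases hS : Std 𝒰 k y
  · obtain ⟨w, hw, hw1, hw2⟩ := hS
    have h3 : ∀ j, (a j * w j + b j : ℂ) ∉ k := fun j h => hw1 j ((sas_mem (ha j) rfl).1 h)
    refine ⟨fun j => a j * w j + b j, ⟨h3, (sas_hq ha fun j => rfl).2 hw2, fun g hg => ?_⟩,
      fun j => hlim j _ (hw j)⟩
    refine tendsto_nhds_unique_of_eventuallyEq (sas_tendsto_aeval (l := (𝒰 : Filter α))
      (x := fun G t => fam (fun j => z j t) G) (fun G => ?_) g) tendsto_const_nhds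
      (hz.mono fun t ht => ht.2.2 g hg)
    exact (analyticAt_hh _ (sas_nonpole (h3 G.1) G.2.1)).continuousAt.tendsto.comp
      ((hlim _ _ (hw G.1)).add_const _)
  refine (h0 ?_).elim
  let O : Plc 𝒰 := ⟨⊤, le_top⟩
  have hg : ∀ j, GOOD 𝒰 (y j) := fun j => ((hre j).and h1).mono fun t ht =>
    ⟨ht.1, fun q e => ht.2 j (e ▸ SubfieldClass.ratCast_mem k q)⟩
  have hc : ∀ j, ∀ c ∈ k, pl O (gm 𝒰 (y j)) ≠ algebraMap ℂ (RF O) c := fun j c hc e => by
    rw [← pl_const, sas_pl_top, ← gm_const, gm_eq_iff] at e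
    obtain ⟨t, h3, h4⟩ := (e.and h1).exists
    exact h4 j (h3 ▸ hc)
  have hq : HQ fun j => pl O (gm 𝒰 (y j)) := fun i j hij c d e => by
    rw [← pl_ratCast, ← pl_ratCast, ← pl_mul (O := O) trivial trivial,
      ← pl_add (O := O) trivial trivial, sas_pl_top, ← map_ratCast (algebraMap ℂ (GF 𝒰)),
      ← map_ratCast (algebraMap ℂ (GF 𝒰)), ← gm_const, ← gm_const, ← map_mul, ← map_add,
      gm_eq_iff] at e
    obtain ⟨t, h3, h4⟩ := (e.and h2).exists
    exact h4 i j hij c d h3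
  have := (dom_move hk a ha b (fun j => Eventually.of_forall (hy j)) hg (fun j => trivial)
    (fun j q => by simpa using hc j q (SubfieldClass.ratCast_mem k q)) (O := O)
    fun G => trivial).ai (hN ι rfl k hk α 𝒰 O y ⟨hg, fun j => trivial, hc, hq⟩
      ⟨j₀, fun c hc h => hj _ ((sas_mem (ha j₀) rfl).2 hc) (hlim _ _ h)⟩ hS)
  refine this.of_rel fun g hg => ?_
  rw [← (pl_aeval (O := O) (fun G => trivial) g).2, ← map_zero (algebraMap ℂ (RF O)), ← pl_const,
    sas_pl_top, map_zero]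
  exact (sas_gm_aeval _ g).trans (gm_eq_zero_iff.2 (hz.mono fun t ht => ht.2.2 g hg))

lemma sas_filter [Fintype ι] (hN : NAS' (Fintype.card ι)) (hk : Closed k) {z₀ : ι → ℂ}
    (h0 : ¬ AI k (fam z₀)) {j₀ : ι} {F : Filter ℂ}
    (hF : (𝓟 ((fun z => z j₀) '' SasP k z₀) ⊓ F).NeBot) (hd : ∀ c ∈ k, Disjoint (𝓝 c) F) :
    ∃ c ∈ (fun z => z j₀) '' SasP k z₀, ¬ Disjoint (𝓝 c) F := by
  rw [← map_principal, ← Filter.push_pull, map_neBot_iff] at hF
  obtain ⟨𝒰, hU⟩ := Ultrafilter.exists_le (𝓟 (SasP k z₀) ⊓ comap (fun z => z j₀) F)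
  have h1 : Tendsto (fun z : ι → ℂ => z j₀) 𝒰 F := tendsto_iff_comap.2 (hU.trans inf_le_right)
  obtain ⟨w, hw, h2⟩ := sas_limit (𝒰 := 𝒰) hN hk h0 (z := fun j z => z j)
    (le_principal_iff.1 (hU.trans inf_le_left)) (j₀ := j₀)
    fun c hc h => h.not_tendsto (hd c hc) h1
  exact ⟨_, ⟨w, hw, rfl⟩, fun h => (h2 j₀).not_tendsto h h1⟩

end

theorem sas_of {n : ℕ} (hN : NAS' n) : SAS n := by
  intro ι _ hn k hk z hz hq
  obtain ⟨z₀, e, he⟩ : ∃ (z₀ : Fin n → ℂ) (e : ι ≃ Fin n), ∀ j, z₀ (e j) = z j :=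
    ⟨z ∘ (Fintype.equivFinOfCardEq hn).symm, Fintype.equivFinOfCardEq hn, by simp⟩
  refine AI.of_inj (y := fam z₀) ?_ (e := Prod.map e id) (e.injective.prodMap fun _ _ => id)
    fun G => by simp [fam, he]
  have hz₀ : z₀ ∈ SasP k z₀ := ⟨fun j => by obtain ⟨j, rfl⟩ := e.surjective j; exact he j ▸ hz j,
    fun i j hij => by
      obtain ⟨i, rfl⟩ := e.surjective i
      obtain ⟨j, rfl⟩ := e.surjective j
      rw [he, he]
      exact hq i j fun h => hij (congrArg e h), fun _ => id⟩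
  by_contra h0
  rcases isEmpty_or_nonempty (Fin n) with h | ⟨⟨j₀⟩⟩
  · exact h0 (AI.of_isEmpty _)
  rw [← Fintype.card_fin n] at hN
  set A := (fun z => z j₀) '' SasP k z₀ with hA
  have h1 : A ⊆ interior (closure A) := by
    rintro _ ⟨w, hw, rfl⟩
    exact sas_curve hk hw j₀
  have h2 : ∀ c ∈ closure A, c ∉ k → c ∈ A := fun c hc hc' => by
    obtain ⟨d, hd, h⟩ := sas_filter hN hk h0 (F := 𝓝 c)
      (by rw [inf_comm]; exact mem_closure_iff_clusterPt.1 hc)
      fun d hd => disjoint_nhds_nhds.2 fun e => hc' (e ▸ hd)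
    rwa [← not_not.1 (mt disjoint_nhds_nhds.2 h)]
  have h3 : (k : Set ℂ)ᶜ ⊆ interior (closure A) :=
    (hk.count.isConnected_compl_of_one_lt_rank (by simp)).isPreconnected.subset_of_closure_inter_subset
      isOpen_interior ⟨_, hz₀.1 j₀, h1 ⟨_, hz₀, rfl⟩⟩ fun c hc =>
        h1 (h2 c (closure_minimal interior_subset isClosed_closure hc.1) hc.2)
  obtain ⟨d, -, h⟩ := sas_filter hN hk h0 (j₀ := j₀) (F := Bornology.cobounded ℂ) (by
    rw [inf_comm, inf_principal_neBot_iff]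
    intro U hU
    by_contra hc
    refine NormedSpace.unbounded_univ ℂ ℂ ?_
    rw [← (hk.count.dense_compl ℂ).closure_eq, Metric.isBounded_closure_iff]
    refine (Bornology.isBounded_compl_iff.2 hU).subset fun c hc' hU => hc ⟨c, hU, ?_⟩
    exact h2 c (interior_subset (h3 hc')) hc')
    fun c _ => Metric.disjoint_nhds_cobounded c
  exact h (Metric.disjoint_nhds_cobounded d)

end Pool.Agent.P.MP_26ad15_nt
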