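import Pool.Agent.P.MP_26ad15_nt.ASTrunc
import Pool.Agent.P.MP_26ad15_nt.ASAux2

/-! The algebraic part of the Stokes analysis. -/

namespace Pool.Agent.P.MP_26ad15_nt

open Finset MvPolynomial Filter
open AddMonoidAlgebra (single)

variable {ι : Type} {M : Type*} [AddCommMonoid M]

/-- Numerical data of a Stokes jump. -/
structure JD (ι : Type) (M : Type*) [AddCommMonoid M] where
  D : Finset ι
  π : ι → M
  π₀ : M
  lam : M →+ ℝ
  cc : ι → ℂ
  w : ι → ℕ → ℂ
  ζ : ι → BB → ℂ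
  lam_nonneg : ∀ v, 0 ≤ lam v
  lam_pos : 0 < lam π₀
  div : ∀ j ∈ D, ∃ v, π j = π₀ + v
  w_succ : ∀ j k, w j (k + 1) = w j k * cc j

variable (J : JD ι M) [DecidableEq ι]

section Jump

variable {S S' : Type*} [CommRing S] [Algebra ℂ S] [CommRing S'] [Algebra ℂ S']

/-- The truncated jump. -/
noncomputable def JD.jump (ω : ι → S) (N : ℕ) (j : ι) (β : BB) (l : ℕ) : AddMonoidAlgebra S M :=
  if j ∈ J.D then ∑ r ∈ range N, single (r • J.π j)
    (algebraMap ℂ S (J.w j (l + 1) * (r : ℂ) ^ (l + 1) * J.ζ j β ^ r) * ω j ^ r) else 0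

/-- The values of the generators after the jump. -/
noncomputable def JD.cJ (ψ : MvPolynomial (Gen ι KK) ℂ →ₐ[ℂ] S) (N : ℕ) (G : Gen ι KK) :
    AddMonoidAlgebra S M := single 0 (ψ (X G)) +
  G.2.1.elim (fun β => J.jump (fun j => ψ (X (j, Sum.inr 2, 0))) N G.1 β G.2.2) fun _ => 0

lemma JD.map_cJ (φ : S →ₐ[ℂ] S') (ψ : MvPolynomial (Gen ι KK) ℂ →ₐ[ℂ] S) (N : ℕ) (G : Gen ι KK) :
    AddMonoidAlgebra.mapAlgHom M φ (J.cJ ψ N G) = J.cJ (φ.comp ψ) N G := by
  obtain ⟨j, β | i, l⟩ := G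
  · simp only [JD.cJ, JD.jump, map_add, Sum.elim_inl, apply_ite (AddMonoidAlgebra.mapAlgHom M φ),
      map_sum, map_zero, AddMonoidAlgebra.mapAlgHom_single, map_mul φ, map_pow φ, AlgHom.commutes,
      AlgHom.comp_apply]
  · simp [JD.cJ]

omit [DecidableEq ι] [Algebra ℂ S] in
lemma JD.dvd_single {j : ι} (hj : j ∈ J.D) {r : ℕ} (hr : r ≠ 0) (a : S) :
    single J.π₀ (1 : S) ∣ single (r • J.π j) a := by
  obtain ⟨v, hv⟩ := J.div j hj
  obtain ⟨r, rfl⟩ := Nat.exists_eq_succ_of_ne_zero hr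
  exact ⟨single (v + r • J.π j) a, by
    rw [AddMonoidAlgebra.single_mul_single, one_mul, ← add_assoc, ← hv, succ_nsmul']⟩

lemma JD.dvd_jump (ω : ι → S) (N : ℕ) (j : ι) (β : BB) (l : ℕ) :
    single J.π₀ (1 : S) ∣ J.jump ω N j β l := by
  unfold JD.jump
  split_ifs with hj
  · refine dvd_sum fun r _ => ?_
    rcases eq_or_ne r 0 with rfl | hr
    · simp
    · exact J.dvd_single hj hr _
  · exact dvd_zero _

/-- Constants. -/
noncomputable def cst (M : Type*) [AddCommMonoid M] (S : Type*) [CommRing S] [Algebra ℂ S] :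
    S →ₐ[ℂ] AddMonoidAlgebra S M := AddMonoidAlgebra.singleZeroAlgHom

omit [DecidableEq ι] in
lemma cst_apply (a : S) : cst M S a = single 0 a := rfl

lemma JD.dvd_aeval_cJ (ψ : MvPolynomial (Gen ι KK) ℂ →ₐ[ℂ] S) (N : ℕ)
    (g : MvPolynomial (Gen ι KK) ℂ) : single J.π₀ (1 : S) ∣ aeval (J.cJ ψ N) g - single 0 (ψ g) := by
  refine dvd_sub_of_gen (Ψ' := (cst M S).comp ψ) ?_ g
  rintro ⟨j, β | i, l⟩
  · simpa [JD.cJ, cst_apply] using J.dvd_jump _ N j β l
  · simp [JD.cJ, cst_apply]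

lemma JD.dvd_FPn (ψ : MvPolynomial (Gen ι KK) ℂ →ₐ[ℂ] S) (N : ℕ) {δ : ι → AddMonoidAlgebra S M}
    (hδ : ∀ j, single J.π₀ (1 : S) ∣ δ j) (g : MvPolynomial (Gen ι KK) ℂ) :
    single J.π₀ (1 : S) ∣ FPn N (J.cJ ψ N) δ g - single 0 (ψ g) := by
  simpa [FPn_zero] using (FPn_congr (N := N) (c := J.cJ ψ N) (y' := 0) (by simpa using hδ) g).add
    (FPn_zero (N := N) (c := J.cJ ψ N) ▸ J.dvd_aeval_cJ ψ N g :
      _ ∣ FPn N (J.cJ ψ N) 0 g - single 0 (ψ g))

omit [DecidableEq ι] in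
/-- Elements supported in weights at least `μ`. -/
def JD.FI (S : Type*) [CommRing S] (μ : ℝ) : Ideal (AddMonoidAlgebra S M) where
  carrier := {b | ∀ v, J.lam v < μ → b.coeff v = 0}
  add_mem' := fun h h' v hv => by simp [h v hv, h' v hv]
  zero_mem' := fun _ _ => rfl
  smul_mem' := fun a b h v hv => by
    classical
    by_contra hc
    obtain ⟨x, -, y, hy, rfl⟩ := Finset.mem_add.1
      (AddMonoidAlgebra.support_coeff_mul_subset a b (Finsupp.mem_support_iff.2 hc))
    exact Finsupp.mem_support_iff.1 hy (h y (by linarith [J.lam_nonneg x, map_add J.lam x y]))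

omit [DecidableEq ι] [Algebra ℂ S] in
lemma JD.single_mem {v : M} {μ : ℝ} (h : μ ≤ J.lam v) (a : S) : single v a ∈ J.FI S μ :=
  fun u hu => Finsupp.single_eq_of_ne (by rintro rfl; linarith)

omit [DecidableEq ι] [Algebra ℂ S] in
lemma JD.mem_of_dvd {N : ℕ} {b : AddMonoidAlgebra S M} (h : single J.π₀ (1 : S) ^ N ∣ b) :
    b ∈ J.FI S (N * J.lam J.π₀) :=
  Ideal.mem_of_dvd _ h (by
    rw [AddMonoidAlgebra.single_pow]
    exact J.single_mem (by simp) _)

omit [DecidableEq ι] in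
/-- The Euler derivation. -/
noncomputable def JD.E (S : Type*) [CommRing S] [Algebra ℂ S] :
    AddMonoidAlgebra S M →+ AddMonoidAlgebra S M :=
  AddMonoidAlgebra.liftNC (AddMonoidAlgebra.singleAddHom 0)
    fun v => single v.toAdd (algebraMap ℂ S (J.lam v.toAdd))

omit [DecidableEq ι] in
lemma JD.E_single (v : M) (a : S) : J.E S (single v a) = single v (a * algebraMap ℂ S (J.lam v)) := by
  simp [JD.E, AddMonoidAlgebra.single_mul_single]

omit [DecidableEq ι] in
lemma JD.E_mul (a b : AddMonoidAlgebra S M) : J.E S (a * b) = a * J.E S b + b * J.E S a := by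
  induction a using AddMonoidAlgebra.induction_linear with
  | zero => simp
  | add a a' h h' => simp only [add_mul, map_add, h, h', mul_add]; ring
  | single u x =>
    induction b using AddMonoidAlgebra.induction_linear with
    | zero => simp
    | add a a' h h' => simp only [add_mul, map_add, h, h', mul_add]; ring
    | single v y =>
      simp only [AddMonoidAlgebra.single_mul_single, J.E_single, add_comm v u,
        ← AddMonoidAlgebra.single_add, map_add, Complex.ofReal_add]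
      congr 1
      ring

omit [DecidableEq ι] in
lemma JD.E_const (c : ℂ) : J.E S (algebraMap ℂ _ c) = 0 := by
  simp [AddMonoidAlgebra.coe_algebraMap, J.E_single]

omit [DecidableEq ι] in
lemma JD.E_mem {μ : ℝ} {b : AddMonoidAlgebra S M} (h : b ∈ J.FI S μ) : J.E S b ∈ J.FI S μ := by
  have : ∀ (b : AddMonoidAlgebra S M) v, (J.E S b).coeff v = b.coeff v * algebraMap ℂ S (J.lam v) :=
    fun b v => by
    classical
    induction b using AddMonoidAlgebra.induction_linear with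
    | zero => simp
    | add a a' h h' => simp [h, h', add_mul]
    | single u x =>
      simp only [J.E_single, AddMonoidAlgebra.coeff_single, Finsupp.single_apply]
      split_ifs with e <;> simp [e]
  exact fun v hv => by rw [this, h v hv, zero_mul]

omit [DecidableEq ι] [Algebra ℂ S] in
lemma JD.lowest {R : Type*} [AddCommGroup R] {μ : ℝ} (ψ : R → S) (Θ : R → AddMonoidAlgebra S M)
    (h1 : ∀ g, single J.π₀ (1 : S) ∣ Θ g - single 0 (ψ g)) (h2 : ∀ g, ψ g = 0 → Θ g ∈ J.FI S μ)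
    (P : Finset M) (Z : M → R) (h : ∑ v ∈ P, single v 1 * Θ (Z v) ∈ J.FI S μ) :
    ∀ v ∈ P, J.lam v < μ → ψ (Z v) = 0 := by
  classical
  by_contra! hc
  obtain ⟨v₁, a1, a2, a3⟩ := hc
  obtain ⟨v, hv, hm⟩ := (P.filter fun v => ψ (Z v) ≠ 0).exists_min_image J.lam ⟨v₁, by simp [a1, a3]⟩
  rw [mem_filter] at hv
  have hl := (hm v₁ (by simp [a1, a3])).trans_lt a2
  have e := h v hl
  rw [AddMonoidAlgebra.coeff_sum, Finsupp.finsetSum_apply, sum_eq_single_of_mem v hv.1] at e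
  · obtain ⟨b, hb⟩ := h1 (Z v)
    rw [eq_add_of_sub_eq hb, mul_add, ← mul_assoc, AddMonoidAlgebra.single_mul_single,
      AddMonoidAlgebra.single_mul_single, AddMonoidAlgebra.coeff_add, Finsupp.add_apply,
      Ideal.mul_mem_right b _ (J.single_mem le_rfl _) v (by simp [J.lam_pos])] at e
    exact hv.2 (by simpa using e)
  · intro u hu huv
    by_cases h0 : ψ (Z u) = 0
    · exact Ideal.mul_mem_left _ _ (h2 _ h0) v hl
    obtain ⟨b, hb⟩ := h1 (Z u)
    rw [eq_add_of_sub_eq hb, mul_add, ← mul_assoc, AddMonoidAlgebra.single_mul_single,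
      AddMonoidAlgebra.single_mul_single, AddMonoidAlgebra.coeff_add, Finsupp.add_apply,
      Ideal.mul_mem_right b _ (J.single_mem le_rfl _) v
        (by linarith [hm u (by simp [hu, h0]), J.lam_pos, map_add J.lam u J.π₀])]
    simp [Finsupp.single_eq_of_ne huv.symm]

omit [Algebra ℂ S] in
lemma chain_vars {k σ : Type*} [CommRing k] [Algebra k S] (D : S →+ S)
    (hD : ∀ a b, D (a * b) = a * D b + b * D a) (hC : ∀ c, D (algebraMap k S c) = 0) (y : σ → S)
    {g : MvPolynomial σ k} {s : Finset σ} (hs : g.vars ⊆ s) :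
    D (aeval y g) = ∑ G ∈ s, aeval y (pderiv G g) * D (y G) := by
  obtain ⟨s', h1, h2⟩ := ((chain_finset D hD hC y g).and (eventually_ge_atTop s)).exists
  rw [h1]
  exact (sum_subset h2 fun G _ hG => by
    rw [pderiv_eq_zero_of_notMem_vars fun h => hG (hs h), map_zero, zero_mul]).symm

/-- Coefficients in the derivative of the jump. -/
noncomputable def JD.co (G : Gen ι BB) (r : ℕ) : ℂ :=
  J.w G.1 (G.2.2 + 1) * J.lam (J.π G.1) * (r : ℂ) ^ (G.2.2 + 2) * J.ζ G.1 G.2.1 ^ r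

omit [DecidableEq ι] in
lemma JD.w_add (j : ι) (k m : ℕ) : J.w j (k + m) = J.w j k * J.cc j ^ m := by
  induction m with
  | zero => simp
  | succ m ih => rw [← add_assoc, J.w_succ, ih, pow_succ, mul_assoc]

variable {ψ : MvPolynomial (Gen ι KK) ℂ →ₐ[ℂ] S} {N : ℕ} {δ : ι → AddMonoidAlgebra S M}

lemma JD.E_gen (hexp : ∀ j m, ψ (X (j, Sum.inr 2, m)) =
      algebraMap ℂ S (J.cc j ^ m) * ψ (X (j, Sum.inr 2, 0)))
    (hδ : ∀ j, single J.π₀ (1 : S) ∣ δ j) (G : Gen ι BB) : single J.π₀ (1 : S) ^ N ∣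
      J.E S (FPn N (J.cJ ψ N) δ (X (inB G))) - FPn N (J.cJ ψ N) δ (X (nx (inB G))) * J.E S (δ G.1) -
      if G.1 ∈ J.D then ∑ r ∈ range N, single (r • J.π G.1) 1 *
        FPn N (J.cJ ψ N) δ (C (J.co G r) * X (G.1, Sum.inr 2, 0) ^ r) else 0 := by
  obtain ⟨j, β, l⟩ := G
  have h1 := FPn_deriv_X (N := N) (c := J.cJ ψ N) hδ (J.E S) J.E_mul (inB (j, β, l))
  have a0 : ∀ (v : M) (c : ℂ) (a : S), single v (algebraMap ℂ S c * a) =
      algebraMap ℂ _ c * single v a := fun v c a => by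
    simp [AddMonoidAlgebra.coe_algebraMap, AddMonoidAlgebra.single_mul_single]
  have e1 : FPn N (J.cJ ψ N) δ (X (j, Sum.inr 2, 0)) = single 0 (ψ (X (j, Sum.inr 2, 0))) *
      ∑ m ∈ range (N + 1), algebraMap ℂ _ (m.factorial : ℂ)⁻¹ *
        (algebraMap ℂ _ (J.cc j) * δ j) ^ m := by
    rw [FPn_X, mul_sum]
    refine sum_congr rfl fun m _ => ?_
    simp only [cfn, JD.cJ, Sum.elim_inr, add_zero, zero_add, hexp j m, a0]
    simp only [mul_pow, map_pow]
    ring
  have e2 : ∀ m, J.E S (cfn (J.cJ ψ N) (inB (j, β, l)) m) = algebraMap ℂ _ (m.factorial : ℂ)⁻¹ *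
      J.E S (J.jump (fun j => ψ (X (j, Sum.inr 2, 0))) N j β (l + m)) := fun m => by
    simp [cfn, J.E_mul, JD.cJ, inB, J.E_single]
  simp only [e2, JD.jump, show (inB (j, β, l)).1 = j from rfl] at h1
  by_cases hj : j ∈ J.D
  · simp only [hj, if_true] at h1 ⊢
    have h2 := dvd_sum (s := range N) fun r _ => (texp_pow
      ((hδ j).mul_left (algebraMap ℂ _ (J.cc j))) N r).mul_left
        (single (r • J.π j) (algebraMap ℂ S (J.co (j, β, l) r) * ψ (X (j, Sum.inr 2, 0)) ^ r))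
    have e3 : ∀ r, single (r • J.π j) 1 *
        FPn N (J.cJ ψ N) δ (C (J.co (j, β, l) r) * X (j, Sum.inr 2, 0) ^ r) =
        single (r • J.π j) (algebraMap ℂ S (J.co (j, β, l) r) * ψ (X (j, Sum.inr 2, 0)) ^ r) *
        (∑ m ∈ range (N + 1), algebraMap ℂ _ (m.factorial : ℂ)⁻¹ *
          (algebraMap ℂ _ (J.cc j) * δ j) ^ m) ^ r := fun r => by
      rw [map_mul, map_pow, e1, mul_pow, AddMonoidAlgebra.single_pow, a0, algHom_C, mul_left_comm,
        ← mul_assoc (single _ 1), AddMonoidAlgebra.single_mul_single, mul_assoc]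
      simp
    have e4 : ∑ m ∈ range (N + 1), δ j ^ m * (algebraMap ℂ _ (m.factorial : ℂ)⁻¹ *
        J.E S (∑ r ∈ range N, single (r • J.π j) (algebraMap ℂ S (J.w j (l + m + 1) *
          (r : ℂ) ^ (l + m + 1) * J.ζ j β ^ r) * ψ (X (j, Sum.inr 2, 0)) ^ r))) =
        ∑ r ∈ range N, single (r • J.π j) (algebraMap ℂ S (J.co (j, β, l) r) *
          ψ (X (j, Sum.inr 2, 0)) ^ r) * ∑ m ∈ range (N + 1), algebraMap ℂ _ (m.factorial : ℂ)⁻¹ *
          (r * (algebraMap ℂ _ (J.cc j) * δ j)) ^ m := by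
      simp only [map_sum, mul_sum]
      rw [sum_comm]
      refine sum_congr rfl fun r _ => sum_congr rfl fun m _ => ?_
      rw [J.E_single, mul_right_comm, ← map_mul, a0, a0, add_right_comm l m, J.w_add, map_nsmul]
      simp only [JD.co, nsmul_eq_mul, Complex.ofReal_mul, Complex.ofReal_natCast, map_mul, map_pow,
        map_natCast]
      ring
    simp only [mul_sub, sum_sub_distrib] at h2
    simp only [e3]
    rw [e4] at h1
    convert! h1.sub h2 using 1
    ring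
  · simpa [hj] using h1

theorem JD.stokes_alg (hexp : ∀ j m, ψ (X (j, Sum.inr 2, m)) =
      algebraMap ℂ S (J.cc j ^ m) * ψ (X (j, Sum.inr 2, 0))) [Fintype ι]
    (hδ : ∀ j, single J.π₀ (1 : S) ∣ δ j)
    (hI : ∀ g, ψ g = 0 → FPn N (J.cJ ψ N) δ g ∈ J.FI S (N * J.lam J.π₀))
    {g : MvPolynomial (Gen ι BB) ℂ} (hg : ψ (rename inB g) = 0)
    (hg' : ∀ j, ψ (rename inB (dd j g)) = 0) [DecidableEq M] (v : M)
    (hv : J.lam v < N * J.lam J.π₀) :
    ∑ q ∈ ((g.vars.filter fun G => G.1 ∈ J.D) ×ˢ range N).filter fun q => q.2 • J.π q.1.1 = v,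
      ψ (rename inB (pderiv q.1 g)) * (algebraMap ℂ S (J.co q.1 q.2) *
        ψ (X (q.1.1, Sum.inr 2, 0)) ^ q.2) = 0 := by
  set Θ := FPn N (J.cJ ψ N) δ with hΘ
  set Q := (g.vars.filter fun G => G.1 ∈ J.D) ×ˢ range N with hQ
  have e0 : ∀ g : MvPolynomial (Gen ι BB) ℂ, aeval (fun G => Θ (X (inB G))) g = Θ (rename inB g) :=
    fun g => by rw [← AlgHom.comp_apply]; congr 1; ext; simp
  have h1 := chain_vars (J.E S) J.E_mul J.E_const (fun G => Θ (X (inB G))) (subset_refl g.vars)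
  have h2 : ∑ G ∈ g.vars, Θ (rename inB (pderiv G g)) * (Θ (X (nx (inB G))) * J.E S (δ G.1)) =
      ∑ j, Θ (rename inB (dd j g)) * J.E S (δ j) := by
    have : ∀ j, dd j g = ∑ G ∈ g.vars, pderiv G g * dd j (X G) := fun j => by
      simpa using chain_vars (k := ℂ) (dd j).toLinearMap.toAddMonoidHom (dd_mul j) (dd_C j) X
        (subset_refl g.vars)
    simp only [this, map_sum, sum_mul, map_mul, dd_X, apply_ite (rename inB), apply_ite Θ, map_zero,
      mul_ite, ite_mul, mul_zero, zero_mul, rename_X]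
    rw [sum_comm]
    simp only [sum_ite_eq, mem_univ, if_true, mul_assoc]
    rfl
  have h3 := J.mem_of_dvd (dvd_sum (s := g.vars) fun G _ =>
    (J.E_gen hexp hδ (N := N) G).mul_left (Θ (rename inB (pderiv G g))))
  simp only [e0] at h1
  simp only [mul_sub, sum_sub_distrib, ← hΘ, ← h1, h2] at h3
  have h4 := sub_mem (sub_mem (J.E_mem (hI _ hg)) (sum_mem (t := univ) fun j _ =>
    Ideal.mul_mem_right (J.E S (δ j)) _ (hI _ (hg' j)))) h3
  rw [sub_sub_cancel] at h4
  have h5 := J.lowest ψ Θ (J.dvd_FPn ψ N hδ) hI (Q.image fun q => q.2 • J.π q.1.1)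
    (fun v => ∑ q ∈ Q.filter fun q => q.2 • J.π q.1.1 = v, rename inB (pderiv q.1 g) *
      (C (J.co q.1 q.2) * X (q.1.1, Sum.inr 2, 0) ^ q.2)) (by
    convert! h4 using 1
    simp only [map_sum, mul_sum]
    refine (sum_congr rfl fun v _ => sum_congr rfl fun q hq => ?_).trans
      ((sum_fiberwise_of_maps_to (fun q hq => mem_image_of_mem _ hq) fun q =>
        single (q.2 • J.π q.1.1) 1 * Θ (rename inB (pderiv q.1 g) *
          (C (J.co q.1 q.2) * X (q.1.1, Sum.inr 2, 0) ^ q.2))).trans ?_)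
    · rw [(mem_filter.1 hq).2]
    rw [hQ, sum_product, sum_filter]
    refine sum_congr rfl fun G _ => ?_
    split_ifs
    · rw [mul_sum]
      exact sum_congr rfl fun r _ => by rw [map_mul Θ (rename inB _), mul_left_comm]
    · simp)
  by_cases hm : v ∈ Q.image fun q => q.2 • J.π q.1.1
  · simpa using h5 v hm hv
  · exact sum_eq_zero fun q hq => (hm (mem_image.2 ⟨q, mem_filter.1 hq⟩)).elim

end Jump

omit [DecidableEq ι] in
lemma JD.lam_pi_pos {j : ι} (hj : j ∈ J.D) : 0 < J.lam (J.π j) := by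
  obtain ⟨v, hv⟩ := J.div j hj
  rw [hv, map_add]
  linarith [J.lam_pos, J.lam_nonneg v]

theorem JD.coef_zero {K V : Type*} [Field K] [Algebra ℂ K] [AddCommGroup V] [Module ℚ V]
    [DecidableEq M] (e : M →+ V) (he : Function.Injective e) (hw : ∀ j k, J.w j k ≠ 0)
    (h0 : ∀ j β, J.ζ j β ≠ 0) (hζ : ∀ j β β', J.ζ j β = J.ζ j β' → β = β') {ω : ι → K}
    (hω : ∀ j, ω j ≠ 0) (hsep : ∀ i ∈ J.D, ∀ j ∈ J.D, i ≠ j → ∀ (β β' : BB) (u v : ℕ), u ≠ 0 →
      v ≠ 0 → u • J.π i = v • J.π j →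
      (algebraMap ℂ K (J.ζ i β) * ω i) ^ u ≠ (algebraMap ℂ K (J.ζ j β') * ω j) ^ v)
    (a : Gen ι BB → K) (s : Finset (Gen ι BB)) (hs : ∀ G ∈ s, G.1 ∈ J.D)
    (h : ∀ (N : ℕ) v, J.lam v < N * J.lam J.π₀ →
      ∑ q ∈ (s ×ˢ range N).filter fun q => q.2 • J.π q.1.1 = v,
        a q.1 * (algebraMap ℂ K (J.co q.1 q.2) * ω q.1.1 ^ q.2) = 0) : ∀ G ∈ s, a G = 0 := by
  classical
  have : CharZero K := charZero_of_injective_algebraMap (algebraMap ℂ K).injective
  have hm : ∀ b ∈ s.image fun G => (G.1, G.2.1), b.1 ∈ J.D := fun b hb => by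
    obtain ⟨G, hG, rfl⟩ := mem_image.1 hb
    exact hs G hG
  have H := sep_classes (s.image fun G => (G.1, G.2.1)) (fun j => e (J.π j))
    (fun b hb h => (J.lam_pi_pos (hm b hb)).ne' (by rw [he (h.trans (map_zero e).symm), map_zero]))
    (fun b => algebraMap ℂ K (J.ζ b.1 b.2) * ω b.1)
    (fun b => mul_ne_zero ((_root_.map_ne_zero _).2 (h0 _ _)) (hω _))
    (by
      rintro ⟨j, β⟩ - ⟨_, β'⟩ - hne rfl hc
      exact hne (Prod.ext rfl (hζ _ _ _ ((algebraMap ℂ K).injective (mul_right_cancel₀ (hω _) hc)))))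
    (fun b hb b' hb' hne u v hu hv huv => hsep _ (hm b hb) _ (hm b' hb') hne _ _ u v hu hv
      (he (by simpa only [map_nsmul] using huv)))
    (fun b => ∑ G ∈ s.filter fun G => (G.1, G.2.1) = b, Polynomial.monomial (G.2.2 + 2)
      (a G * algebraMap ℂ K (J.w G.1 (G.2.2 + 1) * J.lam (J.π G.1))))
    fun v _ => ?_
  · intro G hG
    have := congrArg (Polynomial.coeff · (G.2.2 + 2)) (H _ (mem_image_of_mem _ hG))
    simp only [Polynomial.finsetSum_coeff, Polynomial.coeff_monomial, Polynomial.coeff_zero] at this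
    rw [sum_eq_single_of_mem G (by simpa using hG) fun G' h1 h2 => if_neg fun h3 => h2 (by
      have := (mem_filter.1 h1).2
      simp only [Prod.mk.injEq] at this
      exact Prod.ext this.1 (Prod.ext this.2 (by omega))), if_pos rfl] at this
    simpa [hw, (J.lam_pi_pos (hs G hG)).ne'] using this
  by_cases hv : ∃ v', e v' = v
  · obtain ⟨v, rfl⟩ := hv
    filter_upwards [(tendsto_natCast_atTop_atTop.atTop_mul_const J.lam_pos).eventually_gt_atTop
      (J.lam v)] with N hN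
    rw [← h N v hN, sum_filter, sum_product,
      ← sum_fiberwise_of_maps_to (fun G hG => mem_image_of_mem (fun G : Gen ι BB => (G.1, G.2.1)) hG)]
    refine sum_congr rfl fun b _ => ?_
    simp only [Polynomial.eval_finsetSum, sum_mul, sum_filter (fun r => r • e (J.π b.1) = e v)]
    rw [sum_comm]
    refine sum_congr rfl fun r _ => ?_
    rw [← map_nsmul, he.eq_iff]
    split_ifs with hr
    · refine sum_congr rfl fun G hG => ?_
      obtain rfl := (mem_filter.1 hG).2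
      simp only [hr, if_true, Polynomial.eval_monomial, JD.co, map_mul, map_pow, map_natCast, mul_pow]
      ring
    · refine (sum_eq_zero fun G hG => ?_).symm
      obtain rfl := (mem_filter.1 hG).2
      exact if_neg hr
  · exact .of_forall fun N => sum_eq_zero fun b _ => sum_eq_zero fun r hr =>
      (hv ⟨r • J.π b.1, by rw [map_nsmul, (mem_filter.1 hr).2]⟩).elim

end Pool.Agent.P.MP_26ad15_nt
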