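import Pool.Agent.P.MP_26ad15_nt.ASBase

/-! The trigamma function: series, functional equations. -/

namespace Pool.Agent.P.MP_26ad15_nt

open Complex Set Filter Topology Finset

/-- Derivatives of the trigamma function. -/
noncomputable def hh (l : ℕ) : ℂ → ℂ := PS true (l + 1)

/-- Derivatives of `z ^ (-2)`. -/
noncomputable def tm (l : ℕ) (z : ℂ) : ℂ := (-1) ^ l * (l + 1).factorial * (z ^ (l + 2))⁻¹

lemma hasDerivAt_tm (l : ℕ) {z : ℂ} (hz : z ≠ 0) : HasDerivAt (tm l) (tm (l + 1) z) z := by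
  have := ((hasDerivAt_pow (l + 2) z).inv (pow_ne_zero _ hz)).const_mul
    ((-1) ^ l * (l + 1).factorial : ℂ)
  convert! this using 1
  simp only [tm, Nat.factorial_succ (l + 1), Nat.add_succ_sub_one]
  push_cast
  field_simp
  ring

lemma analyticAt_hh (l : ℕ) {z : ℂ} (hz : ∀ m : ℕ, z ≠ -m) : AnalyticAt ℂ (hh l) z :=
  analyticAt_PS true _ hz

lemma hasDerivAt_PS (e : Bool) (k : ℕ) {z : ℂ} (hz : ∀ m : ℕ, ar e z ≠ -m) :
    HasDerivAt (PS e k) (PS e (k + 1) z) z := by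
  have := (analyticAt_PS e k hz).differentiableAt.hasDerivAt
  rwa [PS, ← iteratedDeriv_succ] at this

lemma hasDerivAt_hh (l : ℕ) {z : ℂ} (hz : ∀ m : ℕ, z ≠ -m) : HasDerivAt (hh l) (hh (l + 1) z) z :=
  hasDerivAt_PS true _ hz

lemma iteratedDeriv_PS (e : Bool) (l : ℕ) : iteratedDeriv l (PS e 1) = PS e (l + 1) := by
  rw [PS, PS, iteratedDeriv_succ', iteratedDeriv_succ', iteratedDeriv_zero]

lemma nonpole_add_one {z : ℂ} (hz : ∀ m : ℕ, z ≠ -m) (m : ℕ) : z + 1 ≠ -m := fun h =>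
  hz (m + 1) (by push_cast; linear_combination h)

lemma nonpole_add_nat {z : ℂ} (hz : ∀ m : ℕ, z ≠ -m) (n m : ℕ) : z + n ≠ -m := fun h =>
  hz (m + n) (by push_cast; linear_combination h)

lemma nonpole_of_re {z : ℂ} (hz : 0 < z.re) (m : ℕ) : z ≠ -m :=
  ne_neg_nat_of_slit (Or.inl hz) m

lemma hh_shift (l : ℕ) {z : ℂ} (hz : ∀ m : ℕ, z ≠ -m) : hh l z = hh l (z + 1) + tm l z := by
  have h0 : ∀ {z : ℂ}, (∀ m : ℕ, z ≠ -m) → z ≠ 0 := fun hz h => hz 0 (by simpa using h)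
  induction l generalizing z with
  | zero =>
    have e : PS true 0 =ᶠ[𝓝 z] fun w => PS true 0 (w + 1) - w⁻¹ :=
      eventually_of_mem (isOpen_nonpole.mem_nhds hz) fun w hw => by
        simp [PS, ar, digamma_apply_add_one w hw]
    have h1 := ((hasDerivAt_PS true 0 (z := z + 1) (nonpole_add_one hz)).comp_add_const z 1).sub
      (hasDerivAt_inv (h0 hz))
    have := (hasDerivAt_PS true 0 hz).unique (h1.congr_of_eventuallyEq e)
    simp only [hh, this, tm]
    simp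
  | succ l ih =>
    have e : hh l =ᶠ[𝓝 z] fun w => hh l (w + 1) + tm l w :=
      eventually_of_mem (isOpen_nonpole.mem_nhds hz) fun w hw => ih hw
    exact (hasDerivAt_hh l hz).unique ((((hasDerivAt_hh l (nonpole_add_one hz)).comp_add_const z 1).add
      (hasDerivAt_tm l (h0 hz))).congr_of_eventuallyEq e)

lemma sum_inv_sq {R : ℝ} (hR : 1 ≤ R) :
    Summable (fun k : ℕ => ((R + k) ^ 2)⁻¹) ∧ ∑' k : ℕ, ((R + k) ^ 2)⁻¹ ≤ 2 / R := by
  have h : ∀ n : ℕ, ∑ k ∈ range n, ((R + k) ^ 2)⁻¹ ≤ 2 / R - 2 / (R + n) := by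
    intro n
    induction n with
    | zero => simp
    | succ n ih =>
      rw [sum_range_succ]
      have a : 1 ≤ R + n := by linarith [(Nat.cast_nonneg n : (0 : ℝ) ≤ n)]
      have : ((R + n) ^ 2)⁻¹ ≤ 2 / (R + n) - 2 / (R + (n + 1 : ℕ)) := by
        push_cast
        rw [div_sub_div _ _ (by positivity) (by positivity), inv_eq_one_div,
          div_le_div_iff₀ (by positivity) (by positivity)]
        nlinarith
      linarith
  have h' : ∀ n : ℕ, ∑ k ∈ range n, ((R + k) ^ 2)⁻¹ ≤ 2 / R := fun n =>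
    (h n).trans (sub_le_self _ (by positivity))
  exact ⟨summable_of_sum_range_le (fun _ => by positivity) h',
    Real.tsum_le_of_sum_range_le (fun _ => by positivity) h'⟩

lemma norm_tm_le (l : ℕ) {z : ℂ} {c R : ℝ} (hc : 0 < c) (hR : 1 ≤ R) (h : c * R ≤ ‖z‖) :
    ‖tm l z‖ ≤ (l + 1).factorial / c ^ (l + 2) * (R ^ 2)⁻¹ := by
  rw [tm, norm_mul, norm_mul, norm_pow, norm_neg, norm_one, one_pow, one_mul, norm_inv, norm_pow,
    Complex.norm_natCast, div_eq_mul_inv, mul_assoc, ← mul_inv]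
  gcongr
  calc c ^ (l + 2) * R ^ 2 ≤ c ^ (l + 2) * R ^ (l + 2) := by
        gcongr
        omega
    _ = (c * R) ^ (l + 2) := by ring
    _ ≤ ‖z‖ ^ (l + 2) := by gcongr

lemma half_le_norm {z : ℂ} (hz : 1 / 2 < z.re) (k : ℕ) : 1 / 2 * (1 + k : ℝ) ≤ ‖z + k‖ := by
  refine le_trans ?_ (re_le_norm _)
  simp only [add_re, natCast_re]
  linarith [(Nat.cast_nonneg k : (0 : ℝ) ≤ k)]

lemma norm_tm_half (l : ℕ) {z : ℂ} (hz : 1 / 2 < z.re) (k : ℕ) :
    ‖tm l (z + k)‖ ≤ (l + 1).factorial / (1 / 2) ^ (l + 2) * ((1 + k : ℝ) ^ 2)⁻¹ :=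
  norm_tm_le l (by norm_num) (by linarith [(Nat.cast_nonneg k : (0 : ℝ) ≤ k)]) (half_le_norm hz k)

lemma summable_tm (l : ℕ) {z : ℂ} (hz : 1 / 2 < z.re) : Summable fun k : ℕ => tm l (z + k) :=
  .of_norm_bounded ((sum_inv_sq le_rfl).1.mul_left _) (norm_tm_half l hz)

lemma hasDerivAt_tsum_tm (l : ℕ) {z : ℂ} (hz : 1 / 2 < z.re) :
    HasDerivAt (fun w => ∑' k : ℕ, tm l (w + k)) (∑' k : ℕ, tm (l + 1) (z + k)) z :=
  hasDerivAt_tsum_of_isPreconnected ((sum_inv_sq le_rfl).1.mul_left _) (isOpen_HP _)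
    (isPreconnected_HP (1 / 2)) (fun k y hy => (hasDerivAt_tm l (fun h => by
      have := half_le_norm hy k
      rw [h, norm_zero] at this
      linarith [(Nat.cast_nonneg k : (0 : ℝ) ≤ k)])).comp_add_const y k)
    (fun k y hy => norm_tm_half (l + 1) hy k) hz (summable_tm l hz) hz

lemma norm_tsum_tm_le {z : ℂ} {R : ℝ} (hR : 1 ≤ R) (hz : R ≤ z.re) :
    ‖∑' k : ℕ, tm 0 (z + k)‖ ≤ 2 / R := by
  refine (tsum_of_norm_bounded (sum_inv_sq hR).1.hasSum fun k => ?_).trans (sum_inv_sq hR).2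
  have := norm_tm_le 0 (z := z + k) (R := R + k) one_pos
    (by linarith [(Nat.cast_nonneg k : (0 : ℝ) ≤ k)])
    (le_trans (by simp [hz]) (re_le_norm _))
  simpa using this

lemma deriv_eq_zero_of_periodic (N : ℕ) : ∀ F : ℂ → ℂ, Differentiable ℂ F →
    (∀ z, F (z + 1) = F z) → iteratedDeriv (N + 1) F = 0 → deriv F = 0 := by
  induction N with
  | zero => intro F _ _ h; simpa using h
  | succ N ih =>
    intro F hF hp h
    have h1 := ih (deriv F) hF.deriv (fun z => by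
      rw [← deriv_comp_add_const]; simp only [hp]) (by rwa [← iteratedDeriv_succ'])
    have h2 := is_const_of_deriv_eq_zero hF.deriv (congrFun h1)
    have h3 := is_const_of_deriv_eq_zero (f := fun z => F z - deriv F 0 * z) (by fun_prop) (fun z => by
      have := (hF z).hasDerivAt.sub ((hasDerivAt_id z).const_mul (deriv F 0))
      rw [h2 z 0, mul_one, sub_self] at this
      exact this.deriv) 1 0
    have h4 := hp 0
    simp only [zero_add] at h4
    funext z
    rw [h2 z 0, Pi.zero_apply]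
    linear_combination h4 - h3

lemma const_of_periodic {F : ℂ → ℂ} (hF : Differentiable ℂ F) (hp : ∀ z, F (z + 1) = F z)
    {C : ℝ} {N : ℕ} (hb : ∀ z, ‖F z‖ ≤ C * (‖z‖ + 1) ^ N) (z w : ℂ) : F z = F w := by
  refine is_const_of_deriv_eq_zero hF (congrFun (deriv_eq_zero_of_periodic N F hF hp ?_)) z w
  funext c
  have C0 : 0 ≤ C := by simpa using (norm_nonneg _).trans (hb 0)
  have h1 : ∀ᶠ R : ℝ in atTop, ‖iteratedDeriv (N + 1) F c‖ ≤
      (N + 1).factorial * (C * 2 ^ N) * R⁻¹ := by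
    filter_upwards [eventually_ge_atTop (‖c‖ + 1)] with R hR
    have R0 : 0 < R := by linarith [norm_nonneg c]
    refine (norm_iteratedDeriv_le_of_forall_mem_sphere_norm_le (C := C * (2 * R) ^ N) (N + 1) R0
      hF.diffContOnCl fun z hz => (hb z).trans ?_).trans_eq (by field_simp; ring)
    have := norm_le_norm_add_norm_sub' z c
    rw [mem_sphere_iff_norm.1 hz] at this
    gcongr
    linarith
  have h2 := (tendsto_inv_atTop_zero (𝕜 := ℝ)).const_mul ((N + 1).factorial * (C * 2 ^ N))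
  rw [mul_zero] at h2
  exact norm_le_zero_iff.1 (ge_of_tendsto h2 h1)

lemma hh_zero_eq {z : ℂ} (hz : 1 / 2 < z.re) : hh 0 z = ∑' k : ℕ, tm 0 (z + k) := by
  set G : ℂ → ℂ := fun w => hh 0 w - ∑' k : ℕ, tm 0 (w + k) with hG
  have p1 : ∀ w : ℂ, 1 / 2 < w.re → G (w + 1) = G w := fun w hw => by
    simp only [hG]
    rw [hh_shift 0 (nonpole_of_re (z := w) (by linarith)), (summable_tm 0 hw).tsum_eq_zero_add]
    simp only [Nat.cast_zero, add_zero, Nat.cast_add, Nat.cast_one, add_assoc, add_comm (1 : ℂ)]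
    ring
  have p2 : ∀ (n : ℕ) (w : ℂ), 1 / 2 < w.re → G (w + n) = G w := fun n w hw => by
    induction n with
    | zero => simp
    | succ n ih =>
      rw [← ih, Nat.cast_succ, ← add_assoc, p1]
      simp only [add_re, natCast_re]
      linarith [(Nat.cast_nonneg n : (0 : ℝ) ≤ n)]
  have p3 : ∀ (m : ℤ) (w : ℂ), 1 / 2 < w.re → 1 / 2 < (w + m).re → G (w + m) = G w :=
    fun m w hw hw' => by
    obtain ⟨n, rfl | rfl⟩ := m.eq_nat_or_neg
    · exact p2 n w hw
    · rw [← p2 n _ hw']; simp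
  set E : ℂ → ℂ := fun w => G (w + (3 - ⌊w.re⌋ : ℤ)) with hE
  have r1 : ∀ w : ℂ, 3 ≤ (w + (3 - ⌊w.re⌋ : ℤ)).re ∧ (w + (3 - ⌊w.re⌋ : ℤ)).re ≤ 4 := fun w => by
    simp only [add_re, intCast_re]
    push_cast
    constructor <;> linarith [Int.floor_le w.re, Int.lt_floor_add_one w.re]
  have e1 : ∀ (m : ℤ) (w : ℂ), 1 / 2 < (w + m).re → E w = G (w + m) := fun m w hw => by
    simp only [hE]
    rw [← p3 (3 - ⌊w.re⌋ - m) _ hw]
    · congr 1; push_cast; ring
    · have := (r1 w).1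
      simp only [add_re, intCast_re] at this ⊢
      push_cast at this ⊢
      linarith
  have dG : ∀ w : ℂ, 1 / 2 < w.re → DifferentiableAt ℂ G w := fun w hw =>
    (hasDerivAt_hh 0 (nonpole_of_re (by linarith))).differentiableAt.sub
      (hasDerivAt_tsum_tm 0 hw).differentiableAt
  have dE : Differentiable ℂ E := fun w => by
    have h1 : 1 / 2 < (w + (3 - ⌊w.re⌋ : ℤ)).re := by linarith [(r1 w).1]
    have h2 : E =ᶠ[𝓝 w] fun v => G (v + (3 - ⌊w.re⌋ : ℤ)) :=
      ((continuous_re.comp (continuous_add_const _)).continuousAt.eventually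
        (lt_mem_nhds h1)).mono fun v hv => e1 _ v hv
    exact ((dG _ h1).hasDerivAt.comp_add_const w _).differentiableAt.congr_of_eventuallyEq h2
  obtain ⟨C, C0, hC⟩ := PS_bound 1
  have hb : ∀ w, ‖E w‖ ≤ (6 ^ ⌈C⌉₊ + 2) * (‖w‖ + 1) ^ ⌈C⌉₊ := fun w => by
    set v := w + (3 - ⌊w.re⌋ : ℤ) with hv
    have h1 := hC true v (Or.inl (by rw [sg, if_pos rfl, one_mul]; exact (r1 w).1))
    have h2 := norm_tsum_tm_le (z := v) le_rfl (by linarith [(r1 w).1])
    have h3 : ‖v‖ + 2 ≤ 6 * (‖w‖ + 1) := by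
      have a := norm_le_abs_re_add_abs_im v
      have b : v.im = w.im := by simp [hv]
      rw [b, abs_of_pos (by linarith [(r1 w).1])] at a
      linarith [(r1 w).2, abs_im_le_norm w, norm_nonneg w]
    have h4 : Real.exp (C * Real.log (‖v‖ + 2)) ≤ 6 ^ ⌈C⌉₊ * (‖w‖ + 1) ^ ⌈C⌉₊ := by
      rw [← mul_pow]
      calc Real.exp (C * Real.log (‖v‖ + 2)) ≤ Real.exp (⌈C⌉₊ * Real.log (‖v‖ + 2)) := by
            gcongr
            · exact Real.log_nonneg (by linarith [norm_nonneg v])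
            · exact Nat.le_ceil C
        _ = (‖v‖ + 2) ^ ⌈C⌉₊ := by rw [Real.exp_nat_mul, Real.exp_log (by positivity)]
        _ ≤ _ := by gcongr
    have h5 : 1 ≤ (‖w‖ + 1) ^ ⌈C⌉₊ := one_le_pow₀ (by linarith [norm_nonneg w])
    have h6 := norm_sub_le (hh 0 v) (∑' k : ℕ, tm 0 (v + k))
    change ‖hh 0 v - ∑' k : ℕ, tm 0 (v + k)‖ ≤ _
    have h7 : ‖hh 0 v‖ ≤ _ := h1.trans h4
    nlinarith
  have hc : ∀ w : ℂ, 1 / 2 < w.re → G w = E 0 := fun w hw => by
    rw [const_of_periodic dE (fun z => ?_) hb 0 w, e1 0 w (by simpa using hw)]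
    · simp
    · rw [e1 (3 - ⌊z.re⌋ - 1) (z + 1), hE]
      · congr 1; push_cast; ring
      · have := (r1 z).1
        simp only [add_re, intCast_re, one_re] at this ⊢
        push_cast at this ⊢
        linarith
  have h0 : E 0 = 0 := by
    have h1 : ∀ᶠ x : ℝ in atTop, ‖E 0‖ ≤ 3 * x⁻¹ := by
      filter_upwards [eventually_ge_atTop 1] with x hx
      have hs : ∀ w ∈ {w : ℂ | x ≤ w.re}, HasDerivWithinAt (fun w => PS true 0 w - E 0 * w)
          (∑' k : ℕ, tm 0 (w + k)) {w : ℂ | x ≤ w.re} w := fun w hw => by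
        have hw' : x ≤ w.re := hw
        have := (hasDerivAt_PS true 0 (z := w) (nonpole_of_re (z := w) (by linarith))).sub
          ((hasDerivAt_id w).const_mul (E 0))
        rw [← hc w (by linarith)] at this ⊢
        convert! this.hasDerivWithinAt using 1
        simp [hG, hh]
      have h2 := Convex.norm_image_sub_le_of_norm_hasDerivWithin_le (𝕜 := ℂ) hs
        (fun w hw => norm_tsum_tm_le hx hw) (convex_halfSpace_re_ge x) (x := x) (y := x + 1)
        (by simp) (by simp)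
      have h3 : PS true 0 (x + 1) = PS true 0 x + (x : ℂ)⁻¹ := by
        simp [PS, ar, digamma_apply_add_one x (nonpole_of_re (by simp; linarith))]
      rw [h3] at h2
      have h4 : E 0 = (x : ℂ)⁻¹ - (PS true 0 x + (x : ℂ)⁻¹ - E 0 * (x + 1) - (PS true 0 x - E 0 * x)) := by
        ring
      rw [h4]
      refine (norm_sub_le _ _).trans ?_
      rw [norm_inv, Complex.norm_real, Real.norm_of_nonneg (by linarith)]
      simp only [add_sub_cancel_left, norm_one, mul_one, div_eq_mul_inv] at h2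
      linarith
    have h2 := (tendsto_inv_atTop_zero (𝕜 := ℝ)).const_mul 3
    rw [mul_zero] at h2
    exact norm_le_zero_iff.1 (ge_of_tendsto h2 h1)
  exact sub_eq_zero.1 ((hc z hz).trans h0)

lemma hh_eq (l : ℕ) {z : ℂ} (hz : 1 / 2 < z.re) : hh l z = ∑' k : ℕ, tm l (z + k) := by
  induction l generalizing z with
  | zero => exact hh_zero_eq hz
  | succ l ih =>
    exact (hasDerivAt_hh l (nonpole_of_re (by linarith))).unique
      ((hasDerivAt_tsum_tm l hz).congr_of_eventuallyEq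
        (eventually_of_mem ((isOpen_HP _).mem_nhds hz) fun w hw => ih hw))

lemma norm_hh_le (l : ℕ) {z : ℂ} (hz : 1 / 2 < z.re) :
    ‖hh l z‖ ≤ (l + 1).factorial / (1 / 2) ^ (l + 2) * 2 := by
  rw [hh_eq l hz]
  refine (tsum_of_norm_bounded ((sum_inv_sq le_rfl).1.hasSum.mul_left _) (norm_tm_half l hz)).trans ?_
  gcongr
  simpa using (sum_inv_sq le_rfl).2

lemma norm_hh_zero_le {z : ℂ} {R : ℝ} (hR : 1 ≤ R) (hz : R ≤ z.re) : ‖hh 0 z‖ ≤ 2 / R := by
  rw [hh_eq 0 (by linarith)]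
  exact norm_tsum_tm_le hR hz

lemma hh_mul (l : ℕ) {n : ℕ} (hn : n ≠ 0) {y : ℂ} (hy : 1 / 2 < y.re) {b : ℝ} (hb : 0 ≤ b) :
    (n : ℂ) ^ (l + 2) * hh l (n * y + b) = ∑ r : Fin n, hh l (y + (b + r) / n) := by
  have : NeZero n := ⟨hn⟩
  have n1 : (1 : ℝ) ≤ n := by exact_mod_cast Nat.one_le_iff_ne_zero.2 hn
  have n0 : (n : ℂ) ≠ 0 := by exact_mod_cast hn
  have h1 : 1 / 2 < (n * y + b : ℂ).re := by simp; nlinarith
  have h2 : ∀ r : Fin n, 1 / 2 < (y + (b + r) / n : ℂ).re := fun r => by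
    have : ((b + r) / n : ℂ) = (((b + r) / n : ℝ) : ℂ) := by push_cast; rfl
    rw [this, add_re, ofReal_re]
    have : 0 ≤ (b + r) / n := by positivity
    linarith
  have h3 := ((summable_tm l h1).hasSum.mul_left ((n : ℂ) ^ (l + 2)))
  rw [← hh_eq l h1, ← (Nat.divModEquiv n).symm.hasSum_iff] at h3
  have h4 := hasSum_sum (s := Finset.univ) fun (r : Fin n) _ => (summable_tm l (h2 r)).hasSum
  simp only [← hh_eq l (h2 _)] at h4
  refine (h3.prod_fiberwise fun q => ?_).unique h4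
  convert! hasSum_fintype _ using 2 with r
  simp only [Function.comp_apply, Nat.divModEquiv_symm_apply, tm]
  have : (n * y + b + ((q * n + r : ℕ) : ℂ)) = n * (y + (b + r) / n + q) := by
    push_cast; field_simp; ring
  rw [this, mul_pow, mul_inv]
  field_simp

end Pool.Agent.P.MP_26ad15_nt
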