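import Pool.Agent.P.MP_26ad15_nt.ASForm

/-! Truncated formal points over a ring with a distinguished small element. -/

namespace Pool.Agent.P.MP_26ad15_nt

open Finset MvPolynomial

variable {ι K S : Type*} [CommRing S] [Algebra ℂ S]

/-- Taylor coefficients. -/
noncomputable def cfn (c : Gen ι K → S) (G : Gen ι K) (m : ℕ) : S :=
  algebraMap ℂ S (m.factorial : ℂ)⁻¹ * c (G.1, G.2.1, G.2.2 + m)

lemma cfn_nx (c : Gen ι K → S) (G : Gen ι K) (m : ℕ) :
    cfn c (nx G) m = (m + 1) * cfn c G (m + 1) := by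
  have : (m.factorial : ℂ)⁻¹ = (m + 1) * ((m + 1).factorial : ℂ)⁻¹ := by
    have : (m + 1 : ℂ) ≠ 0 := by exact_mod_cast Nat.succ_ne_zero m
    rw [Nat.factorial_succ]; push_cast; field_simp
  simp only [cfn, nx, this, map_mul, map_add, map_natCast, map_one, add_assoc, add_comm 1 m, mul_assoc]

/-- The truncated formal point. -/
noncomputable def FPn (N : ℕ) (c : Gen ι K → S) (y : ι → S) : MvPolynomial (Gen ι K) ℂ →ₐ[ℂ] S :=
  aeval fun G => ∑ m ∈ range (N + 1), cfn c G m * y G.1 ^ m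

variable {N : ℕ} {c : Gen ι K → S} {x y y' : ι → S} {t : S}

lemma FPn_X (G : Gen ι K) : FPn N c y (X G) = ∑ m ∈ range (N + 1), cfn c G m * y G.1 ^ m :=
  aeval_X _ _

lemma FPn_zero : FPn N c 0 = aeval c := by
  ext G
  simp [FPn_X, sum_range_succ', cfn]

lemma FPn_map {S' : Type*} [CommRing S'] [Algebra ℂ S'] (φ : S →ₐ[ℂ] S')
    (g : MvPolynomial (Gen ι K) ℂ) :
    φ (FPn N c y g) = FPn N (fun G => φ (c G)) (fun j => φ (y j)) g := by
  rw [← AlgHom.comp_apply]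
  congr 1
  ext G
  simp [FPn_X, cfn]

/-- Multiples of a power of `t`, truncated at `N`. -/
def PT (t : S) (N a : ℕ) : AddSubgroup S where
  carrier := {f | t ^ min a N ∣ f}
  add_mem' := dvd_add
  zero_mem' := dvd_zero _
  neg_mem' := fun h => (dvd_neg.2 h :)

omit [Algebra ℂ S] in
lemma mem_PT {a : ℕ} {f : S} : f ∈ PT t N a ↔ t ^ min a N ∣ f := Iff.rfl

omit [Algebra ℂ S] in
lemma PT_mul {a b : ℕ} {x y : S} (hx : x ∈ PT t N a) (hy : y ∈ PT t N b) :
    x * y ∈ PT t N (a + b) :=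
  (pow_dvd_pow _ (by omega)).trans ((pow_add t _ _).symm ▸ mul_dvd_mul hx hy)

omit [Algebra ℂ S] in
lemma mem_PT_zero (f : S) : f ∈ PT t N 0 := by simp [mem_PT]

lemma dvd_sub_of_gen {σ : Type*} {Ψ Ψ' : MvPolynomial σ ℂ →ₐ[ℂ] S}
    (h : ∀ G, t ∣ Ψ (X G) - Ψ' (X G)) (g : MvPolynomial σ ℂ) : t ∣ Ψ g - Ψ' g := by
  simpa [mem_PT] using filt_sub (V := PT t 1) (Ψ := Ψ) (Ψ' := Ψ') PT_mul (fun _ => mem_PT_zero _)
    (fun _ => mem_PT_zero _) (a := 1) (fun G => by simpa [mem_PT] using h G) g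

lemma FPn_congr (h : ∀ j, t ∣ y j - y' j) (g : MvPolynomial (Gen ι K) ℂ) :
    t ∣ FPn N c y g - FPn N c y' g := by
  refine dvd_sub_of_gen (fun G => ?_) g
  rw [FPn_X, FPn_X, ← sum_sub_distrib]
  exact dvd_sum fun m _ => mul_sub (cfn c G m) _ _ ▸
    ((h _).trans (sub_dvd_pow_sub_pow _ _ _)).mul_left _

lemma FPn_first_X (hx : ∀ j, t ∣ x j) {a b : ℕ} (h1 : ∀ j, t ^ a ∣ y j - x j)
    (h2 : ∀ j, t ^ a ∣ y' j - x j) (h3 : ∀ j, t ^ b ∣ y j - y' j) (G : Gen ι K) :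
    t ^ min (a + b) N ∣ FPn N c y (X G) - FPn N c y' (X G) -
      FPn N c x (X (nx G)) * (y G.1 - y' G.1) := by
  have e4 : t ^ (a + b) ∣ ∑ m ∈ range N, cfn c G (m + 1) * (y G.1 ^ (m + 1) - y' G.1 ^ (m + 1) -
      ((m : S) + 1) * x G.1 ^ m * (y G.1 - y' G.1)) :=
    dvd_sum fun m _ => Dvd.dvd.mul_left (pow_add t a b ▸ pow_first (h1 _) (h2 _) (h3 _) m) _
  have e5 : t ^ N ∣ cfn c (nx G) N * x G.1 ^ N * (y G.1 - y' G.1) :=
    ((pow_dvd_pow_of_dvd (hx _) N).mul_left _).mul_right _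
  convert! ((pow_dvd_pow _ (min_le_left _ N)).trans e4).sub
    ((pow_dvd_pow _ (min_le_right (a + b) N)).trans e5) using 1
  rw [FPn_X, FPn_X, FPn_X, sum_range_succ', sum_range_succ', sum_range_succ, add_mul, sum_mul]
  simp only [cfn_nx c G, show (nx G).1 = G.1 from rfl, mul_sub, sum_sub_distrib, mul_assoc,
    mul_left_comm (cfn c G _)]
  ring

lemma FPn_deriv_X (hy : ∀ j, t ∣ y j) (D : S →+ S) (hD : ∀ a b, D (a * b) = a * D b + b * D a)
    (G : Gen ι K) : t ^ N ∣ D (FPn N c y (X G)) - FPn N c y (X (nx G)) * D (y G.1) -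
      ∑ m ∈ range (N + 1), y G.1 ^ m * D (cfn c G m) := by
  have h1 : D 1 = 0 := by simpa using hD 1 1
  have hp : ∀ m : ℕ, D (y G.1 ^ (m + 1)) = (m + 1) * y G.1 ^ m * D (y G.1) := fun m => by
    induction m with
    | zero => simp
    | succ m ih => rw [pow_succ, hD, ih]; push_cast; ring
  convert! (((pow_dvd_pow_of_dvd (hy G.1) N).mul_left (cfn c (nx G) N)).mul_right
    (D (y G.1))).neg_right using 1
  rw [FPn_X, FPn_X, map_sum]
  simp only [hD, sum_add_distrib]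
  rw [sum_range_succ', sum_range_succ (fun m => cfn c (nx G) m * _), add_mul, sum_mul]
  simp only [hp, pow_zero, h1, cfn_nx c G, show (nx G).1 = G.1 from rfl, mul_assoc,
    mul_left_comm (cfn c G _)]
  ring

variable [DecidableEq ι] [Fintype ι]

lemma FPn_first (hx : ∀ j, t ∣ x j) {a b : ℕ} (h1 : ∀ j, t ^ a ∣ y j - x j)
    (h2 : ∀ j, t ^ a ∣ y' j - x j) (h3 : ∀ j, t ^ b ∣ y j - y' j) (g : MvPolynomial (Gen ι K) ℂ) :
    t ^ min (a + b) N ∣ FPn N c y g - FPn N c y' g - ∑ j, FPn N c x (dd j g) * (y j - y' j) :=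
  mem_PT.1 (first_order (V := PT t N) (Ψ := FPn N c y) (Ψ' := FPn N c y') (Ψ₀ := FPn N c x)
    (ε := fun j => y j - y' j) PT_mul (fun _ => mem_PT_zero _) (fun _ => mem_PT_zero _)
    (fun _ => mem_PT_zero _) (fun g => (pow_dvd_pow _ (min_le_left _ _)).trans (FPn_congr h1 g))
    (fun g => (pow_dvd_pow _ (min_le_left _ _)).trans (FPn_congr h2 g))
    (fun j => (pow_dvd_pow _ (min_le_left _ _)).trans (h3 j))
    (fun G => mem_PT.2 (FPn_first_X hx h1 h2 h3 G)) g)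

theorem hensel_n {f : ι → MvPolynomial (Gen ι K) ℂ} {u : S} (hu : t ∣ u * aeval c (Jm f).det - 1)
    {τ : ι → S} (hτ : ∀ i, t ∣ aeval c (f i) - τ i) :
    ∃ y : ι → S, (∀ j, t ∣ y j) ∧ ∀ i, t ^ N ∣ FPn N c y (f i) - τ i := by
  suffices h : ∀ k, ∃ y : ι → S, (∀ j, t ∣ y j) ∧ ∀ i, t ^ min (k + 1) N ∣ FPn N c y (f i) - τ i by
    simpa using h N
  intro k
  induction k with
  | zero =>
    refine ⟨0, fun _ => dvd_zero _, fun i => (pow_dvd_pow _ (min_le_left _ _)).trans ?_⟩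
    simpa [FPn_zero] using hτ i
  | succ k ih =>
    obtain ⟨y, h1, h2⟩ := ih
    by_cases hk : N ≤ k + 1
    · exact ⟨y, h1, fun i => (pow_dvd_pow _ (by omega)).trans (h2 i)⟩
    rw [min_eq_left (by omega)] at h2
    choose ρ hρ using h2
    set M := Matrix.of fun i j => FPn N c 0 (dd j (f i)) with hM
    have hd : M.det = aeval c (Jm f).det := by rw [← FPn_zero (N := N), AlgHom.map_det]; rfl
    set ε : ι → S := (t ^ (k + 1) * u) • M.adjugate.mulVec ρ with hε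
    have e1 : ∀ j, t ^ (k + 1) ∣ y j - ε j - y j := fun j => by simp [hε, mul_assoc]
    have e2 : ∀ j, t ∣ y j - ε j := fun j => by
      simpa only [sub_add_cancel] using ((dvd_pow_self t k.succ_ne_zero).trans (e1 j)).add (h1 j)
    refine ⟨fun j => y j - ε j, e2, fun i => ?_⟩
    have e3 := FPn_first (N := N) (c := c) (x := 0) (a := 1) (fun _ => dvd_zero t)
      (by simpa using e2) (by simpa using h1) e1 (f i)
    have e4 : M.mulVec ε i = t ^ (k + 1) * u * (aeval c (Jm f).det * ρ i) := by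
      rw [hε, Matrix.mulVec_smul, Matrix.mulVec_mulVec, Matrix.mul_adjugate, Matrix.smul_mulVec,
        Matrix.one_mulVec, hd]
      rfl
    have e5 : t ^ (k + 1 + 1) ∣ t ^ (k + 1) * ((u * aeval c (Jm f).det - 1) * ρ i) :=
      pow_succ t (k + 1) ▸ mul_dvd_mul_left _ (hu.mul_right _)
    simp only [Matrix.mulVec, dotProduct, hM, Matrix.of_apply] at e4
    simp only [sub_sub_cancel_left, mul_neg, sum_neg_distrib, e4, add_comm 1] at e3
    convert! e3.sub ((pow_dvd_pow _ (min_le_left _ N)).trans e5) using 1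
    linear_combination hρ i

end Pool.Agent.P.MP_26ad15_nt
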