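import Pool.Agent.P.MP_26ad15_nt.ASDefs
import Pool.Agent.P.MP_26ad15_nt.ASAux

/-! Actual solutions attached to an isolated formal curve, and smallness of its relations. -/

namespace Pool.Agent.P.MP_26ad15_nt

open Complex Set Filter Topology Asymptotics Metric

/-- The filter of points of a moving set. -/
def lW {α β : Type*} (l : Filter α) (W : α → Set β) : Filter (α × β) :=
  l.comap Prod.fst ⊓ 𝓟 {q | q.2 ∈ W q.1}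

lemma eventually_lW {α β : Type*} {l : Filter α} {W : α → Set β} {P : α × β → Prop} :
    (∀ᶠ q in lW l W, P q) ↔ ∀ᶠ a in l, ∀ τ ∈ W a, P (a, τ) := by
  rw [lW, eventually_inf_principal, eventually_comap]
  refine eventually_congr (Eventually.of_forall fun a => ⟨fun h τ hτ => h (a, τ) rfl hτ, ?_⟩)
  rintro h ⟨_, τ⟩ rfl hτ
  exact h τ hτ

variable {ι : Type} [Fintype ι] [DecidableEq ι] {p : ι → Polynomial ℂ} {cc : ι → ℂ}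
  {x : ι → PowerSeries ℂ} {f : ι → MvPolynomial (Gen ι KK) ℂ} {ν : ℕ} {u : PowerSeries ℂ} {γ : ℝ}

variable (x f ν) in
/-- Newton conditions at the truncated curve. -/
def NokP (A : ℝ) (e : ι → KK → ℂ → ℂ) (s : ℂ) : Prop :=
  NOK f (A / ‖s‖ ^ ν) (‖s‖ ^ (ν + 1)) e (tr (2 * ν + 2) x s)

variable (x f ν) in
/-- Solutions near the truncated curve. -/
def SolP (e : ι → KK → ℂ → ℂ) (s : ℂ) (y : ι → ℂ) : Prop :=
  Sol f (‖s‖ ^ (ν + 1)) e (tr (2 * ν + 2) x s) y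

lemma Iso.nok (H : Iso p cc x f ν u) (hγ : 0 < γ) (hγ' : γ ≤ 1 / 2) {α : Type*} {l : Filter α}
    {σ : α → ℂ} (hσ : Tendsto σ l (𝓝[≠] 0)) {ϕ : α → ι → ℂ → ℂ}
    (h : ∀ᶠ a in l, Adm γ p (2 * ν + 2) (ϕ a) (σ a)) :
    ∃ A, 0 ≤ A ∧ ∀ᶠ a in l, NokP x f ν A (dat p cc (ϕ a) (σ a)) (σ a) :=
  (Adm.good hγ hγ' H.fin hσ h).nok (hσ.mono_right nhdsWithin_le_nhds)
    (hσ.eventually self_mem_nhdsWithin) H.dvd H.zero H.det H.unit le_rfl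

theorem fam_sol (H : Iso p cc x f ν u) (hγ : 0 < γ) (hγ' : γ ≤ 1 / 2) {α : Type*} {l : Filter α}
    {W : α → Set ℂ} (hW : ∀ a, IsOpen (W a)) {σ : ℂ → ℂ} (hd : ∀ a, DifferentiableOn ℂ σ (W a))
    (hσ : Tendsto (fun q => σ q.2) (lW l W) (𝓝[≠] 0)) {ϕ : α → ι → ℂ → ℂ}
    (h : ∀ᶠ a in l, ∀ τ ∈ W a, Adm γ p (2 * ν + 2) (ϕ a) (σ τ)) :
    ∃ A, 0 ≤ A ∧ ∃ ξ : α → ℂ → ι → ℂ, ∀ᶠ a in l, DifferentiableOn ℂ (ξ a) (W a) ∧ ∀ τ ∈ W a,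
      NokP x f ν A (dat p cc (ϕ a) (σ τ)) (σ τ) ∧
        SolP x f ν (dat p cc (ϕ a) (σ τ)) (σ τ) (ξ a τ) := by
  obtain ⟨A, A0, hA⟩ := H.nok hγ hγ' hσ (ϕ := fun q => ϕ q.1) (eventually_lW.2 h)
  refine ⟨A, A0, (Filter.skolem (P := fun a (ξ : ℂ → ι → ℂ) => DifferentiableOn ℂ ξ (W a) ∧
    ∀ τ ∈ W a, NokP x f ν A (dat p cc (ϕ a) (σ τ)) (σ τ) ∧
      SolP x f ν (dat p cc (ϕ a) (σ τ)) (σ τ) (ξ τ))).1 ?_⟩
  filter_upwards [eventually_lW.1 hA, h, eventually_lW.1 (hσ.eventually self_mem_nhdsWithin)]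
    with a h1 h2 h3
  obtain ⟨ξ, hξ, hs⟩ := exists_sol (hW a) (A := fun τ => A / ‖σ τ‖ ^ ν)
    (ϱ := fun τ => ‖σ τ‖ ^ (ν + 1)) (d := fun τ => dat p cc (ϕ a) (σ τ))
    (ξ₀ := fun τ => tr (2 * ν + 2) x (σ τ)) h1
    (differentiableOn_pi.2 fun j => (PowerSeries.trunc (2 * ν + 2) (x j)).differentiable.comp_differentiableOn
      (hd a))
    fun ξ hξ hb G => Adm.hol H.fin (hd a) h3 h2 hξ hb G
  exact ⟨ξ, hξ, fun τ hτ => ⟨h1 τ hτ, hs τ hτ⟩⟩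

omit [DecidableEq ι] in
lemma Adm.bdD' {α : Type*} {l : Filter α} (hp : FinOK p) {σ : α → ℂ} (hσ : ∀ᶠ a in l, ‖σ a‖ ≤ 1)
    {ϕ : α → ι → ℂ → ℂ} {N : α → ℕ} (h : ∀ᶠ a in l, Adm γ p (N a) (ϕ a) (σ a)) :
    BdD l fun a => dat p cc (ϕ a) (σ a) := by
  obtain ⟨c, hc⟩ := (Set.finite_range fun j => ‖cc j‖).bddAbove
  refine ⟨CA γ + Real.exp c, ?_⟩
  filter_upwards [h, hσ] with a h1 h2 using h1.bdd hp (fun j => hc ⟨j, rfl⟩) h2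

omit [DecidableEq ι] in
theorem fam_bdd (hp : FinOK p) {α : Type*} {l : Filter α} {W : α → Set ℂ} {σ : ℂ → ℂ}
    (hd : ∀ a, DifferentiableOn ℂ σ (W a)) (hσ : ∀ᶠ a in l, ∀ τ ∈ W a, σ τ ≠ 0 ∧ ‖σ τ‖ ≤ 1)
    {ϕ : α → ι → ℂ → ℂ} {N : ℕ} (h : ∀ᶠ a in l, ∀ τ ∈ W a, Adm γ p N (ϕ a) (σ τ))
    {ξ : α → ℂ → ι → ℂ} (hξ : ∀ᶠ a in l, DifferentiableOn ℂ (ξ a) (W a) ∧ ∀ τ ∈ W a, ‖ξ a τ‖ ≤ 1 / 4)
    (g : MvPolynomial (Gen ι KK) ℂ) : ∃ C, ∀ᶠ a in l,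
      DifferentiableOn ℂ (fun τ => Ev ℂ (dat p cc (ϕ a) (σ τ)) (ξ a τ) g) (W a) ∧
      ∀ τ ∈ W a, ‖Ev ℂ (dat p cc (ϕ a) (σ τ)) (ξ a τ) g‖ ≤ C := by
  have b1 : BdD (lW l W) fun q => dat p cc (ϕ q.1) (σ q.2) := Adm.bdD' hp (N := fun _ => N)
    (eventually_lW.2 (hσ.mono fun a h τ hτ => (h τ hτ).2)) (eventually_lW.2 h)
  have b2 : ∀ᶠ q in lW l W, ‖ξ q.1 q.2‖ ≤ 1 / 4 := eventually_lW.2 (hξ.mono fun a h => h.2)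
  obtain ⟨C, hC⟩ := (Ev_isBigO_one b1 b2 g).bound
  refine ⟨C, ?_⟩
  filter_upwards [eventually_lW.1 hC, hσ, h, hξ] with a h1 h2 h3 h4
  exact ⟨differentiableOn_Ev (Adm.hol hp (hd a) (fun τ hτ => (h2 τ hτ).1) h3 h4.1 h4.2) g,
    fun τ hτ => by simpa [EvF_apply] using h1 τ hτ⟩

lemma disc_asy (H : Iso p cc x f ν u) (hγ : 0 < γ) (hγ' : γ ≤ 1 / 2) {R A : ℝ} (hR : 0 < R)
    {ϕ : ι → ℂ → ℂ} {ξ : ℂ → ι → ℂ} (h1 : ∀ s ∈ ball (0 : ℂ) R \ {0},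
      NokP x f ν A (dat p cc ϕ s) s ∧ SolP x f ν (dat p cc ϕ s) s (ξ s)) {N : ℕ}
    (h2 : ∀ s ∈ ball (0 : ℂ) R \ {0}, Adm γ p (N + ν) ϕ s) (hN : ν + 2 ≤ N) :
    (∀ j, AsyN (𝓝[≠] 0) id N (fun s => ξ s j) (x j)) ∧ ∀ g, FP (cx p cc) x g = 0 →
      (fun s => Ev ℂ (dat p cc ϕ s) (ξ s) g) =O[𝓝[≠] 0] fun s => s ^ N := by
  have hb : ball (0 : ℂ) R \ {0} ∈ 𝓝[≠] (0 : ℂ) :=
    sdiff_mem_nhdsWithin_compl (ball_mem_nhds _ hR) _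
  have t0 : Tendsto id (𝓝[≠] (0 : ℂ)) (𝓝 0) := tendsto_id.mono_left nhdsWithin_le_nhds
  have hG : Good' (𝓝[≠] 0) id (fun s => dat p cc ϕ s) (cx p cc) (N + ν) :=
    Adm.good hγ hγ' H.fin tendsto_id (ϕ := fun _ => ϕ) (mem_of_superset hb h2)
  have ha := sol_asy hG t0 self_mem_nhdsWithin H.dvd H.zero (M := 2 * ν + 2) (by omega) (by omega)
    (mem_of_superset hb fun s hs => (h1 s hs).1) (mem_of_superset hb fun s hs => (h1 s hs).2)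
  exact ⟨ha, fun g hg => ((hG.mono t0 (Nat.le_add_right _ _)).asyN t0 (by omega) H.dvd ha g).isBigO
    t0 (by simp [hg])⟩

lemma tendsto_lW {α : Type*} {l : Filter α} {W : α → Set ℂ} {σ : ℂ → ℂ} {r : α → ℝ}
    (hr : Tendsto r l (𝓝 0)) (h : ∀ a, ∀ τ ∈ W a, σ τ ≠ 0 ∧ ‖σ τ‖ ≤ r a) :
    Tendsto (fun q => σ q.2) (lW l W) (𝓝[≠] 0) :=
  tendsto_nhdsWithin_iff.2 ⟨squeeze_zero_norm' (eventually_lW.2 (.of_forall fun a τ hτ => (h a τ hτ).2))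
    (hr.comp (tendsto_comap.mono_left inf_le_left)),
    eventually_lW.2 (.of_forall fun a τ hτ => (h a τ hτ).1)⟩

lemma isOpen_disc (R : ℝ) : IsOpen (ball (0 : ℂ) R \ {0}) := isOpen_ball.sdiff isClosed_singleton

lemma tendsto_disc {α : Type*} {l : Filter α} {r : α → ℝ} (hr : Tendsto r l (𝓝 0)) :
    Tendsto (fun q => id q.2) (lW l fun a => ball (0 : ℂ) (r a) \ {0}) (𝓝[≠] 0) :=
  tendsto_lW hr fun _ _ hτ => ⟨hτ.2, (mem_ball_zero_iff.1 hτ.1).le⟩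

theorem fin_curve (H : Iso p cc x f ν u) (hfin : ∀ j, (p j).natDegree = 0) :
    ∃ R > 0, ∃ ξ : ℂ → ι → ℂ, DifferentiableOn ℂ ξ (ball 0 R \ {0}) ∧
    (∀ j N, AsyN (𝓝[≠] 0) id N (fun s => ξ s j) (x j)) ∧
    (∀ s ∈ ball (0 : ℂ) R \ {0}, ‖ξ s‖ ≤ 1 / 4) ∧
    ∀ g, FP (cx p cc) x g = 0 → ∀ s ∈ ball (0 : ℂ) R \ {0},
      Ev ℂ (dat p cc (fun _ => hh 0) s) (ξ s) g = 0 := by
  have t0 : Tendsto id (𝓝[≠] (0 : ℂ)) (𝓝 0) := tendsto_id.mono_left nhdsWithin_le_nhds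
  have hA : ∀ N s, Adm (1 / 2) p N (fun _ => hh 0) s := fun N s j =>
    ⟨fun _ => rfl, fun h => (h (hfin j)).elim⟩
  have tr : Tendsto (fun r : ℝ => r) (𝓝[>] 0) (𝓝 0) := tendsto_id.mono_left nhdsWithin_le_nhds
  obtain ⟨A, -, ξ, hξ⟩ := fam_sol H (γ := 1 / 2) (by norm_num) le_rfl (fun r => isOpen_disc r)
    (fun _ => differentiableOn_id) (tendsto_disc tr) (ϕ := fun _ _ => hh 0)
    (.of_forall fun _ _ _ => hA _ _)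
  obtain ⟨R, ⟨h1, h2⟩, R0, R1⟩ :=
    (hξ.and (eventually_mem_nhdsWithin.and (tr.eventually_le_const one_pos))).exists
  have h3 := fun N => disc_asy H (γ := 1 / 2) (by norm_num) le_rfl R0 h2 (N := N + (ν + 2))
    (fun s _ => hA _ s) (by omega)
  have h4 : ∀ s ∈ ball (0 : ℂ) R \ {0}, ‖ξ R s‖ ≤ 1 / 4 := fun s hs =>
    (h2 s hs).1.norm_le (h2 s hs).2.1
  refine ⟨R, R0, ξ R, h1, fun j N => ((h3 N).1 j).mono t0 (by omega), h4, fun g hg s hs => ?_⟩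
  obtain ⟨C, hC⟩ := fam_bdd (cc := cc) (γ := 1 / 2) H.fin (l := pure ()) (σ := id)
    (W := fun _ => ball 0 R \ {0}) (fun _ => differentiableOn_id)
    (fun s hs => ⟨hs.2, (mem_ball_zero_iff.1 hs.1).le.trans R1⟩) (ϕ := fun _ _ => hh 0) (N := 0)
    (fun s _ => hA _ s) (ξ := fun _ => ξ R) ⟨h1, h4⟩ g
  obtain ⟨R', r1, r2⟩ := exists_between (mem_ball_zero_iff.1 hs.1)
  have r0 := (norm_nonneg s).trans_lt r1
  refine norm_le_zero_iff.1 (ge_of_tendsto' (x := atTop) (f := fun N => C * (‖s‖ / R') ^ (N + (ν + 2))) ?_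
    fun N => schwarz r2 hC.1 hC.2 ((h3 N).2 g hg) hs.2 r1.le)
  simpa using ((tendsto_pow_atTop_nhds_zero_of_lt_one (by positivity)
    ((div_lt_one r0).2 r1)).comp (tendsto_add_atTop_nat (ν + 2))).const_mul C

theorem tr_sol (H : Iso p cc x f ν u) (hγ : 0 < γ) (hγ' : γ ≤ 1 / 2) {N : ℝ → ℕ}
    (hN : Tendsto N atTop atTop) {ϕ : ℝ → ι → ℂ → ℂ}
    (h : ∀ᶠ y in atTop, ∀ s ∈ ball (0 : ℂ) (2 * Real.exp (-y)) \ {0}, Adm γ p (N y) (ϕ y) s) :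
    ∃ ξ : ℝ → ℂ → ι → ℂ, (∀ᶠ y in atTop, ∀ s : ℂ, ‖s‖ = Real.exp (-y) →
      SolP x f ν (dat p cc (ϕ y) s) s (ξ y s)) ∧ ∀ g, FP (cx p cc) x g = 0 → ∃ C, ∀ᶠ y in atTop,
      ∀ s : ℂ, ‖s‖ = Real.exp (-y) →
        ‖Ev ℂ (dat p cc (ϕ y) s) (ξ y s) g‖ ≤ C * (2 / 3) ^ (N y - ν) := by
  have tr : Tendsto (fun y : ℝ => 2 * Real.exp (-y)) atTop (𝓝 0) := by
    simpa using Real.tendsto_exp_neg_atTop_nhds_zero.const_mul 2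
  have h' : ∀ᶠ y in atTop, ∀ s ∈ ball (0 : ℂ) (2 * Real.exp (-y)) \ {0},
      Adm γ p (2 * ν + 2) (ϕ y) s := by
    filter_upwards [h, hN.eventually_ge_atTop (2 * ν + 2)] with y h1 h2 s hs using (h1 s hs).mono h2
  have hm : ∀ (y : ℝ) (s : ℂ), ‖s‖ = Real.exp (-y) → s ∈ ball (0 : ℂ) (2 * Real.exp (-y)) \ {0} :=
    fun y s hs => ⟨by rw [mem_ball_zero_iff, hs]; linarith [Real.exp_pos (-y)],
      norm_pos_iff.1 (hs ▸ Real.exp_pos _)⟩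
  obtain ⟨A, -, ξ, hξ⟩ := fam_sol H hγ hγ' (fun y => isOpen_disc _)
    (fun _ => differentiableOn_id) (tendsto_disc tr) h'
  refine ⟨ξ, hξ.mono fun y h s hs => (h.2 s (hm y s hs)).2, fun g hg => ?_⟩
  obtain ⟨C, hC⟩ := fam_bdd (cc := cc) H.fin (σ := id) (fun _ => differentiableOn_id)
    ((tr.eventually_le_const one_pos).mono fun y h s hs =>
      ⟨hs.2, (mem_ball_zero_iff.1 hs.1).le.trans h⟩) h'
    (hξ.mono fun y h => ⟨h.1, fun s hs => (h.2 s hs).1.norm_le (h.2 s hs).2.1⟩) g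
  refine ⟨C, ?_⟩
  filter_upwards [hξ, hC, h, hN.eventually_ge_atTop (2 * ν + 2)] with y h1 h2 h3 h4 s hs
  have e0 := Real.exp_pos (-y)
  have := schwarz (R' := 3 / 2 * Real.exp (-y)) (by linarith) h2.1 h2.2
    ((disc_asy H hγ hγ' (by linarith) h1.2 (N := N y - ν) (fun s hs => (h3 s hs).mono (by omega))
      (by omega)).2 g hg) (hm y s hs).2 (by linarith)
  rwa [hs, show Real.exp (-y) / (3 / 2 * Real.exp (-y)) = 2 / 3 by field_simp] at this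

end Pool.Agent.P.MP_26ad15_nt
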