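import Mathlib

/-! Algebraic part: functional subalgebras and an Ostrowski-Kolchin type independence lemma. -/

namespace Pool.Agent.P.MP_26ad15_nt

open MvPolynomial

section Functional

variable {L : Type*} [Field L] [Algebra ℂ L]

/-- A subalgebra of `L × L` which is the graph of a map. -/
def Fn (T : Subalgebra ℂ (L × L)) : Prop := ∀ y : L, ((0 : L), y) ∈ T → y = 0

/-- Localisation of a subalgebra of `L × L`. -/
def locT (T : Subalgebra ℂ (L × L)) : Subalgebra ℂ (L × L) where
  carrier := {p | ∃ d ∈ T, d.1 ≠ 0 ∧ d.2 ≠ 0 ∧ p * d ∈ T}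
  mul_mem' := by
    rintro p q ⟨d, hd, d1, d2, hp⟩ ⟨e, he, e1, e2, hq⟩
    refine ⟨d * e, T.mul_mem hd he, mul_ne_zero d1 e1, mul_ne_zero d2 e2, ?_⟩
    have : p * q * (d * e) = (p * d) * (q * e) := by ring
    rw [this]
    exact T.mul_mem hp hq
  add_mem' := by
    rintro p q ⟨d, hd, d1, d2, hp⟩ ⟨e, he, e1, e2, hq⟩
    refine ⟨d * e, T.mul_mem hd he, mul_ne_zero d1 e1, mul_ne_zero d2 e2, ?_⟩
    have : (p + q) * (d * e) = (p * d) * e + (q * e) * d := by ring
    rw [this]
    exact T.add_mem (T.mul_mem hp he) (T.mul_mem hq hd)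
  algebraMap_mem' := fun r =>
    ⟨1, T.one_mem, one_ne_zero, one_ne_zero, by rw [mul_one]; exact T.algebraMap_mem r⟩

lemma mem_locT {T : Subalgebra ℂ (L × L)} {p : L × L} (hp : p ∈ T) : p ∈ locT T :=
  ⟨1, T.one_mem, one_ne_zero, one_ne_zero, by rwa [mul_one]⟩

lemma inv_mem_locT {T : Subalgebra ℂ (L × L)} {a b : L} (h : (a, b) ∈ locT T) (ha : a ≠ 0)
    (hb : b ≠ 0) : (a⁻¹, b⁻¹) ∈ locT T := by
  obtain ⟨d, hd, d1, d2, hp⟩ := h
  refine ⟨(a, b) * d, hp, mul_ne_zero ha d1, mul_ne_zero hb d2, ?_⟩
  have : ((a⁻¹, b⁻¹) : L × L) * ((a, b) * d) = d := by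
    ext <;> simp [ha, hb]
  rwa [this]

lemma Fn.locT {T : Subalgebra ℂ (L × L)} (h : Fn T) : Fn (locT T) := by
  rintro y ⟨d, -, -, d2, hp⟩
  have : ((0 : L), y) * d = (0, y * d.2) := by ext <;> simp
  rw [this] at hp
  exact (mul_eq_zero.1 (h _ hp)).resolve_right d2

/-- Composition of two relations. -/
def compT (T₁ T₂ : Subalgebra ℂ (L × L)) : Subalgebra ℂ (L × L) where
  carrier := {p | ∃ y, (p.1, y) ∈ T₁ ∧ (y, p.2) ∈ T₂}
  mul_mem' := by
    rintro p q ⟨y, h1, h2⟩ ⟨z, h3, h4⟩
    exact ⟨y * z, T₁.mul_mem h1 h3, T₂.mul_mem h2 h4⟩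
  add_mem' := by
    rintro p q ⟨y, h1, h2⟩ ⟨z, h3, h4⟩
    exact ⟨y + z, T₁.add_mem h1 h3, T₂.add_mem h2 h4⟩
  algebraMap_mem' := fun r => ⟨algebraMap ℂ L r, T₁.algebraMap_mem r, T₂.algebraMap_mem r⟩

lemma mem_compT {T₁ T₂ : Subalgebra ℂ (L × L)} {a b c : L} (h1 : (a, b) ∈ T₁) (h2 : (b, c) ∈ T₂) :
    (a, c) ∈ compT T₁ T₂ := ⟨b, h1, h2⟩

lemma Fn.compT {T₁ T₂ : Subalgebra ℂ (L × L)} (h1 : Fn T₁) (h2 : Fn T₂) : Fn (compT T₁ T₂) := by
  rintro y ⟨z, h3, h4⟩
  obtain rfl := h1 z h3
  exact h2 y h4

lemma Fn.aeval_eq_zero {T : Subalgebra ℂ (L × L)} (h : Fn T) {K : Type*} [Field K] [Algebra K L]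
    (hK : ∀ k : K, (algebraMap K L k, algebraMap K L k) ∈ T) {σ : Type*} {x x' : σ → L}
    (hx : ∀ s, (x s, x' s) ∈ T) (P : MvPolynomial σ K) (hP : aeval x P = 0) :
    aeval x' P = 0 := by
  have : (aeval x P, aeval x' P) ∈ T := by
    clear hP
    induction P using MvPolynomial.induction_on with
    | C a => simpa using hK a
    | add p q hp hq => simpa using T.add_mem hp hq
    | mul_X p s hp => simpa using T.mul_mem hp (hx s)
  rw [hP] at this
  exact h _ this

end Functional

section Independence

variable {K L : Type*} [Field K] [Field L] [Algebra K L] [CharZero K] {ι κ : Type*}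

/-- Translation of the variables. -/
noncomputable def trP (w : κ → K) : MvPolynomial κ K →ₐ[K] MvPolynomial κ K :=
  aeval fun j => X j + C (w j)

omit [CharZero K] in
lemma aeval_trP {A : Type*} [CommRing A] [Algebra K A] (y : κ → A) (w : κ → K)
    (P : MvPolynomial κ K) :
    aeval y (trP w P) = aeval (fun j => y j + algebraMap K A (w j)) P := by
  rw [trP, ← AlgHom.comp_apply, comp_aeval]
  simp

/-- The translations preserving all relations of `Ψ`. -/
def goodTr (Ψ : κ → L) : Submodule K (κ → K) where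
  carrier := {w | ∀ P : MvPolynomial κ K, aeval Ψ P = 0 →
    aeval (fun j => Ψ j + algebraMap K L (w j)) P = 0}
  zero_mem' := fun P hP => by simpa using hP
  add_mem' := by
    intro w w' hw hw' P hP
    have h1 := hw P hP
    rw [← aeval_trP] at h1
    have h2 := hw' _ h1
    rw [aeval_trP] at h2
    rw [← h2]
    congr 2
    funext j
    simp only [Pi.add_apply, map_add]
    ring
  smul_mem' := by
    intro t w hw P hP
    have : CharZero L := charZero_of_injective_algebraMap (algebraMap K L).injective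
    have hn : ∀ n : ℕ, aeval (fun j => Ψ j + algebraMap K L (w j) * (n : L)) P = 0 := by
      intro n
      induction n generalizing P with
      | zero => simpa using hP
      | succ n ih =>
        have h1 := hw P hP
        rw [← aeval_trP] at h1
        have h2 := ih _ h1
        rw [aeval_trP] at h2
        rw [← h2]
        congr 2
        funext j
        push_cast
        ring
    set q : Polynomial L := aeval (fun j => Polynomial.C (Ψ j) +
      Polynomial.C (algebraMap K L (w j)) * Polynomial.X) P with hq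
    have hev : ∀ a : L, q.eval a = aeval (fun j => Ψ j + algebraMap K L (w j) * a) P := by
      intro a
      have := congrArg (fun φ => φ P) (comp_aeval (R := K) (f := fun j => Polynomial.C (Ψ j) +
        Polynomial.C (algebraMap K L (w j)) * Polynomial.X)
        ((Polynomial.aeval (R := L) a).restrictScalars K))
      simpa using this
    have hq0 : q = 0 := by
      refine Polynomial.eq_zero_of_infinite_isRoot q ?_
      refine (Set.infinite_range_of_injective (f := fun n : ℕ => (n : L)) Nat.cast_injective).mono ?_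
      rintro _ ⟨n, rfl⟩
      simp only [Set.mem_ofPred_eq, Polynomial.IsRoot.def, hev, hn]
    have := hev (algebraMap K L t)
    rw [hq0, Polynomial.eval_zero] at this
    rw [this]
    congr 2
    funext j
    simp [mul_comm]

lemma indep_additive {Ψ : κ → L} {P : Type*} {v : P → κ → K}
    (hinv : ∀ ρ, v ρ ∈ goodTr (K := K) Ψ)
    (hv : ∀ (s : Finset κ) (l : κ → K), (∀ ρ, ∑ j ∈ s, l j * v ρ j = 0) → ∀ j ∈ s, l j = 0) :
    AlgebraicIndependent K Ψ := by
  classical
  rw [algebraicIndependent_iff]
  intro Q hQ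
  set s := Q.vars with hs
  let π : (κ → K) →ₗ[K] (s → K) := LinearMap.funLeft K K Subtype.val
  have htop : (goodTr (K := K) Ψ).map π = ⊤ := by
    by_contra hne
    obtain ⟨φ, φ0, hφ⟩ := Submodule.exists_le_ker_of_lt_top _ (lt_top_iff_ne_top.2 hne)
    let l : κ → K := fun j => if h : j ∈ s then φ (fun i => if (⟨j, h⟩ : s) = i then 1 else 0) else 0
    have hl : ∀ j ∈ s, l j = 0 := by
      refine hv s l fun ρ => ?_
      have h0 : φ (π (v ρ)) = 0 := hφ (Submodule.mem_map_of_mem (hinv ρ))
      rw [LinearMap.pi_apply_eq_sum_univ] at h0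
      rw [← Finset.sum_coe_sort s, ← h0]
      refine Finset.sum_congr rfl fun i _ => ?_
      simp [l, π, i.2, mul_comm]
    apply φ0
    refine LinearMap.ext fun x => ?_
    rw [LinearMap.pi_apply_eq_sum_univ]
    refine Finset.sum_eq_zero fun i _ => ?_
    have := hl i i.2
    simp only [l, i.2, dif_pos] at this
    simp [this]
  have hall : ∀ w : κ → K, aeval (fun j => Ψ j + algebraMap K L (w j)) Q = 0 := by
    intro w
    obtain ⟨w', hw', e⟩ : π w ∈ (goodTr (K := K) Ψ).map π := by rw [htop]; trivial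
    rw [← hw' Q hQ]
    refine eval₂Hom_congr' rfl (fun i hi _ => ?_) rfl
    have := congrFun e ⟨i, hi⟩
    simp only [π, LinearMap.funLeft_apply] at this
    rw [this]
  set Q' : MvPolynomial κ L := aeval (fun j => X j + C (Ψ j)) Q with hQ'
  have hev : ∀ y : κ → L, eval y Q' = aeval (fun j => Ψ j + y j) Q := by
    intro y
    have := congrArg (fun φ => φ Q) (comp_aeval (R := K)
      (f := fun j => (X j + C (Ψ j) : MvPolynomial κ L))
      ((aeval (R := L) y).restrictScalars K))
    rw [← aeval_eq_eval]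
    refine this.trans ?_
    simp [add_comm]
  have hQ'0 : Q' = 0 := by
    refine funext_set (fun _ => Set.range (algebraMap K L))
      (fun _ => Set.infinite_range_of_injective (algebraMap K L).injective) fun y hy => ?_
    choose w hw using fun j => hy j (Set.mem_univ j)
    obtain rfl : y = fun j => algebraMap K L (w j) := funext fun j => (hw j).symm
    rw [hev, hall, map_zero]
  refine MvPolynomial.funext fun w => ?_
  have := hev fun j => algebraMap K L (w j) - Ψ j
  rw [hQ'0, map_zero] at this
  simp only [add_sub_cancel] at this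
  apply (algebraMap K L).injective
  rw [map_zero, map_zero, this, ← aeval_eq_eval]
  exact (aeval_algebraMap_apply L w Q).symm

lemma eq_of_trP {v : κ → K} {A B : MvPolynomial κ K} (hA : A ≠ 0) (hB : B ≠ 0) {a b : K}
    (h : C a * trP v A * B = C b * trP v B * A) : a = b := by
  obtain ⟨y, hy⟩ : ∃ y : κ → K, eval y (A * B) ≠ 0 := by
    by_contra hc
    push Not at hc
    exact mul_ne_zero hA hB (MvPolynomial.funext fun y => by rw [hc, map_zero])
  rw [map_mul] at hy
  let φ : MvPolynomial κ K →ₐ[K] Polynomial K :=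
    aeval fun j => Polynomial.C (y j) + Polynomial.C (v j) * Polynomial.X
  have h0 : ∀ P, (φ P).eval 0 = eval y P := by
    intro P
    have := congrArg (fun ψ => ψ P) (comp_aeval (R := K) (f := fun j => Polynomial.C (y j) +
      Polynomial.C (v j) * Polynomial.X) (Polynomial.aeval (R := K) (0 : K)))
    simpa [aeval_eq_eval] using this
  have h1 : ∀ P, φ (trP v P) = Polynomial.taylor 1 (φ P) := by
    intro P
    have := congrArg (fun ψ => ψ P) (comp_aeval (R := K) (f := fun j => Polynomial.C (y j) +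
      Polynomial.C (v j) * Polynomial.X) (Polynomial.taylorAlgHom (1 : K)))
    simp only [AlgHom.comp_apply, Polynomial.taylorAlgHom_apply] at this
    rw [this, aeval_trP]
    congr 2
    funext j
    simp [Polynomial.taylor_mul]
    ring
  have hA' : φ A ≠ 0 := fun e => left_ne_zero_of_mul hy (by rw [← h0, e, Polynomial.eval_zero])
  have hB' : φ B ≠ 0 := fun e => right_ne_zero_of_mul hy (by rw [← h0, e, Polynomial.eval_zero])
  have := congrArg (fun P => (φ P).leadingCoeff) h
  simp only [map_mul, h1, Polynomial.leadingCoeff_mul, Polynomial.leadingCoeff_taylor, φ,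
    aeval_C, Polynomial.algebraMap_eq, Polynomial.leadingCoeff_C] at this
  have la := Polynomial.leadingCoeff_ne_zero.2 hA'
  have lb := Polynomial.leadingCoeff_ne_zero.2 hB'
  apply mul_right_cancel₀ (mul_ne_zero la lb)
  simp only [φ]
  linear_combination this

/-- Evaluation of a nested polynomial. -/
noncomputable def evN (x : ι → L) (y : κ → L) : MvPolynomial ι (MvPolynomial κ K) →+* L :=
  eval₂Hom (aeval y : MvPolynomial κ K →ₐ[K] L).toRingHom x

omit [CharZero K] in
lemma evN_sumAlgEquiv (x : ι → L) (y : κ → L) (P : MvPolynomial (ι ⊕ κ) K) :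
    evN x y (sumAlgEquiv K ι κ P) = aeval (Sum.elim x y) P := by
  induction P using MvPolynomial.induction_on with
  | C a => simp [evN]
  | add p q hp hq => simp only [map_add, hp, hq]
  | mul_X p s hp =>
    rw [map_mul, map_mul, map_mul, hp]
    rcases s with s | s <;> simp [evN]

omit [CharZero K] in
lemma evN_eq (x : ι → L) (y : κ → L) (Q : MvPolynomial ι (MvPolynomial κ K)) :
    evN x y Q = ∑ m ∈ Q.support, aeval y (Q.coeff m) * ∏ i ∈ m.support, x i ^ m i := by
  simp [evN, eval₂_eq]

theorem indep_of_invariance {W : ι → L} {Ψ : κ → L} {P : Type*} {u : P → ι → K} {v : P → κ → K}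
    (hW : ∀ i, W i ≠ 0)
    (hinv : ∀ ρ (Q : MvPolynomial (ι ⊕ κ) K), aeval (Sum.elim W Ψ) Q = 0 →
      aeval (Sum.elim (fun i => algebraMap K L (u ρ i) * W i)
        (fun j => Ψ j + algebraMap K L (v ρ j))) Q = 0)
    (hu : ∀ m m' : ι →₀ ℕ, (∀ ρ, ∏ i ∈ m.support, u ρ i ^ m i = ∏ i ∈ m'.support, u ρ i ^ m' i) →
      m = m')
    (hv : ∀ (s : Finset κ) (l : κ → K), (∀ ρ, ∑ j ∈ s, l j * v ρ j = 0) → ∀ j ∈ s, l j = 0) :
    AlgebraicIndependent K (Sum.elim W Ψ) := by
  classical
  have hinv' : ∀ ρ (Q : MvPolynomial ι (MvPolynomial κ K)), evN W Ψ Q = 0 →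
      evN (fun i => algebraMap K L (u ρ i) * W i) (fun j => Ψ j + algebraMap K L (v ρ j)) Q = 0 := by
    intro ρ Q hQ
    obtain ⟨Q, rfl⟩ := (sumAlgEquiv K ι κ).surjective Q
    rw [evN_sumAlgEquiv] at hQ ⊢
    exact hinv ρ Q hQ
  have hΨ : AlgebraicIndependent K Ψ := by
    refine indep_additive (v := v) (fun ρ A hA => ?_) hv
    simpa [evN] using hinv' ρ (C A) (by simpa [evN] using hA)
  have main : ∀ (N : ℕ) (Q : MvPolynomial ι (MvPolynomial κ K)), Q.support.card ≤ N →
      evN W Ψ Q = 0 → Q = 0 := by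
    intro N
    induction N with
    | zero => intro Q hQ _; simpa using hQ
    | succ N ih =>
      intro Q hc hQ
      by_contra hne
      obtain ⟨m₀, hm₀⟩ := support_nonempty.2 hne
      have hall : ∀ m ∈ Q.support, m = m₀ := by
        intro m hm
        refine hu m m₀ fun ρ => ?_
        set U : (ι →₀ ℕ) → K := fun m => ∏ i ∈ m.support, u ρ i ^ m i with hU
        set c : (ι →₀ ℕ) → MvPolynomial κ K := fun m =>
          C (U m) * trP (v ρ) (Q.coeff m) * Q.coeff m₀ -
            C (U m₀) * trP (v ρ) (Q.coeff m₀) * Q.coeff m with hc'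
        set Q' : MvPolynomial ι (MvPolynomial κ K) := ∑ m ∈ Q.support, monomial m (c m) with hQ'
        have hco : ∀ m, Q'.coeff m = if m ∈ Q.support then c m else 0 := by
          intro m
          simp [hQ', coeff_sum, coeff_monomial]
        have hsupp : Q'.support ⊆ Q.support.erase m₀ := by
          intro m hm
          rw [mem_support_iff, hco] at hm
          rw [Finset.mem_erase]
          refine ⟨?_, by_contra fun h => hm (if_neg h)⟩
          rintro rfl
          simp [hc'] at hm
        have hev : evN W Ψ Q' = 0 := by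
          have e1 := hinv' ρ Q hQ
          rw [evN_eq] at e1 hQ
          have : evN W Ψ Q' = aeval Ψ (Q.coeff m₀) * (∑ m ∈ Q.support,
              aeval (fun j => Ψ j + algebraMap K L (v ρ j)) (Q.coeff m) *
              ∏ i ∈ m.support, (algebraMap K L (u ρ i) * W i) ^ m i) -
              algebraMap K L (U m₀) * aeval (fun j => Ψ j + algebraMap K L (v ρ j)) (Q.coeff m₀) *
              ∑ m ∈ Q.support, aeval Ψ (Q.coeff m) * ∏ i ∈ m.support, W i ^ m i := by
            rw [hQ', map_sum, Finset.mul_sum, Finset.mul_sum, ← Finset.sum_sub_distrib]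
            refine Finset.sum_congr rfl fun m _ => ?_
            simp only [evN, coe_eval₂Hom, eval₂_monomial, hc', AlgHom.toRingHom_eq_coe,
              RingHom.coe_coe, map_sub, map_mul, aeval_C, aeval_trP, Finsupp.prod, mul_pow,
              Finset.prod_mul_distrib, hU, map_prod, map_pow]
            ring
          rw [this, e1, hQ]
          simp
        have hQ'0 : Q' = 0 := by
          refine ih Q' ?_ hev
          have := Finset.card_le_card hsupp
          rw [Finset.card_erase_of_mem hm₀] at this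
          omega
        have := hco m
        rw [hQ'0, if_pos hm, coeff_zero] at this
        exact eq_of_trP (mem_support_iff.1 hm) (mem_support_iff.1 hm₀) (sub_eq_zero.1 this.symm)
      have hs : Q.support = {m₀} := Finset.eq_singleton_iff_unique_mem.2 ⟨hm₀, hall⟩
      rw [evN_eq, hs, Finset.sum_singleton] at hQ
      rcases mul_eq_zero.1 hQ with h | h
      · exact mem_support_iff.1 hm₀ (hΨ.eq_zero_of_aeval_eq_zero _ h)
      · exact Finset.prod_ne_zero_iff.2 (fun i _ => pow_ne_zero _ (hW i)) h
  rw [algebraicIndependent_iff]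
  intro Q hQ
  rw [← evN_sumAlgEquiv] at hQ
  simpa using main _ _ le_rfl hQ

end Independence

end Pool.Agent.P.MP_26ad15_nt
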