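import Pool.Agent.P.MP_26ad15_nt.Top

/-! The core independence theorem at one level. -/

namespace Pool.Agent.P.MP_26ad15_nt

open Complex Set Filter Topology Asymptotics

section FieldLevel

variable {L L' : Type*} [Field L] [Algebra ℂ L] [Field L'] [Algebra ℂ L']

/-- Field version of `uu`. -/
noncomputable def uuL (e : Bool) (x : L) : L := if e then 1 - x else (1 - x)⁻¹

/-- Field version of `VV`. -/
noncomputable def VVL (e : Bool) (k : ℕ) (x : L) : L :=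
  algebraMap ℂ L (vc e k) * Polynomial.aeval x (EP k) / (1 - x) ^ (k + 1)

lemma map_uuL (f : L →ₐ[ℂ] L') (e : Bool) (x : L) : f (uuL e x) = uuL e (f x) := by
  cases e <;> simp [uuL]

lemma map_VVL (f : L →ₐ[ℂ] L') (e : Bool) (k : ℕ) (x : L) : f (VVL e k x) = VVL e k (f x) := by
  simp [VVL, Polynomial.aeval_algHom_apply]

lemma one_sub_mem {T : Subalgebra ℂ (L × L)} {x x' : L} (h : (x, x') ∈ T) :
    (1 - x, 1 - x') ∈ T := T.sub_mem T.one_mem h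

lemma uuL_mem {T : Subalgebra ℂ (L × L)} {x x' : L} (h : (x, x') ∈ locT T) (hx : 1 - x ≠ 0)
    (hx' : 1 - x' ≠ 0) (e : Bool) : (uuL e x, uuL e x') ∈ locT T := by
  cases e
  · exact inv_mem_locT (one_sub_mem h) hx hx'
  · exact one_sub_mem h

lemma aeval_pair_mem {T : Subalgebra ℂ (L × L)} {x x' : L} (h : (x, x') ∈ T) (p : Polynomial ℂ) :
    (Polynomial.aeval x p, Polynomial.aeval x' p) ∈ T := by
  induction p using Polynomial.induction_on with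
  | C a => simpa using T.algebraMap_mem a
  | add p q hp hq => simpa using T.add_mem hp hq
  | monomial n a hp =>
    have := T.mul_mem hp h
    simpa [pow_succ, mul_assoc] using this

lemma VVL_mem {T : Subalgebra ℂ (L × L)} {x x' : L} (h : (x, x') ∈ locT T) (hx : 1 - x ≠ 0)
    (hx' : 1 - x' ≠ 0) (e : Bool) (k : ℕ) : (VVL e k x, VVL e k x') ∈ locT T := by
  have h1 := (locT T).mul_mem ((locT T).mul_mem ((locT T).algebraMap_mem (vc e k))
    (aeval_pair_mem h (EP k))) ((locT T).pow_mem (inv_mem_locT (one_sub_mem h) hx hx') (k + 1))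
  simpa [VVL, div_eq_mul_inv] using h1

end FieldLevel

section Germ

variable {α : Type*} {𝒰 : Ultrafilter α}

lemma gm_polyeval (q : α → ℂ) (p : Polynomial ℂ) :
    gm 𝒰 (fun a => p.eval (q a)) = Polynomial.aeval (gm 𝒰 q) p := by
  rw [Polynomial.aeval_algHom_apply]
  congr 1
  funext a
  simp

lemma gm_one_sub (q : α → ℂ) : gm 𝒰 (fun a => 1 - q a) = 1 - gm 𝒰 q := by
  rw [← map_one (gm 𝒰), ← map_sub]; rfl

lemma gm_uu (e : Bool) (q : α → ℂ) : gm 𝒰 (fun a => uu e (q a)) = uuL e (gm 𝒰 q) := by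
  cases e
  · simp only [uu, uuL, Bool.false_eq_true, if_false, gm_fun_inv, gm_one_sub]
  · simp only [uu, uuL, if_true, gm_one_sub]

lemma gm_VV (e : Bool) (k : ℕ) (q : α → ℂ) :
    gm 𝒰 (fun a => VV e k (q a)) = VVL e k (gm 𝒰 q) := by
  rw [VVL, ← gm_polyeval, ← gm_one_sub, ← gm_const, ← map_mul, ← map_pow, ← gm_div]
  rfl

end Germ

/-- No two of the functions differ, after integer shifts, by a rational factor. -/
def H0 {ι α : Type*} (D : Set α) (F : ι → α → ℂ) : Prop :=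
  ∀ i j, i ≠ j → ∀ (a : ℚ) (m m' : ℤ), ¬ ∀ τ ∈ D, F i τ - m = a * (F j τ - m')

lemma exists_generic_point {ι : Type*} [Finite ι] {D : Set ℂ} (hD : IsPreconnected D)
    {F : ι → ℂ → ℂ} (hF : ∀ i, AnalyticOnNhd ℂ (F i) D) (hH : H0 D F) {τ₀ : ℂ} {V : Set ℂ}
    (hV : V ∈ 𝓝[≠] τ₀) (hVD : V ⊆ D) :
    ∃ τ ∈ V, ∀ i j, i ≠ j → ∀ (a : ℚ) (m m' : ℤ), F i τ - m ≠ a * (F j τ - m') := by
  have hc : ({τ₀} ∪ ⋃ t : {p : ι × ι // p.1 ≠ p.2} × ℚ × ℤ × ℤ,
      {τ ∈ D | F t.1.1.1 τ - t.2.2.1 - t.2.1 * (F t.1.1.2 τ - t.2.2.2) = 0}).Countable := by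
    refine (countable_singleton _).union (countable_iUnion fun t => countable_zeros hD ?_ ?_)
    · exact ((hF _).sub analyticOnNhd_const).sub
        (analyticOnNhd_const.mul ((hF _).sub analyticOnNhd_const))
    · intro h
      exact hH _ _ t.1.2 t.2.1 t.2.2.1 t.2.2.2 fun τ hτ => sub_eq_zero.1 (h τ hτ)
  obtain ⟨O, hO, hτO, hOV⟩ := mem_nhdsWithin.1 hV
  obtain ⟨τ, h1, h2⟩ := (hc.dense_compl ℂ).inter_open_nonempty O hO ⟨τ₀, hτO⟩
  simp only [mem_compl_iff, mem_union, mem_iUnion, not_or, not_exists] at h2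
  have hτV : τ ∈ V := hOV ⟨h1, h2.1⟩
  exact ⟨τ, hτV, fun i j hij a m m' h => h2.2 (⟨(i, j), hij⟩, a, m, m') ⟨hVD hτV, sub_eq_zero.2 h⟩⟩

lemma exists_rho {ι : Type*} [Finite ι] {z c : ι → ℂ} (hc : ∀ i, c i ≠ 0)
    (h : ∀ i j, i ≠ j → ∀ (a : ℚ) (m m' : ℤ), z i - m ≠ a * (z j - m')) (i₀ : ι) :
    ∃ ρ : ℂ, (∃ m : ℤ, z i₀ + c i₀ * ρ = m) ∧ ∀ j, j ≠ i₀ → ∀ m : ℤ, z j + c j * ρ ≠ m := by
  have hfin : (⋃ j : {j // j ≠ i₀},
      {k : ℤ | ∃ m : ℤ, z j + c j * ((k - z i₀) / c i₀) = m}).Finite := by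
    refine finite_iUnion fun j => Set.Subsingleton.finite ?_
    rintro k₁ ⟨m₁, h₁⟩ k₂ ⟨m₂, h₂⟩
    by_contra hne
    have hk : ((k₁ : ℂ) - k₂) ≠ 0 := sub_ne_zero.2 (by exact_mod_cast hne)
    apply h j i₀ j.2 (((m₁ - m₂ : ℤ) : ℚ) / ((k₁ - k₂ : ℤ) : ℚ)) m₁ k₁
    have := hc i₀
    push_cast
    rw [← h₁, ← h₂]
    field_simp
    ring
  obtain ⟨k, hk⟩ := hfin.exists_notMem
  simp only [mem_iUnion, not_exists] at hk
  refine ⟨(k - z i₀) / c i₀, ⟨k, ?_⟩, fun j hj m hm => hk ⟨j, hj⟩ ⟨m, hm⟩⟩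
  have := hc i₀
  field_simp
  ring

lemma prod_sep {ι : Type*} [Fintype ι] {D : Set ℂ} {τ₀ : ℂ} {𝒰 : Ultrafilter ℂ}
    (hD : IsPreconnected D) (h0 : τ₀ ∈ D) (hU : (𝒰 : Filter ℂ) ≤ 𝓝[≠] τ₀) {x : ι → ℂ → ℂ}
    (hx : ∀ i, AnalyticOnNhd ℂ (x i) D) {τ : ℂ} (hτ : τ ∈ D) {i₀ : ι} (h1 : x i₀ τ = 0)
    (h2 : ∀ j, j ≠ i₀ → x j τ ≠ 0) (h3 : gm 𝒰 (x i₀) ≠ 0) {n n' : ι → ℕ}
    (h : ∏ i, gm 𝒰 (x i) ^ n i = ∏ i, gm 𝒰 (x i) ^ n' i) : n i₀ = n' i₀ := by
  classical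
  wlog hlt : n i₀ < n' i₀ generalizing n n'
  · rcases (not_lt.1 hlt).lt_or_eq with h' | h'
    · exact (this h.symm h').symm
    · exact h'.symm
  exfalso
  obtain ⟨d, hd⟩ := Nat.exists_eq_add_of_lt hlt
  rw [← Finset.mul_prod_erase _ _ (Finset.mem_univ i₀),
    ← Finset.mul_prod_erase _ _ (Finset.mem_univ i₀), hd, add_assoc, pow_add, mul_assoc] at h
  have h4 := mul_left_cancel₀ (pow_ne_zero _ h3) h
  have han : AnalyticOnNhd ℂ (∏ i ∈ Finset.univ.erase i₀, x i ^ n i -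
      x i₀ ^ (d + 1) * ∏ i ∈ Finset.univ.erase i₀, x i ^ n' i) D := fun z hz =>
    (Finset.analyticAt_prod _ fun i _ => (hx i z hz).pow _).sub
      (((hx i₀ z hz).pow _).mul (Finset.analyticAt_prod _ fun i _ => (hx i z hz).pow _))
  have := eq_zero_of_gm_eq_zero hD h0 hU han.meromorphicOn (by
    simp only [map_sub, map_mul, map_prod, map_pow]
    exact sub_eq_zero.2 h4) hτ (han τ hτ).continuousAt
  simp only [Pi.sub_apply, Finset.prod_apply, Pi.pow_apply, Pi.mul_apply, h1, ne_eq,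
    Nat.add_eq_zero_iff, one_ne_zero, and_false, not_false_eq_true, zero_pow, zero_mul,
    sub_zero] at this
  exact Finset.prod_ne_zero_iff.2
    (fun i hi => pow_ne_zero _ (h2 i (Finset.ne_of_mem_erase hi))) this

lemma uuL_prod {L : Type*} [Field L] {ι : Type*} [Fintype ι] (e : ι → Bool) {q : ι → L}
    (hq : ∀ i, 1 - q i ≠ 0) {m m' : ι → ℕ}
    (h : ∏ i, uuL (e i) (q i) ^ m i = ∏ i, uuL (e i) (q i) ^ m' i) :
    ∏ i, (1 - q i) ^ (if e i then m i else m' i) = ∏ i, (1 - q i) ^ (if e i then m' i else m i) := by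
  have key : ∀ m m' : ι → ℕ, ∏ i, (1 - q i) ^ (if e i then m i else m' i) =
      (∏ i, uuL (e i) (q i) ^ m i) * ∏ i, (1 - q i) ^ (if e i then 0 else m i + m' i) := by
    intro m m'
    rw [← Finset.prod_mul_distrib]
    refine Finset.prod_congr rfl fun i _ => ?_
    have := hq i
    cases e i
    · simp [uuL, pow_add, this]
    · simp [uuL]
  rw [key m m', key m' m, h]
  simp only [add_comm]

lemma analyticAt_QQ (e : Bool) (z : ℂ) : AnalyticAt ℂ (QQ e) z := by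
  unfold QQ
  fun_prop

lemma analyticAt_VV (e : Bool) (k : ℕ) {x : ℂ} (hx : 1 - x ≠ 0) : AnalyticAt ℂ (VV e k) x :=
  (analyticAt_const.mul ((EP k).differentiable.analyticAt x)).div
    ((analyticAt_const.sub analyticAt_id).pow _) (pow_ne_zero _ hx)

lemma meromorphic_VV (e : Bool) (k : ℕ) : Meromorphic (VV e k) := fun x =>
  (analyticAt_const.mul ((EP k).differentiable.analyticAt x)).meromorphicAt.div
    ((analyticAt_const.sub analyticAt_id).pow _).meromorphicAt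

lemma sum_sep {ι : Type*} {D : Set ℂ} {τ₀ : ℂ} {𝒰 : Ultrafilter ℂ}
    (hD : IsPreconnected D) (h0 : τ₀ ∈ D) (hU : (𝒰 : Filter ℂ) ≤ 𝓝[≠] τ₀) (e : ι → Bool)
    {q : ι → ℂ → ℂ} (hq : ∀ i, AnalyticOnNhd ℂ (q i) D) {τ : ℂ} (hτ : τ ∈ D) {i₀ : ι} {k₀ : ℕ}
    (h1 : q i₀ τ = 1) (h2 : ∀ j, j ≠ i₀ → 1 - q j τ ≠ 0) (h3 : 1 - gm 𝒰 (q i₀) ≠ 0)
    {s : Finset (ι × ℕ)} {l : ι × ℕ → ℂ → ℂ} (hl : ∀ j ∈ s, MeromorphicOn (l j) D)
    (hl' : ∀ j ∈ s, AnalyticAt ℂ (l j) τ) (hs : (i₀, k₀) ∈ s) (hmax : ∀ k, (i₀, k) ∈ s → k ≤ k₀)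
    (h : ∑ j ∈ s, gm 𝒰 (l j) * VVL (e j.1) j.2 (gm 𝒰 (q j.1)) = 0) : l (i₀, k₀) τ = 0 := by
  classical
  set T : ι × ℕ → ℂ → ℂ := fun j z => if j.1 = i₀ then
    vc (e i₀) j.2 * (EP j.2).eval (q i₀ z) * (1 - q i₀ z) ^ (k₀ - j.2)
    else VV (e j.1) j.2 (q j.1 z) * (1 - q i₀ z) ^ (k₀ + 1) with hT
  have hA : ∀ k n z, z ∈ D → AnalyticAt ℂ
      (fun z => vc (e i₀) k * (EP k).eval (q i₀ z) * (1 - q i₀ z) ^ n) z := fun k n z hz =>
    (analyticAt_const.mul (((EP k).differentiable.analyticAt _).comp (hq i₀ z hz))).mul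
      ((analyticAt_const.sub (hq i₀ z hz)).pow _)
  have hTm : ∀ j, MeromorphicOn (T j) D := by
    intro j z hz
    by_cases hj : j.1 = i₀
    · simp only [hT, hj, if_true]
      exact (hA _ _ z hz).meromorphicAt
    · simp only [hT, hj, if_false]
      exact ((meromorphic_VV _ _ _).comp_analyticAt (hq j.1 z hz)).mul
        ((analyticAt_const.sub (hq i₀ z hz)).pow _).meromorphicAt
  have hTa : ∀ j, AnalyticAt ℂ (T j) τ := by
    intro j
    by_cases hj : j.1 = i₀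
    · simp only [hT, hj, if_true]
      exact hA _ _ τ hτ
    · simp only [hT, hj, if_false]
      exact ((analyticAt_VV _ _ (h2 _ hj)).comp (hq j.1 τ hτ)).mul
        ((analyticAt_const.sub (hq i₀ τ hτ)).pow _)
  have hgT : ∀ j ∈ s, gm 𝒰 (T j) =
      VVL (e j.1) j.2 (gm 𝒰 (q j.1)) * (1 - gm 𝒰 (q i₀)) ^ (k₀ + 1) := by
    rintro ⟨i, k⟩ hj
    by_cases hi : i = i₀
    · subst hi
      obtain ⟨d, rfl⟩ := Nat.exists_eq_add_of_le (hmax k hj)
      have : gm 𝒰 (T (i, k)) = algebraMap ℂ _ (vc (e i) k) * Polynomial.aeval (gm 𝒰 (q i)) (EP k) *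
          (1 - gm 𝒰 (q i)) ^ d := by
        rw [← gm_polyeval, ← gm_one_sub, ← gm_const, ← map_mul, ← map_pow, ← map_mul]
        congr 1
        funext z
        simp [hT]
      rw [this, VVL]
      field_simp
      ring
    · rw [← gm_VV, ← gm_one_sub, ← map_pow, ← map_mul]
      congr 1
      funext z
      simp [hT, hi]
  have hz := eq_zero_of_gm_eq_zero hD h0 hU (E := ∑ j ∈ s, l j * T j)
    (fun z hz => MeromorphicAt.sum fun j hj => (hl j hj z hz).mul (hTm j z hz)) (by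
      rw [map_sum, Finset.sum_congr rfl fun j hj => by rw [map_mul, hgT j hj, ← mul_assoc],
        ← Finset.sum_mul, h, zero_mul]) hτ
    (Finset.analyticAt_sum _ fun j hj => (hl' j hj).mul (hTa j)).continuousAt
  rw [Finset.sum_apply, Finset.sum_eq_single (i₀, k₀)] at hz
  · simp only [hT, Pi.mul_apply, if_true, h1, EP_eval_one, Nat.sub_self, pow_zero, mul_one,
      mul_eq_zero, vc_ne_zero, Nat.cast_eq_zero, Nat.factorial_ne_zero, or_false] at hz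
    exact hz
  · rintro ⟨i, k⟩ hj hne
    by_cases hi : i = i₀
    · subst hi
      have : k₀ - k ≠ 0 := by
        have h5 := hmax k hj
        have h6 : k ≠ k₀ := fun h => hne (by rw [h])
        omega
      simp [hT, h1, this]
    · simp [hT, hi, h1]
  · exact fun h => (h hs).elim

lemma QQ_add (e : Bool) (z d : ℂ) :
    QQ e (z + d) = cexp (2 * Real.pi * I * sg e * d) * QQ e z := by
  rw [QQ, QQ, ← Complex.exp_add]; congr 1; ring

lemma Top.eventually_nonint {r : ℝ} {F : ℂ → ℂ} {c : ℂ} (h : Top r F c) (d : ℂ) {τ : ℂ}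
    (hτ : τ ∈ HP r) : ∀ᶠ z in 𝓝[≠] τ, ∀ m : ℤ, F z + d ≠ m := by
  have hs : 0 < (sg (!false) * c * cexp (((-arg c : ℝ) : ℂ) * I)).re := by
    have : c * cexp (((-arg c : ℝ) : ℂ) * I) = ‖c‖ := by
      nth_rewrite 1 [← Complex.norm_mul_exp_arg_mul_I c]
      rw [mul_assoc, ← Complex.exp_add]
      simp
    simp only [Bool.not_false, sg, if_true, one_mul, this, ofReal_re]
    exact norm_pos_iff.2 h.1
  obtain ⟨R, hR, hS⟩ := ((eventually_ge_atTop 1).and (eventually_Sec_subset r (-arg c))).exists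
  have t := (Sm.tendsto (h.QQ_small hR hS hs)).const_mul (cexp (2 * Real.pi * I * sg false * d))
  rw [mul_zero] at t
  obtain ⟨y, hy⟩ := (t.eventually_ne zero_ne_one).exists
  have han : AnalyticOnNhd ℂ (fun z => 1 - QQ false (F z + d)) (HP r) := fun z hz =>
    analyticAt_const.sub ((analyticAt_QQ false _).comp ((h.2.1 z hz).add analyticAt_const))
  rcases (han τ hτ).eventually_eq_zero_or_eventually_ne_zero with h1 | h1
  · have := han.eqOn_zero_of_preconnected_of_eventuallyEq_zero (isPreconnected_HP r) hτ h1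
      (hS (ray_mem _ R y))
    simp only [QQ_add, Pi.zero_apply] at this
    exact (hy (sub_eq_zero.1 this).symm).elim
  · filter_upwards [h1] with z hz m hm
    exact hz (sub_eq_zero.2 ((QQ_eq_one_iff false _).2 ⟨m, hm⟩).symm)

/-- The coefficient field. -/
noncomputable def KK {ι : Type*} (𝒰 : Ultrafilter ℂ) (r : ℝ) (F : ι → ℂ → ℂ) :
    IntermediateField ℂ (GF 𝒰) :=
  IntermediateField.adjoin ℂ (gm 𝒰 '' (Cl (HP r) (HP r) (0, 0) : Set (ℂ → ℂ)) ∪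
    range fun i => gm 𝒰 fun τ => cexp (Real.pi * I * F i τ))

lemma KK_mero {ι : Type*} {𝒰 : Ultrafilter ℂ} {r : ℝ} {F : ι → ℂ → ℂ} {c : ι → ℂ}
    (hF : ∀ i, Top r (F i) (c i)) {x : GF 𝒰} (hx : x ∈ KK 𝒰 r F) :
    ∃ l, MeromorphicOn l (HP r) ∧ gm 𝒰 l = x := by
  induction hx using IntermediateField.adjoin_induction with
  | mem x hx =>
    rcases hx with ⟨a, ha, rfl⟩ | ⟨i, rfl⟩
    · exact ⟨a, ha.1, rfl⟩
    · exact ⟨_, ((hF i).exp_mem _ Subset.rfl).1, rfl⟩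
  | algebraMap a => exact ⟨fun _ => a, fun z _ => MeromorphicAt.const a z, rfl⟩
  | add x y _ _ hx hy =>
    obtain ⟨l, hl, rfl⟩ := hx
    obtain ⟨l', hl', rfl⟩ := hy
    exact ⟨l + l', hl.add hl', map_add _ _ _⟩
  | inv x _ hx =>
    obtain ⟨l, hl, rfl⟩ := hx
    exact ⟨l⁻¹, hl.inv, rfl⟩
  | mul x y _ _ hx hy =>
    obtain ⟨l, hl, rfl⟩ := hx
    obtain ⟨l', hl', rfl⟩ := hy
    exact ⟨l * l', hl.mul hl', map_mul _ _ _⟩

lemma exp_mem_KK {ι : Type*} (𝒰 : Ultrafilter ℂ) (r : ℝ) (F : ι → ℂ → ℂ) (i : ι) :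
    (gm 𝒰 fun τ => cexp (Real.pi * I * F i τ)) ∈ KK 𝒰 r F :=
  IntermediateField.subset_adjoin _ _ (Or.inr ⟨i, rfl⟩)

lemma QQ_mem_KK {ι : Type*} (𝒰 : Ultrafilter ℂ) (r : ℝ) (F : ι → ℂ → ℂ) (i : ι) (e : Bool) (d : ℂ) :
    (gm 𝒰 fun τ => QQ e (F i τ + d)) ∈ KK 𝒰 r F := by
  have h := exp_mem_KK 𝒰 r F i
  have h2 : (gm 𝒰 fun τ => QQ e (F i τ)) ∈ KK 𝒰 r F := by
    cases e
    · have := (KK 𝒰 r F).inv_mem (pow_mem h 2)
      rw [← map_pow, ← gm_inv] at this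
      convert this using 2
      funext τ
      simp only [QQ, sg, Pi.inv_apply, Pi.pow_apply, ← Complex.exp_nat_mul, ← Complex.exp_neg]
      congr 1; simp; ring
    · have := pow_mem h 2
      rw [← map_pow] at this
      convert this using 2
      funext τ
      simp only [QQ, sg, Pi.pow_apply, ← Complex.exp_nat_mul]
      congr 1; simp; ring
  have := (KK 𝒰 r F).smul_mem h2 (x := cexp (2 * Real.pi * I * sg e * d))
  rw [← map_smul] at this
  convert this using 2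
  funext τ
  simp [QQ_add]

end Pool.Agent.P.MP_26ad15_nt
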