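import Pool.Agent.P.MP_26ad15_nt.Core

/-! The core independence theorem at one level, main part. -/

namespace Pool.Agent.P.MP_26ad15_nt

open Complex Set Filter Topology Asymptotics

lemma pair_mem {Λ : AddSubgroup ℂ} {𝒰 : Ultrafilter ℂ} {D S : Set ℂ} {φ R : ℝ} (hR : 1 ≤ R)
    (hS : ∀ᶠ y in atTop, ray φ R y ∈ S) (ρ : ℂ) {a b : ℂ} (ha : a ∈ Λ) (hb : b ∈ Λ)
    {E E' : ℂ → ℂ} (h : E ∈ Cl D S (a, b)) (h' : E' ∈ Cl D (Sec φ R) (a, b))
    (hs : E' - E ∈ Sm φ R (Qr (a, b))) {y : GF 𝒰}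
    (hy : (gm 𝒰 E', cexp (b * ρ) • y) ∈ locT (twT Λ 𝒰 D S ρ)) :
    (gm 𝒰 E, y) ∈ compT (compT (twT Λ 𝒰 D S (-ρ)) (stT Λ 𝒰 D S hR hS))
      (locT (twT Λ 𝒰 D S ρ)) := by
  refine mem_compT (mem_compT (mem_twT (-ρ) ha hb h)
    ((stT Λ 𝒰 D S hR hS).smul_mem (mem_stT hR hS ha hb h h' hs) (cexp (b * -ρ)))) ?_
  have := (locT (twT Λ 𝒰 D S ρ)).smul_mem hy (cexp (b * -ρ))
  rwa [Prod.smul_mk, smul_smul, ← Complex.exp_add, ← mul_add, neg_add_cancel, mul_zero,
    Complex.exp_zero, one_smul] at this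

theorem core_rel {ι : Type*} [Finite ι] {r : ℝ} {F : ι → ℂ → ℂ} {c : ι → ℂ}
    (hF : ∀ i, Top r (F i) (c i)) {τ₀ : ℂ} (h0 : τ₀ ∈ HP r) {𝒰 : Ultrafilter ℂ}
    (hU : (𝒰 : Filter ℂ) ≤ 𝓝[≠] τ₀) :
    ∃ e : ι → Bool, ∀ ρ : ℂ, ∃ T : Subalgebra ℂ (GF 𝒰 × GF 𝒰), Fn T ∧
      (∀ x ∈ KK 𝒰 r F, (x, x) ∈ T) ∧
      (∀ i, (gm 𝒰 fun τ => GG (e i) (F i τ),
        uuL (e i) (gm 𝒰 fun τ => QQ (e i) (F i τ + c i * ρ)) * gm 𝒰 fun τ => GG (e i) (F i τ)) ∈ T) ∧
      ∀ i k, (gm 𝒰 fun τ => PS (e i) k (F i τ), (gm 𝒰 fun τ => PS (e i) k (F i τ)) +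
        VVL (e i) k (gm 𝒰 fun τ => QQ (e i) (F i τ + c i * ρ))) ∈ T := by
  classical
  have hD := isPreconnected_HP r
  let g : ι × Fin 3 → ℂ := fun p => ![c p.1, c p.1 * Complex.log (c p.1), Real.pi * I * c p.1] p.2
  let Λ : AddSubgroup ℂ := (Submodule.span ℤ (range g)).toAddSubgroup
  have hΛc : (Λ : Set ℂ).Countable :=
    Set.countable_coe_iff.1 (inferInstanceAs (Countable (Submodule.span ℤ (range g))))
  have m1 : ∀ i, c i ∈ Λ := fun i => Submodule.subset_span ⟨(i, 0), rfl⟩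
  have m2 : ∀ i, c i * Complex.log (c i) ∈ Λ := fun i => Submodule.subset_span ⟨(i, 1), rfl⟩
  have m3 : ∀ i, Real.pi * I * c i ∈ Λ := fun i => Submodule.subset_span ⟨(i, 2), rfl⟩
  have m4 : ∀ i e φ, c i * (kk e (c i) φ - 1) ∈ Λ := by
    intro i e φ
    obtain ⟨n, hn⟩ := kk_int (e := e) (hF i).1 φ
    have : c i * (kk e (c i) φ - 1) = c i * Complex.log (c i) + n • (Real.pi * I * c i) - c i := by
      rw [hn, zsmul_eq_mul]; ring
    rw [this]
    exact Λ.sub_mem (Λ.add_mem (m2 i) (Λ.zsmul_mem (m3 i) n)) (m1 i)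
  have m5 : ∀ i e, 2 * Real.pi * I * sg e * c i ∈ Λ := by
    intro i e
    cases e
    · have := Λ.zsmul_mem (m3 i) (-2)
      convert this using 1
      simp [sg]; ring
    · have := Λ.zsmul_mem (m3 i) 2
      convert this using 1
      simp [sg]; ring
  obtain ⟨φ, hφ⟩ := exists_generic hΛc
  have hne : ∀ i, (c i * cexp (φ * I)).re ≠ 0 := by
    intro i h
    have := hφ _ (m3 i) (by
      have e1 : Real.pi * I * c i * dir φ = (Real.pi : ℝ) * (c i * cexp (φ * I)) := by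
        rw [dir]
        linear_combination (-Real.pi * c i * cexp (φ * I)) * I_mul_I
      rw [e1, re_ofReal_mul, h, mul_zero])
    simp [(hF i).1] at this
  let e : ι → Bool := fun i => decide (0 < (c i * cexp (φ * I)).re)
  have hs : ∀ i, 0 < (sg (e i) * c i * cexp (φ * I)).re := by
    intro i
    by_cases h : 0 < (c i * cexp (φ * I)).re
    · have : e i = true := by simp only [e, h, decide_true]
      rw [this, sg, mul_assoc]
      simpa only [if_true, one_mul] using h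
    · have h' := lt_of_le_of_ne (not_lt.1 h) (hne i)
      have : e i = false := by simp only [e, h, decide_false]
      rw [this, sg, mul_assoc]
      simp only [Bool.false_eq_true, if_false, neg_mul, one_mul, neg_re]
      linarith
  obtain ⟨φ', f1, f2, hs'⟩ := exists_flip hs
  obtain ⟨R, ⟨hR, hS, hS'⟩, hG, hG'⟩ := (((eventually_ge_atTop 1).and
    ((eventually_Sec_subset r φ).and (eventually_Sec_subset r φ'))).and
    ((eventually_all.2 fun i => (hF i).GG_PS_mem (hs i)).and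
    (eventually_all.2 fun i => (hF i).GG_PS_mem (hs' i)))).exists
  have hray := ray_eventually_mem hR f1 f2
  have hni : ∀ i d, ∀ᶠ z in (𝒰 : Filter ℂ), ∀ m : ℤ, F i z + d ≠ m := fun i d =>
    ((hF i).eventually_nonint d h0).filter_mono hU
  have hq : ∀ i d, 1 - (gm 𝒰 fun τ => QQ (e i) (F i τ + d)) ≠ 0 := by
    intro i d
    rw [← gm_one_sub, gm_ne_zero_iff]
    exact (hni i d).mono fun z hz => one_sub_QQ_ne _ hz
  have hsm := fun i => (hF i).QQ_small hR hS' (hs' i)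
  have hni' : ∀ i, ∀ᶠ y in atTop, ∀ m : ℤ, F i (ray φ' R y) ≠ m := by
    intro i
    filter_upwards [(Sm.tendsto (hsm i)).eventually_ne zero_ne_one] with y hy m hm
    exact hy ((QQ_eq_one_iff _ _).2 ⟨m, hm⟩)
  refine ⟨e, fun ρ => ⟨locT (compT (compT (twT Λ 𝒰 (HP r) (Sec φ R) (-ρ))
    (stT Λ 𝒰 (HP r) (Sec φ R) hR hray)) (locT (twT Λ 𝒰 (HP r) (Sec φ R) ρ))),
    (((fn_twT hD h0 hU hR hφ hS _).compT (fn_stT hD h0 hU hR hR hφ hS hS' hray)).compT
      (fn_twT hD h0 hU hR hφ hS _).locT).locT, ?_, ?_, ?_⟩⟩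
  · intro x hx
    induction hx using IntermediateField.adjoin_induction with
    | mem x hx =>
      rcases hx with ⟨a, ha, rfl⟩ | ⟨i, rfl⟩
      · exact mem_locT (pair_mem hR hray ρ Λ.zero_mem Λ.zero_mem (Cl.mono ha hS) (Cl.mono ha hS')
          (by rw [sub_self]; exact Submodule.zero_mem _)
          (mem_locT (mem_twT ρ Λ.zero_mem Λ.zero_mem (Cl.mono ha hS))))
      · exact mem_locT (pair_mem hR hray ρ Λ.zero_mem (m3 i) ((hF i).exp_mem _ hS)
          ((hF i).exp_mem _ hS') (by rw [sub_self]; exact Submodule.zero_mem _)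
          (mem_locT (mem_twT ρ Λ.zero_mem (m3 i) ((hF i).exp_mem _ hS))))
    | algebraMap a => exact Subalgebra.algebraMap_mem _ a
    | add x y _ _ hx hy => exact Subalgebra.add_mem _ hx hy
    | inv x _ hx =>
      by_cases h : x = 0
      · subst h; rw [inv_zero]; exact hx
      · exact inv_mem_locT hx h h
    | mul x y _ _ hx hy => exact Subalgebra.mul_mem _ hx hy
  all_goals
    have hQ : ∀ i, ((gm 𝒰 fun τ => QQ (e i) (F i τ + 0)),
        gm 𝒰 fun τ => QQ (e i) (F i τ + c i * ρ)) ∈ locT (twT Λ 𝒰 (HP r) (Sec φ R) ρ) := by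
      intro i
      have := mem_twT (𝒰 := 𝒰) ρ Λ.zero_mem (m5 i (e i)) ((hF i).exp_mem _ hS)
      rw [← map_smul] at this
      convert mem_locT this using 3
      · funext τ; simp [QQ]
      · funext τ
        rw [QQ_add, Pi.smul_apply, smul_eq_mul, QQ, mul_assoc _ (c i)]
  · intro i
    have hE' : (kap (e i) • ((fun τ => cexp (Real.pi * I * F i τ)) * fun τ => GG (!e i) (F i τ))) ∈
        Cl (HP r) (Sec φ' R) (c i, c i * (kk (e i) (c i) φ - 1)) := by
      have := Submodule.smul_mem _ (kap (e i)) (Cl.mul ((hF i).exp_mem (Real.pi * I) hS') (hG' i).1)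
      convert this using 2
      rw [kk_flip f1 f2 (hs i) (hs' i), Prod.mk_add_mk]
      congr 1 <;> ring
    refine mem_locT (pair_mem hR hray ρ (m1 i) (m4 i (e i) φ) (hG i).1 hE' ?_ ?_)
    · refine Sm.congr (Sm.mul_grow (Sm.comp (hsm i) (uu_isBigO (e i))) (hG i).1.2.2 hR hray
        fun τ => (zero_add _).symm) ?_
      filter_upwards [hni' i] with y hy
      have := reflection (e i) hy
      simp only [Pi.mul_apply, Pi.sub_apply, Pi.smul_apply, smul_eq_mul]
      linear_combination this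
    · have e1 : gm 𝒰 (kap (e i) • ((fun τ => cexp (Real.pi * I * F i τ)) *
          fun τ => GG (!e i) (F i τ))) = uuL (e i) (gm 𝒰 fun τ => QQ (e i) (F i τ + 0)) *
          gm 𝒰 fun τ => GG (e i) (F i τ) := by
        rw [← gm_uu, ← map_mul, gm_eq_iff]
        filter_upwards [hni i 0] with z hz
        rw [add_zero] at hz
        have := reflection (e i) hz
        simp only [Pi.mul_apply, Pi.smul_apply, smul_eq_mul, add_zero]
        linear_combination -this
      rw [e1, ← mul_smul_comm]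
      exact Subalgebra.mul_mem _ (uuL_mem (hQ i) (hq i _) (hq i _) (e i))
        (mem_locT (mem_twT ρ (m1 i) (m4 i (e i) φ) (hG i).1))
  · intro i k
    have hE' : ((if k = 0 then (Real.pi * I : ℂ) else 0) • (1 : ℂ → ℂ) +
        fun τ => PS (!e i) k (F i τ)) ∈ Cl (HP r) (Sec φ' R) (0, 0) :=
      Submodule.add_mem _ (Submodule.smul_mem _ _ Cl.one) ((hG' i).2 k)
    refine mem_locT (pair_mem hR hray ρ Λ.zero_mem Λ.zero_mem ((hG i).2 k) hE' ?_ ?_)
    · have : Qr (0, 0) = fun _ => 0 := funext Qr_zero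
      rw [this]
      refine Sm.congr (Sm.comp (hsm i) (VV_isBigO (e i) k)) ?_
      filter_upwards [hni' i] with y hy
      have := reflection_PS (e i) k hy
      simp only [Pi.add_apply, Pi.sub_apply, Pi.smul_apply, smul_eq_mul, Pi.one_apply, mul_one]
      linear_combination this
    · have e1 : gm 𝒰 ((if k = 0 then (Real.pi * I : ℂ) else 0) • (1 : ℂ → ℂ) +
          fun τ => PS (!e i) k (F i τ)) = (gm 𝒰 fun τ => PS (e i) k (F i τ)) +
          VVL (e i) k (gm 𝒰 fun τ => QQ (e i) (F i τ + 0)) := by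
        rw [← gm_VV, ← map_add, gm_eq_iff]
        filter_upwards [hni i 0] with z hz
        rw [add_zero] at hz
        have := reflection_PS (e i) k hz
        simp only [Pi.add_apply, Pi.smul_apply, smul_eq_mul, add_zero, Pi.one_apply, mul_one]
        linear_combination -this
      have e2 := mem_twT (𝒰 := 𝒰) ρ Λ.zero_mem Λ.zero_mem ((hG i).2 k)
      rw [zero_mul, Complex.exp_zero, one_smul] at e2
      rw [e1, zero_mul, Complex.exp_zero, one_smul]
      exact Subalgebra.add_mem _ (mem_locT e2) (VVL_mem (hQ i) (hq i _) (hq i _) (e i) k)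

theorem core {ι : Type*} [Finite ι] {r : ℝ} {F : ι → ℂ → ℂ} {c : ι → ℂ}
    (hF : ∀ i, Top r (F i) (c i)) (hH : H0 (HP r) F) {τ₀ : ℂ} (h0 : τ₀ ∈ HP r)
    {𝒰 : Ultrafilter ℂ} (hU : (𝒰 : Filter ℂ) ≤ 𝓝[≠] τ₀) :
    AlgebraicIndependent (KK 𝒰 r F) (Sum.elim (fun i => gm 𝒰 fun τ => Gamma (F i τ))
      fun j : ι × ℕ => gm 𝒰 fun τ => PS true j.2 (F j.1 τ)) := by
  classical
  have := Fintype.ofFinite ι
  have hD := isPreconnected_HP r
  obtain ⟨e, he⟩ := core_rel hF h0 hU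
  have hni : ∀ i d, ∀ᶠ z in (𝒰 : Filter ℂ), ∀ m : ℤ, F i z + d ≠ m := fun i d =>
    ((hF i).eventually_nonint d h0).filter_mono hU
  have hq : ∀ i e d, 1 - (gm 𝒰 fun τ => QQ e (F i τ + d)) ≠ 0 := by
    intro i e d
    rw [← gm_one_sub, gm_ne_zero_iff]
    exact (hni i d).mono fun z hz => one_sub_QQ_ne _ hz
  let q : ℂ → ι → KK 𝒰 r F := fun ρ i => ⟨_, QQ_mem_KK 𝒰 r F i (e i) (c i * ρ)⟩
  have hqa : ∀ ρ i, AnalyticOnNhd ℂ (fun τ => QQ (e i) (F i τ + c i * ρ)) (HP r) :=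
    fun ρ i z hz => (analyticAt_QQ _ _).comp (((hF i).2.1 z hz).add analyticAt_const)
  have hDn : HP r ∈ 𝓝[≠] τ₀ := mem_nhdsWithin_of_mem_nhds ((isOpen_HP r).mem_nhds h0)
  have hσ : ∀ i, ∃ σ ∈ KK 𝒰 r F,
      (gm 𝒰 fun τ => Gamma (F i τ)) = σ * gm 𝒰 fun τ => GG (e i) (F i τ) := by
    intro i
    cases e i
    · refine ⟨kap true • (gm 𝒰 fun τ => cexp (Real.pi * I * F i τ)) *
        (1 - gm 𝒰 fun τ => QQ true (F i τ + 0))⁻¹, mul_mem ((KK 𝒰 r F).smul_mem
          (exp_mem_KK 𝒰 r F i)) (inv_mem (sub_mem (one_mem _) (QQ_mem_KK 𝒰 r F i _ _))), ?_⟩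
      rw [← gm_one_sub, ← gm_inv, ← map_smul, ← map_mul, ← map_mul, gm_eq_iff]
      filter_upwards [hni i 0] with z hz
      rw [add_zero] at hz
      have h1 := reflection true hz
      have h2 := one_sub_QQ_ne true hz
      simp only [GG, uu, if_true, Bool.not_true] at h1
      simp only [Pi.mul_apply, Pi.smul_apply, smul_eq_mul, add_zero, Pi.inv_apply, GG]
      field_simp
      linear_combination h1
    · exact ⟨1, one_mem _, (one_mul _).symm⟩
  have hσ' : ∀ i k, ∃ σ ∈ KK 𝒰 r F,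
      (gm 𝒰 fun τ => PS true k (F i τ)) = σ + gm 𝒰 fun τ => PS (e i) k (F i τ) := by
    intro i k
    cases e i
    · refine ⟨algebraMap ℂ _ (if k = 0 then (Real.pi * I : ℂ) else 0) -
        VVL true k (gm 𝒰 fun τ => QQ true (F i τ + 0)), sub_mem (algebraMap_mem _ _) ?_, ?_⟩
      · have := map_VVL (KK 𝒰 r F).val true k ⟨_, QQ_mem_KK 𝒰 r F i true 0⟩
        exact this ▸ Subtype.mem _
      · rw [← gm_VV, ← gm_const, ← map_sub, ← map_add, gm_eq_iff]
        filter_upwards [hni i 0] with z hz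
        rw [add_zero] at hz
        have h1 := reflection_PS true k hz
        simp only [Pi.add_apply, Pi.sub_apply, add_zero]
        rw [Bool.not_true] at h1
        linear_combination h1
    · exact ⟨0, zero_mem _, (zero_add _).symm⟩
  refine indep_of_invariance (P := ℂ) (u := fun ρ i => uuL (e i) (q ρ i))
    (v := fun ρ j => VVL (e j.1) j.2 (q ρ j.1)) (fun i => ?_) (fun ρ Q hQ => ?_)
    (fun m m' h => ?_) (fun s l h => ?_)
  · rw [gm_ne_zero_iff]
    filter_upwards [hni i 0] with z hz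
    rw [add_zero] at hz
    exact GG_ne_zero true (ar_ne_of_int true hz)
  · obtain ⟨T, hT, h1, h2, h3⟩ := he ρ
    refine hT.aeval_eq_zero (fun k => h1 _ k.2) ?_ Q hQ
    rintro (i | ⟨i, k⟩)
    · obtain ⟨σ, hσ1, hσ2⟩ := hσ i
      have := T.mul_mem (h1 σ hσ1) (h2 i)
      have e1 : algebraMap (KK 𝒰 r F) (GF 𝒰) (uuL (e i) (q ρ i)) = _ :=
        map_uuL (KK 𝒰 r F).val (e i) (q ρ i)
      simp only [Sum.elim_inl, hσ2, e1]
      rwa [Prod.mk_mul_mk, mul_left_comm] at this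
    · obtain ⟨σ, hσ1, hσ2⟩ := hσ' i k
      have := T.add_mem (h1 σ hσ1) (h3 i k)
      have e1 : algebraMap (KK 𝒰 r F) (GF 𝒰) (VVL (e i) k (q ρ i)) = _ :=
        map_VVL (KK 𝒰 r F).val (e i) k (q ρ i)
      simp only [Sum.elim_inr, hσ2, e1]
      rwa [Prod.mk_add_mk, ← add_assoc] at this
  · ext i₀
    obtain ⟨τ, hτ, hgen⟩ := exists_generic_point hD (fun i => (hF i).2.1) hH hDn Subset.rfl
    obtain ⟨ρ, r1, r2⟩ := exists_rho (fun i => (hF i).1) hgen i₀
    have h1 := h ρ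
    rw [Finset.prod_subset (Finset.subset_univ m.support) (fun i _ hi => by
        rw [Finsupp.notMem_support_iff.1 hi, pow_zero]),
      Finset.prod_subset (Finset.subset_univ m'.support) (fun i _ hi => by
        rw [Finsupp.notMem_support_iff.1 hi, pow_zero])] at h1
    have h2 := congrArg (KK 𝒰 r F).val h1
    simp only [map_prod, map_pow, map_uuL] at h2
    have h3 := uuL_prod e (fun i => hq i (e i) (c i * ρ)) h2
    simp only [← gm_one_sub] at h3
    have h4 := prod_sep hD h0 hU (fun i => analyticOnNhd_const.sub (hqa ρ i)) hτ (i₀ := i₀)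
      (sub_eq_zero.2 ((QQ_eq_one_iff _ _).2 r1).symm)
      (fun j hj => one_sub_QQ_ne _ (r2 j hj)) (by
        have := hq i₀ (e i₀) (c i₀ * ρ)
        rwa [← gm_one_sub] at this) h3
    cases h5 : e i₀ <;> simp [h5] at h4 <;> omega
  · by_contra hc
    push Not at hc
    obtain ⟨⟨i₀, k₁⟩, hj, hl⟩ := hc
    set s' := s.filter fun j => l j ≠ 0 with hs'
    obtain ⟨⟨i₁, k₀⟩, hj0, hmax⟩ := (s'.filter fun j => j.1 = i₀).exists_max_image Prod.snd
      ⟨(i₀, k₁), by simp [hs', hj, hl]⟩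
    obtain ⟨hj1, rfl⟩ : (i₁, k₀) ∈ s' ∧ i₁ = i₀ := by simpa using hj0
    choose lam hlam1 hlam2 using fun j => KK_mero hF (l j).2
    have hV : ∀ᶠ z in 𝓝[≠] τ₀, z ∈ HP r ∧ ∀ j ∈ s', AnalyticAt ℂ (lam j) z ∧ lam j z ≠ 0 := by
      refine Eventually.and hDn ((eventually_all_finset _).2 fun j hj => ?_)
      refine (hlam1 j τ₀ h0).eventually_analyticAt.and
        ((hlam1 j τ₀ h0).eventually_eq_zero_or_eventually_ne_zero.resolve_left fun h => ?_)
      have := gm_eq_zero_iff.2 (h.filter_mono hU)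
      rw [hlam2] at this
      exact (Finset.mem_filter.1 hj).2 (Subtype.ext this)
    obtain ⟨τ, hτ, hgen⟩ := exists_generic_point hD (fun i => (hF i).2.1) hH hV fun z hz => hz.1
    obtain ⟨ρ, r1, r2⟩ := exists_rho (fun i => (hF i).1) hgen i₁
    refine (hτ.2 _ hj1).2 (sum_sep hD h0 hU e (hqa ρ) hτ.1 ((QQ_eq_one_iff _ _).2 r1)
      (fun j hj => one_sub_QQ_ne _ (r2 j hj)) (hq _ _ _) (fun j _ => hlam1 j)
      (fun j hj => (hτ.2 j hj).1) hj1 (fun k hk => hmax (i₁, k) (by simpa using hk)) ?_)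
    have h1 := h ρ
    rw [← Finset.sum_filter_of_ne (p := fun j => l j ≠ 0)
      (fun j _ hj => left_ne_zero_of_mul hj)] at h1
    have h2 := congrArg (KK 𝒰 r F).val h1
    simp only [map_sum, map_mul, map_VVL, map_zero] at h2
    simp only [hlam2]
    exact h2

end Pool.Agent.P.MP_26ad15_nt
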