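import Pool.Agent.P.MP_26ad15_nt.Stirling

/-! The two determinations `Γ(z)` and `1/Γ(1-z)`, their logarithmic derivatives, the identities
linking them and growth bounds. -/

namespace Pool.Agent.P.MP_26ad15_nt

open Complex Set Filter Topology Polynomial

/-- The reciprocal Gamma function. -/
noncomputable def gg (z : ℂ) : ℂ := (Gamma z)⁻¹

/-- A sign. -/
def sg (e : Bool) : ℂ := if e then 1 else -1

/-- The argument of `Γ`. -/
def ar (e : Bool) (z : ℂ) : ℂ := if e then z else 1 - z

/-- `Γ(z)` or `1/Γ(1-z)`. -/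
noncomputable def GG (e : Bool) (z : ℂ) : ℂ := if e then Gamma z else gg (1 - z)

/-- Derivatives of the logarithmic derivative of `GG`. -/
noncomputable def PS (e : Bool) (k : ℕ) : ℂ → ℂ := iteratedDeriv k fun z => digamma (ar e z)

/-- The small exponential. -/
noncomputable def QQ (e : Bool) (z : ℂ) : ℂ := cexp (2 * Real.pi * I * sg e * z)

/-- Stokes multiplier. -/
noncomputable def uu (e : Bool) (x : ℂ) : ℂ := if e then 1 - x else (1 - x)⁻¹

/-- Eulerian type polynomials. -/
noncomputable def EP : ℕ → ℂ[X]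
  | 0 => X
  | k + 1 => X * (derivative (EP k) * (1 - X) + C ((k : ℂ) + 1) * EP k)

/-- Constant in `VV`. -/
noncomputable def vc (e : Bool) (k : ℕ) : ℂ := -(2 * Real.pi * I) * (2 * Real.pi * I * sg e) ^ k

/-- Additive Stokes terms. -/
noncomputable def VV (e : Bool) (k : ℕ) (x : ℂ) : ℂ := vc e k * (EP k).eval x / (1 - x) ^ (k + 1)

/-- Constant in the reflection formula. -/
noncomputable def kap (e : Bool) : ℂ := if e then -(2 * Real.pi * I) else (2 * Real.pi * I)⁻¹

lemma sg_ne_zero (e : Bool) : sg e ≠ 0 := by cases e <;> simp [sg]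

lemma norm_sg (e : Bool) : ‖sg e‖ = 1 := by cases e <;> simp [sg]

lemma sg_mul_self (e : Bool) : sg e * sg e = 1 := by cases e <;> simp [sg]

lemma sg_not (e : Bool) : sg (!e) = -sg e := by cases e <;> simp [sg]

lemma two_pi_I_ne : (2 * Real.pi * I : ℂ) ≠ 0 := Complex.two_pi_I_ne_zero

lemma kap_ne_zero (e : Bool) : kap e ≠ 0 := by
  cases e
  · exact inv_ne_zero two_pi_I_ne
  · exact neg_ne_zero.2 two_pi_I_ne

lemma vc_ne_zero (e : Bool) (k : ℕ) : vc e k ≠ 0 :=
  mul_ne_zero (neg_ne_zero.2 two_pi_I_ne) (pow_ne_zero _ (mul_ne_zero two_pi_I_ne (sg_ne_zero e)))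

lemma EP_eval_one (k : ℕ) : (EP k).eval 1 = k.factorial := by
  induction k with
  | zero => simp [EP]
  | succ k ih => simp [EP, ih, Nat.factorial_succ]

lemma EP_dvd (k : ℕ) : ∃ p : ℂ[X], EP k = X * p := by
  cases k with
  | zero => exact ⟨1, by simp [EP]⟩
  | succ k => exact ⟨_, rfl⟩

lemma differentiable_gg : Differentiable ℂ gg := Complex.differentiable_one_div_Gamma

lemma analyticAt_gg (z : ℂ) : AnalyticAt ℂ gg z := differentiable_gg.analyticAt z

lemma analyticAt_Gamma {z : ℂ} (hz : ∀ m : ℕ, z ≠ -m) : AnalyticAt ℂ Gamma z := by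
  have := (analyticAt_gg z).inv (inv_ne_zero (Complex.Gamma_ne_zero hz))
  have e : (gg⁻¹ : ℂ → ℂ) = Gamma := by funext z; simp [gg]
  rwa [e] at this

lemma analyticAt_digamma {z : ℂ} (hz : ∀ m : ℕ, z ≠ -m) : AnalyticAt ℂ digamma z :=
  (analyticAt_Gamma hz).deriv.div (analyticAt_Gamma hz) (Complex.Gamma_ne_zero hz)

lemma analyticAt_ar (e : Bool) (z : ℂ) : AnalyticAt ℂ (ar e) z := by
  cases e
  · show AnalyticAt ℂ (fun z => 1 - z) z
    fun_prop
  · exact analyticAt_id

lemma analyticAt_PS (e : Bool) (k : ℕ) {z : ℂ} (hz : ∀ m : ℕ, ar e z ≠ -m) :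
    AnalyticAt ℂ (PS e k) z := by
  rw [PS, iteratedDeriv_eq_iterate]
  exact ((analyticAt_digamma hz).comp (analyticAt_ar e z)).iterated_deriv k

lemma analyticAt_GG (e : Bool) {z : ℂ} (hz : ∀ m : ℕ, ar e z ≠ -m) : AnalyticAt ℂ (GG e) z := by
  cases e
  · exact (analyticAt_gg _).comp (analyticAt_ar false z)
  · exact analyticAt_Gamma hz

lemma GG_ne_zero (e : Bool) {z : ℂ} (hz : ∀ m : ℕ, ar e z ≠ -m) : GG e z ≠ 0 := by
  cases e
  · exact inv_ne_zero (Complex.Gamma_ne_zero hz)
  · exact Complex.Gamma_ne_zero hz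

lemma meromorphic_GG (e : Bool) : Meromorphic (GG e) := by
  intro z
  cases e
  · exact ((analyticAt_gg _).comp (analyticAt_ar false z)).meromorphicAt
  · exact Meromorphic.Gamma z

lemma meromorphic_PS (e : Bool) (k : ℕ) : Meromorphic (PS e k) := by
  intro z
  rw [PS, iteratedDeriv_eq_iterate]
  exact ((meromorphic_digamma _).comp_analyticAt (analyticAt_ar e z)).iterated_deriv

lemma ar_ne_of_int (e : Bool) {z : ℂ} (hz : ∀ m : ℤ, z ≠ m) (m : ℕ) : ar e z ≠ -m := by
  cases e
  · intro h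
    apply hz (m + 1)
    simp only [ar] at h
    push_cast at h ⊢
    linear_combination -h
  · intro h
    apply hz (-m)
    simpa [ar] using h

lemma QQ_eq_one_iff (e : Bool) (z : ℂ) : QQ e z = 1 ↔ ∃ m : ℤ, z = m := by
  rw [QQ, Complex.exp_eq_one_iff]
  constructor
  · rintro ⟨n, hn⟩
    have : sg e * z = n := by
      apply mul_left_cancel₀ two_pi_I_ne
      linear_combination hn
    cases e
    · exact ⟨-n, by simp [sg] at this; push_cast; linear_combination -this⟩
    · exact ⟨n, by simpa [sg] using this⟩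
  · rintro ⟨m, rfl⟩
    cases e
    · exact ⟨-m, by simp [sg]; ring⟩
    · exact ⟨m, by simp [sg]; ring⟩

lemma one_sub_QQ_ne (e : Bool) {z : ℂ} (hz : ∀ m : ℤ, z ≠ m) : 1 - QQ e z ≠ 0 := by
  intro h
  obtain ⟨m, hm⟩ := (QQ_eq_one_iff e z).1 (by linear_combination -h)
  exact hz m hm

lemma isOpen_nonint : IsOpen {z : ℂ | ∀ m : ℤ, z ≠ m} := by
  have : {z : ℂ | ∀ m : ℤ, z ≠ m} = (Set.range ((↑) : ℤ → ℂ))ᶜ := by
    ext z; simp [eq_comm]
  rw [this]
  exact Complex.isClosed_range_intCast.isOpen_compl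

lemma reflection (e : Bool) {z : ℂ} (hz : ∀ m : ℤ, z ≠ m) :
    GG e z * uu e (QQ e z) = kap e * cexp (Real.pi * I * z) * GG (!e) z := by
  have h1 := Complex.Gamma_mul_Gamma_one_sub z
  have g1 : Gamma z ≠ 0 := GG_ne_zero true (ar_ne_of_int true hz)
  have g2 : Gamma (1 - z) ≠ 0 := Complex.Gamma_ne_zero (ar_ne_of_int false hz)
  have hs : Complex.sin (Real.pi * z) ≠ 0 := by
    intro h
    rw [h, div_zero] at h1
    exact mul_ne_zero g1 g2 h1
  rw [eq_div_iff hs, Complex.sin] at h1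
  set p := cexp (Real.pi * I * z) with hp
  have p0 : p ≠ 0 := Complex.exp_ne_zero _
  have e1 : cexp (Real.pi * z * I) = p := by rw [hp]; ring_nf
  have e2 : cexp (-(Real.pi * z) * I) = p⁻¹ := by rw [hp, ← Complex.exp_neg]; ring_nf
  rw [e1, e2] at h1
  have h2 : Gamma z * Gamma (1 - z) * (1 - p ^ 2) = -(2 * Real.pi * I) * p := by
    field_simp at h1
    linear_combination (-I) * h1 + (Gamma z * Gamma (1 - z) * (1 - p ^ 2)) * I_mul_I
  cases e
  · have e3 : QQ false z = (p ^ 2)⁻¹ := by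
      rw [QQ, hp, ← Complex.exp_nat_mul, ← Complex.exp_neg]; simp [sg]; ring_nf
    have := one_sub_QQ_ne false hz
    rw [e3] at this
    have h3 : p ^ 2 - 1 ≠ 0 := by
      intro h
      apply this
      rw [show p ^ 2 = 1 by linear_combination h]; simp
    have h4 := two_pi_I_ne
    simp only [GG, uu, kap, gg, e3, Bool.not_false, if_true, Bool.false_eq_true, if_false]
    field_simp
    linear_combination h2
  · have e3 : QQ true z = p ^ 2 := by
      rw [QQ, hp, ← Complex.exp_nat_mul]; simp [sg]; ring_nf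
    simp only [GG, uu, kap, gg, e3, Bool.not_true, if_true, Bool.false_eq_true, if_false]
    field_simp
    linear_combination h2

lemma hasDerivAt_Gamma' {z : ℂ} (hz : ∀ m : ℕ, z ≠ -m) :
    HasDerivAt Gamma (digamma z * Gamma z) z := by
  have := (Complex.differentiableAt_Gamma z hz).hasDerivAt
  rwa [digamma_def, logDeriv_apply, div_mul_cancel₀ _ (Complex.Gamma_ne_zero hz)]

lemma hasDerivAt_gg {z : ℂ} (hz : ∀ m : ℕ, z ≠ -m) :
    HasDerivAt gg (-digamma z * gg z) z := by
  have h := (hasDerivAt_Gamma' hz).inv (Complex.Gamma_ne_zero hz)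
  have e : -(digamma z * Gamma z) / Gamma z ^ 2 = -digamma z * gg z := by
    have := Complex.Gamma_ne_zero hz
    rw [gg]; field_simp
  rw [e] at h
  exact h

lemma hasDerivAt_QQ (e : Bool) (z : ℂ) :
    HasDerivAt (QQ e) (QQ e z * (2 * Real.pi * I * sg e)) z := by
  have := ((hasDerivAt_id z).const_mul (2 * Real.pi * I * sg e)).cexp
  rw [mul_one] at this
  exact this

lemma reflection_zero (e : Bool) {z : ℂ} (hz : ∀ m : ℤ, z ≠ m) :
    digamma (ar e z) + VV e 0 (QQ e z) = Real.pi * I + digamma (ar (!e) z) := by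
  have key : digamma z + VV true 0 (QQ true z) = Real.pi * I + digamma (1 - z) := by
    have hA := (hasDerivAt_Gamma' (ar_ne_of_int true hz)).mul
      ((hasDerivAt_QQ true z).const_sub 1)
    have hB := ((((hasDerivAt_id z).const_mul (Real.pi * I)).cexp).const_mul (kap true)).mul
      ((hasDerivAt_gg (ar_ne_of_int false hz)).comp z ((hasDerivAt_id z).const_sub 1))
    have hE := hA.unique (hB.congr_of_eventuallyEq (by
      filter_upwards [isOpen_nonint.mem_nhds hz] with w hw
      exact reflection true hw))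
    have r := reflection true hz
    have g1 : Gamma z ≠ 0 := GG_ne_zero true (ar_ne_of_int true hz)
    have q1 := one_sub_QQ_ne true hz
    simp only [GG, uu, ar, sg, id, if_true, Bool.not_true, Bool.false_eq_true, if_false,
      Function.comp] at hE r
    simp only [VV, vc, EP, eval_X, pow_zero, zero_add, pow_one]
    have h5 : digamma z * (1 - QQ true z) - 2 * Real.pi * I * QQ true z =
        (Real.pi * I + digamma (1 - z)) * (1 - QQ true z) := by
      apply mul_left_cancel₀ g1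
      linear_combination hE - (Real.pi * I + digamma (1 - z)) * r
    field_simp
    linear_combination h5
  cases e
  · have q1 := one_sub_QQ_ne true hz
    have q2 := one_sub_QQ_ne false hz
    have e1 : QQ false z * QQ true z = 1 := by
      rw [QQ, QQ, ← Complex.exp_add]; simp [sg]
    simp only [VV, vc, EP, eval_X, pow_zero, zero_add, pow_one, ar, Bool.not_false, if_true,
      Bool.false_eq_true, if_false] at key ⊢
    have : -(2 * Real.pi * I) * 1 * QQ false z / (1 - QQ false z) +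
        -(2 * Real.pi * I) * 1 * QQ true z / (1 - QQ true z) = 2 * Real.pi * I := by
      field_simp
      linear_combination e1
    linear_combination this - key
  · exact key

lemma hasDerivAt_VV (e : Bool) (k : ℕ) {z : ℂ} (hz : 1 - QQ e z ≠ 0) :
    HasDerivAt (fun z => VV e k (QQ e z)) (VV e (k + 1) (QQ e z)) z := by
  have h1 := (((EP k).hasDerivAt (QQ e z)).comp z (hasDerivAt_QQ e z)).const_mul (vc e k)
  have h2 := ((hasDerivAt_QQ e z).const_sub 1).pow (k + 1)
  have h3 := h1.div h2 (pow_ne_zero _ hz)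
  refine HasDerivAt.congr_deriv h3 ?_
  simp only [VV, vc, EP, Function.comp, eval_mul, eval_add, eval_X, eval_sub, eval_one, eval_C,
    Pi.pow_apply, Nat.add_sub_cancel]
  push_cast
  field_simp
  ring

lemma reflection_PS (e : Bool) (k : ℕ) {z : ℂ} (hz : ∀ m : ℤ, z ≠ m) :
    PS e k z + VV e k (QQ e z) = (if k = 0 then Real.pi * I else 0) + PS (!e) k z := by
  induction k generalizing z with
  | zero => simpa [PS] using reflection_zero e hz
  | succ k ih =>
    have hA := (analyticAt_PS e k (ar_ne_of_int e hz)).differentiableAt.hasDerivAt.add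
      (hasDerivAt_VV e k (one_sub_QQ_ne e hz))
    have hB := (analyticAt_PS (!e) k (ar_ne_of_int (!e) hz)).differentiableAt.hasDerivAt.const_add
      (if k = 0 then Real.pi * I else 0)
    have hE := hA.unique (hB.congr_of_eventuallyEq (by
      filter_upwards [isOpen_nonint.mem_nhds hz] with w hw
      exact ih hw))
    simp only [PS, iteratedDeriv_succ] at hE ⊢
    simpa using hE

/-- The region where the weak Stirling formula holds, with margin `M`. -/
def Good (M : ℝ) (w : ℂ) : Prop := M ≤ w.re ∨ M ≤ |w.im|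

lemma Good.mono {M M' : ℝ} {w : ℂ} (h : Good M w) (hM : M' ≤ M) : Good M' w :=
  h.imp (fun h => hM.trans h) fun h => hM.trans h

lemma Good.slit {M : ℝ} {w : ℂ} (h : Good M w) (hM : 0 < M) : w ∈ slitPlane := by
  rcases h with h | h
  · exact Or.inl (by linarith)
  · exact Or.inr fun e => by rw [e, abs_zero] at h; linarith

lemma Good.le_norm {M : ℝ} {w : ℂ} (h : Good M w) : M ≤ ‖w‖ := by
  rcases h with h | h
  · exact h.trans (re_le_norm w)
  · exact h.trans (abs_im_le_norm w)

lemma Good.near {M r : ℝ} {w ζ : ℂ} (h : Good (M + r) w) (hζ : ‖ζ - w‖ ≤ r) : Good M ζ := by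
  rcases h with h | h
  · left
    have := abs_le.1 ((abs_re_le_norm (ζ - w)).trans hζ)
    simp at this
    linarith [this.1]
  · right
    have h1 := (abs_im_le_norm (ζ - w)).trans hζ
    have := abs_sub_abs_le_abs_sub w.im ζ.im
    rw [abs_sub_comm] at this
    simp at h1
    linarith

lemma Good.ar {M : ℝ} {e : Bool} {z : ℂ} (h : Good M (sg e * z)) : Good M (ar e z) := by
  cases e
  · rcases h with h | h
    · left; simp [sg, MP_26ad15_nt.ar] at h ⊢; linarith
    · right; simpa [sg, MP_26ad15_nt.ar] using h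
  · simpa [sg, MP_26ad15_nt.ar] using h

lemma one_le_log_norm {w : ℂ} (h : 1 ≤ ‖w‖) : 1 ≤ Real.log (‖w‖ + 2) := by
  rw [Real.le_log_iff_exp_le (by positivity)]
  linarith [Real.exp_one_lt_d9]

lemma norm_Gamma_eq {w : ℂ} (h : w ∈ slitPlane) : ‖Gamma w‖ = Real.exp ((SS w).re + Del w) := by
  rw [Del, add_sub_cancel, Real.exp_log (norm_pos_iff.2 (Gamma_ne_zero_of_slit h))]

theorem GG_bound : ∃ C : ℝ, 0 ≤ C ∧ ∀ (e : Bool) (z : ℂ), Good 1 (sg e * z) →
    ‖GG e z‖ ≤ Real.exp ((sg e * SS (sg e * z)).re + C * Real.log (‖z‖ + 2)) := by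
  obtain ⟨C, C0, hC⟩ := Del_bound
  refine ⟨C, C0, fun e z hz => ?_⟩
  have h1 := abs_le.1 (hC _ hz)
  have h2 := norm_Gamma_eq (hz.slit one_pos)
  rw [norm_mul, norm_sg, one_mul] at h1
  cases e
  · simp only [sg, Bool.false_eq_true, if_false, neg_mul, one_mul, GG, gg] at *
    have n1 := hz.le_norm
    rw [show 1 - z = -z + 1 by ring, Complex.Gamma_add_one _ (norm_pos_iff.1 (by linarith)),
      norm_inv, norm_mul, h2, mul_inv, ← Real.exp_neg]
    refine (mul_le_of_le_one_left (Real.exp_pos _).le (inv_le_one_of_one_le₀ n1)).trans ?_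
    refine Real.exp_le_exp.2 ?_
    rw [neg_re]
    linarith [h1.1]
  · simp only [sg, if_true, one_mul, GG] at *
    rw [h2]
    exact Real.exp_le_exp.2 (by linarith [h1.2])

lemma log_near {z ζ : ℂ} (h : ‖ζ‖ ≤ ‖z‖ + 2) (hz : 1 ≤ ‖z‖) :
    Real.log (‖ζ‖ + 2) ≤ 2 * Real.log (‖z‖ + 2) := by
  have a : ‖ζ‖ + 2 ≤ (‖z‖ + 2) ^ 2 := by nlinarith
  have := Real.log_le_log (by positivity) a
  rwa [Real.log_pow] at this

theorem digamma_bound : ∃ C : ℝ, 0 ≤ C ∧ ∀ w : ℂ, Good 2 w →
    ‖digamma w‖ ≤ Real.exp (C * Real.log (‖w‖ + 2)) := by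
  obtain ⟨C, C0, hC⟩ := Del_bound
  refine ⟨3 * C + 6, by positivity, fun w hw => ?_⟩
  have hg : ∀ ζ ∈ Metric.closedBall w 1, Good 1 ζ := fun ζ hζ =>
    Good.near (r := 1) (by norm_num; exact hw) (by rwa [← dist_eq_norm])
  have hw1 : Good 1 w := hw.mono (by norm_num)
  set L := Real.log (‖w‖ + 2) with hL
  have L1 : 1 ≤ L := one_le_log_norm hw1.le_norm
  have hn : ∀ ζ ∈ Metric.closedBall w 1, ‖ζ‖ ≤ ‖w‖ + 1 := fun ζ hζ => by
    have := norm_le_norm_add_norm_sub' ζ w
    rw [Metric.mem_closedBall, dist_eq_norm] at hζ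
    linarith
  have hb : ∀ ζ ∈ Metric.sphere w 1, ‖Gamma ζ‖ ≤ ‖Gamma w‖ * Real.exp ((3 * C + 6) * L) := by
    intro ζ hζ
    have hζ' := Metric.sphere_subset_closedBall hζ
    have a1 := SS_lip (convex_closedBall w 1) (fun x hx => (hg x hx).slit one_pos) (M := L + 4)
      (fun x hx => (norm_log_le x).trans (by
        rw [abs_of_nonneg (Real.log_nonneg (hg x hx).le_norm)]
        have := Real.log_le_log (by linarith [(hg x hx).le_norm]) (by linarith [hn x hx] :
          ‖x‖ ≤ ‖w‖ + 2)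
        linarith [Real.pi_le_four])) (Metric.mem_closedBall_self zero_le_one) hζ'
    rw [← dist_eq_norm ζ w, Metric.mem_sphere.1 hζ, mul_one] at a1
    have a2 := (re_le_norm _).trans a1
    rw [sub_re] at a2
    have a3 := abs_le.1 (hC ζ (hg ζ hζ'))
    have a4 := abs_le.1 (hC w hw1)
    have a5 := log_near (z := w) (ζ := ζ) (by linarith [hn ζ hζ']) hw1.le_norm
    rw [norm_Gamma_eq ((hg ζ hζ').slit one_pos), norm_Gamma_eq (hw1.slit one_pos), ← Real.exp_add]
    refine Real.exp_le_exp.2 ?_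
    nlinarith [a3.2, a4.1]
  have hd : DiffContOnCl ℂ Gamma (Metric.ball w 1) := by
    refine DifferentiableOn.diffContOnCl ?_
    rw [closure_ball w one_ne_zero]
    exact fun x hx => (Complex.differentiableAt_Gamma x
      (ne_neg_nat_of_slit ((hg x hx).slit one_pos))).differentiableWithinAt
  have := Complex.norm_deriv_le_of_forall_mem_sphere_norm_le one_pos hd hb
  have p := norm_pos_iff.2 (Gamma_ne_zero_of_slit (hw1.slit one_pos))
  rw [digamma_def, logDeriv_apply, norm_div, div_le_iff₀ p]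
  linarith

theorem PS_bound (k : ℕ) : ∃ C : ℝ, 0 ≤ C ∧ ∀ (e : Bool) (z : ℂ), Good 3 (sg e * z) →
    ‖PS e k z‖ ≤ Real.exp (C * Real.log (‖z‖ + 2)) := by
  obtain ⟨C, C0, hC⟩ := digamma_bound
  refine ⟨k.factorial + 2 * C, by positivity, fun e z hz => ?_⟩
  have hg : ∀ ζ ∈ Metric.closedBall z 1, Good 2 (ar e ζ) := fun ζ hζ =>
    (Good.near (r := 1) (by norm_num; exact hz) (by
      rwa [← mul_sub, norm_mul, norm_sg, one_mul, ← dist_eq_norm])).ar
  have hz1 : 1 ≤ ‖z‖ := by
    have := hz.le_norm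
    rw [norm_mul, norm_sg, one_mul] at this
    linarith
  set L := Real.log (‖z‖ + 2) with hL
  have L1 : 1 ≤ L := one_le_log_norm hz1
  have hd : DiffContOnCl ℂ (fun z => digamma (ar e z)) (Metric.ball z 1) := by
    refine DifferentiableOn.diffContOnCl ?_
    rw [closure_ball z one_ne_zero]
    exact fun x hx => ((analyticAt_digamma (ne_neg_nat_of_slit ((hg x hx).slit two_pos))).comp
      (analyticAt_ar e x)).differentiableAt.differentiableWithinAt
  have hb : ∀ ζ ∈ Metric.sphere z 1, ‖digamma (ar e ζ)‖ ≤ Real.exp (2 * C * L) := by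
    intro ζ hζ
    refine (hC _ (hg ζ (Metric.sphere_subset_closedBall hζ))).trans (Real.exp_le_exp.2 ?_)
    have a1 : ‖ζ‖ ≤ ‖z‖ + 1 := by
      have := norm_le_norm_add_norm_sub' ζ z
      rw [Metric.mem_sphere, dist_eq_norm] at hζ
      linarith
    have a2 : ‖ar e ζ‖ ≤ ‖z‖ + 2 := by
      cases e
      · refine (norm_sub_le _ _).trans ?_
        rw [norm_one]; linarith
      · simp only [ar, if_true]; linarith
    nlinarith [log_near a2 hz1]
  have := Complex.norm_iteratedDeriv_le_of_forall_mem_sphere_norm_le k one_pos hd hb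
  rw [one_pow, div_one] at this
  refine this.trans ?_
  rw [add_mul, Real.exp_add]
  refine mul_le_mul_of_nonneg_right ?_ (Real.exp_pos _).le
  have : (0 : ℝ) ≤ k.factorial := Nat.cast_nonneg _
  nlinarith [Real.add_one_le_exp ((k.factorial : ℝ) * L)]

/-- Entire functions of order at most one. -/
def Ent : Subalgebra ℂ (ℂ → ℂ) where
  carrier := {h | Differentiable ℂ h ∧ ∀ p : ℝ, 1 < p → ∃ C : ℝ, 0 ≤ C ∧
    ∀ z, ‖h z‖ ≤ Real.exp (C * (1 + ‖z‖) ^ p)}
  mul_mem' := by
    rintro f g ⟨hf, hf'⟩ ⟨hg, hg'⟩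
    refine ⟨hf.mul hg, fun p hp => ?_⟩
    obtain ⟨C, C0, hC⟩ := hf' p hp
    obtain ⟨C', C0', hC'⟩ := hg' p hp
    refine ⟨C + C', by positivity, fun z => ?_⟩
    rw [Pi.mul_apply, norm_mul, add_mul, Real.exp_add]
    exact mul_le_mul (hC z) (hC' z) (norm_nonneg _) (Real.exp_pos _).le
  add_mem' := by
    rintro f g ⟨hf, hf'⟩ ⟨hg, hg'⟩
    refine ⟨hf.add hg, fun p hp => ?_⟩
    obtain ⟨C, C0, hC⟩ := hf' p hp
    obtain ⟨C', C0', hC'⟩ := hg' p hp
    refine ⟨C + C' + 1, by positivity, fun z => ?_⟩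
    set X := (1 + ‖z‖) ^ p with hX
    have x3 : 1 ≤ X := Real.one_le_rpow (by linarith [norm_nonneg z]) (by linarith)
    have y1 : ‖f z‖ ≤ Real.exp ((C + C') * X) := (hC z).trans (Real.exp_le_exp.2 (by nlinarith))
    have y2 : ‖g z‖ ≤ Real.exp ((C + C') * X) := (hC' z).trans (Real.exp_le_exp.2 (by nlinarith))
    rw [add_mul (C + C'), Real.exp_add, one_mul]
    have := norm_add_le (f z) (g z)
    have z : 2 ≤ Real.exp X := by linarith [Real.add_one_le_exp X]
    simp only [Pi.add_apply]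
    nlinarith [Real.exp_pos ((C + C') * X)]
  algebraMap_mem' := fun c => ⟨differentiable_const c, fun p hp => ⟨‖c‖, norm_nonneg _, fun z => by
    have x3 : 1 ≤ (1 + ‖z‖) ^ p := Real.one_le_rpow (by linarith [norm_nonneg z]) (by linarith)
    simp only [Pi.algebraMap_apply, Algebra.algebraMap_self, RingHom.id_apply]
    nlinarith [Real.add_one_le_exp (‖c‖ * (1 + ‖z‖) ^ p), norm_nonneg c]⟩⟩

lemma Ent.deriv {h : ℂ → ℂ} (hh : h ∈ Ent) : deriv h ∈ Ent := by
  refine ⟨hh.1.deriv, fun p hp => ?_⟩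
  obtain ⟨C, C0, hC⟩ := hh.2 p hp
  refine ⟨C * 2 ^ p, by positivity, fun z => ?_⟩
  have := Complex.norm_deriv_le_of_forall_mem_sphere_norm_le (c := z) one_pos hh.1.diffContOnCl
    (C := Real.exp (C * 2 ^ p * (1 + ‖z‖) ^ p)) fun ζ hζ => (hC ζ).trans (Real.exp_le_exp.2 (by
      rw [mul_assoc, ← Real.mul_rpow (by norm_num) (by positivity)]
      have := norm_le_norm_add_norm_sub' ζ z
      rw [Metric.mem_sphere, dist_eq_norm] at hζ
      gcongr
      linarith [norm_nonneg z]))
  rwa [div_one] at this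

lemma logGamma_bound {p : ℝ} (hp : 1 < p) : ∃ C : ℝ, 0 ≤ C ∧ ∀ w : ℂ, Good 1 w →
    |(SS w).re + Del w| ≤ C * (1 + ‖w‖) ^ p := by
  obtain ⟨C, C0, hC⟩ := Del_bound
  refine ⟨(C + 1) * (5 + (p - 1)⁻¹), by have := sub_pos.2 hp; positivity, fun w hw => ?_⟩
  have hε : 0 < p - 1 := sub_pos.2 hp
  set X := 1 + ‖w‖ with hX
  have X1 : 1 ≤ X := by linarith [norm_nonneg w]
  set Y := X ^ (p - 1) with hY
  have Y1 : 1 ≤ Y := Real.one_le_rpow X1 hε.le
  have hXY : X ^ p = X * Y := by
    rw [hY, mul_comm, ← Real.rpow_add_one (by linarith)]; congr 1; ring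
  have l1 : Real.log X ≤ (p - 1)⁻¹ * Y := by
    have := Real.log_le_rpow_div (by linarith : 0 ≤ X) hε
    rwa [div_eq_inv_mul] at this
  have n1 := hw.le_norm
  have l2 : Real.log ‖w‖ ≤ Real.log X := Real.log_le_log (by linarith) (by linarith)
  have l3 : Real.log (‖w‖ + 2) ≤ 1 + Real.log X := by
    have := Real.log_le_log (by linarith) (by linarith : ‖w‖ + 2 ≤ 2 * X)
    rw [Real.log_mul (by norm_num) (by linarith)] at this
    linarith [Real.log_two_lt_d9]
  have s1 : ‖SS w‖ ≤ X * ((5 + (p - 1)⁻¹) * Y) := by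
    have : SS w = w * (Complex.log w - 1) := by rw [SS]; ring
    rw [this, norm_mul]
    refine mul_le_mul (by linarith) ((norm_sub_le _ _).trans ?_) (norm_nonneg _) (by linarith)
    have := norm_log_le w
    rw [abs_of_nonneg (Real.log_nonneg n1)] at this
    rw [norm_one]
    nlinarith [Real.pi_le_four]
  have s2 : |Del w| ≤ C * (X * ((5 + (p - 1)⁻¹) * Y)) := by
    refine (hC w hw).trans (mul_le_mul_of_nonneg_left ?_ C0)
    have : 0 ≤ (p - 1)⁻¹ * Y := by positivity
    nlinarith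
  refine (abs_add_le _ _).trans ?_
  have := abs_re_le_norm (SS w)
  rw [hXY]
  nlinarith

lemma gg_eq_sin {z : ℂ} (hz : Gamma (1 - z) ≠ 0) :
    gg z = Complex.sin (Real.pi * z) * Gamma (1 - z) / Real.pi := by
  have h := Complex.Gamma_mul_Gamma_one_sub z
  rw [gg, eq_div_of_mul_eq hz h, inv_div, div_div_eq_mul_div, mul_comm]

lemma gg_mem_Ent : gg ∈ Ent := by
  refine ⟨differentiable_gg, fun p hp => ?_⟩
  obtain ⟨C, C0, hC⟩ := logGamma_bound hp
  obtain ⟨K, hK⟩ := (isCompact_closedBall (0 : ℂ) 2).exists_bound_of_continuousOn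
    differentiable_gg.continuous.continuousOn
  refine ⟨C * 2 ^ p + 4 + |K|, by positivity, fun z => ?_⟩
  set X := (1 + ‖z‖) ^ p with hX
  have x3 : 1 ≤ X := Real.one_le_rpow (by linarith [norm_nonneg z]) (by linarith)
  have t1 : (1 : ℝ) ≤ 2 ^ p := Real.one_le_rpow (by norm_num) (by linarith)
  have t2 : C * X ≤ C * 2 ^ p * X := by
    rw [mul_assoc]; exact mul_le_mul_of_nonneg_left (by nlinarith) C0
  have t3 : 0 ≤ C * X := by positivity
  by_cases h1 : Good 1 z
  · rw [gg, norm_inv, norm_Gamma_eq (h1.slit one_pos), ← Real.exp_neg]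
    refine Real.exp_le_exp.2 ?_
    nlinarith [(abs_le.1 (hC z h1)).1, abs_nonneg K]
  · simp only [Good, not_or, not_le] at h1
    by_cases h2 : z.re ≤ 0
    · have h3 : Good 1 (1 - z) := Or.inl (by simp; linarith)
      rw [gg_eq_sin (Gamma_ne_zero_of_slit (h3.slit one_pos)), norm_div, norm_mul,
        norm_Gamma_eq (h3.slit one_pos), Complex.norm_real, Real.norm_of_nonneg Real.pi_pos.le]
      refine (div_le_self (by positivity) (by linarith [Real.pi_gt_three])).trans ?_
      refine (mul_le_mul_of_nonneg_right (norm_sin_le _) (Real.exp_pos _).le).trans ?_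
      rw [← Real.exp_add]
      refine Real.exp_le_exp.2 ?_
      have a1 : |((Real.pi : ℂ) * z).im| ≤ 4 := by
        simp [abs_mul, abs_of_pos Real.pi_pos]
        nlinarith [Real.pi_le_four, abs_nonneg z.im, Real.pi_pos]
      have a2 : (1 + ‖1 - z‖) ^ p ≤ 2 ^ p * X := by
        rw [hX, ← Real.mul_rpow (by norm_num) (by positivity)]
        have := norm_sub_le 1 z
        rw [norm_one] at this
        gcongr
        linarith [norm_nonneg z]
      have a3 := (abs_le.1 (hC _ h3)).2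
      nlinarith [abs_nonneg K, mul_le_mul_of_nonneg_left a2 C0]
    · have := hK z (by
        rw [Metric.mem_closedBall, dist_zero_right]
        refine (norm_le_abs_re_add_abs_im z).trans ?_
        rw [abs_of_nonneg (by linarith)]
        linarith [h1.1, h1.2])
      refine this.trans ?_
      refine le_trans ?_ (Real.add_one_le_exp _)
      nlinarith [le_abs_self K, abs_nonneg K]

/-- Numerators of the polygamma functions. -/
noncomputable def NN : ℕ → ℂ → ℂ
  | 0 => -deriv gg
  | k + 1 => deriv (NN k) * gg - ((k : ℂ) + 1) • (NN k * deriv gg)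

lemma NN_mem_Ent (k : ℕ) : NN k ∈ Ent := by
  induction k with
  | zero => exact Ent.neg_mem (Ent.deriv gg_mem_Ent)
  | succ k ih =>
    exact Ent.sub_mem (Ent.mul_mem (Ent.deriv ih) gg_mem_Ent)
      (Ent.smul_mem (Ent.mul_mem ih (Ent.deriv gg_mem_Ent)) _)

lemma PS_eq_NN (k : ℕ) {z : ℂ} (hz : gg z ≠ 0) : PS true k z = NN k z / gg z ^ (k + 1) := by
  have hreg : ∀ {z : ℂ}, gg z ≠ 0 → ∀ m : ℕ, z ≠ -m := fun hz m h =>
    hz (by rw [h, gg, Complex.Gamma_neg_nat_eq_zero, inv_zero])
  induction k generalizing z with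
  | zero =>
    simp only [PS, iteratedDeriv_zero, ar, if_true, NN, Pi.neg_apply,
      (hasDerivAt_gg (hreg hz)).deriv, zero_add, pow_one]
    field_simp
  | succ k ih =>
    have h1 := ((NN_mem_Ent k).1 z).hasDerivAt.div ((differentiable_gg z).hasDerivAt.pow (k + 1))
      (pow_ne_zero _ hz)
    have h2 := h1.congr_of_eventuallyEq (f₁ := PS true k) (by
      filter_upwards [differentiable_gg.continuous.continuousAt.eventually_ne hz] with w hw
      exact ih hw)
    have h3 := h2.deriv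
    simp only [PS, iteratedDeriv_succ] at h3 ⊢
    rw [h3]
    simp only [NN, Pi.pow_apply, Nat.add_sub_cancel, Pi.sub_apply, Pi.mul_apply, Pi.smul_apply,
      smul_eq_mul]
    push_cast
    field_simp
    ring

end Pool.Agent.P.MP_26ad15_nt
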