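import Pool.Agent.P.MP_26ad15_nt.Puiseux
import Pool.Agent.P.MP_26ad15_nt.Core2

/-! The one variable independence theorem for `Γ` composed with algebraic functions. -/

namespace Pool.Agent.P.MP_26ad15_nt

open Complex Set Filter Topology Polynomial Asymptotics

/-- Vanishing of a meromorphic function on `D`. -/
def Van (D : Set ℂ) (E : ℂ → ℂ) : Prop := ∀ y ∈ D, ∀ᶠ t in 𝓝[≠] y, E t = 0

lemma van_iff {D : Set ℂ} (ho : IsOpen D) {E : ℂ → ℂ} (hE : AnalyticOnNhd ℂ E D) :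
    Van D E ↔ ∀ t ∈ D, E t = 0 :=
  ⟨fun h t ht => ((hE t ht).frequently_zero_iff_eventually_zero.1 (h t ht).frequently).self_of_nhds,
    fun h _ ht => eventually_nhdsWithin_of_eventually_nhds (eventually_of_mem (ho.mem_nhds ht) h)⟩

lemma van_iff_gm {D : Set ℂ} (hD : IsPreconnected D) {τ₀ : ℂ} (h0 : τ₀ ∈ D) {𝒰 : Ultrafilter ℂ}
    (hU : (𝒰 : Filter ℂ) ≤ 𝓝[≠] τ₀) {E : ℂ → ℂ} (hE : MeromorphicOn E D) :
    Van D E ↔ gm 𝒰 E = 0 :=
  ⟨fun h => gm_eq_zero_iff.2 ((h _ h0).filter_mono hU),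
    fun h _ hy => eventually_of_gm_eq_zero hD h0 hU hE h hy⟩

section Rel

variable {σ : Type*}

/-- Expressions which are meromorphic in analytic arguments. -/
def Adm (Φ : (σ → ℂ) → ℂ) : Prop := ∀ (x : σ → ℂ → ℂ) (t : ℂ), (∀ s, AnalyticAt ℂ (x s) t) →
  MeromorphicAt (fun t => Φ fun s => x s t) t

/-- Two families of analytic functions satisfy the same relations. -/
def Rel (D : Set ℂ) (x : σ → ℂ → ℂ) (D' : Set ℂ) (x' : σ → ℂ → ℂ) : Prop :=
  ∀ Φ : (σ → ℂ) → ℂ, Adm Φ → (Van D (fun t => Φ fun s => x s t) ↔ Van D' fun t => Φ fun s => x' s t)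

lemma Rel.trans {D D' D'' : Set ℂ} {x x' x'' : σ → ℂ → ℂ} (h : Rel D x D' x')
    (h' : Rel D' x' D'' x'') : Rel D x D'' x'' := fun Φ hΦ => (h Φ hΦ).trans (h' Φ hΦ)

lemma Rel.comp {σ' : Type*} {D D' : Set ℂ} {x x' : σ → ℂ → ℂ} (h : Rel D x D' x') (φ : σ' → σ) :
    Rel D (fun s => x (φ s)) D' fun s => x' (φ s) := fun Φ hΦ =>
  h (fun v => Φ fun s => v (φ s)) fun y t hy => hΦ (fun s => y (φ s)) t fun s => hy (φ s)

lemma rel_of_link {D D' : Set ℂ} {x x' : σ → ℂ → ℂ} (hD : IsPreconnected D)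
    (hD' : IsPreconnected D') (hx : ∀ s, AnalyticOnNhd ℂ (x s) D)
    (hx' : ∀ s, AnalyticOnNhd ℂ (x' s) D') {t₁ τ₁ : ℂ} (h1 : t₁ ∈ D) (h2 : τ₁ ∈ D') {m : ℂ → ℂ}
    (hm : Tendsto m (𝓝[≠] τ₁) (𝓝[≠] t₁)) (he : ∀ᶠ τ in 𝓝[≠] τ₁, ∀ s, x' s τ = x s (m τ)) :
    Rel D x D' x' := by
  intro Φ hΦ
  have e : ∀ᶠ τ in 𝓝[≠] τ₁, (Φ fun s => x' s τ) = Φ fun s => x s (m τ) :=
    he.mono fun τ h => congrArg Φ (funext h)
  constructor
  · intro h y hy
    refine mero_transfer hD' (fun t ht => hΦ x' t fun s => hx' s t ht) h2 hy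
      (Eventually.frequently ?_)
    filter_upwards [e, hm.eventually (h _ h1)] with τ a b using a.trans b
  · intro h y hy
    refine mero_transfer hD (fun t ht => hΦ x t fun s => hx s t ht) h1 hy
      (hm.frequently (Eventually.frequently ?_))
    filter_upwards [e, h _ h2] with τ a b using a.symm.trans b

end Rel

variable {ι : Type*}

/-- The values `ξ, Γ(z_i), ψ^(k)(z_i)`. -/
noncomputable def fam (v : Option ι → ℂ) : Option (ι ⊕ ι × ℕ) → ℂ := fun s =>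
  s.elim (v none) (Sum.elim (fun i => Gamma (v (some i))) fun j => PS true j.2 (v (some j.1)))

/-- The hypotheses of the independence theorem. -/
def Hyp (D : Set ℂ) (x : Option ι → ℂ → ℂ) : Prop :=
  (∀ s a, ¬ Van D fun t => x s t - a) ∧
  (∀ i s, ∃ Q : ℂ[X][X], Q ≠ 0 ∧ Van D fun t => Q.eval₂ (evalRingHom (x (some i) t)) (x s t)) ∧
  ∀ i j, i ≠ j → ∀ (a : ℚ) (m m' : ℤ),
    ¬ Van D fun t => x (some i) t - m - a * (x (some j) t - m')

/-- The conclusion of the independence theorem. -/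
def Con (D : Set ℂ) (x : Option ι → ℂ → ℂ) : Prop := ∀ P : MvPolynomial (Option (ι ⊕ ι × ℕ)) ℂ,
  Van D (fun t => MvPolynomial.eval (fam fun s => x s t) P) → P = 0

lemma meromorphicAt_mveval {σ : Type*} {x : σ → ℂ → ℂ} {t : ℂ} (h : ∀ s, MeromorphicAt (x s) t)
    (P : MvPolynomial σ ℂ) : MeromorphicAt (fun t => MvPolynomial.eval (fun s => x s t) P) t := by
  induction P using MvPolynomial.induction_on with
  | C c => simp
  | add p q hp hq => simp only [map_add]; exact hp.add hq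
  | mul_X p s hp => simp only [map_mul, MvPolynomial.eval_X]; exact hp.mul (h s)

lemma adm_fam (P : MvPolynomial (Option (ι ⊕ ι × ℕ)) ℂ) :
    Adm fun v : Option ι → ℂ => MvPolynomial.eval (fam v) P := by
  intro x t hx
  refine meromorphicAt_mveval (x := fun s t => fam (fun s => x s t) s) ?_ P
  rintro (_ | i | ⟨i, k⟩)
  · exact (hx none).meromorphicAt
  · exact (Meromorphic.Gamma _).comp_analyticAt (hx (some i))
  · exact (meromorphic_PS true k _).comp_analyticAt (hx (some i))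

lemma Rel.hyp {D D' : Set ℂ} {x x' : Option ι → ℂ → ℂ} (h : Rel D x D' x') (H : Hyp D x) :
    Hyp D' x' := by
  refine ⟨fun s a e => H.1 s a ((h (fun v => v s - a) fun y t hy =>
    ((hy s).sub analyticAt_const).meromorphicAt).2 e), fun i s => ?_,
    fun i j hij a m m' e => H.2.2 i j hij a m m'
      ((h (fun v => v (some i) - m - a * (v (some j) - m')) fun y t hy =>
        (((hy _).sub analyticAt_const).sub (analyticAt_const.mul
          ((hy _).sub analyticAt_const))).meromorphicAt).2 e)⟩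
  obtain ⟨Q, h1, h2⟩ := H.2.1 i s
  exact ⟨Q, h1, (h (fun v => Q.eval₂ (evalRingHom (v (some i))) (v s)) fun y t hy =>
    (analyticAt_eval₂ (analyticAt_evalRH (hy _)) (hy s) Q).meromorphicAt).1 h2⟩

lemma Rel.con {D D' : Set ℂ} {x x' : Option ι → ℂ → ℂ} (h : Rel D x D' x') (H : Con D' x') :
    Con D x := fun P hP => H P ((h _ (adm_fam P)).1 hP)

lemma Hyp.comp {ι' : Type*} {D : Set ℂ} {x : Option ι → ℂ → ℂ} (H : Hyp D x) {φ : ι' → ι}
    (hφ : Function.Injective φ) : Hyp D fun s => x (s.map φ) :=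
  ⟨fun _ => H.1 _, fun i _ => H.2.1 (φ i) _, fun _ _ hij => H.2.2 _ _ (hφ.ne hij)⟩

lemma con_iff {D : Set ℂ} (hD : IsPreconnected D) {τ₀ : ℂ} (h0 : τ₀ ∈ D) {𝒰 : Ultrafilter ℂ}
    (hU : (𝒰 : Filter ℂ) ≤ 𝓝[≠] τ₀) {x : Option ι → ℂ → ℂ} (hx : ∀ s, AnalyticOnNhd ℂ (x s) D) :
    Con D x ↔ AlgebraicIndependent ℂ fun s => gm 𝒰 fun t => fam (fun s => x s t) s := by
  rw [algebraicIndependent_iff]
  refine forall_congr' fun P => imp_congr_left ?_
  rw [gm_aeval, van_iff_gm hD h0 hU fun t ht => adm_fam P x t fun s => hx s t ht]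

lemma tendsto_nhdsNE_of_not_van {D : Set ℂ} (hD : IsPreconnected D) {F : ℂ → ℂ}
    (hF : AnalyticOnNhd ℂ F D) (h : ∀ a, ¬ Van D fun t => F t - a) {t : ℂ} (ht : t ∈ D) :
    Tendsto F (𝓝[≠] t) (𝓝[≠] F t) := by
  refine tendsto_nhdsWithin_iff.2 ⟨(hF t ht).continuousAt.tendsto.mono_left nhdsWithin_le_nhds, ?_⟩
  by_contra hc
  refine h (F t) fun y hy => mero_transfer hD (hF.sub analyticOnNhd_const).meromorphicOn ht hy ?_
  exact (not_eventually.1 hc).mono fun z hz => sub_eq_zero.2 (not_not.1 hz)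

lemma gg_eventually_ne (z : ℂ) : ∀ᶠ w in 𝓝[≠] z, gg w ≠ 0 := by
  refine (analyticAt_gg z).eventually_eq_zero_or_eventually_ne_zero.resolve_left fun h => ?_
  have := AnalyticOnNhd.eqOn_zero_of_preconnected_of_eventuallyEq_zero (U := univ)
    (fun w _ => analyticAt_gg w) isPreconnected_univ (mem_univ z) h (mem_univ 1)
  simp [gg] at this

lemma exp_isBigO {a b : ℝ} (h : a ≤ b) :
    (fun τ => cexp (a * τ)) =O[LL] fun τ => cexp (b * τ) := by
  refine IsBigO.of_bound' ((HP_mem 0).mono fun τ hτ => ?_)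
  simp only [Complex.norm_exp, re_ofReal_mul, Real.exp_le_exp]
  exact mul_le_mul_of_nonneg_right h (le_of_lt hτ)

lemma bound_of_isBigO {F : ℂ → ℂ} {b : ℝ} (h : F =O[LL] fun τ => cexp (b * τ)) :
    ∀ᶠ r in atTop, ∃ C : ℝ, 0 ≤ C ∧ ∀ τ ∈ HP r, ‖F τ‖ ≤ C * Real.exp (b * |τ.re|) := by
  obtain ⟨C, C0, hC⟩ := h.exists_nonneg
  filter_upwards [eventually_LL.1 (hC.bound.and (HP_mem 0))] with r hr
  refine ⟨C, C0, fun τ hτ => ?_⟩
  obtain ⟨h1, h2⟩ := hr τ hτ
  rwa [Complex.norm_exp, re_ofReal_mul, ← abs_of_pos (show 0 < τ.re from h2)] at h1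

lemma ent_mem_Cl {r b C : ℝ} {F : ℂ → ℂ} (hF : AnalyticOnNhd ℂ F (HP r)) (b0 : 0 ≤ b) (b1 : b < 1)
    (C0 : 0 ≤ C) (hb : ∀ τ ∈ HP r, ‖F τ‖ ≤ C * Real.exp (b * |τ.re|)) {h : ℂ → ℂ} (hh : h ∈ Ent) :
    (fun τ => h (F τ)) ∈ Cl (HP r) (HP r) (0, 0) := by
  have han : AnalyticOnNhd ℂ (fun τ => h (F τ)) (HP r) := fun τ hτ =>
    (hh.1.analyticAt _).comp (hF τ hτ)
  have hp : 1 < 2 / (1 + b) := by rw [one_lt_div (by linarith)]; linarith
  obtain ⟨A, A0, hA⟩ := hh.2 _ hp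
  refine ⟨han.meromorphicOn, han, b * (2 / (1 + b)), A * (1 + C) ^ (2 / (1 + b)), by positivity,
    by rw [← mul_div_assoc, div_lt_one (by linarith)]; linarith, by positivity, fun τ hτ => ?_⟩
  refine (hA _).trans (Real.exp_le_exp.2 ?_)
  rw [show ((0 : ℂ), (0 : ℂ)) = 0 from rfl, Qr_zero, zero_add, mul_assoc A, mul_right_comm,
    Real.exp_mul, ← Real.mul_rpow (by positivity) (by positivity)]
  have : 1 ≤ Real.exp (b * |τ.re|) := Real.one_le_exp (by positivity)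
  gcongr
  nlinarith [hb τ hτ]

lemma pol_mem_Cl {r b C : ℝ} {F : ℂ → ℂ} (hF : AnalyticOnNhd ℂ F (HP r)) (b0 : 0 ≤ b)
    (C0 : 0 ≤ C) (hb : ∀ τ ∈ HP r, ‖F τ‖ ≤ C * Real.exp (b * |τ.re|)) :
    F ∈ Cl (HP r) (HP r) (0, 0) := by
  refine ⟨hF.meromorphicOn, hF, 1 / 2, C + 2 * b, by norm_num, by norm_num, by positivity,
    fun τ hτ => (hb τ hτ).trans ?_⟩
  rw [show ((0 : ℂ), (0 : ℂ)) = 0 from rfl, Qr_zero, zero_add, add_mul, Real.exp_add]
  have h1 : 1 ≤ Real.exp (1 / 2 * |τ.re|) := Real.one_le_exp (by positivity)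
  have h2 := Real.add_one_le_exp (1 / 2 * |τ.re|)
  have h3 := Real.add_one_le_exp (C * Real.exp (1 / 2 * |τ.re|))
  exact mul_le_mul (by nlinarith) (Real.exp_le_exp.2 (by nlinarith)) (Real.exp_pos _).le
    (Real.exp_pos _).le

/-- Normal form at infinity. -/
theorem normal_form [Finite ι] (i₀ : ι) {D : Set ℂ} (hD : IsPreconnected D) (ho : IsOpen D)
    {x : Option ι → ℂ → ℂ} (hx : ∀ s, AnalyticOnNhd ℂ (x s) D) (H : Hyp D x) :
    ∃ (r : ℝ) (F : Option ι → ℂ → ℂ) (c : ι → ℂ) (T : Set ι), T.Nonempty ∧ Rel D x (HP r) F ∧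
      (∀ s, AnalyticOnNhd ℂ (F s) (HP r)) ∧ (∀ i ∈ T, Top r (F (some i)) (c i)) ∧
      F none ∈ Cl (HP r) (HP r) (0, 0) ∧
      ∀ i ∉ T, ∀ h ∈ Ent, (fun τ => h (F (some i) τ)) ∈ Cl (HP r) (HP r) (0, 0) := by
  set f := x (some i₀) with hf
  obtain ⟨t₁, t1, t2⟩ : ∃ t₁ ∈ D, deriv f t₁ ≠ 0 := by
    by_contra hc
    push Not at hc
    obtain ⟨a, ha⟩ := ho.exists_is_const_of_deriv_eq_zero hD (hx _).differentiableOn hc
    exact H.1 (some i₀) a ((van_iff ho ((hx _).sub analyticOnNhd_const)).2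
      fun t ht => sub_eq_zero.2 (ha t ht))
  set s := (hx _ _ t1).hasStrictDerivAt.localInverse _ _ _ t2
  have s1 : AnalyticAt ℂ s (f t₁) := (hx _ _ t1).analyticAt_localInverse t2
  have s2 : s (f t₁) = t₁ := HasStrictFDerivAt.localInverse_apply_image ..
  have s3 : ∀ᶠ z in 𝓝 (f t₁), f (s z) = z := HasStrictDerivAt.eventually_right_inverse ..
  have s4 : ∀ᶠ z in 𝓝 (f t₁), s z ∈ D := s1.continuousAt.eventually (by rw [s2]; exact ho.mem_nhds t1)
  obtain ⟨Ω, r, τ₁, Y, N, o1, o2, o3, ⟨v1, v2, v3⟩, N0, hY⟩ := extend (g := fun σ z => x σ (s z))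
    (s4.and (s1.eventually_analyticAt.and s3.eventually_nhds))
    (fun σ => (hx σ t₁ t1).comp_of_eq s1 s2) fun σ => by
      obtain ⟨Q, q1, q2⟩ := H.2.1 i₀ σ
      rw [van_iff ho fun t ht => analyticAt_eval₂ (analyticAt_evalRH (hx _ t ht)) (hx _ t ht) Q] at q2
      refine ⟨Q, q1, ?_⟩
      filter_upwards [s3, s4] with z a b
      rw [← q2 _ b, ← hf, a]
  set c := f t₁
  have hz : ∀ τ, HasDerivAt (fun τ => c + cexp τ) (cexp τ) τ := fun τ =>
    (Complex.hasDerivAt_exp τ).const_add c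
  have v4 := (hz τ₁).continuousAt.eventually v3
  have r1 : Rel D x Ω Y := by
    refine rel_of_link hD o1 hx (fun σ => (hY σ).1) v1 o3 (m := fun τ => s (c + cexp τ)) ?_
      (eventually_nhdsWithin_of_eventually_nhds (eventually_all.2 fun σ => (hY σ).2.1))
    refine tendsto_nhdsWithin_iff.2 ⟨(v2.continuousAt.comp_of_eq (hz τ₁).continuousAt rfl
      ).tendsto.mono_left nhdsWithin_le_nhds, ?_⟩
    filter_upwards [(hz τ₁).eventually_ne (c := c + cexp τ₁) (Complex.exp_ne_zero _),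
      eventually_nhdsWithin_of_eventually_nhds v4] with τ a b e
    exact a (by rw [← b, e, v3.self_of_nhds])
  have y0 : ∀ τ ∈ Ω, Y (some i₀) τ = c + cexp τ :=
    (hY _).1.eqOn_of_preconnected_of_eventuallyEq
      (fun τ _ => analyticAt_const.add analyticAt_cexp) o1 o3 (by
        filter_upwards [(hY (some i₀)).2.1, v4] with τ a b using a.trans b)
  have hN : (0 : ℝ) < N := by exact_mod_cast N0
  have sc : ∀ {κ : ℝ}, 0 < κ → Tendsto (fun τ : ℂ => κ * τ) LL LL := fun {κ} hκ =>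
    tendsto_comap_iff.2 ((tendsto_comap.const_mul_atTop hκ).congr fun τ => by simp)
  have hm : ∀ τ ∈ HP (r / N), (N : ℂ) * τ ∈ HP r := fun τ hτ => by
    have : r / N < τ.re := hτ
    rw [div_lt_iff₀' hN] at this
    simpa [HP] using this
  have hP : ∀ i, ∃ (e : ℤ) (a : ℂ), a ≠ 0 ∧ (fun τ => Y (some i) (N * τ) - a * cexp (e * τ)) =O[LL]
      fun τ => cexp ((e - 1) * τ) := by
    intro i
    obtain ⟨a1, -, a2, M, a3⟩ := hY (some i)
    refine (puiseux (r := r / N) (Y := fun τ => Y (some i) (N * τ)) (M := N * M)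
      (fun τ hτ => (a1 _ (o2 (hm τ hτ))).comp_of_eq (analyticAt_const.mul analyticAt_id) rfl)
      (fun τ hτ => by rw [mul_add]; exact a2 _ (hm τ hτ))
      ((a3.comp_tendsto (sc hN)).congr_right fun τ => by
        simp [pow_mul, Complex.exp_nat_mul])).resolve_left fun h => ?_
    refine (r1.hyp H).1 (some i) 0 fun y hy => mero_transfer o1
      (a1.sub analyticOnNhd_const).meromorphicOn (x := ((r + 1 : ℝ) : ℂ)) (o2 (by simp [HP])) hy
      (Eventually.frequently (eventually_nhdsWithin_of_eventually_nhds ?_))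
    filter_upwards [(isOpen_HP r).mem_nhds (show ((r + 1 : ℝ) : ℂ) ∈ HP r by simp [HP])] with τ hτ
    have := h (τ / N) (by
      show r / N < _
      rw [div_natCast_re]
      exact div_lt_div_of_pos_right hτ hN)
    rwa [mul_div_cancel₀ _ (by exact_mod_cast N0.ne'), ← sub_zero (Y _ τ)] at this
  choose e a a0 ha using hP
  have hO : ∀ i, (fun τ => Y (some i) (N * τ)) =O[LL] fun τ => cexp ((e i : ℝ) * τ) := fun i => by
    have := ((ha i).congr_right (g₂ := fun τ => cexp (((e i - 1 : ℝ) : ℂ) * τ))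
      fun τ => by push_cast; rfl).trans (exp_isBigO (b := e i) (by linarith))
    exact (this.add ((isBigO_refl _ _).const_mul_left (a i))).congr_left fun τ => by simp
  obtain ⟨i₁, hi₁⟩ := @Finite.exists_max _ _ _ ⟨i₀⟩ _ e
  have E0 : (1 : ℝ) ≤ e i₁ := by
    by_contra hc
    have : e i₀ ≤ 0 := by
      have := hi₁ i₀
      have : e i₁ < 1 := by exact_mod_cast not_le.1 hc
      omega
    have h1 := (hO i₀).trans (exp_isBigO (b := 0) (by exact_mod_cast this))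
    simp only [ofReal_zero, zero_mul, Complex.exp_zero] at h1
    have h2 : Tendsto (fun τ => ‖Y (some i₀) (N * τ)‖) LL atTop := by
      refine (tendsto_norm_atTop_iff_cobounded.2 ((tendsto_add_exp c).comp (sc hN))).congr' ?_
      filter_upwards [HP_mem (r / N)] with τ hτ
      rw [y0 _ (o2 (hm τ hτ))]; rfl
    have : LL.NeBot := comap_neBot_iff_frequently.2 (Eventually.of_forall
      fun t => ⟨(t : ℂ), ofReal_re t⟩).frequently
    exact not_isBoundedUnder_of_tendsto_atTop h2 h1.isBoundedUnder_le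
  set E : ℝ := ((e i₁ : ℤ) : ℝ) with hEdef
  have hE : 0 < E⁻¹ := by positivity
  have hE1 : E⁻¹ ≤ 1 := inv_le_one_of_one_le₀ E0
  let F : Option ι → ℂ → ℂ := fun σ τ => Y σ (N * ((E⁻¹ : ℝ) * τ))
  have b1 : ∀ i, e i = e i₁ → (fun τ => F (some i) τ - a i * cexp τ) =O[LL]
      fun τ => cexp ((1 - E⁻¹ : ℝ) * τ) := fun i hi => by
    have hE' : (e i : ℂ) * (E⁻¹ : ℝ) = 1 := by
      rw [hi]; exact_mod_cast mul_inv_cancel₀ (by linarith : E ≠ 0)
    refine ((ha i).comp_tendsto (sc hE)).congr (fun τ => ?_) fun τ => ?_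
    · rw [Function.comp_apply, ← mul_assoc (e i : ℂ), hE', one_mul]
    · rw [Function.comp_apply, ← mul_assoc, sub_mul, hE', one_mul, ofReal_sub, ofReal_one]
  have b2 : ∀ i, e i ≠ e i₁ → F (some i) =O[LL] fun τ => cexp ((1 - E⁻¹ : ℝ) * τ) := fun i hi => by
    have h1 : (e i : ℝ) ≤ E - 1 := by
      have := hi₁ i
      have : e i ≤ e i₁ - 1 := by omega
      rw [hEdef]
      exact_mod_cast this
    refine (((hO i).comp_tendsto (sc hE)).congr_right (g₂ := fun τ => cexp ((e i * E⁻¹ : ℝ) * τ))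
      fun τ => by simp [mul_assoc]).trans (exp_isBigO ?_)
    have := mul_le_mul_of_nonneg_right h1 hE.le
    rwa [sub_mul, mul_inv_cancel₀ (by linarith), one_mul] at this
  obtain ⟨M, hM⟩ := (hY none).2.2.2
  have b3 : F none =O[LL] fun τ => cexp ((M * N * E⁻¹ : ℝ) * τ) :=
    ((hM.comp_tendsto (sc hN)).comp_tendsto (sc hE)).congr_right fun τ => by
      simp [← Complex.exp_nat_mul, mul_assoc]
  obtain ⟨r', ⟨c0, C3, c3, c4⟩, c1, c2⟩ := (((eventually_LL.1 (((sc hN).comp (sc hE)).eventually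
    (HP_mem r))).and (bound_of_isBigO b3)).and
    ((eventually_all.2 fun i => eventually_imp_distrib_left.2 fun h => bound_of_isBigO (b1 i h)).and
    (eventually_all.2 fun i => eventually_imp_distrib_left.2 fun h => bound_of_isBigO (b2 i h)))).exists
  have hl : ∀ τ, HasDerivAt (fun τ : ℂ => N * ((E⁻¹ : ℝ) * τ)) (N * ((E⁻¹ : ℝ) * 1)) τ := fun τ =>
    ((hasDerivAt_id τ).const_mul _).const_mul _
  have hF : ∀ σ, AnalyticOnNhd ℂ (F σ) (HP r') := fun σ τ hτ =>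
    ((hY σ).1 _ (o2 (c0 τ hτ))).comp_of_eq
      (analyticAt_const.mul (analyticAt_const.mul analyticAt_id)) rfl
  have h0 : ((r' + 1 : ℝ) : ℂ) ∈ HP r' := by simp [HP]
  refine ⟨r', F, a, {i | e i = e i₁}, ⟨i₁, rfl⟩, r1.trans (rel_of_link o1 (isPreconnected_HP r')
    (fun σ => (hY σ).1) hF (o2 (c0 _ h0)) h0 ((hl _).tendsto_nhdsNE (by
      simpa using ⟨N0.ne', by linarith⟩)) (Eventually.of_forall fun _ _ => rfl)), hF,
    fun i hi => ?_, pol_mem_Cl (hF none) (by positivity) c3 c4, fun i hi h hh => ?_⟩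
  · obtain ⟨C, d1, d2⟩ := c1 i hi
    exact ⟨a0 i, hF _, 1 - E⁻¹, C, by linarith, by linarith, d1, d2⟩
  · obtain ⟨C, d1, d2⟩ := c2 i hi
    exact ent_mem_Cl (hF _) (by linarith) (by linarith) d1 d2 hh

universe u

theorem alw_aux (n : ℕ) : ∀ (ι : Type u) [Finite ι], Nat.card ι = n → ∀ {D : Set ℂ},
    IsPreconnected D → IsOpen D → ∀ {x : Option ι → ℂ → ℂ}, (∀ s, AnalyticOnNhd ℂ (x s) D) →
      Hyp D x → Con D x := by
  induction n using Nat.strong_induction_on with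
  | _ n ih =>
  intro ι _ hn D hD ho x hx H
  cases isEmpty_or_nonempty ι with
  | inl h =>
    obtain ⟨t₀, h0⟩ : D.Nonempty := by
      by_contra hc
      exact H.1 none 0 fun y hy => (hc ⟨y, hy⟩).elim
    obtain ⟨𝒰, hU⟩ := Ultrafilter.exists_le (𝓝[≠] t₀)
    rw [con_iff hD h0 hU hx, algebraicIndependent_unique_type_iff]
    intro ha
    obtain ⟨a, ha⟩ := minpoly.degree_eq_one_iff.1 (IsAlgClosed.degree_eq_one_of_irreducible ℂ
      (minpoly.irreducible ha.isIntegral))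
    refine H.1 none a ((van_iff_gm hD h0 hU ((hx _).sub analyticOnNhd_const).meromorphicOn).2 ?_)
    exact (map_sub (gm 𝒰) (x none) fun _ => a).trans (sub_eq_zero.2 ha.symm)
  | inr h =>
    classical
    obtain ⟨r, F, c, T, ⟨i₁, hi₁⟩, r1, hF, h1, h2, h3⟩ := normal_form h.some hD ho hx H
    refine r1.con ?_
    have H' := r1.hyp H
    have h0 : ((r + 1 : ℝ) : ℂ) ∈ HP r := by simp [HP]
    have hD' := isPreconnected_HP r
    obtain ⟨𝒰, hU⟩ := Ultrafilter.exists_le (𝓝[≠] ((r + 1 : ℝ) : ℂ))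
    have a1 := core (ι := T) (F := fun i => F (some i)) (fun i => h1 i i.2) (fun i j hij a m m' e =>
      H'.2.2 i j (Subtype.coe_ne_coe.2 hij) a m m' fun y hy =>
        eventually_nhdsWithin_of_eventually_nhds (eventually_of_mem ((isOpen_HP r).mem_nhds hy)
          fun t ht => sub_eq_zero.2 (e t ht))) h0 hU
    have a2 := (con_iff hD' h0 hU fun s => hF _).1 (ih (Nat.card (Tᶜ : Set ι))
      (hn ▸ Finite.card_subtype_lt (x := i₁) (by simpa using hi₁)) _ rfl hD' (isOpen_HP r)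
      (fun s => hF _) (H'.comp Subtype.val_injective))
    have hK : ∀ E ∈ Cl (HP r) (HP r) (0, 0), gm 𝒰 E ∈ KK 𝒰 r fun i : T => F (some i) :=
      fun E hE => IntermediateField.subset_adjoin _ _ (Or.inl ⟨E, hE, rfl⟩)
    have a3 := a2.sumElim_of_tower (by
      rintro _ ⟨_ | i | ⟨i, k⟩, rfl⟩
      · exact ⟨⟨_, hK _ h2⟩, rfl⟩
      · refine ⟨⟨_, inv_mem (hK _ (h3 i i.2 _ gg_mem_Ent))⟩, ?_⟩
        show (gm 𝒰 _)⁻¹ = _
        rw [← gm_fun_inv]
        simp [gg, fam]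
      · refine ⟨⟨_, div_mem (hK _ (h3 i i.2 _ (NN_mem_Ent k)))
          (pow_mem (hK _ (h3 i i.2 _ gg_mem_Ent)) (k + 1))⟩, ?_⟩
        show gm 𝒰 _ / gm 𝒰 _ ^ _ = _
        rw [← map_pow, ← gm_div, gm_eq_iff]
        filter_upwards [((tendsto_nhdsNE_of_not_van hD' (hF _) (H'.1 (some i)) h0).eventually
          (gg_eventually_ne _)).filter_mono hU] with z hz
        exact (PS_eq_NN k hz).symm) a1
    let ψ : (T ⊕ T × ℕ) ⊕ Option ((Tᶜ : Set ι) ⊕ (Tᶜ : Set ι) × ℕ) → Option (ι ⊕ ι × ℕ) :=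
      Sum.elim (fun s => some (s.map (↑) (Prod.map (↑) id)))
        (Option.map (Sum.map (↑) (Prod.map (↑) id)))
    have hψ : Function.Surjective ψ := by
      rintro (_ | i | ⟨i, k⟩)
      · exact ⟨.inr none, rfl⟩
      · by_cases hi : i ∈ T
        exacts [⟨.inl (.inl ⟨i, hi⟩), rfl⟩, ⟨.inr (some (.inl ⟨i, hi⟩)), rfl⟩]
      · by_cases hi : i ∈ T
        exacts [⟨.inl (.inr (⟨i, hi⟩, k)), rfl⟩, ⟨.inr (some (.inr (⟨i, hi⟩, k))), rfl⟩]
    rw [con_iff hD' h0 hU hF]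
    convert! a3.comp _ (Function.injective_surjInv hψ) with s
    conv_lhs => rw [← Function.surjInv_eq hψ s]
    rw [Function.comp_apply]
    generalize Function.surjInv hψ s = w
    rcases w with (i | ⟨i, k⟩) | _ | i | ⟨i, k⟩ <;> rfl

theorem alw_one [Finite ι] {D : Set ℂ} (hD : IsPreconnected D) (ho : IsOpen D)
    {x : Option ι → ℂ → ℂ} (hx : ∀ s, AnalyticOnNhd ℂ (x s) D) (H : Hyp D x) : Con D x :=
  alw_aux _ ι rfl hD ho hx H

end Pool.Agent.P.MP_26ad15_nt
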