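import Pool.Agent.P.MP_26ad15_nt.Watson
import Pool.Agent.P.MP_26ad15_nt.AlgLemma
import Pool.Agent.P.MP_26ad15_nt.Germs

/-! Growth classes on half planes (in the logarithmic variable) and the splitting lemma. -/

namespace Pool.Agent.P.MP_26ad15_nt

open Complex Set Filter Topology Asymptotics

/-- Logarithmic chart of the half plane `exp (i φ) * {re ≥ R}`. -/
noncomputable def TT (φ R : ℝ) (ζ : ℂ) : ℂ := Complex.log (ζ + R) + φ * I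

/-- The half plane in the logarithmic variable. -/
def Sec (φ R : ℝ) : Set ℂ := TT φ R '' {ζ | 0 ≤ ζ.re}

/-- One of its boundary rays. -/
noncomputable def ray (φ R : ℝ) (y : ℝ) : ℂ := TT φ R (-(y * I))

/-- Exponential part attached to `γ`. -/
noncomputable def Qg (γ : ℂ × ℂ) (τ : ℂ) : ℂ := (γ.1 * τ + γ.2) * cexp τ

/-- Its real part. -/
noncomputable def Qr (γ : ℂ × ℂ) (τ : ℂ) : ℝ := (Qg γ τ).re

lemma Qr_add (γ γ' : ℂ × ℂ) (τ : ℂ) : Qr (γ + γ') τ = Qr γ τ + Qr γ' τ := by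
  rw [Qr, Qr, Qr, ← add_re]; congr 1; simp [Qg]; ring

lemma Qr_zero (τ : ℂ) : Qr 0 τ = 0 := by simp [Qr, Qg]

/-- Functions bounded by `exp (Q + subexponential)` on `S`. -/
def Grow (S : Set ℂ) (Q : ℂ → ℝ) : Submodule ℂ (ℂ → ℂ) where
  carrier := {E | ∃ b C : ℝ, 0 ≤ b ∧ b < 1 ∧ 0 ≤ C ∧
    ∀ τ ∈ S, ‖E τ‖ ≤ Real.exp (Q τ + C * Real.exp (b * |τ.re|))}
  zero_mem' := ⟨0, 0, le_rfl, one_pos, le_rfl, fun τ _ => by simp [(Real.exp_pos _).le]⟩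
  add_mem' := by
    rintro E E' ⟨b, C, b0, b1, C0, h⟩ ⟨b', C', b0', b1', C0', h'⟩
    refine ⟨max b b', C + C' + 1, le_max_of_le_left b0, max_lt b1 b1', by positivity,
      fun τ hτ => ?_⟩
    set X := Real.exp (max b b' * |τ.re|) with hX
    have x1 : Real.exp (b * |τ.re|) ≤ X := by rw [hX]; gcongr; exact le_max_left _ _
    have x2 : Real.exp (b' * |τ.re|) ≤ X := by rw [hX]; gcongr; exact le_max_right _ _
    have x3 : 1 ≤ X := Real.one_le_exp (mul_nonneg (le_max_of_le_left b0) (abs_nonneg _))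
    have y1 : ‖E τ‖ ≤ Real.exp (Q τ + (C + C') * X) :=
      (h τ hτ).trans (Real.exp_le_exp.2 (by nlinarith))
    have y2 : ‖E' τ‖ ≤ Real.exp (Q τ + (C + C') * X) :=
      (h' τ hτ).trans (Real.exp_le_exp.2 (by nlinarith))
    have e : Q τ + (C + C' + 1) * X = (Q τ + (C + C') * X) + X := by ring
    rw [e, Real.exp_add (Q τ + (C + C') * X)]
    have := norm_add_le (E τ) (E' τ)
    have z : 2 ≤ Real.exp X := by linarith [Real.add_one_le_exp X]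
    simp only [Pi.add_apply]
    nlinarith [Real.exp_pos (Q τ + (C + C') * X)]
  smul_mem' := by
    rintro c E ⟨b, C, b0, b1, C0, h⟩
    refine ⟨b, C + ‖c‖, b0, b1, by positivity, fun τ hτ => ?_⟩
    set X := Real.exp (b * |τ.re|) with hX
    have x3 : 1 ≤ X := Real.one_le_exp (mul_nonneg b0 (abs_nonneg _))
    have e : Q τ + (C + ‖c‖) * X = ‖c‖ * X + (Q τ + C * X) := by ring
    rw [e, Real.exp_add, Pi.smul_apply, norm_smul]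
    refine mul_le_mul ?_ (h τ hτ) (norm_nonneg _) (Real.exp_pos _).le
    nlinarith [Real.add_one_le_exp (‖c‖ * X), norm_nonneg c]

lemma Grow.mul {S : Set ℂ} {Q Q' Q'' : ℂ → ℝ} {E E' : ℂ → ℂ} (h : E ∈ Grow S Q)
    (h' : E' ∈ Grow S Q') (hQ : ∀ τ, Q'' τ = Q τ + Q' τ) : E * E' ∈ Grow S Q'' := by
  obtain ⟨b, C, b0, b1, C0, h⟩ := h
  obtain ⟨b', C', b0', b1', C0', h'⟩ := h'
  refine ⟨max b b', C + C', le_max_of_le_left b0, max_lt b1 b1', by positivity, fun τ hτ => ?_⟩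
  set X := Real.exp (max b b' * |τ.re|) with hX
  have x1 : Real.exp (b * |τ.re|) ≤ X := by rw [hX]; gcongr; exact le_max_left _ _
  have x2 : Real.exp (b' * |τ.re|) ≤ X := by rw [hX]; gcongr; exact le_max_right _ _
  rw [Pi.mul_apply, norm_mul]
  refine (mul_le_mul (h τ hτ) (h' τ hτ) (norm_nonneg _) (Real.exp_pos _).le).trans ?_
  rw [← Real.exp_add, hQ]
  exact Real.exp_le_exp.2 (by nlinarith)

lemma Grow.mono {S S' : Set ℂ} {Q : ℂ → ℝ} {E : ℂ → ℂ} (h : E ∈ Grow S Q) (hs : S' ⊆ S) :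
    E ∈ Grow S' Q := by
  obtain ⟨b, C, b0, b1, C0, h⟩ := h
  exact ⟨b, C, b0, b1, C0, fun τ hτ => h τ (hs hτ)⟩

lemma Grow.one {S : Set ℂ} {Q : ℂ → ℝ} (hQ : ∀ τ, Q τ = 0) : (1 : ℂ → ℂ) ∈ Grow S Q :=
  ⟨0, 0, le_rfl, one_pos, le_rfl, fun τ _ => by simp [hQ]⟩

lemma Grow.congr {S : Set ℂ} {Q Q' : ℂ → ℝ} {E : ℂ → ℂ} (h : E ∈ Grow S Q)
    (hQ : ∀ τ, Q τ = Q' τ) : E ∈ Grow S Q' := by
  obtain rfl : Q = Q' := funext hQ
  exact h

/-- Functions exponentially smaller than `exp Q` along the ray. -/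
def Sm (φ R : ℝ) (Q : ℂ → ℝ) : Submodule ℂ (ℂ → ℂ) where
  carrier := {E | ∃ δ : ℝ, 0 < δ ∧
    (fun y => E (ray φ R y)) =O[atTop] fun y => Real.exp (Q (ray φ R y) - δ * y)}
  zero_mem' := ⟨1, one_pos, isBigO_zero _ _⟩
  add_mem' := by
    rintro E E' ⟨δ, δ0, h⟩ ⟨δ', δ0', h'⟩
    have key : ∀ d : ℝ, min δ δ' ≤ d → (fun y : ℝ => Real.exp (Q (ray φ R y) - d * y)) =O[atTop]
        fun y => Real.exp (Q (ray φ R y) - min δ δ' * y) := by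
      intro d hd
      refine IsBigO.of_bound' ?_
      filter_upwards [eventually_ge_atTop 0] with y hy
      simp only [Real.norm_eq_abs, Real.abs_exp]
      gcongr
    exact ⟨min δ δ', lt_min δ0 δ0',
      (h.trans (key δ (min_le_left _ _))).add (h'.trans (key δ' (min_le_right _ _)))⟩
  smul_mem' := by
    rintro c E ⟨δ, δ0, h⟩
    exact ⟨δ, δ0, h.const_mul_left c⟩

lemma TT_re (φ R : ℝ) (ζ : ℂ) : (TT φ R ζ).re = Real.log ‖ζ + R‖ := by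
  simp [TT, Complex.log_re]

lemma one_le_norm_add {R : ℝ} (_hR : 1 ≤ R) {ζ : ℂ} (hζ : 0 ≤ ζ.re) : R ≤ ‖ζ + R‖ := by
  have := re_le_norm (ζ + R)
  simp at this
  linarith

lemma exp_TT {φ R : ℝ} (hR : 1 ≤ R) {ζ : ℂ} (hζ : 0 ≤ ζ.re) :
    cexp (TT φ R ζ) = (ζ + R) * cexp (φ * I) := by
  have := one_le_norm_add hR hζ
  rw [TT, Complex.exp_add, Complex.exp_log (norm_pos_iff.1 (by linarith))]

lemma exp_abs_TT {φ R : ℝ} (hR : 1 ≤ R) {ζ : ℂ} (hζ : 0 ≤ ζ.re) (b : ℝ) :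
    Real.exp (b * |(TT φ R ζ).re|) = ‖ζ + R‖ ^ b := by
  have := one_le_norm_add hR hζ
  rw [TT_re, abs_of_nonneg (Real.log_nonneg (by linarith)), Real.rpow_def_of_pos (by linarith),
    mul_comm]

lemma ray_mem (φ R y : ℝ) : ray φ R y ∈ Sec φ R := ⟨_, by simp, rfl⟩

lemma analyticAt_TT {φ R : ℝ} (hR : 1 ≤ R) {ζ : ℂ} (hζ : 0 ≤ ζ.re) : AnalyticAt ℂ (TT φ R) ζ := by
  have h1 : AnalyticAt ℂ (fun ζ : ℂ => ζ + R) ζ := by fun_prop
  exact (h1.clog (Or.inl (by simp; linarith))).add analyticAt_const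

lemma norm_ray_le {R y : ℝ} (hR : 1 ≤ R) (hy : R ≤ y) :
    y ≤ ‖-((y : ℂ) * I) + R‖ ∧ ‖-((y : ℂ) * I) + R‖ ≤ 2 * y := by
  constructor
  · have := abs_im_le_norm (-((y : ℂ) * I) + R)
    simp at this
    exact (le_abs_self _).trans this
  · refine (norm_add_le _ _).trans ?_
    simp [abs_of_nonneg (by linarith : 0 ≤ y), abs_of_nonneg (by linarith : 0 ≤ R)]
    linarith

lemma eventually_sub_le {φ R b C δ : ℝ} (hR : 1 ≤ R) (hb0 : 0 ≤ b) (hb : b < 1) (hC : 0 ≤ C)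
    (hδ : 0 < δ) : ∀ᶠ y : ℝ in atTop, C * Real.exp (b * |(ray φ R y).re|) ≤ δ * y := by
  have t : Tendsto (fun y : ℝ => C * 2 ^ b * y ^ (-(1 - b))) atTop (𝓝 (C * 2 ^ b * 0)) :=
    (tendsto_rpow_neg_atTop (by linarith)).const_mul _
  rw [mul_zero] at t
  filter_upwards [eventually_ge_atTop R, t.eventually (ge_mem_nhds hδ)] with y hy h
  have y0 : 0 < y := by linarith
  rw [ray, exp_abs_TT hR (by simp)]
  have h1 : ‖-((y : ℂ) * I) + R‖ ^ b ≤ (2 * y) ^ b :=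
    Real.rpow_le_rpow (norm_nonneg _) (norm_ray_le hR hy).2 hb0
  have h2 : (2 * y) ^ b = 2 ^ b * y ^ (-(1 - b)) * y := by
    rw [Real.mul_rpow (by norm_num) y0.le, mul_assoc, ← Real.rpow_add_one y0.ne']
    congr 2; ring
  calc C * ‖-((y : ℂ) * I) + R‖ ^ b ≤ C * (2 * y) ^ b := by gcongr
    _ = (C * 2 ^ b * y ^ (-(1 - b))) * y := by rw [h2]; ring
    _ ≤ δ * y := by gcongr

lemma Grow.isBigO_ray {S : Set ℂ} {Q : ℂ → ℝ} {E : ℂ → ℂ} (h : E ∈ Grow S Q) {φ R : ℝ}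
    (hR : 1 ≤ R) (hS : ∀ᶠ y in atTop, ray φ R y ∈ S) {δ : ℝ} (hδ : 0 < δ) :
    (fun y => E (ray φ R y)) =O[atTop] fun y => Real.exp (Q (ray φ R y) + δ * y) := by
  obtain ⟨b, C, b0, b1, C0, h⟩ := h
  refine IsBigO.of_bound' ?_
  filter_upwards [hS, eventually_sub_le (φ := φ) hR b0 b1 C0 hδ] with y h1 h2
  rw [Real.norm_eq_abs, Real.abs_exp]
  exact (h _ h1).trans (Real.exp_le_exp.2 (by linarith))

lemma Sm.mul_grow {S : Set ℂ} {Q Q' Q'' : ℂ → ℝ} {E E' : ℂ → ℂ} {φ R : ℝ} (h : E ∈ Sm φ R Q)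
    (h' : E' ∈ Grow S Q') (hR : 1 ≤ R) (hS : ∀ᶠ y in atTop, ray φ R y ∈ S)
    (hQ : ∀ τ, Q'' τ = Q τ + Q' τ) : E * E' ∈ Sm φ R Q'' := by
  obtain ⟨δ, δ0, h⟩ := h
  refine ⟨δ / 2, by positivity,
    (h.mul (Grow.isBigO_ray h' hR hS (δ := δ / 2) (by positivity))).congr_right fun y => ?_⟩
  rw [← Real.exp_add, hQ]
  congr 1; ring

lemma Grow.sm_of_dom {S : Set ℂ} {Q Q' : ℂ → ℝ} {E : ℂ → ℂ} (h : E ∈ Grow S Q) {φ R : ℝ}
    (hR : 1 ≤ R) (hS : ∀ᶠ y in atTop, ray φ R y ∈ S) {δ : ℝ} (hδ : 0 < δ)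
    (hd : ∀ᶠ y in atTop, Q (ray φ R y) ≤ Q' (ray φ R y) - δ * y) : E ∈ Sm φ R Q' := by
  refine ⟨δ / 2, by positivity,
    (Grow.isBigO_ray h hR hS (δ := δ / 2) (by positivity)).trans (IsBigO.of_bound' ?_)⟩
  filter_upwards [hd] with y hy
  simp only [Real.norm_eq_abs, Real.abs_exp]
  exact Real.exp_le_exp.2 (by linarith)

lemma Sm.congr {Q : ℂ → ℝ} {E E' : ℂ → ℂ} {φ R : ℝ} (h : E ∈ Sm φ R Q)
    (he : ∀ᶠ y in atTop, E (ray φ R y) = E' (ray φ R y)) : E' ∈ Sm φ R Q := by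
  obtain ⟨δ, δ0, h⟩ := h
  exact ⟨δ, δ0, h.congr' he EventuallyEq.rfl⟩

theorem watsonT {φ R : ℝ} (hR : 1 ≤ R) {γ : ℂ × ℂ} {E : ℂ → ℂ} (hE : AnalyticOnNhd ℂ E (Sec φ R))
    (hg : E ∈ Grow (Sec φ R) (Qr γ)) (hs : E ∈ Sm φ R (Qr γ)) : ∀ τ ∈ Sec φ R, E τ = 0 := by
  obtain ⟨b, C, b0, b1, C0, h⟩ := hg
  obtain ⟨δ, δ0, hs⟩ := hs
  have key := watson (f := fun ζ => E (TT φ R ζ) * cexp (-Qg γ (TT φ R ζ))) ?_ hR b0 b1 C0 δ0
    ?_ ?_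
  · rintro _ ⟨ζ, hζ, rfl⟩
    simpa using key ζ hζ
  · refine DifferentiableOn.diffContOnCl ?_
    rw [closure_setOfPred_lt_re]
    intro ζ hζ
    have h1 := analyticAt_TT (φ := φ) hR hζ
    have h2 : AnalyticAt ℂ (fun τ => E τ * cexp (-Qg γ τ)) (TT φ R ζ) := by
      refine (hE _ ⟨ζ, hζ, rfl⟩).mul ?_
      unfold Qg
      fun_prop
    exact (h2.comp h1).differentiableAt.differentiableWithinAt
  · intro ζ hζ
    rw [norm_mul, Complex.norm_exp, ← exp_abs_TT (φ := φ) hR hζ]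
    refine (mul_le_mul_of_nonneg_right (h _ ⟨ζ, hζ, rfl⟩) (Real.exp_pos _).le).trans ?_
    rw [← Real.exp_add, neg_re, Qr]
    exact le_of_eq (by congr 1; ring)
  · have h3 : (fun y => cexp (-Qg γ (ray φ R y))) =O[atTop]
        fun y => Real.exp (-Qr γ (ray φ R y)) := by
      refine IsBigO.of_bound' (Eventually.of_forall fun y => ?_)
      rw [Complex.norm_exp, Real.norm_eq_abs, Real.abs_exp, neg_re, Qr]
    refine (hs.mul h3).congr_right fun y => ?_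
    rw [← Real.exp_add]
    congr 1; ring

/-- Direction of the ray. -/
noncomputable def dir (φ : ℝ) : ℂ := cexp (φ * I) * (-I)

lemma norm_exp_I (φ : ℝ) : ‖cexp (φ * I)‖ = 1 := Complex.norm_exp_ofReal_mul_I φ

lemma dom_ray {φ R : ℝ} (hR : 1 ≤ R) {γ : ℂ × ℂ}
    (h : (γ.1 * dir φ).re < 0 ∨ (γ.1 = 0 ∧ (γ.2 * dir φ).re < 0)) :
    ∃ δ : ℝ, 0 < δ ∧ ∀ᶠ y : ℝ in atTop, Qr γ (ray φ R y) ≤ -(δ * y) := by
  obtain ⟨α, β⟩ := γ
  set e := cexp (φ * I) with he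
  have lin : ∀ (a : ℂ) (y : ℝ), (a * ((-(y * I) + R) * e)).re ≤ R * ‖a‖ + y * (a * dir φ).re := by
    intro a y
    have e1 : a * ((-(y * I) + R) * e) = R * (a * e) + y * (a * dir φ) := by
      rw [dir, ← he]; ring
    rw [e1, add_re, re_ofReal_mul, re_ofReal_mul]
    have : (a * e).re ≤ ‖a‖ := by
      refine (re_le_norm _).trans ?_
      rw [norm_mul, norm_exp_I, mul_one]
    nlinarith
  rcases h with h | ⟨h0, h⟩
  · set a := (α * dir φ).re with ha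
    set M := ‖α‖ * (Real.pi + |φ|) + ‖β‖ with hM
    have t1 : Tendsto (fun y : ℝ => -a / 2 * Real.log y) atTop atTop :=
      Real.tendsto_log_atTop.const_mul_atTop (by linarith)
    have t2 : Tendsto (fun y : ℝ => -a / 2 * y) atTop atTop :=
      tendsto_id.const_mul_atTop (by linarith)
    refine ⟨1, one_pos, ?_⟩
    filter_upwards [eventually_ge_atTop R, t1.eventually_ge_atTop (2 * M + 1),
      t2.eventually_ge_atTop (R * ‖α‖)] with y hy h1 h2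
    obtain ⟨n1, n2⟩ := norm_ray_le hR hy
    set w : ℂ := -(y * I) + R with hw
    have e1 : Qg (α, β) (ray φ R y) = (Real.log ‖w‖ : ℝ) * (α * (w * e)) +
        (α * ((arg w + φ : ℝ) * I) + β) * (w * e) := by
      rw [Qg, ray, exp_TT hR (by simp), TT, Complex.log]
      push_cast
      ring
    have b1 : (α * (w * e)).re ≤ a / 2 * y := by
      have := lin α y
      linarith
    have b2 : ((α * ((arg w + φ : ℝ) * I) + β) * (w * e)).re ≤ M * (2 * y) := by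
      refine (re_le_norm _).trans ?_
      rw [norm_mul, norm_mul, norm_exp_I, mul_one]
      refine mul_le_mul ((norm_add_le _ _).trans ?_) n2 (norm_nonneg _) (by positivity)
      rw [norm_mul, norm_mul, norm_I, mul_one, Complex.norm_real, Real.norm_eq_abs, hM]
      gcongr
      exact (abs_add_le _ _).trans (by linarith [abs_arg_le_pi w])
    have b3 : Real.log y ≤ Real.log ‖w‖ := Real.log_le_log (by linarith) n1
    have b4 : 0 ≤ Real.log y := Real.log_nonneg (by linarith)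
    have b5 : a / 2 * y ≤ 0 := by nlinarith
    rw [Qr, e1, add_re, re_ofReal_mul]
    have b6 : Real.log ‖w‖ * (α * (w * e)).re ≤ Real.log y * (a / 2 * y) := by
      calc Real.log ‖w‖ * (α * (w * e)).re ≤ Real.log ‖w‖ * (a / 2 * y) :=
            mul_le_mul_of_nonneg_left b1 (by linarith)
        _ ≤ _ := mul_le_mul_of_nonpos_right b3 b5
    nlinarith
  · simp only at h0 h
    subst h0
    set a := (β * dir φ).re with ha
    have t2 : Tendsto (fun y : ℝ => -a / 2 * y) atTop atTop :=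
      tendsto_id.const_mul_atTop (by linarith)
    refine ⟨-a / 2, by linarith, ?_⟩
    filter_upwards [t2.eventually_ge_atTop (R * ‖β‖)] with y h2
    rw [Qr, Qg, ray, exp_TT hR (by simp)]
    simp only [zero_mul, zero_add]
    have := lin β y
    linarith

/-- `φ` is generic for `Λ`. -/
def Generic (φ : ℝ) (Λ : AddSubgroup ℂ) : Prop := ∀ a ∈ Λ, (a * dir φ).re = 0 → a = 0

theorem splitting {φ R : ℝ} (hR : 1 ≤ R) {Λ : AddSubgroup ℂ} (hφ : Generic φ Λ)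
    (E : Λ × Λ → ℂ → ℂ) (hE : ∀ γ, AnalyticOnNhd ℂ (E γ) (Sec φ R))
    (hg : ∀ γ, E γ ∈ Grow (Sec φ R) (Qr (γ.1, γ.2))) (s : Finset (Λ × Λ))
    (hs : ∀ τ ∈ Sec φ R, ∑ γ ∈ s, E γ τ = 0) : ∀ γ ∈ s, ∀ τ ∈ Sec φ R, E γ τ = 0 := by
  classical
  induction s using Finset.induction_on_max_value
    (fun γ : Λ × Λ => toLex (((γ.1 : ℂ) * dir φ).re, ((γ.2 : ℂ) * dir φ).re)) with
  | empty => simp
  | insert γ₀ s h0 hmax ih =>
    simp only [Finset.sum_insert h0] at hs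
    have hsm : ∑ γ ∈ s, E γ ∈ Sm φ R (Qr (γ₀.1, γ₀.2)) := by
      refine Submodule.sum_mem _ fun γ hγ => ?_
      have hne : γ ≠ γ₀ := fun e => h0 (e ▸ hγ)
      obtain ⟨δ, δ0, hd⟩ := dom_ray (φ := φ) hR
        (γ := (((γ.1 - γ₀.1 : Λ) : ℂ), ((γ.2 - γ₀.2 : Λ) : ℂ))) (by
          have := hmax γ hγ
          rw [Prod.Lex.toLex_le_toLex] at this
          simp only [AddSubgroupClass.coe_sub, sub_mul, sub_re] at this ⊢
          rcases this with h | ⟨h1, h2⟩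
          · left; linarith
          · right
            have e1 := hφ _ (γ.1 - γ₀.1).2 (by
              simp only [AddSubgroupClass.coe_sub, sub_mul, sub_re]; linarith)
            refine ⟨by simpa using e1, lt_of_le_of_ne (by linarith) fun h3 => hne ?_⟩
            have e2 := hφ _ (γ.2 - γ₀.2).2 (by
              simp only [AddSubgroupClass.coe_sub, sub_mul, sub_re]; linarith)
            exact Prod.ext (sub_eq_zero.1 (Subtype.ext e1))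
              (sub_eq_zero.1 (Subtype.ext e2)))
      refine Grow.sm_of_dom (hg γ) hR (Eventually.of_forall (ray_mem φ R)) δ0 ?_
      filter_upwards [hd] with y hy
      have := Qr_add (((γ.1 - γ₀.1 : Λ) : ℂ), ((γ.2 - γ₀.2 : Λ) : ℂ)) (γ₀.1, γ₀.2) (ray φ R y)
      simp only [AddSubgroupClass.coe_sub, Prod.mk_add_mk, sub_add_cancel] at this hy
      linarith
    have hz : ∀ τ ∈ Sec φ R, E γ₀ τ = 0 := by
      refine watsonT hR (hE γ₀) (hg γ₀) (Sm.congr (Submodule.neg_mem _ hsm)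
        (Eventually.of_forall fun y => ?_))
      have := hs _ (ray_mem φ R y)
      simp only [Pi.neg_apply, Finset.sum_apply]
      linear_combination -this
    intro γ hγ
    rcases Finset.mem_insert.1 hγ with rfl | hγ
    · exact hz
    · refine ih (fun τ hτ => ?_) γ hγ
      have := hs τ hτ
      rwa [hz τ hτ, zero_add] at this

/-- The growth class of type `γ` on `S`, for functions meromorphic on `D`. -/
def Cl (D S : Set ℂ) (γ : ℂ × ℂ) : Submodule ℂ (ℂ → ℂ) where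
  carrier := {E | MeromorphicOn E D ∧ AnalyticOnNhd ℂ E S ∧ E ∈ Grow S (Qr γ)}
  zero_mem' := ⟨fun _ _ => MeromorphicAt.const 0 _, analyticOnNhd_const, Submodule.zero_mem _⟩
  add_mem' := fun h h' => ⟨h.1.add h'.1, h.2.1.add h'.2.1, Submodule.add_mem _ h.2.2 h'.2.2⟩
  smul_mem' := fun c _ h => ⟨fun x hx => (MeromorphicAt.const c x).smul (h.1 x hx),
    fun x hx => analyticAt_const.smul (h.2.1 x hx), Submodule.smul_mem _ c h.2.2⟩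

lemma Cl.mul {D S : Set ℂ} {γ γ' : ℂ × ℂ} {E E' : ℂ → ℂ} (h : E ∈ Cl D S γ) (h' : E' ∈ Cl D S γ') :
    E * E' ∈ Cl D S (γ + γ') :=
  ⟨h.1.mul h'.1, h.2.1.mul h'.2.1, Grow.mul h.2.2 h'.2.2 (Qr_add _ _)⟩

lemma Cl.one {D S : Set ℂ} : (1 : ℂ → ℂ) ∈ Cl D S 0 :=
  ⟨fun _ _ => MeromorphicAt.const 1 _, analyticOnNhd_const, Grow.one Qr_zero⟩

section GradedPairs

variable {Λ : AddSubgroup ℂ}

/-- The subalgebra spanned by a multiplicative family of submodules. -/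
noncomputable def gradedSub (G : Λ × Λ → Submodule ℂ ((ℂ → ℂ) × (ℂ → ℂ))) (h1 : 1 ∈ G 0)
    (hm : ∀ γ γ' p q, p ∈ G γ → q ∈ G γ' → p * q ∈ G (γ + γ')) :
    Subalgebra ℂ ((ℂ → ℂ) × (ℂ → ℂ)) :=
  (⨆ γ, G γ).toSubalgebra (Submodule.mem_iSup_of_mem 0 h1) (by
    intro p q hp hq
    induction hp using Submodule.iSup_induction' with
    | mem γ p hp =>
      induction hq using Submodule.iSup_induction' with
      | mem γ' q hq => exact Submodule.mem_iSup_of_mem _ (hm _ _ _ _ hp hq)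
      | zero => simp
      | add x y _ _ hx hy => rw [mul_add]; exact Submodule.add_mem _ hx hy
    | zero => simp
    | add x y _ _ hx hy => rw [add_mul]; exact Submodule.add_mem _ hx hy)

/-- The corresponding relation between germs. -/
noncomputable def germRel (𝒰 : Ultrafilter ℂ) (G : Λ × Λ → Submodule ℂ ((ℂ → ℂ) × (ℂ → ℂ)))
    (h1 : 1 ∈ G 0) (hm : ∀ γ γ' p q, p ∈ G γ → q ∈ G γ' → p * q ∈ G (γ + γ')) :
    Subalgebra ℂ (GF 𝒰 × GF 𝒰) :=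
  (gradedSub G h1 hm).map ((gm 𝒰).prodMap (gm 𝒰))

lemma mem_germRel {𝒰 : Ultrafilter ℂ} {G : Λ × Λ → Submodule ℂ ((ℂ → ℂ) × (ℂ → ℂ))}
    {h1 : 1 ∈ G 0} {hm : ∀ γ γ' p q, p ∈ G γ → q ∈ G γ' → p * q ∈ G (γ + γ')}
    {γ : Λ × Λ} {E E' : ℂ → ℂ} (h : (E, E') ∈ G γ) :
    (gm 𝒰 E, gm 𝒰 E') ∈ germRel 𝒰 G h1 hm :=
  ⟨(E, E'), Submodule.mem_iSup_of_mem γ h, rfl⟩

theorem fn_germRel {D : Set ℂ} {τ₀ : ℂ} {𝒰 : Ultrafilter ℂ} (hD : IsPreconnected D) (h0 : τ₀ ∈ D)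
    (hU : (𝒰 : Filter ℂ) ≤ 𝓝[≠] τ₀) {φ R : ℝ} (hR : 1 ≤ R) (hφ : Generic φ Λ)
    (hS : Sec φ R ⊆ D) {G : Λ × Λ → Submodule ℂ ((ℂ → ℂ) × (ℂ → ℂ))}
    {h1 : 1 ∈ G 0} {hm : ∀ γ γ' p q, p ∈ G γ → q ∈ G γ' → p * q ∈ G (γ + γ')}
    (hc : ∀ γ p, p ∈ G γ → p.1 ∈ Cl D (Sec φ R) (γ.1, γ.2))
    (hz : ∀ γ p, p ∈ G γ → (∀ τ ∈ Sec φ R, p.1 τ = 0) → gm 𝒰 p.2 = 0) :
    Fn (germRel 𝒰 G h1 hm) := by
  rintro y ⟨p, hp, he⟩
  obtain ⟨f, hf, rfl⟩ := (Submodule.mem_iSup_iff_exists_finsupp _ _).1 hp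
  have e1 : gm 𝒰 (∑ γ ∈ f.support, (f γ).1) = 0 := by
    have : gm 𝒰 (f.sum fun _ x => x).1 = 0 := congrArg Prod.fst he
    rwa [Finsupp.sum, Prod.fst_sum] at this
  have e2 : y = ∑ γ ∈ f.support, gm 𝒰 (f γ).2 := by
    have : gm 𝒰 (f.sum fun _ x => x).2 = y := congrArg Prod.snd he
    rw [← this, Finsupp.sum, Prod.snd_sum, map_sum]
  have hzero : ∀ τ ∈ Sec φ R, ∑ γ ∈ f.support, (f γ).1 τ = 0 := by
    intro τ hτ
    have := eq_zero_of_gm_eq_zero hD h0 hU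
      (fun x hx => MeromorphicAt.sum fun γ _ => (hc γ _ (hf γ)).1 x hx) e1 (hS hτ)
      (Finset.analyticAt_sum _ fun γ _ => (hc γ _ (hf γ)).2.1 τ hτ).continuousAt
    simpa using this
  have := splitting hR hφ (fun γ => (f γ).1) (fun γ => (hc γ _ (hf γ)).2.1)
    (fun γ => (hc γ _ (hf γ)).2.2) f.support hzero
  rw [e2]
  exact Finset.sum_eq_zero fun γ hγ => hz γ _ (hf γ) (this γ hγ)

end GradedPairs

lemma frequently_mem_Sec {φ R : ℝ} (hR : 1 ≤ R) : ∃ᶠ z in 𝓝[≠] (TT φ R 1), z ∈ Sec φ R := by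
  have ha := analyticAt_TT (φ := φ) hR (ζ := 1) (by simp)
  have hne : ∀ᶠ ζ in 𝓝[≠] (1 : ℂ), 0 ≤ ζ.re ∧ TT φ R ζ ≠ TT φ R 1 := by
    have : ∀ᶠ ζ in 𝓝 (1 : ℂ), 0 < ζ.re :=
      Complex.continuous_re.continuousAt.eventually (lt_mem_nhds (by simp))
    filter_upwards [self_mem_nhdsWithin, this.filter_mono nhdsWithin_le_nhds] with ζ h1 h2
    refine ⟨h2.le, fun e => h1 ?_⟩
    have e' := congrArg cexp e
    rw [exp_TT hR h2.le, exp_TT hR (by simp)] at e'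
    simpa using e'
  have ht : Tendsto (TT φ R) (𝓝[≠] 1) (𝓝[≠] (TT φ R 1)) :=
    tendsto_nhdsWithin_iff.2 ⟨ha.continuousAt.tendsto.mono_left nhdsWithin_le_nhds,
      hne.mono fun ζ h => h.2⟩
  exact ht.frequently (hne.mono fun ζ h => ⟨ζ, h.1, rfl⟩).frequently

lemma gm_eq_zero_of_Sec {D : Set ℂ} {τ₀ : ℂ} {𝒰 : Ultrafilter ℂ} (hD : IsPreconnected D)
    (h0 : τ₀ ∈ D) (hU : (𝒰 : Filter ℂ) ≤ 𝓝[≠] τ₀) {φ R : ℝ} (hR : 1 ≤ R) (hS : Sec φ R ⊆ D)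
    {E : ℂ → ℂ} (hE : MeromorphicOn E D) (h : ∀ τ ∈ Sec φ R, E τ = 0) : gm 𝒰 E = 0 :=
  gm_eq_zero_of_frequently hD h0 hU hE (hS ⟨1, by simp, rfl⟩)
    ((frequently_mem_Sec hR).mono fun z hz => h z hz)

section Twist

variable {Λ : AddSubgroup ℂ}

/-- Pairs `(E, exp (γ₂ ρ) E)` with `E` of type `γ`. -/
def twG (D S : Set ℂ) (ρ : ℂ) (γ : Λ × Λ) : Submodule ℂ ((ℂ → ℂ) × (ℂ → ℂ)) where
  carrier := {p | p.1 ∈ Cl D S (γ.1, γ.2) ∧ p.2 = cexp (γ.2 * ρ) • p.1}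
  zero_mem' := ⟨Submodule.zero_mem _, by simp⟩
  add_mem' := fun h h' => ⟨Submodule.add_mem _ h.1 h'.1, by simp [h.2, h'.2]⟩
  smul_mem' := fun c _ h => ⟨Submodule.smul_mem _ c h.1, by simp [h.2, smul_comm c]⟩

lemma coe_pair_add (γ γ' : Λ × Λ) : ((((γ + γ').1 : Λ) : ℂ), (((γ + γ').2 : Λ) : ℂ)) =
    ((γ.1 : ℂ), (γ.2 : ℂ)) + ((γ'.1 : ℂ), (γ'.2 : ℂ)) := by simp

lemma twG_one {D S : Set ℂ} {ρ : ℂ} : 1 ∈ twG (Λ := Λ) D S ρ 0 := ⟨Cl.one, by simp⟩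

lemma twG_mul {D S : Set ℂ} {ρ : ℂ} (γ γ' : Λ × Λ) (p q) (h : p ∈ twG D S ρ γ)
    (h' : q ∈ twG D S ρ γ') : p * q ∈ twG D S ρ (γ + γ') := by
  refine ⟨?_, ?_⟩
  · rw [coe_pair_add, Prod.fst_mul]
    exact Cl.mul h.1 h'.1
  · simp only [Prod.snd_mul, h.2, h'.2, Prod.snd_add, AddSubgroup.coe_add, add_mul,
      Complex.exp_add, Prod.fst_mul, smul_mul_smul_comm]

/-- The twist relation. -/
noncomputable def twT (Λ : AddSubgroup ℂ) (𝒰 : Ultrafilter ℂ) (D S : Set ℂ) (ρ : ℂ) :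
    Subalgebra ℂ (GF 𝒰 × GF 𝒰) := germRel 𝒰 (twG (Λ := Λ) D S ρ) twG_one twG_mul

lemma mem_twT {𝒰 : Ultrafilter ℂ} {D S : Set ℂ} (ρ : ℂ) {a b : ℂ} (ha : a ∈ Λ) (hb : b ∈ Λ)
    {E : ℂ → ℂ} (h : E ∈ Cl D S (a, b)) :
    (gm 𝒰 E, cexp (b * ρ) • gm 𝒰 E) ∈ twT Λ 𝒰 D S ρ := by
  rw [← map_smul]
  exact mem_germRel (γ := (⟨a, ha⟩, ⟨b, hb⟩)) ⟨h, rfl⟩

theorem fn_twT {D : Set ℂ} {τ₀ : ℂ} {𝒰 : Ultrafilter ℂ} (hD : IsPreconnected D) (h0 : τ₀ ∈ D)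
    (hU : (𝒰 : Filter ℂ) ≤ 𝓝[≠] τ₀) {φ R : ℝ} (hR : 1 ≤ R) (hφ : Generic φ Λ)
    (hS : Sec φ R ⊆ D) (ρ : ℂ) : Fn (twT Λ 𝒰 D (Sec φ R) ρ) :=
  fn_germRel hD h0 hU hR hφ hS (fun _ _ h => h.1) fun _ _ h hz => by
    rw [h.2, map_smul, gm_eq_zero_of_Sec hD h0 hU hR hS h.1.1 hz, smul_zero]

/-- Stokes pairs. -/
def stG (D S : Set ℂ) (φ R : ℝ) (γ : Λ × Λ) : Submodule ℂ ((ℂ → ℂ) × (ℂ → ℂ)) where
  carrier := {p | p.1 ∈ Cl D S (γ.1, γ.2) ∧ p.2 ∈ Cl D (Sec φ R) (γ.1, γ.2) ∧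
    p.2 - p.1 ∈ Sm φ R (Qr (γ.1, γ.2))}
  zero_mem' := ⟨Submodule.zero_mem _, Submodule.zero_mem _, by simp⟩
  add_mem' := fun {p q} h h' => ⟨Submodule.add_mem _ h.1 h'.1, Submodule.add_mem _ h.2.1 h'.2.1, by
    have : (p + q).2 - (p + q).1 = (p.2 - p.1) + (q.2 - q.1) := by simp; ring
    rw [this]
    exact Submodule.add_mem _ h.2.2 h'.2.2⟩
  smul_mem' := fun c p h => ⟨Submodule.smul_mem _ c h.1, Submodule.smul_mem _ c h.2.1, by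
    have : (c • p).2 - (c • p).1 = c • (p.2 - p.1) := by simp [smul_sub]
    rw [this]
    exact Submodule.smul_mem _ c h.2.2⟩

lemma stG_one {D S : Set ℂ} {φ R : ℝ} : 1 ∈ stG (Λ := Λ) D S φ R 0 :=
  ⟨Cl.one, Cl.one, by simp⟩

lemma stG_mul {D S : Set ℂ} {φ R : ℝ} (hR : 1 ≤ R) (hS : ∀ᶠ y in atTop, ray φ R y ∈ S)
    (γ γ' : Λ × Λ) (p q) (h : p ∈ stG D S φ R γ)
    (h' : q ∈ stG D S φ R γ') : p * q ∈ stG D S φ R (γ + γ') := by
  refine ⟨?_, ?_, ?_⟩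
  · rw [coe_pair_add, Prod.fst_mul]
    exact Cl.mul h.1 h'.1
  · rw [coe_pair_add, Prod.snd_mul]
    exact Cl.mul h.2.1 h'.2.1
  · have : (p * q).2 - (p * q).1 = (q.2 - q.1) * p.2 + (p.2 - p.1) * q.1 := by simp; ring
    rw [this, coe_pair_add]
    refine Submodule.add_mem _
      (Sm.mul_grow h'.2.2 h.2.1.2.2 hR (Eventually.of_forall (ray_mem φ R)) fun τ => ?_)
      (Sm.mul_grow h.2.2 h'.1.2.2 hR hS fun τ => ?_)
    · rw [Qr_add, add_comm]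
    · rw [Qr_add]

/-- The Stokes relation. -/
noncomputable def stT (Λ : AddSubgroup ℂ) (𝒰 : Ultrafilter ℂ) (D S : Set ℂ) {φ R : ℝ} (hR : 1 ≤ R)
    (hS : ∀ᶠ y in atTop, ray φ R y ∈ S) : Subalgebra ℂ (GF 𝒰 × GF 𝒰) :=
  germRel 𝒰 (stG (Λ := Λ) D S φ R) stG_one (stG_mul hR hS)

lemma mem_stT {𝒰 : Ultrafilter ℂ} {D S : Set ℂ} {φ R : ℝ} (hR : 1 ≤ R)
    (hS : ∀ᶠ y in atTop, ray φ R y ∈ S) {a b : ℂ} (ha : a ∈ Λ) (hb : b ∈ Λ)
    {E E' : ℂ → ℂ} (h : E ∈ Cl D S (a, b)) (h' : E' ∈ Cl D (Sec φ R) (a, b))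
    (hs : E' - E ∈ Sm φ R (Qr (a, b))) : (gm 𝒰 E, gm 𝒰 E') ∈ stT Λ 𝒰 D S hR hS :=
  mem_germRel (γ := (⟨a, ha⟩, ⟨b, hb⟩)) ⟨h, h', hs⟩

theorem fn_stT {D : Set ℂ} {τ₀ : ℂ} {𝒰 : Ultrafilter ℂ} (hD : IsPreconnected D) (h0 : τ₀ ∈ D)
    (hU : (𝒰 : Filter ℂ) ≤ 𝓝[≠] τ₀) {φ R φ' R' : ℝ} (hR : 1 ≤ R) (hR' : 1 ≤ R') (hφ : Generic φ Λ)
    (hS : Sec φ R ⊆ D) (hS' : Sec φ' R' ⊆ D) (hr : ∀ᶠ y in atTop, ray φ' R' y ∈ Sec φ R) :
    Fn (stT Λ 𝒰 D (Sec φ R) hR' hr) :=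
  fn_germRel hD h0 hU hR hφ hS (fun _ _ h => h.1) fun _ p h hz => by
    refine gm_eq_zero_of_Sec hD h0 hU hR' hS' h.2.1.1
      (watsonT hR' h.2.1.2.1 h.2.1.2.2 (Sm.congr h.2.2 ?_))
    filter_upwards [hr] with y hy
    simp [hz _ hy]

end Twist

end Pool.Agent.P.MP_26ad15_nt
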