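import Mathlib

/-! Analytic continuation of roots of a family of polynomials on star shaped domains. -/

namespace Pool.Agent.P.MP_26ad15_nt

open Complex Set Filter Topology Polynomial

lemma exists_local {G : ℂ × ℂ → ℂ} {u : ℂ × ℂ} (hG : AnalyticAt ℂ G u)
    (h : deriv (fun y => G (u.1, y)) u.2 ≠ 0) :
    ∃ e : OpenPartialHomeomorph (ℂ × ℂ) (ℂ × ℂ), u ∈ e.source ∧ (fun v => (v.1, G v)) = e ∧
      AnalyticAt ℂ e.symm (u.1, G u) := by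
  have h1 := hG.differentiableAt.hasFDerivAt
  set L := fderiv ℂ G u
  have h2 : HasDerivAt (fun y => G (u.1, y)) (L (0, 1)) u.2 :=
    h1.comp_hasDerivAt_of_eq u.2 ((hasDerivAt_const _ u.1).prodMk (hasDerivAt_id u.2)) rfl
  rw [h2.deriv] at h
  let A : (ℂ × ℂ) →L[ℂ] (ℂ × ℂ) := (ContinuousLinearMap.fst ℂ ℂ ℂ).prod L
  have hA : Function.Injective (A : (ℂ × ℂ) →ₗ[ℂ] (ℂ × ℂ)) := by
    rw [injective_iff_map_eq_zero]
    rintro ⟨a, b⟩ hab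
    obtain ⟨rfl, h4⟩ : a = 0 ∧ L (a, b) = 0 := by simpa [A] using hab
    have : L (0, b) = b * L (0, 1) := by
      rw [← smul_eq_mul, ← map_smul]; simp
    rw [this] at h4
    simp [(mul_eq_zero.1 h4).resolve_right h]
  let A' : (ℂ × ℂ) ≃L[ℂ] (ℂ × ℂ) := (LinearEquiv.ofInjectiveEndo _ hA).toContinuousLinearEquiv
  have hf : ContDiffAt ℂ ⊤ (fun v : ℂ × ℂ => (v.1, G v)) u :=
    (analyticAt_fst.prod hG).contDiffAt
  have hf' : HasFDerivAt (fun v : ℂ × ℂ => (v.1, G v)) (A' : (ℂ × ℂ) →L[ℂ] (ℂ × ℂ)) u :=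
    hasFDerivAt_fst.prodMk h1
  exact ⟨hf.toOpenPartialHomeomorph _ hf' (by simp), hf.mem_toOpenPartialHomeomorph_source hf' _,
    rfl, (hf.to_localInverse hf' (by simp)).analyticAt⟩

lemma root_local {G : ℂ × ℂ → ℂ} {u : ℂ × ℂ} (hG : AnalyticAt ℂ G u)
    (h : deriv (fun y => G (u.1, y)) u.2 ≠ 0) (h0 : G u = 0) :
    ∃ s : ℂ → ℂ, AnalyticAt ℂ s u.1 ∧ s u.1 = u.2 ∧ (∀ᶠ τ in 𝓝 u.1, G (τ, s τ) = 0) ∧
      ∀ᶠ v in 𝓝 u, G v = 0 → v.2 = s v.1 := by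
  obtain ⟨e, h1, h2, h3⟩ := exists_local hG h
  rw [h0] at h3
  have he : ∀ v, e v = (v.1, G v) := fun v => (congrFun h2 v).symm
  have hc : AnalyticAt ℂ (fun τ : ℂ => (τ, (0 : ℂ))) u.1 := analyticAt_id.prod analyticAt_const
  have hu : e.symm (u.1, 0) = u := by rw [← h0, ← he, e.left_inv h1]
  refine ⟨fun τ => (e.symm (τ, 0)).2, analyticAt_snd.comp (h3.comp_of_eq hc rfl), by simp [hu], ?_, ?_⟩
  · have : (u.1, (0 : ℂ)) ∈ e.target := by rw [← h0, ← he]; exact e.map_source h1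
    filter_upwards [hc.continuousAt.eventually (e.open_target.mem_nhds this)] with τ hτ
    have := e.right_inv hτ
    rw [he, Prod.mk.injEq] at this
    have e1 : (τ, (e.symm (τ, 0)).2) = e.symm (τ, 0) := Prod.ext this.1.symm rfl
    rw [e1, this.2]
  · filter_upwards [e.open_source.mem_nhds h1] with v hv hv0
    rw [← hv0, ← he, e.left_inv hv]

lemma root_bound {p : ℂ[X]} {d : ℕ} (hd : p.natDegree ≤ d) (h0 : d ≠ 0) (y : ℂ) :
    ‖p.coeff d‖ * ‖y‖ ≤ ∑ k ∈ Finset.range (d + 1), ‖p.coeff k‖ + ‖p.eval y‖ := by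
  rw [Finset.sum_range_succ]
  have s0 : 0 ≤ ∑ k ∈ Finset.range d, ‖p.coeff k‖ := Finset.sum_nonneg fun _ _ => norm_nonneg _
  rcases le_total ‖y‖ 1 with h | h
  · nlinarith [norm_nonneg (p.coeff d), norm_nonneg (p.eval y)]
  obtain ⟨n, rfl⟩ := Nat.exists_eq_succ_of_ne_zero h0
  have e := eval_eq_sum_range' (Nat.lt_succ_of_le hd) y
  rw [Finset.sum_range_succ] at e
  have h1 : ‖∑ k ∈ Finset.range (n + 1), p.coeff k * y ^ k‖ ≤
      (∑ k ∈ Finset.range (n + 1), ‖p.coeff k‖) * ‖y‖ ^ n := by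
    rw [Finset.sum_mul]
    refine (norm_sum_le _ _).trans (Finset.sum_le_sum fun k hk => ?_)
    rw [norm_mul, norm_pow]
    gcongr
    exact Nat.lt_succ_iff.1 (Finset.mem_range.1 hk)
  have h2 : ‖p.coeff (n + 1)‖ * ‖y‖ * ‖y‖ ^ n ≤ ‖p.eval y‖ +
      (∑ k ∈ Finset.range (n + 1), ‖p.coeff k‖) * ‖y‖ ^ n := by
    have : p.coeff (n + 1) * y ^ (n + 1) =
      p.eval y - ∑ k ∈ Finset.range (n + 1), p.coeff k * y ^ k := by rw [e]; ring
    calc _ = ‖p.coeff (n + 1) * y ^ (n + 1)‖ := by rw [norm_mul, norm_pow]; ring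
      _ ≤ _ := by rw [this]; exact (norm_sub_le _ _).trans (by gcongr)
  have h3 : 1 ≤ ‖y‖ ^ n := one_le_pow₀ h
  have h4 : ‖p.eval y‖ ≤ ‖p.eval y‖ * ‖y‖ ^ n := le_mul_of_one_le_right (norm_nonneg _) h3
  have h5 : ‖p.coeff (n + 1)‖ * ‖y‖ ≤ ‖p.eval y‖ + ∑ k ∈ Finset.range (n + 1), ‖p.coeff k‖ :=
    le_of_mul_le_mul_right (by linarith) (by positivity : 0 < ‖y‖ ^ n)
  linarith [norm_nonneg (p.coeff (n + 1))]

/-- A family of separable polynomials of constant degree with analytic coefficients. -/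
def Fam (Ω : Set ℂ) (p : ℂ → ℂ[X]) (d : ℕ) : Prop :=
  (∀ k, AnalyticOnNhd ℂ (fun τ => (p τ).coeff k) Ω) ∧ ∀ τ ∈ Ω, (p τ).natDegree ≤ d ∧
    (p τ).coeff d ≠ 0 ∧ ∀ y, (p τ).eval y = 0 → (p τ).derivative.eval y ≠ 0

variable {Ω : Set ℂ} {p : ℂ → ℂ[X]} {d : ℕ}

lemma Fam.mono (h : Fam Ω p d) {Ω' : Set ℂ} (hs : Ω' ⊆ Ω) : Fam Ω' p d :=
  ⟨fun k => (h.1 k).mono hs, fun τ hτ => h.2 τ (hs hτ)⟩

lemma Fam.analyticAt (h : Fam Ω p d) (ho : IsOpen Ω) {u : ℂ × ℂ} (hu : u.1 ∈ Ω) :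
    AnalyticAt ℂ (fun v : ℂ × ℂ => (p v.1).eval v.2) u := by
  have : AnalyticAt ℂ (fun v : ℂ × ℂ => ∑ k ∈ Finset.range (d + 1), (p v.1).coeff k * v.2 ^ k) u :=
    Finset.analyticAt_fun_sum _ fun k _ =>
      ((h.1 k _ hu).comp_of_eq analyticAt_fst rfl).mul (analyticAt_snd.pow k)
  refine this.congr ?_
  filter_upwards [continuous_fst.continuousAt.eventually (ho.mem_nhds hu)] with v hv
  exact (eval_eq_sum_range' (Nat.lt_succ_of_le (h.2 _ hv).1) _).symm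

lemma Fam.deriv_ne (h : Fam Ω p d) {u : ℂ × ℂ} (hu : u.1 ∈ Ω) (h0 : (p u.1).eval u.2 = 0) :
    deriv (fun y => (fun v : ℂ × ℂ => (p v.1).eval v.2) (u.1, y)) u.2 ≠ 0 := by
  simpa using (h.2 _ hu).2.2 _ h0

lemma Fam.local (h : Fam Ω p d) (ho : IsOpen Ω) {τ₀ y₀ : ℂ} (hu : τ₀ ∈ Ω)
    (h0 : (p τ₀).eval y₀ = 0) : ∃ s : ℂ → ℂ, AnalyticAt ℂ s τ₀ ∧ ∀ y : ℂ → ℂ, ContinuousAt y τ₀ →
      y τ₀ = y₀ → (∀ᶠ τ in 𝓝 τ₀, (p τ).eval (y τ) = 0) → y =ᶠ[𝓝 τ₀] s := by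
  obtain ⟨s, h1, -, -, h4⟩ := root_local (u := (τ₀, y₀)) (h.analyticAt ho hu) (h.deriv_ne hu h0) h0
  refine ⟨s, h1, fun y hy e hr => ?_⟩
  have : Tendsto (fun τ => (τ, y τ)) (𝓝 τ₀) (𝓝 (τ₀, y₀)) := e ▸ tendsto_id.prodMk_nhds hy
  filter_upwards [this.eventually h4, hr] with τ a b using a b

lemma Fam.unique_local (h : Fam Ω p d) (ho : IsOpen Ω) {τ₀ : ℂ} (hu : τ₀ ∈ Ω) {y y' : ℂ → ℂ}
    (hy : ContinuousAt y τ₀) (hy' : ContinuousAt y' τ₀) (e : y τ₀ = y' τ₀)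
    (hr : ∀ᶠ τ in 𝓝 τ₀, (p τ).eval (y τ) = 0) (hr' : ∀ᶠ τ in 𝓝 τ₀, (p τ).eval (y' τ) = 0) :
    y =ᶠ[𝓝 τ₀] y' := by
  obtain ⟨s, -, h2⟩ := h.local ho hu hr.self_of_nhds
  exact (h2 y hy rfl hr).trans (h2 y' hy' e.symm hr').symm

lemma Fam.ne_zero (h : Fam Ω p d) {τ₀ y₀ : ℂ} (hu : τ₀ ∈ Ω) (h0 : (p τ₀).eval y₀ = 0) : d ≠ 0 := by
  rintro rfl
  obtain ⟨h1, h2, -⟩ := h.2 _ hu
  rw [eq_C_of_natDegree_le_zero h1, eval_C] at h0
  exact h2 h0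

theorem Fam.lift (h : Fam Ω p d) (ho : IsOpen Ω) {τ₀ y₀ : ℂ} (hs : StarConvex ℝ τ₀ Ω)
    (hu : τ₀ ∈ Ω) {τ₁ : ℂ} (h1 : τ₁ ∈ Ω) (h0 : (p τ₁).eval y₀ = 0) :
    ∃ y : ℂ → ℂ, AnalyticOnNhd ℂ y Ω ∧ y τ₁ = y₀ ∧ ∀ τ ∈ Ω, (p τ).eval (y τ) = 0 := by
  classical
  have := hs.contractibleSpace ⟨τ₀, hu⟩
  have := ho.locallyPathConnectedSpace
  have hd := h.ne_zero h1 h0
  let ι : Ω × ℂ → ℂ × ℂ := Prod.map Subtype.val id
  have hι : IsOpenEmbedding ι := ho.isOpenEmbedding_subtypeVal.prodMap IsOpenEmbedding.id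
  let Ψ : Ω × ℂ → Ω × ℂ := fun v => (v.1, (p v.1).eval v.2)
  have hc : Continuous Ψ := continuous_fst.prodMk (continuous_iff_continuousAt.2 fun v =>
    (h.analyticAt ho (u := ι v) v.1.2).continuousAt.comp hι.continuous.continuousAt)
  have hp : IsProperMap Ψ := by
    refine isProperMap_iff_ultrafilter_of_t2.2 ⟨hc, fun 𝒰 w hw => ?_⟩
    have a1 : Tendsto Prod.fst (𝒰 : Filter (Ω × ℂ)) (𝓝 w.1) :=
      ((continuous_fst.tendsto w).comp hw :)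
    have a2 : Tendsto (fun v : Ω × ℂ => (p v.1).eval v.2) 𝒰 (𝓝 w.2) :=
      (continuous_snd.tendsto w).comp hw
    have a3 : ∀ k, Tendsto (fun v : Ω × ℂ => ‖(p v.1).coeff k‖) 𝒰 (𝓝 ‖(p w.1).coeff k‖) :=
      fun k => ((h.1 k _ w.1.2).continuousAt.tendsto.comp
        ((continuous_subtype_val.tendsto _).comp a1)).norm
    have a4 := ((tendsto_finsetSum (Finset.range (d + 1)) fun k _ => a3 k).add a2.norm).div (a3 d)
      (norm_ne_zero_iff.2 (h.2 _ w.1.2).2.1)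
    set M := (∑ k ∈ Finset.range (d + 1), ‖(p w.1).coeff k‖ + ‖w.2‖) / ‖(p w.1).coeff d‖
    have a5 : ∀ᶠ v : Ω × ℂ in 𝒰, v.2 ∈ Metric.closedBall (0 : ℂ) (M + 1) := by
      filter_upwards [a4.eventually (gt_mem_nhds (lt_add_one M))] with v hv
      rw [mem_closedBall_zero_iff]
      refine le_trans ?_ hv.le
      rw [Pi.div_apply, le_div_iff₀' (norm_pos_iff.2 (h.2 _ v.1.2).2.1)]
      exact root_bound (h.2 _ v.1.2).1 hd _
    obtain ⟨y, -, hy⟩ := (isCompact_closedBall (0 : ℂ) (M + 1)).ultrafilter_le_nhds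
      (𝒰.map Prod.snd) (le_principal_iff.2 a5)
    exact ⟨(w.1, y), a1.prodMk_nhds hy⟩
  have hcov : IsCoveringMapOn Ψ {w | w.2 = 0} := by
    refine hp.isClosedMap.isCoveringMapOn_of_isLocalHomeomorphOn (fun w hw => ?_) ?_
    · have hne : p w.1 ≠ 0 := fun e => (h.2 _ w.1.2).2.1 (by simp [e])
      refine (((p w.1).roots.toFinset.finite_toSet).image fun y => (w.1, y)).subset ?_
      rintro ⟨a, b⟩ hab
      obtain ⟨rfl, e⟩ : a = w.1 ∧ (p a).eval b = w.2 := Prod.ext_iff.1 hab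
      exact ⟨b, by simpa [hne] using e.trans hw, rfl⟩
    · refine IsLocalHomeomorphOn.of_comp_left (g := ι) ?_
        hι.isLocalHomeomorph.isLocalHomeomorphOn fun _ _ => hc.continuousAt
      refine IsLocalHomeomorphOn.comp (g := fun v : ℂ × ℂ => (v.1, (p v.1).eval v.2))
        (t := {v | v.1 ∈ Ω ∧ (p v.1).eval v.2 = 0}) (fun u hu => ?_)
        hι.isLocalHomeomorph.isLocalHomeomorphOn fun v hv => ⟨v.1.2, hv⟩
      obtain ⟨e, e1, e2, -⟩ := exists_local (h.analyticAt ho hu.1) (h.deriv_ne hu.1 hu.2)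
      exact ⟨e, e1, e2⟩
  obtain ⟨F, ⟨F1, F2⟩, -⟩ := hcov.existsUnique_continuousMap_lifts
    (⟨fun a : Ω => (a, (0 : ℂ)), by fun_prop⟩ : C(Ω, Ω × ℂ)) (a₀ := ⟨τ₁, h1⟩)
    (e₀ := (⟨τ₁, h1⟩, y₀)) (Prod.ext rfl h0) fun _ => rfl
  let y : ℂ → ℂ := fun z => if hz : z ∈ Ω then (F ⟨z, hz⟩).2 else 0
  have hy : ∀ z : Ω, y z = (F z).2 := fun z => by simp [y]
  have hyc : ContinuousOn y Ω := by
    rw [continuousOn_iff_continuous_domRestrict]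
    exact (continuous_snd.comp (map_continuous F)).congr fun z => (hy z).symm
  have hr : ∀ τ ∈ Ω, (p τ).eval (y τ) = 0 := by
    intro τ hτ
    obtain ⟨e1, e2⟩ := Prod.ext_iff.1 (congrFun F2 ⟨τ, hτ⟩)
    have e3 : ((F ⟨τ, hτ⟩).1 : ℂ) = τ := congrArg Subtype.val e1
    have e4 : (p (F ⟨τ, hτ⟩).1).eval (F ⟨τ, hτ⟩).2 = 0 := e2
    rw [hy ⟨τ, hτ⟩]
    rwa [e3] at e4
  refine ⟨y, fun τ hτ => ?_, by rw [hy ⟨τ₁, h1⟩, F1], hr⟩
  obtain ⟨s, s1, s2⟩ := h.local ho hτ (hr τ hτ)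
  exact s1.congr (s2 y (hyc.continuousAt (ho.mem_nhds hτ)) rfl
    (eventually_of_mem (ho.mem_nhds hτ) hr)).symm

/-- Points visible from `β` when `B` is an obstacle. -/
def Vis (β : ℂ) (B : Set ℂ) : Set ℂ := {τ | segment ℝ β τ ⊆ Bᶜ}

lemma isOpen_Vis (β : ℂ) {B : Set ℂ} (hB : IsClosed B) : IsOpen (Vis β B) := by
  rw [isOpen_iff_eventually]
  intro τ hτ
  have := (isCompact_Icc (a := (0 : ℝ)) (b := 1)).eventually_forall_of_forall_eventually (x₀ := τ)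
    (P := fun z s => β + s • (z - β) ∈ Bᶜ) fun s hs => by
      have hc : Continuous fun z : ℂ × ℝ => β + z.2 • (z.1 - β) := by fun_prop
      refine hc.continuousAt.eventually (hB.isOpen_compl.mem_nhds (hτ ?_))
      rw [segment_eq_image']
      exact ⟨s, hs, rfl⟩
  filter_upwards [this] with z hz
  intro w hw
  rw [segment_eq_image'] at hw
  obtain ⟨s, hs, rfl⟩ := hw
  exact hz s hs

lemma starConvex_Vis (β : ℂ) (B : Set ℂ) : StarConvex ℝ β (Vis β B) :=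
  starConvex_iff_segment_subset.2 fun _ hτ _ hz =>
    ((convex_segment _ _).segment_subset (left_mem_segment _ _ _) hz).trans hτ

lemma Vis_subset (β : ℂ) (B : Set ℂ) : Vis β B ⊆ Bᶜ := fun _ h => h (right_mem_segment _ _ _)

lemma subset_Vis {β : ℂ} {B s : Set ℂ} (hs : Convex ℝ s) (h : β ∈ s) (hB : s ⊆ Bᶜ) : s ⊆ Vis β B :=
  fun _ hz => (hs.segment_subset h hz).trans hB

lemma exists_visible {B T U : Set ℂ} (hB : B.Countable) (hT : T.Countable) (h : T ⊆ Bᶜ)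
    (hU : IsOpen U) (hne : U.Nonempty) : ∃ β ∈ U, T ⊆ Vis β B := by
  have hl : ∀ a b : ℂ, MeasureTheory.volume (line[ℝ, a, b] : Set ℂ) = 0 := by
    intro a b
    refine MeasureTheory.Measure.addHaar_affineSubspace _ _ fun e => ?_
    have e1 := congrArg AffineSubspace.direction e
    rw [direction_affineSpan, AffineSubspace.direction_top, vectorSpan_pair] at e1
    have e2 := finrank_span_le_card (R := ℝ) ({a -ᵥ b} : Set ℂ)
    rw [e1] at e2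
    simp at e2
  have h0 : MeasureTheory.volume (⋃ a ∈ T, ⋃ b ∈ B, (line[ℝ, a, b] : Set ℂ)) = 0 :=
    (MeasureTheory.measure_biUnion_null_iff hT).2 fun a _ =>
      (MeasureTheory.measure_biUnion_null_iff hB).2 fun b _ => hl a b
  by_contra hc
  push Not at hc
  refine (hU.measure_pos MeasureTheory.volume hne).ne' (MeasureTheory.measure_mono_null ?_ h0)
  intro β hβ
  obtain ⟨a, ha, hv⟩ := not_subset.1 (hc β hβ)
  obtain ⟨b, hb1, hb2⟩ := not_subset.1 hv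
  rw [notMem_compl_iff] at hb2
  refine mem_iUnion₂.2 ⟨a, ha, mem_iUnion₂.2 ⟨b, hb2, ?_⟩⟩
  rw [segment_symm, segment_eq_image'] at hb1
  obtain ⟨s, -, rfl⟩ := hb1
  have hs : s ≠ 0 := by
    rintro rfl
    exact h ha (by simpa using hb2)
  have := AffineMap.lineMap_mem_affineSpan_pair (k := ℝ) s⁻¹ a (a + s • (β - a))
  rwa [AffineMap.lineMap_apply, vsub_eq_sub, add_sub_cancel_left, smul_smul, inv_mul_cancel₀ hs,
    one_smul, vadd_eq_add, sub_add_cancel] at this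

end Pool.Agent.P.MP_26ad15_nt
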