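import Pool.Agent.P.MP_26ad15_nt.Global

/-! Derivatives of `Γ` and several variables. -/

namespace Pool.Agent.P.MP_26ad15_nt

open Complex Set Filter Topology Polynomial

section Alg

variable {k L : Type*} [Field k] [Field L] [Algebra k L]

lemma mem_closure_iff_alg {s : Set L} {y : L} :
    y ∈ (AlgebraicIndependent.matroid k L).closure s ↔ IsAlgebraic (Algebra.adjoin k s) y := by
  rw [AlgebraicIndependent.matroid_closure_eq]; rfl

lemma adjoin_subset_closure (s : Set L) : (IntermediateField.adjoin k s : Set L) ⊆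
    (AlgebraicIndependent.matroid k L).closure s := fun y hy =>
  mem_closure_iff_alg.2 (IntermediateField.isAlgebraic_adjoin_iff.1
    (isAlgebraic_algebraMap (⟨y, hy⟩ : IntermediateField.adjoin k s)))

lemma indep_of_span {ι κ : Type*} [Finite ι] [Finite κ] {a : ι → L} {b : κ → L}
    (hb : AlgebraicIndependent k b) (hc : Nat.card ι ≤ Nat.card κ)
    (h : ∀ j, b j ∈ (AlgebraicIndependent.matroid k L).closure (range a)) :
    AlgebraicIndependent k a := by
  set M := AlgebraicIndependent.matroid k L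
  have h1 : M.Indep (range b) := AlgebraicIndependent.matroid_indep_iff.2 hb.to_subtype_range
  have h2 := h1.encard_le_eRk_of_subset (range_subset_iff.2 h)
  rw [M.eRk_closure_eq] at h2
  have h3 : (Nat.card ι : ℕ∞) ≤ M.eRk (range a) := by
    refine le_trans ?_ h2
    rw [← (finite_range b).cast_ncard_eq, Set.ncard_range_of_injective hb.injective]
    exact_mod_cast hc
  have h4 : Nat.card ι ≤ (range a).ncard := by
    have := h3.trans (M.eRk_le_encard _)
    rw [← (finite_range a).cast_ncard_eq] at this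
    exact_mod_cast this
  have h5 := rangeFactorization_surjective.bijective_of_nat_card_le h4
  refine .of_subtype_range (fun _ _ e => h5.1 (Subtype.ext e))
    (AlgebraicIndependent.matroid_indep_iff.1 ((M.indep_iff_eRk_eq_encard_of_finite
      (finite_range a)).2 ((M.eRk_le_encard _).antisymm (le_trans ?_ h3))))
  rw [← (finite_range a).cast_ncard_eq]
  exact_mod_cast Nat.card_le_card_of_surjective _ h5.2

lemma exists_poly_of_isAlgebraic {R : Type*} [CommRing R] [Algebra k R] (φ : R →ₐ[k] L) {y : L}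
    (h : IsAlgebraic φ.range y) : ∃ Q : R[X], Q ≠ 0 ∧ Q.eval₂ (φ : R →+* L) y = 0 := by
  obtain ⟨q, h1, h2⟩ := h
  obtain ⟨Q, rfl⟩ := map_surjective (φ.rangeRestrict : R →+* φ.range)
    φ.rangeRestrict_surjective q
  refine ⟨Q, by rintro rfl; simp at h1, ?_⟩
  rwa [aeval_def, eval₂_map] at h2

lemma isAlgebraic_of_poly {R : Type*} [CommRing R] [Algebra k R] (φ : R →ₐ[k] L)
    (hφ : Function.Injective φ) {y : L} {Q : R[X]} (hQ : Q ≠ 0)
    (h : Q.eval₂ (φ : R →+* L) y = 0) : IsAlgebraic φ.range y :=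
  ⟨Q.map (φ.rangeRestrict : R →+* φ.range), (Polynomial.map_ne_zero_iff fun _ _ e =>
    hφ (congrArg Subtype.val e)).2 hQ, by rwa [aeval_def, eval₂_map]⟩

end Alg

lemma transc_of_nonconst {D : Set ℂ} (hD : IsPreconnected D) {t₀ : ℂ} (h0 : t₀ ∈ D)
    {𝒰 : Ultrafilter ℂ} (hU : (𝒰 : Filter ℂ) ≤ 𝓝[≠] t₀) {f : ℂ → ℂ} (hf : MeromorphicOn f D)
    (h : ∀ a, ¬ Van D fun t => f t - a) : Transcendental ℂ (gm 𝒰 f) := by
  intro ha
  obtain ⟨a, ha⟩ := minpoly.degree_eq_one_iff.1 (IsAlgClosed.degree_eq_one_of_irreducible ℂ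
    (minpoly.irreducible ha.isIntegral))
  refine h a ((van_iff_gm hD h0 hU fun t ht => (hf t ht).sub (MeromorphicAt.const a t)).2 ?_)
  exact (map_sub (gm 𝒰) f fun _ => a).trans (sub_eq_zero.2 ha.symm)

lemma gmH_evalRH {α : Type*} (𝒰 : Ultrafilter α) (x : α → ℂ) :
    gmH 𝒰 (fun t => evalRingHom (x t)) = (aeval (gm 𝒰 x) : ℂ[X] →ₐ[ℂ] GF 𝒰) := by
  ext a
  · simp [gmH_apply, gm_const]
  · simp [gmH_apply]

variable {ι : Type*}

lemma hyp_of_alg {D : Set ℂ} (hD : IsPreconnected D) {t₀ : ℂ} (h0 : t₀ ∈ D)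
    {x : Option ι → ℂ → ℂ} (hx : ∀ s, AnalyticOnNhd ℂ (x s) D)
    (h1 : ∀ s a, ¬ Van D fun t => x s t - a)
    (h2 : ∀ s, ∃ Q : ℂ[X][X], Q ≠ 0 ∧ Van D fun t => Q.eval₂ (evalRingHom (x none t)) (x s t))
    (h3 : ∀ i j, i ≠ j → ∀ (a : ℚ) (m m' : ℤ),
      ¬ Van D fun t => x (some i) t - m - a * (x (some j) t - m')) : Hyp D x := by
  refine ⟨h1, fun i s => ?_, h3⟩
  obtain ⟨𝒰, hU⟩ := Ultrafilter.exists_le (𝓝[≠] t₀)
  have hv : ∀ s s' (Q : ℂ[X][X]), Van D (fun t => Q.eval₂ (evalRingHom (x s t)) (x s' t)) ↔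
      Q.eval₂ (aeval (gm 𝒰 (x s)) : ℂ[X] →ₐ[ℂ] GF 𝒰) (gm 𝒰 (x s')) = 0 := fun s s' Q => by
    rw [van_iff_gm hD h0 hU fun t ht =>
      (analyticAt_eval₂ (analyticAt_evalRH (hx s t ht)) (hx s' t ht) Q).meromorphicAt,
      ← gmH_eval₂, gmH_evalRH]
  have ht := fun s => transc_of_nonconst hD h0 hU (hx s).meromorphicOn (h1 s)
  set M := AlgebraicIndependent.matroid ℂ (GF 𝒰)
  have a1 : ∀ s, gm 𝒰 (x s) ∈ M.closure {gm 𝒰 (x none)} := fun s => by
    obtain ⟨Q, q1, q2⟩ := h2 s
    rw [mem_closure_iff_alg, Algebra.adjoin_singleton_eq_range_aeval]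
    exact isAlgebraic_of_poly _ (transcendental_iff_injective.1 (ht none)) q1 ((hv _ _ Q).1 q2)
  have a2 : gm 𝒰 (x none) ∈ M.closure {gm 𝒰 (x (some i))} := by
    have := M.closure_exchange (X := ∅) (e := gm 𝒰 (x (some i))) (f := gm 𝒰 (x none))
      ⟨by simpa using a1 _, fun h => ht (some i) (by
        rw [mem_closure_iff_alg, Algebra.adjoin_empty] at h
        exact (Subalgebra.isAlgebraic_bot_iff (algebraMap ℂ _).injective).1 h)⟩
    simpa using this.1
  have a3 := M.closure_subset_closure_of_subset_closure (singleton_subset_iff.2 a2) (a1 s)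
  rw [mem_closure_iff_alg, Algebra.adjoin_singleton_eq_range_aeval] at a3
  obtain ⟨Q, q1, q2⟩ := exists_poly_of_isAlgebraic _ a3
  exact ⟨Q, q1, (hv _ _ Q).2 q2⟩

lemma isOpen_nonpole : IsOpen {z : ℂ | ∀ m : ℕ, z ≠ -m} := by
  have : {z : ℂ | ∀ m : ℕ, z ≠ -m} = {z | gg z ≠ 0} := by
    ext z; simp [gg, Complex.Gamma_eq_zero_iff]
  rw [this]
  exact isOpen_ne_fun differentiable_gg.continuous continuous_const

lemma nonpole_of_gg {z : ℂ} (h : gg z ≠ 0) (m : ℕ) : z ≠ -m := by
  rintro rfl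
  exact h (by rw [gg, Complex.Gamma_neg_nat_eq_zero, inv_zero])

lemma PS_true (k : ℕ) : PS true k = iteratedDeriv k digamma := rfl

lemma gamma_rec (k : ℕ) {z : ℂ} (hz : ∀ m : ℕ, z ≠ -m) : iteratedDeriv (k + 1) Gamma z =
    ∑ i ∈ Finset.range (k + 1), k.choose i * PS true i z * iteratedDeriv (k - i) Gamma z := by
  have : deriv Gamma =ᶠ[𝓝 z] digamma * Gamma :=
    eventually_of_mem (isOpen_nonpole.mem_nhds hz) fun w hw => (hasDerivAt_Gamma' hw).deriv
  rw [iteratedDeriv_succ', this.iteratedDeriv_eq, iteratedDeriv_mul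
    (analyticAt_digamma hz).contDiffAt (analyticAt_Gamma hz).contDiffAt]
  rfl

/-- The values `ξ, Γ^(k)(z_i)`. -/
noncomputable def famG (v : Option ι → ℂ) : Option (ι × ℕ) → ℂ := fun s =>
  s.elim (v none) fun j => iteratedDeriv j.2 Gamma (v (some j.1))

lemma nonpole_eventually {D : Set ℂ} (hD : IsPreconnected D) {F : ℂ → ℂ}
    (hF : AnalyticOnNhd ℂ F D) (h : ∀ a, ¬ Van D fun t => F t - a) {t : ℂ} (ht : t ∈ D) :
    ∀ᶠ z in 𝓝[≠] t, ∀ m : ℕ, F z ≠ -m :=
  ((tendsto_nhdsNE_of_not_van hD hF h ht).eventually (gg_eventually_ne _)).mono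
    fun _ => nonpole_of_gg

theorem alw_gamma [Finite ι] {D : Set ℂ} (hD : IsPreconnected D) (ho : IsOpen D)
    {x : Option ι → ℂ → ℂ} (hx : ∀ s, AnalyticOnNhd ℂ (x s) D) (H : Hyp D x) {t₀ : ℂ}
    (h0 : t₀ ∈ D) {𝒰 : Ultrafilter ℂ} (hU : (𝒰 : Filter ℂ) ≤ 𝓝[≠] t₀) :
    AlgebraicIndependent ℂ fun s => gm 𝒰 fun t => famG (fun s => x s t) s := by
  have hb := (con_iff hD h0 hU hx).1 (alw_one hD ho hx H)
  set a : Option (ι × ℕ) → GF 𝒰 := fun s => gm 𝒰 fun t => famG (fun s => x s t) s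
  have hnp := fun i => (nonpole_eventually hD (hx _) (H.1 (some i)) h0).filter_mono hU
  have key : ∀ K : ℕ, AlgebraicIndependent ℂ fun s : Option (ι × Fin (K + 1)) =>
      a (s.map (Prod.map id Fin.val)) := by
    intro K
    have := Fintype.ofFinite ι
    refine indep_of_span (hb.comp (Option.map (Sum.map id (Prod.map id (Fin.val (n := K)))))
      (Option.map_injective (Function.injective_id.sumMap
        (Function.injective_id.prodMap Fin.val_injective)))) (by simp [mul_add, add_comm]) ?_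
    set A := IntermediateField.adjoin ℂ (range fun s : Option (ι × Fin (K + 1)) =>
      a (s.map (Prod.map id Fin.val)))
    have hG : ∀ i j, j ≤ K → (gm 𝒰 fun t => iteratedDeriv j Gamma (x (some i) t)) ∈ A :=
      fun i j hj => IntermediateField.subset_adjoin _ _ ⟨some (i, ⟨j, by omega⟩), rfl⟩
    have hP : ∀ i k, k < K → (gm 𝒰 fun t => PS true k (x (some i) t)) ∈ A := by
      intro i k
      induction k using Nat.strong_induction_on with
      | _ k ih =>
      intro hk
      have : (gm 𝒰 fun t => PS true k (x (some i) t)) =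
          ((gm 𝒰 fun t => iteratedDeriv (k + 1) Gamma (x (some i) t)) -
            ∑ j ∈ Finset.range k, (k.choose j : ℂ) • (gm 𝒰 fun t => PS true j (x (some i) t)) *
              gm 𝒰 fun t => iteratedDeriv (k - j) Gamma (x (some i) t)) /
          gm 𝒰 fun t => iteratedDeriv 0 Gamma (x (some i) t) := by
        simp only [← map_smul, ← map_mul, ← map_sum, ← map_sub, ← gm_div]
        rw [gm_eq_iff]
        filter_upwards [hnp i] with z hz
        have h1 := gamma_rec k hz
        rw [Finset.sum_range_succ] at h1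
        simp only [Pi.div_apply, Pi.sub_apply, Finset.sum_apply, Pi.mul_apply, Pi.smul_apply,
          smul_eq_mul, h1, Nat.choose_self, Nat.sub_self, iteratedDeriv_zero]
        rw [eq_div_iff (Complex.Gamma_ne_zero hz)]
        simp
      rw [this]
      exact div_mem (sub_mem (hG i _ hk) (sum_mem fun j hj => mul_mem
        (A.smul_mem (ih j (Finset.mem_range.1 hj) (by have := Finset.mem_range.1 hj; omega)))
        (hG i _ (by omega)))) (hG i 0 (by omega))
    rintro (_ | i | ⟨i, k⟩) <;> apply adjoin_subset_closure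
    · exact IntermediateField.subset_adjoin _ _ ⟨none, rfl⟩
    · exact hG i 0 (by omega)
    · exact hP i k k.2
  refine algebraicIndependent_of_finite_type fun t ht => ?_
  obtain ⟨K, hK⟩ := (ht.image fun s => s.elim 0 Prod.snd).bddAbove
  have hs : ∀ s : t, ∃ w : Option (ι × Fin (K + 1)), w.map (Prod.map id Fin.val) = s := by
    rintro ⟨_ | ⟨i, k⟩, hs⟩
    · exact ⟨none, rfl⟩
    · exact ⟨some (i, ⟨k, Nat.lt_succ_of_le (hK ⟨_, hs, rfl⟩)⟩), rfl⟩
  choose w hw using hs
  convert! (key K).comp w fun s s' e => Subtype.ext (by rw [← hw, ← hw, e]) with s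
  rw [Function.comp_apply, hw]

section Multi

variable {E : Type*} [NormedAddCommGroup E] [NormedSpace ℂ E]

lemma ne_residual {U : Set E} (ho : IsOpen U) (hc : IsPreconnected U) {h : E → ℂ}
    (ha : AnalyticOnNhd ℂ h U) (hn : ¬ ∀ x ∈ U, h x = 0) :
    ∀ᶠ x in residual E, x ∈ U → h x ≠ 0 := by
  have : IsNowhereDense {x ∈ U | h x = 0} := by
    rw [IsNowhereDense, eq_empty_iff_forall_notMem]
    intro w hw
    obtain ⟨x, h1, h2, -⟩ := mem_closure_iff.1 (interior_subset hw) _ isOpen_interior hw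
    refine hn (ha.eqOn_zero_of_preconnected_of_eventuallyEq_zero hc h2 ?_)
    filter_upwards [isOpen_interior.mem_nhds h1, ho.mem_nhds h2] with y a b
    have := (ha y b).continuousAt.continuousWithinAt.mem_closure (interior_subset a)
      (t := {0}) fun z hz => hz.2
    simpa using this
  exact mem_of_superset this.isMeagre fun x hx a b => hx ⟨a, b⟩

lemma analyticAt_mveval {σ : Type*} {x : σ → E → ℂ} {t : E} (h : ∀ s, AnalyticAt ℂ (x s) t)
    (P : MvPolynomial σ ℂ) : AnalyticAt ℂ (fun t => MvPolynomial.eval (fun s => x s t) P) t := by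
  induction P using MvPolynomial.induction_on with
  | C c => simpa using analyticAt_const
  | add p q hp hq => simp only [map_add]; exact hp.add hq
  | mul_X p s hp => simp only [map_mul, MvPolynomial.eval_X]; exact hp.mul (h s)

end Multi

lemma poly_residual {σ κ : Type*} [Fintype σ] {P : MvPolynomial (σ ⊕ κ) ℂ} (hP : P ≠ 0) :
    ∃ G : κ → ℂ, ∀ᶠ x in residual (σ → ℂ), MvPolynomial.eval (Sum.elim x G) P ≠ 0 := by
  obtain ⟨w, hw⟩ : ∃ w, MvPolynomial.eval w P ≠ 0 := by
    by_contra hc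
    push Not at hc
    exact hP (MvPolynomial.funext fun w => by simp [hc w])
  refine ⟨w ∘ .inr, (ne_residual isOpen_univ isPreconnected_univ (fun x _ =>
    analyticAt_mveval (x := fun s x => Sum.elim x (w ∘ .inr) s) ?_ P) fun h => hw ?_).mono
      fun x hx => hx (mem_univ x)⟩
  · rintro (s | s)
    · exact (ContinuousLinearMap.proj (R := ℂ) (φ := fun _ => ℂ) s).analyticAt x
    · exact analyticAt_const
  · have := h (w ∘ .inl) (mem_univ _)
    rwa [show (fun s => Sum.elim (w ∘ Sum.inl) (w ∘ Sum.inr) s) = w from Sum.elim_comp_inl_inr w]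
      at this

lemma poly_residual' {σ : Type*} [Fintype σ] {P : MvPolynomial σ ℂ} (hP : P ≠ 0) :
    ∀ᶠ x in residual (σ → ℂ), MvPolynomial.eval x P ≠ 0 := by
  have h1 : AnalyticOnNhd ℂ (fun x : σ → ℂ => MvPolynomial.eval (fun s => x s) P) univ :=
    fun x _ => analyticAt_mveval (x := fun s (x : σ → ℂ) => x s)
      (fun s => (ContinuousLinearMap.proj (R := ℂ) (φ := fun _ => ℂ) s).analyticAt x) P
  refine (ne_residual isOpen_univ isPreconnected_univ h1 fun h => hP ?_).mono
    fun x hx => hx (mem_univ x)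
  refine MvPolynomial.funext fun w => ?_
  rw [map_zero]
  exact h w (mem_univ w)

theorem alw_multi {σ : Type*} [Fintype σ] [Finite ι] {U : Set (σ → ℂ)} (ho : IsOpen U)
    (hc : IsConnected U) {f : ι → (σ → ℂ) → ℂ} (hf : ∀ i, AnalyticOnNhd ℂ (f i) U)
    (halg : ∀ i, ∃ Q : (MvPolynomial σ ℂ)[X], Q ≠ 0 ∧
      ∀ x ∈ U, Q.eval₂ (MvPolynomial.eval x) (f i x) = 0)
    (hnc : ∀ i c, ¬ ∀ x ∈ U, f i x = c) (hH : H0 U f) (P : MvPolynomial (σ ⊕ ι × ℕ) ℂ)
    (hP : ∀ x ∈ U, (∀ i (m : ℕ), f i x ≠ -m) → MvPolynomial.eval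
      (Sum.elim x fun j => iteratedDeriv j.2 Gamma (f j.1 x)) P = 0) : P = 0 := by
  by_contra hP0
  obtain ⟨G, hG⟩ := poly_residual hP0
  choose Q q1 q2 using halg
  have h1 := fun i => poly_residual' (leadingCoeff_ne_zero.2 (q1 i))
  have h2 : ∀ᶠ x in residual (σ → ℂ), ∀ w : {p : ι × ι // p.1 ≠ p.2} × ℚ × ℤ × ℤ, x ∈ U →
      f w.1.1.1 x - w.2.2.1 - w.2.1 * (f w.1.1.2 x - w.2.2.2) ≠ 0 :=
    eventually_countable_forall.2 fun w => ne_residual ho hc.2 (((hf _).sub analyticOnNhd_const).sub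
      (analyticOnNhd_const.mul ((hf _).sub analyticOnNhd_const))) fun h =>
        hH _ _ w.1.2 _ _ _ fun x hx => sub_eq_zero.1 (h x hx)
  obtain ⟨p, p0, p1, p2, p3⟩ := (dense_of_mem_residual
    (hG.and ((eventually_all.2 h1).and h2))).inter_open_nonempty U ho hc.1
  obtain ⟨ε, ε0, hε⟩ := Metric.isOpen_iff.1 ho p p0
  obtain ⟨q, q0, hq⟩ := (dense_of_mem_residual (eventually_all.2 fun i => ne_residual ho hc.2
    ((hf i).sub analyticOnNhd_const) fun h => hnc i (f i p) fun x hx => sub_eq_zero.1 (h x hx))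
    ).inter_open_nonempty _ Metric.isOpen_ball ⟨p, Metric.mem_ball_self ε0⟩
  let l : ℂ → σ → ℂ := fun t => p + t • (q - p)
  have l0 : l 0 = p := by simp [l]
  have l1 : l 1 = q := by simp [l]
  have la : ∀ t, AnalyticAt ℂ l t := fun t => analyticAt_const.add (analyticAt_id.smul analyticAt_const)
  let D := l ⁻¹' Metric.ball p ε
  have hDo : IsOpen D := Metric.isOpen_ball.preimage (by fun_prop)
  have hD : IsPreconnected D := by
    refine Convex.isPreconnected fun a ha b hb u v hu hv huv => ?_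
    refine (congrArg (· ∈ Metric.ball p ε) (funext fun j => ?_)).mp
      (convex_ball p ε ha hb hu hv huv)
    have e : (v : ℂ) = 1 - u := by exact_mod_cast (by linarith : v = 1 - u)
    simp only [l, Pi.add_apply, Pi.smul_apply, smul_eq_mul, real_smul, e]
    ring
  have d0 : (0 : ℂ) ∈ D := by simpa [D, l0] using ε0
  have d1 : (1 : ℂ) ∈ D := by simpa [D, l1] using q0
  let x : Option ι → ℂ → ℂ := fun s => s.elim id fun i t => f i (l t)
  have hx : ∀ s, AnalyticOnNhd ℂ (x s) D := by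
    rintro (_ | i) t ht
    · exact analyticAt_id
    · exact (hf i _ (hε ht)).comp_of_eq (la t) rfl
  let θ : MvPolynomial σ ℂ →ₐ[ℂ] ℂ[X] := MvPolynomial.aeval fun j => C (p j) + X * C ((q - p) j)
  have hθ : ∀ t, (evalRingHom t).comp (θ : MvPolynomial σ ℂ →+* ℂ[X]) = MvPolynomial.eval (l t) :=
    fun t => by ext <;> simp [θ, l]
  have H : Hyp D x := by
    refine hyp_of_alg hD d0 hx (fun s a h => ?_) ?_ fun i j hij a m m' h => ?_
    · replace h := (van_iff hDo ((hx s).sub analyticOnNhd_const)).1 h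
      have e := sub_left_injective ((h 1 d1).trans (h 0 d0).symm)
      rcases s with _ | i
      · simp [x] at e
      · exact hq i (hε q0) (sub_eq_zero.2 (by simpa [x, l0, l1] using e))
    · rintro (_ | i)
      · exact ⟨X - C X, X_sub_C_ne_zero _, fun y _ => by simp⟩
      · refine ⟨(Q i).map θ, fun e => p2 i ?_, fun y hy => eventually_nhdsWithin_of_eventually_nhds
          (eventually_of_mem (hDo.mem_nhds hy) fun t ht => ?_)⟩
        · have := congrArg (fun r => evalRingHom 0 (r.coeff (Q i).natDegree)) e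
          simp only [coeff_map, coeff_zero, map_zero] at this
          rw [← l0, ← hθ]
          exact this
        · refine (eval₂_map _ _ _).trans ?_
          exact (hθ t).symm ▸ q2 i _ (hε ht)
    · replace h := (van_iff hDo (((hx _).sub analyticOnNhd_const).sub
        (analyticOnNhd_const.mul ((hx _).sub analyticOnNhd_const)))).1 h
      exact p3 (⟨(i, j), hij⟩, a, m, m') p0 (by simpa [x, l0] using h 0 d0)
  obtain ⟨𝒰, hU⟩ := Ultrafilter.exists_le (𝓝[≠] (0 : ℂ))
  let η : MvPolynomial (σ ⊕ ι × ℕ) ℂ →ₐ[ℂ] MvPolynomial (Option (ι × ℕ)) ℂ := MvPolynomial.aeval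
    (Sum.elim (fun j => .C (p j) + .X none * .C ((q - p) j)) fun s => .X (some s))
  have hη : ∀ w : Option (ι × ℕ) → ℂ, MvPolynomial.eval w (η P) =
      MvPolynomial.eval (Sum.elim (l (w none)) fun s => w (some s)) P := fun w => by
    have : (MvPolynomial.eval w).comp (η : _ →+* _) =
        MvPolynomial.eval (Sum.elim (l (w none)) fun s => w (some s)) := by
      ext (s | s) <;> simp [η, l]
    exact DFunLike.congr_fun this P
  have := algebraicIndependent_iff.1 (alw_gamma hD hDo hx H d0 hU) (η P) (by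
    rw [gm_aeval, gm_eq_zero_iff]
    filter_upwards [(eventually_all.2 fun i =>
      nonpole_eventually hD (hx _) (H.1 (some i)) d0).filter_mono hU,
      (hU.trans nhdsWithin_le_nhds) (hDo.mem_nhds d0)] with t a b
    rw [hη]
    exact hP _ (hε b) a)
  have e := hη fun s => s.elim 0 G
  rw [this, map_zero] at e
  exact p1 (by simpa [l0] using e.symm)

end Pool.Agent.P.MP_26ad15_nt
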