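import Pool.Agent.P.MP_26ad15_nt.Graded
import Pool.Agent.P.MP_26ad15_nt.GammaFns

/-! Functions asymptotic to `c * exp τ` and the growth classes of `Γ` composed with them. -/

namespace Pool.Agent.P.MP_26ad15_nt

open Complex Set Filter Topology Asymptotics

/-- The right half plane `re > r`. -/
def HP (r : ℝ) : Set ℂ := {τ | r < τ.re}

lemma isOpen_HP (r : ℝ) : IsOpen (HP r) := isOpen_lt continuous_const Complex.continuous_re

lemma isPreconnected_HP (r : ℝ) : IsPreconnected (HP r) := (convex_halfSpace_re_gt r).isPreconnected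

/-- `F` is analytic on `HP r` and equals `c * exp τ` up to a lower order term. -/
def Top (r : ℝ) (F : ℂ → ℂ) (c : ℂ) : Prop :=
  c ≠ 0 ∧ AnalyticOnNhd ℂ F (HP r) ∧ ∃ b C : ℝ, 0 ≤ b ∧ b < 1 ∧ 0 ≤ C ∧
    ∀ τ ∈ HP r, ‖F τ - c * cexp τ‖ ≤ C * Real.exp (b * |τ.re|)

lemma eventually_Sec_subset (r φ : ℝ) : ∀ᶠ R in atTop, Sec φ R ⊆ HP r := by
  filter_upwards [eventually_ge_atTop 1, eventually_gt_atTop (Real.exp r)] with R h1 h2
  rintro _ ⟨ζ, hζ, rfl⟩
  show r < _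
  rw [TT_re, Real.lt_log_iff_exp_lt (by linarith [one_le_norm_add h1 hζ])]
  linarith [one_le_norm_add h1 hζ]

lemma sector_good {c : ℂ} (hc : 0 < c.re) : ∃ δ : ℝ, 0 < δ ∧ ∀ w : ℂ, 0 ≤ w.re →
    Good (δ * ‖w‖) (c * w) := by
  have n0 : 0 < ‖c‖ := lt_of_lt_of_le hc (re_le_norm c)
  refine ⟨c.re / 2, by positivity, fun w hw => ?_⟩
  by_contra h
  simp only [Good, not_or, not_le] at h
  obtain ⟨h1, h2⟩ := h
  have hw0 : 0 < ‖w‖ := by
    by_contra h0
    have : ‖w‖ = 0 := le_antisymm (not_lt.1 h0) (norm_nonneg w)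
    rw [this, mul_zero] at h2
    exact (abs_nonneg _).not_gt h2
  rw [abs_lt] at h2
  simp only [mul_re, mul_im] at h1 h2
  have e := Complex.sq_norm w
  rw [Complex.normSq_apply] at e
  have a1 : c.re * (w.re * w.re + w.im * w.im) =
      (c.re * w.re - c.im * w.im) * w.re + (c.re * w.im + c.im * w.re) * w.im := by ring
  have a2 : (c.re * w.re - c.im * w.im) * w.re ≤ c.re / 2 * ‖w‖ * ‖w‖ := by
    have := re_le_norm w
    calc (c.re * w.re - c.im * w.im) * w.re ≤ c.re / 2 * ‖w‖ * w.re :=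
          mul_le_mul_of_nonneg_right h1.le hw
      _ ≤ _ := by gcongr
  have a3 : (c.re * w.im + c.im * w.re) * w.im < c.re / 2 * ‖w‖ * ‖w‖ := by
    have b1 := abs_im_le_norm w
    have b2 : |c.re * w.im + c.im * w.re| < c.re / 2 * ‖w‖ := abs_lt.2 h2
    calc (c.re * w.im + c.im * w.re) * w.im ≤ |c.re * w.im + c.im * w.re| * |w.im| := by
          rw [← abs_mul]; exact le_abs_self _
      _ ≤ |c.re * w.im + c.im * w.re| * ‖w‖ := by gcongr
      _ < _ := by gcongr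
  nlinarith

lemma add_log_le {A ε x : ℝ} (hA : 0 ≤ A) (hε : 0 < ε) (hx : 1 ≤ x) :
    A + Real.log x ≤ (A + ε⁻¹) * x ^ ε := by
  have h1 : 1 ≤ x ^ ε := Real.one_le_rpow hx hε.le
  have h2 := Real.log_le_rpow_div (by linarith : 0 ≤ x) hε
  rw [div_eq_inv_mul] at h2
  nlinarith

/-- The constant `κ` with `log (± c exp τ) = τ + κ` on the half plane. -/
noncomputable def kk (e : Bool) (c : ℂ) (φ : ℝ) : ℂ :=
  Complex.log (sg e * c * cexp (φ * I)) - φ * I

lemma Top.estimates {r : ℝ} {F : ℂ → ℂ} {c : ℂ} (h : Top r F c) {e : Bool} {φ : ℝ}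
    (hs : 0 < (sg e * c * cexp (φ * I)).re) : ∃ b C : ℝ, 0 ≤ b ∧ b < 1 ∧ 0 ≤ C ∧
      ∀ᶠ R in atTop, ∀ τ ∈ Sec φ R, Good 3 (sg e * F τ) ∧
        (sg e * SS (sg e * F τ)).re ≤ Qr (c, c * (kk e c φ - 1)) τ + C * Real.exp (b * |τ.re|) ∧
        Real.log (‖F τ‖ + 2) ≤ C * Real.exp (b * |τ.re|) := by
  obtain ⟨c0, -, b, C, b0, b1, C0, hF⟩ := h
  set c' := sg e * c * cexp (φ * I) with hc'
  obtain ⟨δ, δ0, hδ⟩ := sector_good hs
  set ε := (1 - b) / 2 with hε
  have ε0 : 0 < ε := by linarith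
  set A := |Real.log (‖c‖ + δ / 2 + 2)| + 4 with hA
  have A0 : 0 ≤ A := by positivity
  refine ⟨b + ε, (A + ε⁻¹) * (C + 1), by linarith, by linarith, by positivity, ?_⟩
  have t : Tendsto (fun y : ℝ => C * y ^ (-(1 - b))) atTop (𝓝 (C * 0)) :=
    (tendsto_rpow_neg_atTop (by linarith)).const_mul _
  rw [mul_zero] at t
  obtain ⟨R1, hR1⟩ := eventually_atTop.1 (t.eventually (ge_mem_nhds (half_pos δ0)))
  filter_upwards [eventually_ge_atTop 1, eventually_ge_atTop R1, eventually_ge_atTop (6 / δ),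
    eventually_Sec_subset r φ] with R h1 h2 h3 h4
  rintro _ ⟨ζ, hζ, rfl⟩
  have hτ := h4 ⟨ζ, hζ, rfl⟩
  have hw := one_le_norm_add h1 hζ
  have hFτ := hF _ hτ
  rw [exp_abs_TT h1 hζ] at hFτ ⊢
  set w := ζ + R with hwdef
  set x := ‖w‖ with hx
  have x1 : 1 ≤ x := by linarith
  have wre : 0 < w.re := by simp [hwdef]; linarith [show 0 ≤ ζ.re from hζ]
  have hz0 : sg e * (c * cexp (TT φ R ζ)) = c' * w := by rw [exp_TT h1 hζ, hc']; ring
  have hd : ‖sg e * F (TT φ R ζ) - c' * w‖ ≤ C * x ^ b := by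
    rwa [← hz0, ← mul_sub, norm_mul, norm_sg, one_mul]
  have hd2 : C * x ^ b ≤ δ / 2 * x := by
    have := hR1 x (by linarith)
    have e1 : x ^ b = x ^ (-(1 - b)) * x := by
      rw [← Real.rpow_add_one (by linarith)]; congr 1; ring
    rw [e1, ← mul_assoc]
    gcongr
  have hd3 : 3 ≤ δ / 2 * x := by
    rw [div_le_iff₀ δ0] at h3
    nlinarith
  have hball : ∀ z ∈ Metric.closedBall (c' * w) (δ / 2 * x), Good 3 z ∧
      Real.log (‖z‖ + 2) + 4 ≤ A + Real.log x := by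
    intro z hz
    rw [Metric.mem_closedBall, dist_eq_norm] at hz
    refine ⟨(Good.near (M := δ / 2 * x) (by
      rw [show δ / 2 * x + δ / 2 * x = δ * x by ring]; exact hδ w wre.le) hz).mono hd3, ?_⟩
    have n1 : ‖c' * w‖ = ‖c‖ * x := by
      rw [hc', norm_mul, norm_mul, norm_mul, norm_sg, norm_exp_I, one_mul, mul_one]
    have n2 := norm_le_norm_add_norm_sub' z (c' * w)
    have n3 : ‖z‖ + 2 ≤ (‖c‖ + δ / 2 + 2) * x := by nlinarith
    have n4 := Real.log_le_log (by positivity) n3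
    rw [Real.log_mul (by positivity) (by positivity)] at n4
    linarith [le_abs_self (Real.log (‖c‖ + δ / 2 + 2))]
  have hmem : sg e * F (TT φ R ζ) ∈ Metric.closedBall (c' * w) (δ / 2 * x) := by
    rw [Metric.mem_closedBall, dist_eq_norm]; linarith
  have l1 := add_log_le A0 ε0 x1
  have x2 : 1 ≤ x ^ b := Real.one_le_rpow x1 b0
  have x3 : 0 ≤ (A + ε⁻¹) * x ^ ε := by positivity
  have e2 : (A + ε⁻¹) * (C + 1) * x ^ (b + ε) = (A + ε⁻¹) * x ^ ε * (C * x ^ b + x ^ b) := by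
    rw [Real.rpow_add (by linarith)]; ring
  refine ⟨(hball _ hmem).1, ?_, ?_⟩
  · have s1 := SS_lip (convex_closedBall (c' * w) (δ / 2 * x))
      (fun z hz => (hball z hz).1.slit (by norm_num)) (M := (A + ε⁻¹) * x ^ ε)
      (fun z hz => (norm_log_le z).trans (by
        have n1 := (hball z hz).1.le_norm
        rw [abs_of_nonneg (Real.log_nonneg (by linarith))]
        have := Real.log_le_log (by linarith) (by linarith : ‖z‖ ≤ ‖z‖ + 2)
        linarith [(hball z hz).2, Real.pi_le_four]))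
      (Metric.mem_closedBall_self (by linarith)) hmem
    have c'0 : c' ≠ 0 := fun h0 => by rw [h0] at hs; simp at hs
    have w0 : w ≠ 0 := norm_pos_iff.1 (by linarith)
    have a1 := abs_lt.1 (abs_arg_lt_pi_div_two_iff.2 (Or.inl hs))
    have a2 := abs_lt.1 (abs_arg_lt_pi_div_two_iff.2 (Or.inl wre))
    have lg : Complex.log (c' * w) = TT φ R ζ + kk e c φ := by
      rw [Complex.log_mul c'0 w0 ⟨by linarith [a1.1, a2.1], by linarith [a1.2, a2.2]⟩, TT, kk]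
      ring
    have e3 : sg e * SS (c' * w) = Qg (c, c * (kk e c φ - 1)) (TT φ R ζ) := by
      rw [SS, lg, ← hz0, Qg]
      linear_combination (c * cexp (TT φ R ζ) * (TT φ R ζ + kk e c φ - 1)) * sg_mul_self e
    have s2 : (sg e * SS (sg e * F (TT φ R ζ)) - sg e * SS (c' * w)).re ≤
        (A + ε⁻¹) * x ^ ε * (C * x ^ b) := by
      refine (re_le_norm _).trans ?_
      rw [← mul_sub, norm_mul, norm_sg, one_mul]
      exact s1.trans (mul_le_mul_of_nonneg_left hd x3)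
    rw [sub_re, e3] at s2
    rw [Qr, e2]
    nlinarith
  · have := (hball _ hmem).2
    rw [norm_mul, norm_sg, one_mul] at this
    rw [e2]
    have : 0 ≤ C * x ^ b := by positivity
    nlinarith

lemma Top.mero_comp {r : ℝ} {F : ℂ → ℂ} {c : ℂ} (h : Top r F c) {G : ℂ → ℂ} (hG : Meromorphic G) :
    MeromorphicOn (fun τ => G (F τ)) (HP r) := fun τ hτ =>
  (hG _).comp_analyticAt (h.2.1 τ hτ)

lemma Top.GG_PS_mem {r : ℝ} {F : ℂ → ℂ} {c : ℂ} (h : Top r F c) {e : Bool} {φ : ℝ}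
    (hs : 0 < (sg e * c * cexp (φ * I)).re) : ∀ᶠ R in atTop,
      (fun τ => GG e (F τ)) ∈ Cl (HP r) (Sec φ R) (c, c * (kk e c φ - 1)) ∧
      ∀ k, (fun τ => PS e k (F τ)) ∈ Cl (HP r) (Sec φ R) (0, 0) := by
  obtain ⟨b, C, b0, b1, C0, hR⟩ := h.estimates hs
  obtain ⟨C1, C10, hC1⟩ := GG_bound
  filter_upwards [hR, eventually_Sec_subset r φ] with R hR hS
  have hreg : ∀ τ ∈ Sec φ R, ∀ m : ℕ, ar e (F τ) ≠ -m := fun τ hτ =>
    ne_neg_nat_of_slit ((hR τ hτ).1.ar.slit (by norm_num))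
  refine ⟨⟨h.mero_comp (meromorphic_GG e), fun τ hτ =>
    (analyticAt_GG e (hreg τ hτ)).comp (h.2.1 τ (hS hτ)), b, C + C1 * C, b0, b1, by positivity,
    fun τ hτ => ?_⟩, fun k => ⟨h.mero_comp (meromorphic_PS e k), fun τ hτ =>
    (analyticAt_PS e k (hreg τ hτ)).comp (h.2.1 τ (hS hτ)), ?_⟩⟩
  · obtain ⟨g1, g2, g3⟩ := hR τ hτ
    refine (hC1 e _ (g1.mono (by norm_num))).trans (Real.exp_le_exp.2 ?_)
    nlinarith [mul_le_mul_of_nonneg_left g3 C10]
  · obtain ⟨C2, C20, hC2⟩ := PS_bound k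
    refine ⟨b, C2 * C, b0, b1, by positivity, fun τ hτ => ?_⟩
    obtain ⟨g1, g2, g3⟩ := hR τ hτ
    refine (hC2 e _ g1).trans (Real.exp_le_exp.2 ?_)
    rw [show ((0 : ℂ), (0 : ℂ)) = 0 from rfl, Qr_zero]
    nlinarith [mul_le_mul_of_nonneg_left g3 C20]

lemma Top.exp_mem {r : ℝ} {F : ℂ → ℂ} {c : ℂ} (h : Top r F c) (a : ℂ) {S : Set ℂ} (hS : S ⊆ HP r) :
    (fun τ => cexp (a * F τ)) ∈ Cl (HP r) S (0, a * c) := by
  have han : AnalyticOnNhd ℂ (fun τ => cexp (a * F τ)) (HP r) := fun τ hτ =>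
    (analyticAt_const.mul (h.2.1 τ hτ)).cexp
  obtain ⟨-, -, b, C, b0, b1, C0, hF⟩ := h
  refine ⟨han.meromorphicOn, han.mono hS, b, ‖a‖ * C, b0, b1, by positivity, fun τ hτ => ?_⟩
  rw [Complex.norm_exp]
  refine Real.exp_le_exp.2 ?_
  have e : a * F τ = Qg (0, a * c) τ + a * (F τ - c * cexp τ) := by simp [Qg]; ring
  rw [e, add_re, Qr]
  have := re_le_norm (a * (F τ - c * cexp τ))
  rw [norm_mul] at this
  nlinarith [mul_le_mul_of_nonneg_left (hF τ (hS hτ)) (norm_nonneg a)]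

lemma Cl.mono {D S S' : Set ℂ} {γ : ℂ × ℂ} {E : ℂ → ℂ} (h : E ∈ Cl D S γ) (hs : S' ⊆ S) :
    E ∈ Cl D S' γ := ⟨h.1, h.2.1.mono hs, Grow.mono h.2.2 hs⟩

lemma Top.QQ_small {r : ℝ} {F : ℂ → ℂ} {c : ℂ} (h : Top r F c) {e : Bool} {φ R : ℝ} (hR : 1 ≤ R)
    (hS : Sec φ R ⊆ HP r) (hs : 0 < (sg (!e) * c * cexp (φ * I)).re) :
    (fun τ => QQ e (F τ)) ∈ Sm φ R (fun _ => 0) := by
  obtain ⟨δ, δ0, hδ⟩ := dom_ray (φ := φ) hR (γ := (0, 2 * Real.pi * I * sg e * c)) (Or.inr ⟨rfl, by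
    have e1 : 2 * Real.pi * I * sg e * c * dir φ =
        -(((2 * Real.pi : ℝ) : ℂ) * (sg (!e) * c * cexp (φ * I))) := by
      rw [dir, sg_not]
      push_cast
      linear_combination (-2 * Real.pi * sg e * c * cexp (φ * I)) * I_mul_I
    simp only
    rw [e1, neg_re, re_ofReal_mul]
    have := Real.pi_pos
    nlinarith⟩)
  refine Grow.sm_of_dom (h.exp_mem (2 * Real.pi * I * sg e) hS).2.2 hR
    (Eventually.of_forall (ray_mem φ R)) δ0 ?_
  filter_upwards [hδ] with y hy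
  linarith

lemma Sm.tendsto {φ R : ℝ} {q : ℂ → ℂ} (h : q ∈ Sm φ R (fun _ => 0)) :
    Tendsto (fun y => q (ray φ R y)) atTop (𝓝 0) := by
  obtain ⟨δ, δ0, h⟩ := h
  refine h.trans_tendsto (Real.tendsto_exp_atBot.comp ?_)
  simp only [zero_sub]
  exact tendsto_neg_atTop_atBot.comp (tendsto_id.const_mul_atTop δ0)

lemma Sm.comp {φ R : ℝ} {q : ℂ → ℂ} (h : q ∈ Sm φ R (fun _ => 0)) {g : ℂ → ℂ}
    (hg : g =O[𝓝 0] id) : (fun τ => g (q τ)) ∈ Sm φ R (fun _ => 0) := by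
  have t := Sm.tendsto h
  obtain ⟨δ, δ0, h⟩ := h
  exact ⟨δ, δ0, (hg.comp_tendsto t).trans h⟩

lemma isBigO_of_analyticAt {g : ℂ → ℂ} (hg : AnalyticAt ℂ g 0) (h0 : g 0 = 0) :
    g =O[𝓝 0] id := by
  have := hg.differentiableAt.isBigO_sub
  simp only [h0, sub_zero] at this
  exact this

lemma uu_isBigO (e : Bool) : (fun x => uu e x - 1) =O[𝓝 0] id := by
  refine isBigO_of_analyticAt ?_ (by cases e <;> simp [uu])
  cases e
  · exact ((analyticAt_const.sub analyticAt_id).inv (by simp)).sub analyticAt_const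
  · exact (analyticAt_const.sub analyticAt_id).sub analyticAt_const

lemma VV_isBigO (e : Bool) (k : ℕ) : VV e k =O[𝓝 0] id := by
  refine isBigO_of_analyticAt ?_ ?_
  · exact (analyticAt_const.mul ((EP k).differentiable.analyticAt 0)).div
      ((analyticAt_const.sub analyticAt_id).pow _) (by simp)
  · obtain ⟨p, hp⟩ := EP_dvd k
    simp [VV, hp]

lemma kk_flip {e : Bool} {c : ℂ} {φ φ' : ℝ} (h1 : φ < φ') (h2 : φ' < φ + Real.pi)
    (hs : 0 < (sg e * c * cexp (φ * I)).re) (hs' : 0 < (sg (!e) * c * cexp (φ' * I)).re) :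
    kk e c φ = kk (!e) c φ' + Real.pi * I := by
  have n1 : sg e * c * cexp (φ * I) ≠ 0 := fun h0 => by rw [h0] at hs; simp at hs
  have n2 : sg (!e) * c * cexp (φ' * I) ≠ 0 := fun h0 => by rw [h0] at hs'; simp at hs'
  have e1 : cexp (kk e c φ) = cexp (kk (!e) c φ' + Real.pi * I) := by
    rw [Complex.exp_add, kk, kk, Complex.exp_sub, Complex.exp_sub, Complex.exp_log n1,
      Complex.exp_log n2, Complex.exp_pi_mul_I, sg_not]
    field_simp
  obtain ⟨n, hn⟩ := Complex.exp_eq_exp_iff_exists_int.1 e1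
  have a1 := abs_lt.1 (abs_arg_lt_pi_div_two_iff.2 (Or.inl hs))
  have a2 := abs_lt.1 (abs_arg_lt_pi_div_two_iff.2 (Or.inl hs'))
  have hi := congrArg Complex.im hn
  simp [kk, Complex.log_im] at hi
  have p := Real.pi_pos
  have b1 : (-1 : ℝ) < n := by nlinarith [a1.1, a2.2]
  have b2 : (n : ℝ) < 1 := by nlinarith [a1.2, a2.1]
  have : n = 0 := by
    have : (-1 : ℤ) < n := by exact_mod_cast b1
    have : n < 1 := by exact_mod_cast b2
    omega
  rw [hn, this]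
  simp

lemma kk_int {e : Bool} {c : ℂ} (hc : c ≠ 0) (φ : ℝ) :
    ∃ n : ℤ, kk e c φ = Complex.log c + n * (Real.pi * I) := by
  have n1 : sg e * c * cexp (φ * I) ≠ 0 :=
    mul_ne_zero (mul_ne_zero (sg_ne_zero e) hc) (Complex.exp_ne_zero _)
  have e1 : cexp (2 * kk e c φ) = cexp (2 * Complex.log c) := by
    rw [two_mul, two_mul, Complex.exp_add, Complex.exp_add, kk, Complex.exp_sub,
      Complex.exp_log n1, Complex.exp_log hc]
    field_simp
    linear_combination sg_mul_self e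
  obtain ⟨n, hn⟩ := Complex.exp_eq_exp_iff_exists_int.1 e1
  exact ⟨n, by linear_combination hn / 2⟩

lemma ray_eventually_mem {φ φ' R : ℝ} (hR : 1 ≤ R) (h1 : φ < φ') (h2 : φ' < φ + Real.pi) :
    ∀ᶠ y in atTop, ray φ' R y ∈ Sec φ R := by
  have hs : 0 < Real.sin (φ' - φ) := Real.sin_pos_of_pos_of_lt_pi (by linarith) (by linarith)
  have t : Tendsto (fun y : ℝ => Real.sin (φ' - φ) * y) atTop atTop := tendsto_id.const_mul_atTop hs
  filter_upwards [t.eventually_ge_atTop (2 * R), eventually_ge_atTop 0] with y hy hy0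
  refine ⟨cexp (ray φ' R y - φ * I) - R, ?_, ?_⟩
  · have e : cexp (ray φ' R y - φ * I) = (-(y * I) + R) * cexp (((φ' - φ : ℝ) : ℂ) * I) := by
      rw [Complex.exp_sub, ray, exp_TT hR (by simp), mul_div_assoc, ← Complex.exp_sub]
      push_cast
      ring_nf
    show 0 ≤ (cexp (ray φ' R y - φ * I) - R).re
    rw [e, sub_re, mul_re, Complex.exp_ofReal_mul_I_re, Complex.exp_ofReal_mul_I_im]
    simp
    nlinarith [Real.neg_one_le_cos (φ' - φ)]
  · have a1 := abs_lt.1 (abs_arg_lt_pi_div_two_iff.2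
      (Or.inl (show 0 < (-((y : ℂ) * I) + R).re by simp; linarith)))
    have a2 : arg (-((y : ℂ) * I) + R) ≤ 0 := by
      by_contra hc
      have := Complex.arg_nonneg_iff.1 (not_le.1 hc).le
      simp at this
      have y0 : y = 0 := le_antisymm this hy0
      subst y0
      simp [Complex.arg_ofReal_of_nonneg (by linarith : 0 ≤ R)] at hc
    have hi : (ray φ' R y - φ * I).im = arg (-((y : ℂ) * I) + R) + φ' - φ := by
      simp [ray, TT, Complex.log_im]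
    rw [TT, sub_add_cancel, Complex.log_exp (by rw [hi]; linarith [a1.1, Real.pi_pos])
      (by rw [hi]; linarith), sub_add_cancel]

lemma exists_generic {Λ : AddSubgroup ℂ} (hΛ : (Λ : Set ℂ).Countable) : ∃ φ, Generic φ Λ := by
  have hc : (⋃ a ∈ (Λ : Set ℂ), {φ : ℝ | a ≠ 0 ∧ (a * dir φ).re = 0}).Countable := by
    refine hΛ.biUnion fun a _ => ?_
    refine (Set.countable_range fun n : ℤ => n * Real.pi - arg a).mono ?_
    rintro φ ⟨h0, h⟩
    have e : a * dir φ = (‖a‖ : ℝ) * (cexp (((arg a + φ : ℝ) : ℂ) * I) * (-I)) := by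
      nth_rewrite 1 [← Complex.norm_mul_exp_arg_mul_I a]
      rw [dir]
      push_cast
      rw [add_mul, Complex.exp_add]
      ring
    rw [e, re_ofReal_mul, mul_re, Complex.exp_ofReal_mul_I_re, Complex.exp_ofReal_mul_I_im] at h
    simp [h0] at h
    obtain ⟨n, hn⟩ := Real.sin_eq_zero_iff.1 h
    exact ⟨n, by simp only; linarith⟩
  obtain ⟨φ, hφ⟩ := (hc.dense_compl ℝ).nonempty
  refine ⟨φ, fun a ha h => by_contra fun h0 => hφ ?_⟩
  exact Set.mem_biUnion ha ⟨h0, h⟩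

lemma exists_flip {ι : Type*} [Finite ι] {c : ι → ℂ} {e : ι → Bool} {φ : ℝ}
    (hs : ∀ i, 0 < (sg (e i) * c i * cexp (φ * I)).re) :
    ∃ φ' : ℝ, φ < φ' ∧ φ' < φ + Real.pi ∧ ∀ i, 0 < (sg (!e i) * c i * cexp (φ' * I)).re := by
  have h1 : ∀ᶠ φ' : ℝ in 𝓝 (φ + Real.pi), ∀ i, 0 < (sg (!e i) * c i * cexp (φ' * I)).re := by
    refine eventually_all.2 fun i => ?_
    have hc : Continuous fun φ' : ℝ => (sg (!e i) * c i * cexp (φ' * I)).re := by fun_prop
    refine hc.continuousAt.eventually (lt_mem_nhds ?_)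
    have := hs i
    push_cast
    rw [add_mul, Complex.exp_add, Complex.exp_pi_mul_I, sg_not]
    simpa using this
  have h2 : ∀ᶠ φ' : ℝ in 𝓝 (φ + Real.pi), φ < φ' := lt_mem_nhds (by linarith [Real.pi_pos])
  obtain ⟨φ', h3, h4⟩ := (((h1.and h2).filter_mono
    (nhdsWithin_le_nhds (s := Iio (φ + Real.pi)))).and self_mem_nhdsWithin).exists
  exact ⟨φ', h3.2, h4, h3.1⟩

lemma countable_zeros {D : Set ℂ} (hD : IsPreconnected D) {f : ℂ → ℂ} (hf : AnalyticOnNhd ℂ f D)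
    (h : ¬ ∀ τ ∈ D, f τ = 0) : {τ ∈ D | f τ = 0}.Countable := by
  apply (HereditarilyLindelofSpace.isLindelof _).countable_of_isDiscrete
  rw [isDiscrete_iff_nhdsNE]
  intro x hx
  rw [inf_principal_eq_bot]
  by_contra hc
  refine h (hf.eqOn_zero_of_preconnected_of_frequently_eq_zero hD hx.1 ?_)
  have hc' : ¬ ∀ᶠ z in 𝓝[≠] x, z ∈ {τ ∈ D | f τ = 0}ᶜ := hc
  exact (not_eventually.1 hc').mono fun z hz => (not_not.1 hz).2

end Pool.Agent.P.MP_26ad15_nt
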