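import Pool.Agent.P.MP_26ad15_nt.Lift
import Pool.Agent.P.MP_26ad15_nt.Top

/-! Continuation of algebraic functions to infinity and their leading asymptotics. -/

namespace Pool.Agent.P.MP_26ad15_nt

open Complex Set Filter Topology Polynomial Asymptotics

lemma exists_min_poly {R L : Type*} [CommRing R] [IsDomain R] [Field L] [CharZero L]
    (φ : R →+* L) (hφ : Function.Injective φ) {y : L} {Q : R[X]} (hQ : Q ≠ 0)
    (hy : Q.eval₂ φ y = 0) : ∃ P : R[X], P.eval₂ φ y = 0 ∧ P.derivative.eval₂ φ y ≠ 0 ∧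
      ∀ T : R[X], T.eval₂ φ y ≠ 0 → ∃ (A B : R[X]) (ρ : R), ρ ≠ 0 ∧ A * P + B * T = C ρ := by
  let _ := φ.toAlgebra
  have : FaithfulSMul R L := (faithfulSMul_iff_algebraMap_injective R L).2 hφ
  let K := FractionRing R
  let _ : Algebra K L := FractionRing.liftAlgebra R L
  have : IsScalarTower R K L := FractionRing.isScalarTower_liftAlgebra R L
  have : CharZero K := (algebraMap K L).charZero
  have hK := IsFractionRing.injective R K
  have hev : ∀ T : R[X], T.eval₂ φ y = aeval y (T.map (algebraMap R K)) := fun T => by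
    rw [aeval_map_algebraMap]; rfl
  have hi : IsIntegral K y := (IsAlgebraic.extendScalars (R := R) hK ⟨Q, hQ, hy⟩).isIntegral
  have hirr := minpoly.irreducible hi
  have hn : ∀ q : K[X], ∃ (b : R) (T : R[X]), b ≠ 0 ∧
      T.map (algebraMap R K) = C (algebraMap R K b) * q := fun q => by
    obtain ⟨b, hb, e⟩ := IsLocalization.integerNormalization_spec (nonZeroDivisors R) q
    exact ⟨b, _, nonZeroDivisors.ne_zero hb, by rw [e, ← smul_eq_C_mul, algebraMap_smul]⟩
  obtain ⟨b, P, hb, hP⟩ := hn (minpoly K y)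
  refine ⟨P, by simp [hev, hP], ?_, fun T hT => ?_⟩
  · rw [hev, ← derivative_map, hP, derivative_C_mul, map_mul, aeval_C]
    refine mul_ne_zero ?_ (hirr.separable.aeval_derivative_ne_zero (minpoly.aeval K y))
    rwa [_root_.map_ne_zero, map_ne_zero_iff _ hK]
  · have : ¬ minpoly K y ∣ T.map (algebraMap R K) := fun ⟨s, hs⟩ => hT (by simp [hev, hs])
    obtain ⟨u, v, huv⟩ := hirr.coprime_iff_not_dvd.2 this
    obtain ⟨b1, A, h1, hA⟩ := hn u
    obtain ⟨b2, B, h2, hB⟩ := hn v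
    refine ⟨C b2 * A, C (b * b1) * B, b * b1 * b2, by simp [hb, h1, h2],
      map_injective _ hK ?_⟩
    simp only [Polynomial.map_add, Polynomial.map_mul, map_C, hA, hB, hP, map_mul]
    linear_combination (C (algebraMap R K b) * C (algebraMap R K b1) * C (algebraMap R K b2)) * huv

/-- The germ of a family of ring homomorphisms. -/
noncomputable def gmH {α R : Type*} [CommRing R] (𝒰 : Ultrafilter α) (ev : α → R →+* ℂ) :
    R →+* GF 𝒰 := (gm 𝒰 : (α → ℂ) →+* GF 𝒰).comp (RingHom.pi ev)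

lemma gmH_apply {α R : Type*} [CommRing R] (𝒰 : Ultrafilter α) (ev : α → R →+* ℂ) (a : R) :
    gmH 𝒰 ev a = gm 𝒰 fun t => ev t a := rfl

lemma gmH_eval₂ {α R : Type*} [CommRing R] (𝒰 : Ultrafilter α) (ev : α → R →+* ℂ) (y : α → ℂ)
    (Q : R[X]) : Q.eval₂ (gmH 𝒰 ev) (gm 𝒰 y) = gm 𝒰 fun t => Q.eval₂ (ev t) (y t) := by
  refine (hom_eval₂ Q (RingHom.pi ev) (gm 𝒰 : (α → ℂ) →+* GF 𝒰) y).symm.trans ?_
  exact congrArg (gm 𝒰) (funext fun t => hom_eval₂ Q (RingHom.pi ev) (Pi.evalRingHom _ t) y)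

lemma analyticAt_eval₂ {E R : Type*} [NormedAddCommGroup E] [NormedSpace ℂ E] [CommRing R]
    {ev : E → R →+* ℂ} {y : E → ℂ} {t : E} (h : ∀ a, AnalyticAt ℂ (fun s => ev s a) t)
    (hy : AnalyticAt ℂ y t) (Q : R[X]) : AnalyticAt ℂ (fun s => Q.eval₂ (ev s) (y s)) t := by
  induction Q using Polynomial.induction_on' with
  | add p q hp hq => simp only [eval₂_add]; exact hp.add hq
  | monomial n a => simp only [eval₂_monomial]; exact (h a).mul (hy.pow n)

lemma analyticAt_evalRH {E : Type*} [NormedAddCommGroup E] [NormedSpace ℂ E] {x : E → ℂ} {t : E}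
    (hx : AnalyticAt ℂ x t) (a : ℂ[X]) : AnalyticAt ℂ (fun s => evalRingHom (x s) a) t :=
  analyticAt_eval₂ (ev := fun _ => RingHom.id ℂ) (fun _ => analyticAt_const) hx a

lemma fam_of_bezout {R : Type*} [CommRing R] {Ω : Set ℂ} {ev : ℂ → R →+* ℂ}
    (h : ∀ a, AnalyticOnNhd ℂ (fun s => ev s a) Ω) {P A B : R[X]} {ρ : R}
    (hb : A * P + B * derivative P = C ρ) (h0 : ∀ τ ∈ Ω, ev τ (ρ * P.leadingCoeff) ≠ 0) :
    Fam Ω (fun τ => P.map (ev τ)) P.natDegree := by
  refine ⟨fun k => by simpa only [coeff_map] using h _, fun τ hτ => ?_⟩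
  have h1 := h0 τ hτ
  rw [map_mul, mul_ne_zero_iff] at h1
  refine ⟨natDegree_map_le, by rw [coeff_map]; exact h1.2, fun y hy hy' => h1.1 ?_⟩
  have := congrArg (fun q => (q.map (ev τ)).eval y) hb
  rw [derivative_map] at hy'
  simpa [hy, hy'] using this.symm

/-- The filter `re → ∞`. -/
def LL : Filter ℂ := comap re atTop

lemma eventually_LL {p : ℂ → Prop} : (∀ᶠ τ in LL, p τ) ↔ ∀ᶠ r in atTop, ∀ τ ∈ HP r, p τ := by
  rw [LL, eventually_comap]
  constructor
  · intro h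
    obtain ⟨a, ha⟩ := eventually_atTop.1 h
    filter_upwards [eventually_ge_atTop a] with r hr τ hτ using ha _ (hr.trans (le_of_lt hτ)) τ rfl
  · intro h
    obtain ⟨r, hr⟩ := h.exists
    filter_upwards [eventually_gt_atTop r] with s hs τ hτ using hr τ (show r < _ by rwa [hτ])

lemma HP_mem (r : ℝ) : ∀ᶠ τ in LL, τ ∈ HP r := tendsto_comap.eventually (eventually_gt_atTop r)

lemma add_mem_HP {r : ℝ} {τ : ℂ} (h : τ ∈ HP r) (a : ℝ) : τ + a * (2 * Real.pi * I) ∈ HP r := by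
  simpa [HP] using h

lemma Fam.periodic {r : ℝ} {p : ℂ → ℂ[X]} {d : ℕ} (h : Fam (HP r) p d)
    (hp : ∀ (τ : ℂ) (k : ℕ), p (τ + k * (2 * Real.pi * I)) = p τ) {y : ℂ → ℂ}
    (hy : AnalyticOnNhd ℂ y (HP r)) (hr : ∀ τ ∈ HP r, (p τ).eval (y τ) = 0) :
    ∃ N : ℕ, 0 < N ∧ ∀ τ ∈ HP r, y (τ + N * (2 * Real.pi * I)) = y τ := by
  classical
  have h0 : ((r + 1 : ℝ) : ℂ) ∈ HP r := by simp [HP]
  set τ₀ : ℂ := ((r + 1 : ℝ) : ℂ)
  have hm : ∀ (k : ℕ), ∀ τ ∈ HP r, τ + k * (2 * Real.pi * I) ∈ HP r := fun k τ hτ => by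
    simpa using add_mem_HP hτ k
  have hk : ∀ (k : ℕ), ∀ τ ∈ HP r, (p τ).eval (y (τ + k * (2 * Real.pi * I))) = 0 := fun k τ hτ => by
    rw [← hp τ k]; exact hr _ (hm k τ hτ)
  have ha : ∀ k : ℕ, AnalyticOnNhd ℂ (fun τ => y (τ + k * (2 * Real.pi * I))) (HP r) :=
    fun k τ hτ => (hy _ (hm k τ hτ)).comp_of_eq (analyticAt_id.add analyticAt_const) rfl
  have hne : p τ₀ ≠ 0 := fun e => (h.2 _ h0).2.1 (by simp [e])
  obtain ⟨a, b, hab, e⟩ := Set.Finite.exists_lt_map_eq_of_forall_mem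
    (f := fun k : ℕ => y (τ₀ + k * (2 * Real.pi * I))) (t := (p τ₀).roots.toFinset)
    (fun k => by simpa [hne] using hk k τ₀ h0) (Finset.finite_toSet _)
  have hn := (isOpen_HP r).mem_nhds h0
  have e2 := (ha a).eqOn_of_preconnected_of_eventuallyEq (ha b) (isPreconnected_HP r) h0
    (h.unique_local (isOpen_HP r) h0 (ha a _ h0).continuousAt (ha b _ h0).continuousAt e
      (eventually_of_mem hn (hk a)) (eventually_of_mem hn (hk b)))
  refine ⟨b - a, by omega, fun τ hτ => ?_⟩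
  have := e2 (add_mem_HP hτ (-a))
  simp only at this
  rw [Nat.cast_sub hab.le]
  convert this.symm using 2 <;> push_cast <;> ring

theorem puiseux {Y : ℂ → ℂ} {r : ℝ} (ha : AnalyticOnNhd ℂ Y (HP r))
    (hp : ∀ τ ∈ HP r, Y (τ + 2 * Real.pi * I) = Y τ) {M : ℕ} (hb : Y =O[LL] fun τ => cexp τ ^ M) :
    (∀ τ ∈ HP r, Y τ = 0) ∨ ∃ (e : ℤ) (c : ℂ), c ≠ 0 ∧
      (fun τ => Y τ - c * cexp (e * τ)) =O[LL] fun τ => cexp ((e - 1) * τ) := by
  classical
  let f : ℂ → ℂ := fun w => (HP r).indicator Y (-(I * w)) * cexp (I * w) ^ M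
  have h2 : 0 < 2 * Real.pi := by positivity
  have hf : Function.Periodic f ((2 * Real.pi : ℝ) : ℂ) := by
    intro w
    have e1 : -(I * w) = -(I * (w + ((2 * Real.pi : ℝ) : ℂ))) + 2 * Real.pi * I := by
      push_cast; ring
    have e2 : I * (w + ((2 * Real.pi : ℝ) : ℂ)) = I * w + 2 * Real.pi * I := by push_cast; ring
    simp only [f]
    congr 1
    · by_cases h : -(I * (w + ((2 * Real.pi : ℝ) : ℂ))) ∈ HP r
      · rw [indicator_of_mem h, e1, indicator_of_mem (by simpa using add_mem_HP h 1), hp _ h]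
      · rw [indicator_of_notMem h, indicator_of_notMem]
        simpa [HP] using h
    · rw [e2, Complex.exp_periodic]
  have ht : Tendsto (fun w : ℂ => -(I * w)) (comap im atTop) LL :=
    tendsto_comap_iff.2 (tendsto_comap.congr fun w => by simp)
  have hi : ∀ᶠ τ in LL, (HP r).indicator Y τ = Y τ := (HP_mem r).mono fun τ h => indicator_of_mem h _
  have hh : ∀ᶠ w in comap im atTop, DifferentiableAt ℂ f w := by
    filter_upwards [ht.eventually (HP_mem r)] with w hw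
    have : DifferentiableAt ℂ ((HP r).indicator Y) (-(I * w)) :=
      (ha _ hw).differentiableAt.congr_of_eventuallyEq
        (eventually_of_mem ((isOpen_HP r).mem_nhds hw) fun τ h => indicator_of_mem h _)
    exact (this.comp w (f := fun w => -(I * w)) (by fun_prop)).mul
      (show DifferentiableAt ℂ (fun w => cexp (I * w) ^ M) w by fun_prop)
  have hbd : BoundedAtFilter (comap im atTop) f := by
    refine (((hb.congr' (hi.mono fun _ h => h.symm) EventuallyEq.rfl).comp_tendsto ht).mul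
      (isBigO_refl (fun w => cexp (I * w) ^ M) _)).trans (IsBigO.of_bound' ?_)
    simp [← mul_pow, ← Complex.exp_add]
  set F := Function.Periodic.cuspFunction (2 * Real.pi) f
  have hF : AnalyticAt ℂ F 0 := by
    rw [analyticAt_iff_eventually_differentiableAt, ← nhdsNE_sup_pure, eventually_sup]
    exact ⟨hf.eventually_differentiableAt_cuspFunction_nhds_ne_zero h2 hh,
      hf.differentiableAt_cuspFunction_zero h2 hh hbd⟩
  have hq : Tendsto (fun τ => cexp (-τ)) LL (𝓝 0) :=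
    Complex.tendsto_exp_nhds_zero_iff.2 (tendsto_neg_atTop_atBot.comp tendsto_comap)
  have hY : ∀ᶠ τ in LL, Y τ = cexp τ ^ M * F (cexp (-τ)) := by
    filter_upwards [hi] with τ hτ
    have := hf.eq_cuspFunction h2.ne' (I * τ)
    have e1 : I * (I * τ) = -τ := by rw [← mul_assoc, I_mul_I, neg_one_mul]
    have e2 : Function.Periodic.qParam (2 * Real.pi) (I * τ) = cexp (-τ) := by
      rw [Function.Periodic.qParam, ← e1]
      congr 1
      push_cast
      field_simp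
    rw [e2] at this
    simp only [F, this, f, e1, neg_neg, hτ]
    rw [mul_left_comm, ← mul_pow, ← Complex.exp_add]
    simp
  by_cases h0 : ∀ᶠ z in 𝓝 0, F z = 0
  · left
    obtain ⟨s, h3, h4⟩ := ((eventually_LL.1 (hY.and (hq.eventually h0))).and
      (eventually_ge_atTop r)).exists
    have h5 : ((s + 1 : ℝ) : ℂ) ∈ HP s := by simp [HP]
    refine ha.eqOn_zero_of_preconnected_of_eventuallyEq_zero (isPreconnected_HP r)
      (show ((s + 1 : ℝ) : ℂ) ∈ HP r from h4.trans_lt h5) ?_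
    filter_upwards [(isOpen_HP s).mem_nhds h5] with τ hτ
    simp [(h3 τ hτ).1, (h3 τ hτ).2]
  · right
    obtain ⟨n, g, g1, g2, g3⟩ := hF.exists_eventuallyEq_pow_smul_nonzero_iff.2 h0
    refine ⟨M - n, g 0, g2, ?_⟩
    have := (isBigO_refl (fun τ => cexp (((M - n : ℤ) : ℂ) * τ)) LL).mul
      (g1.differentiableAt.isBigO_sub.comp_tendsto hq)
    refine this.congr' ?_ (Eventually.of_forall fun τ => ?_)
    · filter_upwards [hY, hq.eventually g3] with τ a b
      rw [a, b, sub_zero, smul_eq_mul, ← mul_assoc, ← Complex.exp_nat_mul, ← Complex.exp_nat_mul,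
        ← Complex.exp_add, Function.comp_apply, mul_sub, mul_comm (g 0)]
      congr 3
      push_cast; ring
    · simp only [Function.comp_apply, sub_zero, ← Complex.exp_add]
      congr 1; ring

lemma tendsto_add_exp (c : ℂ) : Tendsto (fun τ => c + cexp τ) LL (Bornology.cobounded ℂ) := by
  rw [← tendsto_norm_atTop_iff_cobounded]
  have h : Tendsto (fun τ : ℂ => Real.exp τ.re) LL atTop := Real.tendsto_exp_atTop.comp tendsto_comap
  refine tendsto_atTop_mono (fun τ => ?_) (tendsto_atTop_add_const_right _ (-‖c‖) h)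
  have := norm_sub_le (c + cexp τ) c
  rw [add_sub_cancel_left, Complex.norm_exp] at this
  linarith

lemma root_growth {l : Filter ℂ} {z y : ℂ → ℂ} (hz : Tendsto z l (Bornology.cobounded ℂ))
    {P : ℂ[X][X]} (hP : P ≠ 0) (hr : ∀ᶠ τ in l, P.eval₂ (evalRingHom (z τ)) (y τ) = 0) (c : ℂ) :
    ∃ M : ℕ, y =O[l] fun τ => (z τ - c) ^ M := by
  have h1 : (fun _ => (1 : ℂ)) =O[l] fun τ => P.leadingCoeff.eval (z τ) := by
    exact ((isBigO_cobounded_of_degree_le (P := (1 : ℂ[X])) (Q := P.leadingCoeff)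
      (by simpa using zero_le_degree_iff.2 (leadingCoeff_ne_zero.2 hP))).comp_tendsto hz).congr_left
      fun _ => eval_one
  rcases eq_or_ne P.natDegree 0 with hd | hd
  · refine ⟨0, IsBigO.of_bound 0 ?_⟩
    obtain ⟨C, hC⟩ := h1.bound
    filter_upwards [hC, hr] with τ a b
    rw [eq_C_of_natDegree_eq_zero hd, eval₂_C, coe_evalRingHom] at b
    rw [leadingCoeff, hd, b] at a
    norm_num at a
  set M := (Finset.range (P.natDegree + 1)).sup fun k => (P.coeff k).natDegree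
  refine ⟨M, ?_⟩
  have h2 : ∀ k ∈ Finset.range (P.natDegree + 1),
      (fun τ => ‖(P.coeff k).eval (z τ)‖) =O[l] fun τ => (z τ - c) ^ M := fun k hk => by
    have : (P.coeff k).degree ≤ ((X - C c) ^ M).degree := by
      rw [degree_pow, degree_X_sub_C, nsmul_one]
      exact degree_le_of_natDegree_le (Finset.le_sup (f := fun k => (P.coeff k).natDegree) hk)
    exact ((isBigO_cobounded_of_degree_le this).comp_tendsto hz).norm_left.congr_right
      fun _ => by simp
  refine (((isBigO_refl y l).mul h1).congr_left fun _ => mul_one _).trans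
    ((IsBigO.of_bound' ?_).trans (IsBigO.sum h2))
  filter_upwards [hr] with τ hτ
  have := root_bound (p := P.map (evalRingHom (z τ))) natDegree_map_le hd (y τ)
  rw [eval_map, hτ, norm_zero, add_zero] at this
  simp only [coeff_map, coe_evalRingHom] at this
  rw [norm_mul, mul_comm, Finset.sum_apply]
  exact this.trans (le_abs_self _)

theorem extend {ι : Type*} [Finite ι] {c : ℂ} {V : Set ℂ} (hV : V ∈ 𝓝 c) {g : ι → ℂ → ℂ}
    (hg : ∀ i, AnalyticAt ℂ (g i) c)
    (halg : ∀ i, ∃ Q : ℂ[X][X], Q ≠ 0 ∧ ∀ᶠ z in 𝓝 c, Q.eval₂ (evalRingHom z) (g i z) = 0) :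
    ∃ (Ω : Set ℂ) (r : ℝ) (τ₁ : ℂ) (Y : ι → ℂ → ℂ) (N : ℕ), IsPreconnected Ω ∧ HP r ⊆ Ω ∧ τ₁ ∈ Ω ∧
      c + cexp τ₁ ∈ V ∧ 0 < N ∧ ∀ i, AnalyticOnNhd ℂ (Y i) Ω ∧
        (∀ᶠ τ in 𝓝 τ₁, Y i τ = g i (c + cexp τ)) ∧
        (∀ τ ∈ HP r, Y i (τ + N * (2 * Real.pi * I)) = Y i τ) ∧
        ∃ M : ℕ, Y i =O[LL] fun τ => cexp τ ^ M := by
  classical
  have := Fintype.ofFinite ι
  obtain ⟨𝒰, hU⟩ := Ultrafilter.exists_le (𝓝[≠] c)
  have hφ : Function.Injective (gmH 𝒰 fun z => evalRingHom z) := by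
    rw [injective_iff_map_eq_zero]
    intro a ha
    have := eventually_of_gm_eq_zero isPreconnected_univ (mem_univ c) hU
      (fun z _ => (analyticAt_evalRH analyticAt_id a).meromorphicAt) ha (mem_univ c)
    refine a.eq_zero_of_infinite_isRoot fun hf => ?_
    exact infinite_of_mem_nhds c (by simpa using insert_mem_nhdsWithin_insert (a := c) this)
      (hf.insert c)
  have h1 : ∀ i, ∃ (P A B : ℂ[X][X]) (ρ : ℂ[X]), ρ * P.leadingCoeff ≠ 0 ∧
      A * P + B * derivative P = C ρ ∧ ∀ᶠ z in 𝓝 c, P.eval₂ (evalRingHom z) (g i z) = 0 := by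
    intro i
    obtain ⟨Q, hQ, hz⟩ := halg i
    obtain ⟨P, p1, p2, p3⟩ := exists_min_poly _ hφ hQ (y := gm 𝒰 (g i)) (by
      rw [gmH_eval₂, gm_eq_zero_iff]
      exact hz.filter_mono (hU.trans nhdsWithin_le_nhds))
    obtain ⟨A, B, ρ, h1, h2⟩ := p3 _ p2
    refine ⟨P, A, B, ρ, mul_ne_zero h1 (leadingCoeff_ne_zero.2 ?_), h2, ?_⟩
    · rintro rfl; simp at p2
    · rw [gmH_eval₂, gm_eq_zero_iff] at p1
      exact (analyticAt_eval₂ (analyticAt_evalRH analyticAt_id) (hg i) P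
        ).frequently_zero_iff_eventually_zero.1 (p1.frequently.filter_mono hU)
  choose P A B ρ h1 h2 h3 using h1
  set R := ∏ i, ρ i * (P i).leadingCoeff with hR
  have hR0 : R ≠ 0 := Finset.prod_ne_zero_iff.2 fun i _ => h1 i
  set Z : Set ℂ := {τ | R.eval (c + cexp τ) = 0}
  have hZc : Z.Countable := by
    have : Z = cexp ⁻¹' ((fun z => c + z) ⁻¹' (R.roots.toFinset : Set ℂ)) := by
      ext τ; simp [Z, hR0]
    rw [this, Complex.countable_preimage_exp]
    exact (Finset.countable_toSet _).preimage (add_right_injective c)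
  have hZ : IsClosed Z := isClosed_eq (by fun_prop) continuous_const
  obtain ⟨r, hr⟩ : ∃ r, HP r ⊆ Zᶜ := by
    have := (tendsto_add_exp c).eventually
      (R.roots.toFinset.finite_toSet.isBounded : (R.roots.toFinset : Set ℂ)ᶜ ∈ _)
    exact (eventually_LL.1 (this.mono fun τ hτ => by simpa [Z, hR0] using hτ)).exists
  obtain ⟨W, hW, hWo, hcW⟩ := eventually_nhds_iff.1 (Eventually.and (p := fun z => z ∈ V) hV
    (eventually_all.2 fun i => (hg i).eventually_analyticAt.and (h3 i).eventually_nhds))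
  obtain ⟨τ₁, t1, t2⟩ : ∃ τ₁, c + cexp τ₁ ∈ W ∧ τ₁ ∉ Z := by
    refine (hZc.dense_compl ℂ).inter_open_nonempty {τ | c + cexp τ ∈ W}
      (hWo.preimage (by fun_prop)) ?_
    have : Tendsto (fun z => c + z) (𝓝 0) (𝓝 c) := by
      simpa using (continuous_const_add c).tendsto 0
    obtain ⟨z, a, b⟩ := (((this.eventually (hWo.mem_nhds hcW)).filter_mono
      (nhdsWithin_le_nhds (s := {0}ᶜ))).and self_mem_nhdsWithin).exists
    exact ⟨log z, by rwa [mem_ofPred_eq, Complex.exp_log b]⟩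
  obtain ⟨β, hβ, hv⟩ := exists_visible hZc (countable_singleton τ₁) (singleton_subset_iff.2 t2)
    (isOpen_HP r) ⟨((r + 1 : ℝ) : ℂ), by simp [HP]⟩
  have hsub := subset_Vis (convex_halfSpace_re_gt r) hβ hr
  have ho := isOpen_Vis β hZ
  have hz : ∀ τ, AnalyticAt ℂ (fun τ => c + cexp τ) τ := fun τ =>
    analyticAt_const.add analyticAt_cexp
  have hfam : ∀ i, Fam (Vis β Z) (fun τ => (P i).map (evalRingHom (c + cexp τ))) (P i).natDegree :=
    fun i => fam_of_bezout (fun a τ _ => analyticAt_evalRH (hz τ) a) (h2 i) fun τ hτ h =>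
      Vis_subset β Z hτ (by
        rw [mem_ofPred_eq, hR, eval_prod]
        exact Finset.prod_eq_zero (Finset.mem_univ i) h)
  have t3 := hv (mem_singleton τ₁)
  have h4 : ∀ i, ∃ (Y : ℂ → ℂ) (N : ℕ), 0 < N ∧ AnalyticOnNhd ℂ Y (Vis β Z) ∧
      (∀ᶠ τ in 𝓝 τ₁, Y τ = g i (c + cexp τ)) ∧
      (∀ τ ∈ HP r, Y (τ + N * (2 * Real.pi * I)) = Y τ) ∧
      ∃ M : ℕ, Y =O[LL] fun τ => cexp τ ^ M := by
    intro i
    obtain ⟨a1, a2⟩ := (hW _ t1).2 i
    obtain ⟨Y, y1, y2, y3⟩ := (hfam i).lift ho (starConvex_Vis β Z) (hsub hβ) t3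
      (y₀ := g i (c + cexp τ₁)) (by rw [eval_map]; exact a2.self_of_nhds)
    obtain ⟨N, n1, n2⟩ := ((hfam i).mono hsub).periodic (fun τ k => by
      rw [Complex.exp_periodic.nat_mul k]) (y1.mono hsub) fun τ hτ => y3 τ (hsub hτ)
    refine ⟨Y, N, n1, y1, (hfam i).unique_local ho t3 (y1 _ t3).continuousAt
      (a1.comp_of_eq (hz τ₁) rfl).continuousAt y2 (eventually_of_mem (ho.mem_nhds t3) y3) ?_, n2, ?_⟩
    · simp only [eval_map]
      exact (hz τ₁).continuousAt.eventually a2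
    · simpa using root_growth (tendsto_add_exp c) (P := P i) (y := Y)
        (leadingCoeff_ne_zero.1 (right_ne_zero_of_mul (h1 i)))
        ((HP_mem r).mono fun τ hτ => by simpa only [eval_map] using y3 τ (hsub hτ)) c
  choose Y N n1 y1 y2 y3 y4 using h4
  refine ⟨Vis β Z, r, τ₁, Y, ∏ i, N i, (starConvex_Vis β Z).isPathConnected (hsub hβ)
    |>.isConnected.isPreconnected, hsub, t3, (hW _ t1).1, Finset.prod_pos fun i _ => n1 i,
    fun i => ⟨y1 i, y2 i, ?_, y4 i⟩⟩
  obtain ⟨k, hk⟩ := Finset.dvd_prod_of_mem N (Finset.mem_univ i)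
  rw [hk]
  clear hk
  induction k with
  | zero => simp
  | succ k ih =>
    intro τ hτ
    rw [← ih τ hτ]
    refine Eq.trans ?_ (y3 i _ (by simpa using add_mem_HP hτ ((N i * k : ℕ) : ℝ)))
    congr 1
    push_cast; ring

end Pool.Agent.P.MP_26ad15_nt
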