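import Mathlib

/-! An auxiliary function with integer coefficients which is small on a disc. -/

namespace Pool.Agent.P.MP_26ad15_nt.SV

open Complex Filter Topology Finset Matrix

attribute [local instance] Matrix.seminormedAddCommGroup

/-- integer vectors making finitely many real linear forms small -/
theorem small_forms {α ι : Type} [Fintype α] [Fintype ι] (u : α → ι → ℝ) (E Q : ℝ) (κ : ℕ)
    (hα : 0 < Fintype.card α) (hκ : 0 < κ) (hn : Fintype.card ι = Fintype.card α * (κ + 1))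
    (hQ : 0 < Q) (hE : 0 ≤ E) (hu : ∀ a i, |u a i| ≤ E) :
    ∃ x : ι → ℤ, x ≠ 0 ∧
      (∀ i, |(x i : ℝ)| ≤ (Fintype.card ι * (Q * E + 1)) ^ (1 / (κ : ℝ))) ∧
      ∀ a, |∑ i, x i * u a i| ≤
        Fintype.card ι * (Fintype.card ι * (Q * E + 1)) ^ (1 / (κ : ℝ)) / (2 * Q) := by
  set A : Matrix α ι ℤ := Matrix.of fun a i => round (Q * u a i) with hA
  obtain ⟨x, hx0, hAx, hx⟩ := Int.Matrix.exists_ne_zero_int_vec_norm_le A
    (by rw [hn]; nlinarith) hα
  have hQE : 0 ≤ Q * E := by positivity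
  have hnA : max 1 ‖A‖ ≤ Q * E + 1 := by
    refine max_le (by linarith) ((Matrix.norm_le_iff (by linarith)).2 fun a i => ?_)
    have h1 := abs_sub_round (Q * u a i)
    have h2 : |Q * u a i| ≤ Q * E := by
      rw [abs_mul, abs_of_pos hQ]; gcongr; exact hu a i
    rw [hA, Matrix.of_apply, Int.norm_eq_abs]
    have h3 := abs_sub_abs_le_abs_sub (round (Q * u a i) : ℝ) (Q * u a i)
    rw [abs_sub_comm] at h3
    linarith
  have he : (Fintype.card α : ℝ) / (Fintype.card ι - Fintype.card α) = 1 / (κ : ℝ) := by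
    rw [hn]; push_cast
    have h1 : (0 : ℝ) < Fintype.card α := by exact_mod_cast hα
    have h2 : (0 : ℝ) < κ := by exact_mod_cast hκ
    rw [div_eq_div_iff (by nlinarith) h2.ne']
    ring
  rw [he] at hx
  set X := ((Fintype.card ι : ℝ) * (Q * E + 1)) ^ (1 / (κ : ℝ)) with hX
  have hx' : ∀ i, |(x i : ℝ)| ≤ X := fun i => by
    have h1 := norm_le_pi_norm x i
    rw [Int.norm_eq_abs] at h1
    refine h1.trans (hx.trans ?_)
    rw [hX]
    gcongr
  refine ⟨x, hx0, hx', fun a => ?_⟩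
  have h0 : ∑ i, (round (Q * u a i) : ℝ) * x i = 0 := by
    have := congrFun hAx a
    simp only [Matrix.mulVec, dotProduct, hA, Matrix.of_apply, Pi.zero_apply] at this
    exact_mod_cast this
  have h1 : Q * ∑ i, x i * u a i = ∑ i, (Q * u a i - round (Q * u a i)) * x i := by
    simp only [sub_mul, sum_sub_distrib, h0, sub_zero, mul_sum]
    exact sum_congr rfl fun i _ => by ring
  have h2 : |Q * ∑ i, x i * u a i| ≤ Fintype.card ι * (1 / 2 * X) := by
    rw [h1]
    refine (abs_sum_le_sum_abs _ _).trans ?_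
    rw [← nsmul_eq_mul, ← card_univ]
    refine sum_le_card_nsmul _ _ _ fun i _ => ?_
    rw [abs_mul]
    exact mul_le_mul (abs_sub_round _) (hx' i) (abs_nonneg _) (by norm_num)
  rw [abs_mul, abs_of_pos hQ] at h2
  rw [le_div_iff₀ (by positivity)]
  linarith

theorem aux_fun {ι : Type} [Fintype ι] (f : ι → ℂ → ℂ) (hf : ∀ i, Differentiable ℂ (f i))
    (r L E Q X : ℝ) (T κ : ℕ) (hr : 0 < r) (hL : 2 ≤ L) (hE : 0 ≤ E) (hQ : 0 < Q) (hT : 0 < T)
    (hκ : 0 < κ) (hn : Fintype.card ι = 2 * T * (κ + 1))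
    (hb : ∀ i s, ‖s‖ ≤ r * L → ‖f i s‖ ≤ E)
    (hX : (Fintype.card ι * (Q * E + 1)) ^ (1 / (κ : ℝ)) ≤ X) :
    ∃ x : ι → ℤ, x ≠ 0 ∧ (∀ i, |(x i : ℝ)| ≤ X) ∧ ∀ s, ‖s‖ ≤ r →
      ‖∑ i, x i * f i s‖ ≤ T * (Fintype.card ι * X / Q) + 2 * (Fintype.card ι * X * E / L ^ T) := by
  set u : ι → ℕ → ℂ := fun i t => (t.factorial : ℂ)⁻¹ * (r : ℂ) ^ t * iteratedDeriv t (f i) 0
    with hu
  have hL0 : 0 < L := by linarith
  have hu1 : ∀ i t, ‖u i t‖ ≤ E / L ^ t := fun i t => by
    have h1 := norm_iteratedDeriv_le_of_forall_mem_sphere_norm_le (c := 0) (R := r * L) (C := E)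
      (f := f i) t (by positivity) (hf i).diffContOnCl
      (fun z hz => hb i z (le_of_eq (by simpa using hz)))
    have h2 : (0 : ℝ) < t.factorial := by exact_mod_cast t.factorial_pos
    rw [hu]
    simp only [norm_mul, norm_inv, norm_pow, Complex.norm_natCast, Complex.norm_real,
      Real.norm_eq_abs, abs_of_pos hr]
    calc _ ≤ (t.factorial : ℝ)⁻¹ * r ^ t * (t.factorial * E / (r * L) ^ t) := by gcongr
      _ = E / L ^ t := by rw [mul_pow]; field_simp
  have hu2 : ∀ i t, ‖u i t‖ ≤ E := fun i t =>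
    (hu1 i t).trans (div_le_self hE (one_le_pow₀ (by linarith)))
  obtain ⟨x, hx0, hx, hs⟩ := small_forms (α := Fin T × Bool)
    (fun a i => if a.2 then (u i a.1).re else (u i a.1).im) E Q κ (by simpa using hT) hκ
    (by rw [hn]; simp; ring) hQ hE (fun a i => by
      split_ifs
      · exact (Complex.abs_re_le_norm _).trans (hu2 _ _)
      · exact (Complex.abs_im_le_norm _).trans (hu2 _ _))
  have hx' : ∀ i, |(x i : ℝ)| ≤ X := fun i => (hx i).trans hX
  have hX0 : 0 ≤ X := le_trans (by positivity) hX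
  refine ⟨x, hx0, hx', fun s hsr => ?_⟩
  set c : ℕ → ℂ := fun t => ∑ i, x i * u i t with hc
  have hc1 : ∀ t, ‖c t‖ ≤ Fintype.card ι * X * E / L ^ t := fun t => by
    refine (norm_sum_le _ _).trans ?_
    rw [mul_assoc, mul_div_assoc, ← nsmul_eq_mul, ← card_univ]
    refine sum_le_card_nsmul _ _ _ fun i _ => ?_
    rw [norm_mul, Complex.norm_intCast, mul_div_assoc]
    exact mul_le_mul (hx' i) (hu1 i t) (norm_nonneg _) hX0
  have hc2 : ∀ t < T, ‖c t‖ ≤ Fintype.card ι * X / Q := fun t ht => by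
    have h1 := hs (⟨t, ht⟩, true)
    have h2 := hs (⟨t, ht⟩, false)
    simp only [if_true, Bool.false_eq_true, if_false] at h1 h2
    have h3 : (c t).re = ∑ i, x i * (u i t).re := by simp [hc]
    have h4 : (c t).im = ∑ i, x i * (u i t).im := by simp [hc]
    have h5 : (Fintype.card ι : ℝ) * (Fintype.card ι * (Q * E + 1)) ^ (1 / (κ : ℝ)) / (2 * Q)
        ≤ Fintype.card ι * X / (2 * Q) := by gcongr
    have h6 := Complex.norm_le_abs_re_add_abs_im (c t)
    rw [h3, h4] at h6
    have h7 : (Fintype.card ι : ℝ) * X / Q = Fintype.card ι * X / (2 * Q)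
      + Fintype.card ι * X / (2 * Q) := by field_simp; ring
    linarith
  have hr' : (r : ℂ) ≠ 0 := by exact_mod_cast hr.ne'
  have hsum : HasSum (fun t => c t * (s / r) ^ t) (∑ i, x i * f i s) := by
    have h1 : ∀ i, HasSum (fun t => x i * u i t * (s / r) ^ t) (x i * f i s) := fun i => by
      have := (hasSum_taylorSeries_of_entire (hf i) 0 s).mul_left (x i : ℂ)
      have e : (fun t => x i * u i t * (s / r) ^ t) = fun t : ℕ =>
          (x i : ℂ) * (t.factorial : ℂ)⁻¹ • (s - 0) ^ t • iteratedDeriv t (f i) 0 := by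
        funext t
        rw [hu]
        simp only [smul_eq_mul, sub_zero, div_pow]
        field_simp
      rw [e]
      exact this
    have h2 := hasSum_sum (s := univ) fun i _ => h1 i
    have e : (fun t => c t * (s / r) ^ t) = fun t => ∑ i, x i * u i t * (s / r) ^ t := by
      funext t
      rw [hc, sum_mul]
    rw [e]
    exact h2
  have hq : ∀ t, ‖(s / r) ^ t‖ ≤ 1 := fun t => by
    rw [norm_pow, norm_div, Complex.norm_real, Real.norm_eq_abs, abs_of_pos hr]
    exact pow_le_one₀ (by positivity) ((div_le_one hr).2 hsr)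
  have hq' : ∀ t, ‖c t * (s / r) ^ t‖ ≤ ‖c t‖ := fun t => by
    rw [norm_mul]; exact mul_le_of_le_one_right (norm_nonneg _) (hq t)
  have htail := (hasSum_nat_add_iff' T).2 hsum
  have hg := hasSum_geometric_two.mul_left (Fintype.card ι * X * E / L ^ T)
  have h1 := htail.norm_le_of_bounded hg fun t => by
    refine (hq' _).trans ((hc1 _).trans ?_)
    rw [pow_add, mul_comm (L ^ t), ← div_div, div_eq_mul_inv _ (L ^ t), ← inv_pow]
    gcongr
    rw [← one_div]
    exact one_div_le_one_div_of_le (by norm_num) hL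
  have h2 : ‖∑ t ∈ range T, c t * (s / r) ^ t‖ ≤ T * (Fintype.card ι * X / Q) := by
    refine (norm_sum_le _ _).trans ?_
    rw [← nsmul_eq_mul]
    conv_rhs => rw [← card_range T]
    exact sum_le_card_nsmul _ _ _ fun t ht => (hq' _).trans (hc2 t (mem_range.1 ht))
  have h3 := norm_sub_norm_le (∑ i, x i * f i s) (∑ t ∈ range T, c t * (s / r) ^ t)
  linarith

end Pool.Agent.P.MP_26ad15_nt.SV
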