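import Mathlib

/-! A Liouville inequality at the points `z + n`. -/

namespace Pool.Agent.P.MP_26ad15_nt.SV

open Complex Finset Polynomial NumberField

theorem root_bound (P : ℤ[X]) (hP : P ≠ 0) (H : ℝ) (hH : ∀ i, |(P.coeff i : ℝ)| ≤ H) (w : ℂ)
    (hw : aeval w P = 0) : ‖w‖ ≤ 1 + H := by
  set p := P.map (Int.castRingHom ℂ) with hp
  have hinj : Function.Injective (Int.castRingHom ℂ) := Int.cast_injective
  have hp0 : p ≠ 0 := (Polynomial.map_ne_zero_iff hinj).2 hP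
  have hr : p.IsRoot w := by
    rw [IsRoot, hp, eval_map, ← algebraMap_int_eq, ← aeval_def, hw]
  have h1 := hr.norm_lt_cauchyBound hp0
  have hH0 : 0 ≤ H := (abs_nonneg _).trans (hH 0)
  have h2 : (1 : NNReal) ≤ ‖p.leadingCoeff‖₊ := by
    rw [hp, leadingCoeff_map_of_injective hinj, ← NNReal.coe_le_coe, coe_nnnorm, eq_intCast,
      Complex.norm_intCast, NNReal.coe_one]
    exact_mod_cast Int.one_le_abs (leadingCoeff_ne_zero.2 hP)
  have h3 : (range p.natDegree).sup (‖p.coeff ·‖₊) ≤ ⟨H, hH0⟩ := by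
    refine Finset.sup_le fun i _ => ?_
    rw [← NNReal.coe_le_coe, coe_nnnorm, hp, coeff_map, eq_intCast, Complex.norm_intCast]
    exact hH i
  have h4 : p.cauchyBound ≤ ⟨H, hH0⟩ + 1 := by
    rw [cauchyBound]
    gcongr
    exact (div_le_self (by positivity) h2).trans h3
  have h5 := (h1.le.trans h4)
  rw [← NNReal.coe_le_coe, coe_nnnorm] at h5
  rw [add_comm]
  exact h5

theorem liou_int {K : Type} [Field K] [NumberField K] (σ₀ : K →+* ℂ) (β : K)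
    (hβ : IsIntegral ℤ β) (h0 : β ≠ 0) (Y : ℝ) (hY : ∀ σ : K →+* ℂ, ‖σ β‖ ≤ Y) :
    1 ≤ ‖σ₀ β‖ * Y ^ (Module.finrank ℚ K - 1) := by
  have h1 := norm_norm_le_norm_mul_house_pow β σ₀
  have h2 : house β ≤ Y := by
    rw [house_eq_sup']
    obtain ⟨σ, -, hσ⟩ := exists_mem_eq_sup' (univ_nonempty (α := K →+* ℂ))
      (fun φ : K →+* ℂ => ‖φ β‖₊)
    rw [hσ]; exact hY σ
  obtain ⟨m, hm⟩ := IsIntegrallyClosed.isIntegral_iff.1 (Algebra.isIntegral_norm ℚ hβ)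
  have hm0 : m ≠ 0 := by
    rintro rfl
    exact (Algebra.norm_ne_zero_iff.2 h0) (by rw [← hm]; simp)
  have h3 : 1 ≤ ‖Algebra.norm ℚ β‖ := by
    rw [← hm, eq_intCast, Int.norm_cast_rat, Int.norm_eq_abs]
    exact_mod_cast Int.one_le_abs hm0
  have := house_nonneg β
  calc _ ≤ _ := h3.trans h1
    _ ≤ _ := by gcongr

theorem liou_field {K : Type} [Field K] [NumberField K] (σ₀ : K →+* ℂ) (z g : K) (P Q : ℤ[X])
    (hP : P ≠ 0) (hQ : Q ≠ 0) (hPz : aeval z P = 0) (hQg : aeval g Q = 0) (H1 H2 : ℝ)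
    (b1 : ∀ i, |(P.coeff i : ℝ)| ≤ H1) (b2 : ∀ i, |(Q.coeff i : ℝ)| ≤ H2) (A B n D : ℕ)
    (hD : Module.finrank ℚ K ≤ D) (x : Fin A × Fin B → ℤ) (X Y : ℝ) (hx : ∀ i, |(x i : ℝ)| ≤ X)
    (hX : 1 ≤ A * B * X)
    (hY : H1 ^ (A + n * B) * H2 ^ B * (A * B * X * ((1 + H1 + n) ^ (A + n * B) * (1 + H2) ^ B))
      ≤ Y)
    (hne : ∑ i, (x i : K) * (z + n) ^ (i.1 : ℕ) * (g * ∏ j ∈ range n, (z + j)) ^ (i.2 : ℕ) ≠ 0) :
    1 ≤ ‖σ₀ (∑ i, (x i : K) * (z + n) ^ (i.1 : ℕ) *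
      (g * ∏ j ∈ range n, (z + j)) ^ (i.2 : ℕ))‖ * Y ^ D := by
  set α := ∑ i, (x i : K) * (z + n) ^ (i.1 : ℕ) * (g * ∏ j ∈ range n, (z + j)) ^ (i.2 : ℕ)
    with hα
  set c1 := P.leadingCoeff
  set c2 := Q.leadingCoeff
  have c10 : c1 ≠ 0 := leadingCoeff_ne_zero.2 hP
  have c20 : c2 ≠ 0 := leadingCoeff_ne_zero.2 hQ
  have c1b : |(c1 : ℝ)| ≤ H1 := b1 _
  have c2b : |(c2 : ℝ)| ≤ H2 := b2 _
  have hH1 : 1 ≤ H1 := le_trans (by exact_mod_cast Int.one_le_abs c10) c1b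
  have hH2 : 1 ≤ H2 := le_trans (by exact_mod_cast Int.one_le_abs c20) c2b
  have i1 : IsIntegral ℤ ((c1 : K) * z) := by
    have := isIntegral_leadingCoeff_smul P z hPz
    rwa [zsmul_eq_mul] at this
  have i2 : IsIntegral ℤ ((c2 : K) * g) := by
    have := isIntegral_leadingCoeff_smul Q g hQg
    rwa [zsmul_eq_mul] at this
  have iZ : ∀ m : ℤ, IsIntegral ℤ (m : K) := fun m => isIntegral_algebraMap (x := m)
  have i3 : ∀ j : ℕ, IsIntegral ℤ ((c1 : K) * (z + j)) := fun j => by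
    rw [mul_add]
    exact i1.add (by simpa using iZ (c1 * j))
  set β := (c1 : K) ^ (A + n * B) * (c2 : K) ^ B * α with hβ
  have hβ0 : β ≠ 0 :=
    mul_ne_zero (mul_ne_zero (pow_ne_zero _ (by exact_mod_cast c10))
      (pow_ne_zero _ (by exact_mod_cast c20))) hne
  have hβi : IsIntegral ℤ β := by
    rw [hβ, hα, mul_sum]
    refine IsIntegral.sum _ fun i _ => ?_
    obtain ⟨a, ha⟩ := Nat.exists_eq_add_of_le i.1.2.le
    obtain ⟨b, hb⟩ := Nat.exists_eq_add_of_le i.2.2.le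
    have e : (c1 : K) ^ (A + n * B) * (c2 : K) ^ B * ((x i : K) * (z + n) ^ (i.1 : ℕ) *
        (g * ∏ j ∈ range n, (z + j)) ^ (i.2 : ℕ)) = (c1 : K) ^ (a + n * b) * (c2 : K) ^ b *
        (x i : K) * ((c1 : K) * (z + n)) ^ (i.1 : ℕ) *
        (((c2 : K) * g) * ∏ j ∈ range n, ((c1 : K) * (z + j))) ^ (i.2 : ℕ) := by
      rw [prod_mul_distrib, prod_const, card_range]
      generalize z + (n : K) = y
      generalize (i.1 : ℕ) = u at ha ⊢
      generalize (i.2 : ℕ) = v at hb ⊢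
      rw [ha, hb]
      ring
    rw [e]
    exact ((((iZ c1).pow _).mul ((iZ c2).pow _)).mul (iZ _)).mul ((i3 n).pow _) |>.mul
      ((i2.mul (IsIntegral.prod _ fun j _ => i3 j)).pow _)
  have hc : ∀ σ : K →+* ℂ, ‖σ β‖ ≤ H1 ^ (A + n * B) * H2 ^ B * ‖σ α‖ := fun σ => by
    rw [hβ, map_mul, map_mul, map_pow, map_pow, map_intCast, map_intCast, norm_mul, norm_mul,
      norm_pow, norm_pow, Complex.norm_intCast, Complex.norm_intCast]
    gcongr
  have hn0 : (0 : ℝ) ≤ n := Nat.cast_nonneg n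
  have hX0 : 0 ≤ X := by
    by_contra h
    have : (0 : ℝ) ≤ A * B := by positivity
    nlinarith
  have ha : ∀ σ : K →+* ℂ,
      ‖σ α‖ ≤ A * B * X * ((1 + H1 + n) ^ (A + n * B) * (1 + H2) ^ B) := fun σ => by
    have r1 : ‖σ z‖ ≤ 1 + H1 := root_bound P hP H1 b1 _ (by
      have := congrArg σ hPz
      rwa [map_zero, ← RingHom.toIntAlgHom_apply, ← aeval_algHom_apply] at this)
    have r2 : ‖σ g‖ ≤ 1 + H2 := root_bound Q hQ H2 b2 _ (by
      have := congrArg σ hQg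
      rwa [map_zero, ← RingHom.toIntAlgHom_apply, ← aeval_algHom_apply] at this)
    have r3 : ∀ j : ℕ, j ≤ n → ‖σ (z + j)‖ ≤ 1 + H1 + n := fun j hj => by
      rw [map_add, map_natCast]
      have h1 := norm_add_le (σ z) (j : ℂ)
      rw [Complex.norm_natCast] at h1
      have : (j : ℝ) ≤ n := by exact_mod_cast hj
      linarith
    have r4 : ‖σ (∏ j ∈ range n, (z + j))‖ ≤ (1 + H1 + n) ^ n := by
      rw [map_prod]
      calc _ ≤ ∏ j ∈ range n, ‖σ (z + j)‖ := Finset.norm_prod_le _ _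
        _ ≤ ∏ _j ∈ range n, (1 + H1 + n) :=
          prod_le_prod (fun _ _ => norm_nonneg _) fun j hj => r3 j (mem_range.1 hj).le
        _ = _ := by rw [prod_const, card_range]
    rw [hα, map_sum]
    refine (norm_sum_le _ _).trans ?_
    have e : (A : ℝ) * B * X * ((1 + H1 + n) ^ (A + n * B) * (1 + H2) ^ B)
        = (univ : Finset (Fin A × Fin B)).card •
          (X * ((1 + H1 + n) ^ (A + n * B) * (1 + H2) ^ B)) := by
      simp; ring
    rw [e]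
    refine sum_le_card_nsmul _ _ _ fun i _ => ?_
    rw [map_mul, map_mul, map_pow, map_pow, map_mul, map_intCast, norm_mul, norm_mul, norm_pow,
      norm_pow, norm_mul, Complex.norm_intCast]
    have u1 : (1 : ℝ) ≤ 1 + H1 + n := by linarith
    have u2 : (1 : ℝ) ≤ (1 + H2) * (1 + H1 + n) ^ n :=
      one_le_mul_of_one_le_of_one_le (by linarith) (one_le_pow₀ u1)
    calc _ ≤ X * (1 + H1 + n) ^ (i.1 : ℕ) * ((1 + H2) * (1 + H1 + n) ^ n) ^ (i.2 : ℕ) := by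
          have := hx i
          have := r3 n le_rfl
          gcongr
      _ ≤ X * (1 + H1 + n) ^ A * ((1 + H2) * (1 + H1 + n) ^ n) ^ B := by
          gcongr
          · exact i.1.2.le
          · exact i.2.2.le
      _ = _ := by rw [mul_pow, ← pow_mul, pow_add]; ring
  have hH : 1 ≤ H1 ^ (A + n * B) * H2 ^ B :=
    one_le_mul_of_one_le_of_one_le (one_le_pow₀ hH1) (one_le_pow₀ hH2)
  have hZ : 1 ≤ A * B * X * ((1 + H1 + n) ^ (A + n * B) * (1 + H2) ^ B) :=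
    one_le_mul_of_one_le_of_one_le hX
      (one_le_mul_of_one_le_of_one_le (one_le_pow₀ (by linarith)) (one_le_pow₀ (by linarith)))
  have hHY : H1 ^ (A + n * B) * H2 ^ B ≤ Y :=
    (le_mul_of_one_le_right (by linarith) hZ).trans hY
  have hY1 : 1 ≤ Y := hH.trans hHY
  have key := liou_int σ₀ β hβi hβ0 Y fun σ => (hc σ).trans (le_trans (by
    have := ha σ
    gcongr) hY)
  have hpos : 0 < Module.finrank ℚ K := Module.finrank_pos
  calc _ ≤ _ := key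
    _ ≤ (Y * ‖σ₀ α‖) * Y ^ (D - 1) := by
        have := (hc σ₀).trans (mul_le_mul_of_nonneg_right hHY (norm_nonneg _))
        gcongr
    _ = ‖σ₀ α‖ * Y ^ D := by
        obtain ⟨D', rfl⟩ : ∃ D', D = D' + 1 := ⟨D - 1, by omega⟩
        rw [Nat.add_sub_cancel, pow_succ]; ring

theorem liouville (θ z : ℂ) (hz : ∀ k : ℕ, z ≠ -k) (P Q : ℤ[X])
    (hP : P ≠ 0) (hQ : Q ≠ 0) (hPz : aeval z P = 0) (hQg : aeval (θ * Gamma z) Q = 0) (H1 H2 : ℝ)
    (b1 : ∀ i, |(P.coeff i : ℝ)| ≤ H1) (b2 : ∀ i, |(Q.coeff i : ℝ)| ≤ H2) (A B n D : ℕ)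
    (hD : Module.finrank ℚ (IntermediateField.adjoin ℚ {z, θ * Gamma z}) ≤ D)
    (x : Fin A × Fin B → ℤ) (X Y : ℝ) (hx : ∀ i, |(x i : ℝ)| ≤ X) (hX : 1 ≤ A * B * X)
    (hY : H1 ^ (A + n * B) * H2 ^ B * (A * B * X * ((1 + H1 + n) ^ (A + n * B) * (1 + H2) ^ B))
      ≤ Y)
    (hne : ∑ i, (x i : ℂ) * (z + n) ^ (i.1 : ℕ) * (θ * Gamma (z + n)) ^ (i.2 : ℕ) ≠ 0) :
    1 ≤ ‖∑ i, (x i : ℂ) * (z + n) ^ (i.1 : ℕ) * (θ * Gamma (z + n)) ^ (i.2 : ℕ)‖ * Y ^ D := by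
  set K := IntermediateField.adjoin ℚ {z, θ * Gamma z} with hK
  have a1 : IsIntegral ℚ z := (IsAlgebraic.extendScalars (R := ℤ) (S := ℚ)
    (by exact Int.cast_injective) ⟨P, hP, hPz⟩).isIntegral
  have a2 : IsIntegral ℚ (θ * Gamma z) := (IsAlgebraic.extendScalars (R := ℤ) (S := ℚ)
    (by exact Int.cast_injective) ⟨Q, hQ, hQg⟩).isIntegral
  have : FiniteDimensional ℚ K := IntermediateField.finiteDimensional_adjoin_pair a1 a2
  have : NumberField K := ⟨⟩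
  set z' : K := ⟨z, IntermediateField.subset_adjoin _ _ (by simp)⟩
  set g' : K := ⟨θ * Gamma z, IntermediateField.subset_adjoin _ _ (by simp)⟩
  set σ₀ : K →+* ℂ := algebraMap K ℂ
  have hinj : Function.Injective σ₀ := σ₀.injective
  have e1 : σ₀ z' = z := rfl
  have e2 : σ₀ g' = θ * Gamma z := rfl
  have hG : θ * Gamma (z + n) = θ * Gamma z * ∏ j ∈ range n, (z + j) := by
    have h1 := Gamma_add_nat_div_Gamma_eq (n := n) z hz
    have h2 : (ascPochhammer ℂ n).eval z = ∏ j ∈ range n, (z + j) := by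
      clear h1 hne hY
      induction n with
      | zero => simp
      | succ n ih => rw [ascPochhammer_succ_eval, ih, prod_range_succ]
    rw [← h2, ← h1]
    have := Gamma_ne_zero hz
    field_simp
  have e3 : σ₀ (∑ i, (x i : K) * (z' + n) ^ (i.1 : ℕ) *
      (g' * ∏ j ∈ range n, (z' + j)) ^ (i.2 : ℕ))
      = ∑ i, (x i : ℂ) * (z + n) ^ (i.1 : ℕ) * (θ * Gamma (z + n)) ^ (i.2 : ℕ) := by
    simp only [map_sum, map_mul, map_pow, map_add, map_prod, map_intCast, map_natCast, e1, e2, hG]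
  rw [← e3]
  refine liou_field σ₀ z' g' P Q hP hQ (hinj ?_) (hinj ?_) H1 H2 b1 b2 A B n D hD x X Y hx hX hY
    fun h => hne (by rw [← e3, h, map_zero])
  · rw [map_zero, ← RingHom.toIntAlgHom_apply, ← aeval_algHom_apply]; exact hPz
  · rw [map_zero, ← RingHom.toIntAlgHom_apply, ← aeval_algHom_apply]; exact hQg

end Pool.Agent.P.MP_26ad15_nt.SV
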