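import Mathlib

/-! A zero estimate for polynomials in `z` and `Γ(z)` along translates by integers. -/

namespace Pool.Agent.P.MP_26ad15_nt.SV

open Complex Finset Matrix Polynomial

/-- lines with distinct slopes cannot have a doubly attained maximum at too many points -/
theorem lines {m : ℕ} (hm : 0 < m) (β : Fin m → ℕ) (hβ : StrictMono β) (e : Fin m → ℕ)
    (J : Fin m → Prop)
    (h : ∀ i < m, ∃ j j', j ≠ j' ∧ J j ∧ J j' ∧ (∀ k, J k → e k + i * β k ≤ e j + i * β j) ∧
      (∀ k, J k → e k + i * β k ≤ e j' + i * β j')) : False := by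
  have key : ∀ i, i < m → ∃ j : Fin m, J j ∧ (∀ k, J k → e k + i * β k ≤ e j + i * β j) ∧
      i + 1 ≤ j := by
    intro i
    induction i with
    | zero =>
      intro hi
      obtain ⟨j, j', hne, hj, hj', m1, m2⟩ := h 0 hi
      by_cases h0 : (j : ℕ) = 0
      · refine ⟨j', hj', m2, ?_⟩
        have : (j' : ℕ) ≠ 0 := fun h1 => hne (Fin.ext (by rw [h0, h1]))
        omega
      · exact ⟨j, hj, m1, by omega⟩
    | succ i ih =>
      intro hi
      obtain ⟨a, ha, ma, hia⟩ := ih (by omega)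
      obtain ⟨j, j', hne, hj, hj', m1, m2⟩ := h (i + 1) hi
      have up : ∀ b : Fin m, J b → (∀ k, J k → e k + (i + 1) * β k ≤ e b + (i + 1) * β b) →
          (a : ℕ) ≤ b := fun b hb mb => by
        have h1 := ma b hb
        have h2 := mb a ha
        have h3 : β a ≤ β b := by nlinarith
        exact hβ.le_iff_le.1 h3
      have u1 := up j hj m1
      have u2 := up j' hj' m2
      have hne' : (j : ℕ) ≠ j' := fun h1 => hne (Fin.ext h1)
      by_cases h0 : (j : ℕ) = a
      · exact ⟨j', hj', m2, by omega⟩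
      · exact ⟨j, hj, m1, by omega⟩
  obtain ⟨j, -, -, hj⟩ := key (m - 1) (by omega)
  have := j.2
  omega

theorem two_max {m : ℕ} (t : Fin m → ℂ[X]) (hs : ∑ j, t j = 0) (hne : ∃ j, t j ≠ 0) :
    ∃ j j', j ≠ j' ∧ t j ≠ 0 ∧ t j' ≠ 0 ∧ (∀ k, t k ≠ 0 → (t k).natDegree ≤ (t j).natDegree) ∧
      ∀ k, t k ≠ 0 → (t k).natDegree ≤ (t j').natDegree := by
  classical
  obtain ⟨j, hj, mj⟩ := exists_max_image (univ.filter fun j => t j ≠ 0) (fun j => (t j).natDegree)
    (by obtain ⟨j, hj⟩ := hne; exact ⟨j, by simpa using hj⟩)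
  simp only [mem_filter, mem_univ, true_and] at hj mj
  by_contra hcon
  have h1 : ∀ k, k ≠ j → (t k).coeff (t j).natDegree = 0 := fun k hk => by
    by_contra h0
    have hk0 : t k ≠ 0 := fun h => h0 (by simp [h])
    have h2 := le_natDegree_of_ne_zero h0
    exact hcon ⟨j, k, hk.symm, hj, hk0, mj, fun l hl => (mj l hl).trans h2⟩
  have h2 := congrArg (fun p : ℂ[X] => p.coeff (t j).natDegree) hs
  simp only [finsetSum_coeff, coeff_zero] at h2
  rw [sum_eq_single j (fun k _ hk => h1 k hk) (by simp)] at h2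
  exact hj (leadingCoeff_eq_zero.1 h2)

theorem natDegree_det_le' {m d : ℕ} (M : Matrix (Fin m) (Fin m) ℂ[X])
    (h : ∀ i j, (M i j).natDegree ≤ d) : M.det.natDegree ≤ m * d := by
  rw [Matrix.det_apply]
  refine natDegree_sum_le_of_forall_le _ _ fun σ _ => ?_
  refine (natDegree_smul_le _ _).trans ((natDegree_prod_le _ _).trans ?_)
  calc _ ≤ ∑ _i : Fin m, d := sum_le_sum fun i _ => h _ _
    _ = m * d := by simp

theorem casor (B A : ℕ) (p : ℕ → ℂ[X]) (hdeg : ∀ b, (p b).natDegree ≤ A)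
    (hne : ∃ b < B, p b ≠ 0) :
    ∃ Δ : ℂ[X], Δ ≠ 0 ∧ Δ.natDegree ≤ B * (A + B * B) ∧ ∀ w : ℂ, (∀ k : ℕ, w ≠ -k) →
      (∀ i < B, ∑ b ∈ range B, (p b).eval (w + i) * Gamma (w + i) ^ b = 0) → Δ.eval w = 0 := by
  classical
  set I := (range B).filter fun b => p b ≠ 0 with hI
  set m := I.card with hm
  have hmB : m ≤ B := (card_filter_le _ _).trans (card_range B).le
  have hm0 : 0 < m := by
    obtain ⟨b, hb, hb'⟩ := hne
    exact card_pos.2 ⟨b, by simp [hI, hb, hb']⟩
  set β := I.orderEmbOfFin hm.symm with hβ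
  have hβI : ∀ j, β j < B ∧ p (β j) ≠ 0 := fun j => by
    have : β j ∈ (range B).filter fun b => p b ≠ 0 := I.orderEmbOfFin_mem hm.symm j
    rwa [mem_filter, mem_range] at this
  set M : Matrix (Fin m) (Fin m) ℂ[X] := Matrix.of fun i j =>
    (p (β j)).comp (X + C ((i : ℕ) : ℂ)) * ascPochhammer ℂ i ^ β j with hM
  have hM0 : ∀ i j, M i j ≠ 0 := fun i j => by
    rw [hM, Matrix.of_apply]
    refine mul_ne_zero ?_ (pow_ne_zero _ (monic_ascPochhammer ℂ i).ne_zero)
    rw [Ne, comp_X_add_C_eq_zero_iff]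
    exact (hβI j).2
  have hMd : ∀ i j, (M i j).natDegree = (p (β j)).natDegree + i * β j := fun i j => by
    have := hM0 i j
    rw [hM, Matrix.of_apply] at this ⊢
    rw [natDegree_mul (left_ne_zero_of_mul this) (right_ne_zero_of_mul this), natDegree_pow,
      ascPochhammer_natDegree, natDegree_comp, natDegree_X_add_C, mul_one, mul_comm]
  refine ⟨M.det, fun h0 => ?_, ?_, fun w hw hz => ?_⟩
  · obtain ⟨v, hv, hMv⟩ := Matrix.exists_mulVec_eq_zero_iff.2 h0
    refine lines hm0 β β.strictMono (fun j => (v j).natDegree + (p (β j)).natDegree)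
      (fun j => v j ≠ 0) fun i hi => ?_
    obtain ⟨j, j', h1, h2, h3, h4, h5⟩ := two_max (fun j => M ⟨i, hi⟩ j * v j)
      (congrFun hMv ⟨i, hi⟩) (by
        obtain ⟨j, hj⟩ := Function.ne_iff.1 hv
        exact ⟨j, mul_ne_zero (hM0 _ _) hj⟩)
    have hd : ∀ k, v k ≠ 0 → (M ⟨i, hi⟩ k * v k).natDegree
        = (v k).natDegree + (p (β k)).natDegree + i * β k := fun k hk => by
      rw [natDegree_mul (hM0 _ _) hk, hMd]; ring
    have g2 := right_ne_zero_of_mul h2
    have g3 := right_ne_zero_of_mul h3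
    refine ⟨j, j', h1, g2, g3, fun k hk => ?_, fun k hk => ?_⟩
    · rw [← hd k hk, ← hd j g2]; exact h4 k (mul_ne_zero (hM0 _ _) hk)
    · rw [← hd k hk, ← hd j' g3]; exact h5 k (mul_ne_zero (hM0 _ _) hk)
  · refine (natDegree_det_le' (d := A + B * B) M fun i j => ?_).trans (by gcongr)
    rw [hMd]
    have h1 : (i : ℕ) ≤ B := i.2.le.trans hmB
    exact add_le_add (hdeg _) (Nat.mul_le_mul h1 (hβI j).1.le)
  · have hG : Gamma w ≠ 0 := Gamma_ne_zero hw
    have e : M.det.eval w = (M.map (evalRingHom w)).det := by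
      rw [← coe_evalRingHom, RingHom.map_det]; rfl
    rw [e, ← Matrix.exists_mulVec_eq_zero_iff]
    refine ⟨fun j => Gamma w ^ β j, fun h => ?_, funext fun i => ?_⟩
    · exact pow_ne_zero _ hG (congrFun h ⟨0, hm0⟩)
    · have h1 := hz i (i.2.trans_le hmB)
      have h2 : Gamma (w + (i : ℕ)) = (ascPochhammer ℂ i).eval w * Gamma w := by
        rw [← Gamma_add_nat_div_Gamma_eq w hw]; field_simp
      have h3 : ∑ b ∈ range B, (p b).eval (w + (i : ℕ)) * Gamma (w + (i : ℕ)) ^ b
          = ∑ b ∈ I, (p b).eval (w + (i : ℕ)) * Gamma (w + (i : ℕ)) ^ b := by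
        rw [hI, sum_filter]
        refine sum_congr rfl fun b _ => ?_
        split_ifs with h
        · rfl
        · simp [not_not.1 h]
      have h4 : ∑ b ∈ I, (p b).eval (w + (i : ℕ)) * Gamma (w + (i : ℕ)) ^ b
          = ∑ j : Fin m, (p (β j)).eval (w + (i : ℕ)) * Gamma (w + (i : ℕ)) ^ β j := by
        conv_lhs => rw [← I.map_orderEmbOfFin_univ hm.symm]
        rw [sum_map]; rfl
      rw [h3, h4] at h1
      simp only [Matrix.mulVec, dotProduct, Matrix.map_apply, hM, Matrix.of_apply, Pi.zero_apply,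
        coe_evalRingHom, eval_mul, eval_comp, eval_add, eval_X, eval_C, eval_pow]
      rw [← h1]
      refine sum_congr rfl fun j _ => ?_
      rw [h2, mul_pow, mul_assoc]

end Pool.Agent.P.MP_26ad15_nt.SV
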