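import Pool.Agent.P.MP_26ad15_nt.SVGrowth
import Pool.Agent.P.MP_26ad15_nt.SVAux
import Pool.Agent.P.MP_26ad15_nt.SVZero
import Pool.Agent.P.MP_26ad15_nt.SVLiou

/-! The counting argument with free parameters. -/

namespace Pool.Agent.P.MP_26ad15_nt.SV

open Complex Finset Polynomial

theorem gamma_shift (z : ℂ) (hz : ∀ k : ℕ, z ≠ -k) (n : ℕ) :
    Gamma (z + n) = Gamma z * ∏ j ∈ range n, (z + j) := by
  have h1 := Gamma_add_nat_div_Gamma_eq (n := n) z hz
  have h2 : (ascPochhammer ℂ n).eval z = ∏ j ∈ range n, (z + j) := by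
    clear h1
    induction n with
    | zero => simp
    | succ n ih => rw [ascPochhammer_succ_eval, ih, prod_range_succ]
  rw [← h2, ← h1]
  have := Gamma_ne_zero hz
  field_simp

theorem nonpole_add (z : ℂ) (hz : ∀ k : ℕ, z ≠ -k) (n : ℕ) : ∀ k : ℕ, z + n ≠ -k := fun k h =>
  hz (k + n) (by push_cast; linear_combination h)

theorem core (θ : ℂ) (hθ : θ ≠ 0) (D A B M T κ : ℕ) (Θ H1 H2 r L E Q X Y : ℝ)
    (hΘ : ‖θ⁻¹‖ ≤ Θ) (hΘ1 : 1 ≤ Θ) (S : Finset ℂ) (hT : 0 < T) (hκ : 0 < κ)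
    (hn : A * B = 2 * T * (κ + 1)) (hr : 0 < r) (hL : 2 ≤ L) (hQ : 0 < Q) (hR : 3 ≤ r * L)
    (hH1 : 1 ≤ H1) (hH2 : 1 ≤ H2)
    (hE : (r * L) ^ A * (Θ * Real.exp (10 * (r * L) * Real.log (r * L))) ^ B ≤ E)
    (hX : ((A : ℝ) * B * (Q * E + 1)) ^ (1 / (κ : ℝ)) ≤ X) (hX1 : 1 ≤ X)
    (hY : H1 ^ (A + M * B) * H2 ^ B * (A * B * X * ((1 + H1 + M) ^ (A + M * B) * (1 + H2) ^ B))
      ≤ Y)
    (hsmall : (T * (A * B * X / Q) + 2 * (A * B * X * E / L ^ T)) *
      ((1 + H2) * (1 + H1 + M) ^ M) ^ B * Y ^ D < 1)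
    (hS1 : ∀ z ∈ S, ∀ w ∈ S, z ≠ w → ∀ m : ℤ, z - w ≠ m)
    (hS2 : ∀ z ∈ S, (∀ k : ℕ, z ≠ -k) ∧ ‖z‖ + M ≤ r ∧
      Module.finrank ℚ (IntermediateField.adjoin ℚ {z, θ * Gamma z}) ≤ D ∧
      (∃ P : ℤ[X], P ≠ 0 ∧ aeval z P = 0 ∧ ∀ i, |(P.coeff i : ℝ)| ≤ H1) ∧
      (∃ P : ℤ[X], P ≠ 0 ∧ aeval (θ * Gamma z) P = 0 ∧ ∀ i, |(P.coeff i : ℝ)| ≤ H2)) :
    S.card * (M - B) ≤ B * (A + B * B) := by
  classical
  have hAB : 0 < A * B := by rw [hn]; positivity
  have hAB' : (1 : ℝ) ≤ A * B := by exact_mod_cast hAB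
  have hlog : 0 ≤ Real.log (r * L) := Real.log_nonneg (by linarith)
  have hG1 : 1 ≤ Θ * Real.exp (10 * (r * L) * Real.log (r * L)) :=
    one_le_mul_of_one_le_of_one_le hΘ1 (Real.one_le_exp (by positivity))
  have hE0 : 0 ≤ E := le_trans (by positivity) hE
  have hcard : (Fintype.card (Fin A × Fin B) : ℝ) = A * B := by simp
  obtain ⟨x, hx0, hx, hsm⟩ := aux_fun (ι := Fin A × Fin B)
    (fun i s => s ^ (i.1 : ℕ) * (θ⁻¹ * (Gamma s)⁻¹) ^ (B - 1 - i.2))
    (fun i => (differentiable_id.pow _).mul ((differentiable_one_div_Gamma.const_mul _).pow _))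
    r L E Q X T κ hr hL hE0 hQ hT hκ (by simpa using hn) (fun i s hs => by
      refine le_trans ?_ hE
      rw [norm_mul, norm_pow, norm_pow, norm_mul]
      have h1 := growth hR s hs
      calc _ ≤ (r * L) ^ (i.1 : ℕ) *
            (Θ * Real.exp (10 * (r * L) * Real.log (r * L))) ^ (B - 1 - i.2) := by
            gcongr
        _ ≤ _ := by
            gcongr
            · linarith
            · exact i.1.2.le
            · omega) (by rwa [hcard])
  rw [hcard] at hsm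
  have hvan : ∀ z ∈ S, ∀ n < M,
      ∑ i : Fin A × Fin B, (x i : ℂ) * (z + n) ^ (i.1 : ℕ) * (θ * Gamma (z + n)) ^ (i.2 : ℕ) = 0 := by
    intro z hz n hnM
    obtain ⟨hp, hzr, hD, ⟨P, hP, hPz, b1⟩, ⟨P', hP', hPg, b2⟩⟩ := hS2 z hz
    have hnM' : (n : ℝ) ≤ M := by exact_mod_cast hnM.le
    have hn0 : (0 : ℝ) ≤ n := Nat.cast_nonneg n
    by_contra hne
    have h1 := liouville θ z hp P P' hP hP' hPz hPg H1 H2 b1 b2 A B n D hD x X Y hx
      (one_le_mul_of_one_le_of_one_le hAB' hX1) (le_trans (by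
        have := hnM.le
        have h0 : (1 + H1 + n) ^ (A + n * B) ≤ (1 + H1 + M) ^ (A + M * B) :=
          calc _ ≤ (1 + H1 + M) ^ (A + n * B) := by gcongr
            _ ≤ _ := pow_le_pow_right₀ (by linarith) (by gcongr)
        gcongr) hY) hne
    have hG := Gamma_ne_zero (nonpole_add z hp n)
    have h2 : ∑ i : Fin A × Fin B, (x i : ℂ) * (z + n) ^ (i.1 : ℕ) * (θ * Gamma (z + n)) ^ (i.2 : ℕ)
        = (∑ i : Fin A × Fin B, (x i : ℂ) * ((z + n) ^ (i.1 : ℕ) *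
          (θ⁻¹ * (Gamma (z + n))⁻¹) ^ (B - 1 - i.2))) * (θ * Gamma (z + n)) ^ (B - 1) := by
      rw [sum_mul]
      refine sum_congr rfl fun i _ => ?_
      obtain ⟨c, hc⟩ : ∃ c, B - 1 = c + i.2 := ⟨B - 1 - i.2, by have := i.2.2; omega⟩
      rw [hc, Nat.add_sub_cancel, pow_add, ← mul_inv, inv_pow]
      field_simp
    have h3 := hsm (z + n) (by
      have := norm_add_le z (n : ℂ)
      rw [Complex.norm_natCast] at this
      linarith)
    have u1 : (1 : ℝ) ≤ 1 + H1 + M := by have : (0 : ℝ) ≤ M := Nat.cast_nonneg M; linarith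
    have h4 : ‖θ * Gamma (z + n)‖ ≤ (1 + H2) * (1 + H1 + M) ^ M := by
      rw [gamma_shift z hp, ← mul_assoc, norm_mul]
      have r1 := root_bound P hP H1 b1 z hPz
      have r2 := root_bound P' hP' H2 b2 _ hPg
      have r4 : ‖∏ j ∈ range n, (z + j)‖ ≤ (1 + H1 + M) ^ M :=
        calc _ ≤ ∏ j ∈ range n, ‖z + j‖ := Finset.norm_prod_le _ _
          _ ≤ ∏ _j ∈ range n, (1 + H1 + M) :=
            prod_le_prod (fun _ _ => norm_nonneg _) fun j hj => by
              have h5 := norm_add_le z (j : ℂ)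
              rw [Complex.norm_natCast] at h5
              have : (j : ℝ) ≤ n := by exact_mod_cast (mem_range.1 hj).le
              linarith
          _ = (1 + H1 + M) ^ n := by rw [prod_const, card_range]
          _ ≤ _ := pow_le_pow_right₀ u1 hnM.le
      gcongr
    have u2 : (1 : ℝ) ≤ (1 + H2) * (1 + H1 + M) ^ M :=
      one_le_mul_of_one_le_of_one_le (by linarith) (one_le_pow₀ u1)
    have h5 : ‖(θ * Gamma (z + n)) ^ (B - 1)‖ ≤ ((1 + H2) * (1 + H1 + M) ^ M) ^ B := by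
      rw [norm_pow]
      calc _ ≤ ((1 + H2) * (1 + H1 + M) ^ M) ^ (B - 1) := by gcongr
        _ ≤ _ := pow_le_pow_right₀ u2 (Nat.sub_le _ _)
    have hY0 : 0 ≤ Y := le_trans (by positivity) hY
    rw [h2, norm_mul] at h1
    have h6 : 0 ≤ T * (A * B * X / Q) + 2 * (A * B * X * E / L ^ T) := (norm_nonneg _).trans h3
    refine absurd (h1.trans ?_) (not_le.2 hsmall)
    gcongr
  set p : ℕ → ℂ[X] := fun b => if h : b < B then
    ∑ a : Fin A, C ((x (a, ⟨b, h⟩) : ℂ) * θ ^ b) * Polynomial.X ^ (a : ℕ) else 0 with hp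
  obtain ⟨Δ, hΔ, hd, hz⟩ := casor B A p (fun b => by
    rw [hp]
    dsimp only
    split_ifs
    · exact natDegree_sum_le_of_forall_le _ _ fun a _ =>
        (natDegree_C_mul_X_pow_le _ _).trans a.2.le
    · simp) (by
    obtain ⟨⟨a, b⟩, hab⟩ := Function.ne_iff.1 hx0
    refine ⟨b, b.2, fun h => hab ?_⟩
    have h1 := congrArg (fun q : ℂ[X] => q.coeff a) h
    simp only [hp, dif_pos b.2, finsetSum_coeff, coeff_C_mul_X_pow, coeff_zero] at h1
    rw [sum_eq_single a (fun c _ hc => if_neg fun e => hc (Fin.ext e.symm)) (by simp),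
      if_pos rfl] at h1
    exact_mod_cast (mul_eq_zero.1 h1).resolve_right (pow_ne_zero _ hθ))
  set Z := (S ×ˢ range (M - B)).image fun q : ℂ × ℕ => q.1 + q.2 with hZ
  have hc : Z.card = S.card * (M - B) := by
    rw [hZ, card_image_of_injOn, card_product, card_range]
    rintro ⟨z, n⟩ h1 ⟨w, m⟩ h2 h
    simp only [coe_product, Set.mem_prod, mem_coe] at h1 h2
    dsimp only at h
    have hzw : z = w := by
      by_contra hne
      exact hS1 z h1.1 w h2.1 hne ((m : ℤ) - n) (by push_cast; linear_combination h)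
    subst hzw
    have : (n : ℂ) = m := by linear_combination h
    rw [Nat.cast_injective this]
  rw [← hc]
  refine (card_le_degree_of_subset_roots fun w hw => ?_).trans hd
  obtain ⟨⟨z, n⟩, h1, rfl⟩ := mem_image.1 hw
  rw [mem_product, mem_range] at h1
  refine (mem_roots hΔ).2 (hz _ (nonpole_add z (hS2 z h1.1).1 n) fun i hi => ?_)
  have h2 := hvan z h1.1 (n + i) (by have := h1.2; dsimp only at this; omega)
  rw [Fintype.sum_prod_type_right] at h2
  push_cast at h2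
  rw [← add_assoc] at h2
  dsimp only
  rw [← h2, ← Fin.sum_univ_eq_sum_range
    (fun b => (p b).eval (z + n + i) * Gamma (z + n + i) ^ b) B]
  refine sum_congr rfl fun b _ => ?_
  simp only [hp, dif_pos b.2, eval_finsetSum, eval_mul, eval_C, eval_pow, eval_X, sum_mul]
  exact sum_congr rfl fun a _ => by ring

end Pool.Agent.P.MP_26ad15_nt.SV
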