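import Mathlib

/-! Growth of the reciprocal of the Gamma function. -/

namespace Pool.Agent.P.MP_26ad15_nt.SV

open Complex Filter Topology Finset

theorem norm_add_le_exp (s : ℂ) (hx : 0 < s.re) :
    ‖s‖ ≤ s.re * Real.exp (s.im ^ 2 / s.re ^ 2) := by
  have h1 : 1 + s.im ^ 2 / s.re ^ 2 ≤ Real.exp (s.im ^ 2 / s.re ^ 2) := by
    have := Real.add_one_le_exp (s.im ^ 2 / s.re ^ 2); linarith
  have h0 : 0 ≤ s.im ^ 2 / s.re ^ 2 := by positivity
  have h2 : ‖s‖ ≤ s.re * (1 + s.im ^ 2 / s.re ^ 2) := by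
    refine abs_le_of_sq_le_sq' ?_ (by positivity) |>.2
    rw [Complex.sq_norm, Complex.normSq_apply]
    have h3 : s.re ^ 2 * (s.im ^ 2 / s.re ^ 2) = s.im ^ 2 := by field_simp
    have h4 : (s.re * (1 + s.im ^ 2 / s.re ^ 2)) ^ 2
        = s.re ^ 2 + 2 * (s.re ^ 2 * (s.im ^ 2 / s.re ^ 2))
          + s.re ^ 2 * (s.im ^ 2 / s.re ^ 2) ^ 2 := by ring
    rw [h4, h3]
    nlinarith [sq_nonneg s.im, mul_nonneg (sq_nonneg s.re) (sq_nonneg (s.im ^ 2 / s.re ^ 2))]
  exact h2.trans (by gcongr)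

theorem prod_norm_le (s : ℂ) (hx : 2 ≤ s.re) (n : ℕ) :
    ‖∏ j ∈ range n, (s + j)‖ ≤ (∏ j ∈ range n, (s.re + j)) *
      Real.exp (s.im ^ 2 * (1 / (s.re - 1) - 1 / (s.re + n - 1))) := by
  induction n with
  | zero => simp
  | succ n ih =>
    rw [prod_range_succ, prod_range_succ, norm_mul]
    have hn : (0 : ℝ) ≤ n := Nat.cast_nonneg n
    have h1 := norm_add_le_exp (s + n) (by simp; linarith)
    simp only [add_re, natCast_re, add_im, natCast_im, add_zero] at h1
    have hp : 0 ≤ ∏ j ∈ range n, (s.re + j) :=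
      prod_nonneg fun j _ => by have : (0 : ℝ) ≤ j := Nat.cast_nonneg j; linarith
    have h2 : s.im ^ 2 * (1 / (s.re - 1) - 1 / (s.re + n - 1)) + s.im ^ 2 / (s.re + n) ^ 2
        ≤ s.im ^ 2 * (1 / (s.re - 1) - 1 / (s.re + (n + 1 : ℕ) - 1)) := by
      have h3 : 1 / (s.re + n) ^ 2 ≤ 1 / (s.re + n - 1) - 1 / (s.re + n) := by
        have ha : 0 < s.re + n - 1 := by linarith
        have hb : 0 < s.re + n := by linarith
        rw [div_sub_div _ _ ha.ne' hb.ne', div_le_div_iff₀ (by positivity) (by positivity)]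
        nlinarith
      have h4 : s.re + (n + 1 : ℕ) - 1 = s.re + n := by push_cast; ring
      rw [h4, div_eq_mul_one_div (s.im ^ 2)]
      nlinarith [sq_nonneg s.im]
    calc _ ≤ ((∏ j ∈ range n, (s.re + j)) *
          Real.exp (s.im ^ 2 * (1 / (s.re - 1) - 1 / (s.re + n - 1)))) *
          ((s.re + n) * Real.exp (s.im ^ 2 / (s.re + n) ^ 2)) := by gcongr
      _ = (∏ j ∈ range n, (s.re + j)) * (s.re + n) *
          Real.exp (s.im ^ 2 * (1 / (s.re - 1) - 1 / (s.re + n - 1))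
            + s.im ^ 2 / (s.re + n) ^ 2) := by rw [Real.exp_add]; ring
      _ ≤ _ := by
          have : 0 ≤ s.re + n := by linarith
          gcongr

theorem gamma_lower (s : ℂ) (hx : 2 ≤ s.re) :
    Real.Gamma s.re ≤ ‖Gamma s‖ * Real.exp (s.im ^ 2 / (s.re - 1)) := by
  refine le_of_tendsto_of_tendsto (Real.GammaSeq_tendsto_Gamma s.re)
    ((GammaSeq_tendsto_Gamma s).norm.mul_const _) ?_
  filter_upwards [eventually_ge_atTop 1] with n hn
  have hn0 : (0 : ℝ) < n := by exact_mod_cast hn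
  have hp : 0 < ∏ j ∈ range (n + 1), (s.re + j) :=
    prod_pos fun j _ => by have : (0 : ℝ) ≤ j := Nat.cast_nonneg j; linarith
  have hq : 0 < ‖∏ j ∈ range (n + 1), (s + j)‖ := by
    rw [norm_pos_iff]
    refine prod_ne_zero_iff.2 fun j _ h => ?_
    have := congrArg Complex.re h
    simp at this
    have : (0 : ℝ) ≤ j := Nat.cast_nonneg j
    linarith
  have h1 : ‖∏ j ∈ range (n + 1), (s + j)‖ ≤ (∏ j ∈ range (n + 1), (s.re + j)) *
      Real.exp (s.im ^ 2 / (s.re - 1)) := by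
    refine (prod_norm_le s hx (n + 1)).trans ?_
    gcongr
    have : 0 ≤ 1 / (s.re + (n + 1 : ℕ) - 1) := by
      have : (0 : ℝ) ≤ (n + 1 : ℕ) := Nat.cast_nonneg _
      exact one_div_nonneg.2 (by linarith)
    rw [div_eq_mul_one_div (s.im ^ 2)]
    nlinarith [sq_nonneg s.im]
  rw [Real.GammaSeq, GammaSeq, norm_div, norm_mul, Complex.norm_natCast_cpow_of_pos hn,
    Complex.norm_natCast, div_mul_eq_mul_div, div_le_div_iff₀ hp hq]
  have h2 : 0 ≤ (n : ℝ) ^ s.re * n.factorial := by positivity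
  calc _ ≤ ((n : ℝ) ^ s.re * n.factorial) * ((∏ j ∈ range (n + 1), (s.re + j)) *
      Real.exp (s.im ^ 2 / (s.re - 1))) := by gcongr
    _ = _ := by ring

theorem inv_gamma_right (s : ℂ) (hx : 2 ≤ s.re) :
    ‖(Gamma s)⁻¹‖ ≤ Real.exp (s.im ^ 2 / (s.re - 1)) := by
  have h1 : 1 ≤ Real.Gamma s.re := by
    have := Real.Gamma_strictMonoOn_Ici.monotoneOn (Set.mem_Ici.2 le_rfl) (Set.mem_Ici.2 hx) hx
    rwa [Real.Gamma_two] at this
  have h2 := h1.trans (gamma_lower s hx)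
  have h3 : 0 < ‖Gamma s‖ := by
    rcases (norm_nonneg (Gamma s)).eq_or_lt with h | h
    · rw [← h] at h2; linarith
    · exact h
  rw [norm_inv, inv_le_iff_one_le_mul₀' h3]
  exact h2

theorem inv_gamma_shift (s : ℂ) (m : ℕ) :
    (Gamma s)⁻¹ = (∏ j ∈ range m, (s + j)) * (Gamma (s + m))⁻¹ := by
  induction m with
  | zero => simp
  | succ m ih =>
    rw [ih, prod_range_succ, one_div_Gamma_eq_self_mul_one_div_Gamma_add_one (s + m)]
    push_cast
    rw [add_assoc, mul_assoc]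

theorem growth {R : ℝ} (hR : 3 ≤ R) (s : ℂ) (hs : ‖s‖ ≤ R) :
    ‖(Gamma s)⁻¹‖ ≤ Real.exp (10 * R * Real.log R) := by
  set m : ℕ := ⌈2 * R⌉₊ + 2 with hm
  have hm1 : 2 * R + 2 ≤ m := by
    rw [hm]; push_cast; have := Nat.le_ceil (2 * R); linarith
  have hm2 : (m : ℝ) ≤ 3 * R := by
    rw [hm]; push_cast
    have := Nat.ceil_lt_add_one (show 0 ≤ 2 * R by linarith); linarith
  have hre := abs_le.1 ((Complex.abs_re_le_norm s).trans hs)
  have him := abs_le.1 ((Complex.abs_im_le_norm s).trans hs)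
  have hlog : 1 ≤ Real.log R := by
    rw [Real.le_log_iff_exp_le (by linarith)]
    have := Real.exp_one_lt_d9; linarith
  have h1 : ‖(Gamma (s + m))⁻¹‖ ≤ Real.exp R := by
    refine (inv_gamma_right (s + m) (by simp; linarith)).trans (Real.exp_le_exp.2 ?_)
    simp only [add_re, natCast_re, add_im, natCast_im, add_zero]
    rw [div_le_iff₀ (by linarith)]
    nlinarith
  have h2 : ‖∏ j ∈ range m, (s + j)‖ ≤ Real.exp (9 * R * Real.log R) := by
    have h3 : ∀ j ∈ range m, ‖s + j‖ ≤ Real.exp (3 * Real.log R) := fun j hj => by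
      have hj' : (j : ℝ) ≤ m := by exact_mod_cast (mem_range.1 hj).le
      have e : Real.exp (3 * Real.log R) = R ^ 3 := by
        rw [show (3 : ℝ) * Real.log R = (3 : ℕ) * Real.log R by norm_num, Real.exp_nat_mul,
          Real.exp_log (by linarith)]
      rw [e]
      have := norm_add_le s (j : ℂ)
      rw [Complex.norm_natCast] at this
      nlinarith [mul_nonneg (show 0 ≤ R by linarith) (show 0 ≤ R - 3 by linarith)]
    calc _ ≤ ∏ j ∈ range m, ‖s + j‖ := norm_prod_le _ _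
      _ ≤ ∏ _j ∈ range m, Real.exp (3 * Real.log R) := prod_le_prod (fun _ _ => norm_nonneg _) h3
      _ = Real.exp (m * (3 * Real.log R)) := by rw [prod_const, card_range, Real.exp_nat_mul]
      _ ≤ _ := Real.exp_le_exp.2 (by nlinarith)
  rw [inv_gamma_shift s m, norm_mul]
  calc _ ≤ Real.exp (9 * R * Real.log R) * Real.exp R := by gcongr
    _ = Real.exp (9 * R * Real.log R + R) := (Real.exp_add _ _).symm
    _ ≤ _ := Real.exp_le_exp.2 (by nlinarith)

theorem gamma_upper (s : ℂ) (hx : 0 < s.re) : ‖Gamma s‖ ≤ Real.Gamma s.re := by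
  refine le_of_tendsto_of_tendsto (GammaSeq_tendsto_Gamma s).norm
    (Real.GammaSeq_tendsto_Gamma s.re) ?_
  filter_upwards [eventually_ge_atTop 1] with n hn
  have hp : ∀ j ∈ range (n + 1), 0 < s.re + j :=
    fun j _ => by have : (0 : ℝ) ≤ j := Nat.cast_nonneg j; linarith
  have h1 : ∏ j ∈ range (n + 1), (s.re + j) ≤ ‖∏ j ∈ range (n + 1), (s + j)‖ := by
    rw [norm_prod]
    refine prod_le_prod (fun j hj => (hp j hj).le) fun j _ => ?_
    simpa using Complex.re_le_norm (s + j)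
  rw [Real.GammaSeq, GammaSeq, norm_div, norm_mul, Complex.norm_natCast_cpow_of_pos hn,
    Complex.norm_natCast]
  exact div_le_div_of_nonneg_left (by positivity) (prod_pos hp) h1

theorem gamma_upper' (s : ℂ) (m : ℕ) (hx : 2 ≤ s.re) (hm : s.re ≤ m) :
    ‖Gamma s‖ ≤ (m : ℝ) ^ m := by
  refine (gamma_upper s (by linarith)).trans ?_
  have h1 := Real.Gamma_strictMonoOn_Ici.monotoneOn (Set.mem_Ici.2 hx)
    (Set.mem_Ici.2 (show (2 : ℝ) ≤ m + 1 by linarith)) (show s.re ≤ m + 1 by linarith)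
  rw [Real.Gamma_nat_eq_factorial] at h1
  exact h1.trans (by exact_mod_cast Nat.factorial_le_pow m)

end Pool.Agent.P.MP_26ad15_nt.SV
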