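import Pool.Agent.P.MP_26ad15_nt.SVCore

/-! Choice of the parameters. -/

namespace Pool.Agent.P.MP_26ad15_nt.SV

open Complex Finset Polynomial

theorem pow_le_exp {a b : ℝ} (n : ℕ) (ha : 0 ≤ a) (h : a ≤ Real.exp b) :
    a ^ n ≤ Real.exp (n * b) := by
  rw [Real.exp_nat_mul]; gcongr

theorem mul_le_exp {a b c d : ℝ} (hb : 0 ≤ b) (h1 : a ≤ Real.exp c) (h2 : b ≤ Real.exp d) :
    a * b ≤ Real.exp (c + d) := by
  rw [Real.exp_add]; exact mul_le_mul h1 h2 hb (Real.exp_pos _).le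

theorem three_le_exp {a : ℝ} (h : 2 ≤ a) : 3 ≤ Real.exp a := by
  have := Real.add_one_le_exp a; linarith

theorem theta_bound (θ : ℂ) (hθ : θ ≠ 0) (D M : ℕ) (h N : ℝ) (z : ℂ) (hh : 2 ≤ h) (hN : 1 ≤ N)
    (hD1 : 1 ≤ D) (hNM : N + 2 ≤ M) (hM : 2 * (M : ℝ) ≤ Real.exp h)
    (e1 : 1 + Real.exp h + M ≤ Real.exp (2 * h))
    (e2 : 1 + Real.exp (N * h) ≤ Real.exp (2 * (M * h)))
    (hz : ∀ k : ℕ, z ≠ -k) (hzN : ‖z‖ ≤ N)
    (hD : Module.finrank ℚ (IntermediateField.adjoin ℚ {z, θ * Gamma z}) ≤ D)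
    (P : ℤ[X]) (hP : P ≠ 0) (hPz : aeval z P = 0) (b1 : ∀ i, |(P.coeff i : ℝ)| ≤ Real.exp h)
    (Q : ℤ[X]) (hQ : Q ≠ 0) (hQz : aeval (θ * Gamma z) Q = 0)
    (b2 : ∀ i, |(Q.coeff i : ℝ)| ≤ Real.exp (N * h)) :
    ‖θ⁻¹‖ ≤ Real.exp (18 * D * (M * h)) := by
  have hM1 : (1 : ℝ) ≤ M := by linarith
  have hD' : (1 : ℝ) ≤ D := by exact_mod_cast hD1
  have hMh : 2 ≤ (M : ℝ) * h := by nlinarith
  have hG := Gamma_ne_zero (nonpole_add z hz M)
  have hs : ∑ i : Fin 1 × Fin 2, ((i.2 : ℕ) : ℤ) * (z + M) ^ (i.1 : ℕ) *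
      (θ * Gamma (z + M)) ^ (i.2 : ℕ) = θ * Gamma (z + M) := by
    simp [Fintype.sum_prod_type, Fin.sum_univ_two]
  have h1 := liouville θ z hz P Q hP hQ hPz hQz _ _ b1 b2 1 2 M D hD (fun i => ((i.2 : ℕ) : ℤ)) 1
    (Real.exp (16 * (M * h))) (fun i => by
      have : (i.2 : ℕ) ≤ 1 := by have := i.2.2; omega
      rw [abs_of_nonneg (by positivity)]
      exact_mod_cast this) (by norm_num) (by
      have h2 : ((1 : ℕ) : ℝ) * (2 : ℕ) * 1 ≤ Real.exp (M * h) := by
        have := three_le_exp hMh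
        push_cast; linarith
      refine (mul_le_exp (by positivity) (mul_le_exp (by positivity)
        (pow_le_exp _ (Real.exp_pos _).le le_rfl) (pow_le_exp _ (Real.exp_pos _).le le_rfl))
        (mul_le_exp (by positivity) h2 (mul_le_exp (by positivity)
          (pow_le_exp _ (by positivity) e1) (pow_le_exp _ (by positivity) e2)))).trans
        (Real.exp_le_exp.2 ?_)
      push_cast
      have h3 : N * h ≤ M * h := by gcongr; linarith
      have h4 : h ≤ M * h := by nlinarith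
      nlinarith) (by rw [hs]; exact mul_ne_zero hθ hG)
  rw [hs, norm_mul] at h1
  have hre := abs_le.1 ((Complex.abs_re_le_norm z).trans hzN)
  have h2 : ‖Gamma (z + M)‖ ≤ Real.exp (2 * (M * h)) := by
    refine (gamma_upper' (z + M) (2 * M) (by simp; linarith) (by simp; linarith)).trans ?_
    refine (pow_le_exp (b := h) _ (by positivity) (by push_cast; exact hM)).trans
      (Real.exp_le_exp.2 (le_of_eq ?_))
    push_cast; ring
  have h3 := mul_le_exp (by positivity) h2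
    (pow_le_exp D (Real.exp_pos (16 * (M * h))).le le_rfl)
  have h4 : ‖Gamma (z + M)‖ * Real.exp (16 * (M * h)) ^ D ≤ Real.exp (18 * D * (M * h)) :=
    h3.trans (Real.exp_le_exp.2 (by nlinarith))
  have h5 : 0 < ‖θ‖ := norm_pos_iff.2 hθ
  rw [norm_inv, inv_le_iff_one_le_mul₀' h5]
  calc _ ≤ _ := h1
    _ = ‖θ‖ * (‖Gamma (z + M)‖ * Real.exp (16 * (M * h)) ^ D) := by ring
    _ ≤ _ := by gcongr

theorem params (θ : ℂ) (hθ : θ ≠ 0) (D B0 B M : ℕ) (h N L : ℝ) (S : Finset ℂ) (hD : 1 ≤ D) (hB0 : 0 < B0)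
    (hB : B = 2 * (120 * D) * B0) (hh : 2 ≤ h) (hN : 1 ≤ N) (hNM' : N + 2 ≤ M)
    (hM : 2 * M ≤ N ^ 2)
    (hL : 2 ≤ L) (hLN : L ≤ N) (hLh : L * Real.log N = h) (hl : 120 * D * h ≤ B0 * Real.log L)
    (hS1 : ∀ z ∈ S, ∀ w ∈ S, z ≠ w → ∀ m : ℤ, z - w ≠ m)
    (hS2 : ∀ z ∈ S, (∀ k : ℕ, z ≠ -k) ∧ ‖z‖ ≤ N ∧
      Module.finrank ℚ (IntermediateField.adjoin ℚ {z, θ * Gamma z}) ≤ D ∧
      (∃ P : ℤ[X], P ≠ 0 ∧ aeval z P = 0 ∧ ∀ i, |(P.coeff i : ℝ)| ≤ Real.exp h) ∧
      (∃ P : ℤ[X], P ≠ 0 ∧ aeval (θ * Gamma z) P = 0 ∧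
        ∀ i, |(P.coeff i : ℝ)| ≤ Real.exp (N * h))) :
    S.card * (M - B) ≤ B * (B * M + B * B) := by
  rcases S.eq_empty_or_nonempty with rfl | ⟨z0, hz0⟩
  · simp
  have hNM : N ≤ M := by linarith
  have hD' : (1 : ℝ) ≤ D := by exact_mod_cast hD
  have hB1 : (1 : ℝ) ≤ B := by
    have : 0 < B := by rw [hB]; positivity
    exact_mod_cast this
  have hM1 : (1 : ℝ) ≤ M := hN.trans hNM
  have hM0 : 0 < M := by exact_mod_cast (show (0 : ℝ) < M by linarith)
  have hBM : (1 : ℝ) ≤ B * M := one_le_mul_of_one_le_of_one_le hB1 hM1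
  set V : ℝ := B * M * h with hV
  have hV2 : 2 ≤ V := by nlinarith
  have hlogN : 0 ≤ Real.log N := Real.log_nonneg hN
  have h2N : 2 * Real.log N ≤ h := by nlinarith
  have hR : 3 ≤ 2 * (M : ℝ) * L := by nlinarith
  have hlogR : Real.log (2 * M * L) ≤ 3 * Real.log N := by
    have h1 : 2 * (M : ℝ) * L ≤ N ^ 3 := by
      calc _ ≤ N ^ 2 * N := by gcongr
        _ = N ^ 3 := by ring
    have := Real.log_le_log (by linarith) h1
    rwa [Real.log_pow] at this
  have hlogR0 : 0 ≤ Real.log (2 * M * L) := Real.log_nonneg (by linarith)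
  have hMe : 2 * (M : ℝ) ≤ Real.exp h := by
    have h1 : N ^ 2 = Real.exp (2 * Real.log N) := by
      rw [show (2 : ℝ) * Real.log N = (2 : ℕ) * Real.log N by norm_num, Real.exp_nat_mul,
        Real.exp_log (by linarith)]
    have h2 := Real.exp_le_exp.2 h2N
    linarith
  have e1 : 1 + Real.exp h + M ≤ Real.exp (2 * h) := by
    have h1 := three_le_exp hh
    rw [two_mul, Real.exp_add]
    nlinarith
  have e2 : 1 + Real.exp (N * h) ≤ Real.exp (2 * (M * h)) := by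
    have h0 : N * h ≤ M * h := by gcongr
    have h1 := three_le_exp (show 2 ≤ M * h by nlinarith)
    have h2 := Real.exp_le_exp.2 h0
    rw [two_mul, Real.exp_add]
    nlinarith
  have e3 : ((B * M : ℕ) : ℝ) * B ≤ Real.exp V := by
    have h1 : (B : ℝ) * M ≤ Real.exp (B * M) := by
      have := Real.add_one_le_exp ((B : ℝ) * M); linarith
    have h2 : (B : ℝ) ≤ B * M := by nlinarith
    push_cast
    exact (mul_le_exp (by linarith) h1 (h2.trans h1)).trans (Real.exp_le_exp.2 (by nlinarith))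
  have e30 : (0 : ℝ) ≤ ((B * M : ℕ) : ℝ) * B := by positivity
  have hn : B * M * B = 2 * (B0 * B * M) * (120 * D - 1 + 1) := by
    rw [Nat.sub_add_cancel (by omega)]
    conv_lhs => rw [mul_assoc, mul_comm M B, ← mul_assoc]; enter [1, 1]; rw [hB]
    ring
  have e4 : ((B0 * B * M : ℕ) : ℝ) ≤ Real.exp V := by
    refine le_trans ?_ e3
    have : B0 * B * M ≤ B * M * B := by
      rw [hn]; nlinarith [Nat.zero_le (B0 * B * M), Nat.zero_le (120 * D - 1)]
    exact_mod_cast this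
  have hκ : ((120 * D - 1 : ℕ) : ℝ) = 120 * D - 1 := by
    rw [Nat.cast_sub (by omega)]; push_cast; ring
  have p0 : (0 : ℝ) ≤ 1 + Real.exp h + M := by positivity
  have p1 : (0 : ℝ) ≤ 1 + Real.exp (N * h) := by positivity
  have hΘ : ‖θ⁻¹‖ ≤ Real.exp (18 * D * (M * h)) := by
    obtain ⟨a, b, c, ⟨P, hP, hPz, b1⟩, ⟨Q, hQ, hQz, b2⟩⟩ := hS2 z0 hz0
    exact theta_bound θ hθ D M h N z0 hh hN hD hNM' hMe e1 e2 a b c P hP hPz b1 Q hQ hQz b2
  refine core θ hθ D (B * M) B M (B0 * B * M) (120 * D - 1) (Real.exp (18 * D * (M * h)))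
    (Real.exp h) (Real.exp (N * h)) (2 * M) L (Real.exp ((18 * D + 62) * V))
    (Real.exp ((11 * D + 9) * V)) (Real.exp V) (Real.exp (11 * V)) hΘ
    (Real.one_le_exp (by positivity)) S
    (by have : 0 < B := by exact_mod_cast (show (0 : ℝ) < B by linarith)
        positivity) (by omega) hn (by linarith) hL (Real.exp_pos _) hR
    (Real.one_le_exp (by linarith)) (Real.one_le_exp (by positivity)) ?_ ?_
    (Real.one_le_exp (by linarith)) ?_ ?_ hS1 fun z hz => ?_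
  · refine (mul_le_exp (by positivity) (pow_le_exp (b := Real.log (2 * M * L)) _ (by linarith)
      (Real.exp_log (by linarith)).ge) (pow_le_exp _ (by positivity)
        (mul_le_exp (Real.exp_pos _).le le_rfl le_rfl))).trans (Real.exp_le_exp.2 ?_)
    push_cast
    have h1 : (B : ℝ) * M * Real.log (2 * M * L) ≤ B * M * (2 * h) := by gcongr; linarith
    have h2 : (B : ℝ) * (10 * (2 * M * L) * Real.log (2 * M * L))
        ≤ B * (10 * (2 * M * L) * (3 * Real.log N)) := by gcongr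
    have h3 : (B : ℝ) * (10 * (2 * M * L) * (3 * Real.log N)) = 60 * V := by
      rw [hV, ← hLh]; ring
    have h4 : (B : ℝ) * (18 * D * (M * h)) = 18 * D * V := by rw [hV]; ring
    have h5 : (B : ℝ) * M * (2 * h) = 2 * V := by rw [hV]; ring
    rw [mul_add (B : ℝ), h4]
    linarith
  · have h1 : Real.exp ((11 * D + 9) * V) * Real.exp ((18 * D + 62) * V) + 1
        ≤ Real.exp ((29 * D + 72) * V) := by
      have h2 : Real.exp ((29 * D + 72) * V)
          = Real.exp ((11 * D + 9) * V) * Real.exp ((18 * D + 62) * V) * Real.exp V := by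
        rw [← Real.exp_add, ← Real.exp_add]; ring_nf
      have h3 := three_le_exp hV2
      have h4 : 1 ≤ Real.exp ((11 * D + 9) * V) * Real.exp ((18 * D + 62) * V) := by
        rw [← Real.exp_add]; exact Real.one_le_exp (by positivity)
      rw [h2]; nlinarith
    have h2 := mul_le_exp (by positivity) e3 h1
    refine (Real.rpow_le_rpow (by positivity) h2 (by positivity)).trans ?_
    rw [← Real.exp_mul, Real.exp_le_exp, hκ, mul_one_div, div_le_iff₀ (by linarith)]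
    nlinarith
  · refine (mul_le_exp (by positivity) (mul_le_exp (by positivity)
      (pow_le_exp _ (Real.exp_pos _).le le_rfl) (pow_le_exp _ (Real.exp_pos _).le le_rfl))
      (mul_le_exp (by positivity) (mul_le_exp (Real.exp_pos _).le e3 le_rfl)
        (mul_le_exp (by positivity) (pow_le_exp _ p0 e1) (pow_le_exp _ p1 e2)))).trans
      (Real.exp_le_exp.2 ?_)
    push_cast
    have h1 : (B : ℝ) * (N * h) ≤ B * (M * h) := by gcongr
    nlinarith
  · have h1 : ((1 + Real.exp (N * h)) * (1 + Real.exp h + M) ^ M) ^ B ≤ Real.exp (4 * V) := by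
      refine (pow_le_exp _ (by positivity)
        (mul_le_exp (by positivity) e2 (pow_le_exp _ p0 e1))).trans (Real.exp_le_exp.2 ?_)
      nlinarith
    have h2 : Real.exp (11 * V) ^ D ≤ Real.exp (D * (11 * V)) :=
      pow_le_exp _ (Real.exp_pos _).le le_rfl
    have h3 : ((B0 * B * M : ℕ) : ℝ) * (((B * M : ℕ) : ℝ) * B * Real.exp V /
        Real.exp ((11 * D + 9) * V)) ≤ Real.exp (-(11 * D + 6) * V) := by
      rw [div_eq_mul_inv, ← Real.exp_neg]
      refine (mul_le_exp (by positivity) e4 (mul_le_exp (Real.exp_pos _).le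
        (mul_le_exp (Real.exp_pos _).le e3 le_rfl) le_rfl)).trans (Real.exp_le_exp.2 ?_)
      linarith
    have h4 : ((B * M : ℕ) : ℝ) * B * Real.exp V * Real.exp ((18 * D + 62) * V) / L ^ (B0 * B * M)
        ≤ Real.exp (-(11 * D + 6) * V) := by
      have h5 : L ^ (B0 * B * M) = Real.exp ((B0 * B * M : ℕ) * Real.log L) := by
        rw [Real.exp_nat_mul, Real.exp_log (by linarith)]
      rw [h5, div_eq_mul_inv, ← Real.exp_neg]
      refine (mul_le_exp (Real.exp_pos _).le (mul_le_exp (Real.exp_pos _).le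
        (mul_le_exp (Real.exp_pos _).le e3 le_rfl) le_rfl) le_rfl).trans (Real.exp_le_exp.2 ?_)
      push_cast
      have h6 : (B : ℝ) * M * (120 * D * h) ≤ B * M * (B0 * Real.log L) := by gcongr
      have h7 : (B : ℝ) * M * (120 * D * h) = 120 * D * V := by rw [hV]; ring
      nlinarith
    have h5 : Real.exp (-(11 * D + 6) * V) * Real.exp (4 * V) * Real.exp (D * (11 * V))
        = (Real.exp (2 * V))⁻¹ := by
      rw [← Real.exp_add, ← Real.exp_add, ← Real.exp_neg]; ring_nf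
    have h6 : 3 < Real.exp (2 * V) := by
      have := Real.add_one_le_exp (2 * V); linarith
    calc _ ≤ (Real.exp (-(11 * D + 6) * V) + 2 * Real.exp (-(11 * D + 6) * V)) *
          Real.exp (4 * V) * Real.exp (D * (11 * V)) := by gcongr
      _ = 3 * (Real.exp (2 * V))⁻¹ := by rw [← h5]; ring
      _ < 1 := by rw [← div_eq_mul_inv, div_lt_one (Real.exp_pos _)]; exact h6
  · obtain ⟨a, b, c⟩ := hS2 z hz
    exact ⟨a, by linarith, c⟩

theorem main (θ : ℂ) (hθ : θ ≠ 0) (D : ℕ) (h N : ℝ) (S : Finset ℂ) (hD : 1 ≤ D) (hh : 10 ^ 6 * (D : ℝ) ^ 2 ≤ h)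
    (hN : h ≤ N) (h2N : 2 * Real.log N ≤ h)
    (hS1 : ∀ z ∈ S, ∀ w ∈ S, z ≠ w → ∀ m : ℤ, z - w ≠ m)
    (hS2 : ∀ z ∈ S, (∀ k : ℕ, z ≠ -k) ∧ ‖z‖ ≤ N ∧
      Module.finrank ℚ (IntermediateField.adjoin ℚ {z, θ * Gamma z}) ≤ D ∧
      (∃ P : ℤ[X], P ≠ 0 ∧ aeval z P = 0 ∧ ∀ i, |(P.coeff i : ℝ)| ≤ Real.exp h) ∧
      (∃ P : ℤ[X], P ≠ 0 ∧ aeval (θ * Gamma z) P = 0 ∧
        ∀ i, |(P.coeff i : ℝ)| ≤ Real.exp (N * h))) :
    (S.card : ℝ) ≤ 10 ^ 10 * (D : ℝ) ^ 4 * (h / Real.log (h / Real.log N)) ^ 2 := by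
  have hD' : (1 : ℝ) ≤ D := by exact_mod_cast hD
  have hD2 : (1 : ℝ) ≤ (D : ℝ) ^ 2 := one_le_pow₀ hD'
  have hh3 : 3 ≤ h := by linarith
  have hlog : 1 ≤ Real.log N := by
    rw [Real.le_log_iff_exp_le (by linarith)]
    have := Real.exp_one_lt_d9; linarith
  set L := h / Real.log N with hL
  have hL2 : 2 ≤ L := by rw [hL, le_div_iff₀ (by linarith)]; exact h2N
  have hLh : L ≤ h := div_le_self (by linarith) hlog
  have hl1 : 0.69 ≤ Real.log L := by
    have := Real.log_two_gt_d9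
    have := Real.log_le_log (by norm_num) hL2
    linarith
  have hl2 : Real.log L ≤ h := by
    have := Real.log_le_sub_one_of_pos (show 0 < L by linarith); linarith
  set ρ := h / Real.log L with hρ
  have hρ1 : 1 ≤ ρ := by rw [hρ, le_div_iff₀ (by linarith)]; linarith
  have hρ2 : ρ ≤ 2 * h := by rw [hρ, div_le_iff₀ (by linarith)]; nlinarith
  set B0 := ⌈120 * D * ρ⌉₊ with hB0
  have b1 : 120 * D * ρ ≤ B0 := Nat.le_ceil _
  have b0 : 1 ≤ 120 * (D : ℝ) * ρ := by nlinarith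
  have b2 : (B0 : ℝ) ≤ 240 * D * ρ := by
    have := Nat.ceil_lt_add_one (show 0 ≤ 120 * D * ρ by linarith)
    linarith
  have b3 : 0 < B0 := by exact_mod_cast (show (0 : ℝ) < B0 by linarith)
  set B := 2 * (120 * D) * B0 with hB
  have b4 : (B : ℝ) ≤ 57600 * (D : ℝ) ^ 2 * ρ := by
    rw [hB]; push_cast; nlinarith
  set c := ⌈N⌉₊ with hc
  have c1 : N ≤ c := Nat.le_ceil _
  have c2 : (c : ℝ) ≤ 2 * N := by
    have := Nat.ceil_lt_add_one (show 0 ≤ N by linarith)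
    linarith
  have b5 : (1 : ℝ) ≤ B := by
    have : 0 < B := by rw [hB]; positivity
    exact_mod_cast this
  have key := params θ hθ D B0 B (2 * B + c) h N L S hD b3 hB (by linarith) (by linarith)
    (by push_cast; linarith) (by
      push_cast
      have h1 : (B : ℝ) ≤ 115200 * (D : ℝ) ^ 2 * N := by nlinarith
      have h2 : (D : ℝ) ^ 2 * N * 10 ^ 6 ≤ N ^ 2 := by nlinarith
      nlinarith) hL2 (hLh.trans hN) (by rw [hL]; field_simp) (by
      have : h = ρ * Real.log L := by rw [hρ]; field_simp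
      calc 120 * D * h = 120 * D * ρ * Real.log L := by rw [mul_assoc _ ρ, ← this]
        _ ≤ _ := by gcongr) hS1 hS2
  have hBc : 0 < B + c := by rw [hB]; positivity
  have k2 : S.card ≤ 3 * B ^ 2 := by
    rw [show 2 * B + c - B = B + c by omega] at key
    refine Nat.le_of_mul_le_mul_right (key.trans ?_) hBc
    nlinarith [Nat.zero_le (B * B * c)]
  have k3 : (S.card : ℝ) ≤ 3 * (B : ℝ) ^ 2 := by exact_mod_cast k2
  have k4 : (B : ℝ) ^ 2 ≤ (57600 * (D : ℝ) ^ 2 * ρ) ^ 2 := by gcongr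
  have k5 : 0 ≤ (D : ℝ) ^ 4 * ρ ^ 2 := by positivity
  nlinarith

end Pool.Agent.P.MP_26ad15_nt.SV
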