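import Mathlib

/-! Weak Stirling estimate for the modulus of the Gamma function away from the negative axis. -/

namespace Pool.Agent.P.MP_26ad15_nt

open Complex Set Filter Topology

/-- The main term `z log z - z`. -/
noncomputable def SS (z : ℂ) : ℂ := z * Complex.log z - z

/-- The error term of the weak Stirling formula. -/
noncomputable def Del (z : ℂ) : ℝ := Real.log ‖Gamma z‖ - (SS z).re

lemma hasDerivAt_SS {z : ℂ} (hz : z ∈ slitPlane) : HasDerivAt SS (Complex.log z) z := by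
  have h0 : z ≠ 0 := slitPlane_ne_zero hz
  have h := ((hasDerivAt_id z).mul (Complex.hasDerivAt_log hz)).sub (hasDerivAt_id z)
  have e : (1 * Complex.log z + z * z⁻¹) - 1 = Complex.log z := by
    rw [mul_inv_cancel₀ h0]; ring
  rw [← e]
  exact h

lemma log_lip {s : Set ℂ} (hs : Convex ℝ s) (hsl : s ⊆ slitPlane) {r : ℝ} (hr : 0 < r)
    (hb : ∀ ζ ∈ s, r ≤ ‖ζ‖) {a b : ℂ} (ha : a ∈ s) (hb' : b ∈ s) :
    ‖Complex.log b - Complex.log a‖ ≤ r⁻¹ * ‖b - a‖ := by
  refine hs.norm_image_sub_le_of_norm_hasDerivWithin_le (f' := fun ζ => ζ⁻¹)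
    (fun ζ hζ => (Complex.hasDerivAt_log (hsl hζ)).hasDerivWithinAt) (fun ζ hζ => ?_) ha hb'
  rw [norm_inv]
  exact inv_anti₀ hr (hb ζ hζ)

lemma SS_lip {s : Set ℂ} (hs : Convex ℝ s) (hsl : s ⊆ slitPlane) {M : ℝ}
    (hb : ∀ ζ ∈ s, ‖Complex.log ζ‖ ≤ M) {a b : ℂ} (ha : a ∈ s) (hb' : b ∈ s) :
    ‖SS b - SS a‖ ≤ M * ‖b - a‖ :=
  hs.norm_image_sub_le_of_norm_hasDerivWithin_le (f' := fun ζ => Complex.log ζ)
    (fun _ hζ => (hasDerivAt_SS (hsl hζ)).hasDerivWithinAt) hb ha hb'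

lemma SS_step {z : ℂ} {r : ℝ} (hr : 0 < r) (hsl : segment ℝ z (z + 1) ⊆ slitPlane)
    (hb : ∀ ζ ∈ segment ℝ z (z + 1), r ≤ ‖ζ‖) :
    ‖SS (z + 1) - SS z - Complex.log z‖ ≤ r⁻¹ := by
  have hc := convex_segment (𝕜 := ℝ) z (z + 1)
  have h := hc.norm_image_sub_le_of_norm_hasDerivWithin_le
    (f := fun ζ => SS ζ - ζ * Complex.log z) (f' := fun ζ => Complex.log ζ - Complex.log z)
    (C := r⁻¹) (fun ζ hζ => ?_) (fun ζ hζ => ?_) (left_mem_segment ℝ z (z + 1))
    (right_mem_segment ℝ z (z + 1))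
  · have e : SS (z + 1) - (z + 1) * Complex.log z - (SS z - z * Complex.log z)
        = SS (z + 1) - SS z - Complex.log z := by ring
    simpa [e] using h
  · have := (hasDerivAt_SS (hsl hζ)).sub ((hasDerivAt_id ζ).mul_const (Complex.log z))
    rw [one_mul] at this
    exact this.hasDerivWithinAt
  · refine (log_lip hc hsl hr hb (left_mem_segment ℝ z (z + 1)) hζ).trans ?_
    have : ‖ζ - z‖ ≤ 1 := by
      have := norm_sub_le_of_mem_segment hζ
      simpa using this
    calc r⁻¹ * ‖ζ - z‖ ≤ r⁻¹ * 1 := by gcongr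
      _ = r⁻¹ := mul_one _

lemma ne_neg_nat_of_slit {z : ℂ} (hz : z ∈ slitPlane) (m : ℕ) : z ≠ -m := by
  rintro rfl
  rcases hz with h | h
  · simp at h; linarith [(Nat.cast_nonneg m : (0 : ℝ) ≤ m)]
  · simp at h

lemma Gamma_ne_zero_of_slit {z : ℂ} (hz : z ∈ slitPlane) : Gamma z ≠ 0 :=
  Complex.Gamma_ne_zero (ne_neg_nat_of_slit hz)

lemma Del_step {z : ℂ} {r : ℝ} (hr : 0 < r) (hsl : segment ℝ z (z + 1) ⊆ slitPlane)
    (hb : ∀ ζ ∈ segment ℝ z (z + 1), r ≤ ‖ζ‖) :
    |Del (z + 1) - Del z| ≤ r⁻¹ := by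
  have hz : z ∈ slitPlane := hsl (left_mem_segment ℝ z (z + 1))
  have h0 : z ≠ 0 := slitPlane_ne_zero hz
  have hG := Gamma_ne_zero_of_slit hz
  have e : Del (z + 1) - Del z = -(SS (z + 1) - SS z - Complex.log z).re := by
    simp only [Del, Complex.Gamma_add_one z h0, norm_mul, sub_re, Complex.log_re]
    rw [Real.log_mul (norm_ne_zero_iff.2 h0) (norm_ne_zero_iff.2 hG)]
    ring
  rw [e, abs_neg]
  exact (abs_re_le_norm _).trans (SS_step hr hsl hb)

lemma mem_segment_add_one {z ζ : ℂ} (h : ζ ∈ segment ℝ z (z + 1)) :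
    ζ.im = z.im ∧ z.re ≤ ζ.re ∧ ζ.re ≤ z.re + 1 := by
  rw [segment_eq_image'] at h
  obtain ⟨t, ⟨h0, h1⟩, rfl⟩ := h
  simp
  constructor <;> linarith

lemma Del_right (z : ℂ) (hz : 1 ≤ z.re) (m : ℕ) :
    |Del (z + m) - Del z| ≤ (harmonic m : ℝ) := by
  induction m with
  | zero => simp
  | succ m ih =>
    have h := Del_step (z := z + m) (r := (m : ℝ) + 1) (by positivity) ?_ ?_
    · have e : z + ((m + 1 : ℕ) : ℂ) = z + m + 1 := by push_cast; ring
      rw [e, harmonic_succ]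
      push_cast
      calc |Del (z + m + 1) - Del z|
          = |(Del (z + m) - Del z) + (Del (z + m + 1) - Del (z + m))| := by ring_nf
        _ ≤ _ := (abs_add_le _ _).trans (add_le_add ih h)
    · intro ζ hζ
      obtain ⟨-, h1, -⟩ := mem_segment_add_one hζ
      left
      simp at h1
      linarith [(Nat.cast_nonneg m : (0 : ℝ) ≤ m)]
    · intro ζ hζ
      obtain ⟨-, h1, -⟩ := mem_segment_add_one hζ
      simp at h1
      linarith [re_le_norm ζ]

lemma Del_left (z : ℂ) (hz : z.re ≤ 2) (hi : 1 ≤ |z.im|) (m : ℕ) :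
    |Del (z - m) - Del z| ≤ 4 * (harmonic m : ℝ) := by
  induction m with
  | zero => simp
  | succ m ih =>
    have h := Del_step (z := z - m - 1) (r := ((m : ℝ) + 1) / 4) (by positivity) ?_ ?_
    · have e : z - ((m + 1 : ℕ) : ℂ) = z - m - 1 := by push_cast; ring
      have e' : z - m - 1 + 1 = z - m := by ring
      rw [e'] at h
      rw [e, harmonic_succ]
      push_cast
      rw [abs_sub_comm] at h
      calc |Del (z - m - 1) - Del z|
          = |(Del (z - m) - Del z) + (Del (z - m - 1) - Del (z - m))| := by ring_nf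
        _ ≤ 4 * (harmonic m : ℝ) + (((m : ℝ) + 1) / 4)⁻¹ :=
          (abs_add_le _ _).trans (add_le_add ih h)
        _ = _ := by field_simp
    · intro ζ hζ
      obtain ⟨h1, -, -⟩ := mem_segment_add_one hζ
      right
      simp at h1
      rw [h1]
      intro h0
      rw [h0] at hi
      norm_num at hi
    · intro ζ hζ
      obtain ⟨h1, -, h2⟩ := mem_segment_add_one hζ
      simp at h1 h2
      have a1 : 1 ≤ ‖ζ‖ := by
        have := abs_im_le_norm ζ
        rw [h1] at this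
        linarith
      have a2 : -ζ.re ≤ ‖ζ‖ := (neg_le_abs _).trans (abs_re_le_norm ζ)
      by_cases hm : (m : ℝ) ≤ 3
      · linarith
      · linarith

lemma norm_GammaSeq (s : ℂ) {n : ℕ} (hn : n ≠ 0) :
    ‖GammaSeq s n‖ = (n : ℝ) ^ s.re * n.factorial / ∏ j ∈ Finset.range (n + 1), ‖s + j‖ := by
  rw [GammaSeq, norm_div, norm_mul, norm_prod, Complex.norm_natCast_cpow_of_pos (Nat.pos_of_ne_zero hn),
    Complex.norm_natCast]

lemma Gamma_mono {a b : ℝ} (y : ℝ) (ha : 0 < a) (hab : a ≤ b) :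
    ‖Gamma (a + y * I)‖ * ‖Gamma b‖ ≤ ‖Gamma (b + y * I)‖ * ‖Gamma a‖ := by
  refine le_of_tendsto_of_tendsto
    ((GammaSeq_tendsto_Gamma _).norm.mul (GammaSeq_tendsto_Gamma _).norm)
    ((GammaSeq_tendsto_Gamma _).norm.mul (GammaSeq_tendsto_Gamma _).norm) ?_
  filter_upwards [eventually_ne_atTop 0] with n hn
  simp only [norm_GammaSeq _ hn]
  have pos : ∀ (s : ℂ), 0 < s.re → 0 < ∏ j ∈ Finset.range (n + 1), ‖s + j‖ := by
    intro s hs
    refine Finset.prod_pos fun j _ => norm_pos_iff.2 fun h => ?_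
    have := congrArg Complex.re h
    simp at this
    linarith [(Nat.cast_nonneg j : (0 : ℝ) ≤ j)]
  have p1 := pos (a + y * I) (by simpa using ha)
  have p2 := pos (b + y * I) (by simp; linarith)
  have p3 := pos (a : ℂ) (by simpa using ha)
  have p4 := pos (b : ℂ) (by simp; linarith)
  have key : (∏ j ∈ Finset.range (n + 1), ‖(b : ℂ) + y * I + j‖) *
      (∏ j ∈ Finset.range (n + 1), ‖(a : ℂ) + j‖) ≤
      (∏ j ∈ Finset.range (n + 1), ‖(a : ℂ) + y * I + j‖) *
      (∏ j ∈ Finset.range (n + 1), ‖(b : ℂ) + j‖) := by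
    rw [← Finset.prod_mul_distrib, ← Finset.prod_mul_distrib]
    refine Finset.prod_le_prod (fun j _ => by positivity) fun j _ => ?_
    have hj : (0 : ℝ) ≤ j := Nat.cast_nonneg j
    refine (abs_le_of_sq_le_sq' ?_ (by positivity)).2
    simp only [mul_pow, Complex.sq_norm, Complex.normSq_apply]
    simp
    have : (a + j) * (a + j) ≤ (b + j) * (b + j) := by nlinarith
    nlinarith [mul_self_nonneg y]
  simp only [add_re, ofReal_re, mul_re, I_re, mul_zero, ofReal_im, I_im, mul_one, sub_self,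
    add_zero]
  rw [div_mul_div_comm, div_mul_div_comm, mul_comm ((n : ℝ) ^ b * _)]
  exact div_le_div_of_nonneg_left (by positivity) (mul_pos p2 p3) key

lemma norm_sin_le (w : ℂ) : ‖Complex.sin w‖ ≤ Real.exp |w.im| := by
  rw [Complex.sin, norm_div, norm_mul, norm_I, mul_one]
  have h1 : ‖cexp (-w * I)‖ ≤ Real.exp |w.im| := by
    rw [Complex.norm_exp]; simp [le_abs_self]
  have h2 : ‖cexp (w * I)‖ ≤ Real.exp |w.im| := by
    rw [Complex.norm_exp]; simp [neg_le_abs]
  have := norm_sub_le (cexp (-w * I)) (cexp (w * I))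
  simp only [Complex.norm_ofNat]
  linarith

lemma le_norm_sin (w : ℂ) (hw : 1 ≤ |w.im|) : Real.exp |w.im| / 4 ≤ ‖Complex.sin w‖ := by
  rw [Complex.sin, norm_div, norm_mul, norm_I, mul_one]
  have h1 : ‖cexp (-w * I)‖ = Real.exp w.im := by
    rw [Complex.norm_exp]; simp
  have h2 : ‖cexp (w * I)‖ = Real.exp (-w.im) := by
    rw [Complex.norm_exp]; simp
  have h3 : 2 ≤ Real.exp |w.im| := by linarith [Real.add_one_le_exp |w.im|]
  simp only [Complex.norm_ofNat]
  rcases le_total 0 w.im with h | h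
  · have := norm_sub_norm_le (cexp (-w * I)) (cexp (w * I))
    rw [h1, h2] at this
    rw [abs_of_nonneg h] at h3 ⊢
    have : Real.exp (-w.im) ≤ 1 := Real.exp_le_one_iff.2 (by linarith)
    linarith
  · have := norm_sub_norm_le (cexp (w * I)) (cexp (-w * I))
    rw [h1, h2, norm_sub_rev] at this
    rw [abs_of_nonpos h] at h3 ⊢
    have : Real.exp w.im ≤ 1 := Real.exp_le_one_iff.2 h
    linarith

lemma norm_log_le (z : ℂ) : ‖Complex.log z‖ ≤ |Real.log ‖z‖| + Real.pi := by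
  refine (norm_le_abs_re_add_abs_im _).trans ?_
  rw [Complex.log_re, Complex.log_im]
  linarith [abs_arg_le_pi z]

lemma log_Gamma_one_add (y : ℝ) (hy : 1 ≤ |y|) :
    |Real.log ‖Gamma (1 + y * I)‖ + Real.pi * |y| / 2| ≤ Real.log |y| + 2 := by
  have hy0 : y ≠ 0 := by rintro rfl; norm_num at hy
  have h0 : (y : ℂ) * I ≠ 0 := mul_ne_zero (by exact_mod_cast hy0) I_ne_zero
  have hc : ‖Gamma (1 - y * I)‖ = ‖Gamma (1 + y * I)‖ := by
    have : (1 - y * I : ℂ) = (starRingEnd ℂ) (1 + y * I) := by simp [sub_eq_add_neg]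
    rw [this, Complex.Gamma_conj, Complex.norm_conj]
  have hs : 1 ≤ |((Real.pi : ℂ) * (y * I)).im| := by
    simp [abs_mul, abs_of_pos Real.pi_pos]
    nlinarith [Real.pi_gt_three]
  have him : |((Real.pi : ℂ) * (y * I)).im| = Real.pi * |y| := by
    simp [abs_mul, abs_of_pos Real.pi_pos]
  have l1 := le_norm_sin _ hs
  have l2 := norm_sin_le ((Real.pi : ℂ) * (y * I))
  rw [him] at l1 l2
  have sp : 0 < ‖Complex.sin ((Real.pi : ℂ) * (y * I))‖ := lt_of_lt_of_le (by positivity) l1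
  have e : ‖Gamma (1 + y * I)‖ ^ 2 = |y| * Real.pi / ‖Complex.sin ((Real.pi : ℂ) * (y * I))‖ := by
    have := congrArg norm (Complex.Gamma_mul_Gamma_one_sub (y * I))
    rw [norm_mul, norm_div, hc] at this
    rw [sq]
    nth_rewrite 1 [add_comm]
    rw [Complex.Gamma_add_one _ h0, norm_mul, mul_assoc, this]
    simp [abs_of_pos Real.pi_pos, mul_div_assoc]
  have e2 : 2 * Real.log ‖Gamma (1 + y * I)‖ =
      Real.log |y| + Real.log Real.pi - Real.log ‖Complex.sin ((Real.pi : ℂ) * (y * I))‖ := by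
    have := congrArg Real.log e
    rw [Real.log_pow, Real.log_div (by positivity) sp.ne', Real.log_mul (by positivity)
      Real.pi_pos.ne'] at this
    exact_mod_cast this
  have b1 : Real.log ‖Complex.sin ((Real.pi : ℂ) * (y * I))‖ ≤ Real.pi * |y| := by
    simpa using Real.log_le_log sp l2
  have b2 : Real.pi * |y| - 2 ≤ Real.log ‖Complex.sin ((Real.pi : ℂ) * (y * I))‖ := by
    have := Real.log_le_log (by positivity) l1
    rw [Real.log_div (by positivity) (by norm_num), Real.log_exp] at this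
    have h4 : Real.log 4 ≤ 2 := by
      have : Real.log 4 = 2 * Real.log 2 := by
        rw [show (4 : ℝ) = 2 ^ 2 by norm_num, Real.log_pow]; norm_num
      linarith [Real.log_two_lt_d9]
    linarith
  have b3 : 0 ≤ Real.log |y| := Real.log_nonneg hy
  have b4 : 0 ≤ Real.log Real.pi := Real.log_nonneg (by linarith [Real.pi_gt_three])
  have b5 : Real.log Real.pi ≤ 2 := by
    have := Real.log_le_log Real.pi_pos Real.pi_le_four
    have h4 : Real.log 4 = 2 * Real.log 2 := by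
      rw [show (4 : ℝ) = 2 ^ 2 by norm_num, Real.log_pow]; norm_num
    linarith [Real.log_two_lt_d9]
  rw [abs_le]
  constructor <;> linarith

lemma SS_re_imag (y : ℝ) (hy : y ≠ 0) : (SS (y * I)).re = -(Real.pi * |y| / 2) := by
  have : y * arg (y * I) = Real.pi * |y| / 2 := by
    rcases lt_or_gt_of_ne hy with h | h
    · have e : (y : ℂ) * I = ((-y : ℝ) : ℂ) * (-I) := by push_cast; ring
      rw [e, Complex.arg_real_mul _ (by linarith), Complex.arg_neg_I, abs_of_neg h]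
      ring
    · rw [Complex.arg_real_mul _ h, Complex.arg_I, abs_of_pos h]
      ring
  simp [SS, Complex.log_im, this]

lemma Del_strip_far (z : ℂ) (h1 : 1 ≤ z.re) (h2 : z.re ≤ 2) (hy : 1 ≤ |z.im|) {C0 : ℝ}
    (hC0 : ∀ x : ℝ, 1 ≤ x → x ≤ 2 → |Real.log ‖Gamma x‖| ≤ C0) :
    |Del z| ≤ C0 + 10 + 4 * Real.log (‖z‖ + 2) := by
  obtain ⟨x, y, rfl⟩ : ∃ x y : ℝ, z = x + y * I := ⟨z.re, z.im, (re_add_im z).symm⟩
  simp only [add_re, ofReal_re, mul_re, I_re, mul_zero, ofReal_im, I_im, mul_one, sub_self,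
    add_zero, add_im, mul_im, zero_add] at h1 h2 hy
  have hy0 : y ≠ 0 := by rintro rfl; norm_num at hy
  set L := Real.log (‖(x : ℂ) + y * I‖ + 2) with hL
  have hny : |y| ≤ ‖(x : ℂ) + y * I‖ := by
    simpa using abs_im_le_norm ((x : ℂ) + y * I)
  have hLy : Real.log |y| ≤ L := Real.log_le_log (by positivity) (by linarith)
  have nz : ∀ a : ℝ, 0 < a → 0 < ‖Gamma (a + y * I)‖ := fun a ha =>
    norm_pos_iff.2 (Complex.Gamma_ne_zero_of_re_pos (by simpa using ha))
  have nx : 0 < ‖Gamma (x : ℂ)‖ :=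
    norm_pos_iff.2 (Complex.Gamma_ne_zero_of_re_pos (by simp; linarith))
  have m1 := Gamma_mono y one_pos h1
  have m2 := Gamma_mono y (by linarith : 0 < x) h2
  simp only [ofReal_one, Complex.Gamma_one, norm_one, mul_one] at m1
  have g2 : Gamma ((2 : ℝ) : ℂ) = 1 := by
    simp
  have g3 : Gamma (((2 : ℝ) : ℂ) + y * I) = (1 + y * I) * Gamma (1 + y * I) := by
    rw [← Complex.Gamma_add_one]
    · congr 1; push_cast; ring
    · intro h; have := congrArg Complex.re h; simp at this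
  rw [g2, g3, norm_one, mul_one, norm_mul] at m2
  have n1 := nz 1 one_pos
  simp only [ofReal_one] at n1
  have nxy := nz x (by linarith)
  have n1y : 1 ≤ ‖(1 : ℂ) + y * I‖ := by simpa using re_le_norm ((1 : ℂ) + y * I)
  have n1y' : ‖(1 : ℂ) + y * I‖ ≤ ‖(x : ℂ) + y * I‖ + 2 := by
    have := norm_add_le (1 : ℂ) (y * I)
    simp at this
    linarith
  have l1 := Real.log_le_log (by positivity) m1
  have l2 := Real.log_le_log nxy m2
  rw [Real.log_mul n1.ne' nx.ne'] at l1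
  rw [Real.log_mul (by positivity) nx.ne', Real.log_mul (by positivity) n1.ne'] at l2
  have l3 : Real.log ‖(1 : ℂ) + y * I‖ ≤ L := Real.log_le_log (by positivity) n1y'
  have l4 := abs_le.1 (log_Gamma_one_add y hy)
  have l5 := abs_le.1 (hC0 x h1 h2)
  have seg : ∀ ζ ∈ segment ℝ ((y : ℂ) * I) (x + y * I),
      ζ.im = y ∧ 0 ≤ ζ.re ∧ ζ.re ≤ 2 := by
    intro ζ hζ
    rw [segment_eq_image'] at hζ
    obtain ⟨t, ⟨t0, t1⟩, rfl⟩ := hζ
    simp
    constructor <;> nlinarith
  have l6 := SS_lip (convex_segment (𝕜 := ℝ) ((y : ℂ) * I) (x + y * I)) (M := L + Real.pi)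
    (fun ζ hζ => Or.inr (by rw [(seg ζ hζ).1]; exact hy0)) (fun ζ hζ => ?_)
    (left_mem_segment ℝ _ _) (right_mem_segment ℝ _ _)
  · have e : ‖(x : ℂ) + y * I - y * I‖ = x := by
      simp [abs_of_pos (by linarith : 0 < x)]
    rw [e] at l6
    have l7 := abs_le.1 ((abs_re_le_norm _).trans l6)
    rw [sub_re, SS_re_imag y hy0] at l7
    have hL0 : 0 ≤ L := le_trans (Real.log_nonneg hy) hLy
    have l8 : (L + Real.pi) * x ≤ 2 * L + 8 := by nlinarith [Real.pi_le_four, Real.pi_pos]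
    rw [Del, abs_le]
    constructor <;> linarith [l7.1, l7.2, l4.1, l4.2, l5.1, l5.2]
  · obtain ⟨s1, s2, s3⟩ := seg ζ hζ
    refine (norm_log_le ζ).trans ?_
    have a1 : 1 ≤ ‖ζ‖ := by
      have := abs_im_le_norm ζ
      rw [s1] at this; linarith
    have a2 : ‖ζ‖ ≤ ‖(x : ℂ) + y * I‖ + 2 := by
      have := norm_le_abs_re_add_abs_im ζ
      rw [s1, abs_of_nonneg s2] at this
      linarith
    rw [abs_of_nonneg (Real.log_nonneg a1)]
    linarith [Real.log_le_log (by positivity) a2]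

lemma continuousOn_logGamma :
    ContinuousOn (fun z : ℂ => Real.log ‖Gamma z‖) slitPlane := fun z hz =>
  ((Complex.continuousAt_Gamma z (ne_neg_nat_of_slit hz)).norm.log
    (norm_ne_zero_iff.2 (Gamma_ne_zero_of_slit hz))).continuousWithinAt

lemma continuousOn_Del : ContinuousOn Del slitPlane :=
  continuousOn_logGamma.sub (Complex.continuous_re.comp_continuousOn
    fun _ hz => (hasDerivAt_SS hz).continuousAt.continuousWithinAt)

lemma Del_strip : ∃ C : ℝ, 0 ≤ C ∧ ∀ z : ℂ, 1 ≤ z.re → z.re ≤ 2 →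
    |Del z| ≤ C + 4 * Real.log (‖z‖ + 2) := by
  have hK : IsCompact (Icc (1 : ℝ) 2 ×ℂ Icc (-1 : ℝ) 1) := isCompact_Icc.reProdIm isCompact_Icc
  have hsub : (Icc (1 : ℝ) 2 ×ℂ Icc (-1 : ℝ) 1) ⊆ slitPlane := fun z hz =>
    Or.inl (by linarith [hz.1.1])
  obtain ⟨C0, hC0⟩ := hK.exists_bound_of_continuousOn (continuousOn_logGamma.mono hsub)
  obtain ⟨C1, hC1⟩ := hK.exists_bound_of_continuousOn (continuousOn_Del.mono hsub)
  refine ⟨|C0| + 10 + |C1|, by positivity, fun z h1 h2 => ?_⟩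
  have hl : 0 ≤ Real.log (‖z‖ + 2) := Real.log_nonneg (by linarith [norm_nonneg z])
  by_cases hy : 1 ≤ |z.im|
  · have := Del_strip_far z h1 h2 hy (C0 := C0) fun x hx1 hx2 =>
      hC0 x ⟨⟨by simpa using hx1, by simpa using hx2⟩, by simp⟩
    linarith [le_abs_self C0, abs_nonneg C1]
  · have := hC1 z ⟨⟨h1, h2⟩, abs_le.1 (le_of_lt (not_le.1 hy))⟩
    rw [Real.norm_eq_abs] at this
    linarith [le_abs_self C1, abs_nonneg C0]

/-- Weak Stirling formula. -/
theorem Del_bound : ∃ C : ℝ, 0 ≤ C ∧ ∀ z : ℂ, (1 ≤ z.re ∨ 1 ≤ |z.im|) →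
    |Del z| ≤ C * Real.log (‖z‖ + 2) := by
  obtain ⟨C, hC0, hC⟩ := Del_strip
  refine ⟨C + 20, by positivity, fun z hz => ?_⟩
  have hn : 1 ≤ ‖z‖ := by
    rcases hz with h | h
    · exact h.trans (re_le_norm z)
    · exact h.trans (abs_im_le_norm z)
  set L := Real.log (‖z‖ + 2) with hL
  have hL1 : 1 ≤ L := by
    rw [hL, Real.le_log_iff_exp_le (by positivity)]
    linarith [Real.exp_one_lt_d9]
  have hh : ∀ m : ℕ, (m : ℝ) ≤ ‖z‖ + 2 → (harmonic m : ℝ) ≤ 2 * L := by
    intro m hm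
    refine (harmonic_le_one_add_log m).trans ?_
    rcases Nat.eq_zero_or_pos m with rfl | hm0
    · simp; linarith
    · have : Real.log m ≤ L := Real.log_le_log (by exact_mod_cast hm0) hm
      linarith
  have hz0 : ∀ w : ℂ, 1 ≤ w.re → w.re ≤ 2 → w.im = z.im → |Del w| ≤ C + 8 * L := by
    intro w w1 w2 w3
    refine (hC w w1 w2).trans ?_
    have a : ‖w‖ + 2 ≤ (‖z‖ + 2) ^ 2 := by
      have := norm_le_abs_re_add_abs_im w
      rw [w3, abs_of_nonneg (by linarith)] at this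
      nlinarith [abs_im_le_norm z]
    have := Real.log_le_log (by positivity) a
    rw [Real.log_pow] at this
    push_cast at this
    linarith
  have hre := abs_le.1 (abs_re_le_norm z)
  by_cases h1 : 1 ≤ z.re
  · obtain ⟨m, hm1, hm2⟩ : ∃ m : ℕ, (m : ℝ) ≤ z.re - 1 ∧ z.re - 1 < m + 1 :=
      ⟨⌊z.re - 1⌋₊, Nat.floor_le (by linarith), Nat.lt_floor_add_one _⟩
    have a := Del_right (z - m) (by simp; linarith) m
    have b := hz0 (z - m) (by simp; linarith) (by simp; linarith) (by simp)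
    rw [sub_add_cancel] at a
    have c := hh m (by linarith [hre.2])
    have := abs_sub_abs_le_abs_sub (Del z) (Del (z - m))
    nlinarith
  · have hi : 1 ≤ |z.im| := hz.resolve_left h1
    obtain ⟨m, hm1, hm2⟩ : ∃ m : ℕ, (m : ℝ) ≤ 2 - z.re ∧ 2 - z.re < m + 1 :=
      ⟨⌊2 - z.re⌋₊, Nat.floor_le (by linarith), Nat.lt_floor_add_one _⟩
    have a := Del_left (z + m) (by simp; linarith) (by simpa using hi) m
    have b := hz0 (z + m) (by simp; linarith) (by simp; linarith) (by simp)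
    rw [add_sub_cancel_right] at a
    have c := hh m (by linarith [hre.1])
    have := abs_sub_abs_le_abs_sub (Del z) (Del (z + m))
    nlinarith

end Pool.Agent.P.MP_26ad15_nt
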