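import Mathlib

/-! A Watson type uniqueness lemma: a function of subexponential growth on a half plane which
decays exponentially along one boundary ray vanishes. -/

namespace Pool.Agent.P.MP_26ad15_nt

open Complex Set Filter Topology Asymptotics

theorem watson {f : ℂ → ℂ} (hd : DiffContOnCl ℂ f {z | 0 < z.re}) {R b C δ : ℝ} (hR : 1 ≤ R)
    (hb0 : 0 ≤ b) (hb : b < 1) (hC : 0 ≤ C) (hδ : 0 < δ)
    (hbd : ∀ z : ℂ, 0 ≤ z.re → ‖f z‖ ≤ Real.exp (C * ‖z + R‖ ^ b))
    (hdec : (fun y : ℝ => f (-(y * I))) =O[atTop] fun y => Real.exp (-(δ * y))) :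
    ∀ z : ℂ, 0 ≤ z.re → f z = 0 := by
  set c0 := Real.cos (b * (Real.pi / 2)) with hc0
  have hc0p : 0 < c0 := Real.cos_pos_of_mem_Ioo ⟨by nlinarith [Real.pi_pos], by
    nlinarith [Real.pi_pos]⟩
  set E : ℂ → ℂ := fun z => -((C / c0 : ℝ) : ℂ) * (z + R) ^ (b : ℂ) + I * ((δ / 2 : ℝ) : ℂ) * z -
    ((δ / 4 : ℝ) : ℂ) * ((z + R) * Complex.log (z + R)) with hE
  have hsl : ∀ z : ℂ, 0 ≤ z.re → z + R ∈ slitPlane := fun z hz => Or.inl (by simp; linarith)
  have hEd : ∀ z : ℂ, 0 ≤ z.re → DifferentiableAt ℂ E z := by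
    intro z hz
    have h1 : DifferentiableAt ℂ (fun z : ℂ => z + R) z := by fun_prop
    have h2 := h1.cpow_const (c := (b : ℂ)) (hsl z hz)
    have h3 := h1.clog (hsl z hz)
    exact ((h2.const_mul _).add (by fun_prop)).sub ((h1.mul h3).const_mul _)
  have hEre : ∀ z : ℂ, 0 ≤ z.re → (E z).re ≤ -(C * ‖z + R‖ ^ b) - δ / 2 * z.im + δ / 2 * |z.im|
      - δ / 4 * ((z.re + R) * Real.log ‖z + R‖) := by
    intro z hz
    have harg : |arg (z + R)| ≤ Real.pi / 2 := abs_arg_le_pi_div_two_iff.2 (by simp; linarith)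
    have h1 : ‖z + R‖ ^ b * c0 ≤ ((z + R) ^ (b : ℂ)).re := by
      rw [Complex.cpow_ofReal_re, ← Real.cos_abs (arg (z + R) * b)]
      refine mul_le_mul_of_nonneg_left ?_ (by positivity)
      refine Real.cos_le_cos_of_nonneg_of_le_pi (abs_nonneg _) (by nlinarith [Real.pi_pos]) ?_
      rw [abs_mul, abs_of_nonneg hb0, mul_comm]
      exact mul_le_mul_of_nonneg_left harg hb0
    have h2 : C * ‖z + R‖ ^ b ≤ C / c0 * ((z + R) ^ (b : ℂ)).re := by
      calc C * ‖z + R‖ ^ b = C / c0 * (‖z + R‖ ^ b * c0) := by field_simp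
        _ ≤ _ := mul_le_mul_of_nonneg_left h1 (by positivity)
    have h3 : z.im * arg (z + R) ≤ 2 * |z.im| := by
      refine (le_abs_self _).trans ?_
      rw [abs_mul]
      nlinarith [abs_nonneg z.im, Real.pi_le_four]
    simp only [hE, sub_re, add_re, mul_re, neg_re, ofReal_re, neg_im, ofReal_im, I_re, I_im,
      mul_im, Complex.log_re, Complex.log_im, add_im]
    nlinarith
  set h : ℂ → ℂ := fun z => cexp (E z) * f z with hh
  have hlog : ∀ z : ℂ, 0 ≤ z.re → 0 ≤ (z.re + R) * Real.log ‖z + R‖ := by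
    intro z hz
    refine mul_nonneg (by linarith) (Real.log_nonneg ?_)
    have := re_le_norm (z + R)
    simp at this
    linarith
  have hn1 : ∀ z : ℂ, 0 ≤ z.re → ‖h z‖ ≤ Real.exp (- δ / 2 * z.im + δ / 2 * |z.im|
      - δ / 4 * ((z.re + R) * Real.log ‖z + R‖)) := by
    intro z hz
    rw [hh, norm_mul, Complex.norm_exp]
    refine (mul_le_mul (Real.exp_le_exp.2 (hEre z hz)) (hbd z hz) (norm_nonneg _)
      (Real.exp_pos _).le).trans ?_
    rw [← Real.exp_add]
    exact le_of_eq (by congr 1; ring)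
  have hn2 : ∀ z : ℂ, 0 ≤ z.re → ‖h z‖ ≤ Real.exp (δ * |z.im|) * ‖f z‖ := by
    intro z hz
    rw [hh, norm_mul, Complex.norm_exp]
    refine mul_le_mul_of_nonneg_right (Real.exp_le_exp.2 ((hEre z hz).trans ?_)) (norm_nonneg _)
    have : 0 ≤ C * ‖z + R‖ ^ b := by positivity
    nlinarith [hlog z hz, neg_le_abs z.im]
  have hdh : DiffContOnCl ℂ h {z | 0 < z.re} := by
    have h1 : DiffContOnCl ℂ (fun z => cexp (E z)) {z | 0 < z.re} := by
      refine DifferentiableOn.diffContOnCl ?_
      rw [closure_setOfPred_lt_re]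
      exact fun z hz => (hEd z hz).cexp.differentiableWithinAt
    exact ⟨h1.1.mul hd.1, h1.2.mul hd.2⟩
  have key := PhragmenLindelof.eq_zero_on_right_half_plane_of_superexponential_decay hdh
    ⟨1, one_lt_two, δ, ?_⟩ ?_ ?_
  · intro z hz
    have := key hz
    simpa [hh] using this
  · refine IsBigO.of_bound' (eventually_inf_principal.2 (Eventually.of_forall fun z hz => ?_))
    have hz' : 0 ≤ z.re := le_of_lt hz
    refine (hn1 z hz').trans ?_
    rw [Real.norm_eq_abs, Real.abs_exp, Real.rpow_one]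
    refine Real.exp_le_exp.2 ?_
    nlinarith [hlog z hz', neg_le_abs z.im, abs_im_le_norm z]
  · intro n
    have t1 : Tendsto (fun x : ℝ => x * ((n : ℝ) - δ / 4 * Real.log x)) atTop atBot := by
      refine tendsto_id.atTop_mul_atBot₀ ?_
      refine tendsto_atBot_add_const_left _ _ ?_
      exact tendsto_neg_atTop_atBot.comp (Real.tendsto_log_atTop.const_mul_atTop (by positivity))
    refine squeeze_zero' (Eventually.of_forall fun x => by positivity) ?_
      (Real.tendsto_exp_atBot.comp t1)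
    filter_upwards [eventually_ge_atTop 1] with x hx
    have := hn1 x (by simp; linarith)
    simp only [ofReal_im, mul_zero, abs_zero, add_zero, zero_sub, ofReal_re] at this
    rw [← ofReal_add, Complex.norm_real, Real.norm_of_nonneg (by linarith)] at this
    refine (mul_le_mul_of_nonneg_left this (by positivity)).trans ?_
    rw [← Real.exp_nat_mul, ← Real.exp_add]
    refine Real.exp_le_exp.2 ?_
    have a1 : Real.log x ≤ Real.log (x + R) := Real.log_le_log (by linarith) (by linarith)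
    have a2 : 0 ≤ Real.log x := Real.log_nonneg hx
    have a3 : x * Real.log x ≤ (x + R) * Real.log (x + R) :=
      mul_le_mul (by linarith) a1 a2 (by linarith)
    nlinarith
  · obtain ⟨K, hK⟩ := hdec.bound
    obtain ⟨Y, hY⟩ := eventually_atTop.1 hK
    refine ⟨max K (Real.exp (δ * |Y|)), fun x => ?_⟩
    by_cases hx : Y ≤ -x ∧ x ≤ 0
    · refine le_trans ?_ (le_max_left _ _)
      have a := hY (-x) hx.1
      have e : -(((-x : ℝ) : ℂ) * I) = x * I := by push_cast; ring
      rw [e, Real.norm_eq_abs, Real.abs_exp] at a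
      refine (hn2 (x * I) (by simp)).trans ?_
      refine (mul_le_mul_of_nonneg_left a (by positivity)).trans (le_of_eq ?_)
      have : |((x : ℂ) * I).im| = -x := by simp [abs_of_nonpos hx.2]
      rw [this, mul_left_comm, ← Real.exp_add]
      simp
    · refine le_trans ?_ (le_max_right _ _)
      refine (hn1 (x * I) (by simp)).trans (Real.exp_le_exp.2 ?_)
      have a := hlog (x * I) (by simp)
      have e : ((x : ℂ) * I).im = x := by simp
      rw [e]
      rcases le_total 0 x with h0 | h0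
      · rw [abs_of_nonneg h0]
        nlinarith [abs_nonneg Y]
      · have : -x < Y := by
          by_contra hc
          exact hx ⟨not_lt.1 hc, h0⟩
        rw [abs_of_nonpos h0]
        nlinarith [le_abs_self Y]

end Pool.Agent.P.MP_26ad15_nt
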